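import Pool.Agent.Designs.Defs

set_option autoImplicit false

/-!
# Module Transp: transport of vectors along injective maps

`pb φ A L` is the pull-back of a vector, `pf φ A L` the push-forward. `φ` injective on `A`.
Degrees: `dg (powersetCard r (A.image φ)) (pf φ A L) (S.image φ) = dg (powersetCard r A) L S` for
`S ⊆ A`; sets not contained in the vertex set have degree zero.
-/

namespace Pool.Agent.Kv

open Finset

/-- push-forward of a vector on subsets of `A` under a map injective on `A`: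
the value at `φ(T)` is `L T`. -/
noncomputable def pf (φ : ℕ → ℕ) (A : Finset ℕ) (L : Finset ℕ → ℤ) : Finset ℕ → ℤ :=
  fun e => ∑ T ∈ A.powerset.filter (fun T => T.image φ = e), L T

lemma Transp_sub {φ : ℕ → ℕ} {A : Finset ℕ} (hφ : Set.InjOn φ A) {S T : Finset ℕ}
    (hS : S ⊆ A) (hT : T ⊆ A) : S.image φ ⊆ T.image φ ↔ S ⊆ T := by
  constructor
  · intro h x hx
    obtain ⟨y, hy, hxy⟩ := mem_image.mp (h (mem_image_of_mem φ hx))
    have : y = x := hφ (mem_coe.mpr (hT hy)) (mem_coe.mpr (hS hx)) hxy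
    rw [← this]; exact hy
  · exact fun h => image_subset_image h

lemma Transp_inj {φ : ℕ → ℕ} {A : Finset ℕ} (hφ : Set.InjOn φ A) {S T : Finset ℕ}
    (hS : S ⊆ A) (hT : T ⊆ A) (h : S.image φ = T.image φ) : S = T :=
  Subset.antisymm ((Transp_sub hφ hS hT).mp h.subset) ((Transp_sub hφ hT hS).mp h.symm.subset)

lemma Transp_card {φ : ℕ → ℕ} {A : Finset ℕ} (hφ : Set.InjOn φ A) {S : Finset ℕ}
    (hS : S ⊆ A) : (S.image φ).card = S.card :=
  card_image_of_injOn (hφ.mono (by exact_mod_cast hS))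

lemma Transp_pre {φ : ℕ → ℕ} {A e : Finset ℕ} (he : e ⊆ A.image φ) :
    ∃ T ⊆ A, T.image φ = e := by
  obtain ⟨T, hT, h⟩ := subset_image_iff.mp he
  exact ⟨T, hT, h⟩

theorem pf_apply {φ : ℕ → ℕ} {A : Finset ℕ} (hφ : Set.InjOn φ A) (L : Finset ℕ → ℤ)
    {T : Finset ℕ} (hT : T ⊆ A) : pf φ A L (T.image φ) = L T := by
  have h : A.powerset.filter (fun T' => T'.image φ = T.image φ) = {T} := by
    ext T'
    rw [mem_filter, mem_powerset, mem_singleton]
    constructor
    · rintro ⟨h1, h2⟩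
      exact Transp_inj hφ h1 hT h2
    · rintro rfl
      exact ⟨hT, rfl⟩
  unfold pf
  rw [h, sum_singleton]

theorem pf_zero {φ : ℕ → ℕ} {A : Finset ℕ} (L : Finset ℕ → ℤ) {e : Finset ℕ}
    (he : ¬ e ⊆ A.image φ) : pf φ A L e = 0 := by
  unfold pf
  apply sum_eq_zero
  intro T hT
  exfalso
  rw [mem_filter, mem_powerset] at hT
  apply he
  rw [← hT.2]
  exact image_subset_image hT.1

lemma Transp_ext {φ : ℕ → ℕ} {A : Finset ℕ} (hφ : Set.InjOn φ A) {L M : Finset ℕ → ℤ}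
    (h1 : ∀ T ⊆ A, L T = M (T.image φ)) (h2 : ∀ e, ¬ e ⊆ A.image φ → M e = 0) :
    pf φ A L = M := by
  funext e
  by_cases he : e ⊆ A.image φ
  · obtain ⟨T, hT, rfl⟩ := Transp_pre he
    rw [pf_apply hφ L hT, h1 T hT]
  · rw [pf_zero L he, h2 e he]

lemma Transp_dg {φ : ℕ → ℕ} {A : Finset ℕ} (hφ : Set.InjOn φ A) {r : ℕ} (L : Finset ℕ → ℤ)
    {W S : Finset ℕ} (hW : W ⊆ A) (hS : S ⊆ A) :
    dg (powersetCard r (W.image φ)) (pf φ A L) (S.image φ) = dg (powersetCard r W) L S := by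
  unfold dg
  symm
  apply sum_bij (fun T _ => T.image φ)
  · intro T hT
    rw [mem_filter, mem_powersetCard] at hT ⊢
    exact ⟨⟨image_subset_image hT.1.1, by rw [Transp_card hφ (hT.1.1.trans hW), hT.1.2]⟩,
      image_subset_image hT.2⟩
  · intro T hT T' hT' h
    rw [mem_filter, mem_powersetCard] at hT hT'
    exact Transp_inj hφ (hT.1.1.trans hW) (hT'.1.1.trans hW) h
  · intro e he
    rw [mem_filter, mem_powersetCard] at he
    obtain ⟨T, hT, rfl⟩ := Transp_pre he.1.1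
    refine ⟨T, ?_, rfl⟩
    rw [mem_filter, mem_powersetCard]
    exact ⟨⟨hT, by rw [← Transp_card hφ (hT.trans hW), he.1.2]⟩,
      (Transp_sub hφ hS (hT.trans hW)).mp he.2⟩
  · intro T hT
    rw [mem_filter, mem_powersetCard] at hT
    exact (pf_apply hφ L (hT.1.1.trans hW)).symm

lemma Transp_dg_zero {r : ℕ} (L : Finset ℕ → ℤ) {W S : Finset ℕ} (hS : ¬ S ⊆ W) :
    dg (powersetCard r W) L S = 0 := by
  unfold dg
  apply sum_eq_zero
  intro T hT
  rw [mem_filter, mem_powersetCard] at hT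
  exact absurd (hT.2.trans hT.1.1) hS

theorem pf_mem_Dv {φ : ℕ → ℕ} {A : Finset ℕ} (hφ : Set.InjOn φ A) {q r : ℕ} {L : Finset ℕ → ℤ}
    {W : Finset ℕ} (hWA : W ⊆ A) (hL : L ∈ Dv q r (powersetCard r W)) :
    pf φ A L ∈ Dv q r (powersetCard r (W.image φ)) := by
  refine ⟨?_, ?_⟩
  · intro e he
    by_cases he' : e ⊆ A.image φ
    · obtain ⟨T, hT, rfl⟩ := Transp_pre he'
      rw [pf_apply hφ L hT]
      apply hL.1
      intro h
      apply he
      rw [mem_powersetCard] at h ⊢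
      exact ⟨image_subset_image h.1, by rw [Transp_card hφ hT, h.2]⟩
    · exact pf_zero L he'
  · intro S hS
    by_cases hSW : S ⊆ W.image φ
    · obtain ⟨T, hT, rfl⟩ := Transp_pre hSW
      rw [Transp_card hφ (hT.trans hWA)] at hS ⊢
      rw [Transp_dg hφ L hWA (hT.trans hWA)]
      exact hL.2 T hS
    · rw [Transp_dg_zero _ hSW]
      exact dvd_zero _

/-- every divisible vector on the image comes from a divisible vector. -/
theorem exists_pf {φ : ℕ → ℕ} {A : Finset ℕ} (hφ : Set.InjOn φ A) {q r : ℕ} {M : Finset ℕ → ℤ}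
    (hM : M ∈ Dv q r (powersetCard r (A.image φ))) :
    ∃ L ∈ Dv q r (powersetCard r A), pf φ A L = M ∧ ∀ T ⊆ A, L T = M (T.image φ) := by
  have h1 : ∀ T ⊆ A, (fun T : Finset ℕ => if T ⊆ A then M (T.image φ) else 0) T =
      M (T.image φ) := by
    intro T hT
    simp only [if_pos hT]
  have h2 : pf φ A (fun T : Finset ℕ => if T ⊆ A then M (T.image φ) else 0) = M := by
    refine Transp_ext hφ h1 ?_
    intro e he
    apply hM.1
    intro h
    exact he (mem_powersetCard.mp h).1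
  refine ⟨fun T => if T ⊆ A then M (T.image φ) else 0, ⟨?_, ?_⟩, h2, h1⟩
  · intro T hT
    by_cases hTA : T ⊆ A
    · simp only [if_pos hTA]
      apply hM.1
      intro h
      apply hT
      rw [mem_powersetCard] at h ⊢
      exact ⟨hTA, by rw [← Transp_card hφ hTA, h.2]⟩
    · simp only [if_neg hTA]
  · intro S hS
    by_cases hSA : S ⊆ A
    · rw [← Transp_dg hφ _ (Subset.refl A) hSA, h2, ← Transp_card hφ hSA]
      apply hM.2
      rw [Transp_card hφ hSA]
      exact hS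
    · rw [Transp_dg_zero _ hSA]
      exact dvd_zero _

theorem pf_add {φ : ℕ → ℕ} {A : Finset ℕ} (L M : Finset ℕ → ℤ) :
    pf φ A (L + M) = pf φ A L + pf φ A M := by
  funext e
  simp only [pf, Pi.add_apply, sum_add_distrib]

lemma pf_sum {ι : Type*} {φ : ℕ → ℕ} {A : Finset ℕ} (s : Finset ι) (L : ι → Finset ℕ → ℤ) :
    pf φ A (∑ j ∈ s, L j) = ∑ j ∈ s, pf φ A (L j) := by
  funext e
  simp only [pf, Finset.sum_apply]
  exact sum_comm

theorem Gen_image {φ : ℕ → ℕ} {A : Finset ℕ} (hφ : Set.InjOn φ A) {q r : ℕ}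
    {F : Finset (Finset ℕ)} (hF : ∀ W ∈ F, W ⊆ A) (hgen : Gen q r (powersetCard r A) F) :
    Gen q r (powersetCard r (A.image φ)) (F.image (fun W => W.image φ)) := by
  intro M hM
  obtain ⟨L, hL, hLM, -⟩ := exists_pf hφ hM
  obtain ⟨f, hf, hLf⟩ := hgen L hL
  refine ⟨fun V => ∑ W ∈ F.filter (fun W => W.image φ = V), pf φ A (f W), ?_, ?_⟩
  · intro V _
    apply AddSubgroup.sum_mem
    intro W hW
    rw [mem_filter] at hW
    rw [← hW.2]
    exact pf_mem_Dv hφ (hF W hW.1) (hf W hW.1)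
  · rw [← hLM, hLf, pf_sum]
    exact (sum_fiberwise_of_maps_to (fun W hW => mem_image_of_mem _ hW) _).symm

/-- indicator vectors. -/
theorem pf_ind {φ : ℕ → ℕ} {A : Finset ℕ} (hφ : Set.InjOn φ A) {X : Finset (Finset ℕ)}
    (hX : ∀ e ∈ X, e ⊆ A) : pf φ A (ind X) = ind (X.image (fun e => e.image φ)) := by
  refine Transp_ext hφ ?_ ?_
  · intro T hT
    have : T ∈ X ↔ T.image φ ∈ X.image (fun e => e.image φ) := by
      constructor
      · exact fun h => mem_image_of_mem _ h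
      · intro h
        obtain ⟨e, he, h⟩ := mem_image.mp h
        rw [← Transp_inj hφ (hX e he) hT h]
        exact he
    unfold ind
    by_cases h : T ∈ X
    · rw [if_pos h, if_pos (this.mp h)]
    · rw [if_neg h, if_neg (fun h' => h (this.mpr h'))]
  · intro e he
    unfold ind
    rw [if_neg]
    intro h
    obtain ⟨e', he', rfl⟩ := mem_image.mp h
    exact he (image_subset_image (hX e' he'))

lemma pf_K {φ : ℕ → ℕ} {A : Finset ℕ} (hφ : Set.InjOn φ A) {r : ℕ} {Q : Finset ℕ}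
    (hQ : Q ⊆ A) : pf φ A (K r Q) = K r (Q.image φ) := by
  rw [K_eq_ind, K_eq_ind, pf_ind hφ (fun e he => (mem_powersetCard.mp he).1.trans hQ)]
  congr 1
  ext e
  rw [mem_image, mem_powersetCard]
  constructor
  · rintro ⟨T, hT, rfl⟩
    rw [mem_powersetCard] at hT
    exact ⟨image_subset_image hT.1, by rw [Transp_card hφ (hT.1.trans hQ), hT.2]⟩
  · rintro ⟨h1, h2⟩
    obtain ⟨T, hT, rfl⟩ := Transp_pre h1
    refine ⟨T, ?_, rfl⟩
    rw [mem_powersetCard]
    exact ⟨hT, by rw [← Transp_card hφ (hT.trans hQ), h2]⟩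

theorem pf_vec {φ : ℕ → ℕ} {A : Finset ℕ} (hφ : Set.InjOn φ A) {r : ℕ} {X : Finset (Finset ℕ)}
    (hX : ∀ e ∈ X, e ⊆ A) : pf φ A (vec r X) = vec r (X.image (fun e => e.image φ)) := by
  unfold vec
  rw [pf_sum, sum_image]
  · exact sum_congr rfl (fun Q hQ => pf_K hφ (hX Q hQ))
  · intro Q hQ Q' hQ' h
    exact Transp_inj hφ (hX Q hQ) (hX Q' hQ') h

end Pool.Agent.Kv
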