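import Pool.Agent.Designs.AbsN
import Pool.Agent.Designs.Transp

set_option autoImplicit false

/-!
# Module Abs2: uniform absorbers (section 8 (8c))
-/

namespace Pool.Agent.Kv

open Finset

/-- bounded version of `absN`, with all hypotheses moved inside the statement. -/
lemma abs2_step {q r : ℕ} (hr : 1 ≤ r) (hrq : r < q) (y : ℕ) (D0 D1 : Finset (Finset ℕ)) :
    ∃ N : ℕ, D0 ⊆ powersetCard r (range y) → D1 ⊆ powersetCard r (range y) → Disjoint D0 D1 →
      ind D1 - ind D0 ∈ Dv q r (powersetCard r (range y)) →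
      ∃ A B : Finset (Finset ℕ), (∀ Q ∈ A ∪ B, Q ⊆ range N ∧ Q.card = q) ∧
        (∀ e ⊆ range y, vec r A e = ind D0 e ∧ vec r B e = ind D1 e) ∧
        ∀ e, ¬ e ⊆ range y → vec r A e = vec r B e ∧ vec r A e ≤ 1 := by
  by_cases h : D0 ⊆ powersetCard r (range y) ∧ D1 ⊆ powersetCard r (range y) ∧ Disjoint D0 D1 ∧
      ind D1 - ind D0 ∈ Dv q r (powersetCard r (range y))
  · obtain ⟨h0, h1, h2, h3⟩ := h
    obtain ⟨A, B, hQ, hY, hn⟩ := absN hr hrq h0 h1 h2 h3
    refine ⟨((A ∪ B).biUnion id).sup id + 1, fun _ _ _ _ => ⟨A, B, fun Q hQQ => ⟨?_, hQ Q hQQ⟩,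
      hY, hn⟩⟩
    intro x hx
    rw [mem_range, Nat.lt_succ_iff]
    exact le_sup (f := id) (mem_biUnion.mpr ⟨Q, hQQ, hx⟩)
  · exact ⟨0, fun h0 h1 h2 h3 => absurd ⟨h0, h1, h2, h3⟩ h⟩

lemma abs2_vec_nonneg (r : ℕ) (A : Finset (Finset ℕ)) (e : Finset ℕ) : 0 ≤ vec r A e := by
  rw [vec_apply]
  apply sum_nonneg
  intro Q _
  unfold K
  split_ifs <;> norm_num

/-- a numbering of `Y` followed by part of `Z`. -/
lemma abs2_phi {Y Z : Finset ℕ} (hYZ : Disjoint Y Z) {N : ℕ} (hYN : Y.card ≤ N)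
    (hN : N ≤ Z.card) :
    ∃ φ : ℕ → ℕ, Set.InjOn φ (range N) ∧ (range Y.card).image φ = Y ∧
      ∀ i, Y.card ≤ i → i < N → φ i ∈ Z := by
  classical
  have e1 : (range Y.card).card = Y.card := card_range _
  let f1 : range Y.card ≃ Y := Finset.equivOfCardEq e1
  obtain ⟨Z', hZ', hZc⟩ := exists_subset_card_eq (s := Z) (n := (range N \ range Y.card).card)
    (le_trans (card_le_card sdiff_subset) (by rw [card_range]; exact hN))
  let f2 : (range N \ range Y.card : Finset ℕ) ≃ Z' := Finset.equivOfCardEq hZc.symm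
  let φ : ℕ → ℕ := fun i => if h : i ∈ range Y.card then (f1 ⟨i, h⟩ : ℕ) else
    if h2 : i ∈ range N \ range Y.card then (f2 ⟨i, h2⟩ : ℕ) else 0
  have hφ1 : ∀ i (h : i ∈ range Y.card), φ i = f1 ⟨i, h⟩ := fun i h => by
    simp only [φ]; rw [dif_pos h]
  have hφ2 : ∀ i (h : i ∈ range N \ range Y.card), φ i = f2 ⟨i, h⟩ := fun i h => by
    simp only [φ]; rw [dif_neg (mem_sdiff.mp h).2, dif_pos h]
  refine ⟨φ, ?_, ?_, ?_⟩
  · intro i hi j hj hij
    have hi' : i ∈ range N := hi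
    have hj' : j ∈ range N := hj
    by_cases h1 : i ∈ range Y.card
    · by_cases h2 : j ∈ range Y.card
      · rw [hφ1 i h1, hφ1 j h2] at hij
        have := f1.injective (Subtype.ext hij)
        exact congrArg Subtype.val this
      · have h2' : j ∈ range N \ range Y.card := mem_sdiff.mpr ⟨hj', h2⟩
        rw [hφ1 i h1, hφ2 j h2'] at hij
        exfalso
        have m1 : (f1 ⟨i, h1⟩ : ℕ) ∈ Y := (f1 ⟨i, h1⟩).2
        have m2 : (f2 ⟨j, h2'⟩ : ℕ) ∈ Z := hZ' (f2 ⟨j, h2'⟩).2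
        rw [← hij] at m2
        exact (disjoint_left.mp hYZ) m1 m2
    · have h1' : i ∈ range N \ range Y.card := mem_sdiff.mpr ⟨hi', h1⟩
      by_cases h2 : j ∈ range Y.card
      · rw [hφ2 i h1', hφ1 j h2] at hij
        exfalso
        have m1 : (f1 ⟨j, h2⟩ : ℕ) ∈ Y := (f1 ⟨j, h2⟩).2
        have m2 : (f2 ⟨i, h1'⟩ : ℕ) ∈ Z := hZ' (f2 ⟨i, h1'⟩).2
        rw [hij] at m2
        exact (disjoint_left.mp hYZ) m1 m2
      · have h2' : j ∈ range N \ range Y.card := mem_sdiff.mpr ⟨hj', h2⟩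
        rw [hφ2 i h1', hφ2 j h2'] at hij
        have := f2.injective (Subtype.ext hij)
        exact congrArg Subtype.val this
  · ext v
    rw [mem_image]
    constructor
    · rintro ⟨i, hi, rfl⟩
      rw [hφ1 i hi]
      exact (f1 ⟨i, hi⟩).2
    · intro hv
      refine ⟨(f1.symm ⟨v, hv⟩ : ℕ), (f1.symm ⟨v, hv⟩).2, ?_⟩
      rw [hφ1 _ (f1.symm ⟨v, hv⟩).2]
      simp
  · intro i hi hiN
    have h : i ∈ range N \ range Y.card := by
      rw [mem_sdiff, mem_range, mem_range]; omega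
    rw [hφ2 i h]
    exact hZ' (f2 ⟨i, h⟩).2

/-- `image φ` is injective on subsets of a set where `φ` is injective. -/
lemma abs2_image_inj {φ : ℕ → ℕ} {A : Finset ℕ} (hφ : Set.InjOn φ A) {S T : Finset ℕ}
    (hS : S ⊆ A) (hT : T ⊆ A) (h : S.image φ = T.image φ) : S = T := by
  ext x
  constructor
  · intro hx
    have : φ x ∈ T.image φ := h ▸ mem_image_of_mem φ hx
    obtain ⟨y, hy, hxy⟩ := mem_image.mp this
    rwa [← hφ (hT hy) (hS hx) hxy]
  · intro hx
    have : φ x ∈ S.image φ := h ▸ mem_image_of_mem φ hx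
    obtain ⟨y, hy, hxy⟩ := mem_image.mp this
    rwa [← hφ (hS hy) (hT hx) hxy]

/-- pulling back a family of `r`-subsets of the image. -/
lemma abs2_pull {φ : ℕ → ℕ} {A : Finset ℕ} {r : ℕ} (hφ : Set.InjOn φ A)
    {D : Finset (Finset ℕ)} (hD : D ⊆ powersetCard r (A.image φ)) :
    ∃ D' : Finset (Finset ℕ), D' ⊆ powersetCard r A ∧ D'.image (fun e => e.image φ) = D ∧
      ∀ e ⊆ A, (e ∈ D' ↔ e.image φ ∈ D) := by
  have key : ∀ e ⊆ A, e.image φ ∈ D → e ∈ powersetCard r A := by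
    intro e he hD'
    rw [mem_powersetCard]
    refine ⟨he, ?_⟩
    rw [← (mem_powersetCard.mp (hD hD')).2, card_image_of_injOn (hφ.mono (by exact_mod_cast he))]
  refine ⟨(powersetCard r A).filter (fun e => e.image φ ∈ D), filter_subset _ _, ?_, ?_⟩
  · ext f
    rw [mem_image]
    constructor
    · rintro ⟨e, he, rfl⟩
      exact (mem_filter.mp he).2
    · intro hf
      have h1 := (mem_powersetCard.mp (hD hf)).1
      have h2 : (A.filter (fun a => φ a ∈ f)).image φ = f := by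
        ext v
        simp only [mem_image, mem_filter]
        constructor
        · rintro ⟨a, ⟨_, h⟩, rfl⟩
          exact h
        · intro hv
          obtain ⟨a, ha, rfl⟩ := mem_image.mp (h1 hv)
          exact ⟨a, ⟨ha, hv⟩, rfl⟩
      refine ⟨A.filter (fun a => φ a ∈ f), mem_filter.mpr ⟨key _ (filter_subset _ _) ?_, ?_⟩, h2⟩
      · rw [h2]; exact hf
      · rw [h2]; exact hf
  · intro e he
    rw [mem_filter]
    exact ⟨fun h => h.2, fun h => ⟨key e he h, h⟩⟩

theorem abs2 {q r : ℕ} (hr : 1 ≤ r) (hrq : r < q) (C2 : ℕ) :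
    ∃ C3 : ℕ, ∀ (Y Z : Finset ℕ) (D0 D1 : Finset (Finset ℕ)), Disjoint Y Z → Y.card ≤ C2 →
      C3 ≤ Z.card → D0 ⊆ powersetCard r Y → D1 ⊆ powersetCard r Y → Disjoint D0 D1 →
      ind D1 - ind D0 ∈ Dv q r (powersetCard r Y) →
      ∃ T A B : Finset (Finset ℕ), T ⊆ claim r Y Z ∧ (∀ Q ∈ A ∪ B, Q ⊆ Y ∪ Z ∧ Q.card = q) ∧
        vec r A = ind T + ind D0 ∧ vec r B = ind T + ind D1 := by
  classical
  choose N hN using fun (y : ℕ) (D0 D1 : Finset (Finset ℕ)) => abs2_step hr hrq y D0 D1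
  let S : ℕ → Finset (Finset (Finset ℕ)) := fun y => (powersetCard r (range y)).powerset
  let C3 : ℕ := ((range (C2 + 1)).sup fun y => (S y).sup fun D0 => (S y).sup fun D1 => N y D0 D1)
    + C2
  have hC3 : ∀ y ≤ C2, ∀ D0 ∈ S y, ∀ D1 ∈ S y, N y D0 D1 ≤ C3 := by
    intro y hy D0 h0 D1 h1
    have e1 : N y D0 D1 ≤ (S y).sup fun D1 => N y D0 D1 :=
      le_sup (f := fun D1 => N y D0 D1) h1
    have e2 : ((S y).sup fun D1 => N y D0 D1) ≤
        (S y).sup fun D0 => (S y).sup fun D1 => N y D0 D1 :=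
      le_sup (f := fun D0 => (S y).sup fun D1 => N y D0 D1) h0
    have e3 : ((S y).sup fun D0 => (S y).sup fun D1 => N y D0 D1) ≤
        (range (C2 + 1)).sup fun y => (S y).sup fun D0 => (S y).sup fun D1 => N y D0 D1 :=
      le_sup (f := fun y => (S y).sup fun D0 => (S y).sup fun D1 => N y D0 D1)
        (mem_range.mpr (Nat.lt_succ_of_le hy))
    simp only [C3]
    omega
  refine ⟨C3, ?_⟩
  intro Y Z D0 D1 hYZ hYc hZc hD0 hD1 hD hDv
  have hyC3 : Y.card ≤ C3 := le_trans hYc (Nat.le_add_left _ _)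
  obtain ⟨φ, hφ, hφY, hφZ⟩ := abs2_phi hYZ hyC3 hZc
  have hsub : range Y.card ⊆ range C3 := by
    intro i hi; rw [mem_range] at hi ⊢; omega
  have hφy : Set.InjOn φ (range Y.card) := hφ.mono (by exact_mod_cast hsub)
  obtain ⟨D0', hD0s, hD0i, hD0m⟩ := abs2_pull (r := r) hφy (D := D0) (by rw [hφY]; exact hD0)
  obtain ⟨D1', hD1s, hD1i, hD1m⟩ := abs2_pull (r := r) hφy (D := D1) (by rw [hφY]; exact hD1)
  have hD' : Disjoint D0' D1' := by
    rw [disjoint_left]
    intro e h0 h1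
    have he := (mem_powersetCard.mp (hD0s h0)).1
    exact (disjoint_left.mp hD) ((hD0m e he).mp h0) ((hD1m e he).mp h1)
  have hDv' : ind D1' - ind D0' ∈ Dv q r (powersetCard r (range Y.card)) := by
    obtain ⟨L, hL, -, hL2⟩ := exists_pf hφy (q := q) (r := r) (M := ind D1 - ind D0)
      (by rw [hφY]; exact hDv)
    have : ind D1' - ind D0' = L := by
      funext e
      by_cases he : e ⊆ range Y.card
      · rw [hL2 e he]
        simp only [Pi.sub_apply, ind, hD0m e he, hD1m e he]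
      · have hne : e ∉ powersetCard r (range Y.card) := fun h => he (mem_powersetCard.mp h).1
        rw [hL.1 e hne]
        have n0 : e ∉ D0' := fun h => hne (hD0s h)
        have n1 : e ∉ D1' := fun h => hne (hD1s h)
        simp [ind, n0, n1]
    rw [this]; exact hL
  obtain ⟨A', B', hQ, hY1, hY2⟩ := hN Y.card D0' D1' hD0s hD1s hD' hDv'
  have hNC : range (N Y.card D0' D1') ⊆ range C3 := by
    have := hC3 Y.card hYc D0' (mem_powerset.mpr hD0s) D1' (mem_powerset.mpr hD1s)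
    intro i hi; rw [mem_range] at hi ⊢; omega
  have hA' : ∀ e ∈ A', e ⊆ range C3 := fun e he =>
    (hQ e (mem_union_left _ he)).1.trans hNC
  have hB' : ∀ e ∈ B', e ⊆ range C3 := fun e he =>
    (hQ e (mem_union_right _ he)).1.trans hNC
  have hvz : ∀ (X : Finset (Finset ℕ)), (∀ e ∈ X, e ⊆ range C3) → ∀ e,
      e ∉ powersetCard r (range C3) → vec r X e = 0 := by
    intro X hX e he
    rw [vec_apply]
    apply sum_eq_zero
    intro Q hQX
    unfold K
    rw [if_neg]
    rintro ⟨h1, h2⟩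
    exact he (mem_powersetCard.mpr ⟨h1.trans (hX Q hQX), h2⟩)
  let T' : Finset (Finset ℕ) := (powersetCard r (range C3)).filter
    (fun e => ¬ e ⊆ range Y.card ∧ vec r A' e = 1)
  have hTA : vec r A' = ind T' + ind D0' := by
    funext e
    rw [Pi.add_apply]
    by_cases he : e ⊆ range Y.card
    · have : e ∉ T' := fun h => (mem_filter.mp h).2.1 he
      rw [(hY1 e he).1]
      simp [ind, this]
    · have h0 : e ∉ D0' := fun h => he (mem_powersetCard.mp (hD0s h)).1
      by_cases h1 : vec r A' e = 1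
      · have hm : e ∈ powersetCard r (range C3) := by
          by_contra hne
          rw [hvz A' hA' e hne] at h1
          exact zero_ne_one h1
        have hT : e ∈ T' := mem_filter.mpr ⟨hm, he, h1⟩
        rw [h1]
        simp [ind, hT, h0]
      · have hT : e ∉ T' := fun h => h1 (mem_filter.mp h).2.2
        have h2 := (hY2 e he).2
        have h3 := abs2_vec_nonneg r A' e
        have h4 : vec r A' e = 0 := by omega
        rw [h4]
        simp [ind, hT, h0]
  have hTB : vec r B' = ind T' + ind D1' := by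
    funext e
    rw [Pi.add_apply]
    by_cases he : e ⊆ range Y.card
    · have : e ∉ T' := fun h => (mem_filter.mp h).2.1 he
      rw [(hY1 e he).2]
      simp [ind, this]
    · have h0 : e ∉ D0' := fun h => he (mem_powersetCard.mp (hD0s h)).1
      have h1 : e ∉ D1' := fun h => he (mem_powersetCard.mp (hD1s h)).1
      rw [← (hY2 e he).1, hTA, Pi.add_apply]
      simp [ind, h0, h1]
  have hT's : ∀ e ∈ T', e ⊆ range C3 := fun e he =>
    (mem_powersetCard.mp (mem_filter.mp he).1).1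
  have himg : ∀ e ⊆ range C3, e.image φ ⊆ Y ∪ Z := by
    intro e he v hv
    obtain ⟨i, hi, rfl⟩ := mem_image.mp hv
    rw [mem_union]
    by_cases h : i < Y.card
    · left
      rw [← hφY]
      exact mem_image_of_mem φ (mem_range.mpr h)
    · right
      exact hφZ i (by omega) (mem_range.mp (he hi))
  have hcard : ∀ e ⊆ range C3, (e.image φ).card = e.card := by
    intro e he
    exact card_image_of_injOn (hφ.mono (by exact_mod_cast he))
  refine ⟨T'.image (fun e => e.image φ), A'.image (fun e => e.image φ),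
    B'.image (fun e => e.image φ), ?_, ?_, ?_, ?_⟩
  · intro f hf
    obtain ⟨e, he, rfl⟩ := mem_image.mp hf
    have h1 := mem_filter.mp he
    have h2 := mem_powersetCard.mp h1.1
    rw [mem_claim]
    refine ⟨himg e h2.1, ?_, ?_⟩
    · rw [hcard e h2.1, h2.2]
    · obtain ⟨i, hi, hin⟩ := not_subset.mp h1.2.1
      intro hdis
      have hi2 : i < C3 := mem_range.mp (h2.1 hi)
      have hi3 : Y.card ≤ i := by
        by_contra h; exact hin (mem_range.mpr (by omega))
      exact (disjoint_left.mp hdis) (mem_image_of_mem φ hi) (hφZ i hi3 hi2)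
  · intro Q hQQ
    rw [mem_union, mem_image, mem_image] at hQQ
    rcases hQQ with ⟨Q', hQ', rfl⟩ | ⟨Q', hQ', rfl⟩
    · exact ⟨himg Q' (hA' Q' hQ'), by
        rw [hcard Q' (hA' Q' hQ')]; exact (hQ Q' (mem_union_left _ hQ')).2⟩
    · exact ⟨himg Q' (hB' Q' hQ'), by
        rw [hcard Q' (hB' Q' hQ')]; exact (hQ Q' (mem_union_right _ hQ')).2⟩
  · rw [← pf_vec hφ hA', hTA, pf_add, pf_ind hφ hT's,
      pf_ind hφ (fun e he => ((mem_powersetCard.mp (hD0s he)).1).trans hsub), hD0i]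
  · rw [← pf_vec hφ hB', hTB, pf_add, pf_ind hφ hT's,
      pf_ind hφ (fun e he => ((mem_powersetCard.mp (hD1s he)).1).trans hsub), hD1i]

end Pool.Agent.Kv
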