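import Pool.Agent.Designs.Defs

set_option autoImplicit false

/-!
# Module Lat: the lattice theorem (Graver–Jurkat / Wilson)
-/

namespace Pool.Agent.Kv

open Finset

/-! ### degrees are additive -/

lemma Lat_dg_add (X : Finset (Finset ℕ)) (L M : Finset ℕ → ℤ) (S : Finset ℕ) :
    dg X (L + M) S = dg X L S + dg X M S := by simp [dg, sum_add_distrib]

lemma Lat_dg_neg (X : Finset (Finset ℕ)) (L : Finset ℕ → ℤ) (S : Finset ℕ) :
    dg X (-L) S = - dg X L S := by simp [dg]

lemma Lat_dg_sub (X : Finset (Finset ℕ)) (L M : Finset ℕ → ℤ) (S : Finset ℕ) :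
    dg X (L - M) S = dg X L S - dg X M S := by simp [dg, sum_sub_distrib]

lemma Lat_dg_zsmul (X : Finset (Finset ℕ)) (c : ℤ) (L : Finset ℕ → ℤ) (S : Finset ℕ) :
    dg X (c • L) S = c * dg X L S := by simp [dg, mul_sum]

lemma Lat_dg_sum {ι : Type*} (X : Finset (Finset ℕ)) (s : Finset ι) (f : ι → Finset ℕ → ℤ)
    (S : Finset ℕ) : dg X (∑ i ∈ s, f i) S = ∑ i ∈ s, dg X (f i) S := by
  simp only [dg, Finset.sum_apply]
  rw [sum_comm]

/-! ### the span of the `K r Q` -/

/-- span of the vectors `K r Q`, `Q ⊆ W`, `|Q| = q`. -/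
def Lat_Sp (q r : ℕ) (W : Finset ℕ) : AddSubgroup (Finset ℕ → ℤ) where
  carrier := {L | ∃ c : Finset ℕ → ℤ, L = ∑ Q ∈ powersetCard q W, c Q • K r Q}
  zero_mem' := ⟨0, by simp⟩
  add_mem' := by
    rintro _ _ ⟨c, rfl⟩ ⟨d, rfl⟩
    exact ⟨c + d, by simp [add_smul, sum_add_distrib]⟩
  neg_mem' := by
    rintro _ ⟨c, rfl⟩
    exact ⟨-c, by simp [neg_smul, sum_neg_distrib]⟩

lemma Lat_K_mem_Sp {q r : ℕ} {W Q : Finset ℕ} (hQ : Q ⊆ W) (hq : Q.card = q) :
    K r Q ∈ Lat_Sp q r W := by
  refine ⟨fun R => if R = Q then 1 else 0, ?_⟩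
  rw [sum_eq_single Q]
  · simp
  · intro R _ hR
    simp [hR]
  · intro h
    exact absurd (mem_powersetCard.mpr ⟨hQ, hq⟩) h

/-! ### null vectors -/

/-- null vectors of rank `r` supported on the `r`-subsets of `U`. -/
def Lat_Nl (r : ℕ) (U : Finset ℕ) : AddSubgroup (Finset ℕ → ℤ) where
  carrier := {L | (∀ e, e ∉ powersetCard r U → L e = 0) ∧
    ∀ S : Finset ℕ, S.card < r → dg (powersetCard r U) L S = 0}
  zero_mem' := by
    refine ⟨fun _ _ => rfl, fun S _ => ?_⟩
    simp [dg]
  add_mem' := by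
    rintro L M ⟨hL1, hL2⟩ ⟨hM1, hM2⟩
    refine ⟨fun e he => by simp [hL1 e he, hM1 e he], fun S hS => ?_⟩
    rw [Lat_dg_add, hL2 S hS, hM2 S hS, add_zero]
  neg_mem' := by
    rintro L ⟨hL1, hL2⟩
    refine ⟨fun e he => by simp [hL1 e he], fun S hS => ?_⟩
    rw [Lat_dg_neg, hL2 S hS, neg_zero]

lemma Lat_mem_Nl {r : ℕ} {U : Finset ℕ} {L : Finset ℕ → ℤ} :
    L ∈ Lat_Nl r U ↔ (∀ e, e ∉ powersetCard r U → L e = 0) ∧
      ∀ S : Finset ℕ, S.card < r → dg (powersetCard r U) L S = 0 := Iff.rfl

lemma Lat_Nl_mono {r : ℕ} {U U' : Finset ℕ} (h : U ⊆ U') {L : Finset ℕ → ℤ}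
    (hL : L ∈ Lat_Nl r U) : L ∈ Lat_Nl r U' := by
  have hs : powersetCard r U ⊆ powersetCard r U' := powersetCard_mono h
  refine ⟨fun e he => hL.1 e (fun h' => he (hs h')), fun S hS => ?_⟩
  rw [dg_mono hs hL.1]
  exact hL.2 S hS

lemma Lat_Nl_restrict {r : ℕ} {U U' : Finset ℕ} (h : U ⊆ U') {L : Finset ℕ → ℤ}
    (hL : L ∈ Lat_Nl r U') (h0 : ∀ e, e ∉ powersetCard r U → L e = 0) : L ∈ Lat_Nl r U := by
  have hs : powersetCard r U ⊆ powersetCard r U' := powersetCard_mono h
  refine ⟨h0, fun S hS => ?_⟩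
  rw [← dg_mono hs h0]
  exact hL.2 S hS

/-- double counting. -/
lemma Lat_dsum {r : ℕ} {U : Finset ℕ} (L : Finset ℕ → ℤ) {S : Finset ℕ} (hS : S.card ≤ r) :
    dg (powersetCard r U) (fun T => dg (powersetCard (r + 1) U) L T) S =
      ((r + 1 - S.card : ℕ) : ℤ) * dg (powersetCard (r + 1) U) L S := by
  unfold dg
  have h1 : ∀ T ∈ (powersetCard r U).filter (fun e => S ⊆ e),
      (∑ e ∈ (powersetCard (r + 1) U).filter (fun e => T ⊆ e), L e) =
      ∑ e ∈ (powersetCard (r + 1) U).filter (fun e => S ⊆ e), if T ⊆ e then L e else 0 := by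
    intro T hT
    have hST := (mem_filter.mp hT).2
    rw [← sum_filter, filter_filter]
    apply sum_congr _ (fun _ _ => rfl)
    ext e
    simp only [mem_filter]
    constructor
    · rintro ⟨h1, h2⟩; exact ⟨h1, hST.trans h2, h2⟩
    · rintro ⟨h1, _, h2⟩; exact ⟨h1, h2⟩
  rw [sum_congr rfl h1, sum_comm, mul_sum]
  apply sum_congr rfl
  intro e he
  obtain ⟨he1, he2⟩ := mem_filter.mp he
  obtain ⟨heU, hec⟩ := mem_powersetCard.mp he1
  rw [← sum_filter, sum_const, nsmul_eq_mul]
  congr 2
  -- count of T with S ⊆ T ⊆ e, |T| = r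
  have h2 : ((powersetCard r U).filter (fun T => S ⊆ T)).filter (fun T => T ⊆ e) =
      (e \ S).image (fun x => e.erase x) := by
    ext T
    simp only [mem_filter, mem_powersetCard, mem_image, mem_sdiff]
    constructor
    · rintro ⟨⟨⟨hTU, hTc⟩, hST⟩, hTe⟩
      have h3 : (e \ T).card = 1 := by
        rw [card_sdiff_of_subset hTe, hec, hTc]; omega
      obtain ⟨x, hx⟩ := card_eq_one.mp h3
      have hxe : x ∈ e \ T := by rw [hx]; exact mem_singleton_self x
      obtain ⟨hx1, hx2⟩ := mem_sdiff.mp hxe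
      refine ⟨x, ⟨hx1, fun h => hx2 (hST h)⟩, ?_⟩
      rw [← sdiff_singleton_eq_erase, ← hx, sdiff_sdiff_right_self]
      exact inf_eq_right.mpr hTe
    · rintro ⟨x, ⟨hx1, hx2⟩, rfl⟩
      refine ⟨⟨⟨(erase_subset _ _).trans heU, ?_⟩, ?_⟩, erase_subset _ _⟩
      · rw [card_erase_of_mem hx1, hec]; omega
      · intro y hy
        exact mem_erase.mpr ⟨fun h => hx2 (h ▸ hy), he2 hy⟩
  rw [h2, card_image_of_injOn, card_sdiff_of_subset he2, hec]
  intro x hx y hy hxy
  simp only [coe_sdiff, Set.mem_sdiff, mem_coe] at hx hy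
  by_contra hne
  have : x ∈ e.erase y := mem_erase.mpr ⟨hne, hx.1⟩
  simp only at hxy
  rw [← hxy] at this
  exact (notMem_erase x e) this

/-- it suffices to check nullity on the sets of size `r - 1`. -/
lemma Lat_null_of {r : ℕ} {U : Finset ℕ} {L : Finset ℕ → ℤ}
    (h0 : ∀ e, e ∉ powersetCard (r + 1) U → L e = 0)
    (h1 : ∀ S : Finset ℕ, S.card = r → dg (powersetCard (r + 1) U) L S = 0) :
    L ∈ Lat_Nl (r + 1) U := by
  refine ⟨h0, fun S hS => ?_⟩
  have h2 := Lat_dsum (U := U) L (S := S) (r := r) (by omega)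
  have h3 : dg (powersetCard r U) (fun T => dg (powersetCard (r + 1) U) L T) S = 0 := by
    unfold dg
    apply sum_eq_zero
    intro T hT
    exact h1 T (mem_powersetCard.mp (mem_filter.mp hT).1).2
  rw [h3] at h2
  have h4 : ((r + 1 - S.card : ℕ) : ℤ) ≠ 0 := by
    have : 0 < r + 1 - S.card := by omega
    exact_mod_cast this.ne'
  rcases mul_eq_zero.mp h2.symm with h | h
  · exact absurd h h4
  · exact h

/-! ### (1b): null vectors on small sets vanish -/

/-- sum of `L` over the `r`-sets containing `A` and disjoint from `B`. -/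
def Lat_g (r : ℕ) (U : Finset ℕ) (L : Finset ℕ → ℤ) (A B : Finset ℕ) : ℤ :=
  ∑ e ∈ (powersetCard r U).filter (fun e => A ⊆ e ∧ Disjoint e B), L e

lemma Lat_g_insert (r : ℕ) (U : Finset ℕ) (L : Finset ℕ → ℤ) (A B : Finset ℕ) (b : ℕ) :
    Lat_g r U L A (insert b B) = Lat_g r U L A B - Lat_g r U L (insert b A) B := by
  unfold Lat_g
  have h1 : (powersetCard r U).filter (fun e => A ⊆ e ∧ Disjoint e B) =
      (powersetCard r U).filter (fun e => A ⊆ e ∧ Disjoint e (insert b B)) ∪
      (powersetCard r U).filter (fun e => insert b A ⊆ e ∧ Disjoint e B) := by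
    ext e
    simp only [mem_filter, mem_union, disjoint_insert_right, insert_subset_iff]
    constructor
    · rintro ⟨h1, h2, h3⟩
      by_cases hb : b ∈ e
      · right; exact ⟨h1, ⟨hb, h2⟩, h3⟩
      · left; exact ⟨h1, h2, hb, h3⟩
    · rintro (⟨h1, h2, _, h3⟩ | ⟨h1, ⟨_, h2⟩, h3⟩)
      · exact ⟨h1, h2, h3⟩
      · exact ⟨h1, h2, h3⟩
  have h2 : Disjoint ((powersetCard r U).filter (fun e => A ⊆ e ∧ Disjoint e (insert b B)))
      ((powersetCard r U).filter (fun e => insert b A ⊆ e ∧ Disjoint e B)) := by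
    rw [disjoint_filter]
    rintro e _ ⟨_, h3⟩ ⟨h4, _⟩
    exact (disjoint_insert_right.mp h3).1 (h4 (mem_insert_self b A))
  rw [h1, sum_union h2]
  ring

lemma Lat_g_empty (r : ℕ) (U : Finset ℕ) (L : Finset ℕ → ℤ) (A : Finset ℕ) :
    Lat_g r U L A ∅ = dg (powersetCard r U) L A := by
  unfold Lat_g dg
  simp

lemma Lat_g_zero {r : ℕ} {U : Finset ℕ} {L : Finset ℕ → ℤ} (hL : L ∈ Lat_Nl r U)
    (B : Finset ℕ) : ∀ A : Finset ℕ, A.card + B.card < r → Lat_g r U L A B = 0 := by
  induction B using Finset.induction_on with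
  | empty =>
    intro A hA
    rw [Lat_g_empty]
    exact hL.2 A (by simpa using hA)
  | insert b B hb ih =>
    intro A hA
    rw [card_insert_of_notMem hb] at hA
    rw [Lat_g_insert, ih A (by omega), ih (insert b A) ?_, sub_zero]
    have := card_insert_le b A
    omega

lemma Lat_g_eq {r : ℕ} {U : Finset ℕ} {L : Finset ℕ → ℤ} (hL : L ∈ Lat_Nl r U)
    (B : Finset ℕ) : ∀ A : Finset ℕ, A.card + B.card = r →
      Lat_g r U L A B = (-1) ^ B.card * L (A ∪ B) := by
  induction B using Finset.induction_on with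
  | empty =>
    intro A hA
    have hAr : A.card = r := by simpa using hA
    rw [Lat_g_empty]
    simp only [card_empty, pow_zero, one_mul, union_empty]
    unfold dg
    by_cases hAU : A ⊆ U
    · rw [sum_eq_single A]
      · intro e he hne
        exfalso
        obtain ⟨h1, h2⟩ := mem_filter.mp he
        exact hne (eq_of_subset_of_card_le h2 (by rw [(mem_powersetCard.mp h1).2, hAr])).symm
      · intro h
        exact absurd (mem_filter.mpr ⟨mem_powersetCard.mpr ⟨hAU, hAr⟩, Subset.refl A⟩) h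
    · rw [hL.1 A (fun h => hAU (mem_powersetCard.mp h).1)]
      apply sum_eq_zero
      intro e he
      exfalso
      obtain ⟨h1, h2⟩ := mem_filter.mp he
      exact hAU (h2.trans (mem_powersetCard.mp h1).1)
  | insert b B hb ih =>
    intro A hA
    rw [card_insert_of_notMem hb] at hA ⊢
    rw [Lat_g_insert, Lat_g_zero hL B A (by omega)]
    by_cases hbA : b ∈ A
    · rw [insert_eq_of_mem hbA, Lat_g_zero hL B A (by omega)]
      have h1 : A ∪ insert b B = A ∪ B := by
        rw [union_insert, insert_eq_of_mem (mem_union_left _ hbA)]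
      rw [h1, hL.1 (A ∪ B)]
      · ring
      · intro h
        have h2 := (mem_powersetCard.mp h).2
        have h3 := card_union_le A B
        omega
    · rw [ih (insert b A) (by rw [card_insert_of_notMem hbA]; omega)]
      have h1 : insert b A ∪ B = A ∪ insert b B := by
        rw [insert_union, union_insert]
      rw [h1]
      ring

lemma Lat_small {r : ℕ} {U : Finset ℕ} {L : Finset ℕ → ℤ} (hL : L ∈ Lat_Nl r U)
    (hU : U.card < 2 * r) : L = 0 := by
  funext e
  by_cases he : e ∈ powersetCard r U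
  · obtain ⟨heU, hec⟩ := mem_powersetCard.mp he
    have h1 := Lat_g_eq hL e ∅ (by simp [hec])
    have h2 : Lat_g r U L ∅ e = 0 := by
      unfold Lat_g
      apply sum_eq_zero
      intro e' he'
      exfalso
      obtain ⟨h3, _, h4⟩ := mem_filter.mp he'
      obtain ⟨h5, h6⟩ := mem_powersetCard.mp h3
      have h7 := card_union_of_disjoint h4
      have h8 := card_le_card (union_subset h5 heU)
      omega
    rw [h2, empty_union] at h1
    rcases mul_eq_zero.mp h1.symm with h | h
    · exact absurd h (pow_ne_zero _ (by norm_num))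
    · exact h
  · exact hL.1 e he

/-! ### links and cones -/

/-- the link of `v`. -/
def Lat_link (v : ℕ) (L : Finset ℕ → ℤ) : Finset ℕ → ℤ :=
  fun S => if v ∈ S then 0 else L (insert v S)

/-- the cone over `O` with apex `v`. -/
def Lat_cone (v : ℕ) (O : Finset ℕ → ℤ) : Finset ℕ → ℤ :=
  fun e => if v ∈ e then O (e.erase v) else 0

/-- `(v - y) · O`. -/
def Lat_J (v y : ℕ) (O : Finset ℕ → ℤ) : Finset ℕ → ℤ := Lat_cone v O - Lat_cone y O

lemma Lat_J_sum {ι : Type*} (v y : ℕ) (s : Finset ι) (f : ι → Finset ℕ → ℤ) :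
    Lat_J v y (∑ i ∈ s, f i) = ∑ i ∈ s, Lat_J v y (f i) := by
  funext e
  simp only [Lat_J, Lat_cone, Pi.sub_apply, Finset.sum_apply]
  rw [sum_sub_distrib]
  congr 1
  · split_ifs <;> simp
  · split_ifs <;> simp

lemma Lat_J_zsmul (v y : ℕ) (c : ℤ) (O : Finset ℕ → ℤ) :
    Lat_J v y (c • O) = c • Lat_J v y O := by
  funext e
  simp only [Lat_J, Lat_cone, Pi.sub_apply, Pi.smul_apply, smul_eq_mul]
  split_ifs <;> ring

lemma Lat_link_mem {r : ℕ} {U : Finset ℕ} {v : ℕ} (hv : v ∈ U) {L : Finset ℕ → ℤ}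
    (hL : L ∈ Lat_Nl (r + 1) U) : Lat_link v L ∈ Lat_Nl r (U.erase v) := by
  refine ⟨fun e he => ?_, fun S hS => ?_⟩
  · unfold Lat_link
    split_ifs with h
    · rfl
    · apply hL.1
      intro h'
      apply he
      obtain ⟨h1, h2⟩ := mem_powersetCard.mp h'
      rw [card_insert_of_notMem h] at h2
      exact mem_powersetCard.mpr ⟨subset_erase.mpr ⟨(subset_insert v e).trans h1, h⟩, by omega⟩
  · by_cases hvS : v ∈ S
    · unfold dg
      apply sum_eq_zero
      intro e he
      exfalso
      obtain ⟨h1, h2⟩ := mem_filter.mp he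
      exact notMem_erase v U ((mem_powersetCard.mp h1).1 (h2 hvS))
    · have h1 := hL.2 (insert v S) (by rw [card_insert_of_notMem hvS]; omega)
      rw [← h1]
      unfold dg
      apply sum_bij (fun e _ => insert v e)
      · intro e he
        obtain ⟨h2, h3⟩ := mem_filter.mp he
        obtain ⟨h4, h5⟩ := mem_powersetCard.mp h2
        have hve : v ∉ e := fun h => notMem_erase v U (h4 h)
        refine mem_filter.mpr ⟨mem_powersetCard.mpr ⟨?_, ?_⟩, insert_subset_insert v h3⟩
        · exact insert_subset hv (h4.trans (erase_subset _ _))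
        · rw [card_insert_of_notMem hve, h5]
      · intro e he e' he' h
        obtain ⟨h2, _⟩ := mem_filter.mp he
        obtain ⟨h2', _⟩ := mem_filter.mp he'
        have hve : v ∉ e := fun h => notMem_erase v U ((mem_powersetCard.mp h2).1 h)
        have hve' : v ∉ e' := fun h => notMem_erase v U ((mem_powersetCard.mp h2').1 h)
        rw [← erase_insert hve, ← erase_insert hve', h]
      · intro e he
        obtain ⟨h2, h3⟩ := mem_filter.mp he
        obtain ⟨h4, h5⟩ := mem_powersetCard.mp h2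
        have hve : v ∈ e := h3 (mem_insert_self v S)
        refine ⟨e.erase v, ?_, insert_erase hve⟩
        refine mem_filter.mpr ⟨mem_powersetCard.mpr ⟨erase_subset_erase v h4, ?_⟩, ?_⟩
        · rw [card_erase_of_mem hve, h5]; omega
        · exact subset_erase.mpr ⟨(subset_insert v S).trans h3, hvS⟩
      · intro e he
        obtain ⟨h2, _⟩ := mem_filter.mp he
        have hve : v ∉ e := fun h => notMem_erase v U ((mem_powersetCard.mp h2).1 h)
        simp [Lat_link, hve]

/-- degrees in a cone. -/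
lemma Lat_dg_cone {r : ℕ} {U U' : Finset ℕ} {v : ℕ} (hU : U' ⊆ U) (hv : v ∈ U) (hv' : v ∉ U')
    {O : Finset ℕ → ℤ} (hO : ∀ e, e ∉ powersetCard r U' → O e = 0) (S : Finset ℕ) :
    dg (powersetCard (r + 1) U) (Lat_cone v O) S = dg (powersetCard r U') O (S.erase v) := by
  unfold dg
  have h1 : ∑ e ∈ (powersetCard (r + 1) U).filter (fun e => S ⊆ e), Lat_cone v O e =
      ∑ e ∈ ((powersetCard r U').filter (fun e => S.erase v ⊆ e)).image (insert v),
        Lat_cone v O e := by
    symm
    apply sum_subset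
    · intro e he
      obtain ⟨T, hT, rfl⟩ := mem_image.mp he
      obtain ⟨h2, h3⟩ := mem_filter.mp hT
      obtain ⟨h4, h5⟩ := mem_powersetCard.mp h2
      have hvT : v ∉ T := fun h => hv' (h4 h)
      refine mem_filter.mpr ⟨mem_powersetCard.mpr ⟨insert_subset hv (h4.trans hU), ?_⟩, ?_⟩
      · rw [card_insert_of_notMem hvT, h5]
      · intro x hx
        by_cases hxv : x = v
        · rw [hxv]; exact mem_insert_self v T
        · exact mem_insert_of_mem (h3 (mem_erase.mpr ⟨hxv, hx⟩))
    · intro e he hne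
      unfold Lat_cone
      split_ifs with hve
      · by_contra h0
        apply hne
        have h6 : e.erase v ∈ powersetCard r U' := by
          by_contra h7
          exact h0 (hO _ h7)
        refine mem_image.mpr ⟨e.erase v, mem_filter.mpr ⟨h6, ?_⟩, insert_erase hve⟩
        exact erase_subset_erase v (mem_filter.mp he).2
      · rfl
  rw [h1, sum_image]
  · apply sum_congr rfl
    intro T hT
    have hvT : v ∉ T := fun h => hv' ((mem_powersetCard.mp (mem_filter.mp hT).1).1 h)
    simp [Lat_cone, erase_insert hvT]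
  · intro T hT T' hT' h
    have hvT : v ∉ T := fun h => hv' ((mem_powersetCard.mp (mem_filter.mp hT).1).1 h)
    have hvT' : v ∉ T' := fun h => hv' ((mem_powersetCard.mp (mem_filter.mp hT').1).1 h)
    rw [← erase_insert hvT, ← erase_insert hvT', h]

lemma Lat_J_mem {r : ℕ} {U U' : Finset ℕ} {v y : ℕ} (hU : U' ⊆ U) (hv : v ∈ U) (hy : y ∈ U)
    (hvy : v ≠ y) (hv' : v ∉ U') (hy' : y ∉ U')
    {O : Finset ℕ → ℤ} (hO : O ∈ Lat_Nl r U') : Lat_J v y O ∈ Lat_Nl (r + 1) U := by
  have key : ∀ w : ℕ, w ∈ U → ∀ e, e ∉ powersetCard (r + 1) U → Lat_cone w O e = 0 := by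
    intro w hw e he
    unfold Lat_cone
    split_ifs with hwe
    · apply hO.1
      intro h
      apply he
      obtain ⟨h1, h2⟩ := mem_powersetCard.mp h
      refine mem_powersetCard.mpr ⟨?_, ?_⟩
      · intro x hx
        by_cases hxw : x = w
        · rw [hxw]; exact hw
        · exact hU (h1 (mem_erase.mpr ⟨hxw, hx⟩))
      · rw [card_erase_of_mem hwe] at h2
        have : 0 < e.card := card_pos.mpr ⟨w, hwe⟩
        omega
    · rfl
  -- degrees of sets containing a vertex outside of `U'` vanish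
  have hout : ∀ T : Finset ℕ, ∀ w : ℕ, w ∉ U' → w ∈ T → dg (powersetCard r U') O T = 0 := by
    intro T w hw hwT
    unfold dg
    apply sum_eq_zero
    intro e he
    exfalso
    obtain ⟨h1, h2⟩ := mem_filter.mp he
    exact hw ((mem_powersetCard.mp h1).1 (h2 hwT))
  refine ⟨fun e he => ?_, fun S hS => ?_⟩
  · simp only [Lat_J, Pi.sub_apply]
    rw [key v hv e he, key y hy e he, sub_zero]
  · unfold Lat_J
    rw [Lat_dg_sub, Lat_dg_cone hU hv hv' hO.1, Lat_dg_cone hU hy hy' hO.1]
    by_cases hvS : v ∈ S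
    · by_cases hyS : y ∈ S
      · rw [hout (S.erase v) y hy' (mem_erase.mpr ⟨hvy.symm, hyS⟩),
          hout (S.erase y) v hv' (mem_erase.mpr ⟨hvy, hvS⟩), sub_zero]
      · rw [erase_eq_of_notMem hyS, hout S v hv' hvS, sub_zero]
        apply hO.2
        rw [card_erase_of_mem hvS]
        have : 0 < S.card := card_pos.mpr ⟨v, hvS⟩
        omega
    · by_cases hyS : y ∈ S
      · rw [erase_eq_of_notMem hvS, hout S y hy' hyS, zero_sub, neg_eq_zero]
        apply hO.2
        rw [card_erase_of_mem hyS]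
        have : 0 < S.card := card_pos.mpr ⟨y, hyS⟩
        omega
      · rw [erase_eq_of_notMem hvS, erase_eq_of_notMem hyS, sub_self]

/-- the value of `(v - y) · O` on sets containing `v`. -/
lemma Lat_J_apply {r : ℕ} {U' : Finset ℕ} {v y : ℕ} (hvy : v ≠ y) (hv' : v ∉ U')
    {O : Finset ℕ → ℤ} (hO : ∀ e, e ∉ powersetCard r U' → O e = 0) {e : Finset ℕ}
    (he : v ∈ e) : Lat_J v y O e = O (e.erase v) := by
  simp only [Lat_J, Lat_cone, Pi.sub_apply, if_pos he]
  split_ifs with h
  · rw [hO (e.erase y), sub_zero]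
    intro h'
    exact hv' ((mem_powersetCard.mp h').1 (mem_erase.mpr ⟨hvy, he⟩))
  · rw [sub_zero]

/-- a null vector all whose values on the sets containing `v` vanish is null on `U - v`. -/
lemma Lat_drop {r : ℕ} {U : Finset ℕ} {v : ℕ} {L : Finset ℕ → ℤ}
    (hL : L ∈ Lat_Nl r U) (h : ∀ e, v ∈ e → L e = 0) : L ∈ Lat_Nl r (U.erase v) := by
  apply Lat_Nl_restrict (erase_subset _ _) hL
  intro e he
  by_cases hve : v ∈ e
  · exact h e hve
  · apply hL.1
    intro h'
    obtain ⟨h1, h2⟩ := mem_powersetCard.mp h'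
    exact he (mem_powersetCard.mpr ⟨subset_erase.mpr ⟨h1, hve⟩, h2⟩)

/-! ### (1c): splitting -/

lemma Lat_split (ρ : ℕ) : ∀ (U : Finset ℕ), 2 * ρ + 1 ≤ U.card → ∀ L ∈ Lat_Nl ρ U,
    ∃ f : ℕ → Finset ℕ → ℤ, (∀ z ∈ U, f z ∈ Lat_Nl ρ (U.erase z)) ∧ L = ∑ z ∈ U, f z := by
  induction ρ with
  | zero =>
    intro U hU L hL
    obtain ⟨z, hz⟩ : U.Nonempty := card_pos.mp (by omega)
    refine ⟨fun x => if x = z then L else 0, ?_, ?_⟩
    · intro x _
      show (if x = z then L else 0) ∈ Lat_Nl 0 (U.erase x)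
      split_ifs with h
      · refine ⟨fun e he => hL.1 e ?_, fun S hS => absurd hS (by omega)⟩
        simpa using he
      · exact AddSubgroup.zero_mem _
    · rw [sum_ite_eq' U z (fun _ => L), if_pos hz]
  | succ ρ ih =>
    intro U hU L hL
    obtain ⟨v, hv⟩ : U.Nonempty := card_pos.mp (by omega)
    have hc1 : (U.erase v).card = U.card - 1 := card_erase_of_mem hv
    obtain ⟨O, hO1, hO2⟩ := ih (U.erase v) (by omega) _ (Lat_link_mem hv hL)
    have h2 : ∀ y, ∃ g : ℕ → Finset ℕ → ℤ, y ∈ U.erase v →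
        (∀ z ∈ (U.erase v).erase y, g z ∈ Lat_Nl ρ (((U.erase v).erase y).erase z)) ∧
        O y = ∑ z ∈ (U.erase v).erase y, g z := by
      intro y
      by_cases hy : y ∈ U.erase v
      · have hc2 : ((U.erase v).erase y).card = (U.erase v).card - 1 := card_erase_of_mem hy
        obtain ⟨g, hg1, hg2⟩ := ih ((U.erase v).erase y) (by omega) _ (hO1 y hy)
        exact ⟨g, fun _ => ⟨hg1, hg2⟩⟩
      · exact ⟨0, fun h => absurd h hy⟩
    choose g hg using h2
    -- the pieces
    set F : ℕ → Finset ℕ → ℤ := fun z =>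
      ∑ y ∈ (U.erase v).erase z, Lat_J v y (g y z) with hF
    have hJ : ∀ y ∈ U.erase v, ∀ z ∈ (U.erase v).erase y,
        Lat_J v y (g y z) ∈ Lat_Nl (ρ + 1) (U.erase z) := by
      intro y hy z hz
      obtain ⟨hyv, hyU⟩ := mem_erase.mp hy
      obtain ⟨hzy, hz2⟩ := mem_erase.mp hz
      obtain ⟨hzv, hzU⟩ := mem_erase.mp hz2
      apply Lat_J_mem (U' := ((U.erase v).erase y).erase z) _ _ _ hyv.symm _ _ ((hg y hy).1 z hz)
      · exact erase_subset_erase z ((erase_subset _ _).trans (erase_subset _ _))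
      · exact mem_erase.mpr ⟨hzv.symm, hv⟩
      · exact mem_erase.mpr ⟨hzy.symm, hyU⟩
      · intro h
        exact notMem_erase v U (erase_subset _ _ (erase_subset _ _ h))
      · intro h
        exact notMem_erase y (U.erase v) (erase_subset _ _ h)
    have hFmem : ∀ z ∈ U.erase v, F z ∈ Lat_Nl (ρ + 1) (U.erase z) := by
      intro z hz
      apply AddSubgroup.sum_mem
      intro y hy
      obtain ⟨hyz, hy2⟩ := mem_erase.mp hy
      exact hJ y hy2 z (mem_erase.mpr ⟨hyz.symm, hz⟩)
    set M : Finset ℕ → ℤ := L - ∑ z ∈ U.erase v, F z with hM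
    have hMnull : M ∈ Lat_Nl (ρ + 1) U := by
      apply AddSubgroup.sub_mem _ hL
      apply AddSubgroup.sum_mem
      intro z hz
      exact Lat_Nl_mono (erase_subset _ _) (hFmem z hz)
    have hMv : M ∈ Lat_Nl (ρ + 1) (U.erase v) := by
      apply Lat_drop hMnull
      intro e hve
      have h3 : ∑ z ∈ U.erase v, F z = ∑ y ∈ U.erase v, ∑ z ∈ (U.erase v).erase y,
          Lat_J v y (g y z) := by
        simp only [hF]
        have h4 : ∀ z ∈ U.erase v, ∑ y ∈ (U.erase v).erase z, Lat_J v y (g y z) =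
            ∑ y ∈ U.erase v, if y ≠ z then Lat_J v y (g y z) else 0 := by
          intro z _
          rw [← sum_filter]
          apply sum_congr _ (fun _ _ => rfl)
          ext y
          simp only [mem_erase, mem_filter]
          tauto
        have h5 : ∀ y ∈ U.erase v, ∑ z ∈ (U.erase v).erase y, Lat_J v y (g y z) =
            ∑ z ∈ U.erase v, if y ≠ z then Lat_J v y (g y z) else 0 := by
          intro y _
          rw [← sum_filter]
          apply sum_congr _ (fun _ _ => rfl)
          ext z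
          simp only [mem_erase, mem_filter]
          tauto
        rw [sum_congr rfl h4, sum_congr rfl h5, sum_comm]
      have h6 : (∑ z ∈ U.erase v, F z) e = L e := by
        rw [h3, Finset.sum_apply]
        have h7 : ∀ y ∈ U.erase v,
            (∑ z ∈ (U.erase v).erase y, Lat_J v y (g y z)) e = O y (e.erase v) := by
          intro y hy
          obtain ⟨hyv, hyU⟩ := mem_erase.mp hy
          rw [(hg y hy).2, Finset.sum_apply, Finset.sum_apply]
          apply sum_congr rfl
          intro z hz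
          apply Lat_J_apply (U' := ((U.erase v).erase y).erase z) hyv.symm _
            ((hg y hy).1 z hz).1 hve
          intro h
          exact notMem_erase v U (erase_subset _ _ (erase_subset _ _ h))
        rw [sum_congr rfl h7, ← Finset.sum_apply, ← hO2]
        simp only [Lat_link, notMem_erase, if_false, insert_erase hve]
      simp only [hM, Pi.sub_apply, h6, sub_self]
    refine ⟨fun z => if z = v then M else F z, ?_, ?_⟩
    · intro z hz
      by_cases hzv : z = v
      · simp only [hzv, if_true]; exact hMv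
      · simp only [hzv, if_false]
        exact hFmem z (mem_erase.mpr ⟨hzv, hz⟩)
    · rw [← add_sum_erase U _ hv]
      simp only [if_true]
      have h8 : ∀ z ∈ U.erase v, (if z = v then M else F z) = F z := by
        intro z hz
        rw [if_neg (mem_erase.mp hz).1]
      rw [sum_congr rfl h8, hM, sub_add_cancel]

/-! ### (1d): null vectors are in the span -/

lemma Lat_J_K {r : ℕ} {S : Finset ℕ} {v y : ℕ} (hv : v ∉ S) (hy : y ∉ S) :
    Lat_J v y (K r S) = K (r + 1) (insert v S) - K (r + 1) (insert y S) := by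
  have key : ∀ w : ℕ, w ∉ S → ∀ e : Finset ℕ, Lat_cone w (K r S) e =
      if w ∈ e then K (r + 1) (insert w S) e else 0 := by
    intro w hw e
    unfold Lat_cone K
    split_ifs with h1 h2 h3 h3
    · rfl
    · exfalso
      apply h3
      obtain ⟨h4, h5⟩ := h2
      refine ⟨?_, ?_⟩
      · intro x hx
        by_cases hxw : x = w
        · rw [hxw]; exact mem_insert_self w S
        · exact mem_insert_of_mem (h4 (mem_erase.mpr ⟨hxw, hx⟩))
      · rw [card_erase_of_mem h1] at h5
        have : 0 < e.card := card_pos.mpr ⟨w, h1⟩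
        omega
    · exfalso
      apply h2
      obtain ⟨h4, h5⟩ := h3
      refine ⟨?_, ?_⟩
      · intro x hx
        obtain ⟨hx1, hx2⟩ := mem_erase.mp hx
        rcases mem_insert.mp (h4 hx2) with h | h
        · exact absurd h hx1
        · exact h
      · rw [card_erase_of_mem h1, h5]; omega
    · rfl
    · rfl
  funext e
  simp only [Lat_J, Pi.sub_apply]
  rw [key v hv, key y hy]
  -- on sets missing the apex both `K`s are `K (r+1) S`
  have hmiss : ∀ w : ℕ, w ∉ e → K (r + 1) (insert w S) e = K (r + 1) S e := by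
    intro w hw
    unfold K
    have : e ⊆ insert w S ↔ e ⊆ S := by
      constructor
      · intro h x hx
        rcases mem_insert.mp (h hx) with h' | h'
        · exact absurd (h' ▸ hx) hw
        · exact h'
      · intro h; exact h.trans (subset_insert w S)
    simp only [this]
  have hzero : ∀ w x : ℕ, w ∈ e → w ∉ S → w ≠ x → K (r + 1) (insert x S) e = 0 := by
    intro w x hw hwS hwx
    unfold K
    rw [if_neg]
    rintro ⟨h1, _⟩
    rcases mem_insert.mp (h1 hw) with h | h
    · exact hwx h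
    · exact hwS h
  by_cases hve : v ∈ e
  · by_cases hye : y ∈ e
    · rw [if_pos hve, if_pos hye]
    · have hvy : v ≠ y := fun h => hye (h ▸ hve)
      rw [if_pos hve, if_neg hye, hzero v y hve hv hvy]
  · by_cases hye : y ∈ e
    · have hvy : y ≠ v := fun h => hve (h ▸ hye)
      rw [if_neg hve, if_pos hye, hzero y v hye hy hvy]
    · rw [if_neg hve, if_neg hye, hmiss v hve, hmiss y hye]
      ring

lemma Lat_J_Sp {q r : ℕ} {W : Finset ℕ} {v y : ℕ} (hv : v ∈ W) (hy : y ∈ W)
    {O : Finset ℕ → ℤ} (hO : O ∈ Lat_Sp q r ((W.erase v).erase y)) :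
    Lat_J v y O ∈ Lat_Sp (q + 1) (r + 1) W := by
  obtain ⟨c, rfl⟩ := hO
  rw [Lat_J_sum]
  apply AddSubgroup.sum_mem
  intro S hS
  obtain ⟨h1, h2⟩ := mem_powersetCard.mp hS
  have hvS : v ∉ S := fun h => notMem_erase v W (erase_subset _ _ (h1 h))
  have hyS : y ∉ S := fun h => notMem_erase y (W.erase v) (h1 h)
  have hSW : S ⊆ W := h1.trans ((erase_subset _ _).trans (erase_subset _ _))
  rw [Lat_J_zsmul, Lat_J_K hvS hyS]
  apply AddSubgroup.zsmul_mem
  apply AddSubgroup.sub_mem
  · exact Lat_K_mem_Sp (insert_subset hv hSW) (by rw [card_insert_of_notMem hvS, h2])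
  · exact Lat_K_mem_Sp (insert_subset hy hSW) (by rw [card_insert_of_notMem hyS, h2])

lemma Lat_zero_mem {q : ℕ} {W : Finset ℕ} (hW : q ≤ W.card) {L : Finset ℕ → ℤ}
    (h0 : ∀ e, e ∉ powersetCard 0 W → L e = 0) : L ∈ Lat_Sp q 0 W := by
  obtain ⟨Q, hQ, hq⟩ := exists_subset_card_eq hW
  have : L = (L ∅) • K 0 Q := by
    funext e
    simp only [Pi.smul_apply, smul_eq_mul, K]
    by_cases he : e = ∅
    · subst he; simp
    · rw [h0 e (by simpa using he), if_neg, mul_zero]
      rintro ⟨_, h⟩
      exact he (card_eq_zero.mp h)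
  rw [this]
  exact AddSubgroup.zsmul_mem _ (Lat_K_mem_Sp hQ hq) _

lemma Lat_null_span (r : ℕ) : ∀ (q : ℕ) (W : Finset ℕ), r ≤ q → q + r ≤ W.card →
    ∀ U ⊆ W, ∀ L ∈ Lat_Nl r U, L ∈ Lat_Sp q r W := by
  induction r with
  | zero =>
    intro q W _ hW U hU L hL
    apply Lat_zero_mem (by omega)
    intro e he
    exact hL.1 e (by simpa using he)
  | succ r ih =>
    intro q W hrq hW U
    induction U using Finset.strongInduction with
    | H U ihU =>
      intro hU L hL
      by_cases hsmall : U.card < 2 * (r + 1)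
      · rw [Lat_small hL hsmall]
        exact AddSubgroup.zero_mem _
      · obtain ⟨v, hv⟩ : U.Nonempty := card_pos.mp (by omega)
        have hc1 : (U.erase v).card = U.card - 1 := card_erase_of_mem hv
        obtain ⟨O, hO1, hO2⟩ := Lat_split r (U.erase v) (by omega) _ (Lat_link_mem hv hL)
        obtain ⟨q', rfl⟩ : ∃ q', q = q' + 1 := ⟨q - 1, by omega⟩
        have hJsp : ∀ y ∈ U.erase v, Lat_J v y (O y) ∈ Lat_Sp (q' + 1) (r + 1) W := by
          intro y hy
          obtain ⟨hyv, hyU⟩ := mem_erase.mp hy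
          apply Lat_J_Sp (hU hv) (hU hyU)
          apply ih q' ((W.erase v).erase y) (by omega) _ ((U.erase v).erase y) _ _ (hO1 y hy)
          · rw [card_erase_of_mem (mem_erase.mpr ⟨hyv, hU hyU⟩), card_erase_of_mem (hU hv)]
            omega
          · exact erase_subset_erase y (erase_subset_erase v hU)
        have hJnl : ∀ y ∈ U.erase v, Lat_J v y (O y) ∈ Lat_Nl (r + 1) U := by
          intro y hy
          obtain ⟨hyv, hyU⟩ := mem_erase.mp hy
          apply Lat_J_mem (U' := (U.erase v).erase y) _ hv hyU hyv.symm _ _ (hO1 y hy)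
          · exact (erase_subset _ _).trans (erase_subset _ _)
          · intro h
            exact notMem_erase v U (erase_subset _ _ h)
          · exact notMem_erase y _
        have hM : L - ∑ y ∈ U.erase v, Lat_J v y (O y) ∈ Lat_Nl (r + 1) (U.erase v) := by
          apply Lat_drop
          · exact AddSubgroup.sub_mem _ hL (AddSubgroup.sum_mem _ hJnl)
          · intro e hve
            have h6 : (∑ y ∈ U.erase v, Lat_J v y (O y)) e = L e := by
              rw [Finset.sum_apply]
              have h7 : ∀ y ∈ U.erase v, Lat_J v y (O y) e = O y (e.erase v) := by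
                intro y hy
                obtain ⟨hyv, hyU⟩ := mem_erase.mp hy
                apply Lat_J_apply (U' := (U.erase v).erase y) hyv.symm _ (hO1 y hy).1 hve
                intro h
                exact notMem_erase v U (erase_subset _ _ h)
              rw [sum_congr rfl h7, ← Finset.sum_apply, ← hO2]
              simp only [Lat_link, notMem_erase, if_false, insert_erase hve]
            simp only [Pi.sub_apply, h6, sub_self]
        have h9 := ihU (U.erase v) (erase_ssubset hv) ((erase_subset _ _).trans hU) _ hM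
        have h10 := AddSubgroup.add_mem _ h9 (AddSubgroup.sum_mem _ hJsp)
        rwa [sub_add_cancel] at h10

/-! ### (1a): the lattice theorem -/

lemma Lat_main (r : ℕ) : ∀ (q : ℕ) (W : Finset ℕ), r ≤ q → q + r ≤ W.card →
    ∀ L ∈ Dv q r (powersetCard r W), L ∈ Lat_Sp q r W := by
  induction r with
  | zero =>
    intro q W _ hW L hL
    exact Lat_zero_mem (by omega) hL.1
  | succ r ih =>
    intro q W hrq hW L hL
    have hpos : (0 : ℤ) < ((q - r : ℕ) : ℤ) := by
      have : 0 < q - r := by omega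
      exact_mod_cast this
    have hdiv : ∀ S : Finset ℕ, S.card = r →
        ((q - r : ℕ) : ℤ) ∣ dg (powersetCard (r + 1) W) L S := by
      intro S hS
      have h1 := hL.2 S (by omega)
      rw [hS] at h1
      have h2 : (q - r).choose (r + 1 - r) = q - r := by
        rw [show r + 1 - r = 1 by omega, Nat.choose_one_right]
      rwa [h2] at h1
    -- the vector `L¹`
    set L1 : Finset ℕ → ℤ := fun S => if S ∈ powersetCard r W then
      dg (powersetCard (r + 1) W) L S / ((q - r : ℕ) : ℤ) else 0 with hL1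
    have hL1v : ∀ S ∈ powersetCard r W,
        ((q - r : ℕ) : ℤ) * L1 S = dg (powersetCard (r + 1) W) L S := by
      intro S hS
      simp only [hL1, if_pos hS]
      exact Int.mul_ediv_cancel' (hdiv S (mem_powersetCard.mp hS).2)
    have hL1mem : L1 ∈ Dv q r (powersetCard r W) := by
      refine ⟨fun e he => by simp only [hL1, if_neg he], fun S hS => ?_⟩
      have h1 : ((q - r : ℕ) : ℤ) * dg (powersetCard r W) L1 S =
          ((r + 1 - S.card : ℕ) : ℤ) * dg (powersetCard (r + 1) W) L S := by
        rw [← Lat_dsum L hS]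
        unfold dg
        rw [mul_sum]
        apply sum_congr rfl
        intro T hT
        have := hL1v T (mem_filter.mp hT).1
        unfold dg at this
        exact this
      have h2 := hL.2 S (by omega)
      have h3 : (q - S.card).choose (r + 1 - S.card) * (r + 1 - S.card) =
          (q - S.card).choose (r - S.card) * (q - r) := by
        have := Nat.choose_succ_right_eq (q - S.card) (r - S.card)
        rw [show r - S.card + 1 = r + 1 - S.card by omega,
          show q - S.card - (r - S.card) = q - r by omega] at this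
        exact this
      have h4 : (((q - S.card).choose (r - S.card) * (q - r) : ℕ) : ℤ) ∣
          ((q - r : ℕ) : ℤ) * dg (powersetCard r W) L1 S := by
        rw [← h3, h1]
        push_cast
        rw [mul_comm]
        exact mul_dvd_mul_left _ h2
      rw [Nat.cast_mul, mul_comm] at h4
      exact (mul_dvd_mul_iff_left hpos.ne').mp h4
    obtain ⟨c, hc⟩ := ih q W (by omega) (by omega) L1 hL1mem
    -- the difference is null
    have hnull : L - ∑ Q ∈ powersetCard q W, c Q • K (r + 1) Q ∈ Lat_Nl (r + 1) W := by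
      apply Lat_null_of
      · intro e he
        rw [Pi.sub_apply, hL.1 e he, Finset.sum_apply, zero_sub, neg_eq_zero]
        apply sum_eq_zero
        intro Q hQ
        simp only [Pi.smul_apply, smul_eq_mul, K]
        rw [if_neg, mul_zero]
        rintro ⟨h1, h2⟩
        exact he (mem_powersetCard.mpr ⟨h1.trans (mem_powersetCard.mp hQ).1, h2⟩)
      · intro S hS
        rw [Lat_dg_sub, Lat_dg_sum]
        have h1 : ∀ Q ∈ powersetCard q W, dg (powersetCard (r + 1) W) (c Q • K (r + 1) Q) S =
            ((q - r : ℕ) : ℤ) * (c Q • K r Q) S := by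
          intro Q hQ
          obtain ⟨hQW, hQq⟩ := mem_powersetCard.mp hQ
          rw [Lat_dg_zsmul, dg_K hQq (powersetCard_mono hQW) (by omega), hS,
            show r + 1 - r = 1 by omega, Nat.choose_one_right]
          simp only [Pi.smul_apply, smul_eq_mul, K, hS, and_true]
          split_ifs <;> ring
        rw [sum_congr rfl h1, ← mul_sum, ← Finset.sum_apply, ← hc]
        by_cases hSW : S ∈ powersetCard r W
        · rw [hL1v S hSW, sub_self]
        · have h2 : dg (powersetCard (r + 1) W) L S = 0 := by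
            unfold dg
            apply sum_eq_zero
            intro e he
            exfalso
            obtain ⟨h3, h4⟩ := mem_filter.mp he
            exact hSW (mem_powersetCard.mpr ⟨h4.trans (mem_powersetCard.mp h3).1, hS⟩)
          rw [h2]
          simp only [hL1, if_neg hSW, mul_zero, sub_self]
    have h5 := Lat_null_span (r + 1) q W hrq hW W (Subset.refl W) _ hnull
    have h6 : ∑ Q ∈ powersetCard q W, c Q • K (r + 1) Q ∈ Lat_Sp q (r + 1) W := ⟨c, rfl⟩
    have h7 := AddSubgroup.add_mem _ h5 h6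
    rwa [sub_add_cancel] at h7

theorem lattice {q r : ℕ} (hrq : r ≤ q) {W : Finset ℕ} (hW : q + r ≤ W.card)
    {L : Finset ℕ → ℤ} (hL : L ∈ Dv q r (powersetCard r W)) :
    ∃ c : Finset ℕ → ℤ, L = ∑ Q ∈ powersetCard q W, c Q • K r Q :=
  Lat_main r q W hrq hW L hL

end Pool.Agent.Kv
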