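import Pool.Agent.Designs.Defs

set_option autoImplicit false

/-!
# Module Swap: the Reed–Solomon swap gadget
-/

namespace Pool.Agent.Kv

open Finset

lemma Swap_vec_val {r : ℕ} {D : Finset (Finset ℕ)} {e : Finset ℕ}
    (huniq : e.card = r → ∀ Q ∈ D, ∀ Q' ∈ D, e ⊆ Q → e ⊆ Q' → Q = Q') :
    vec r D e = if e.card = r ∧ ∃ Q ∈ D, e ⊆ Q then 1 else 0 := by
  rw [vec_apply]
  split_ifs with h
  · obtain ⟨her, Q, hQ, heQ⟩ := h
    rw [sum_eq_single Q]
    · simp [K, heQ, her]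
    · intro Q' hQ' hne
      unfold K
      rw [if_neg]
      rintro ⟨h1, _⟩
      exact hne (huniq her Q' hQ' Q hQ h1 heQ)
    · intro h; exact absurd hQ h
  · apply sum_eq_zero
    intro Q hQ
    unfold K
    rw [if_neg]
    rintro ⟨h1, h2⟩
    exact h ⟨h2, Q, hQ, h1⟩

/-- the word of coefficient vector `a` at `c`. -/
def SwapP {p r : ℕ} (a : Fin r → ZMod p) (x : ZMod p) : ZMod p := ∑ i : Fin r, a i * x ^ (i : ℕ)

/-- interpolation. -/
lemma Swap_interp {p r : ℕ} [Fact p.Prime] {C : Finset ℕ} (hCp : ∀ c ∈ C, c < p) {I : Finset ℕ}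
    (hI : I ⊆ C) (hIr : I.card = r) (v : ℕ → ZMod p) :
    ∃! a : Fin r → ZMod p, ∀ c ∈ I, SwapP a (c : ZMod p) = v c := by
  classical
  have : NeZero p := ⟨(Fact.out : p.Prime).ne_zero⟩
  have hinjc : ∀ c ∈ I, ∀ d ∈ I, (c : ZMod p) = (d : ZMod p) → c = d := by
    intro c hc d hd h
    have h1 := hCp c (hI hc)
    have h2 := hCp d (hI hd)
    have h3 := (ZMod.natCast_eq_natCast_iff' c d p).mp h
    rwa [Nat.mod_eq_of_lt h1, Nat.mod_eq_of_lt h2] at h3
  let f : (Fin r → ZMod p) → (I → ZMod p) := fun a c => SwapP a ((c : ℕ) : ZMod p)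
  have hinj : Function.Injective f := by
    intro a b hab
    let P : (Fin r → ZMod p) → Polynomial (ZMod p) :=
      fun a => ∑ i : Fin r, Polynomial.C (a i) * Polynomial.X ^ (i : ℕ)
    have hPe : ∀ (a : Fin r → ZMod p) (x : ZMod p), (P a).eval x = SwapP a x := by
      intro a x
      simp [P, SwapP, Polynomial.eval_finsetSum]
    have hPd : ∀ a : Fin r → ZMod p, (P a).degree < (r : WithBot ℕ) := fun a =>
      Polynomial.degree_sum_fin_lt a
    have hPab : P a = P b := by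
      let J : Finset (ZMod p) := I.image (fun c : ℕ => (c : ZMod p))
      have hJ : J.card = r := by
        rw [card_image_of_injOn, hIr]
        intro c hc d hd h
        exact hinjc c hc d hd h
      apply Polynomial.eq_of_degrees_lt_of_eval_finset_eq J
      · rw [hJ]; exact hPd a
      · rw [hJ]; exact hPd b
      · intro x hx
        obtain ⟨c, hc, rfl⟩ := mem_image.mp hx
        rw [hPe, hPe]
        exact congrFun hab ⟨c, hc⟩
    funext i
    have hco : ∀ a : Fin r → ZMod p, (P a).coeff (i : ℕ) = a i := by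
      intro a
      simp only [P, Polynomial.finsetSum_coeff, Polynomial.coeff_C_mul, Polynomial.coeff_X_pow]
      rw [sum_eq_single i]
      · simp
      · intro j _ hj
        have : ¬ ((i : ℕ) = (j : ℕ)) := fun h => hj (Fin.ext h.symm)
        simp [this]
      · intro h; exact absurd (mem_univ i) h
    rw [← hco a, ← hco b, hPab]
  have hbij : Function.Bijective f := by
    rw [Fintype.bijective_iff_injective_and_card]
    refine ⟨hinj, ?_⟩
    simp [hIr]
  obtain ⟨a, ha⟩ := hbij.2 (fun c => v c)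
  refine ⟨a, fun c hc => congrFun ha ⟨c, hc⟩, ?_⟩
  intro b hb
  apply hinj
  funext c
  exact (hb c c.2).trans (congrFun ha c).symm

/-- families with the interpolation property. -/
lemma Swap_uniq {p r : ℕ} {C : Finset ℕ} {φ : ℕ → ZMod p → ℕ}
    (hφ : ∀ c ∈ C, ∀ c' ∈ C, ∀ x x', φ c x = φ c' x' → c = c' ∧ x = x')
    {W W' : (Fin r → ZMod p) → ℕ → ZMod p} {e : Finset ℕ} (her : e.card = r)
    {a : Fin r → ZMod p} (ha : e ⊆ C.image (fun c => φ c (W a c))) :
    ∃ I : Finset ℕ, I ⊆ C ∧ I.card = r ∧ e = I.image (fun c => φ c (W a c)) ∧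
      (∀ b, e ⊆ C.image (fun c => φ c (W' b c)) → ∀ c ∈ I, W' b c = W a c) ∧
      (∀ b, (∀ c ∈ I, W' b c = W a c) → e ⊆ C.image (fun c => φ c (W' b c))) := by
  classical
  have he : e = (C.filter (fun c => φ c (W a c) ∈ e)).image (fun c => φ c (W a c)) := by
    ext y
    constructor
    · intro hy
      obtain ⟨c, hc, hcy⟩ := mem_image.mp (ha hy)
      exact mem_image.mpr ⟨c, mem_filter.mpr ⟨hc, by rw [hcy]; exact hy⟩, hcy⟩
    · intro hy
      obtain ⟨c, hc, hcy⟩ := mem_image.mp hy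
      rw [← hcy]
      exact (mem_filter.mp hc).2
  refine ⟨C.filter (fun c => φ c (W a c) ∈ e), filter_subset _ _, ?_, he, ?_, ?_⟩
  · have h2 := congrArg Finset.card he
    rw [card_image_of_injOn, her] at h2
    · exact h2.symm
    · intro c hc d hd h
      exact (hφ c (mem_filter.mp hc).1 d (mem_filter.mp hd).1 _ _ h).1
  · intro b hb c hc
    obtain ⟨hcC, hce⟩ := mem_filter.mp hc
    obtain ⟨d, hd, hdc⟩ := mem_image.mp (hb hce)
    obtain ⟨h1, h2⟩ := hφ d hd c hcC _ _ hdc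
    subst h1
    exact h2
  · intro b hb y hy
    rw [he] at hy
    obtain ⟨c, hc, rfl⟩ := mem_image.mp hy
    refine mem_image.mpr ⟨c, (mem_filter.mp hc).1, ?_⟩
    rw [hb c hc]

theorem swap {q r : ℕ} (hr : 1 ≤ r) (hrq : r < q) {C E A0 : Finset ℕ} (hC : C.card = q)
    (hE : E.card = q) (hCE : (C ∩ E).card = r) :
    ∃ (N : Finset ℕ) (D0 D1 : Finset (Finset ℕ)), Disjoint N (A0 ∪ C ∪ E) ∧ C ∈ D0 ∧ E ∈ D1 ∧
      (∀ Q ∈ D0 ∪ D1, Q ⊆ C ∪ E ∪ N ∧ Q.card = q) ∧ vec r D0 = vec r D1 ∧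
      ∀ e, vec r D0 e ≤ 1 := by
  classical
  -- the prime
  obtain ⟨p, hpge, hp⟩ := Nat.exists_infinite_primes (C.sup id + 1)
  have : Fact p.Prime := ⟨hp⟩
  have : NeZero p := ⟨hp.ne_zero⟩
  have hCp : ∀ c ∈ C, c < p := by
    intro c hc
    have : c ≤ C.sup id := le_sup (f := id) hc
    omega
  have hinjc : ∀ c ∈ C, ∀ d ∈ C, (c : ZMod p) = (d : ZMod p) → c = d := by
    intro c hc d hd h
    have h3 := (ZMod.natCast_eq_natCast_iff' c d p).mp h
    rwa [Nat.mod_eq_of_lt (hCp c hc), Nat.mod_eq_of_lt (hCp d hd)] at h3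
  -- the bijection `C \ E → E \ C`
  have hcard : (C \ E).card = (E \ C).card := by
    have h1 := card_sdiff_add_card_inter C E
    have h2 := card_sdiff_add_card_inter E C
    rw [inter_comm E C] at h2
    omega
  let g : (C \ E : Finset ℕ) ≃ (E \ C : Finset ℕ) := Finset.equivOfCardEq hcard
  let ε : ℕ → ℕ := fun c => if h : c ∈ C \ E then (g ⟨c, h⟩ : ℕ) else c
  have hε1 : ∀ c ∈ C \ E, ε c ∈ E \ C := by
    intro c hc
    simp only [ε, dif_pos hc]
    exact (g ⟨c, hc⟩).2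
  have hε2 : ∀ c ∈ C ∩ E, ε c = c := by
    intro c hc
    have : c ∉ C \ E := by
      intro h
      exact (mem_sdiff.mp h).2 (mem_inter.mp hc).2
    simp only [ε, dif_neg this]
  have hε3 : ∀ c ∈ C \ E, ∀ d ∈ C \ E, ε c = ε d → c = d := by
    intro c hc d hd h
    simp only [ε, dif_pos hc, dif_pos hd] at h
    have h1 := g.injective (Subtype.ext h)
    exact congrArg Subtype.val h1
  have hε4 : ∀ y ∈ E \ C, ∃ c ∈ C \ E, ε c = y := by
    intro y hy
    refine ⟨(g.symm ⟨y, hy⟩ : ℕ), (g.symm ⟨y, hy⟩).2, ?_⟩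
    have : ((g.symm ⟨y, hy⟩ : (C \ E : Finset ℕ)) : ℕ) ∈ C \ E := (g.symm ⟨y, hy⟩).2
    simp only [ε, dif_pos this]
    simp
  -- the polynomial h
  let H : ℕ → ZMod p := fun c => ∏ d ∈ C ∩ E, ((c : ZMod p) - (d : ZMod p))
  have hH0 : ∀ c ∈ C, (H c = 0 ↔ c ∈ E) := by
    intro c hc
    constructor
    · intro h
      obtain ⟨d, hd, hdc⟩ := prod_eq_zero_iff.mp h
      have := hinjc c hc d (mem_inter.mp hd).1 (sub_eq_zero.mp hdc)
      subst this
      exact (mem_inter.mp hd).2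
    · intro h
      exact prod_eq_zero (mem_inter.mpr ⟨hc, h⟩) (sub_self _)
  -- the fresh vertices
  let M : ℕ := (A0 ∪ C ∪ E).sup id + 1
  have hM : ∀ y ∈ A0 ∪ C ∪ E, y < M := by
    intro y hy
    have : y ≤ (A0 ∪ C ∪ E).sup id := le_sup (f := id) hy
    omega
  have hMC : ∀ c ∈ C, c < M := fun c hc => hM c (by simp [hc])
  have hME : ∀ c ∈ E, c < M := fun c hc => hM c (by simp [hc])
  let fr : ℕ → ZMod p → ℕ := fun c x => M + Nat.pair c x.val
  let φ : ℕ → ZMod p → ℕ := fun c x => if x = 0 then c else if x = H c then ε c else fr c x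
  have hφ0 : ∀ c, φ c 0 = c := fun c => by simp [φ]
  have hφH : ∀ c ∈ C, φ c (H c) = ε c := by
    intro c hc
    by_cases h : H c = 0
    · rw [h, hφ0, hε2 c (mem_inter.mpr ⟨hc, (hH0 c hc).mp h⟩)]
    · simp only [φ, if_neg h, if_true]
  have hcases : ∀ c ∈ C, ∀ x, (x = 0 ∧ φ c x = c) ∨
      (x = H c ∧ c ∈ C \ E ∧ φ c x = ε c) ∨ (φ c x = fr c x) := by
    intro c hc x
    by_cases h0 : x = 0
    · left; exact ⟨h0, by rw [h0, hφ0]⟩
    · by_cases h1 : x = H c
      · right; left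
        refine ⟨h1, mem_sdiff.mpr ⟨hc, fun hE' => h0 ?_⟩, by rw [h1, hφH c hc]⟩
        rw [h1]; exact (hH0 c hc).mpr hE'
      · right; right
        simp only [φ, if_neg h0, if_neg h1]
  have hfrM : ∀ c x, M ≤ fr c x := fun c x => Nat.le_add_right _ _
  have hφ : ∀ c ∈ C, ∀ c' ∈ C, ∀ x x', φ c x = φ c' x' → c = c' ∧ x = x' := by
    intro c hc c' hc' x x' h
    rcases hcases c hc x with ⟨h1, h2⟩ | ⟨h1, h1', h2⟩ | h2 <;>
      rcases hcases c' hc' x' with ⟨k1, k2⟩ | ⟨k1, k1', k2⟩ | k2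
    · exact ⟨by rw [← h2, h, k2], by rw [h1, k1]⟩
    · exfalso
      have : c = ε c' := by rw [← h2, h, k2]
      have h3 := hε1 c' k1'
      rw [← this] at h3
      exact (mem_sdiff.mp h3).2 hc
    · exfalso
      have : c = fr c' x' := by rw [← h2, h, k2]
      have h3 := hfrM c' x'
      have h4 := hMC c hc
      omega
    · exfalso
      have : c' = ε c := by rw [← k2, ← h, h2]
      have h3 := hε1 c h1'
      rw [← this] at h3
      exact (mem_sdiff.mp h3).2 hc'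
    · have : ε c = ε c' := by rw [← h2, h, k2]
      have h3 := hε3 c h1' c' k1' this
      subst h3
      exact ⟨rfl, by rw [h1, k1]⟩
    · exfalso
      have h5 : ε c = fr c' x' := by rw [← h2, h, k2]
      have h3 := hfrM c' x'
      have h4 := hME (ε c) (mem_sdiff.mp (hε1 c h1')).1
      omega
    · exfalso
      have : c' = fr c x := by rw [← k2, ← h, h2]
      have h3 := hfrM c x
      have h4 := hMC c' hc'
      omega
    · exfalso
      have h5 : ε c' = fr c x := by rw [← k2, ← h, h2]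
      have h3 := hfrM c x
      have h4 := hME (ε c') (mem_sdiff.mp (hε1 c' k1')).1
      omega
    · have h3 : fr c x = fr c' x' := by rw [← h2, h, k2]
      have h4 : Nat.pair c x.val = Nat.pair c' x'.val := by
        simp only [fr] at h3
        omega
      have h5 := Nat.pair_eq_pair.mp h4
      exact ⟨h5.1, ZMod.val_injective p h5.2⟩
  -- the families
  let W0 : (Fin r → ZMod p) → ℕ → ZMod p := fun a c => SwapP a (c : ZMod p)
  let W1 : (Fin r → ZMod p) → ℕ → ZMod p := fun a c => SwapP a (c : ZMod p) + H c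
  have hW0 : ∀ I ⊆ C, I.card = r → ∀ v : ℕ → ZMod p, ∃! a, ∀ c ∈ I, W0 a c = v c :=
    fun I hI hIr v => Swap_interp hCp hI hIr v
  have hW1 : ∀ I ⊆ C, I.card = r → ∀ v : ℕ → ZMod p, ∃! a, ∀ c ∈ I, W1 a c = v c := by
    intro I hI hIr v
    obtain ⟨a, ha, hu⟩ := Swap_interp hCp hI hIr (fun c => v c - H c)
    refine ⟨a, fun c hc => ?_, fun b hb => hu b (fun c hc => ?_)⟩
    · simp only [W1]; rw [ha c hc]; ring
    · have := hb c hc
      simp only [W1] at this
      rw [← this]; ring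
  let D : ((Fin r → ZMod p) → ℕ → ZMod p) → Finset (Finset ℕ) :=
    fun W => univ.image (fun a => C.image (fun c => φ c (W a c)))
  have huniq : ∀ W : (Fin r → ZMod p) → ℕ → ZMod p,
      (∀ I ⊆ C, I.card = r → ∀ v : ℕ → ZMod p, ∃! a, ∀ c ∈ I, W a c = v c) →
      ∀ e : Finset ℕ, e.card = r → ∀ Q ∈ D W, ∀ Q' ∈ D W, e ⊆ Q → e ⊆ Q' → Q = Q' := by
    intro W hW e her Q hQ Q' hQ' heQ heQ'
    obtain ⟨a, _, rfl⟩ := mem_image.mp hQ
    obtain ⟨b, _, rfl⟩ := mem_image.mp hQ'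
    obtain ⟨I, hI, hIr, _, h1, _⟩ := Swap_uniq (W' := W) hφ her heQ
    have h2 := h1 b heQ'
    have h3 := (hW I hI hIr (fun c => W a c)).unique (fun c _ => rfl) h2
    rw [h3]
  have hex : ∀ W W' : (Fin r → ZMod p) → ℕ → ZMod p,
      (∀ I ⊆ C, I.card = r → ∀ v : ℕ → ZMod p, ∃! a, ∀ c ∈ I, W' a c = v c) →
      ∀ e : Finset ℕ, e.card = r → (∃ Q ∈ D W, e ⊆ Q) → ∃ Q ∈ D W', e ⊆ Q := by
    intro W W' hW' e her ⟨Q, hQ, heQ⟩
    obtain ⟨a, _, rfl⟩ := mem_image.mp hQ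
    obtain ⟨I, hI, hIr, _, _, h1⟩ := Swap_uniq (W' := W') hφ her heQ
    obtain ⟨b, hb, _⟩ := hW' I hI hIr (fun c => W a c)
    exact ⟨_, mem_image.mpr ⟨b, mem_univ _, rfl⟩, h1 b hb⟩
  have hval : ∀ W : (Fin r → ZMod p) → ℕ → ZMod p,
      (∀ I ⊆ C, I.card = r → ∀ v : ℕ → ZMod p, ∃! a, ∀ c ∈ I, W a c = v c) → ∀ e : Finset ℕ,
      vec r (D W) e = if e.card = r ∧ ∃ Q ∈ D W, e ⊆ Q then 1 else 0 := fun W hW e =>
    Swap_vec_val (fun her => huniq W hW e her)
  let N : Finset ℕ := (C ×ˢ (univ : Finset (ZMod p))).image (fun y => fr y.1 y.2)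
  have hsub : ∀ W : (Fin r → ZMod p) → ℕ → ZMod p, ∀ Q ∈ D W, Q ⊆ C ∪ E ∪ N ∧ Q.card = q := by
    intro W Q hQ
    obtain ⟨a, _, rfl⟩ := mem_image.mp hQ
    constructor
    · intro y hy
      obtain ⟨c, hc, rfl⟩ := mem_image.mp hy
      rcases hcases c hc (W a c) with ⟨_, h2⟩ | ⟨_, h1', h2⟩ | h2
      · simp only [mem_union]; left; left; rw [h2]; exact hc
      · simp only [mem_union]; left; right; rw [h2]; exact (mem_sdiff.mp (hε1 c h1')).1
      · simp only [mem_union]; right; rw [h2]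
        exact mem_image.mpr ⟨(c, W a c), by simp [hc], rfl⟩
    · rw [card_image_of_injOn, hC]
      intro c hc d hd h
      exact (hφ c hc d hd _ _ h).1
  have hP0 : ∀ x : ZMod p, SwapP (0 : Fin r → ZMod p) x = 0 := by
    intro x; simp [SwapP]
  refine ⟨N, D W0, D W1, ?_, ?_, ?_, ?_, ?_, ?_⟩
  · rw [disjoint_left]
    intro y hy hy'
    obtain ⟨z, _, rfl⟩ := mem_image.mp hy
    have h1 := hM _ hy'
    have h2 := hfrM z.1 z.2
    omega
  · refine mem_image.mpr ⟨0, mem_univ _, ?_⟩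
    ext y
    simp only [mem_image, W0, hP0, hφ0]
    simp
  · refine mem_image.mpr ⟨0, mem_univ _, ?_⟩
    ext y
    simp only [mem_image, W1, hP0, zero_add]
    constructor
    · rintro ⟨c, hc, rfl⟩
      rw [hφH c hc]
      by_cases hcE : c ∈ E
      · rw [hε2 c (mem_inter.mpr ⟨hc, hcE⟩)]; exact hcE
      · exact (mem_sdiff.mp (hε1 c (mem_sdiff.mpr ⟨hc, hcE⟩))).1
    · intro hy
      by_cases hyC : y ∈ C
      · exact ⟨y, hyC, by rw [hφH y hyC, hε2 y (mem_inter.mpr ⟨hyC, hy⟩)]⟩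
      · obtain ⟨c, hc, hcy⟩ := hε4 y (mem_sdiff.mpr ⟨hy, hyC⟩)
        exact ⟨c, (mem_sdiff.mp hc).1, by rw [hφH c (mem_sdiff.mp hc).1, hcy]⟩
  · intro Q hQ
    rcases mem_union.mp hQ with h | h
    · exact hsub W0 Q h
    · exact hsub W1 Q h
  · funext e
    rw [hval W0 hW0 e, hval W1 hW1 e]
    by_cases her : e.card = r
    · have : (∃ Q ∈ D W0, e ⊆ Q) ↔ (∃ Q ∈ D W1, e ⊆ Q) :=
        ⟨hex W0 W1 hW1 e her, hex W1 W0 hW0 e her⟩
      simp only [this]
    · simp [her]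
  · intro e
    rw [hval W0 hW0 e]
    split_ifs <;> norm_num

end Pool.Agent.Kv
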