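import Pool.Agent.Designs.Vec
import Pool.Agent.Designs.Lat
import Pool.Agent.Designs.Swap

set_option autoImplicit false

/-!
# Module AbsN: absorbers in `ℕ`
-/

namespace Pool.Agent.Kv

open Finset

/-- covering vector of a multiset of sets. -/
def AbsN_v (r : ℕ) : Multiset (Finset ℕ) →+ (Finset ℕ → ℤ) :=
  Multiset.sumAddMonoidHom.comp (Multiset.mapAddMonoidHom (K r))

lemma AbsN_v_def (r : ℕ) (M : Multiset (Finset ℕ)) : AbsN_v r M = (M.map (K r)).sum := rfl

lemma AbsN_v_cons (r : ℕ) (Q : Finset ℕ) (M : Multiset (Finset ℕ)) :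
    AbsN_v r (Q ::ₘ M) = K r Q + AbsN_v r M := by
  rw [AbsN_v_def, AbsN_v_def, Multiset.map_cons, Multiset.sum_cons]

lemma AbsN_v_val (r : ℕ) (D : Finset (Finset ℕ)) : AbsN_v r D.val = vec r D := rfl

lemma AbsN_v_erase {r : ℕ} {D : Finset (Finset ℕ)} {E : Finset ℕ} (h : E ∈ D) :
    AbsN_v r (D.erase E).val = vec r D - K r E := by
  rw [AbsN_v_val]
  unfold vec
  exact sum_erase_eq_sub h

lemma AbsN_v_nonneg (r : ℕ) (M : Multiset (Finset ℕ)) (e : Finset ℕ) : 0 ≤ AbsN_v r M e := by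
  induction M using Multiset.induction_on with
  | empty => simp
  | cons Q M ih =>
    rw [AbsN_v_cons, Pi.add_apply]
    exact add_nonneg (K_nonneg r Q e) ih

lemma AbsN_v_zero {r : ℕ} {M : Multiset (Finset ℕ)} {e : Finset ℕ}
    (h : ∀ Q ∈ M, ¬ (e ⊆ Q ∧ e.card = r)) : AbsN_v r M e = 0 := by
  induction M using Multiset.induction_on with
  | empty => simp
  | cons Q M ih =>
    rw [AbsN_v_cons, Pi.add_apply, ih (fun Q' hQ' => h Q' (Multiset.mem_cons_of_mem hQ')),
      add_zero, K_apply, if_neg (h Q (Multiset.mem_cons_self Q M))]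

lemma AbsN_v_pos {r : ℕ} {M : Multiset (Finset ℕ)} {e : Finset ℕ} (h : AbsN_v r M e ≠ 0) :
    ∃ Q ∈ M, e ⊆ Q ∧ e.card = r := by
  by_contra hno
  push Not at hno
  exact h (AbsN_v_zero (fun Q hQ hh => hno Q hQ hh.1 hh.2))

lemma AbsN_vec_pos {r : ℕ} {D : Finset (Finset ℕ)} {e : Finset ℕ} (h : vec r D e ≠ 0) :
    ∃ Q ∈ D, e ⊆ Q ∧ e.card = r := AbsN_v_pos (M := D.val) h

lemma AbsN_old {r : ℕ} {D : Finset (Finset ℕ)} {W T Q0 e : Finset ℕ}
    (hle : ∀ e, vec r D e ≤ 1) (hU : ∀ Q ∈ D, Q ∩ W ⊆ T) (hQ0 : Q0 ∈ D) (hT : T ⊆ Q0)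
    (he : e ⊆ W) : vec r D e = K r T e := by
  by_cases h : e ⊆ T ∧ e.card = r
  · rw [K_apply, if_pos h]
    exact le_antisymm (hle e) (one_le_vec hQ0 (h.1.trans hT) h.2)
  · rw [K_apply, if_neg h]
    by_contra hne
    obtain ⟨Q, hQ, h1, h2⟩ := AbsN_vec_pos hne
    exact h ⟨(subset_inter h1 he).trans (hU Q hQ), h2⟩

lemma AbsN_K_old {r : ℕ} {W T Q e : Finset ℕ} (hU : Q ∩ W = T) (he : e ⊆ W) :
    K r Q e = K r T e := by
  have : e ⊆ Q ↔ e ⊆ T := by
    rw [← hU]
    exact ⟨fun h => subset_inter h he, fun h => h.trans inter_subset_left⟩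
  simp only [K_apply, this]

lemma AbsN_gadget {q r : ℕ} (hr : 1 ≤ r) (hrq : r < q) {W f C C' : Finset ℕ} (hf : f ⊆ W)
    (hfr : f.card = r) (hC : C ⊆ W) (hCq : C.card = q) (hC' : C' ⊆ W) (hC'q : C'.card = q)
    (hfC : f ⊆ C) (hfC' : f ⊆ C') :
    ∃ (W' : Finset ℕ) (P R : Multiset (Finset ℕ)), W ⊆ W' ∧
      (∀ Q ∈ P, Q ⊆ W' ∧ Q.card = q) ∧ (∀ Q ∈ R, Q ⊆ W' ∧ Q.card = q) ∧
      AbsN_v r R - AbsN_v r P = K r C - K r C' ∧
      (∀ e ⊆ W, AbsN_v r P e = K r C' e - K r f e) ∧
      (∀ e, ¬ e ⊆ W → AbsN_v r P e ≤ 1) := by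
  classical
  obtain ⟨M, hM⟩ : ∃ M : ℕ, ∀ x ∈ W, x < M :=
    ⟨W.sup id + 1, fun x hx => Nat.lt_succ_of_le (le_sup (f := id) hx)⟩
  let F1 : Finset ℕ := Ico M (M + (q - r))
  let F2 : Finset ℕ := Ico (M + (q - r)) (M + (q - r) + (q - r))
  let E1 : Finset ℕ := f ∪ F1
  let E2 : Finset ℕ := f ∪ F2
  have hF1W : ∀ x ∈ F1, x ∉ W := by
    intro x hx hxW
    have := hM x hxW
    have := (mem_Ico.mp hx).1
    omega
  have hF2W : ∀ x ∈ F2, x ∉ W := by
    intro x hx hxW
    have := hM x hxW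
    have := (mem_Ico.mp hx).1
    omega
  have hF12 : ∀ x ∈ F1, x ∉ F2 := by
    intro x hx hx2
    have := (mem_Ico.mp hx).2
    have := (mem_Ico.mp hx2).1
    omega
  have hE1q : E1.card = q := by
    rw [card_union_of_disjoint, hfr, Nat.card_Ico]
    · omega
    · rw [disjoint_left]; intro x hx hx1; exact hF1W x hx1 (hf hx)
  have hE2q : E2.card = q := by
    rw [card_union_of_disjoint, hfr, Nat.card_Ico]
    · omega
    · rw [disjoint_left]; intro x hx hx1; exact hF2W x hx1 (hf hx)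
  have hfE1 : f ⊆ E1 := subset_union_left
  have hfE2 : f ⊆ E2 := subset_union_left
  have hE1W : ∀ x ∈ E1, x ∈ W → x ∈ f := by
    intro x hx hxW
    rcases mem_union.mp hx with h | h
    · exact h
    · exact absurd hxW (hF1W x h)
  have hE2W : ∀ x ∈ E2, x ∈ W → x ∈ f := by
    intro x hx hxW
    rcases mem_union.mp hx with h | h
    · exact h
    · exact absurd hxW (hF2W x h)
  have hE12 : ∀ x ∈ E1, x ∈ E2 → x ∈ f := by
    intro x hx hx2
    rcases mem_union.mp hx with h | h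
    · exact h
    · rcases mem_union.mp hx2 with h2 | h2
      · exact h2
      · exact absurd h2 (hF12 x h)
  have hi1 : C ∩ E1 = f := by
    ext x
    rw [mem_inter]
    exact ⟨fun h => hE1W x h.2 (hC h.1), fun h => ⟨hfC h, hfE1 h⟩⟩
  have hi2 : E1 ∩ E2 = f := by
    ext x
    rw [mem_inter]
    exact ⟨fun h => hE12 x h.1 h.2, fun h => ⟨hfE1 h, hfE2 h⟩⟩
  have hi3 : E2 ∩ C' = f := by
    ext x
    rw [mem_inter]
    exact ⟨fun h => hE2W x h.1 (hC' h.2), fun h => ⟨hfE2 h, hfC' h⟩⟩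
  obtain ⟨N1, D01, D11, hN1, hm01, hm11, hs1, hv1, hle1⟩ :=
    swap hr hrq (A0 := W ∪ E1 ∪ E2) hCq hE1q (by rw [hi1, hfr])
  obtain ⟨N2, D02, D12, hN2, hm02, hm12, hs2, hv2, hle2⟩ :=
    swap hr hrq (A0 := W ∪ E1 ∪ E2 ∪ N1) hE1q hE2q (by rw [hi2, hfr])
  obtain ⟨N3, D03, D13, hN3, hm03, hm13, hs3, hv3, hle3⟩ :=
    swap hr hrq (A0 := W ∪ E1 ∪ E2 ∪ N1 ∪ N2) hE2q hC'q (by rw [hi3, hfr])
  have hle3' : ∀ e, vec r D13 e ≤ 1 := fun e => by rw [← hv3]; exact hle3 e
  have n1 : ∀ x ∈ N1, x ∉ W ∧ x ∉ E1 ∧ x ∉ E2 := by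
    intro x hx
    have h := disjoint_left.mp hN1 hx
    simp only [mem_union, not_or] at h
    tauto
  have n2 : ∀ x ∈ N2, x ∉ W ∧ x ∉ E1 ∧ x ∉ E2 ∧ x ∉ N1 := by
    intro x hx
    have h := disjoint_left.mp hN2 hx
    simp only [mem_union, not_or] at h
    tauto
  have n3 : ∀ x ∈ N3, x ∉ W ∧ x ∉ E1 ∧ x ∉ E2 ∧ x ∉ N1 ∧ x ∉ N2 := by
    intro x hx
    have h := disjoint_left.mp hN3 hx
    simp only [mem_union, not_or] at h
    tauto
  -- values on old sets
  have g1 : ∀ e ⊆ W, vec r D01 e = K r C e := by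
    intro e he
    refine AbsN_old hle1 (fun Q hQ x hx => ?_) hm01 (Subset.refl C) he
    obtain ⟨hxQ, hxW⟩ := mem_inter.mp hx
    have := (hs1 Q (mem_union_left _ hQ)).1 hxQ
    simp only [mem_union] at this
    rcases this with (h | h) | h
    · exact h
    · exact hfC (hE1W x h hxW)
    · exact absurd hxW (n1 x h).1
  have g2 : ∀ e ⊆ W, vec r D02 e = K r f e := by
    intro e he
    refine AbsN_old hle2 (fun Q hQ x hx => ?_) hm02 hfE1 he
    obtain ⟨hxQ, hxW⟩ := mem_inter.mp hx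
    have := (hs2 Q (mem_union_left _ hQ)).1 hxQ
    simp only [mem_union] at this
    rcases this with (h | h) | h
    · exact hE1W x h hxW
    · exact hE2W x h hxW
    · exact absurd hxW (n2 x h).1
  have g3 : ∀ e ⊆ W, vec r D03 e = K r C' e := by
    intro e he
    rw [hv3]
    refine AbsN_old hle3' (fun Q hQ x hx => ?_) hm13 (Subset.refl C') he
    obtain ⟨hxQ, hxW⟩ := mem_inter.mp hx
    have := (hs3 Q (mem_union_right _ hQ)).1 hxQ
    simp only [mem_union] at this
    rcases this with (h | h) | h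
    · exact hfC' (hE2W x h hxW)
    · exact h
    · exact absurd hxW (n3 x h).1
  have hE1i : E1 ∩ W = f := by
    ext x
    rw [mem_inter]
    exact ⟨fun h => hE1W x h.1 h.2, fun h => ⟨hfE1 h, hf h⟩⟩
  have hE2i : E2 ∩ W = f := by
    ext x
    rw [mem_inter]
    exact ⟨fun h => hE2W x h.1 h.2, fun h => ⟨hfE2 h, hf h⟩⟩
  have k1 : ∀ e ⊆ W, K r E1 e = K r f e := fun e he => AbsN_K_old hE1i he
  have k2 : ∀ e ⊆ W, K r E2 e = K r f e := fun e he => AbsN_K_old hE2i he
  let P : Multiset (Finset ℕ) := (D01.erase C).val + (D02.erase E1).val + (D03.erase E2).val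
  let R : Multiset (Finset ℕ) := (D11.erase E1).val + (D12.erase E2).val + (D13.erase C').val
  have hP : AbsN_v r P = (vec r D01 - K r C) + (vec r D02 - K r E1) + (vec r D03 - K r E2) := by
    simp only [P, map_add]
    rw [AbsN_v_erase hm01, AbsN_v_erase hm02, AbsN_v_erase hm03]
  have hR : AbsN_v r R = (vec r D11 - K r E1) + (vec r D12 - K r E2) + (vec r D13 - K r C') := by
    simp only [R, map_add]
    rw [AbsN_v_erase hm11, AbsN_v_erase hm12, AbsN_v_erase hm13]
  refine ⟨W ∪ E1 ∪ E2 ∪ N1 ∪ N2 ∪ N3, P, R, ?_, ?_, ?_, ?_, ?_, ?_⟩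
  · intro x hx; simp only [mem_union]; tauto
  · intro Q hQ
    simp only [P, Multiset.mem_add, mem_val] at hQ
    rcases hQ with (h | h) | h
    · obtain ⟨h1, h2⟩ := hs1 Q (mem_union_left _ (mem_of_mem_erase h))
      refine ⟨fun x hx => ?_, h2⟩
      have := h1 hx
      simp only [mem_union] at this ⊢
      rcases this with (h | h) | h
      · have := hC h; tauto
      · tauto
      · tauto
    · obtain ⟨h1, h2⟩ := hs2 Q (mem_union_left _ (mem_of_mem_erase h))
      refine ⟨fun x hx => ?_, h2⟩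
      have := h1 hx
      simp only [mem_union] at this ⊢
      tauto
    · obtain ⟨h1, h2⟩ := hs3 Q (mem_union_left _ (mem_of_mem_erase h))
      refine ⟨fun x hx => ?_, h2⟩
      have := h1 hx
      simp only [mem_union] at this ⊢
      rcases this with (h | h) | h
      · tauto
      · have := hC' h; tauto
      · tauto
  · intro Q hQ
    simp only [R, Multiset.mem_add, mem_val] at hQ
    rcases hQ with (h | h) | h
    · obtain ⟨h1, h2⟩ := hs1 Q (mem_union_right _ (mem_of_mem_erase h))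
      refine ⟨fun x hx => ?_, h2⟩
      have := h1 hx
      simp only [mem_union] at this ⊢
      rcases this with (h | h) | h
      · have := hC h; tauto
      · tauto
      · tauto
    · obtain ⟨h1, h2⟩ := hs2 Q (mem_union_right _ (mem_of_mem_erase h))
      refine ⟨fun x hx => ?_, h2⟩
      have := h1 hx
      simp only [mem_union] at this ⊢
      tauto
    · obtain ⟨h1, h2⟩ := hs3 Q (mem_union_right _ (mem_of_mem_erase h))
      refine ⟨fun x hx => ?_, h2⟩
      have := h1 hx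
      simp only [mem_union] at this ⊢
      rcases this with (h | h) | h
      · tauto
      · have := hC' h; tauto
      · tauto
  · rw [hP, hR, ← hv1, ← hv2, ← hv3]
    abel
  · intro e he
    rw [hP]
    simp only [Pi.add_apply, Pi.sub_apply]
    rw [g1 e he, g2 e he, g3 e he, k1 e he, k2 e he]
    ring
  · intro e he
    rw [hP]
    simp only [Pi.add_apply, Pi.sub_apply]
    have a1 := hle1 e
    have a2 := hle2 e
    have a3 := hle3 e
    have b1 := vec_nonneg r D01 e
    have b2 := vec_nonneg r D02 e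
    have b3 := vec_nonneg r D03 e
    have c0 := K_nonneg r C e
    have c1 := K_nonneg r E1 e
    have c2 := K_nonneg r E2 e
    have h12 : vec r D01 e ≠ 0 → vec r D02 e ≠ 0 → K r E1 e = 1 := by
      intro h1 h2
      obtain ⟨Q, hQ, heQ, her⟩ := AbsN_vec_pos h1
      obtain ⟨Q', hQ', heQ', _⟩ := AbsN_vec_pos h2
      rw [K_apply, if_pos]
      refine ⟨fun x hx => ?_, her⟩
      have u1 := (hs1 Q (mem_union_left _ hQ)).1 (heQ hx)
      have u2 := (hs2 Q' (mem_union_left _ hQ')).1 (heQ' hx)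
      simp only [mem_union] at u1 u2
      rcases u1 with (u1 | u1) | u1
      · rcases u2 with (u2 | u2) | u2
        · exact u2
        · exact hfE1 (hE2W x u2 (hC u1))
        · exact absurd (hC u1) (n2 x u2).1
      · exact u1
      · rcases u2 with (u2 | u2) | u2
        · exact u2
        · exact absurd u2 (n1 x u1).2.2
        · exact absurd u1 (n2 x u2).2.2.2
    have h23 : vec r D02 e ≠ 0 → vec r D03 e ≠ 0 → K r E2 e = 1 := by
      intro h1 h2
      obtain ⟨Q, hQ, heQ, her⟩ := AbsN_vec_pos h1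
      obtain ⟨Q', hQ', heQ', _⟩ := AbsN_vec_pos h2
      rw [K_apply, if_pos]
      refine ⟨fun x hx => ?_, her⟩
      have u1 := (hs2 Q (mem_union_left _ hQ)).1 (heQ hx)
      have u2 := (hs3 Q' (mem_union_left _ hQ')).1 (heQ' hx)
      simp only [mem_union] at u1 u2
      rcases u1 with (u1 | u1) | u1
      · rcases u2 with (u2 | u2) | u2
        · exact u2
        · exact hfE2 (hE1W x u1 (hC' u2))
        · exact absurd u1 (n3 x u2).2.1
      · exact u1
      · rcases u2 with (u2 | u2) | u2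
        · exact u2
        · exact absurd (hC' u2) (n2 x u1).1
        · exact absurd u1 (n3 x u2).2.2.2.2
    have h13 : vec r D01 e ≠ 0 → vec r D03 e ≠ 0 → False := by
      intro h1 h2
      obtain ⟨Q, hQ, heQ, her⟩ := AbsN_vec_pos h1
      obtain ⟨Q', hQ', heQ', _⟩ := AbsN_vec_pos h2
      apply he
      intro x hx
      have u1 := (hs1 Q (mem_union_left _ hQ)).1 (heQ hx)
      have u2 := (hs3 Q' (mem_union_left _ hQ')).1 (heQ' hx)
      simp only [mem_union] at u1 u2
      rcases u1 with (u1 | u1) | u1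
      · exact hC u1
      · rcases u2 with (u2 | u2) | u2
        · exact hf (hE12 x u1 u2)
        · exact hC' u2
        · exact absurd u1 (n3 x u2).2.1
      · rcases u2 with (u2 | u2) | u2
        · exact absurd u2 (n1 x u1).2.2
        · exact hC' u2
        · exact absurd u1 (n3 x u2).2.2.2.1
    by_cases e1 : vec r D01 e = 0
    · by_cases e2 : vec r D02 e = 0
      · omega
      · by_cases e3 : vec r D03 e = 0
        · omega
        · have := h23 e2 e3
          omega
    · by_cases e3 : vec r D03 e = 0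
      · by_cases e2 : vec r D02 e = 0
        · omega
        · have := h12 e1 e2
          omega
      · exact (h13 e1 e3).elim

/-- the excess of the pair `A`, `B` at `e`. -/
def AbsN_x (r : ℕ) (Y : Finset ℕ) (A B : Multiset (Finset ℕ)) (e : Finset ℕ) : ℕ :=
  if e ⊆ Y then min (AbsN_v r A e).toNat (AbsN_v r B e).toNat else (AbsN_v r A e - 1).toNat

lemma AbsN_main {q r : ℕ} (hr : 1 ≤ r) (hrq : r < q) {Y : Finset ℕ} {D0 D1 : Finset (Finset ℕ)}
    (h0 : D0 ⊆ powersetCard r Y) (h1 : D1 ⊆ powersetCard r Y) :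
    ∀ (k : ℕ) (W : Finset ℕ) (A B : Multiset (Finset ℕ)), Y ⊆ W →
      (∀ Q ∈ A, Q ⊆ W ∧ Q.card = q) → (∀ Q ∈ B, Q ⊆ W ∧ Q.card = q) →
      AbsN_v r B - AbsN_v r A = ind D1 - ind D0 →
      ∑ e ∈ powersetCard r W, AbsN_x r Y A B e = k →
      ∃ (W' : Finset ℕ) (A' B' : Multiset (Finset ℕ)), Y ⊆ W' ∧
        (∀ Q ∈ A', Q ⊆ W' ∧ Q.card = q) ∧ (∀ Q ∈ B', Q ⊆ W' ∧ Q.card = q) ∧
        AbsN_v r B' - AbsN_v r A' = ind D1 - ind D0 ∧
        ∀ e ∈ powersetCard r W', AbsN_x r Y A' B' e = 0 := by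
  classical
  intro k
  induction k with
  | zero =>
    intro W A B hY hA hB hd hx
    exact ⟨W, A, B, hY, hA, hB, hd, fun e he => (sum_eq_zero_iff.mp hx) e he⟩
  | succ k ih =>
    intro W A B hY hA hB hd hx
    -- off Y the two vectors agree
    have hoff : ∀ e, ¬ e ⊆ Y → AbsN_v r B e = AbsN_v r A e := by
      intro e he
      have h := congrFun hd e
      simp only [Pi.sub_apply] at h
      have e1 : ind D1 e = 0 := by
        unfold ind
        rw [if_neg]
        intro h'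
        exact he (mem_powersetCard.mp (h1 h')).1
      have e0 : ind D0 e = 0 := by
        unfold ind
        rw [if_neg]
        intro h'
        exact he (mem_powersetCard.mp (h0 h')).1
      rw [e1, e0] at h
      omega
    obtain ⟨f, hfW, hfx⟩ : ∃ f ∈ powersetCard r W, AbsN_x r Y A B f ≠ 0 := by
      by_contra hno
      push Not at hno
      rw [sum_eq_zero hno] at hx
      omega
    obtain ⟨hfW, hfr⟩ := mem_powersetCard.mp hfW
    have hA1 : AbsN_v r A f ≠ 0 ∧ AbsN_v r B f ≠ 0 := by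
      unfold AbsN_x at hfx
      by_cases hfY : f ⊆ Y
      · rw [if_pos hfY] at hfx
        omega
      · rw [if_neg hfY] at hfx
        have := hoff f hfY
        omega
    obtain ⟨C', hC'A, hfC', _⟩ := AbsN_v_pos hA1.1
    obtain ⟨C, hCB, hfC, _⟩ := AbsN_v_pos hA1.2
    obtain ⟨A1, rfl⟩ := Multiset.exists_cons_of_mem hC'A
    obtain ⟨B1, rfl⟩ := Multiset.exists_cons_of_mem hCB
    obtain ⟨W', P, R, hWW', hPm, hRm, hRP, hPo, hPn⟩ := AbsN_gadget hr hrq hfW hfr
      (hB C hCB).1 (hB C hCB).2 (hA C' hC'A).1 (hA C' hC'A).2 hfC hfC'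
    have hvA : AbsN_v r (A1 + P) = AbsN_v r (C' ::ₘ A1) - K r C' + AbsN_v r P := by
      rw [AbsN_v_cons, map_add]; abel
    have hvB : AbsN_v r (B1 + R) = AbsN_v r (C ::ₘ B1) - K r C + AbsN_v r R := by
      rw [AbsN_v_cons, map_add]; abel
    have hd' : AbsN_v r (B1 + R) - AbsN_v r (A1 + P) = ind D1 - ind D0 := by
      rw [hvA, hvB, ← hd]
      have : AbsN_v r R = AbsN_v r P + K r C - K r C' := by
        rw [add_sub_assoc, ← hRP]; abel
      rw [this]; abel
    have hAo : ∀ e ⊆ W, AbsN_v r (A1 + P) e = AbsN_v r (C' ::ₘ A1) e - K r f e := by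
      intro e he
      rw [hvA]
      simp only [Pi.add_apply, Pi.sub_apply]
      rw [hPo e he]; ring
    have hBo : ∀ e ⊆ W, AbsN_v r (B1 + R) e = AbsN_v r (C ::ₘ B1) e - K r f e := by
      intro e he
      have h1 := congrFun hd' e
      have h2 := congrFun hd e
      simp only [Pi.sub_apply] at h1 h2
      have h3 := hAo e he
      linarith
    apply ih W' (A1 + P) (B1 + R) (hY.trans hWW') _ _ hd' _
    · intro Q hQ
      rcases Multiset.mem_add.mp hQ with h | h
      · have := hA Q (Multiset.mem_cons_of_mem h)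
        exact ⟨this.1.trans hWW', this.2⟩
      · exact hPm Q h
    · intro Q hQ
      rcases Multiset.mem_add.mp hQ with h | h
      · have := hB Q (Multiset.mem_cons_of_mem h)
        exact ⟨this.1.trans hWW', this.2⟩
      · exact hRm Q h
    · have hs : ∑ e ∈ powersetCard r W', AbsN_x r Y (A1 + P) (B1 + R) e =
          ∑ e ∈ powersetCard r W, AbsN_x r Y (A1 + P) (B1 + R) e := by
        symm
        apply sum_subset (powersetCard_mono hWW')
        intro e he he'
        have her := (mem_powersetCard.mp he).2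
        have heW : ¬ e ⊆ W := fun h => he' (mem_powersetCard.mpr ⟨h, her⟩)
        have heY : ¬ e ⊆ Y := fun h => heW (h.trans hY)
        unfold AbsN_x
        rw [if_neg heY, map_add, Pi.add_apply]
        have z : AbsN_v r A1 e = 0 := AbsN_v_zero (fun Q hQ hh =>
          heW (hh.1.trans (hA Q (Multiset.mem_cons_of_mem hQ)).1))
        have := hPn e heW
        rw [z]
        omega
      rw [hs]
      have hfm : f ∈ powersetCard r W := mem_powersetCard.mpr ⟨hfW, hfr⟩
      have hne : ∀ e ∈ (powersetCard r W).erase f,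
          AbsN_x r Y (A1 + P) (B1 + R) e = AbsN_x r Y (C' ::ₘ A1) (C ::ₘ B1) e := by
        intro e he
        obtain ⟨hef, he⟩ := mem_erase.mp he
        obtain ⟨heW, her⟩ := mem_powersetCard.mp he
        have hK : K r f e = 0 := by
          rw [K_apply, if_neg]
          rintro ⟨hh, _⟩
          exact hef (eq_of_subset_of_card_le hh (by omega))
        unfold AbsN_x
        rw [hAo e heW, hBo e heW, hK]
        simp only [sub_zero]
      have hff : AbsN_x r Y (A1 + P) (B1 + R) f + 1 = AbsN_x r Y (C' ::ₘ A1) (C ::ₘ B1) f := by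
        have hK : K r f f = 1 := by
          rw [K_apply, if_pos ⟨Subset.refl f, hfr⟩]
        unfold AbsN_x at hfx ⊢
        rw [hAo f hfW, hBo f hfW, hK]
        by_cases hfY : f ⊆ Y
        · rw [if_pos hfY] at hfx ⊢
          rw [if_pos hfY]
          omega
        · rw [if_neg hfY] at hfx ⊢
          rw [if_neg hfY]
          omega
      have hSo := add_sum_erase (powersetCard r W)
        (fun e => AbsN_x r Y (C' ::ₘ A1) (C ::ₘ B1) e) hfm
      have hSn := add_sum_erase (powersetCard r W)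
        (fun e => AbsN_x r Y (A1 + P) (B1 + R) e) hfm
      have hSe : ∑ e ∈ (powersetCard r W).erase f, AbsN_x r Y (A1 + P) (B1 + R) e =
          ∑ e ∈ (powersetCard r W).erase f, AbsN_x r Y (C' ::ₘ A1) (C ::ₘ B1) e :=
        sum_congr rfl hne
      have hx' : ∑ e ∈ powersetCard r W, AbsN_x r Y (C' ::ₘ A1) (C ::ₘ B1) e = k + 1 := hx
      omega

theorem absN {q r : ℕ} (hr : 1 ≤ r) (hrq : r < q) {Y : Finset ℕ} {D0 D1 : Finset (Finset ℕ)}
    (h0 : D0 ⊆ powersetCard r Y) (h1 : D1 ⊆ powersetCard r Y) (h01 : Disjoint D0 D1)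
    (hD : ind D1 - ind D0 ∈ Dv q r (powersetCard r Y)) :
    ∃ A B : Finset (Finset ℕ), (∀ Q ∈ A ∪ B, Q.card = q) ∧
      (∀ e ⊆ Y, vec r A e = ind D0 e ∧ vec r B e = ind D1 e) ∧
      ∀ e, ¬ e ⊆ Y → vec r A e = vec r B e ∧ vec r A e ≤ 1 := by
  classical
  let W : Finset ℕ := Y ∪ range (q + r)
  have hYW : Y ⊆ W := subset_union_left
  have hW : q + r ≤ W.card := by
    calc q + r = (range (q + r)).card := (card_range _).symm
      _ ≤ W.card := card_le_card subset_union_right
  obtain ⟨c, hc⟩ := lattice (le_of_lt hrq) hW (Dv_mono (powersetCard_mono hYW) hD)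
  let B0 : Multiset (Finset ℕ) := ∑ Q ∈ powersetCard q W, (c Q).toNat • ({Q} : Multiset (Finset ℕ))
  let A0 : Multiset (Finset ℕ) := ∑ Q ∈ powersetCard q W, (-c Q).toNat • ({Q} : Multiset (Finset ℕ))
  have hmem : ∀ (n : Finset ℕ → ℕ), ∀ Q ∈ ∑ Q ∈ powersetCard q W, n Q • ({Q} : Multiset (Finset ℕ)),
      Q ⊆ W ∧ Q.card = q := by
    intro n Q hQ
    obtain ⟨Q', hQ', h⟩ := Multiset.mem_sum.mp hQ
    have := Multiset.mem_of_mem_nsmul h
    rw [Multiset.mem_singleton] at this
    subst this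
    exact mem_powersetCard.mp hQ'
  have hv1 : ∀ Q : Finset ℕ, AbsN_v r {Q} = K r Q := by
    intro Q
    have := AbsN_v_cons r Q 0
    rw [map_zero, add_zero] at this
    exact this
  have hd : AbsN_v r B0 - AbsN_v r A0 = ind D1 - ind D0 := by
    rw [hc]
    simp only [A0, B0, map_sum, map_nsmul, hv1]
    rw [← sum_sub_distrib]
    apply sum_congr rfl
    intro Q _
    funext e
    simp only [Pi.sub_apply, Pi.smul_apply]
    rw [nsmul_eq_mul, nsmul_eq_mul, smul_eq_mul, ← sub_mul]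
    congr 1
    omega
  obtain ⟨W', A, B, hYW', hA, hB, hd', hx⟩ := AbsN_main hr hrq h0 h1 _ W A0 B0 hYW
    (hmem _) (hmem _) hd rfl
  -- values
  have hi1 : ∀ e, ind D1 e = 0 ∨ ind D0 e = 0 := by
    intro e
    unfold ind
    by_cases h : e ∈ D1
    · right; rw [if_neg (fun h' => disjoint_left.mp h01 h' h)]
    · left; rw [if_neg h]
  have hz : ∀ (e : Finset ℕ), ¬ (e ⊆ W' ∧ e.card = r) → AbsN_v r A e = 0 ∧ AbsN_v r B e = 0 := by
    intro e he
    constructor
    · exact AbsN_v_zero (fun Q hQ hh => he ⟨hh.1.trans (hA Q hQ).1, hh.2⟩)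
    · exact AbsN_v_zero (fun Q hQ hh => he ⟨hh.1.trans (hB Q hQ).1, hh.2⟩)
  have hval1 : ∀ e ⊆ Y, AbsN_v r A e = ind D0 e ∧ AbsN_v r B e = ind D1 e := by
    intro e he
    have h2 := congrFun hd' e
    simp only [Pi.sub_apply] at h2
    have n0 := ind_nonneg D0 e
    have n1 := ind_nonneg D1 e
    have nA := AbsN_v_nonneg r A e
    have nB := AbsN_v_nonneg r B e
    have hor := hi1 e
    by_cases her : e.card = r
    · have hxe := hx e (mem_powersetCard.mpr ⟨he.trans hYW', her⟩)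
      unfold AbsN_x at hxe
      rw [if_pos he] at hxe
      omega
    · have := hz e (fun h => her h.2)
      omega
  have hval2 : ∀ e, ¬ e ⊆ Y → AbsN_v r A e = AbsN_v r B e ∧ AbsN_v r A e ≤ 1 := by
    intro e he
    have h2 := congrFun hd' e
    simp only [Pi.sub_apply] at h2
    have e1 : ind D1 e = 0 := by
      unfold ind
      rw [if_neg]
      intro h'
      exact he (mem_powersetCard.mp (h1 h')).1
    have e0 : ind D0 e = 0 := by
      unfold ind
      rw [if_neg]
      intro h'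
      exact he (mem_powersetCard.mp (h0 h')).1
    refine ⟨by omega, ?_⟩
    by_cases her : e ⊆ W' ∧ e.card = r
    · have hxe := hx e (mem_powersetCard.mpr her)
      unfold AbsN_x at hxe
      rw [if_neg he] at hxe
      omega
    · have := hz e her
      omega
  have hle : ∀ e, AbsN_v r A e ≤ 1 ∧ AbsN_v r B e ≤ 1 := by
    intro e
    by_cases he : e ⊆ Y
    · obtain ⟨h1, h2⟩ := hval1 e he
      rw [h1, h2]
      exact ⟨ind_le_one D0 e, ind_le_one D1 e⟩
    · obtain ⟨h1, h2⟩ := hval2 e he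
      rw [← h1]
      exact ⟨h2, h2⟩
  have hnd : ∀ M : Multiset (Finset ℕ), (∀ Q ∈ M, Q ⊆ W' ∧ Q.card = q) →
      (∀ e, AbsN_v r M e ≤ 1) → M.Nodup := by
    intro M hM hM1
    rw [Multiset.nodup_iff_le]
    intro Q hQ
    obtain ⟨t, rfl⟩ := Multiset.le_iff_exists_add.mp hQ
    have hQM : Q.card = q := (hM Q (by simp)).2
    obtain ⟨e, heQ, her⟩ := exists_subset_card_eq (s := Q) (n := r) (by omega)
    have h1 := hM1 e
    rw [map_add, AbsN_v_cons, AbsN_v_cons, map_zero] at h1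
    simp only [Pi.add_apply, Pi.zero_apply] at h1
    have h2 := AbsN_v_nonneg r t e
    have h3 : K r Q e = 1 := by rw [K_apply, if_pos ⟨heQ, her⟩]
    omega
  have hAn := hnd A hA (fun e => (hle e).1)
  have hBn := hnd B hB (fun e => (hle e).2)
  have hAv : vec r A.toFinset = AbsN_v r A := by
    rw [← AbsN_v_val, Multiset.toFinset_val, hAn.dedup]
  have hBv : vec r B.toFinset = AbsN_v r B := by
    rw [← AbsN_v_val, Multiset.toFinset_val, hBn.dedup]
  refine ⟨A.toFinset, B.toFinset, ?_, ?_, ?_⟩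
  · intro Q hQ
    rcases mem_union.mp hQ with h | h
    · exact (hA Q (Multiset.mem_toFinset.mp h)).2
    · exact (hB Q (Multiset.mem_toFinset.mp h)).2
  · intro e he
    rw [hAv, hBv]
    exact hval1 e he
  · intro e he
    rw [hAv, hBv]
    exact hval2 e he

end Pool.Agent.Kv
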