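import Pool.Agent.Designs.Defs

set_option autoImplicit false

/-!
# Module Asym: growth of `Lam`
-/

namespace Pool.Agent.Kv

theorem log_le_Lam (n : ℕ) : Real.log ((n : ℝ) + 1) ≤ (Lam n : ℝ) := by
  have h1 : n + 1 ≤ 2 ^ (Nat.log 2 n + 1) := Nat.lt_pow_succ_log_self (by norm_num) n
  have h2 : ((n : ℝ) + 1) ≤ 2 ^ (Nat.log 2 n + 1) := by exact_mod_cast h1
  have h3 : Real.log ((n : ℝ) + 1) ≤ Real.log (2 ^ (Nat.log 2 n + 1)) :=
    Real.log_le_log (by positivity) h2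
  rw [Real.log_pow] at h3
  have h4 : Real.log 2 ≤ 1 := by
    have := Real.log_two_lt_d9
    linarith
  have h5 : ((Nat.log 2 n + 1 : ℕ) : ℝ) * Real.log 2 ≤ ((Nat.log 2 n + 1 : ℕ) : ℝ) * 1 :=
    mul_le_mul_of_nonneg_left h4 (Nat.cast_nonneg _)
  have h6 : ((Nat.log 2 n + 1 : ℕ) : ℝ) ≤ (Lam n : ℝ) := by
    exact_mod_cast (by unfold Lam; omega : Nat.log 2 n + 1 ≤ Lam n)
  linarith

theorem one_le_Lam (n : ℕ) : (1 : ℝ) ≤ (Lam n : ℝ) := by
  have := Lam_pos n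
  exact_mod_cast (by omega : 1 ≤ Lam n)

/-- powers of `Lam` are smaller than any power of `n`. -/
theorem Lam_pow_le_rpow (C : ℕ) {c : ℝ} (hc : 0 < c) (A : ℝ) :
    ∃ n0 : ℕ, ∀ n ≥ n0, A * (Lam n : ℝ) ^ C ≤ (n : ℝ) ^ c := by
  have h1 := (isLittleO_log_rpow_rpow_atTop (C : ℝ) hc).comp_tendsto
    tendsto_natCast_atTop_atTop
  have h2 := h1.def (c := 1 / ((|A| + 1) * 4 ^ C)) (by positivity)
  have h3 : ∀ᶠ n : ℕ in Filter.atTop, A * (Lam n : ℝ) ^ C ≤ (n : ℝ) ^ c := by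
    filter_upwards [h2, Filter.eventually_ge_atTop 3] with n hn hn3
    have hn3' : (3 : ℝ) ≤ n := by exact_mod_cast hn3
    have hlog1 : 1 ≤ Real.log n := by
      rw [Real.le_log_iff_exp_le (by linarith)]
      have := Real.exp_one_lt_d9
      linarith
    have hL : (Lam n : ℝ) ≤ 4 * Real.log n := by
      have e1 : 2 ^ Nat.log 2 n ≤ n := Nat.pow_log_le_self 2 (by omega)
      have e2 : ((2 : ℝ) ^ Nat.log 2 n) ≤ n := by exact_mod_cast e1
      have e3 := Real.log_le_log (by positivity) e2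
      rw [Real.log_pow] at e3
      have e4 := Real.log_two_gt_d9
      have e5 : (Nat.log 2 n : ℝ) * (1 / 2) ≤ Nat.log 2 n * Real.log 2 :=
        mul_le_mul_of_nonneg_left (by linarith) (Nat.cast_nonneg _)
      have e6 : (Lam n : ℝ) = Nat.log 2 n + 2 := by unfold Lam; push_cast; ring
      rw [e6]
      linarith
    simp only [Function.comp, Real.rpow_natCast] at hn
    rw [Real.norm_of_nonneg (by positivity), Real.norm_of_nonneg (by positivity)] at hn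
    have hL0 : (0 : ℝ) ≤ Lam n := Nat.cast_nonneg _
    calc A * (Lam n : ℝ) ^ C ≤ (|A| + 1) * (Lam n : ℝ) ^ C :=
          mul_le_mul_of_nonneg_right (by linarith [le_abs_self A]) (by positivity)
      _ ≤ (|A| + 1) * (4 * Real.log n) ^ C :=
          mul_le_mul_of_nonneg_left (pow_le_pow_left₀ hL0 hL C) (by positivity)
      _ = ((|A| + 1) * 4 ^ C) * Real.log n ^ C := by rw [mul_pow]; ring
      _ ≤ ((|A| + 1) * 4 ^ C) * (1 / ((|A| + 1) * 4 ^ C) * (n : ℝ) ^ c) :=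
          mul_le_mul_of_nonneg_left hn (by positivity)
      _ = (n : ℝ) ^ c := by field_simp
  exact Filter.eventually_atTop.1 h3

theorem Lam_pow_le (C A : ℕ) : ∃ n0 : ℕ, ∀ n ≥ n0, A * Lam n ^ C ≤ n := by
  obtain ⟨n0, h⟩ := Lam_pow_le_rpow C one_pos (A : ℝ)
  refine ⟨n0, fun n hn => ?_⟩
  have h1 := h n hn
  rw [Real.rpow_one] at h1
  exact_mod_cast h1

theorem Lam_large (A : ℕ) : ∃ n0 : ℕ, ∀ n ≥ n0, A ≤ Lam n := by
  refine ⟨2 ^ A, fun n hn => ?_⟩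
  have h1 : A ≤ Nat.log 2 n := Nat.le_log_of_pow_le (by norm_num) hn
  unfold Lam
  omega

end Pool.Agent.Kv
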