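import Mathlib

set_option autoImplicit false

/-!
# Module Ch: the counting lemma for random vanishing coordinates (section 5 (5a))

`J` = all coordinates; a random subset `K` of `J` containing every element independently with
probability `p = 1 / M`.
-/

namespace Pool.Agent.Kv

open Finset

/-- expectation of `f` of a random subset of `J` with density `p` -/
noncomputable def chE {γ : Type*} [DecidableEq γ] (J : Finset γ) (p : ℝ) (f : Finset γ → ℝ) : ℝ :=
  ∑ K ∈ J.powerset, p ^ K.card * (1 - p) ^ (J \ K).card * f K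

section

variable {γ : Type*} [DecidableEq γ] {J : Finset γ} {p : ℝ}

lemma chE_mono (hp : 0 ≤ p) (hp1 : p ≤ 1) {f g : Finset γ → ℝ} (h : ∀ K, f K ≤ g K) :
    chE J p f ≤ chE J p g := by
  apply sum_le_sum
  intro K _
  apply mul_le_mul_of_nonneg_left (h K)
  have : 0 ≤ 1 - p := by linarith
  positivity

lemma chE_mul (c : ℝ) (f : Finset γ → ℝ) : chE J p (fun K => c * f K) = c * chE J p f := by
  unfold chE
  rw [mul_sum]
  apply sum_congr rfl
  intro K _
  ring

lemma chE_sum {κ : Type*} (T : Finset κ) (f : κ → Finset γ → ℝ) :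
    chE J p (fun K => ∑ t ∈ T, f t K) = ∑ t ∈ T, chE J p (f t) := by
  unfold chE
  rw [sum_comm]
  apply sum_congr rfl
  intro K _
  rw [mul_sum]

lemma chE_sub {P : Finset γ} (hP : P ⊆ J) :
    chE J p (fun K => if P ⊆ K then 1 else 0) = p ^ P.card := by
  have h1 := prod_add (fun _ : γ => p) (fun i => if i ∈ P then 0 else (1 - p)) J
  have h2 : ∏ i ∈ J, (p + (if i ∈ P then 0 else (1 - p))) = p ^ P.card := by
    have h3 : ∀ i ∈ J, (p + (if i ∈ P then 0 else (1 - p))) = if i ∈ P then p else 1 := by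
      intro i _
      split_ifs <;> ring
    rw [prod_congr rfl h3, prod_ite, prod_const, prod_const_one, mul_one]
    congr 2
    ext i
    simp only [mem_filter]
    exact ⟨fun h => h.2, fun h => ⟨hP h, h⟩⟩
  rw [← h2, h1]
  unfold chE
  apply sum_congr rfl
  intro K hK
  rw [prod_const, mul_assoc]
  congr 1
  beta_reduce
  by_cases h : P ⊆ K
  · rw [if_pos h, mul_one]
    have h4 : ∀ i ∈ J \ K, (if i ∈ P then (0 : ℝ) else (1 - p)) = 1 - p := by
      intro i hi
      rw [mem_sdiff] at hi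
      rw [if_neg (fun h' => hi.2 (h h'))]
    rw [prod_congr rfl h4, prod_const]
  · rw [if_neg h, mul_zero]
    rw [not_subset] at h
    obtain ⟨i, hi, hiK⟩ := h
    symm
    apply prod_eq_zero (i := i)
    · rw [mem_sdiff]; exact ⟨hP hi, hiK⟩
    · rw [if_pos hi]

lemma chE_one : chE J p (fun _ => 1) = 1 := by
  have h := chE_sub (J := J) (p := p) (empty_subset J)
  simpa using h

lemma chE_prod {X : Finset ℕ} {I : ℕ → Finset γ} {s : ℕ}
    (hdisj : ∀ x ∈ X, ∀ y ∈ X, x ≠ y → Disjoint (I x) (I y))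
    (hcard : ∀ x ∈ X, (I x).card = s) (hsub : ∀ x ∈ X, I x ⊆ J) (θ : ℝ) :
    chE J p (fun K => ∏ x ∈ X, (1 + θ * (if I x ⊆ K then 1 else 0))) =
      (1 + θ * p ^ s) ^ X.card := by
  have h1 : ∀ K : Finset γ, ∏ x ∈ X, (1 + θ * (if I x ⊆ K then (1 : ℝ) else 0)) =
      ∑ Y ∈ X.powerset, θ ^ Y.card * (if Y.biUnion I ⊆ K then 1 else 0) := by
    intro K
    rw [prod_one_add]
    apply sum_congr rfl
    intro Y _
    rw [prod_mul_distrib, prod_const]
    congr 1
    by_cases h : Y.biUnion I ⊆ K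
    · rw [if_pos h]
      apply prod_eq_one
      intro x hx
      rw [if_pos ((subset_biUnion_of_mem I hx).trans h)]
    · rw [if_neg h, biUnion_subset] at *
      push Not at h
      obtain ⟨x, hx, hxK⟩ := h
      exact prod_eq_zero hx (if_neg hxK)
  rw [show (fun K => ∏ x ∈ X, (1 + θ * (if I x ⊆ K then (1 : ℝ) else 0))) =
    fun K => ∑ Y ∈ X.powerset, θ ^ Y.card * (if Y.biUnion I ⊆ K then 1 else 0) from funext h1,
    chE_sum]
  have h2 : (1 + θ * p ^ s) ^ X.card = ∏ _x ∈ X, (1 + θ * p ^ s) := by rw [prod_const]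
  rw [h2, prod_one_add]
  apply sum_congr rfl
  intro Y hY
  rw [mem_powerset] at hY
  rw [chE_mul, chE_sub (biUnion_subset.2 fun x hx => hsub x (hY hx)), prod_const, mul_pow,
    ← pow_mul, card_biUnion (fun x hx y hy hxy => hdisj x (hY hx) y (hY hy) hxy),
    sum_congr rfl (fun x hx => hcard x (hY hx)), sum_const, smul_eq_mul, mul_comm s]

lemma ch_pow (X : Finset ℕ) (I : ℕ → Finset γ) (θ : ℝ) (K : Finset γ) :
    ∏ x ∈ X, (1 + θ * (if I x ⊆ K then (1 : ℝ) else 0)) =
      (1 + θ) ^ (X.filter (fun x => I x ⊆ K)).card := by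
  have h1 : ∀ x ∈ X, (1 + θ * (if I x ⊆ K then (1 : ℝ) else 0)) =
      if I x ⊆ K then 1 + θ else 1 := by
    intro x _
    split_ifs <;> ring
  rw [prod_congr rfl h1, prod_ite, prod_const, prod_const_one, mul_one]

/-- upper tail -/
lemma ch_upper {X : Finset ℕ} {I : ℕ → Finset γ} {s : ℕ} (hp : 0 < p) (hp1 : p ≤ 1)
    (hdisj : ∀ x ∈ X, ∀ y ∈ X, x ≠ y → Disjoint (I x) (I y))
    (hcard : ∀ x ∈ X, (I x).card = s) (hsub : ∀ x ∈ X, I x ⊆ J) :
    chE J p (fun K => if 3 * ((X.card : ℝ) * p ^ s) < ((X.filter (fun x => I x ⊆ K)).card : ℝ)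
      then 1 else 0) ≤ Real.exp (-((X.card : ℝ) * p ^ s / 8)) := by
  set μ : ℝ := (X.card : ℝ) * p ^ s with hμ
  have hμ0 : 0 ≤ μ := by positivity
  have h1 := chE_prod (p := p) hdisj hcard hsub 1
  have h2 : chE J p (fun K => if 3 * μ < ((X.filter (fun x => I x ⊆ K)).card : ℝ) then 1 else 0) ≤
      chE J p (fun K => Real.exp (-(3 * μ * Real.log 2)) *
        ∏ x ∈ X, (1 + 1 * (if I x ⊆ K then (1 : ℝ) else 0))) := by
    apply chE_mono hp.le hp1
    intro K
    rw [ch_pow]
    split_ifs with h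
    · have h3 : (1 + 1 : ℝ) ^ (X.filter (fun x => I x ⊆ K)).card =
          Real.exp (((X.filter (fun x => I x ⊆ K)).card : ℝ) * Real.log 2) := by
        rw [mul_comm, Real.exp_mul, Real.exp_log (by norm_num), Real.rpow_natCast]
        norm_num
      rw [h3, ← Real.exp_add]
      apply Real.one_le_exp
      have : 0 < Real.log 2 := Real.log_pos (by norm_num)
      nlinarith
    · positivity
  refine h2.trans ?_
  rw [chE_mul, h1, one_mul]
  have h4 : (1 + p ^ s) ^ X.card ≤ Real.exp μ := by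
    calc (1 + p ^ s) ^ X.card ≤ (Real.exp (p ^ s)) ^ X.card := by
          apply pow_le_pow_left₀ (by positivity)
          linarith [Real.add_one_le_exp (p ^ s)]
      _ = Real.exp μ := by rw [← Real.exp_nat_mul]
  calc Real.exp (-(3 * μ * Real.log 2)) * (1 + p ^ s) ^ X.card
      ≤ Real.exp (-(3 * μ * Real.log 2)) * Real.exp μ :=
        mul_le_mul_of_nonneg_left h4 (Real.exp_pos _).le
    _ = Real.exp (-(3 * μ * Real.log 2) + μ) := by rw [Real.exp_add]
    _ ≤ Real.exp (-(μ / 8)) := by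
        apply Real.exp_le_exp.2
        have := Real.log_two_gt_d9
        nlinarith

/-- lower tail -/
lemma ch_lower {X : Finset ℕ} {I : ℕ → Finset γ} {s : ℕ} (hp : 0 < p) (hp1 : p ≤ 1)
    (hdisj : ∀ x ∈ X, ∀ y ∈ X, x ≠ y → Disjoint (I x) (I y))
    (hcard : ∀ x ∈ X, (I x).card = s) (hsub : ∀ x ∈ X, I x ⊆ J) :
    chE J p (fun K => if 2 * ((X.filter (fun x => I x ⊆ K)).card : ℝ) < (X.card : ℝ) * p ^ s
      then 1 else 0) ≤ Real.exp (-((X.card : ℝ) * p ^ s / 8)) := by
  set μ : ℝ := (X.card : ℝ) * p ^ s with hμ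
  have hμ0 : 0 ≤ μ := by positivity
  have h1 := chE_prod (p := p) hdisj hcard hsub (-1 / 2)
  have h2 : chE J p (fun K => if 2 * ((X.filter (fun x => I x ⊆ K)).card : ℝ) < μ then 1 else 0) ≤
      chE J p (fun K => Real.exp (μ / 2 * Real.log 2) *
        ∏ x ∈ X, (1 + (-1 / 2) * (if I x ⊆ K then (1 : ℝ) else 0))) := by
    apply chE_mono hp.le hp1
    intro K
    rw [ch_pow]
    split_ifs with h
    · have h3 : (1 + -1 / 2 : ℝ) ^ (X.filter (fun x => I x ⊆ K)).card =
          Real.exp (-(((X.filter (fun x => I x ⊆ K)).card : ℝ) * Real.log 2)) := by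
        rw [Real.exp_neg, mul_comm, Real.exp_mul, Real.exp_log (by norm_num), Real.rpow_natCast,
          ← inv_pow]
        norm_num
      rw [h3, ← Real.exp_add]
      apply Real.one_le_exp
      have : 0 < Real.log 2 := Real.log_pos (by norm_num)
      nlinarith
    · have : (0 : ℝ) ≤ 1 + -1 / 2 := by norm_num
      positivity
  refine h2.trans ?_
  rw [chE_mul, h1]
  have hps : p ^ s ≤ 1 := pow_le_one₀ hp.le hp1
  have h4 : (1 + -1 / 2 * p ^ s) ^ X.card ≤ Real.exp (-(μ / 2)) := by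
    calc (1 + -1 / 2 * p ^ s) ^ X.card ≤ (Real.exp (-1 / 2 * p ^ s)) ^ X.card := by
          apply pow_le_pow_left₀
          · linarith
          · linarith [Real.add_one_le_exp (-1 / 2 * p ^ s)]
      _ = Real.exp (-(μ / 2)) := by
          rw [← Real.exp_nat_mul, hμ]
          congr 1
          ring
  calc Real.exp (μ / 2 * Real.log 2) * (1 + -1 / 2 * p ^ s) ^ X.card
      ≤ Real.exp (μ / 2 * Real.log 2) * Real.exp (-(μ / 2)) :=
        mul_le_mul_of_nonneg_left h4 (Real.exp_pos _).le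
    _ = Real.exp (μ / 2 * Real.log 2 + -(μ / 2)) := by rw [Real.exp_add]
    _ ≤ Real.exp (-(μ / 8)) := by
        apply Real.exp_le_exp.2
        have := Real.log_two_lt_d9
        nlinarith

end

theorem ch {γ τ : Type*} [DecidableEq γ] {M : ℕ} (hM : 1 ≤ M) (Ts : Finset τ)
    (X : τ → Finset ℕ) (I : τ → ℕ → Finset γ) (s : τ → ℕ)
    (hdisj : ∀ t ∈ Ts, ∀ x ∈ X t, ∀ y ∈ X t, x ≠ y → Disjoint (I t x) (I t y))
    (hcard : ∀ t ∈ Ts, ∀ x ∈ X t, (I t x).card = s t)
    (hbig : ∀ t ∈ Ts, 8 * (M : ℝ) ^ (s t) * Real.log (2 * (Ts.card : ℝ)) < ((X t).card : ℝ)) :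
    ∃ Kv : Finset γ, ∀ t ∈ Ts,
      (X t).card ≤ 2 * ((X t).filter (fun x => I t x ⊆ Kv)).card * M ^ (s t) ∧
      ((X t).filter (fun x => I t x ⊆ Kv)).card * M ^ (s t) ≤ 3 * (X t).card := by
  classical
  rcases Ts.eq_empty_or_nonempty with hTs | hTs
  · exact ⟨∅, fun t ht => by rw [hTs] at ht; simp at ht⟩
  set J : Finset γ := Ts.biUnion fun t => (X t).biUnion (I t) with hJ
  have hsub : ∀ t ∈ Ts, ∀ x ∈ X t, I t x ⊆ J := fun t ht x hx =>
    (subset_biUnion_of_mem (I t) hx).trans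
      (subset_biUnion_of_mem (fun t => (X t).biUnion (I t)) ht)
  have hM0 : (0 : ℝ) < M := by exact_mod_cast hM
  have hM1 : (1 : ℝ) ≤ M := by exact_mod_cast hM
  set p : ℝ := 1 / M with hp
  have hp0 : 0 < p := by positivity
  have hp1 : p ≤ 1 := by rw [hp, div_le_one hM0]; exact hM1
  have hpM : ∀ n : ℕ, p ^ n * (M : ℝ) ^ n = 1 := by
    intro n
    rw [← mul_pow, hp, one_div, inv_mul_cancel₀ hM0.ne', one_pow]
  by_contra hcon
  push Not at hcon
  have hTc : (0 : ℝ) < Ts.card := by exact_mod_cast hTs.card_pos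
  have hlt : ∀ t ∈ Ts, Real.exp (-(((X t).card : ℝ) * p ^ (s t) / 8)) < 1 / (2 * Ts.card) := by
    intro t ht
    have h1 := hbig t ht
    have h2 : Real.log (2 * (Ts.card : ℝ)) < ((X t).card : ℝ) * p ^ (s t) / 8 := by
      have h3 : 0 < p ^ (s t) := by positivity
      have h4 := mul_lt_mul_of_pos_right h1 h3
      have h5 : 8 * (M : ℝ) ^ s t * Real.log (2 * (Ts.card : ℝ)) * p ^ s t =
          8 * Real.log (2 * (Ts.card : ℝ)) * (p ^ s t * (M : ℝ) ^ s t) := by ring
      rw [h5, hpM, mul_one] at h4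
      linarith
    rw [Real.exp_neg, one_div]
    apply inv_strictAnti₀ (by positivity)
    calc 2 * (Ts.card : ℝ) = Real.exp (Real.log (2 * (Ts.card : ℝ))) :=
          (Real.exp_log (by positivity)).symm
      _ < _ := Real.exp_lt_exp.2 h2
  have hone := chE_one (J := J) (p := p)
  have hle : chE J p (fun _ => 1) ≤ chE J p (fun K => ∑ t ∈ Ts,
      ((if 3 * (((X t).card : ℝ) * p ^ (s t)) < (((X t).filter (fun x => I t x ⊆ K)).card : ℝ)
        then 1 else 0) +
      (if 2 * (((X t).filter (fun x => I t x ⊆ K)).card : ℝ) < ((X t).card : ℝ) * p ^ (s t)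
        then 1 else 0))) := by
    apply chE_mono hp0.le hp1
    intro K
    obtain ⟨t, ht, h⟩ := hcon K
    have hnn : ∀ t' ∈ Ts, (0 : ℝ) ≤
      ((if 3 * (((X t').card : ℝ) * p ^ (s t')) < (((X t').filter (fun x => I t' x ⊆ K)).card : ℝ)
        then 1 else 0) +
      (if 2 * (((X t').filter (fun x => I t' x ⊆ K)).card : ℝ) < ((X t').card : ℝ) * p ^ (s t')
        then 1 else 0)) := by
      intro t' _
      split_ifs <;> norm_num
    refine le_trans ?_ (single_le_sum hnn ht)
    by_cases h3 : 2 * (((X t).filter (fun x => I t x ⊆ K)).card : ℝ) <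
        ((X t).card : ℝ) * p ^ (s t)
    · rw [if_pos h3]
      split_ifs <;> norm_num
    · rw [not_lt] at h3
      have h4 : (X t).card ≤ 2 * ((X t).filter (fun x => I t x ⊆ K)).card * M ^ (s t) := by
        have h5 : (0 : ℝ) < (M : ℝ) ^ s t := by positivity
        have h6 := mul_le_mul_of_nonneg_right h3 h5.le
        rw [mul_assoc, hpM, mul_one] at h6
        exact_mod_cast h6
      have h7 := h h4
      have h8 : 3 * (((X t).card : ℝ) * p ^ (s t)) <
          (((X t).filter (fun x => I t x ⊆ K)).card : ℝ) := by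
        have h9 : (3 : ℝ) * ((X t).card : ℝ) <
            (((X t).filter (fun x => I t x ⊆ K)).card : ℝ) * (M : ℝ) ^ s t := by
          exact_mod_cast h7
        have h10 : 0 < p ^ (s t) := by positivity
        have h11 := mul_lt_mul_of_pos_right h9 h10
        rw [mul_assoc, mul_assoc _ _ (p ^ s t), mul_comm ((M : ℝ) ^ s t), hpM, mul_one] at h11
        exact h11
      rw [if_pos h8]
      split_ifs <;> norm_num
  rw [hone, chE_sum] at hle
  have hadd : ∀ t ∈ Ts, chE J p (fun K =>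
      ((if 3 * (((X t).card : ℝ) * p ^ (s t)) < (((X t).filter (fun x => I t x ⊆ K)).card : ℝ)
        then (1 : ℝ) else 0) +
      (if 2 * (((X t).filter (fun x => I t x ⊆ K)).card : ℝ) < ((X t).card : ℝ) * p ^ (s t)
        then (1 : ℝ) else 0))) < 1 / Ts.card := by
    intro t ht
    have h1 := ch_upper (J := J) hp0 hp1 (hdisj t ht) (hcard t ht) (hsub t ht)
    have h2 := ch_lower (J := J) hp0 hp1 (hdisj t ht) (hcard t ht) (hsub t ht)
    have h3 := hlt t ht
    have h4 : chE J p (fun K =>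
      ((if 3 * (((X t).card : ℝ) * p ^ (s t)) < (((X t).filter (fun x => I t x ⊆ K)).card : ℝ)
        then (1 : ℝ) else 0) +
      (if 2 * (((X t).filter (fun x => I t x ⊆ K)).card : ℝ) < ((X t).card : ℝ) * p ^ (s t)
        then (1 : ℝ) else 0))) = chE J p (fun K =>
      (if 3 * (((X t).card : ℝ) * p ^ (s t)) < (((X t).filter (fun x => I t x ⊆ K)).card : ℝ)
        then (1 : ℝ) else 0)) + chE J p (fun K =>
      (if 2 * (((X t).filter (fun x => I t x ⊆ K)).card : ℝ) < ((X t).card : ℝ) * p ^ (s t)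
        then (1 : ℝ) else 0)) := by
      unfold chE
      rw [← sum_add_distrib]
      apply sum_congr rfl
      intro K _
      ring
    rw [h4]
    have h5 : (1 : ℝ) / Ts.card = 1 / (2 * Ts.card) + 1 / (2 * Ts.card) := by
      field_simp
      norm_num
    rw [h5]
    linarith
  have hfin := sum_lt_sum_of_nonempty hTs hadd
  rw [sum_const, nsmul_eq_mul, mul_one_div_cancel hTc.ne'] at hfin
  linarith

end Pool.Agent.Kv
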