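import Pool.Agent.Designs.Defs

set_option autoImplicit false

/-!
Merging families whose total covering is at most one.
-/

namespace Pool.Agent.Kv

open Finset

lemma K_nonneg (r : ℕ) (Q e : Finset ℕ) : 0 ≤ K r Q e := by
  unfold K; split_ifs <;> norm_num

lemma vec_nonneg (r : ℕ) (A : Finset (Finset ℕ)) (e : Finset ℕ) : 0 ≤ vec r A e := by
  rw [vec_apply]; exact sum_nonneg (fun Q _ => K_nonneg r Q e)

lemma ind_nonneg (X : Finset (Finset ℕ)) (e : Finset ℕ) : 0 ≤ ind X e := by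
  unfold ind; split_ifs <;> norm_num

lemma ind_le_one (X : Finset (Finset ℕ)) (e : Finset ℕ) : ind X e ≤ 1 := by
  unfold ind; split_ifs <;> norm_num

lemma one_le_vec {r : ℕ} {A : Finset (Finset ℕ)} {Q e : Finset ℕ} (hQ : Q ∈ A) (he : e ⊆ Q)
    (her : e.card = r) : 1 ≤ vec r A e := by
  rw [vec_apply]
  have h1 : K r Q e = 1 := by simp [K, he, her]
  calc (1 : ℤ) = K r Q e := h1.symm
    _ ≤ ∑ Q ∈ A, K r Q e := single_le_sum (fun Q _ => K_nonneg r Q e) hQ

lemma vec_union {r : ℕ} {A B : Finset (Finset ℕ)} (h : Disjoint A B) :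
    vec r (A ∪ B) = vec r A + vec r B := by
  unfold vec; exact sum_union h

lemma ind_union {A B : Finset (Finset ℕ)} (h : Disjoint A B) :
    ind (A ∪ B) = ind A + ind B := by
  funext e
  simp only [ind, mem_union, Pi.add_apply]
  by_cases h1 : e ∈ A
  · have : e ∉ B := fun h2 => (disjoint_left.mp h) h1 h2
    simp [h1, this]
  · by_cases h2 : e ∈ B <;> simp [h1, h2]

/-- merging families. -/
theorem vec_biUnion {ι : Type*} [DecidableEq ι] {q r : ℕ} (hrq : r ≤ q) (I : Finset ι)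
    (A : ι → Finset (Finset ℕ)) (hq : ∀ i ∈ I, ∀ Q ∈ A i, Q.card = q)
    (h : ∀ e, ∑ i ∈ I, vec r (A i) e ≤ 1) :
    vec r (I.biUnion A) = ∑ i ∈ I, vec r (A i) := by
  unfold vec
  apply sum_biUnion
  intro i hi j hj hij
  rw [Function.onFun, disjoint_left]
  intro Q hQi hQj
  obtain ⟨e, heQ, her⟩ := exists_subset_card_eq (s := Q) (n := r) (by rw [hq i hi Q hQi]; exact hrq)
  have h1 := one_le_vec hQi heQ her
  have h2 := one_le_vec hQj heQ her
  have h3 : vec r (A i) e + vec r (A j) e ≤ ∑ i ∈ I, vec r (A i) e := by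
    have : ({i, j} : Finset ι) ⊆ I := by
      intro x hx
      rcases mem_insert.mp hx with rfl | hx
      · exact hi
      · rw [mem_singleton.mp hx]; exact hj
    calc vec r (A i) e + vec r (A j) e = ∑ x ∈ ({i, j} : Finset ι), vec r (A x) e := by
          rw [sum_pair hij]
      _ ≤ _ := sum_le_sum_of_subset_of_nonneg this (fun x _ _ => vec_nonneg r (A x) e)
  have := h e
  omega

/-- a partial design covers the sets of `Ed r P` exactly once. -/
theorem vec_eq_ind_Ed {r q n : ℕ} {P : Finset (Finset ℕ)} (hP : IsPartial r q n P) :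
    vec r P = ind (Ed r P) := by
  funext e
  rw [vec_apply]
  by_cases he : e ∈ Ed r P
  · obtain ⟨Q, hQ, heQ⟩ := mem_biUnion.mp he
    have heQ' := mem_powersetCard.mp heQ
    rw [sum_eq_single Q]
    · simp [K, ind, he, heQ'.1, heQ'.2]
    · intro Q' hQ' hne
      have := hP.2 Q hQ Q' hQ' (Ne.symm hne)
      unfold K
      rw [if_neg]
      rintro ⟨h1, h2⟩
      have h3 : e ⊆ Q ∩ Q' := subset_inter heQ'.1 h1
      have := card_le_card h3
      omega
    · intro h; exact absurd hQ h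
  · have h0 : ∀ Q ∈ P, K r Q e = 0 := by
      intro Q hQ
      unfold K
      rw [if_neg]
      rintro ⟨h1, h2⟩
      exact he (mem_biUnion.mpr ⟨Q, hQ, mem_powersetCard.mpr ⟨h1, h2⟩⟩)
    rw [sum_eq_zero h0]
    simp [ind, he]

/-- a family of `q`-subsets of `range n` covering every `r`-set exactly once is a design. -/
theorem isDesign_of_vec {r q n : ℕ} {P : Finset (Finset ℕ)}
    (hP : ∀ Q ∈ P, Q ⊆ range n ∧ Q.card = q)
    (h : vec r P = ind (powersetCard r (range n))) : IsDesign r q n P := by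
  refine ⟨hP, fun e he her => ?_⟩
  have h1 : vec r P e = 1 := by rw [h]; simp [ind, mem_powersetCard, he, her]
  rw [vec_apply] at h1
  have hex : ∃ Q ∈ P, e ⊆ Q := by
    by_contra hno
    push Not at hno
    have : ∑ Q ∈ P, K r Q e = 0 := sum_eq_zero (fun Q hQ => by
      unfold K; rw [if_neg]; rintro ⟨h1, _⟩; exact hno Q hQ h1)
    omega
  obtain ⟨Q, hQ, heQ⟩ := hex
  refine ⟨Q, ⟨hQ, heQ⟩, ?_⟩
  rintro Q' ⟨hQ', heQ'⟩
  by_contra hne
  have h2 : ({Q, Q'} : Finset (Finset ℕ)) ⊆ P := by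
    intro x hx
    rcases mem_insert.mp hx with rfl | hx
    · exact hQ
    · rw [mem_singleton.mp hx]; exact hQ'
  have h3 : ∑ x ∈ ({Q, Q'} : Finset (Finset ℕ)), K r x e ≤ ∑ x ∈ P, K r x e :=
    sum_le_sum_of_subset_of_nonneg h2 (fun x _ _ => K_nonneg r x e)
  rw [sum_pair (Ne.symm hne)] at h3
  have h4 : K r Q e = 1 := by simp [K, heQ, her]
  have h5 : K r Q' e = 1 := by simp [K, heQ', her]
  omega

end Pool.Agent.Kv
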