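import Pool.Agent.Designs.Emb
import Pool.Agent.Designs.Vec
import Pool.Agent.Designs.Asym

set_option autoImplicit false

/-!
# Module Cover: covering the leftover with the reserve
-/

namespace Pool.Agent.Kv

open Finset

/-- degrees of a family of `r`-sets from the degrees of the `(r-1)`-sets -/
lemma cover_deg {r n : ℕ} (hr : 1 ≤ r) {L0 : Finset (Finset ℕ)} {b : ℝ} (hb : 0 ≤ b)
    (hL : L0 ⊆ powersetCard r (range n)) (hd : DegLe (r - 1) L0 b) (h : Finset ℕ)
    (hh : h.card < r) :
    ((L0.filter (fun t => h ⊆ t)).card : ℝ) ≤ b * (n : ℝ) ^ (r - 1 - h.card) := by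
  classical
  set m := r - 1 - h.card with hm
  -- the `(r-1)`-sets are `h ∪ s`, `s` an `m`-subset of `range n`
  have h1 : L0.filter (fun t => h ⊆ t) ⊆ (powersetCard m (range n)).biUnion
      (fun s => if (h ∪ s).card = r - 1 then L0.filter (fun t => h ∪ s ⊆ t) else ∅) := by
    intro t ht
    obtain ⟨ht1, ht2⟩ := mem_filter.mp ht
    obtain ⟨ht3, ht4⟩ := mem_powersetCard.mp (hL ht1)
    have hc : (t \ h).card = r - h.card := by rw [card_sdiff_of_subset ht2, ht4]
    obtain ⟨s, hs, hsc⟩ := exists_subset_card_eq (s := t \ h) (n := m) (by omega)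
    have hst : s ⊆ t := hs.trans sdiff_subset
    have hdis : Disjoint h s := (disjoint_sdiff).mono_right hs
    rw [mem_biUnion]
    refine ⟨s, mem_powersetCard.mpr ⟨hst.trans ht3, hsc⟩, ?_⟩
    rw [if_pos (by rw [card_union_of_disjoint hdis, hsc]; omega)]
    exact mem_filter.mpr ⟨ht1, union_subset ht2 hst⟩
  have h2 : ((L0.filter (fun t => h ⊆ t)).card : ℝ) ≤ ∑ s ∈ powersetCard m (range n), b := by
    calc ((L0.filter (fun t => h ⊆ t)).card : ℝ)
        ≤ (((powersetCard m (range n)).biUnion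
          (fun s => if (h ∪ s).card = r - 1 then L0.filter (fun t => h ∪ s ⊆ t) else ∅)).card : ℝ) := by
          exact_mod_cast card_le_card h1
      _ ≤ ((∑ s ∈ powersetCard m (range n),
          (if (h ∪ s).card = r - 1 then L0.filter (fun t => h ∪ s ⊆ t) else ∅).card : ℕ) : ℝ) := by
          exact_mod_cast card_biUnion_le
      _ = ∑ s ∈ powersetCard m (range n),
          (((if (h ∪ s).card = r - 1 then L0.filter (fun t => h ∪ s ⊆ t) else ∅).card : ℕ) : ℝ) := by
          push_cast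
          rfl
      _ ≤ _ := by
          refine sum_le_sum fun s _ => ?_
          split_ifs with h3
          · exact hd _ h3
          · simpa using hb
  refine h2.trans ?_
  rw [sum_const, card_powersetCard, card_range, nsmul_eq_mul, mul_comm]
  refine mul_le_mul_of_nonneg_left ?_ hb
  have := Nat.choose_le_pow n m
  exact_mod_cast this

lemma cover_K {r : ℕ} {e Z : Finset ℕ} (he : e.card = r) (hd : Disjoint e Z) :
    K r (e ∪ Z) = ind {e} + ind (claim r e Z) := by
  funext f
  rw [K_apply, Pi.add_apply]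
  unfold ind
  by_cases h1 : f = e
  · subst h1
    have h2 : f ∉ claim r f Z := fun h => (mem_claim.mp h).2.2 hd
    rw [if_pos ⟨subset_union_left, he⟩, if_pos (mem_singleton_self _), if_neg h2, add_zero]
  · have h0 : f ∉ ({e} : Finset (Finset ℕ)) := fun h => h1 (mem_singleton.mp h)
    rw [if_neg h0, zero_add]
    by_cases h2 : f ∈ claim r e Z
    · rw [if_pos h2, if_pos ⟨(mem_claim.mp h2).1, (mem_claim.mp h2).2.1⟩]
    · rw [if_neg h2, if_neg]
      rintro ⟨h3, h4⟩
      apply h2
      rw [mem_claim]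
      refine ⟨h3, h4, fun h5 => h1 ?_⟩
      have h6 : f ⊆ e := by
        intro x hx
        rcases mem_union.mp (h3 hx) with h | h
        · exact h
        · exact absurd h ((disjoint_left.mp h5) hx)
      exact eq_of_subset_of_card_le h6 (by omega)

/-- sums of indicators of pairwise disjoint sets -/
lemma cover_sum_ind {ι : Type*} [DecidableEq ι] (I : Finset ι) (A : ι → Finset (Finset ℕ))
    (h : ∀ i ∈ I, ∀ j ∈ I, i ≠ j → Disjoint (A i) (A j)) :
    ∑ i ∈ I, ind (A i) = ind (I.biUnion A) := by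
  classical
  induction I using Finset.induction_on with
  | empty =>
    funext e
    simp [ind]
  | insert a s ha ih =>
    rw [sum_insert ha, biUnion_insert, ind_union, ih]
    · exact fun i hi j hj hij => h i (mem_insert_of_mem hi) j (mem_insert_of_mem hj) hij
    · rw [disjoint_biUnion_right]
      intro i hi
      exact h a (mem_insert_self _ _) i (mem_insert_of_mem hi) (fun hai => ha (hai ▸ hi))

theorem cover {q r : ℕ} (hr : 1 ≤ r) (hrq : r < q) (C1 : ℕ) : ∃ B : ℕ, ∀ ε : ℝ, 0 < ε →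
    ∃ n0 : ℕ, ∀ n ≥ n0, ∀ (T : Finset (Finset ℕ)) (H : Finset ℕ → Finset ℕ)
      (E L0 : Finset (Finset ℕ)),
      (∀ e ∈ powersetCard r (range n), H e ⊆ range n \ e ∧ n ≤ Lam n ^ C1 * (H e).card ∧
        ∀ e' S' : Finset ℕ, e' ⊂ e → S' ⊆ H e → e'.card + S'.card = r → e' ∪ S' ∈ T) →
      E ⊆ powersetCard r (range n) → DegLe (r - 1) E ((n : ℝ) ^ (1 - ε)) →
      L0 ⊆ powersetCard r (range n) → Disjoint L0 T → DegLe (r - 1) L0 ((n : ℝ) / (Lam n : ℝ) ^ B) →
      ∃ Cv T' : Finset (Finset ℕ), (∀ Q ∈ Cv, Q ⊆ range n ∧ Q.card = q) ∧ T' ⊆ T \ E ∧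
        vec r Cv = ind L0 + ind T' := by
  classical
  obtain ⟨Kc, hKc, hemb⟩ := emb r (q - r) r 0 hr (by omega)
  refine ⟨C1 * (2 * r) + 1, fun ε hε => ?_⟩
  set B := C1 * (2 * r) + 1 with hB
  obtain ⟨n1, hn1⟩ := Lam_large ⌈Kc⌉₊
  obtain ⟨n2, hn2⟩ := Lam_pow_le_rpow (B + 1) one_pos Kc
  obtain ⟨n3, hn3⟩ := Lam_pow_le_rpow B hε 1
  refine ⟨max 1 (max n1 (max n2 n3)), fun n hn T H E L0 hH hE hEd hL hLT hLd => ?_⟩
  simp only [ge_iff_le, max_le_iff] at hn
  obtain ⟨hn0, hna, hnb, hnc⟩ := hn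
  have h1 := hn1 n hna
  have h2 := hn2 n hnb
  have h3 := hn3 n hnc
  rw [Real.rpow_one] at h2
  rw [one_mul] at h3
  have hLam : (1 : ℝ) ≤ (Lam n : ℝ) := one_le_Lam n
  have hLam0 : (0 : ℝ) < (Lam n : ℝ) := by linarith
  have hn' : (0 : ℝ) < (n : ℝ) := by exact_mod_cast hn0
  have hKL : Kc ≤ (Lam n : ℝ) := (Nat.le_ceil Kc).trans (by exact_mod_cast h1)
  set ε' : ℝ := 1 / (Lam n : ℝ) ^ B with hε'
  have hε'0 : 0 < ε' := by positivity
  have hLd' : DegLe (r - 1) L0 (ε' * n) := by
    intro S hS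
    refine (hLd S hS).trans (le_of_eq ?_)
    rw [hε']
    ring
  obtain ⟨Z, hZ1, hZ2, hZ3, -, -⟩ := hemb n (Finset ℕ) (Finset ℕ) L0 (fun e => e) H ∅ id id E
    ((Lam n : ℝ) ^ C1) ε' (one_le_pow₀ hLam) hε'0
    (by
      rw [hε', hB, ← pow_mul, pow_succ]
      rw [mul_one_div, div_le_one (by positivity), mul_comm]
      exact mul_le_mul_of_nonneg_left hKL (by positivity))
    (by
      have h4 := log_le_Lam n
      have h5 : Kc * Real.log ((n : ℝ) + 1) ≤ Kc * Lam n :=
        mul_le_mul_of_nonneg_left h4 (by linarith)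
      refine h5.trans ?_
      rw [hε', one_div, inv_mul_eq_div, le_div_iff₀ (by positivity)]
      calc Kc * (Lam n : ℝ) * (Lam n : ℝ) ^ B = Kc * (Lam n : ℝ) ^ (B + 1) := by ring
        _ ≤ n := h2)
    (by
      intro t ht
      obtain ⟨h4, h5⟩ := mem_powersetCard.mp (hL ht)
      obtain ⟨h6, h7, -⟩ := hH t (hL ht)
      refine ⟨h4, h5.le, h6.trans sdiff_subset, ?_, ?_⟩
      · exact (disjoint_sdiff_self_left).mono_left h6
      · exact_mod_cast h7)
    (by intro μ hμ; simp at hμ)
    (by intro t _; simp)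
    hE
    (by
      intro S hS
      refine (hEd S hS).trans ?_
      rw [Real.rpow_sub hn', Real.rpow_one, hε', one_div, inv_mul_eq_div]
      exact div_le_div_of_nonneg_left hn'.le (by positivity) h3)
    (by
      intro h hh
      refine (cover_deg hr (by positivity) hL hLd' h hh).trans (le_of_eq ?_)
      have h4 : r - h.card = (r - 1 - h.card) + 1 := by omega
      rw [h4, pow_succ]
      ring)
    (by
      intro h _
      simp only [filter_empty, card_empty, Nat.cast_zero]
      positivity)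
  have hdis : ∀ e ∈ L0, Disjoint e (Z e) := by
    intro e he
    have h4 := (hH e (hL he)).1
    exact ((disjoint_sdiff_self_left).mono_left ((hZ1 e he).1.trans h4)).symm
  set T' : Finset (Finset ℕ) := L0.biUnion (fun e => claim r e (Z e)) with hT'
  have hT'T : T' ⊆ T \ E := by
    intro f hf
    obtain ⟨e, he, hfe⟩ := mem_biUnion.mp hf
    rw [mem_sdiff]
    refine ⟨?_, fun hfE => (disjoint_left.mp (hZ2 e he)) hfe hfE⟩
    obtain ⟨h4, h5, h6⟩ := mem_claim.mp hfe
    have h7 : (f ∩ e) ∪ (f ∩ Z e) = f := by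
      rw [← inter_union_distrib_left]
      exact inter_eq_left.mpr h4
    have h8 : Disjoint (f ∩ e) (f ∩ Z e) :=
      (hdis e he).mono inter_subset_right inter_subset_right
    have h9 : (f ∩ e).card + (f ∩ Z e).card = r := by
      rw [← card_union_of_disjoint h8, h7, h5]
    have h10 : 0 < (f ∩ Z e).card := by
      rw [card_pos, nonempty_iff_ne_empty]
      intro h
      exact h6 (disjoint_iff_inter_eq_empty.mpr h)
    have h11 : f ∩ e ⊂ e := by
      refine ⟨inter_subset_right, fun h => ?_⟩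
      have h12 := card_le_card h
      have h13 := (mem_powersetCard.mp (hL he)).2
      omega
    have h14 := (hH e (hL he)).2.2 (f ∩ e) (f ∩ Z e) h11
      (inter_subset_right.trans (hZ1 e he).1) h9
    rwa [h7] at h14
  refine ⟨L0.biUnion (fun e => {e ∪ Z e}), T', ?_, hT'T, ?_⟩
  · intro Q hQ
    obtain ⟨e, he, hQe⟩ := mem_biUnion.mp hQ
    rw [mem_singleton.mp hQe]
    obtain ⟨h4, h5⟩ := mem_powersetCard.mp (hL he)
    refine ⟨union_subset h4 (((hZ1 e he).1.trans (hH e (hL he)).1).trans sdiff_subset), ?_⟩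
    rw [card_union_of_disjoint (hdis e he), h5, (hZ1 e he).2]
    omega
  · have hsum : ∑ e ∈ L0, vec r {e ∪ Z e} = ind L0 + ind T' := by
      have h4 : ∀ e ∈ L0, vec r {e ∪ Z e} = ind {e} + ind (claim r e (Z e)) := by
        intro e he
        unfold vec
        rw [sum_singleton]
        exact cover_K (mem_powersetCard.mp (hL he)).2 (hdis e he)
      rw [sum_congr rfl h4, sum_add_distrib]
      congr 1
      · rw [cover_sum_ind]
        · congr 1
          rw [biUnion_singleton_eq_self]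
        · intro i _ j _ hij
          exact disjoint_singleton.mpr hij
      · exact cover_sum_ind L0 _ hZ3
    rw [vec_biUnion hrq.le L0 (fun e => {e ∪ Z e}), hsum]
    · intro e he Q hQ
      rw [mem_singleton.mp hQ, card_union_of_disjoint (hdis e he),
        (mem_powersetCard.mp (hL he)).2, (hZ1 e he).2]
      omega
    · intro f
      have h5 : ∑ e ∈ L0, vec r {e ∪ Z e} f = (∑ e ∈ L0, vec r {e ∪ Z e}) f := by
        rw [Finset.sum_apply]
      rw [h5, hsum, Pi.add_apply]
      unfold ind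
      by_cases h6 : f ∈ L0
      · have h7 : f ∉ T' := fun h => (disjoint_left.mp hLT) h6 (mem_sdiff.mp (hT'T h)).1
        rw [if_pos h6, if_neg h7]
        norm_num
      · rw [if_neg h6]
        split_ifs <;> norm_num

end Pool.Agent.Kv
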