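import Pool.Agent.Designs.Lat

set_option autoImplicit false

/-!
# Module Ctx: contexts, section 2 of the paper proof
-/

namespace Pool.Agent.Kv

open Finset

lemma ctx_card_union {r a : ℕ} (ha : a ≤ r) {G T : Finset ℕ} (hG : G.card = a)
    (hGT : Disjoint G T) (hT : T.card = r - a) : (G ∪ T).card = r := by
  rw [card_union_of_disjoint hGT, hG, hT]; omega

theorem ctx_lift {q r a : ℕ} (hrq : r ≤ q) (ha : a ≤ r) {G W : Finset ℕ} (hG : G.card = a)
    (hGW : Disjoint G W) (hW : (q - a) + (r - a) ≤ W.card) {M : Finset ℕ → ℤ}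
    (hM : M ∈ Dv (q - a) (r - a) (powersetCard (r - a) W)) :
    ∃ M' ∈ Dv q r (powersetCard r (G ∪ W)), ∀ T ⊆ W, T.card = r - a → M' (G ∪ T) = M T := by
  obtain ⟨c, hc⟩ := lattice (q := q - a) (r := r - a) (by omega) hW hM
  refine ⟨∑ Q ∈ powersetCard (q - a) W, c Q • K r (G ∪ Q), ?_, ?_⟩
  · apply AddSubgroup.sum_mem
    intro Q hQ
    apply AddSubgroup.zsmul_mem
    have hQ' := mem_powersetCard.mp hQ
    apply K_mem_Dv
    · exact ctx_card_union (r := q) (a := a) (by omega) hG (hGW.mono_right hQ'.1) hQ'.2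
    · intro e he
      have he' := mem_powersetCard.mp he
      exact mem_powersetCard.mpr ⟨he'.1.trans (union_subset_union_right hQ'.1), he'.2⟩
  · intro T hT hTc
    rw [hc, Finset.sum_apply, Finset.sum_apply]
    apply sum_congr rfl
    intro Q hQ
    have hQ' := mem_powersetCard.mp hQ
    have hGT : Disjoint G T := hGW.mono_right hT
    have h1 : K r (G ∪ Q) (G ∪ T) = K (r - a) Q T := by
      unfold K
      have e1 : (G ∪ T ⊆ G ∪ Q ∧ (G ∪ T).card = r) ↔ (T ⊆ Q ∧ T.card = r - a) := by
        constructor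
        · rintro ⟨h, _⟩
          refine ⟨?_, hTc⟩
          intro x hx
          rcases mem_union.mp (h (mem_union_right _ hx)) with h2 | h2
          · exact absurd h2 (disjoint_right.mp hGT hx)
          · exact h2
        · rintro ⟨h, _⟩
          exact ⟨union_subset_union_right h, ctx_card_union ha hG hGT hTc⟩
      simp only [e1]
    rw [Pi.smul_apply, Pi.smul_apply, h1]

theorem ctx_restrict {q r a : ℕ} (ha : a ≤ r) {G H : Finset ℕ} (hG : G.card = a)
    (hGH : Disjoint G H) {X : Finset (Finset ℕ)} (hX : ∀ e ∈ X, e.card = r) {L : Finset ℕ → ℤ}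
    (hL : L ∈ Dv q r X) (hsupp : ∀ e, G ⊆ e → L e ≠ 0 → e \ G ⊆ H) :
    (fun T => if T ∈ powersetCard (r - a) H then L (G ∪ T) else 0) ∈
      Dv (q - a) (r - a) (powersetCard (r - a) H) := by
  refine ⟨fun T hT => by simp only; rw [if_neg hT], ?_⟩
  intro S hS
  by_cases hSH : S ⊆ H
  · have hGS : Disjoint G S := hGH.mono_right hSH
    have hcard : (G ∪ S).card = a + S.card := by rw [card_union_of_disjoint hGS, hG]
    have key : dg (powersetCard (r - a) H)
        (fun T => if T ∈ powersetCard (r - a) H then L (G ∪ T) else 0) S = dg X L (G ∪ S) := by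
      unfold dg
      set A := (powersetCard (r - a) H).filter (fun T => S ⊆ T) with hA
      set B := X.filter (fun e => G ∪ S ⊆ e) with hB
      have s1 : ∑ T ∈ A, (if T ∈ powersetCard (r - a) H then L (G ∪ T) else 0) =
          ∑ e ∈ A.image (fun T => G ∪ T), L e := by
        rw [sum_image]
        · apply sum_congr rfl
          intro T hT
          rw [if_pos (mem_filter.mp hT).1]
        · intro T hT T' hT' h
          have d1 : Disjoint G T :=
            hGH.mono_right (mem_powersetCard.mp (mem_filter.mp hT).1).1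
          have d2 : Disjoint G T' :=
            hGH.mono_right (mem_powersetCard.mp (mem_filter.mp hT').1).1
          have h2 : (G ∪ T) \ G = (G ∪ T') \ G := by
            simp only at h; rw [h]
          rwa [union_sdiff_cancel_left d1, union_sdiff_cancel_left d2] at h2
      have s2 : ∑ e ∈ (A.image (fun T => G ∪ T)) ∩ B, L e =
          ∑ e ∈ A.image (fun T => G ∪ T), L e := by
        apply sum_subset inter_subset_left
        intro e he hne
        apply hL.1
        intro heX
        apply hne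
        obtain ⟨T, hT, rfl⟩ := mem_image.mp he
        exact mem_inter.mpr ⟨he, mem_filter.mpr
          ⟨heX, union_subset_union_right (mem_filter.mp hT).2⟩⟩
      have s3 : ∑ e ∈ (A.image (fun T => G ∪ T)) ∩ B, L e = ∑ e ∈ B, L e := by
        apply sum_subset inter_subset_right
        intro e he hne
        by_contra h0
        apply hne
        have he' := mem_filter.mp he
        have hGe : G ⊆ e := subset_union_left.trans he'.2
        have hSe : S ⊆ e := subset_union_right.trans he'.2
        have h1 := hsupp e hGe h0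
        refine mem_inter.mpr ⟨mem_image.mpr ⟨e \ G, mem_filter.mpr ⟨?_, ?_⟩, ?_⟩, he⟩
        · rw [mem_powersetCard]
          refine ⟨h1, ?_⟩
          rw [card_sdiff_of_subset hGe, hX e he'.1, hG]
        · intro x hx
          exact mem_sdiff.mpr ⟨hSe hx, disjoint_right.mp hGS hx⟩
        · exact union_sdiff_of_subset hGe
      rw [s1, ← s2, s3]
    rw [key]
    have h2 := hL.2 (G ∪ S) (by omega)
    have e1 : q - (G ∪ S).card = q - a - S.card := by omega
    have e2 : r - (G ∪ S).card = r - a - S.card := by omega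
    rw [e1, e2] at h2
    exact h2
  · have : dg (powersetCard (r - a) H)
        (fun T => if T ∈ powersetCard (r - a) H then L (G ∪ T) else 0) S = 0 := by
      unfold dg
      rw [filter_eq_empty_iff.mpr, sum_empty]
      intro T hT hST
      exact hSH (hST.trans (mem_powersetCard.mp hT).1)
    rw [this]
    exact dvd_zero _

theorem ctx {q r a : ℕ} (hrq : r ≤ q) (ha : a ≤ r) {G H : Finset ℕ} (hG : G.card = a)
    (hGH : Disjoint G H) {F : Finset (Finset ℕ)}
    (hF : ∀ W ∈ F, W ⊆ H ∧ (q - a) + (r - a) ≤ W.card)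
    (hgen : Gen (q - a) (r - a) (powersetCard (r - a) H) F)
    {X : Finset (Finset ℕ)} (hX : ∀ e ∈ X, e.card = r) {L : Finset ℕ → ℤ} (hL : L ∈ Dv q r X)
    (hsupp : ∀ e, G ⊆ e → L e ≠ 0 → e \ G ⊆ H) :
    ∃ f : Finset ℕ → Finset ℕ → ℤ, (∀ W ∈ F, f W ∈ Dv q r (powersetCard r (G ∪ W))) ∧
      ∀ e, G ⊆ e → (L - ∑ W ∈ F, f W) e = 0 := by
  classical
  obtain ⟨g, hg, hgs⟩ := hgen _ (ctx_restrict ha hG hGH hX hL hsupp)
  have key : ∀ W : Finset ℕ, ∃ M' : Finset ℕ → ℤ, W ∈ F →
      M' ∈ Dv q r (powersetCard r (G ∪ W)) ∧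
        ∀ T ⊆ W, T.card = r - a → M' (G ∪ T) = g W T := by
    intro W
    by_cases hW : W ∈ F
    · obtain ⟨M', h1, h2⟩ := ctx_lift hrq ha hG (hGH.mono_right (hF W hW).1) (hF W hW).2 (hg W hW)
      exact ⟨M', fun _ => ⟨h1, h2⟩⟩
    · exact ⟨0, fun h => absurd h hW⟩
  choose f hf using key
  refine ⟨f, fun W hW => (hf W hW).1, ?_⟩
  intro e hGe
  rw [Pi.sub_apply, Finset.sum_apply]
  by_cases he : e.card = r ∧ e \ G ⊆ H
  · obtain ⟨her, heH⟩ := he
    have hGeT : G ∪ (e \ G) = e := union_sdiff_of_subset hGe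
    have hTc : (e \ G).card = r - a := by rw [card_sdiff_of_subset hGe, her, hG]
    have h1 := congrFun hgs (e \ G)
    simp only [Finset.sum_apply] at h1
    rw [if_pos (mem_powersetCard.mpr ⟨heH, hTc⟩), hGeT] at h1
    rw [h1, sub_eq_zero]
    apply sum_congr rfl
    intro W hW
    by_cases hTW : e \ G ⊆ W
    · rw [← (hf W hW).2 (e \ G) hTW hTc, hGeT]
    · rw [(hg W hW).1 (e \ G) (fun h => hTW (mem_powersetCard.mp h).1),
        (hf W hW).1.1 e (fun h => hTW ?_)]
      intro x hx
      have hx' := mem_sdiff.mp hx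
      rcases mem_union.mp ((mem_powersetCard.mp h).1 hx'.1) with h2 | h2
      · exact absurd h2 hx'.2
      · exact h2
  · have hL0 : L e = 0 := by
      by_contra h0
      apply he
      refine ⟨?_, hsupp e hGe h0⟩
      by_contra hne
      exact h0 (hL.1 e (fun h => hne (hX e h)))
    have hf0 : ∑ W ∈ F, f W e = 0 := by
      apply sum_eq_zero
      intro W hW
      apply (hf W hW).1.1 e
      intro h
      apply he
      have h' := mem_powersetCard.mp h
      refine ⟨h'.2, ?_⟩
      intro x hx
      have hx' := mem_sdiff.mp hx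
      rcases mem_union.mp (h'.1 hx'.1) with h2 | h2
      · exact absurd h2 hx'.2
      · exact (hF W hW).1 h2
    rw [hL0, hf0, sub_zero]

end Pool.Agent.Kv
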