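import Mathlib

set_option autoImplicit false

/-!
Definitions for the proof of the existence of designs `S(r,q,n)` extending a sparse partial design.
Everything is over `Finset ℕ`; the vertex set is `range n`; vectors are functions `Finset ℕ → ℤ`.
-/

namespace Pool.Agent.Kv

open Finset

/-- `Lam n = log₂ n + 2`. -/
def Lam (n : ℕ) : ℕ := Nat.log 2 n + 2

/-- indicator of the `r`-subsets of `Q`. -/
def K (r : ℕ) (Q : Finset ℕ) : Finset ℕ → ℤ := fun e => if e ⊆ Q ∧ e.card = r then 1 else 0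

/-- indicator vector of a set of sets. -/
def ind (X : Finset (Finset ℕ)) : Finset ℕ → ℤ := fun e => if e ∈ X then 1 else 0

/-- number of members of the family `A` covering an `r`-set, as a vector. -/
def vec (r : ℕ) (A : Finset (Finset ℕ)) : Finset ℕ → ℤ := ∑ Q ∈ A, K r Q

/-- degree of `S` in the vector `L`, with respect to the finite set `X` of sets. -/
def dg (X : Finset (Finset ℕ)) (L : Finset ℕ → ℤ) (S : Finset ℕ) : ℤ :=
  ∑ e ∈ X.filter (fun e => S ⊆ e), L e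

/-- integral vectors supported on the set `X` of `r`-sets, all whose degrees satisfy the
divisibility conditions for `q`-clique decompositions. -/
def Dv (q r : ℕ) (X : Finset (Finset ℕ)) : AddSubgroup (Finset ℕ → ℤ) where
  carrier := {L | (∀ e, e ∉ X → L e = 0) ∧
    ∀ S : Finset ℕ, S.card ≤ r → (((q - S.card).choose (r - S.card) : ℕ) : ℤ) ∣ dg X L S}
  zero_mem' := by
    refine ⟨fun _ _ => rfl, fun S _ => ?_⟩
    simp [dg]
  add_mem' := by
    rintro L M ⟨hL1, hL2⟩ ⟨hM1, hM2⟩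
    refine ⟨fun e he => by simp [hL1 e he, hM1 e he], fun S hS => ?_⟩
    have h : dg X (L + M) S = dg X L S + dg X M S := by simp [dg, sum_add_distrib]
    rw [h]; exact dvd_add (hL2 S hS) (hM2 S hS)
  neg_mem' := by
    rintro L ⟨hL1, hL2⟩
    refine ⟨fun e he => by simp [hL1 e he], fun S hS => ?_⟩
    have h : dg X (-L) S = -dg X L S := by simp [dg]
    rw [h]; exact (hL2 S hS).neg_right

/-- the family `F` of sets generates `Dv q r X`. -/
def Gen (q r : ℕ) (X F : Finset (Finset ℕ)) : Prop :=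
  ∀ L ∈ Dv q r X, ∃ f : Finset ℕ → Finset ℕ → ℤ,
    (∀ W ∈ F, f W ∈ Dv q r (powersetCard r W)) ∧ L = ∑ W ∈ F, f W

/-- the modulus: `Md q r • 1_e` is divisible. -/
def Md (q r : ℕ) : ℕ := ∏ s ∈ range (r + 1), (q - s).choose (r - s)

/-- `r`-subsets of `Y ∪ Z` meeting `Z`. -/
def claim (r : ℕ) (Y Z : Finset ℕ) : Finset (Finset ℕ) :=
  (powersetCard r (Y ∪ Z)).filter (fun e => ¬ Disjoint e Z)

/-- all `s`-sets are in at most `b` members of `F`. -/
def DegLe (s : ℕ) (F : Finset (Finset ℕ)) (b : ℝ) : Prop :=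
  ∀ S : Finset ℕ, S.card = s → ((F.filter (fun e => S ⊆ e)).card : ℝ) ≤ b

/-- the `r`-sets covered by the family `P`. -/
def Ed (r : ℕ) (P : Finset (Finset ℕ)) : Finset (Finset ℕ) := P.biUnion (powersetCard r)

/-- partial design: `q`-subsets of `range n`, pairwise sharing fewer than `r` points. -/
def IsPartial (r q n : ℕ) (P : Finset (Finset ℕ)) : Prop :=
  (∀ Q ∈ P, Q ⊆ range n ∧ Q.card = q) ∧ ∀ Q ∈ P, ∀ Q' ∈ P, Q ≠ Q' → (Q ∩ Q').card < r

/-- Steiner system `S(r,q,n)` on `range n`. -/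
def IsDesign (r q n : ℕ) (P : Finset (Finset ℕ)) : Prop :=
  (∀ Q ∈ P, Q ⊆ range n ∧ Q.card = q) ∧
    ∀ e : Finset ℕ, e ⊆ range n → e.card = r → ∃! Q, Q ∈ P ∧ e ⊆ Q

/-- the hub set `H^G` of a context `G`, from the system `Kf` of random sets. -/
def Hs (Kf : Finset ℕ → Finset ℕ) (n r : ℕ) (G : Finset ℕ) : Finset ℕ :=
  (range n \ G).filter (fun v => ∀ G' ∈ G.powerset, G'.card < r → v ∈ Kf G')

/-- the token graph. -/
def Tok (Kf : Finset ℕ → Finset ℕ) (n r : ℕ) : Finset (Finset ℕ) :=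
  (powersetCard r (range n)).filter (fun e => ∃ G ∈ e.powerset, G ≠ e ∧ e \ G ⊆ Hs Kf n r G)

/-- exponent in the size of the hub sets: number of subsets `G'` of `G`, `|G| = a`, with
`|G'| < r`. -/
def sG (r a : ℕ) : ℕ := if a < r then 2 ^ a else 2 ^ r - 1

/-- locations: `U 0, …, U (k-1)`. -/
def IsLoc (q r n C1 : ℕ) (T : Finset (Finset ℕ)) (k : ℕ) (U : ℕ → Finset ℕ) : Prop :=
  T ⊆ powersetCard r (range n) ∧
  (∀ j < k, U j ⊆ range n ∧ r ≤ (U j).card ∧ (U j).card ≤ C1 ∧ powersetCard r (U j) ⊆ T) ∧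
  ∀ L ∈ Dv q r T, ∃ f : ℕ → Finset ℕ → ℤ,
    (∀ j < k, f j ∈ Dv q r (powersetCard r (U j))) ∧ L = ∑ j ∈ range k, f j

/-! ### basic lemmas -/

lemma mem_Dv {q r : ℕ} {X : Finset (Finset ℕ)} {L : Finset ℕ → ℤ} :
    L ∈ Dv q r X ↔ (∀ e, e ∉ X → L e = 0) ∧
      ∀ S : Finset ℕ, S.card ≤ r → (((q - S.card).choose (r - S.card) : ℕ) : ℤ) ∣ dg X L S :=
  Iff.rfl

lemma dg_mono {X Y : Finset (Finset ℕ)} (hXY : X ⊆ Y) {L : Finset ℕ → ℤ}
    (hL : ∀ e, e ∉ X → L e = 0) (S : Finset ℕ) : dg Y L S = dg X L S := by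
  unfold dg
  symm
  apply sum_subset (filter_subset_filter _ hXY)
  intro e he he'
  apply hL
  intro hX
  exact he' (mem_filter.mpr ⟨hX, (mem_filter.mp he).2⟩)

lemma Dv_mono {q r : ℕ} {X Y : Finset (Finset ℕ)} (hXY : X ⊆ Y) {L : Finset ℕ → ℤ}
    (hL : L ∈ Dv q r X) : L ∈ Dv q r Y := by
  refine ⟨fun e he => hL.1 e (fun h => he (hXY h)), fun S hS => ?_⟩
  rw [dg_mono hXY hL.1]
  exact hL.2 S hS

/-- the support may be shrunk. -/
lemma Dv_restrict {q r : ℕ} {X Y : Finset (Finset ℕ)} (hXY : X ⊆ Y) {L : Finset ℕ → ℤ}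
    (hL : L ∈ Dv q r Y) (h0 : ∀ e, e ∉ X → L e = 0) : L ∈ Dv q r X := by
  refine ⟨h0, fun S hS => ?_⟩
  rw [← dg_mono hXY h0]
  exact hL.2 S hS

lemma K_apply (r : ℕ) (Q e : Finset ℕ) : K r Q e = if e ⊆ Q ∧ e.card = r then 1 else 0 := rfl

lemma K_eq_ind (r : ℕ) (Q : Finset ℕ) : K r Q = ind (powersetCard r Q) := by
  funext e
  simp [K, ind, mem_powersetCard]

lemma vec_apply (r : ℕ) (A : Finset (Finset ℕ)) (e : Finset ℕ) :
    vec r A e = ∑ Q ∈ A, K r Q e := by
  simp [vec, Finset.sum_apply]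

/-- the degree of `S` in `K r Q`. -/
lemma dg_K {q r : ℕ} {Q : Finset ℕ} (hQ : Q.card = q) {X : Finset (Finset ℕ)}
    (hX : powersetCard r Q ⊆ X) {S : Finset ℕ} (hS : S.card ≤ r) :
    dg X (K r Q) S = if S ⊆ Q then (((q - S.card).choose (r - S.card) : ℕ) : ℤ) else 0 := by
  have h0 : ∀ e, e ∉ powersetCard r Q → K r Q e = 0 := by
    intro e he
    simp only [K, mem_powersetCard] at he ⊢
    rw [if_neg he]
  rw [dg_mono hX h0]
  unfold dg
  have h1 : ∀ e ∈ (powersetCard r Q).filter (fun e => S ⊆ e), K r Q e = 1 := by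
    intro e he
    have := mem_powersetCard.mp (mem_filter.mp he).1
    simp [K, this]
  rw [sum_congr rfl h1, sum_const, nsmul_eq_mul, mul_one]
  split_ifs with hSQ
  · congr 1
    have h2 : (powersetCard r Q).filter (fun e => S ⊆ e) =
        (powersetCard (r - S.card) (Q \ S)).image (fun T => S ∪ T) := by
      ext e
      simp only [mem_filter, mem_powersetCard, mem_image]
      constructor
      · rintro ⟨⟨h1, h2⟩, h3⟩
        refine ⟨e \ S, ⟨sdiff_subset_sdiff h1 (le_refl _), ?_⟩, ?_⟩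
        · rw [card_sdiff_of_subset h3, h2]
        · exact union_sdiff_of_subset h3
      · rintro ⟨T, ⟨h1, h2⟩, rfl⟩
        refine ⟨⟨union_subset hSQ (h1.trans sdiff_subset), ?_⟩, subset_union_left⟩
        rw [card_union_of_disjoint, h2]
        · omega
        · exact (disjoint_sdiff).mono_right h1
    rw [h2, card_image_of_injOn, card_powersetCard, card_sdiff_of_subset hSQ, hQ]
    intro T hT T' hT' h
    have d1 : Disjoint S T := (disjoint_sdiff).mono_right (mem_powersetCard.mp hT).1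
    have d2 : Disjoint S T' := (disjoint_sdiff).mono_right (mem_powersetCard.mp hT').1
    have : (S ∪ T) \ S = (S ∪ T') \ S := by simp only at h; rw [h]
    rwa [union_sdiff_cancel_left d1, union_sdiff_cancel_left d2] at this
  · rw [Nat.cast_eq_zero, card_eq_zero, filter_eq_empty_iff]
    intro e he hSe
    exact hSQ (hSe.trans (mem_powersetCard.mp he).1)

lemma K_mem_Dv {q r : ℕ} {Q : Finset ℕ} (hQ : Q.card = q) {X : Finset (Finset ℕ)}
    (hX : powersetCard r Q ⊆ X) : K r Q ∈ Dv q r X := by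
  refine ⟨fun e he => ?_, fun S hS => ?_⟩
  · have : e ∉ powersetCard r Q := fun h => he (hX h)
    simp only [K, mem_powersetCard] at this ⊢
    rw [if_neg this]
  · rw [dg_K hQ hX hS]
    split_ifs
    · exact dvd_refl _
    · exact dvd_zero _

lemma vec_mem_Dv {q r : ℕ} {A : Finset (Finset ℕ)} {X : Finset (Finset ℕ)}
    (hA : ∀ Q ∈ A, Q.card = q ∧ powersetCard r Q ⊆ X) : vec r A ∈ Dv q r X :=
  AddSubgroup.sum_mem _ (fun Q hQ => K_mem_Dv (hA Q hQ).1 (hA Q hQ).2)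

lemma Md_dvd {q r s : ℕ} (hs : s ≤ r) : (q - s).choose (r - s) ∣ Md q r :=
  Finset.dvd_prod_of_mem (fun s => (q - s).choose (r - s)) (mem_range.mpr (by omega))

lemma Md_pos {q r : ℕ} (h : r ≤ q) : 0 < Md q r := by
  unfold Md
  apply Finset.prod_pos
  intro s _
  exact Nat.choose_pos (by omega)

/-- multiples of `Md q r` supported on `X` are divisible. -/
lemma Md_mul_mem_Dv {q r : ℕ} {X : Finset (Finset ℕ)} {L : Finset ℕ → ℤ}
    (h0 : ∀ e, e ∉ X → L e = 0) (hL : ∀ e, ((Md q r : ℕ) : ℤ) ∣ L e) : L ∈ Dv q r X := by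
  refine ⟨h0, fun S hS => ?_⟩
  apply dvd_sum
  intro e _
  exact (Int.natCast_dvd_natCast.mpr (Md_dvd hS)).trans (hL e)

lemma mem_claim {r : ℕ} {Y Z e : Finset ℕ} :
    e ∈ claim r Y Z ↔ e ⊆ Y ∪ Z ∧ e.card = r ∧ ¬ Disjoint e Z := by
  simp [claim, mem_filter, mem_powersetCard, and_assoc]

lemma Lam_pos (n : ℕ) : 2 ≤ Lam n := by unfold Lam; omega

end Pool.Agent.Kv
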