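import Mathlib

set_option autoImplicit false

/-!
# Module Scl: the sequential choice lemma, section 3 of the paper proof
-/

namespace Pool.Agent.Kv

open Finset

lemma scl_exp_le {x : ℝ} (h0 : 0 ≤ x) (h1 : x ≤ 1) : Real.exp x ≤ 1 + 2 * x := by
  have h := convexOn_exp.2 (Set.mem_univ (0 : ℝ)) (Set.mem_univ (1 : ℝ))
    (by linarith : (0 : ℝ) ≤ 1 - x) h0 (by ring)
  simp only [smul_eq_mul, mul_zero, mul_one, zero_add, Real.exp_zero] at h
  have he : Real.exp 1 < 2.7182818286 := Real.exp_one_lt_d9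
  nlinarith

theorem scl {ι α ρ : Type*} [DecidableEq ι] [Inhabited α] (T : Finset ι) (Ω : ι → Finset α)
    (hΩ : ∀ t ∈ T, (Ω t).Nonempty) (Rs : Finset ρ) (x : ρ → ι → α → ℝ)
    (hx0 : ∀ R ∈ Rs, ∀ t ∈ T, ∀ a ∈ Ω t, 0 ≤ x R t a)
    (hx1 : ∀ R ∈ Rs, ∀ t ∈ T, ∀ a ∈ Ω t, x R t a ≤ 1) (B : ρ → ℝ)
    (hB : ∀ R ∈ Rs, ∑ t ∈ T, (∑ a ∈ Ω t, x R t a) / ((Ω t).card : ℝ) ≤ B R)
    (U : ι → α → Prop) (Cf : ι → α → ι → α → Prop)
    (hsymm : ∀ t a t' a', Cf t a t' a' → Cf t' a' t a)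
    (hbad : ∀ T' ⊆ T, ∀ w : ι → α, (∀ t ∈ T', w t ∈ Ω t) → (∀ t ∈ T', ¬ U t (w t)) →
      (∀ t ∈ T', ∀ t' ∈ T', t ≠ t' → ¬ Cf t (w t) t' (w t')) →
      (∀ R ∈ Rs, ∑ t ∈ T', x R t (w t) ≤ 4 * B R + Real.log (Rs.card : ℝ)) →
      ∀ t ∈ T, t ∉ T' → ∃ Bd ⊆ Ω t, 2 * Bd.card ≤ (Ω t).card ∧
        ∀ a ∈ Ω t, a ∉ Bd → ¬ U t a ∧ ∀ t' ∈ T', ¬ Cf t' (w t') t a) :
    ∃ w : ι → α, (∀ t ∈ T, w t ∈ Ω t ∧ ¬ U t (w t)) ∧
      (∀ t ∈ T, ∀ t' ∈ T, t ≠ t' → ¬ Cf t (w t) t' (w t')) ∧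
      ∀ R ∈ Rs, ∑ t ∈ T, x R t (w t) ≤ 4 * B R + Real.log (Rs.card : ℝ) := by
  classical
  set mn : ρ → ι → ℝ := fun R t => (∑ a ∈ Ω t, x R t a) / ((Ω t).card : ℝ) with hmn
  have hmn0 : ∀ R ∈ Rs, ∀ t ∈ T, 0 ≤ mn R t := fun R hR t ht =>
    div_nonneg (sum_nonneg (fun a ha => hx0 R hR t ht a ha)) (Nat.cast_nonneg _)
  -- from the potential bound to the partial sums
  have hpart : ∀ T' ⊆ T, ∀ w : ι → α,
      ∑ R ∈ Rs, Real.exp (∑ t ∈ T', x R t (w t) + 4 * ∑ t ∈ T \ T', mn R t - 4 * B R) ≤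
        (Rs.card : ℝ) →
      ∀ R ∈ Rs, ∑ t ∈ T', x R t (w t) ≤ 4 * B R + Real.log (Rs.card : ℝ) := by
    intro T' hT' w hΦ R hR
    have h1 : Real.exp (∑ t ∈ T', x R t (w t) + 4 * ∑ t ∈ T \ T', mn R t - 4 * B R) ≤
        (Rs.card : ℝ) :=
      (single_le_sum (f := fun R => Real.exp (∑ t ∈ T', x R t (w t) +
        4 * ∑ t ∈ T \ T', mn R t - 4 * B R)) (fun R _ => (Real.exp_pos _).le) hR).trans hΦ
    have hpos : (0 : ℝ) < (Rs.card : ℝ) := by
      exact_mod_cast card_pos.mpr ⟨R, hR⟩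
    have h2 := (Real.le_log_iff_exp_le hpos).mpr h1
    have h3 : 0 ≤ ∑ t ∈ T \ T', mn R t :=
      sum_nonneg (fun t ht => hmn0 R hR t (mem_sdiff.mp ht).1)
    linarith
  have key : ∀ T' : Finset ι, T' ⊆ T → ∃ w : ι → α, (∀ t ∈ T', w t ∈ Ω t) ∧
      (∀ t ∈ T', ¬ U t (w t)) ∧
      (∀ t ∈ T', ∀ t' ∈ T', t ≠ t' → ¬ Cf t (w t) t' (w t')) ∧
      ∑ R ∈ Rs, Real.exp (∑ t ∈ T', x R t (w t) + 4 * ∑ t ∈ T \ T', mn R t - 4 * B R) ≤
        (Rs.card : ℝ) := by
    intro T'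
    induction T' using Finset.induction_on with
    | empty =>
      intro _
      refine ⟨fun _ => default, by simp, by simp, by simp, ?_⟩
      calc ∑ R ∈ Rs, Real.exp (∑ t ∈ (∅ : Finset ι), x R t default +
            4 * ∑ t ∈ T \ ∅, mn R t - 4 * B R)
          ≤ ∑ _R ∈ Rs, (1 : ℝ) := by
            apply sum_le_sum
            intro R hR
            rw [Real.exp_le_one_iff, sum_empty, sdiff_empty]
            have := hB R hR
            linarith
        _ = (Rs.card : ℝ) := by simp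
    | insert t T' htT' ih =>
      intro hsub
      have htT : t ∈ T := hsub (mem_insert_self _ _)
      have hT'T : T' ⊆ T := (subset_insert _ _).trans hsub
      obtain ⟨w, hw1, hw2, hw3, hw4⟩ := ih hT'T
      obtain ⟨Bd, hBd1, hBd2, hBd3⟩ := hbad T' hT'T w hw1 hw2 hw3 (hpart T' hT'T w hw4) t htT htT'
      set G := Ω t \ Bd with hG
      have hΩpos : 0 < (Ω t).card := card_pos.mpr (hΩ t htT)
      have hGcard : G.card = (Ω t).card - Bd.card := card_sdiff_of_subset hBd1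
      have hG2 : (Ω t).card ≤ 2 * G.card := by omega
      have hGpos : 0 < G.card := by omega
      have hGne : G.Nonempty := card_pos.mp hGpos
      have hGR : (0 : ℝ) < (G.card : ℝ) := by exact_mod_cast hGpos
      have hG2R : ((Ω t).card : ℝ) ≤ 2 * (G.card : ℝ) := by exact_mod_cast hG2
      have hΩR : (0 : ℝ) < ((Ω t).card : ℝ) := by exact_mod_cast hΩpos
      set E : ρ → ℝ := fun R => Real.exp (∑ s ∈ T', x R s (w s) +
        4 * ∑ s ∈ T \ insert t T', mn R s - 4 * B R) with hE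
      have hsplit : ∀ R, ∑ s ∈ T \ T', mn R s = mn R t + ∑ s ∈ T \ insert t T', mn R s := by
        intro R
        have h1 : T \ T' = insert t (T \ insert t T') := by
          ext s
          simp only [mem_sdiff, mem_insert]
          constructor
          · rintro ⟨h1, h2⟩
            by_cases hs : s = t
            · left; exact hs
            · right
              exact ⟨h1, by rintro (h | h); exacts [hs h, h2 h]⟩
          · rintro (h | ⟨h1, h2⟩)
            · rw [h]; exact ⟨htT, htT'⟩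
            · exact ⟨h1, fun h => h2 (Or.inr h)⟩
        rw [h1, sum_insert (by simp)]
      have hEmn : ∀ R, Real.exp (∑ s ∈ T', x R s (w s) + 4 * ∑ s ∈ T \ T', mn R s - 4 * B R) =
          E R * Real.exp (4 * mn R t) := by
        intro R
        rw [hE, ← Real.exp_add, hsplit R]
        congr 1; ring
      have hx : ∀ R ∈ Rs, ∑ a ∈ G, Real.exp (x R t a) ≤ (G.card : ℝ) * Real.exp (4 * mn R t) := by
        intro R hR
        have h1 : ∑ a ∈ G, Real.exp (x R t a) ≤ ∑ a ∈ G, (1 + 2 * x R t a) := by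
          apply sum_le_sum
          intro a ha
          have haΩ := (mem_sdiff.mp ha).1
          exact scl_exp_le (hx0 R hR t htT a haΩ) (hx1 R hR t htT a haΩ)
        have h2 : ∑ a ∈ G, (1 + 2 * x R t a) = (G.card : ℝ) + 2 * ∑ a ∈ G, x R t a := by
          rw [sum_add_distrib, ← mul_sum]; simp
        have h3 : ∑ a ∈ G, x R t a ≤ ∑ a ∈ Ω t, x R t a :=
          sum_le_sum_of_subset_of_nonneg sdiff_subset (fun a ha _ => hx0 R hR t htT a ha)
        have h4 : ∑ a ∈ Ω t, x R t a = ((Ω t).card : ℝ) * mn R t := by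
          rw [hmn]; field_simp
        have h5 : ((Ω t).card : ℝ) * mn R t ≤ 2 * (G.card : ℝ) * mn R t :=
          mul_le_mul_of_nonneg_right hG2R (hmn0 R hR t htT)
        have h6 : 1 + 4 * mn R t ≤ Real.exp (4 * mn R t) := by
          have := Real.add_one_le_exp (4 * mn R t)
          linarith
        have h7 : (G.card : ℝ) * (1 + 4 * mn R t) ≤ (G.card : ℝ) * Real.exp (4 * mn R t) :=
          mul_le_mul_of_nonneg_left h6 hGR.le
        nlinarith
      have hsum : ∑ a ∈ G, ∑ R ∈ Rs, E R * Real.exp (x R t a) ≤ ∑ _a ∈ G, (Rs.card : ℝ) := by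
        rw [sum_comm]
        calc ∑ R ∈ Rs, ∑ a ∈ G, E R * Real.exp (x R t a)
            = ∑ R ∈ Rs, E R * ∑ a ∈ G, Real.exp (x R t a) := by
              apply sum_congr rfl; intro R _; rw [mul_sum]
          _ ≤ ∑ R ∈ Rs, E R * ((G.card : ℝ) * Real.exp (4 * mn R t)) :=
              sum_le_sum (fun R hR => mul_le_mul_of_nonneg_left (hx R hR) (Real.exp_pos _).le)
          _ = (G.card : ℝ) * ∑ R ∈ Rs, Real.exp (∑ s ∈ T', x R s (w s) +
                4 * ∑ s ∈ T \ T', mn R s - 4 * B R) := by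
              rw [mul_sum]
              apply sum_congr rfl
              intro R _
              rw [hEmn R]; ring
          _ ≤ (G.card : ℝ) * (Rs.card : ℝ) := mul_le_mul_of_nonneg_left hw4 hGR.le
          _ = ∑ _a ∈ G, (Rs.card : ℝ) := by simp
      obtain ⟨a, haG, ha⟩ := exists_le_of_sum_le hGne hsum
      obtain ⟨haΩ, haB⟩ := mem_sdiff.mp haG
      obtain ⟨hU, hC⟩ := hBd3 a haΩ haB
      have hupd : ∀ s ∈ T', Function.update w t a s = w s := by
        intro s hs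
        exact Function.update_of_ne (by rintro rfl; exact htT' hs) _ _
      have hut : Function.update w t a t = a := Function.update_self _ _ _
      refine ⟨Function.update w t a, ?_, ?_, ?_, ?_⟩
      · intro s hs
        rcases mem_insert.mp hs with rfl | hs
        · rw [hut]; exact haΩ
        · rw [hupd s hs]; exact hw1 s hs
      · intro s hs
        rcases mem_insert.mp hs with rfl | hs
        · rw [hut]; exact hU
        · rw [hupd s hs]; exact hw2 s hs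
      · intro s hs s' hs' hne
        rcases mem_insert.mp hs with hst | hsT
        · rcases mem_insert.mp hs' with hst' | hsT'
          · exact absurd (hst.trans hst'.symm) hne
          · rw [hst, hut, hupd s' hsT']
            exact fun h => hC s' hsT' (hsymm _ _ _ _ h)
        · rcases mem_insert.mp hs' with hst' | hsT'
          · rw [hst', hut, hupd s hsT]
            exact hC s hsT
          · rw [hupd s hsT, hupd s' hsT']
            exact hw3 s hsT s' hsT' hne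
      · refine le_trans (le_of_eq ?_) ha
        apply sum_congr rfl
        intro R _
        rw [hE, ← Real.exp_add, sum_insert htT', hut,
          sum_congr rfl (fun s hs => by rw [hupd s hs] : ∀ s ∈ T', x R s (Function.update w t a s) =
            x R s (w s))]
        congr 1; ring
  obtain ⟨w, h1, h2, h3, h4⟩ := key T (Subset.refl _)
  exact ⟨w, fun t ht => ⟨h1 t ht, h2 t ht⟩, h3, hpart T (Subset.refl _) w h4⟩

/-- the case without constraints. -/
theorem scl0 {ι α ρ : Type*} [DecidableEq ι] [Inhabited α] (T : Finset ι) (Ω : ι → Finset α)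
    (hΩ : ∀ t ∈ T, (Ω t).Nonempty) (Rs : Finset ρ) (x : ρ → ι → α → ℝ)
    (hx0 : ∀ R ∈ Rs, ∀ t ∈ T, ∀ a ∈ Ω t, 0 ≤ x R t a)
    (hx1 : ∀ R ∈ Rs, ∀ t ∈ T, ∀ a ∈ Ω t, x R t a ≤ 1) (B : ρ → ℝ)
    (hB : ∀ R ∈ Rs, ∑ t ∈ T, (∑ a ∈ Ω t, x R t a) / ((Ω t).card : ℝ) ≤ B R) :
    ∃ w : ι → α, (∀ t ∈ T, w t ∈ Ω t) ∧
      ∀ R ∈ Rs, ∑ t ∈ T, x R t (w t) ≤ 4 * B R + Real.log (Rs.card : ℝ) := by
  obtain ⟨w, h1, _, h3⟩ := scl T Ω hΩ Rs x hx0 hx1 B hB (fun _ _ => False)
    (fun _ _ _ _ => False) (fun _ _ _ _ h => h)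
    (fun T' _ w _ _ _ _ t _ _ => ⟨∅, empty_subset _, by simp, fun a _ _ => ⟨id, fun _ _ => id⟩⟩)
  exact ⟨w, fun t ht => (h1 t ht).1, h3⟩

end Pool.Agent.Kv
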