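import Pool.Agent.Designs.Defs
import Pool.Agent.Designs.Scl

set_option autoImplicit false

/-!
# Module Emb: the embedding lemma (section 9 of the paper proof)

Sequential choice of the sets `Z t` with the statistics `(h', h'')` and a tag.
-/

namespace Pool.Agent.Kv

open Finset

lemma emb_choose_step (c X j : ℕ) (hj : j < c) (hc : c ≤ X) :
    (X - (j + 1)).choose (c - (j + 1)) * X ≤ c * (X - j).choose (c - j) := by
  obtain ⟨m, rfl⟩ : ∃ m, X = m + (j + 1) := ⟨X - (j + 1), by omega⟩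
  obtain ⟨l, rfl⟩ : ∃ l, c = l + (j + 1) := ⟨c - (j + 1), by omega⟩
  have e1 : m + (j + 1) - (j + 1) = m := by omega
  have e2 : l + (j + 1) - (j + 1) = l := by omega
  have e3 : m + (j + 1) - j = m + 1 := by omega
  have e4 : l + (j + 1) - j = l + 1 := by omega
  rw [e1, e2, e3, e4]
  have h := Nat.add_one_mul_choose_eq m l
  
  have hlm : l ≤ m := by omega
  refine Nat.le_of_mul_le_mul_right (c := l + 1) ?_ (by omega)
  calc m.choose l * (m + (j + 1)) * (l + 1) = m.choose l * ((m + (j + 1)) * (l + 1)) := by ring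
    _ ≤ m.choose l * ((l + (j + 1)) * (m + 1)) := by
        refine Nat.mul_le_mul_left _ ?_
        nlinarith
    _ = (l + (j + 1)) * ((m + 1) * m.choose l) := by ring
    _ = (l + (j + 1)) * ((m + 1).choose (l + 1) * (l + 1)) := by rw [h]
    _ = (l + (j + 1)) * (m + 1).choose (l + 1) * (l + 1) := by ring

lemma emb_choose (c X : ℕ) (hc : c ≤ X) (j : ℕ) (hj : j ≤ c) :
    (X - j).choose (c - j) * X ^ j ≤ c ^ j * X.choose c := by
  induction j with
  | zero => simp
  | succ j ih =>
    have h1 := emb_choose_step c X j (by omega) hc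
    have h2 := ih (by omega)
    calc (X - (j + 1)).choose (c - (j + 1)) * X ^ (j + 1)
        = ((X - (j + 1)).choose (c - (j + 1)) * X) * X ^ j := by ring
      _ ≤ (c * (X - j).choose (c - j)) * X ^ j := Nat.mul_le_mul_right _ h1
      _ = c * ((X - j).choose (c - j) * X ^ j) := by ring
      _ ≤ c * (c ^ j * X.choose c) := Nat.mul_le_mul_left _ h2
      _ = c ^ (j + 1) * X.choose c := by ring

/-- supersets of `S` of size `m` inside `X` -/
lemma emb_card_supersets (X S : Finset ℕ) (m : ℕ) (hS : S ⊆ X) (_hm : S.card ≤ m) :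
    ((powersetCard m X).filter (fun Z => S ⊆ Z)).card ≤ (X.card - S.card).choose (m - S.card) := by
  rw [← card_sdiff_of_subset hS, ← card_powersetCard]
  refine card_le_card_of_injOn (fun Z => Z \ S) ?_ ?_
  · intro Z hZ
    rw [mem_coe, mem_filter, mem_powersetCard] at hZ
    rw [mem_coe, mem_powersetCard]
    exact ⟨sdiff_subset_sdiff hZ.1.1 (le_refl _), by rw [card_sdiff_of_subset hZ.2, hZ.1.2]⟩
  · intro Z hZ Z' hZ' h
    rw [mem_coe, mem_filter, mem_powersetCard] at hZ hZ'
    simp only at h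
    rw [← union_sdiff_of_subset hZ.2, ← union_sdiff_of_subset hZ'.2, h]

/-- the fraction of `c`-subsets of `X` containing `S` -/
lemma emb_frac (X S : Finset ℕ) (c : ℕ) (hc : c ≤ X.card) :
    ((powersetCard c X).filter (fun Z => S ⊆ Z)).card * X.card ^ S.card ≤
      c ^ S.card * (powersetCard c X).card := by
  by_cases h : S ⊆ X ∧ S.card ≤ c
  · calc ((powersetCard c X).filter (fun Z => S ⊆ Z)).card * X.card ^ S.card
        ≤ (X.card - S.card).choose (c - S.card) * X.card ^ S.card :=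
          Nat.mul_le_mul_right _ (emb_card_supersets X S c h.1 h.2)
      _ ≤ c ^ S.card * (X.card).choose c := emb_choose c X.card hc S.card h.2
      _ = c ^ S.card * (powersetCard c X).card := by rw [card_powersetCard]
  · have : (powersetCard c X).filter (fun Z => S ⊆ Z) = ∅ := by
      rw [filter_eq_empty_iff]
      intro Z hZ hSZ
      have hZ' := mem_powersetCard.1 hZ
      exact h ⟨hSZ.trans hZ'.1, hZ'.2 ▸ card_le_card hSZ⟩
    rw [this]; simp

/-- number of `m`-subsets of `range n` containing `h` -/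
lemma emb_card_range (n m : ℕ) (h : Finset ℕ) (hm : h.card ≤ m) :
    ((powersetCard m (range n)).filter (fun Z => h ⊆ Z)).card ≤ n ^ (m - h.card) := by
  by_cases hh : h ⊆ range n
  · refine (emb_card_supersets (range n) h m hh hm).trans ?_
    rw [card_range]
    exact (Nat.choose_le_pow _ _).trans (Nat.pow_le_pow_left (Nat.sub_le _ _) _)
  · have : (powersetCard m (range n)).filter (fun Z => h ⊆ Z) = ∅ := by
      rw [filter_eq_empty_iff]
      intro Z hZ hSZ
      exact hh (hSZ.trans (mem_powersetCard.1 hZ).1)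
    rw [this]; simp

/-- number of members of `G` containing `h`, from the degree condition -/
lemma emb_card_containing (n r : ℕ) (G : Finset (Finset ℕ)) (hG : G ⊆ powersetCard r (range n))
    (D : ℝ) (hD : DegLe (r - 1) G D) (h : Finset ℕ) (hh : h.card < r) :
    ((G.filter (fun e => h ⊆ e)).card : ℝ) ≤ (n : ℝ) ^ (r - h.card - 1) * D := by
  have hD0 : 0 ≤ D := by
    obtain ⟨S, hS⟩ : ∃ S : Finset ℕ, S.card = r - 1 := ⟨range (r - 1), card_range _⟩
    exact le_trans (Nat.cast_nonneg _) (hD S hS)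
  have h1 : G.filter (fun e => h ⊆ e) ⊆
      ((powersetCard (r - 1) (range n)).filter (fun Z => h ⊆ Z)).biUnion
        (fun S => G.filter (fun e => S ⊆ e)) := by
    intro e he
    obtain ⟨heG, hhe⟩ := mem_filter.1 he
    have heR := mem_powersetCard.1 (hG heG)
    obtain ⟨S, hS1, hS2, hS3⟩ := exists_subsuperset_card_eq hhe (n := r - 1) (by omega) (by omega)
    rw [mem_biUnion]
    exact ⟨S, mem_filter.2 ⟨mem_powersetCard.2 ⟨hS2.trans heR.1, hS3⟩, hS1⟩,
      mem_filter.2 ⟨heG, hS2⟩⟩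
  calc ((G.filter (fun e => h ⊆ e)).card : ℝ)
      ≤ ((((powersetCard (r - 1) (range n)).filter (fun Z => h ⊆ Z)).biUnion
        (fun S => G.filter (fun e => S ⊆ e))).card : ℝ) := by exact_mod_cast card_le_card h1
    _ ≤ ((∑ S ∈ (powersetCard (r - 1) (range n)).filter (fun Z => h ⊆ Z),
        (G.filter (fun e => S ⊆ e)).card : ℕ) : ℝ) := by exact_mod_cast card_biUnion_le
    _ = ∑ S ∈ (powersetCard (r - 1) (range n)).filter (fun Z => h ⊆ Z),
        ((G.filter (fun e => S ⊆ e)).card : ℝ) := by push_cast; rfl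
    _ ≤ ∑ S ∈ (powersetCard (r - 1) (range n)).filter (fun Z => h ⊆ Z), D := by
        refine sum_le_sum fun S hS => hD S ?_
        exact (mem_powersetCard.1 (mem_filter.1 hS).1).2
    _ = ((powersetCard (r - 1) (range n)).filter (fun Z => h ⊆ Z)).card * D := by
        rw [sum_const, nsmul_eq_mul]
    _ ≤ (n : ℝ) ^ (r - h.card - 1) * D := by
        refine mul_le_mul_of_nonneg_right ?_ hD0
        have := emb_card_range n (r - 1) h (by omega)
        rw [show r - h.card - 1 = r - 1 - h.card by omega]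
        exact_mod_cast this

/-- the fraction, with `n ≤ Γ |X|` -/
lemma emb_frac' (X S : Finset ℕ) (c n : ℕ) (hc : c ≤ X.card) (Γ : ℝ)
    (hn : (n : ℝ) ≤ Γ * (X.card : ℝ)) (hΓ : 1 ≤ Γ) :
    (((powersetCard c X).filter (fun Z => S ⊆ Z)).card : ℝ) * (n : ℝ) ^ S.card ≤
      ((c : ℝ) * Γ) ^ S.card * ((powersetCard c X).card : ℝ) := by
  have h1 : (((powersetCard c X).filter (fun Z => S ⊆ Z)).card : ℝ) * (X.card : ℝ) ^ S.card ≤
      (c : ℝ) ^ S.card * ((powersetCard c X).card : ℝ) := by exact_mod_cast emb_frac X S c hc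
  calc (((powersetCard c X).filter (fun Z => S ⊆ Z)).card : ℝ) * (n : ℝ) ^ S.card
      ≤ (((powersetCard c X).filter (fun Z => S ⊆ Z)).card : ℝ) *
        (Γ * (X.card : ℝ)) ^ S.card := by
        refine mul_le_mul_of_nonneg_left ?_ (Nat.cast_nonneg _)
        exact pow_le_pow_left₀ (Nat.cast_nonneg _) hn _
    _ = Γ ^ S.card * ((((powersetCard c X).filter (fun Z => S ⊆ Z)).card : ℝ) *
        (X.card : ℝ) ^ S.card) := by rw [mul_pow]; ring
    _ ≤ Γ ^ S.card * ((c : ℝ) ^ S.card * ((powersetCard c X).card : ℝ)) :=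
        mul_le_mul_of_nonneg_left h1 (by positivity)
    _ = ((c : ℝ) * Γ) ^ S.card * ((powersetCard c X).card : ℝ) := by rw [mul_pow]; ring

/-- few choices have a claim meeting `G` -/
lemma emb_bad (n r c Cy : ℕ) (Y X : Finset ℕ) (G : Finset (Finset ℕ))
    (hG : G ⊆ powersetCard r (range n)) (D : ℝ) (hD : DegLe (r - 1) G D) (Γ : ℝ)
    (hn : (n : ℝ) ≤ Γ * (X.card : ℝ)) (hΓ : 1 ≤ Γ) (hc : c ≤ X.card) (hY : Y.card ≤ Cy)
    (hXY : Disjoint X Y) (hc1 : 1 ≤ c) (hn0 : 0 < n) :
    (((powersetCard c X).filter (fun Z => ¬ Disjoint (claim r Y Z) G)).card : ℝ) * n ≤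
      2 ^ Cy * (((c : ℝ) * Γ) ^ r * D) * ((powersetCard c X).card : ℝ) := by
  have hD0 : 0 ≤ D := by
    obtain ⟨S, hS⟩ : ∃ S : Finset ℕ, S.card = r - 1 := ⟨range (r - 1), card_range _⟩
    exact le_trans (Nat.cast_nonneg _) (hD S hS)
  have hnR : (0 : ℝ) < n := by exact_mod_cast hn0
  have hcΓ : 1 ≤ (c : ℝ) * Γ := by
    have : (1 : ℝ) ≤ c := by exact_mod_cast hc1
    nlinarith
  have h1 : (powersetCard c X).filter (fun Z => ¬ Disjoint (claim r Y Z) G) ⊆
      (Y.powerset.filter (fun h => h.card < r)).biUnion (fun h =>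
        (G.filter (fun e => h ⊆ e)).biUnion (fun e =>
          (powersetCard c X).filter (fun Z => e \ h ⊆ Z))) := by
    intro Z hZ
    obtain ⟨hZX, hZ2⟩ := mem_filter.1 hZ
    rw [not_disjoint_iff] at hZ2
    obtain ⟨e, he1, he2⟩ := hZ2
    obtain ⟨he3, he4, he5⟩ := mem_claim.1 he1
    rw [mem_biUnion]
    refine ⟨e ∩ Y, mem_filter.2 ⟨mem_powerset.2 inter_subset_right, ?_⟩, ?_⟩
    · rw [← he4]
      apply card_lt_card
      rw [ssubset_iff_subset_ne]
      refine ⟨inter_subset_left, fun h => he5 ?_⟩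
      have h2 : e ⊆ Y := by rw [← h]; exact inter_subset_right
      exact (disjoint_of_subset_left (mem_powersetCard.1 hZX).1 hXY).symm.mono_left h2
    · rw [mem_biUnion]
      refine ⟨e, mem_filter.2 ⟨he2, inter_subset_left⟩, mem_filter.2 ⟨hZX, ?_⟩⟩
      intro v hv
      rw [mem_sdiff, mem_inter, not_and] at hv
      rcases mem_union.1 (he3 hv.1) with h | h
      · exact absurd h (hv.2 hv.1)
      · exact h
  have h2 : ∀ h ∈ Y.powerset.filter (fun h => h.card < r),
      (((G.filter (fun e => h ⊆ e)).biUnion (fun e =>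
          (powersetCard c X).filter (fun Z => e \ h ⊆ Z))).card : ℝ) * n ≤
      ((c : ℝ) * Γ) ^ r * D * ((powersetCard c X).card : ℝ) := by
    intro h hh
    have hhr := (mem_filter.1 hh).2
    have h3 : (((G.filter (fun e => h ⊆ e)).biUnion (fun e =>
          (powersetCard c X).filter (fun Z => e \ h ⊆ Z))).card : ℝ) * (n : ℝ) ^ (r - h.card) ≤
          ∑ e ∈ G.filter (fun e => h ⊆ e), ((c : ℝ) * Γ) ^ (r - h.card) *
            ((powersetCard c X).card : ℝ) := by
      calc (((G.filter (fun e => h ⊆ e)).biUnion (fun e =>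
          (powersetCard c X).filter (fun Z => e \ h ⊆ Z))).card : ℝ) * (n : ℝ) ^ (r - h.card)
          ≤ ((∑ e ∈ G.filter (fun e => h ⊆ e),
            ((powersetCard c X).filter (fun Z => e \ h ⊆ Z)).card : ℕ) : ℝ) *
              (n : ℝ) ^ (r - h.card) := by
            refine mul_le_mul_of_nonneg_right ?_ (by positivity)
            exact_mod_cast card_biUnion_le
        _ = ∑ e ∈ G.filter (fun e => h ⊆ e),
            (((powersetCard c X).filter (fun Z => e \ h ⊆ Z)).card : ℝ) *
              (n : ℝ) ^ (r - h.card) := by push_cast; rw [sum_mul]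
        _ ≤ _ := by
            refine sum_le_sum fun e he => ?_
            obtain ⟨heG, hhe⟩ := mem_filter.1 he
            have hec := (mem_powersetCard.1 (hG heG)).2
            have h4 := emb_frac' X (e \ h) c n hc Γ hn hΓ
            rw [card_sdiff_of_subset hhe, hec] at h4
            exact h4
    rw [sum_const, nsmul_eq_mul] at h3
    have h5 := emb_card_containing n r G hG D hD h hhr
    have h6 : (((G.filter (fun e => h ⊆ e)).biUnion (fun e =>
          (powersetCard c X).filter (fun Z => e \ h ⊆ Z))).card : ℝ) * (n : ℝ) ^ (r - h.card) ≤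
        ((n : ℝ) ^ (r - h.card - 1) * D) * (((c : ℝ) * Γ) ^ (r - h.card) *
            ((powersetCard c X).card : ℝ)) :=
      h3.trans (mul_le_mul_of_nonneg_right h5 (by positivity))
    have h7 : (n : ℝ) ^ (r - h.card) = (n : ℝ) ^ (r - h.card - 1) * n := by
      rw [← pow_succ]; congr 1; omega
    rw [h7] at h6
    have h8 : (((G.filter (fun e => h ⊆ e)).biUnion (fun e =>
          (powersetCard c X).filter (fun Z => e \ h ⊆ Z))).card : ℝ) * n ≤
          D * (((c : ℝ) * Γ) ^ (r - h.card) * ((powersetCard c X).card : ℝ)) := by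
      have hp : (0 : ℝ) < (n : ℝ) ^ (r - h.card - 1) := by positivity
      refine le_of_mul_le_mul_left ?_ hp
      nlinarith
    refine h8.trans ?_
    have h9 : ((c : ℝ) * Γ) ^ (r - h.card) ≤ ((c : ℝ) * Γ) ^ r :=
      pow_le_pow_right₀ hcΓ (Nat.sub_le _ _)
    calc D * (((c : ℝ) * Γ) ^ (r - h.card) * ((powersetCard c X).card : ℝ))
        ≤ D * (((c : ℝ) * Γ) ^ r * ((powersetCard c X).card : ℝ)) := by gcongr
      _ = _ := by ring
  calc (((powersetCard c X).filter (fun Z => ¬ Disjoint (claim r Y Z) G)).card : ℝ) * n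
      ≤ ((∑ h ∈ Y.powerset.filter (fun h => h.card < r),
        ((G.filter (fun e => h ⊆ e)).biUnion (fun e =>
          (powersetCard c X).filter (fun Z => e \ h ⊆ Z))).card : ℕ) : ℝ) * n := by
        refine mul_le_mul_of_nonneg_right ?_ hnR.le
        exact_mod_cast (card_le_card h1).trans card_biUnion_le
    _ = ∑ h ∈ Y.powerset.filter (fun h => h.card < r),
        (((G.filter (fun e => h ⊆ e)).biUnion (fun e =>
          (powersetCard c X).filter (fun Z => e \ h ⊆ Z))).card : ℝ) * n := by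
        push_cast; rw [sum_mul]
    _ ≤ ∑ h ∈ Y.powerset.filter (fun h => h.card < r),
        ((c : ℝ) * Γ) ^ r * D * ((powersetCard c X).card : ℝ) := sum_le_sum h2
    _ = ((Y.powerset.filter (fun h => h.card < r)).card : ℝ) *
        (((c : ℝ) * Γ) ^ r * D * ((powersetCard c X).card : ℝ)) := by
        rw [sum_const, nsmul_eq_mul]
    _ ≤ (2 : ℝ) ^ Cy * (((c : ℝ) * Γ) ^ r * D * ((powersetCard c X).card : ℝ)) := by
        refine mul_le_mul_of_nonneg_right ?_ (by positivity)
        have h10 : (Y.powerset.filter (fun h => h.card < r)).card ≤ 2 ^ Cy := by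
          refine (card_filter_le _ _).trans ?_
          rw [card_powerset]
          exact Nat.pow_le_pow_right (by norm_num) hY
        exact_mod_cast h10
    _ = _ := by ring

/-- degree of the union of the claims -/
lemma emb_deg {ι : Type} [DecidableEq ι] (n r c Cy : ℕ) (hr : 1 ≤ r) (T : Finset ι)
    (Y Z : ι → Finset ℕ) (hY : ∀ t ∈ T, Y t ⊆ range n ∧ (Y t).card ≤ Cy)
    (hZ : ∀ t ∈ T, Z t ⊆ range n ∧ (Z t).card = c) (b : ℝ) (hb : 0 ≤ b)
    (h : ∀ h' h'' : Finset ℕ, h' ⊆ range n → h'' ⊆ range n → h'.card + h''.card + 1 = r →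
      ((T.filter (fun t => h' ⊆ Y t ∧ h'' ⊆ Z t)).card : ℝ) ≤ b) :
    DegLe (r - 1) (T.biUnion (fun t => claim r (Y t) (Z t))) (2 ^ r * ((Cy : ℝ) + c) * b) := by
  intro S hS
  by_cases hSn : S ⊆ range n
  · have h1 : (T.biUnion (fun t => claim r (Y t) (Z t))).filter (fun e => S ⊆ e) ⊆
        S.powerset.biUnion (fun h' => (T.filter (fun t => h' ⊆ Y t ∧ S \ h' ⊆ Z t)).biUnion
          (fun t => (Y t ∪ Z t).image (fun y => insert y S))) := by
      intro e he
      obtain ⟨he1, hSe⟩ := mem_filter.1 he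
      obtain ⟨t, ht, het⟩ := mem_biUnion.1 he1
      obtain ⟨he3, he4, he5⟩ := mem_claim.1 het
      rw [mem_biUnion]
      refine ⟨S ∩ Y t, mem_powerset.2 inter_subset_left, ?_⟩
      rw [mem_biUnion]
      refine ⟨t, mem_filter.2 ⟨ht, inter_subset_right, ?_⟩, ?_⟩
      · intro v hv
        rw [mem_sdiff, mem_inter, not_and] at hv
        rcases mem_union.1 (he3 (hSe hv.1)) with h | h
        · exact absurd h (hv.2 hv.1)
        · exact h
      · have h2 : (e \ S).card = 1 := by rw [card_sdiff_of_subset hSe, he4, hS]; omega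
        obtain ⟨y, hy⟩ := card_eq_one.1 h2
        rw [mem_image]
        refine ⟨y, he3 ?_, ?_⟩
        · have : y ∈ e \ S := by rw [hy]; exact mem_singleton_self y
          exact (mem_sdiff.1 this).1
        · rw [insert_eq, ← hy, sdiff_union_of_subset hSe]
    have h2 : ∀ h' ∈ S.powerset, ((((T.filter (fun t => h' ⊆ Y t ∧ S \ h' ⊆ Z t)).biUnion
          (fun t => (Y t ∪ Z t).image (fun y => insert y S)))).card : ℝ) ≤
          ((Cy : ℝ) + c) * b := by
      intro h' hh'
      have hh'S := mem_powerset.1 hh'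
      calc ((((T.filter (fun t => h' ⊆ Y t ∧ S \ h' ⊆ Z t)).biUnion
          (fun t => (Y t ∪ Z t).image (fun y => insert y S)))).card : ℝ)
          ≤ ((∑ t ∈ T.filter (fun t => h' ⊆ Y t ∧ S \ h' ⊆ Z t),
            ((Y t ∪ Z t).image (fun y => insert y S)).card : ℕ) : ℝ) := by
            exact_mod_cast card_biUnion_le
        _ ≤ ((∑ t ∈ T.filter (fun t => h' ⊆ Y t ∧ S \ h' ⊆ Z t), (Cy + c) : ℕ) : ℝ) := by
            have : (∑ t ∈ T.filter (fun t => h' ⊆ Y t ∧ S \ h' ⊆ Z t),
              ((Y t ∪ Z t).image (fun y => insert y S)).card) ≤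
              ∑ t ∈ T.filter (fun t => h' ⊆ Y t ∧ S \ h' ⊆ Z t), (Cy + c) := by
              refine sum_le_sum fun t ht => ?_
              have htT := (mem_filter.1 ht).1
              refine card_image_le.trans ((card_union_le _ _).trans ?_)
              exact add_le_add (hY t htT).2 (hZ t htT).2.le
            exact_mod_cast this
        _ = ((Cy : ℝ) + c) * ((T.filter (fun t => h' ⊆ Y t ∧ S \ h' ⊆ Z t)).card : ℝ) := by
            rw [sum_const, smul_eq_mul]; push_cast; ring
        _ ≤ ((Cy : ℝ) + c) * b := by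
            refine mul_le_mul_of_nonneg_left ?_ (by positivity)
            refine h h' (S \ h') (hh'S.trans hSn) (sdiff_subset.trans hSn) ?_
            rw [card_sdiff_of_subset hh'S, hS]
            have := card_le_card hh'S
            omega
    calc (((T.biUnion (fun t => claim r (Y t) (Z t))).filter (fun e => S ⊆ e)).card : ℝ)
        ≤ ((∑ h' ∈ S.powerset, (((T.filter (fun t => h' ⊆ Y t ∧ S \ h' ⊆ Z t)).biUnion
          (fun t => (Y t ∪ Z t).image (fun y => insert y S)))).card : ℕ) : ℝ) := by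
          exact_mod_cast (card_le_card h1).trans card_biUnion_le
      _ = ∑ h' ∈ S.powerset, ((((T.filter (fun t => h' ⊆ Y t ∧ S \ h' ⊆ Z t)).biUnion
          (fun t => (Y t ∪ Z t).image (fun y => insert y S)))).card : ℝ) := by push_cast; rfl
      _ ≤ ∑ h' ∈ S.powerset, ((Cy : ℝ) + c) * b := sum_le_sum h2
      _ = (2 : ℝ) ^ (r - 1) * (((Cy : ℝ) + c) * b) := by
          rw [sum_const, card_powerset, hS, nsmul_eq_mul]; push_cast; rfl
      _ ≤ (2 : ℝ) ^ r * (((Cy : ℝ) + c) * b) := by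
          refine mul_le_mul_of_nonneg_right ?_ (by positivity)
          exact pow_le_pow_right₀ (by norm_num) (Nat.sub_le _ _)
      _ = _ := by ring
  · have h0 : (T.biUnion (fun t => claim r (Y t) (Z t))).filter (fun e => S ⊆ e) = ∅ := by
      rw [filter_eq_empty_iff]
      intro e he hSe
      obtain ⟨t, ht, het⟩ := mem_biUnion.1 he
      obtain ⟨he3, -, -⟩ := mem_claim.1 het
      exact hSn (hSe.trans (he3.trans (union_subset (hY t ht).1 (hZ t ht).1)))
    rw [h0]
    simp only [card_empty, Nat.cast_zero]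
    positivity

/-- mean of a statistic -/
lemma emb_mean {ι : Type} (n r c : ℕ) (hn0 : 0 < n) (T : Finset ι) (X : ι → Finset ℕ) (Γ ε : ℝ)
    (hΓ : 1 ≤ Γ) (hX : ∀ t ∈ T, (n : ℝ) ≤ Γ * ((X t).card : ℝ) ∧ c ≤ (X t).card)
    (a : ι → ℝ) (ha : ∀ t ∈ T, 0 ≤ a t) (i : ℕ) (hs : ∑ t ∈ T, a t ≤ ε * (n : ℝ) ^ (r - i))
    (h'' : Finset ℕ) (hi : i + h''.card < r) :
    ∑ t ∈ T, (∑ Z ∈ powersetCard c (X t), if h'' ⊆ Z then a t else 0) /
      ((powersetCard c (X t)).card : ℝ) ≤
    ((c : ℝ) * Γ) ^ h''.card * ε * (n : ℝ) ^ (r - i - h''.card) := by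
  have hnR : (0 : ℝ) < n := by exact_mod_cast hn0
  have hp : (0 : ℝ) < (n : ℝ) ^ h''.card := by positivity
  have h1 : ∀ t ∈ T, (∑ Z ∈ powersetCard c (X t), if h'' ⊆ Z then a t else 0) /
      ((powersetCard c (X t)).card : ℝ) * (n : ℝ) ^ h''.card ≤ ((c : ℝ) * Γ) ^ h''.card * a t := by
    intro t ht
    have h2 := emb_frac' (X t) h'' c n (hX t ht).2 Γ (hX t ht).1 hΓ
    have h3 : (0 : ℝ) < ((powersetCard c (X t)).card : ℝ) := by
      have : 0 < (powersetCard c (X t)).card := by
        rw [card_powersetCard]; exact Nat.choose_pos (hX t ht).2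
      exact_mod_cast this
    rw [← sum_filter, sum_const, nsmul_eq_mul, div_mul_eq_mul_div, div_le_iff₀ h3]
    have h4 := mul_le_mul_of_nonneg_left h2 (ha t ht)
    nlinarith
  refine le_of_mul_le_mul_right ?_ hp
  rw [sum_mul]
  calc ∑ t ∈ T, (∑ Z ∈ powersetCard c (X t), if h'' ⊆ Z then a t else 0) /
      ((powersetCard c (X t)).card : ℝ) * (n : ℝ) ^ h''.card
      ≤ ∑ t ∈ T, ((c : ℝ) * Γ) ^ h''.card * a t := sum_le_sum h1
    _ = ((c : ℝ) * Γ) ^ h''.card * ∑ t ∈ T, a t := by rw [mul_sum]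
    _ ≤ ((c : ℝ) * Γ) ^ h''.card * (ε * (n : ℝ) ^ (r - i)) :=
        mul_le_mul_of_nonneg_left hs (by positivity)
    _ = _ := by
        have : (n : ℝ) ^ (r - i) = (n : ℝ) ^ (r - i - h''.card) * (n : ℝ) ^ h''.card := by
          rw [← pow_add]; congr 1; omega
        rw [this]; ring

/-- number of statistics -/
lemma emb_stat_card (r n : ℕ) (hn : 0 < n) :
    (((((range n).powerset.filter (fun h => h.card < r)) ×ˢ
      ((range n).powerset.filter (fun h => h.card < r))) ×ˢ (univ : Finset Bool)).card) ≤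
      (n + 1) ^ (4 * r + 1) := by
  have h1 : ((range n).powerset.filter (fun h => h.card < r)).card ≤ (n + 1) ^ (2 * r) := by
    have h2 : (range n).powerset.filter (fun h => h.card < r) ⊆
        (range r).biUnion (fun i => powersetCard i (range n)) := by
      intro h hh
      obtain ⟨h3, h4⟩ := mem_filter.1 hh
      rw [mem_biUnion]
      exact ⟨h.card, mem_range.2 h4, mem_powersetCard.2 ⟨mem_powerset.1 h3, rfl⟩⟩
    calc ((range n).powerset.filter (fun h => h.card < r)).card
        ≤ ∑ i ∈ range r, (powersetCard i (range n)).card := (card_le_card h2).trans card_biUnion_le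
      _ ≤ ∑ i ∈ range r, (n + 1) ^ r := by
          refine sum_le_sum fun i hi => ?_
          rw [card_powersetCard, card_range]
          refine (Nat.choose_le_pow _ _).trans ?_
          refine (Nat.pow_le_pow_left (Nat.le_succ n) i).trans ?_
          exact Nat.pow_le_pow_right (Nat.succ_pos n) (mem_range.1 hi).le
      _ = r * (n + 1) ^ r := by rw [sum_const, card_range, smul_eq_mul]
      _ ≤ (n + 1) ^ r * (n + 1) ^ r := by
          refine Nat.mul_le_mul_right _ ?_
          refine Nat.lt_two_pow_self.le.trans ?_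
          exact Nat.pow_le_pow_left (by omega) r
      _ = (n + 1) ^ (2 * r) := by rw [← pow_add]; congr 1; ring
  rw [card_product, card_product, card_univ, Fintype.card_bool]
  calc _ ≤ (n + 1) ^ (2 * r) * (n + 1) ^ (2 * r) * (n + 1) :=
        Nat.mul_le_mul (Nat.mul_le_mul h1 h1) (by omega)
    _ = (n + 1) ^ (4 * r + 1) := by ring

theorem emb (r c Cy Cm : ℕ) (hr : 1 ≤ r) (hc : 1 ≤ c) : ∃ Kc : ℝ, 1 ≤ Kc ∧
    ∀ (n : ℕ) (ι κ : Type) [DecidableEq ι] [DecidableEq κ] (T : Finset ι) (Y X : ι → Finset ℕ)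
      (Mk : Finset κ) (tk : κ → ι) (Ym : κ → Finset ℕ) (F : Finset (Finset ℕ)) (Γ ε : ℝ),
      1 ≤ Γ → 0 < ε → Kc * Γ ^ (2 * r) * ε ≤ 1 → Kc * Real.log ((n : ℝ) + 1) ≤ ε * n →
      (∀ t ∈ T, Y t ⊆ range n ∧ (Y t).card ≤ Cy ∧ X t ⊆ range n ∧ Disjoint (X t) (Y t) ∧
        (n : ℝ) ≤ Γ * ((X t).card : ℝ)) →
      (∀ μ ∈ Mk, tk μ ∈ T ∧ Ym μ ⊆ range n) →
      (∀ t ∈ T, (Mk.filter (fun μ => tk μ = t)).card ≤ Cm) →
      F ⊆ powersetCard r (range n) → DegLe (r - 1) F (ε * n) →
      (∀ h : Finset ℕ, h.card < r →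
        ((T.filter (fun t => h ⊆ Y t)).card : ℝ) ≤ ε * (n : ℝ) ^ (r - h.card)) →
      (∀ h : Finset ℕ, h.card < r →
        ((Mk.filter (fun μ => h ⊆ Ym μ)).card : ℝ) ≤ ε * (n : ℝ) ^ (r - h.card)) →
      ∃ Z : ι → Finset ℕ, (∀ t ∈ T, Z t ⊆ X t ∧ (Z t).card = c) ∧
        (∀ t ∈ T, Disjoint (claim r (Y t) (Z t)) F) ∧
        (∀ t ∈ T, ∀ t' ∈ T, t ≠ t' →
          Disjoint (claim r (Y t) (Z t)) (claim r (Y t') (Z t'))) ∧
        DegLe (r - 1) (T.biUnion (fun t => claim r (Y t) (Z t))) (Kc * Γ ^ r * ε * n) ∧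
        ∀ h' h'' : Finset ℕ, h'.card + h''.card < r →
          ((Mk.filter (fun μ => h' ⊆ Ym μ ∧ h'' ⊆ Z (tk μ))).card : ℝ) ≤
            Kc * Γ ^ r * ε * (n : ℝ) ^ (r - h'.card - h''.card) := by
  -- the constant
  set A1 : ℝ := 2 ^ r * ((Cy : ℝ) + c) * (5 * (c : ℝ) ^ r) with hA1
  have hcR : (1 : ℝ) ≤ c := by exact_mod_cast hc
  have hA1' : 0 ≤ A1 := by positivity
  refine ⟨2 * (2 ^ Cy * (c : ℝ) ^ r * (A1 + 1)) + ((Cm : ℝ) + 1) * (5 * (c : ℝ) ^ r) + A1 +
    2 * c + (4 * r + 1), by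
      have : (0 : ℝ) ≤ r := Nat.cast_nonneg r
      have h1 : 0 ≤ 2 ^ Cy * (c : ℝ) ^ r * (A1 + 1) := by positivity
      have h2 : 0 ≤ ((Cm : ℝ) + 1) * (5 * (c : ℝ) ^ r) := by positivity
      linarith, ?_⟩
  set Kc : ℝ := 2 * (2 ^ Cy * (c : ℝ) ^ r * (A1 + 1)) + ((Cm : ℝ) + 1) * (5 * (c : ℝ) ^ r) + A1 +
    2 * c + (4 * r + 1) with hKc
  have p1 : 0 ≤ 2 ^ Cy * (c : ℝ) ^ r * (A1 + 1) := by positivity
  have p2 : 0 ≤ ((Cm : ℝ) + 1) * (5 * (c : ℝ) ^ r) := by positivity
  have p3 : (0 : ℝ) ≤ r := Nat.cast_nonneg r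
  have K1 : 2 * (2 ^ Cy * (c : ℝ) ^ r * (A1 + 1)) ≤ Kc := by linarith
  have K2 : ((Cm : ℝ) + 1) * (5 * (c : ℝ) ^ r) ≤ Kc := by linarith
  have K3 : A1 ≤ Kc := by linarith
  have K4 : 2 * (c : ℝ) ≤ Kc := by linarith
  have K5 : 4 * (r : ℝ) + 1 ≤ Kc := by linarith
  have K0 : 1 ≤ Kc := by linarith
  clear_value Kc
  intro n ι κ _ _ T Y X Mk tk Ym F Γ ε hΓ hε hKε hlog hT hMk hCm hF hFd hTc hMc
  rcases Nat.eq_zero_or_pos n with rfl | hn0
  · -- `n = 0`
    have hT0 : T = ∅ := by
      have h1 := hTc ∅ (by rw [card_empty]; omega)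
      simp only [empty_subset, filter_true, card_empty, Nat.sub_zero, Nat.cast_zero] at h1
      rw [zero_pow (by omega), mul_zero] at h1
      have h2 : T.card = 0 := by
        have : (T.card : ℝ) ≤ 0 := h1
        exact_mod_cast this.antisymm (Nat.cast_nonneg _)
      exact card_eq_zero.1 h2
    have hM0 : Mk = ∅ := by
      rw [eq_empty_iff_forall_notMem]
      intro μ hμ
      have := (hMk μ hμ).1
      rw [hT0] at this
      simp at this
    subst hT0
    subst hM0
    refine ⟨fun _ => ∅, by simp, by simp, by simp, ?_, ?_⟩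
    · intro S hS
      simp
    · intro h' h'' hh
      simp only [filter_empty, card_empty, Nat.cast_zero]
      positivity
  have hnR : (0 : ℝ) < n := by exact_mod_cast hn0
  have hn1 : (1 : ℝ) ≤ n := by exact_mod_cast hn0
  have hcΓ : 1 ≤ (c : ℝ) * Γ := by nlinarith
  have hΓ2 : 1 ≤ Γ ^ (2 * r) := one_le_pow₀ hΓ
  -- sizes of the universes
  have hlog1 : (1 : ℝ) / 2 ≤ Real.log ((n : ℝ) + 1) := by
    have h1 : Real.log 2 ≤ Real.log ((n : ℝ) + 1) :=
      Real.log_le_log (by norm_num) (by linarith)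
    have := Real.log_two_gt_d9
    linarith
  have hlog0 : 0 ≤ Real.log ((n : ℝ) + 1) := by linarith
  have hXc : ∀ t ∈ T, c ≤ (X t).card := by
    intro t ht
    have h1 := (hT t ht).2.2.2.2
    have h2 : (c : ℝ) * Γ ≤ n := by
      have h3 : Kc * (1 / 2) ≤ ε * n :=
        le_trans (mul_le_mul_of_nonneg_left hlog1 (by linarith)) hlog
      have h4 : (c : ℝ) ≤ ε * n := by linarith
      have h5 : Γ ≤ Γ ^ (2 * r) := le_self_pow₀ hΓ (by omega)
      have h6 : Γ ^ (2 * r) * ε ≤ 1 := by
        have : Γ ^ (2 * r) * ε ≤ Kc * (Γ ^ (2 * r) * ε) :=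
          le_mul_of_one_le_left (by positivity) K0
        linarith
      calc (c : ℝ) * Γ ≤ (ε * n) * Γ ^ (2 * r) := by gcongr
        _ = (Γ ^ (2 * r) * ε) * n := by ring
        _ ≤ 1 * n := by gcongr
        _ = n := one_mul _
    have h3 : (c : ℝ) * Γ ≤ Γ * ((X t).card : ℝ) := h2.trans h1
    have h4 : (c : ℝ) ≤ ((X t).card : ℝ) := by
      refine le_of_mul_le_mul_left (a := Γ) ?_ (by linarith)
      linarith
    exact_mod_cast h4
  -- statistics
  set P := (range n).powerset.filter (fun h => h.card < r) with hP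
  set Rs : Finset ((Finset ℕ × Finset ℕ) × Bool) :=
    ((P ×ˢ P) ×ˢ (univ : Finset Bool)).filter (fun R => R.1.1.card + R.1.2.card < r) with hRs
  have hRs_mem : ∀ h' h'' : Finset ℕ, ∀ b : Bool, h' ⊆ range n → h'' ⊆ range n →
      h'.card + h''.card < r → ((h', h''), b) ∈ Rs := by
    intro h' h'' b h1 h2 h3
    rw [hRs, mem_filter, mem_product, mem_product, hP]
    exact ⟨⟨⟨mem_filter.2 ⟨mem_powerset.2 h1, lt_of_le_of_lt (Nat.le_add_right _ _) h3⟩,
      mem_filter.2 ⟨mem_powerset.2 h2, lt_of_le_of_lt (Nat.le_add_left _ _) h3⟩⟩,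
      mem_univ _⟩, h3⟩
  have hRs_card : Real.log (Rs.card : ℝ) ≤ ε * n := by
    have h1 : (Rs.card : ℝ) ≤ ((n : ℝ) + 1) ^ (4 * r + 1) := by
      have := (card_filter_le ((P ×ˢ P) ×ˢ (univ : Finset Bool))
        (fun R => R.1.1.card + R.1.2.card < r)).trans (emb_stat_card r n hn0)
      exact_mod_cast this
    have h2 : Real.log (Rs.card : ℝ) ≤ (4 * r + 1) * Real.log ((n : ℝ) + 1) := by
      rcases Nat.eq_zero_or_pos Rs.card with h | h
      · rw [h]; simp only [Nat.cast_zero, Real.log_zero]; positivity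
      · have h3 := Real.log_le_log (by exact_mod_cast h) h1
        rw [Real.log_pow] at h3
        push_cast at h3
        exact h3
    exact h2.trans ((mul_le_mul_of_nonneg_right K5 hlog0).trans hlog)
  -- coefficient of a statistic
  set co : (Finset ℕ × Finset ℕ) × Bool → ι → ℝ := fun R t =>
    if R.2 = true then ((Mk.filter (fun μ => tk μ = t ∧ R.1.1 ⊆ Ym μ)).card : ℝ) / ((Cm : ℝ) + 1)
    else if R.1.1 ⊆ Y t then 1 else 0 with hco
  have hco0 : ∀ R t, 0 ≤ co R t := by
    intro R t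
    simp only [hco]
    split_ifs
    · positivity
    · norm_num
    · norm_num
  have hco1 : ∀ R, ∀ t ∈ T, co R t ≤ 1 := by
    intro R t ht
    simp only [hco]
    split_ifs
    · rw [div_le_one (by positivity)]
      have h1 : (Mk.filter (fun μ => tk μ = t ∧ R.1.1 ⊆ Ym μ)).card ≤ Cm := by
        refine le_trans (card_le_card ?_) (hCm t ht)
        intro μ hμ
        rw [mem_filter] at hμ ⊢
        exact ⟨hμ.1, hμ.2.1⟩
      have h2 : ((Mk.filter (fun μ => tk μ = t ∧ R.1.1 ⊆ Ym μ)).card : ℝ) ≤ Cm := by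
        exact_mod_cast h1
      linarith
    · exact le_refl _
    · norm_num
  have hsum : ∀ R ∈ Rs, ∑ t ∈ T, co R t ≤ ε * (n : ℝ) ^ (r - R.1.1.card) := by
    intro R hR
    have hR' := (mem_filter.1 hR).2
    by_cases hb : R.2 = true
    · simp only [hco, hb, if_true]
      rw [← sum_div]
      have h1 : ∑ t ∈ T, ((Mk.filter (fun μ => tk μ = t ∧ R.1.1 ⊆ Ym μ)).card : ℝ) =
          ((Mk.filter (fun μ => R.1.1 ⊆ Ym μ)).card : ℝ) := by
        rw [card_eq_sum_card_fiberwise (f := tk) (t := T)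
          (s := Mk.filter (fun μ => R.1.1 ⊆ Ym μ))]
        · push_cast
          refine sum_congr rfl fun t _ => ?_
          rw [filter_filter]
          congr 2
          ext μ
          simp only [mem_filter]
          tauto
        · intro μ hμ
          rw [mem_coe, mem_filter] at hμ
          exact (hMk μ hμ.1).1
      rw [h1]
      refine le_trans (div_le_self (Nat.cast_nonneg _) ?_) (hMc _ (by omega))
      have : (0 : ℝ) ≤ Cm := Nat.cast_nonneg _
      linarith
    · simp only [hco, hb]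
      have h1 : ∑ t ∈ T, (if R.1.1 ⊆ Y t then (1 : ℝ) else 0) =
          ((T.filter (fun t => R.1.1 ⊆ Y t)).card : ℝ) := by
        rw [← sum_filter, sum_const, nsmul_eq_mul, mul_one]
      simp only [Bool.false_eq_true, if_false]
      rw [h1]
      exact hTc _ (by omega)
  set x : (Finset ℕ × Finset ℕ) × Bool → ι → Finset ℕ → ℝ := fun R t Z =>
    if R.1.2 ⊆ Z then co R t else 0 with hx
  set B : (Finset ℕ × Finset ℕ) × Bool → ℝ := fun R =>
    ((c : ℝ) * Γ) ^ R.1.2.card * ε * (n : ℝ) ^ (r - R.1.1.card - R.1.2.card) with hB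
  -- bound for the statistics
  have hstat : ∀ R ∈ Rs, 4 * B R + Real.log (Rs.card : ℝ) ≤
      5 * (c : ℝ) ^ r * Γ ^ (r - 1) * ε * (n : ℝ) ^ (r - R.1.1.card - R.1.2.card) := by
    intro R hR
    have hR' := (mem_filter.1 hR).2
    have h1 : (n : ℝ) ≤ (n : ℝ) ^ (r - R.1.1.card - R.1.2.card) :=
      le_self_pow₀ hn1 (by omega)
    have h2 : ((c : ℝ) * Γ) ^ R.1.2.card ≤ (c : ℝ) ^ r * Γ ^ (r - 1) := by
      rw [mul_pow]
      refine mul_le_mul ?_ ?_ (by positivity) (by positivity)
      · exact pow_le_pow_right₀ hcR (by omega)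
      · exact pow_le_pow_right₀ hΓ (by omega)
    have h3 : 1 ≤ (c : ℝ) ^ r * Γ ^ (r - 1) := by
      have h4 : 1 ≤ (c : ℝ) ^ r := one_le_pow₀ hcR
      have h5 : 1 ≤ Γ ^ (r - 1) := one_le_pow₀ hΓ
      nlinarith
    have h4 : 0 ≤ ε * (n : ℝ) ^ (r - R.1.1.card - R.1.2.card) := by positivity
    have h5 : B R ≤ (c : ℝ) ^ r * Γ ^ (r - 1) *
        (ε * (n : ℝ) ^ (r - R.1.1.card - R.1.2.card)) := by
      simp only [hB]
      rw [mul_assoc]
      exact mul_le_mul_of_nonneg_right h2 h4
    have h6 : Real.log (Rs.card : ℝ) ≤ (c : ℝ) ^ r * Γ ^ (r - 1) *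
        (ε * (n : ℝ) ^ (r - R.1.1.card - R.1.2.card)) := by
      refine hRs_card.trans ?_
      calc ε * (n : ℝ) ≤ ε * (n : ℝ) ^ (r - R.1.1.card - R.1.2.card) :=
            mul_le_mul_of_nonneg_left h1 hε.le
        _ ≤ _ := le_mul_of_one_le_left h4 h3
    nlinarith
  -- the degree of the claims chosen so far
  set D : ℝ := 2 ^ r * ((Cy : ℝ) + c) * (5 * (c : ℝ) ^ r * Γ ^ (r - 1) * ε * n) with hD
  have hD0 : 0 ≤ D := by positivity
  have hDA : D = A1 * Γ ^ (r - 1) * ε * n := by rw [hD, hA1]; ring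
  have hdeg : ∀ T' ⊆ T, ∀ w : ι → Finset ℕ, (∀ t ∈ T', w t ∈ powersetCard c (X t)) →
      (∀ R ∈ Rs, ∑ t ∈ T', x R t (w t) ≤ 4 * B R + Real.log (Rs.card : ℝ)) →
      DegLe (r - 1) (T'.biUnion (fun t => claim r (Y t) (w t))) D := by
    intro T' hT' w hw hst
    refine emb_deg n r c Cy hr T' Y w (fun t ht => ⟨(hT t (hT' ht)).1, (hT t (hT' ht)).2.1⟩)
      (fun t ht => ⟨(mem_powersetCard.1 (hw t ht)).1.trans (hT t (hT' ht)).2.2.1,
        (mem_powersetCard.1 (hw t ht)).2⟩) _ (by positivity) ?_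
    intro h' h'' h1 h2 h3
    have hR := hRs_mem h' h'' false h1 h2 (by omega)
    have h4 := (hst _ hR).trans (hstat _ hR)
    have h5 : r - h'.card - h''.card = 1 := by omega
    simp only [h5, pow_one] at h4
    refine le_trans (le_of_eq ?_) h4
    simp only [hx, hco, Bool.false_eq_true, if_false]
    rw [← nsmul_one (T'.filter _).card, ← sum_const, sum_filter]
    refine sum_congr rfl fun t _ => ?_
    by_cases a1 : h' ⊆ Y t <;> by_cases a2 : h'' ⊆ w t <;> simp [a1, a2]
  -- apply the sequential choice lemma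
  obtain ⟨w, hw1, hw2, hw3⟩ := scl T (fun t => powersetCard c (X t))
    (fun t ht => powersetCard_nonempty.2 (hXc t ht)) Rs x
    (fun R _ t _ a _ => by simp only [hx]; split_ifs; exacts [hco0 R t, le_refl _])
    (fun R _ t ht a _ => by simp only [hx]; split_ifs; exacts [hco1 R t ht, zero_le_one]) B
    (fun R hR => by
      have hR' := (mem_filter.1 hR).2
      exact emb_mean n r c hn0 T X Γ ε hΓ (fun t ht => ⟨(hT t ht).2.2.2.2, hXc t ht⟩) (co R)
        (fun t _ => hco0 R t) R.1.1.card (hsum R hR) R.1.2 hR')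
    (fun t Z => ¬ Disjoint (claim r (Y t) Z) F)
    (fun t Z t' Z' => ¬ Disjoint (claim r (Y t) Z) (claim r (Y t') Z'))
    (fun t a t' a' h h' => h (disjoint_comm.1 h'))
    (by
      intro T' hT' w hw hU hCf hst t ht htT'
      set G := F ∪ T'.biUnion (fun t => claim r (Y t) (w t)) with hG
      have hG1 : G ⊆ powersetCard r (range n) := by
        rw [hG]
        refine union_subset hF ?_
        intro e he
        obtain ⟨t', ht', he'⟩ := mem_biUnion.1 he
        obtain ⟨h3, h4, -⟩ := mem_claim.1 he'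
        refine mem_powersetCard.2 ⟨h3.trans (union_subset (hT t' (hT' ht')).1 ?_), h4⟩
        exact (mem_powersetCard.1 (hw t' ht')).1.trans (hT t' (hT' ht')).2.2.1
      have hG2 : DegLe (r - 1) G (ε * n + D) := by
        intro S hS
        have h1 := hFd S hS
        have h2 := hdeg T' hT' w hw hst S hS
        have h3 : (G.filter (fun e => S ⊆ e)).card ≤ (F.filter (fun e => S ⊆ e)).card +
            ((T'.biUnion (fun t => claim r (Y t) (w t))).filter (fun e => S ⊆ e)).card := by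
          rw [hG, filter_union]; exact card_union_le _ _
        have h4 : ((G.filter (fun e => S ⊆ e)).card : ℝ) ≤ (F.filter (fun e => S ⊆ e)).card +
            ((T'.biUnion (fun t => claim r (Y t) (w t))).filter (fun e => S ⊆ e)).card := by
          exact_mod_cast h3
        linarith
      have hb := emb_bad n r c Cy (Y t) (X t) G hG1 (ε * n + D) hG2 Γ (hT t ht).2.2.2.2 hΓ
        (hXc t ht) (hT t ht).2.1 (hT t ht).2.2.2.1 hc hn0
      refine ⟨(powersetCard c (X t)).filter (fun Z => ¬ Disjoint (claim r (Y t) Z) G),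
        filter_subset _ _, ?_, ?_⟩
      · have h1 : 2 * ((2 : ℝ) ^ Cy * (((c : ℝ) * Γ) ^ r * (ε * n + D))) ≤ n := by
          have h2 : ε * n + D ≤ (A1 + 1) * (Γ ^ r * ε * n) := by
            have h3 : 1 ≤ Γ ^ r := one_le_pow₀ hΓ
            have h4 : Γ ^ (r - 1) ≤ Γ ^ r := pow_le_pow_right₀ hΓ (Nat.sub_le _ _)
            have h5 : 0 ≤ ε * n := by positivity
            have h6 : ε * n ≤ Γ ^ r * ε * n := by nlinarith
            have h7 : D ≤ A1 * (Γ ^ r * ε * n) := by
              rw [hDA]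
              have : Γ ^ (r - 1) * (ε * n) ≤ Γ ^ r * (ε * n) :=
                mul_le_mul_of_nonneg_right h4 h5
              nlinarith
            linarith
          calc 2 * ((2 : ℝ) ^ Cy * (((c : ℝ) * Γ) ^ r * (ε * n + D)))
              ≤ 2 * ((2 : ℝ) ^ Cy * (((c : ℝ) * Γ) ^ r * ((A1 + 1) * (Γ ^ r * ε * n)))) := by
                gcongr
            _ = (2 * (2 ^ Cy * (c : ℝ) ^ r * (A1 + 1))) * (Γ ^ (2 * r) * ε * n) := by
                rw [mul_pow, two_mul r, pow_add]; ring
            _ ≤ Kc * (Γ ^ (2 * r) * ε * n) := by gcongr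
            _ = (Kc * Γ ^ (2 * r) * ε) * n := by ring
            _ ≤ 1 * n := by gcongr
            _ = n := one_mul _
        have h2 : (2 * (((powersetCard c (X t)).filter
            (fun Z => ¬ Disjoint (claim r (Y t) Z) G)).card : ℝ)) * n ≤
            n * ((powersetCard c (X t)).card : ℝ) := by
          calc (2 * (((powersetCard c (X t)).filter
            (fun Z => ¬ Disjoint (claim r (Y t) Z) G)).card : ℝ)) * n =
              2 * ((((powersetCard c (X t)).filter
            (fun Z => ¬ Disjoint (claim r (Y t) Z) G)).card : ℝ) * n) := by ring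
            _ ≤ 2 * (2 ^ Cy * (((c : ℝ) * Γ) ^ r * (ε * n + D)) *
              ((powersetCard c (X t)).card : ℝ)) := by linarith
            _ = (2 * ((2 : ℝ) ^ Cy * (((c : ℝ) * Γ) ^ r * (ε * n + D)))) *
              ((powersetCard c (X t)).card : ℝ) := by ring
            _ ≤ n * ((powersetCard c (X t)).card : ℝ) :=
              mul_le_mul_of_nonneg_right h1 (Nat.cast_nonneg _)
        have h3 : 2 * (((powersetCard c (X t)).filter
            (fun Z => ¬ Disjoint (claim r (Y t) Z) G)).card : ℝ) ≤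
            ((powersetCard c (X t)).card : ℝ) := by
          refine le_of_mul_le_mul_left (a := (n : ℝ)) ?_ hnR
          linarith
        exact_mod_cast h3
      · intro Z hZ hZ'
        have h1 : Disjoint (claim r (Y t) Z) G := by
          by_contra h
          exact hZ' (mem_filter.2 ⟨hZ, h⟩)
        rw [hG, disjoint_union_right] at h1
        refine ⟨fun h => h h1.1, fun t' ht' h => h ?_⟩
        refine (h1.2.mono_right ?_).symm
        exact subset_biUnion_of_mem (fun t => claim r (Y t) (w t)) ht')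
  refine ⟨w, fun t ht => mem_powersetCard.1 (hw1 t ht).1, fun t ht => ?_, ?_, ?_, ?_⟩
  · exact not_not.1 (hw1 t ht).2
  · intro t ht t' ht' hne
    exact not_not.1 (hw2 t ht t' ht' hne)
  · intro S hS
    refine (hdeg T (Subset.refl _) w (fun t ht => (hw1 t ht).1) hw3 S hS).trans ?_
    rw [hDA]
    have h4 : Γ ^ (r - 1) ≤ Γ ^ r := pow_le_pow_right₀ hΓ (Nat.sub_le _ _)
    gcongr
  · intro h' h'' hh
    by_cases h1 : h' ⊆ range n
    · by_cases h2 : h'' ⊆ range n
      · have hR := hRs_mem h' h'' true h1 h2 hh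
        have h3 := (hw3 _ hR).trans (hstat _ hR)
        have h4 : ∑ t ∈ T, x ((h', h''), true) t (w t) =
            ((Mk.filter (fun μ => h' ⊆ Ym μ ∧ h'' ⊆ w (tk μ))).card : ℝ) / ((Cm : ℝ) + 1) := by
          simp only [hx, hco, if_true]
          rw [card_eq_sum_card_fiberwise (f := tk) (t := T)
            (s := Mk.filter (fun μ => h' ⊆ Ym μ ∧ h'' ⊆ w (tk μ)))]
          · push_cast
            rw [sum_div]
            refine sum_congr rfl fun t _ => ?_
            split_ifs with h5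
            · congr 3
              rw [filter_filter]
              ext μ
              simp only [mem_filter]
              constructor
              · rintro ⟨a1, a2, a3⟩
                exact ⟨a1, ⟨a3, by rw [a2]; exact h5⟩, a2⟩
              · rintro ⟨a1, ⟨a2, a3⟩, a4⟩
                exact ⟨a1, a4, a2⟩
            · have h6 : (Mk.filter (fun μ => h' ⊆ Ym μ ∧ h'' ⊆ w (tk μ))).filter
                  (fun μ => tk μ = t) = ∅ := by
                rw [filter_eq_empty_iff]
                intro μ hμ h7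
                have := (mem_filter.1 hμ).2.2
                rw [h7] at this
                exact h5 this
              rw [h6]; simp
          · intro μ hμ
            rw [mem_coe, mem_filter] at hμ
            exact (hMk μ hμ.1).1
        rw [h4, div_le_iff₀ (by positivity)] at h3
        refine h3.trans ?_
        have h5 : Γ ^ (r - 1) ≤ Γ ^ r := pow_le_pow_right₀ hΓ (Nat.sub_le _ _)
        calc 5 * (c : ℝ) ^ r * Γ ^ (r - 1) * ε * (n : ℝ) ^ (r - h'.card - h''.card) *
              ((Cm : ℝ) + 1)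
            = (((Cm : ℝ) + 1) * (5 * (c : ℝ) ^ r)) * Γ ^ (r - 1) * ε *
              (n : ℝ) ^ (r - h'.card - h''.card) := by ring
          _ ≤ Kc * Γ ^ r * ε * (n : ℝ) ^ (r - h'.card - h''.card) := by gcongr
      · have h3 : Mk.filter (fun μ => h' ⊆ Ym μ ∧ h'' ⊆ w (tk μ)) = ∅ := by
          rw [filter_eq_empty_iff]
          intro μ hμ h4
          have h5 := (hMk μ hμ).1
          exact h2 (h4.2.trans ((mem_powersetCard.1 (hw1 _ h5).1).1.trans (hT _ h5).2.2.1))
        rw [h3, card_empty, Nat.cast_zero]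
        positivity
    · have h3 : Mk.filter (fun μ => h' ⊆ Ym μ ∧ h'' ⊆ w (tk μ)) = ∅ := by
        rw [filter_eq_empty_iff]
        intro μ hμ h4
        exact h1 (h4.1.trans (hMk μ hμ).2)
      rw [h3, card_empty, Nat.cast_zero]
      positivity

end Pool.Agent.Kv
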