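import Mathlib

set_option autoImplicit false

/-! # Counting lemmas for the nibble -/

namespace Pool.Agent.Kv.NibS

open Finset

variable {γ : Type} [DecidableEq γ] (Hy : Finset (Finset γ)) (w : Finset γ → ℝ)

/-- the hyperedges inside `A` -/
def nH (A : Finset γ) : Finset (Finset γ) := Hy.filter (fun Q => Q ⊆ A)

/-- the weighted degree inside `A` -/
def nW (A : Finset γ) (e : γ) : ℝ := ∑ Q ∈ nH Hy A, if e ∈ Q then w Q else 0

/-- indicator: `e ∉ Q` and `Q' ∩ Q ≠ ∅` -/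
def nI (e : γ) (Q' Q : Finset γ) : ℝ := if e ∉ Q ∧ ¬ Disjoint Q' Q then 1 else 0

/-- the loss of weight at `e` after removing `Q` -/
def nD (A : Finset γ) (e : γ) (Q : Finset γ) : ℝ :=
  ∑ Q' ∈ nH Hy A, (if e ∈ Q' then w Q' else 0) * nI e Q' Q

lemma nI_nonneg (e : γ) (Q' Q : Finset γ) : 0 ≤ nI e Q' Q := by
  unfold nI; split_ifs <;> norm_num

lemma mem_nH {A Q : Finset γ} : Q ∈ nH Hy A ↔ Q ∈ Hy ∧ Q ⊆ A := by
  unfold nH; rw [mem_filter]

lemma nW_sdiff (A : Finset γ) (e : γ) (Q : Finset γ) (he : e ∉ Q) :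
    nW Hy w (A \ Q) e = nW Hy w A e - nD Hy w A e Q := by
  unfold nW nD
  rw [← Finset.sum_sub_distrib]
  have h1 : nH Hy (A \ Q) = (nH Hy A).filter (fun Q' => Disjoint Q' Q) := by
    ext R
    simp only [mem_nH, mem_filter, Finset.subset_sdiff, and_assoc]
  rw [h1, Finset.sum_filter]
  apply Finset.sum_congr rfl
  intro Q' _
  unfold nI
  by_cases h2 : Disjoint Q' Q <;> simp [h2, he]

lemma nW_nonneg (hw : ∀ Q ∈ Hy, 0 ≤ w Q) (A : Finset γ) (e : γ) : 0 ≤ nW Hy w A e := by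
  unfold nW
  apply Finset.sum_nonneg
  intro Q hQ
  split_ifs
  · exact hw Q ((mem_nH Hy).1 hQ).1
  · exact le_rfl

lemma nD_nonneg (hw : ∀ Q ∈ Hy, 0 ≤ w Q) (A : Finset γ) (e : γ) (Q : Finset γ) :
    0 ≤ nD Hy w A e Q := by
  unfold nD
  apply Finset.sum_nonneg
  intro Q' hQ'
  apply mul_nonneg _ (nI_nonneg _ _ _)
  split_ifs
  · exact hw Q' ((mem_nH Hy).1 hQ').1
  · exact le_rfl

/-- the codegree inside `A` is at most `ν` -/
lemma codeg_le (hw : ∀ Q ∈ Hy, 0 ≤ w Q) (E : Finset γ) (ν : ℝ)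
    (hν : ∀ e ∈ E, ∀ e' ∈ E, e ≠ e' → ∑ Q ∈ Hy.filter (fun Q => e ∈ Q ∧ e' ∈ Q), w Q ≤ ν)
    (A : Finset γ) (e e' : γ) (he : e ∈ E) (he' : e' ∈ E) (hne : e ≠ e') :
    ∑ Q ∈ nH Hy A, (if e ∈ Q ∧ e' ∈ Q then w Q else 0) ≤ ν := by
  refine le_trans ?_ (hν e he e' he' hne)
  rw [Finset.sum_filter]
  apply Finset.sum_le_sum_of_subset_of_nonneg
  · intro Q hQ
    exact ((mem_nH Hy).1 hQ).1
  · intro Q hQ _
    split_ifs
    · exact hw Q hQ
    · exact le_rfl

lemma nD_le (hw : ∀ Q ∈ Hy, 0 ≤ w Q) (E : Finset γ) (ν : ℝ) (k : ℕ) (hν0 : 0 ≤ ν)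
    (hν : ∀ e ∈ E, ∀ e' ∈ E, e ≠ e' → ∑ Q ∈ Hy.filter (fun Q => e ∈ Q ∧ e' ∈ Q), w Q ≤ ν)
    (A : Finset γ) (e : γ) (Q : Finset γ) (he : e ∈ E) (hQ : Q ⊆ E) (hQk : Q.card = k) :
    nD Hy w A e Q ≤ k * ν := by
  by_cases heQ : e ∈ Q
  · have : nD Hy w A e Q = 0 := by
      unfold nD nI
      apply Finset.sum_eq_zero
      intro Q' _
      simp [heQ]
    rw [this]
    positivity
  · have h1 : nD Hy w A e Q ≤ ∑ Q' ∈ nH Hy A, ∑ f ∈ Q, (if e ∈ Q' ∧ f ∈ Q' then w Q' else 0) := by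
      unfold nD
      apply Finset.sum_le_sum
      intro Q' hQ'
      have hwQ := hw Q' ((mem_nH Hy).1 hQ').1
      by_cases h2 : e ∈ Q'
      · unfold nI
        by_cases h3 : Disjoint Q' Q
        · simp only [h3, not_true, and_false, if_false, mul_zero]
          apply Finset.sum_nonneg
          intro f _
          split_ifs
          · exact hwQ
          · exact le_rfl
        · simp only [h2, heQ, h3, not_false_eq_true, and_self, if_true, mul_one, true_and]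
          rw [Finset.not_disjoint_iff] at h3
          obtain ⟨f, hf1, hf2⟩ := h3
          have := Finset.single_le_sum (f := fun f => if f ∈ Q' then w Q' else 0)
            (fun i _ => by
              split_ifs
              · exact hwQ
              · exact le_rfl) hf2
          simpa [hf1] using this
      · simp only [h2, if_false, zero_mul, false_and, Finset.sum_const_zero, le_refl]
    refine le_trans h1 ?_
    rw [Finset.sum_comm]
    calc ∑ f ∈ Q, ∑ Q' ∈ nH Hy A, (if e ∈ Q' ∧ f ∈ Q' then w Q' else 0) ≤ ∑ f ∈ Q, ν := by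
          apply Finset.sum_le_sum
          intro f hf
          apply codeg_le Hy w hw E ν hν A e f he (hQ hf)
          rintro rfl
          exact heQ hf
      _ = k * ν := by rw [Finset.sum_const, hQk, nsmul_eq_mul]

lemma total_eq (A : Finset γ) (k : ℕ) (hk : ∀ Q ∈ Hy, Q.card = k) :
    ∑ e ∈ A, nW Hy w A e = k * ∑ Q ∈ nH Hy A, w Q := by
  unfold nW
  rw [Finset.sum_comm, Finset.mul_sum]
  apply Finset.sum_congr rfl
  intro Q hQ
  obtain ⟨h1, h2⟩ := (mem_nH Hy).1 hQ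
  rw [← Finset.sum_filter, Finset.sum_const, Finset.filter_mem_eq_inter,
    Finset.inter_eq_right.2 h2, hk Q h1, nsmul_eq_mul]

lemma sum_S (A S : Finset γ) :
    ∑ Q ∈ nH Hy A, w Q * ((S ∩ Q).card : ℝ) = ∑ e ∈ S ∩ A, nW Hy w A e := by
  unfold nW
  rw [Finset.sum_comm]
  apply Finset.sum_congr rfl
  intro Q hQ
  obtain ⟨h1, h2⟩ := (mem_nH Hy).1 hQ
  rw [← Finset.sum_filter, Finset.sum_const, Finset.filter_mem_eq_inter, nsmul_eq_mul,
    Finset.inter_assoc, Finset.inter_eq_right.2 h2]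
  ring

/-- the inner sum in the mean loss -/
lemma inner_bounds (hw : ∀ Q ∈ Hy, 0 ≤ w Q) (E : Finset γ) (ν : ℝ) (k : ℕ)
    (hν : ∀ e ∈ E, ∀ e' ∈ E, e ≠ e' → ∑ Q ∈ Hy.filter (fun Q => e ∈ Q ∧ e' ∈ Q), w Q ≤ ν)
    (A : Finset γ) (hA : A ⊆ E) (e : γ) (Q' : Finset γ) (heQ : e ∈ Q') (hQA : Q' ⊆ A)
    (hQk : Q'.card = k) (a1 a2 : ℝ) (ha : ∀ f ∈ A, a1 ≤ nW Hy w A f ∧ nW Hy w A f ≤ a2) :
    ((k : ℝ) - 1) * a1 - k * (k - 1) * ν ≤ ∑ Q ∈ nH Hy A, w Q * nI e Q' Q ∧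
      ∑ Q ∈ nH Hy A, w Q * nI e Q' Q ≤ ((k : ℝ) - 1) * a2 := by
  have hk1 : 1 ≤ k := by
    rw [← hQk]; exact Finset.card_pos.2 ⟨e, heQ⟩
  have hce : ((Q'.erase e).card : ℝ) = (k : ℝ) - 1 := by
    rw [Finset.card_erase_of_mem heQ, hQk, Nat.cast_sub hk1, Nat.cast_one]
  have hsum : ∑ Q ∈ nH Hy A, w Q * (((Q'.erase e) ∩ Q).card : ℝ) =
      ∑ f ∈ Q'.erase e, nW Hy w A f := by
    rw [sum_S]
    congr 1
    apply Finset.inter_eq_left.2
    exact (Finset.erase_subset _ _).trans hQA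
  constructor
  · have h1 : ∑ Q ∈ nH Hy A, w Q * (((Q'.erase e) ∩ Q).card : ℝ) -
        ∑ Q ∈ nH Hy A, w Q * ((((Q' ∩ Q).offDiag).card : ℕ) : ℝ) ≤
        ∑ Q ∈ nH Hy A, w Q * nI e Q' Q := by
      rw [← Finset.sum_sub_distrib]
      apply Finset.sum_le_sum
      intro Q hQ
      have hwQ := hw Q ((mem_nH Hy).1 hQ).1
      rw [← mul_sub]
      apply mul_le_mul_of_nonneg_left _ hwQ
      have hoff : ((((Q' ∩ Q).offDiag).card : ℕ) : ℝ) =
          ((Q' ∩ Q).card : ℝ) * ((Q' ∩ Q).card : ℝ) - ((Q' ∩ Q).card : ℝ) := by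
        rw [Finset.offDiag_card, Nat.cast_sub (Nat.le_mul_self _), Nat.cast_mul]
      rw [hoff]
      unfold nI
      by_cases he : e ∈ Q
      · have hc : ((Q' ∩ Q).card : ℝ) = (((Q'.erase e) ∩ Q).card : ℝ) + 1 := by
          have : Q' ∩ Q = insert e ((Q'.erase e) ∩ Q) := by
            ext f
            simp only [mem_inter, mem_insert, mem_erase]
            constructor
            · rintro ⟨h1, h2⟩
              by_cases hf : f = e
              · exact Or.inl hf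
              · exact Or.inr ⟨⟨hf, h1⟩, h2⟩
            · rintro (rfl | ⟨⟨_, h1⟩, h2⟩)
              · exact ⟨heQ, he⟩
              · exact ⟨h1, h2⟩
          rw [this, Finset.card_insert_of_notMem (by simp)]
          push_cast; ring
        rw [if_neg (by simp [he]), hc]
        have : (0 : ℝ) ≤ (((Q'.erase e) ∩ Q).card : ℝ) := by positivity
        nlinarith
      · have hc : Q' ∩ Q = (Q'.erase e) ∩ Q := by
          ext f
          simp only [mem_inter, mem_erase]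
          constructor
          · rintro ⟨h1, h2⟩
            refine ⟨⟨?_, h1⟩, h2⟩
            rintro rfl
            exact he h2
          · rintro ⟨⟨_, h1⟩, h2⟩
            exact ⟨h1, h2⟩
        rw [← hc]
        by_cases hd : Disjoint Q' Q
        · rw [if_neg (by simp [hd])]
          have : Q' ∩ Q = ∅ := Finset.disjoint_iff_inter_eq_empty.1 hd
          rw [this]
          simp
        · rw [if_pos ⟨he, hd⟩]
          nlinarith [sq_nonneg (((Q' ∩ Q).card : ℝ) - 1)]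
    have h2 : ∑ Q ∈ nH Hy A, w Q * ((((Q' ∩ Q).offDiag).card : ℕ) : ℝ) ≤ k * (k - 1) * ν := by
      have h3 : ∑ Q ∈ nH Hy A, w Q * ((((Q' ∩ Q).offDiag).card : ℕ) : ℝ) =
          ∑ p ∈ Q'.offDiag, ∑ Q ∈ nH Hy A, (if p.1 ∈ Q ∧ p.2 ∈ Q then w Q else 0) := by
        rw [Finset.sum_comm]
        apply Finset.sum_congr rfl
        intro Q _
        rw [← Finset.sum_filter, Finset.sum_const, nsmul_eq_mul, mul_comm]
        congr 2
        congr 1
        ext ⟨f, g⟩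
        simp only [mem_offDiag, mem_inter, mem_filter]
        tauto
      rw [h3]
      calc ∑ p ∈ Q'.offDiag, ∑ Q ∈ nH Hy A, (if p.1 ∈ Q ∧ p.2 ∈ Q then w Q else 0) ≤
          ∑ p ∈ Q'.offDiag, ν := by
            apply Finset.sum_le_sum
            intro p hp
            rw [mem_offDiag] at hp
            exact codeg_le Hy w hw E ν hν A p.1 p.2 (hA (hQA hp.1)) (hA (hQA hp.2.1)) hp.2.2
        _ = k * (k - 1) * ν := by
            rw [Finset.sum_const, Finset.offDiag_card, hQk, nsmul_eq_mul,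
              Nat.cast_sub (Nat.le_mul_self _), Nat.cast_mul]
            ring
    have h4 : ((k : ℝ) - 1) * a1 ≤ ∑ f ∈ Q'.erase e, nW Hy w A f := by
      calc ((k : ℝ) - 1) * a1 = ∑ f ∈ Q'.erase e, a1 := by
            rw [Finset.sum_const, nsmul_eq_mul, hce]
        _ ≤ _ := by
            apply Finset.sum_le_sum
            intro f hf
            exact (ha f (hQA (Finset.mem_of_mem_erase hf))).1
    rw [hsum] at h1
    linarith
  · have h1 : ∑ Q ∈ nH Hy A, w Q * nI e Q' Q ≤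
        ∑ Q ∈ nH Hy A, w Q * (((Q'.erase e) ∩ Q).card : ℝ) := by
      apply Finset.sum_le_sum
      intro Q hQ
      have hwQ := hw Q ((mem_nH Hy).1 hQ).1
      apply mul_le_mul_of_nonneg_left _ hwQ
      unfold nI
      split_ifs with h
      · obtain ⟨he, hd⟩ := h
        rw [Finset.not_disjoint_iff] at hd
        obtain ⟨f, hf1, hf2⟩ := hd
        have : 1 ≤ ((Q'.erase e) ∩ Q).card := by
          apply Finset.card_pos.2
          refine ⟨f, ?_⟩
          rw [mem_inter, mem_erase]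
          refine ⟨⟨?_, hf1⟩, hf2⟩
          rintro rfl
          exact he hf2
        exact_mod_cast this
      · positivity
    rw [hsum] at h1
    refine le_trans h1 ?_
    calc ∑ f ∈ Q'.erase e, nW Hy w A f ≤ ∑ f ∈ Q'.erase e, a2 := by
          apply Finset.sum_le_sum
          intro f hf
          exact (ha f (hQA (Finset.mem_of_mem_erase hf))).2
      _ = ((k : ℝ) - 1) * a2 := by rw [Finset.sum_const, nsmul_eq_mul, hce]

/-- bounds for the mean loss -/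
lemma mean_bounds (hw : ∀ Q ∈ Hy, 0 ≤ w Q) (E : Finset γ) (ν : ℝ) (k : ℕ)
    (hk : ∀ Q ∈ Hy, Q.card = k)
    (hν : ∀ e ∈ E, ∀ e' ∈ E, e ≠ e' → ∑ Q ∈ Hy.filter (fun Q => e ∈ Q ∧ e' ∈ Q), w Q ≤ ν)
    (A : Finset γ) (hA : A ⊆ E) (e : γ)
    (a1 a2 : ℝ) (ha : ∀ f ∈ A, a1 ≤ nW Hy w A f ∧ nW Hy w A f ≤ a2) :
    nW Hy w A e * (((k : ℝ) - 1) * a1 - k * (k - 1) * ν) ≤
        ∑ Q ∈ nH Hy A, w Q * nD Hy w A e Q ∧
      ∑ Q ∈ nH Hy A, w Q * nD Hy w A e Q ≤ nW Hy w A e * (((k : ℝ) - 1) * a2) := by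
  have hswap : ∑ Q ∈ nH Hy A, w Q * nD Hy w A e Q =
      ∑ Q' ∈ nH Hy A, (if e ∈ Q' then w Q' else 0) * ∑ Q ∈ nH Hy A, w Q * nI e Q' Q := by
    unfold nD
    simp only [Finset.mul_sum]
    rw [Finset.sum_comm]
    apply Finset.sum_congr rfl
    intro Q' _
    apply Finset.sum_congr rfl
    intro Q _
    ring
  rw [hswap]
  unfold nW
  rw [Finset.sum_mul, Finset.sum_mul]
  constructor
  · apply Finset.sum_le_sum
    intro Q' hQ'
    obtain ⟨h1, h2⟩ := (mem_nH Hy).1 hQ'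
    by_cases he : e ∈ Q'
    · simp only [he, if_true]
      exact mul_le_mul_of_nonneg_left
        (inner_bounds Hy w hw E ν k hν A hA e Q' he h2 (hk Q' h1) a1 a2 ha).1 (hw Q' h1)
    · simp [he]
  · apply Finset.sum_le_sum
    intro Q' hQ'
    obtain ⟨h1, h2⟩ := (mem_nH Hy).1 hQ'
    by_cases he : e ∈ Q'
    · simp only [he, if_true]
      exact mul_le_mul_of_nonneg_left
        (inner_bounds Hy w hw E ν k hν A hA e Q' he h2 (hk Q' h1) a1 a2 ha).2 (hw Q' h1)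
    · simp [he]

/-- the number of points is at least `1/ν` -/
lemma N_ge (hw : ∀ Q ∈ Hy, 0 ≤ w Q) (E : Finset γ) (ν : ℝ) (k : ℕ) (hk2 : 2 ≤ k)
    (hk : ∀ Q ∈ Hy, Q ⊆ E ∧ Q.card = k)
    (h1 : ∀ e ∈ E, ∑ Q ∈ Hy.filter (fun Q => e ∈ Q), w Q = 1)
    (hν : ∀ e ∈ E, ∀ e' ∈ E, e ≠ e' → ∑ Q ∈ Hy.filter (fun Q => e ∈ Q ∧ e' ∈ Q), w Q ≤ ν)
    (e : γ) (he : e ∈ E) : 1 ≤ (E.card : ℝ) * ν ∧ 0 ≤ ν := by
  have h2 : ∑ e' ∈ E.erase e, ∑ Q ∈ Hy.filter (fun Q => e ∈ Q ∧ e' ∈ Q), w Q = (k : ℝ) - 1 := by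
    have h3 : ∀ e' ∈ E.erase e, ∑ Q ∈ Hy.filter (fun Q => e ∈ Q ∧ e' ∈ Q), w Q =
        ∑ Q ∈ Hy.filter (fun Q => e ∈ Q), if e' ∈ Q then w Q else 0 := by
      intro e' _
      rw [← Finset.sum_filter, Finset.filter_filter]
    rw [Finset.sum_congr rfl h3, Finset.sum_comm]
    have h4 : ∀ Q ∈ Hy.filter (fun Q => e ∈ Q),
        ∑ e' ∈ E.erase e, (if e' ∈ Q then w Q else 0) = ((k : ℝ) - 1) * w Q := by
      intro Q hQ
      obtain ⟨h5, h6⟩ := mem_filter.1 hQ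
      obtain ⟨h7, h8⟩ := hk Q h5
      rw [← Finset.sum_filter, Finset.sum_const, nsmul_eq_mul]
      congr 1
      have : (E.erase e).filter (fun e' => e' ∈ Q) = Q.erase e := by
        ext f
        simp only [mem_filter, mem_erase]
        constructor
        · rintro ⟨⟨a, b⟩, c⟩; exact ⟨a, c⟩
        · rintro ⟨a, c⟩; exact ⟨⟨a, h7 c⟩, c⟩
      rw [this, Finset.card_erase_of_mem h6, h8, Nat.cast_sub (by omega), Nat.cast_one]
    rw [Finset.sum_congr rfl h4, ← Finset.mul_sum, h1 e he, mul_one]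
  have h3 : (k : ℝ) - 1 ≤ ((E.erase e).card : ℝ) * ν := by
    rw [← h2]
    calc _ ≤ ∑ e' ∈ E.erase e, ν := by
          apply Finset.sum_le_sum
          intro e' he'
          rw [mem_erase] at he'
          exact hν e he e' he'.2 (Ne.symm he'.1)
      _ = _ := by rw [Finset.sum_const, nsmul_eq_mul]
  have hk' : (2 : ℝ) ≤ k := by exact_mod_cast hk2
  have h4 : (0 : ℝ) ≤ ((E.erase e).card : ℝ) := by positivity
  have h5 : ((E.erase e).card : ℝ) ≤ (E.card : ℝ) := by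
    exact_mod_cast Finset.card_le_card (Finset.erase_subset _ _)
  have hν0 : 0 ≤ ν := by
    by_contra hneg
    rw [not_le] at hneg
    nlinarith
  exact ⟨by nlinarith, hν0⟩

end Pool.Agent.Kv.NibS
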