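import Mathlib

open Finset

namespace Pool.Agent.Kv.NibS

lemma inv_pow_bounds (b : ℕ) (η : ℝ) (h0 : 0 ≤ η) (h1 : b * η ≤ 1 / 2) (h2 : η ≤ 1 / 2) :
    0 < (1 - η) ^ b ∧ 1 + b * η ≤ ((1 - η) ^ b)⁻¹ ∧
      ((1 - η) ^ b)⁻¹ ≤ 1 + b * η + 2 * (b * η) ^ 2 := by
  have hpos : 0 < (1 - η) ^ b := by
    apply pow_pos; linarith
  have hb : 1 - b * η ≤ (1 - η) ^ b := by
    have := one_add_mul_le_pow (a := -η) (by linarith) b
    have h3 : (1 + -η) = 1 - η := by ring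
    rw [h3] at this
    linarith
  refine ⟨hpos, ?_, ?_⟩
  · rw [le_inv_comm₀ (by positivity) hpos]
    have h3 : 1 + b * η ≤ (1 + η) ^ b := one_add_mul_le_pow (by linarith) b
    have h4 : (1 + η) ^ b * (1 - η) ^ b ≤ 1 := by
      rw [← mul_pow]
      apply pow_le_one₀
      · nlinarith
      · nlinarith
    have h5 : (1 + b * η) * (1 - η) ^ b ≤ 1 :=
      le_trans (mul_le_mul_of_nonneg_right h3 hpos.le) h4
    have h6 : 0 < 1 + b * η := by positivity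
    rw [← one_div, le_div_iff₀ h6]
    linarith
  · have h7 : 0 < 1 - b * η := by linarith
    calc ((1 - η) ^ b)⁻¹ ≤ (1 - b * η)⁻¹ := inv_anti₀ h7 hb
      _ ≤ 1 + b * η + 2 * (b * η) ^ 2 := by
        rw [inv_le_iff_one_le_mul₀' h7]
        have ht : 0 ≤ b * η := by positivity
        nlinarith [mul_nonneg (sq_nonneg (b * η)) (by linarith : 0 ≤ 1 - 2 * (b * η))]

lemma exp_le_quad {y : ℝ} (h : |y| ≤ 1) : Real.exp y ≤ 1 + y + y ^ 2 := by
  have := Real.abs_exp_sub_one_sub_id_le h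
  linarith [(abs_le.1 this).2]

lemma step_mean {ι : Type*} (H : Finset ι) (P Z : ι → ℝ) (hP : ∀ i ∈ H, 0 ≤ P i)
    (hP1 : ∑ i ∈ H, P i = 1) (b k : ℕ) (hb : b ≤ k) (hk : 1 ≤ k) (η δ Δ κ u lam σ : ℝ)
    (hσ : σ = 1 ∨ σ = -1) (hη : 0 < η) (hδ : 0 < δ) (hδ1 : δ ≤ 1 / 100) (hlam : 1 ≤ lam)
    (h1 : lam * (k * η) ≤ δ / 20) (hκ : 0 ≤ κ) (h2 : lam * κ ≤ δ / 20)
    (hZ : ∀ i ∈ H, 0 ≤ Z i ∧ Z i ≤ κ) (hu0 : 0 ≤ u) (hu : u ≤ 1 + 2 * δ)
    (hm1 : ∑ i ∈ H, P i * Z i ≤ u * (b * η) * (1 + 5 * δ))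
    (hm2 : u * (b * η) * (1 - 5 * δ) ≤ ∑ i ∈ H, P i * Z i)
    (hΔ1 : 8 * (k * η) * δ ≤ Δ) (hΔ2 : Δ ≤ 16 * (k * η) * δ) :
    ∑ i ∈ H, P i * Real.exp (lam * (σ * (((1 - η) ^ b)⁻¹ * (u - Z i) - u) - Δ)) ≤ 1 := by
  set q : ℝ := k * η with hq
  set t : ℝ := b * η with ht
  have hk' : (1 : ℝ) ≤ k := by exact_mod_cast hk
  have hq0 : 0 < q := by positivity
  have ht0 : 0 ≤ t := by positivity
  have htq : t ≤ q := by
    have : (b : ℝ) ≤ k := by exact_mod_cast hb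
    exact mul_le_mul_of_nonneg_right this hη.le
  have hqδ : q ≤ δ / 20 := by nlinarith
  have hκδ : κ ≤ δ / 20 := by nlinarith
  have hηq : η ≤ q := by nlinarith
  obtain ⟨hg0, hg1, hg2⟩ := inv_pow_bounds b η hη.le (by rw [← ht]; linarith) (by linarith)
  set g : ℝ := ((1 - η) ^ b)⁻¹ with hg
  rw [← ht] at hg1 hg2
  have hg3 : g ≤ 1 + (1001 / 1000) * t := by nlinarith
  have hg4 : g ≤ 1001 / 1000 := by nlinarith
  have hg5 : 1 ≤ g := by linarith
  -- pointwise bound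
  set y : ι → ℝ := fun i => lam * (σ * (g * (u - Z i) - u) - Δ) with hy
  have hσ2 : σ ^ 2 = 1 := by rcases hσ with h | h <;> rw [h] <;> norm_num
  have hgu0 : 0 ≤ (g - 1) * u := mul_nonneg (by linarith) hu0
  have hgu : (g - 1) * u ≤ (103 / 100) * q := by
    have : (g - 1) * u ≤ ((1001 / 1000) * t) * (1 + 2 * δ) :=
      mul_le_mul (by linarith) hu hu0 (by positivity)
    nlinarith
  have hΔ0 : 0 ≤ Δ := le_trans (by positivity) hΔ1
  have hΔ3 : Δ ≤ (16 / 100) * q := by nlinarith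
  have habs : ∀ i ∈ H, |σ * (g * (u - Z i) - u) - Δ| ≤ 2 * q + 2 * κ := by
    intro i hi
    obtain ⟨hz0, hz1⟩ := hZ i hi
    have e1 : g * (u - Z i) - u = (g - 1) * u - g * Z i := by ring
    have e2 : g * Z i ≤ (1001 / 1000) * κ := mul_le_mul hg4 hz1 hz0 (by norm_num)
    have e3 : 0 ≤ g * Z i := by positivity
    rw [e1, abs_le]
    rcases hσ with h | h <;> rw [h] <;> constructor <;> linarith
  have hy1 : ∀ i ∈ H, |y i| ≤ 1 := by
    intro i hi
    have := habs i hi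
    simp only [hy]
    rw [abs_mul, abs_of_pos (by linarith : 0 < lam)]
    have h3 : lam * |σ * (g * (u - Z i) - u) - Δ| ≤ lam * (2 * q + 2 * κ) :=
      mul_le_mul_of_nonneg_left this (by linarith)
    have h4 : lam * (2 * q + 2 * κ) = 2 * (lam * q) + 2 * (lam * κ) := by ring
    linarith
  have hy2 : ∀ i ∈ H, (y i) ^ 2 ≤ lam ^ 2 * (5 * q ^ 2 + 5 * (κ * Z i)) := by
    intro i hi
    obtain ⟨hz0, hz1⟩ := hZ i hi
    simp only [hy]
    rw [mul_pow]
    apply mul_le_mul_of_nonneg_left _ (by positivity)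
    have e1 : g * (u - Z i) - u = (g - 1) * u - g * Z i := by ring
    rw [e1]
    have e0 : (σ * ((g - 1) * u - g * Z i) - Δ) ^ 2 ≤
        4 * ((g - 1) * u) ^ 2 + 4 * (g * Z i) ^ 2 + 2 * Δ ^ 2 := by
      have : (σ * ((g - 1) * u - g * Z i) - Δ) ^ 2 ≤ 2 * (σ * ((g - 1) * u - g * Z i)) ^ 2
          + 2 * Δ ^ 2 := by nlinarith [sq_nonneg (σ * ((g - 1) * u - g * Z i) + Δ)]
      rw [mul_pow, hσ2, one_mul] at this
      nlinarith [sq_nonneg ((g - 1) * u + g * Z i)]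
    have e2 : ((g - 1) * u) ^ 2 ≤ ((103 / 100) * q) ^ 2 := pow_le_pow_left₀ hgu0 hgu 2
    have e3 : (g * Z i) ^ 2 ≤ (1001 / 1000) ^ 2 * (κ * Z i) := by
      rw [mul_pow]
      apply mul_le_mul
      · exact pow_le_pow_left₀ (by linarith) hg4 2
      · rw [sq]; exact mul_le_mul_of_nonneg_right hz1 hz0
      · positivity
      · positivity
    have e4 : Δ ^ 2 ≤ ((16 / 100) * q) ^ 2 := pow_le_pow_left₀ hΔ0 hΔ3 2
    have e5 : 0 ≤ κ * Z i := mul_nonneg hκ hz0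
    nlinarith [sq_nonneg q]
  -- sum
  set m : ℝ := ∑ i ∈ H, P i * Z i with hm
  have hsum : ∑ i ∈ H, P i * Real.exp (y i) ≤
      ∑ i ∈ H, (P i + P i * y i + P i * (lam ^ 2 * (5 * q ^ 2 + 5 * (κ * Z i)))) := by
    apply Finset.sum_le_sum
    intro i hi
    have h3 := exp_le_quad (hy1 i hi)
    have h4 := hy2 i hi
    have h5 := hP i hi
    nlinarith
  have hlin : ∑ i ∈ H, (P i + P i * y i + P i * (lam ^ 2 * (5 * q ^ 2 + 5 * (κ * Z i)))) =
      1 + lam * (σ * (g * (u - m) - u) - Δ) + lam ^ 2 * (5 * q ^ 2 + 5 * (κ * m)) := by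
    have : ∀ i ∈ H, (P i + P i * y i + P i * (lam ^ 2 * (5 * q ^ 2 + 5 * (κ * Z i)))) =
        P i * (1 + lam * (σ * (g * u - u) - Δ) + lam ^ 2 * (5 * q ^ 2)) +
          (P i * Z i) * (-(lam * σ * g) + lam ^ 2 * 5 * κ) := by
      intro i _
      simp only [hy]
      ring
    rw [Finset.sum_congr rfl this, Finset.sum_add_distrib, ← Finset.sum_mul, ← Finset.sum_mul,
      hP1, ← hm]
    ring
  have hm0 : 0 ≤ m := Finset.sum_nonneg (fun i hi => mul_nonneg (hP i hi) (hZ i hi).1)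
  have hut : 0 ≤ u * t := mul_nonneg hu0 ht0
  have hutq : u * t ≤ (102 / 100) * q := by nlinarith
  have hmq : m ≤ (11 / 10) * q := by nlinarith
  have hdrift : σ * (g * (u - m) - u) ≤ 6 * q * δ := by
    -- g (u - m) - u = (g-1) u - g m
    have e1 : g * (u - m) - u = (g - 1) * u - g * m := by ring
    have f1 : (g - 1) * u ≤ (t + 2 * t ^ 2) * u := mul_le_mul_of_nonneg_right (by linarith) hu0
    have f2 : t * u ≤ (g - 1) * u := mul_le_mul_of_nonneg_right (by linarith) hu0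
    have f3 : g * m ≤ (1 + t + 2 * t ^ 2) * m := mul_le_mul_of_nonneg_right (by linarith) hm0
    have f4 : (1 + t) * m ≤ g * m := mul_le_mul_of_nonneg_right (by linarith) hm0
    have f5 : t ^ 2 ≤ q * (δ / 20) := by nlinarith
    have f6 : t * m ≤ (11 / 10) * q * (δ / 20) := by nlinarith
    rw [e1]
    rcases hσ with h | h
    · rw [h]
      -- (g-1)u - g m ≤ (t+2t²)u - (1+t) m ≤ t u + 2 t² u - m
      have g1 : m ≥ u * t * (1 - 5 * δ) := hm2
      have g2 : t ^ 2 * u ≤ (102 / 100) * (q * (δ / 20)) := by nlinarith [sq_nonneg t]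
      have g3 : 0 ≤ t * m := mul_nonneg ht0 hm0
      nlinarith
    · rw [h]
      have g1 : m ≤ u * t * (1 + 5 * δ) := hm1
      have g2 : t ^ 2 * m ≤ t * m := by nlinarith [mul_nonneg ht0 hm0]
      nlinarith
  have hsec : lam ^ 2 * (5 * q ^ 2 + 5 * (κ * m)) ≤ lam * (q * δ) := by
    have a1 : lam * (lam * q) * (5 * q) ≤ lam * (δ / 20) * (5 * q) := by
      apply mul_le_mul_of_nonneg_right _ (by positivity)
      exact mul_le_mul_of_nonneg_left h1 (by linarith)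
    have a2 : lam * (lam * κ) * (5 * m) ≤ lam * (δ / 20) * (5 * m) := by
      apply mul_le_mul_of_nonneg_right _ (by positivity)
      exact mul_le_mul_of_nonneg_left h2 (by linarith)
    have a3 : lam * (δ / 20) * (5 * m) ≤ lam * (δ / 20) * (5 * ((11 / 10) * q)) := by
      apply mul_le_mul_of_nonneg_left _ (by positivity)
      linarith
    have a4 : 0 ≤ lam * (q * δ) := by positivity
    nlinarith
  have hfin : lam * (σ * (g * (u - m) - u) - Δ) ≤ lam * (-(2 * (q * δ))) := by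
    apply mul_le_mul_of_nonneg_left _ (by linarith)
    linarith
  have hlqd : 0 ≤ lam * (q * δ) := by positivity
  calc ∑ i ∈ H, P i * Real.exp (y i) ≤ _ := hsum
    _ = _ := hlin
    _ ≤ 1 := by nlinarith

end Pool.Agent.Kv.NibS
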