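import Mathlib
import Pool.Agent.Designs.NibStep
import Pool.Agent.Designs.NibCount

set_option autoImplicit false

/-! # Module Nib: nibble from an exact fractional decomposition -/

namespace Pool.Agent.Kv

open Finset

namespace NibS

/-! ### numerical lemmas -/

lemma num_x (k : ℕ) (hk : 2 ≤ k) (x p : ℝ) (hp0 : 0 < p) (hp1 : p ≤ 1)
    (hC : 1000 * (k : ℝ) ^ 2 ≤ x * p ^ (8 * k)) :
    1000 * (k : ℝ) ^ 2 ≤ x ∧ 1 ≤ x ∧ 0 < x := by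
  have hkR : (2 : ℝ) ≤ k := by exact_mod_cast hk
  have hk2 : (4 : ℝ) ≤ (k : ℝ) ^ 2 := by nlinarith
  have hp8 : p ^ (8 * k) ≤ 1 := pow_le_one₀ hp0.le hp1
  have hp8' : 0 < p ^ (8 * k) := by positivity
  have hx0 : 0 < x := by
    by_contra hneg
    rw [not_lt] at hneg
    have : x * p ^ (8 * k) ≤ 0 := mul_nonpos_of_nonpos_of_nonneg hneg hp8'.le
    linarith
  have hxC : 1000 * (k : ℝ) ^ 2 ≤ x := by
    have : x * p ^ (8 * k) ≤ x * 1 := mul_le_mul_of_nonneg_left hp8 hx0.le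
    linarith
  exact ⟨hxC, by linarith, hx0⟩

lemma num_delta (k : ℕ) (hk : 2 ≤ k) (x p π : ℝ) (hp0 : 0 < p) (hpπ : p ≤ π) (hπ1 : π ≤ 1)
    (hC : 1000 * (k : ℝ) ^ 2 ≤ x * p ^ (8 * k)) :
    0 < (x ^ 2 * π ^ (8 * k))⁻¹ ∧ (x ^ 2 * π ^ (8 * k))⁻¹ ≤ 1 / 100 ∧
      (x ^ 2)⁻¹ ≤ (x ^ 2 * π ^ (8 * k))⁻¹ := by
  obtain ⟨hxC, hx1, hx0⟩ := num_x k hk x p hp0 (hpπ.trans hπ1) hC
  have hkR : (2 : ℝ) ≤ k := by exact_mod_cast hk
  have hk2 : (4 : ℝ) ≤ (k : ℝ) ^ 2 := by nlinarith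
  have hπ0 : 0 < π := lt_of_lt_of_le hp0 hpπ
  have hπ8 : p ^ (8 * k) ≤ π ^ (8 * k) := pow_le_pow_left₀ hp0.le hpπ _
  have hπ8' : π ^ (8 * k) ≤ 1 := pow_le_one₀ hπ0.le hπ1
  have hxπ : 1000 * (k : ℝ) ^ 2 ≤ x * π ^ (8 * k) :=
    hC.trans (mul_le_mul_of_nonneg_left hπ8 hx0.le)
  refine ⟨by positivity, ?_, ?_⟩
  · have h2 : (100 : ℝ) ≤ x ^ 2 * π ^ (8 * k) := by
      have h3 : 1 * (x * π ^ (8 * k)) ≤ x * (x * π ^ (8 * k)) :=
        mul_le_mul_of_nonneg_right hx1 (by positivity)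
      have h4 : x * (x * π ^ (8 * k)) = x ^ 2 * π ^ (8 * k) := by ring
      linarith
    rw [one_div]
    exact inv_anti₀ (by norm_num) h2
  · apply inv_anti₀ (by positivity)
    have : x ^ 2 * π ^ (8 * k) ≤ x ^ 2 * 1 := mul_le_mul_of_nonneg_left hπ8' (by positivity)
    linarith

lemma num_gen (k : ℕ) (x π κ d : ℝ) (hx0 : 0 < x) (hπ0 : 0 < π) (hd : 0 < d)
    (hπd : π ^ (8 * k) ≤ d) (hκ : 20 * x ^ 5 * κ ≤ 1) :
    x ^ 3 * (κ / d) ≤ (x ^ 2 * π ^ (8 * k))⁻¹ / 20 := by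
  rw [← mul_div_assoc, div_le_iff₀ hd]
  have e1 : (x ^ 2 * π ^ (8 * k))⁻¹ / 20 * d = d / (20 * (x ^ 2 * π ^ (8 * k))) := by
    field_simp
  rw [e1, le_div_iff₀ (by positivity)]
  have e2 : x ^ 3 * κ * (20 * (x ^ 2 * π ^ (8 * k))) = (20 * x ^ 5 * κ) * π ^ (8 * k) := by ring
  rw [e2]
  calc (20 * x ^ 5 * κ) * π ^ (8 * k) ≤ 1 * π ^ (8 * k) :=
        mul_le_mul_of_nonneg_right hκ (by positivity)
    _ ≤ d := by rw [one_mul]; exact hπd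

lemma num_N (x N ν : ℝ) (hx0 : 0 < x) (hN : 0 < N) (hNν : 1 ≤ N * ν) (hνx : ν * x ^ 6 ≤ 1) :
    x ^ 6 ≤ N := by
  have h2 : x ^ 6 * 1 ≤ x ^ 6 * (N * ν) := mul_le_mul_of_nonneg_left hNν (by positivity)
  have h3 : x ^ 6 * (N * ν) = N * (ν * x ^ 6) := by ring
  have h4 : N * (ν * x ^ 6) ≤ N * 1 := mul_le_mul_of_nonneg_left hνx hN.le
  linarith

lemma num_lam (k : ℕ) (hk : 2 ≤ k) (x p π N ν s : ℝ) (hp0 : 0 < p) (hpπ : p ≤ π) (hπ1 : π ≤ 1)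
    (hC : 1000 * (k : ℝ) ^ 2 ≤ x * p ^ (8 * k)) (hN : 0 < N) (hNν : 1 ≤ N * ν)
    (hνx : ν * x ^ 6 ≤ 1) (hν0 : 0 ≤ ν) (hsx : x ^ 6 ≤ s) :
    x ^ 3 * (k * (k / (π * N))) ≤ (x ^ 2 * π ^ (8 * k))⁻¹ / 20 ∧
    x ^ 3 * (k * ν / π ^ (k - 1)) ≤ (x ^ 2 * π ^ (8 * k))⁻¹ / 20 ∧
    x ^ 3 * (k / (π * s)) ≤ (x ^ 2 * π ^ (8 * k))⁻¹ / 20 := by
  obtain ⟨hxC, hx1, hx0⟩ := num_x k hk x p hp0 (hpπ.trans hπ1) hC
  have hkR : (2 : ℝ) ≤ k := by exact_mod_cast hk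
  have hπ0 : 0 < π := lt_of_lt_of_le hp0 hpπ
  have hNx := num_N x N ν hx0 hN hNν hνx
  have hs0 : 0 < s := lt_of_lt_of_le (by positivity) hsx
  have hππ : π ^ (8 * k) ≤ π := by
    calc π ^ (8 * k) ≤ π ^ 1 := pow_le_pow_of_le_one hπ0.le hπ1 (by omega)
      _ = π := pow_one π
  have hπa : π ^ (8 * k) ≤ π ^ (k - 1) := pow_le_pow_of_le_one hπ0.le hπ1 (by omega)
  have hx5 : 20 * (k : ℝ) ^ 2 * x ^ 5 ≤ x ^ 6 := by
    have : x ^ 6 = x * x ^ 5 := by ring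
    rw [this]
    apply mul_le_mul_of_nonneg_right _ (by positivity)
    have : 0 ≤ (k : ℝ) ^ 2 := by positivity
    linarith
  have hx5' : 20 * x ^ 5 * (k : ℝ) ≤ x ^ 6 := by
    have h5 : (k : ℝ) ≤ (k : ℝ) ^ 2 := by nlinarith
    have h6 : 20 * x ^ 5 * (k : ℝ) ≤ 20 * x ^ 5 * (k : ℝ) ^ 2 :=
      mul_le_mul_of_nonneg_left h5 (by positivity)
    linarith
  refine ⟨?_, ?_, ?_⟩
  · have e1 : (k : ℝ) * (k / (π * N)) = ((k : ℝ) ^ 2 / N) / π := by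
      field_simp
    rw [e1]
    apply num_gen k x π _ _ hx0 hπ0 hπ0 hππ
    rw [← mul_div_assoc, div_le_one hN]
    linarith
  · apply num_gen k x π _ _ hx0 hπ0 (by positivity) hπa
    have h3 : 20 * x ^ 5 * (k * ν) ≤ x ^ 6 * ν := by
      calc 20 * x ^ 5 * (k * ν) = (20 * x ^ 5 * k) * ν := by ring
        _ ≤ x ^ 6 * ν := mul_le_mul_of_nonneg_right hx5' hν0
    linarith
  · have e1 : (k : ℝ) / (π * s) = ((k : ℝ) / s) / π := by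
      field_simp
    rw [e1]
    apply num_gen k x π _ _ hx0 hπ0 hπ0 hππ
    rw [← mul_div_assoc, div_le_one hs0]
    linarith

lemma num_up (a δ Y : ℝ) (ha : 0 < a) (hδ : 0 < δ) (hδ1 : δ ≤ 1 / 100)
    (h : a * (1 - 2 * δ) ≤ Y) : a * (1 + 2 * δ) ≤ Y * (1 + 5 * δ) := by
  have h6 : a * (1 - 2 * δ) * (1 + 5 * δ) ≤ Y * (1 + 5 * δ) :=
    mul_le_mul_of_nonneg_right h (by linarith)
  have h7 : a * (1 + 2 * δ) ≤ a * ((1 - 2 * δ) * (1 + 5 * δ)) := by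
    apply mul_le_mul_of_nonneg_left _ ha.le
    nlinarith
  linarith

lemma num_dn (a δ Y c : ℝ) (ha : 0 < a) (hδ : 0 < δ) (hδ1 : δ ≤ 1 / 100)
    (h : Y ≤ a * (1 + 2 * δ)) (hc : c ≤ a * δ) : Y * (1 - 5 * δ) ≤ a * (1 - 2 * δ) - c := by
  have h6 : Y * (1 - 5 * δ) ≤ a * (1 + 2 * δ) * (1 - 5 * δ) :=
    mul_le_mul_of_nonneg_right h (by linarith)
  have h7 : a * ((1 + 2 * δ) * (1 - 5 * δ)) ≤ a * (1 - 3 * δ) := by
    apply mul_le_mul_of_nonneg_left _ ha.le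
    nlinarith
  linarith

lemma num_Delta (k : ℕ) (η δ : ℝ) (hη0 : 0 < η) (hδ0 : 0 < δ) (hδ1 : δ ≤ 1 / 100)
    (hkη : (k : ℝ) * η ≤ δ / 20) (hη1 : η ≤ 1 / 2) :
    8 * (k * η) * δ ≤ δ * ((1 - η) ^ (8 * k))⁻¹ - δ ∧
      δ * ((1 - η) ^ (8 * k))⁻¹ - δ ≤ 16 * (k * η) * δ := by
  have hk8 : ((8 * k : ℕ) : ℝ) * η ≤ 1 / 2 := by
    push_cast; linarith
  obtain ⟨hq0, hq1, hq2⟩ := inv_pow_bounds (8 * k) η hη0.le hk8 hη1
  push_cast at hq1 hq2 hk8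
  have h4 : 0 ≤ 8 * (k : ℝ) * η := by positivity
  constructor
  · have : δ * (1 + 8 * (k : ℝ) * η) ≤ δ * ((1 - η) ^ (8 * k))⁻¹ :=
      mul_le_mul_of_nonneg_left hq1 hδ0.le
    linarith
  · have h3 : ((1 - η) ^ (8 * k))⁻¹ ≤ 1 + 16 * (k * η) := by
      nlinarith
    have : δ * ((1 - η) ^ (8 * k))⁻¹ ≤ δ * (1 + 16 * (k * η)) :=
      mul_le_mul_of_nonneg_left h3 hδ0.le
    linarith

variable {γ : Type} [DecidableEq γ] (Hy : Finset (Finset γ)) (w : Finset γ → ℝ)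

/-- fraction of the remaining points -/
noncomputable def nπ (E A : Finset γ) : ℝ := (A.card : ℝ) / (E.card : ℝ)

/-- allowed deviation -/
noncomputable def nδ (k : ℕ) (x : ℝ) (π : ℝ) : ℝ := (x ^ 2 * π ^ (8 * k))⁻¹

/-- the potential -/
noncomputable def nPhi (E : Finset γ) (Sf : Finset (Finset γ)) (k : ℕ) (x s : ℝ)
    (A : Finset γ) : ℝ :=
  ∑ e ∈ A, (Real.exp (x ^ 3 * (nW Hy w A e / nπ E A ^ (k - 1) - 1 - nδ k x (nπ E A))) +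
    Real.exp (x ^ 3 * (1 - nδ k x (nπ E A) - nW Hy w A e / nπ E A ^ (k - 1)))) +
  ∑ S ∈ Sf, Real.exp (x ^ 3 * (((S ∩ A).card : ℝ) / (nπ E A * s) - 1 - nδ k x (nπ E A)))

/-- from the potential bound to the deviation bound -/
lemma dev_of_exp {x δ z B : ℝ} (hx : 1 ≤ x) (hδ : (x ^ 2)⁻¹ ≤ δ) (hB : B ≤ Real.exp x)
    (h : Real.exp (x ^ 3 * (z - δ)) ≤ B) : z ≤ 2 * δ := by
  have h1 : x ^ 3 * (z - δ) ≤ x := Real.exp_le_exp.1 (h.trans hB)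
  have h2 : z - δ ≤ (x ^ 2)⁻¹ := by
    rw [← one_div, le_div_iff₀ (by positivity)]
    have hx0 : 0 < x := by linarith
    have : x * ((z - δ) * x ^ 2) ≤ x * 1 := by
      calc x * ((z - δ) * x ^ 2) = x ^ 3 * (z - δ) := by ring
        _ ≤ x := h1
        _ = x * 1 := by ring
    exact le_of_mul_le_mul_left this hx0
  linarith

lemma dev_W (E : Finset γ) (Sf : Finset (Finset γ)) (k : ℕ) (x s B : ℝ) (A : Finset γ)
    (hx : 1 ≤ x) (hδ : (x ^ 2)⁻¹ ≤ nδ k x (nπ E A)) (hB : B ≤ Real.exp x)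
    (hPhi : nPhi Hy w E Sf k x s A ≤ B) (e : γ) (he : e ∈ A) :
    nW Hy w A e / nπ E A ^ (k - 1) ≤ 1 + 2 * nδ k x (nπ E A) ∧
      1 - 2 * nδ k x (nπ E A) ≤ nW Hy w A e / nπ E A ^ (k - 1) := by
  have h2 : Real.exp (x ^ 3 * (nW Hy w A e / nπ E A ^ (k - 1) - 1 - nδ k x (nπ E A))) +
      Real.exp (x ^ 3 * (1 - nδ k x (nπ E A) - nW Hy w A e / nπ E A ^ (k - 1))) ≤ B := by
    refine le_trans ?_ hPhi
    unfold nPhi
    have h3 := Finset.single_le_sum (f := fun e =>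
      Real.exp (x ^ 3 * (nW Hy w A e / nπ E A ^ (k - 1) - 1 - nδ k x (nπ E A))) +
      Real.exp (x ^ 3 * (1 - nδ k x (nπ E A) - nW Hy w A e / nπ E A ^ (k - 1))))
      (fun i _ => by positivity) he
    have h4 : 0 ≤ ∑ S ∈ Sf, Real.exp (x ^ 3 * (((S ∩ A).card : ℝ) / (nπ E A * s) - 1 -
        nδ k x (nπ E A))) := Finset.sum_nonneg (fun i _ => (Real.exp_pos _).le)
    exact le_trans h3 (le_add_of_nonneg_right h4)
  have h5 := Real.exp_pos (x ^ 3 * (1 - nδ k x (nπ E A) - nW Hy w A e / nπ E A ^ (k - 1)))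
  have h6 := Real.exp_pos (x ^ 3 * (nW Hy w A e / nπ E A ^ (k - 1) - 1 - nδ k x (nπ E A)))
  constructor
  · have := dev_of_exp (z := nW Hy w A e / nπ E A ^ (k - 1) - 1) hx hδ hB (by linarith)
    linarith
  · have h4 : x ^ 3 * (1 - nδ k x (nπ E A) - nW Hy w A e / nπ E A ^ (k - 1)) =
        x ^ 3 * ((1 - nW Hy w A e / nπ E A ^ (k - 1)) - nδ k x (nπ E A)) := by
      ring
    rw [h4] at h2
    have := dev_of_exp (z := 1 - nW Hy w A e / nπ E A ^ (k - 1)) hx hδ hB (by linarith)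
    linarith

lemma dev_S (E : Finset γ) (Sf : Finset (Finset γ)) (k : ℕ) (x s B : ℝ) (A : Finset γ)
    (hx : 1 ≤ x) (hδ : (x ^ 2)⁻¹ ≤ nδ k x (nπ E A)) (hB : B ≤ Real.exp x)
    (hPhi : nPhi Hy w E Sf k x s A ≤ B) (S : Finset γ) (hS : S ∈ Sf) :
    ((S ∩ A).card : ℝ) / (nπ E A * s) ≤ 1 + 2 * nδ k x (nπ E A) := by
  have h2 : Real.exp (x ^ 3 * (((S ∩ A).card : ℝ) / (nπ E A * s) - 1 - nδ k x (nπ E A))) ≤
      B := by
    refine le_trans ?_ hPhi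
    unfold nPhi
    have h3 := Finset.single_le_sum (f := fun S : Finset γ =>
      Real.exp (x ^ 3 * (((S ∩ A).card : ℝ) / (nπ E A * s) - 1 - nδ k x (nπ E A))))
      (fun i _ => (Real.exp_pos _).le) hS
    have h4 : 0 ≤ ∑ e ∈ A,
      (Real.exp (x ^ 3 * (nW Hy w A e / nπ E A ^ (k - 1) - 1 - nδ k x (nπ E A))) +
      Real.exp (x ^ 3 * (1 - nδ k x (nπ E A) - nW Hy w A e / nπ E A ^ (k - 1)))) :=
      Finset.sum_nonneg (fun i _ => by positivity)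
    exact le_trans h3 (le_add_of_nonneg_left h4)
  have := dev_of_exp (z := ((S ∩ A).card : ℝ) / (nπ E A * s) - 1) hx hδ hB h2
  linarith

lemma Omega_bounds (k : ℕ) (hk0 : 0 < k) (hk : ∀ Q ∈ Hy, Q.card = k) (A : Finset γ)
    (hAc0 : 0 < (A.card : ℝ)) (a δ : ℝ) (ha : 0 < a) (hδ1 : δ ≤ 1 / 100)
    (hW : ∀ e ∈ A, a * (1 - 2 * δ) ≤ nW Hy w A e ∧ nW Hy w A e ≤ a * (1 + 2 * δ)) :
    0 < ∑ Q ∈ nH Hy A, w Q ∧
    a * (1 - 2 * δ) ≤ (∑ Q ∈ nH Hy A, w Q) * (k / (A.card : ℝ)) ∧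
    (∑ Q ∈ nH Hy A, w Q) * (k / (A.card : ℝ)) ≤ a * (1 + 2 * δ) := by
  have htot : ∑ e ∈ A, nW Hy w A e = k * ∑ Q ∈ nH Hy A, w Q := total_eq Hy w A k hk
  have hΩη : (∑ Q ∈ nH Hy A, w Q) * (k / (A.card : ℝ)) =
      (∑ e ∈ A, nW Hy w A e) / (A.card : ℝ) := by
    rw [htot]; ring
  have hΩ1 : a * (1 - 2 * δ) ≤ (∑ Q ∈ nH Hy A, w Q) * (k / (A.card : ℝ)) := by
    rw [hΩη, le_div_iff₀ hAc0]
    calc a * (1 - 2 * δ) * (A.card : ℝ) = ∑ e ∈ A, a * (1 - 2 * δ) := by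
          rw [Finset.sum_const, nsmul_eq_mul]; ring
      _ ≤ _ := Finset.sum_le_sum (fun e he => (hW e he).1)
  refine ⟨?_, hΩ1, ?_⟩
  · have h2 : 0 < a * (1 - 2 * δ) := by
      apply mul_pos ha; linarith
    have hη0 : 0 < (k : ℝ) / (A.card : ℝ) := by positivity
    exact pos_of_mul_pos_left (lt_of_lt_of_le h2 hΩ1) hη0.le
  · rw [hΩη, div_le_iff₀ hAc0]
    calc _ ≤ ∑ e ∈ A, a * (1 + 2 * δ) := Finset.sum_le_sum (fun e he => (hW e he).2)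
      _ = a * (1 + 2 * δ) * (A.card : ℝ) := by
          rw [Finset.sum_const, nsmul_eq_mul]; ring

/-- expectation of the change at a point -/
lemma meanE (E : Finset γ) (k : ℕ) (hk : 2 ≤ k) (ν : ℝ) (hν0 : 0 ≤ ν)
    (hHy : ∀ Q ∈ Hy, Q ⊆ E ∧ Q.card = k) (hw : ∀ Q ∈ Hy, 0 ≤ w Q)
    (hν : ∀ e ∈ E, ∀ e' ∈ E, e ≠ e' → ∑ Q ∈ Hy.filter (fun Q => e ∈ Q ∧ e' ∈ Q), w Q ≤ ν)
    (A : Finset γ) (hA : A ⊆ E) (a δ η lam Δ Ω : ℝ) (ha0 : 0 < a) (hδ0 : 0 < δ)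
    (hδ1 : δ ≤ 1 / 100) (hη0 : 0 < η) (hlam1 : 1 ≤ lam) (hb1 : lam * (k * η) ≤ δ / 20)
    (hb2 : lam * (k * ν / a) ≤ δ / 20)
    (hW : ∀ e ∈ A, a * (1 - 2 * δ) ≤ nW Hy w A e ∧ nW Hy w A e ≤ a * (1 + 2 * δ))
    (hΩ0 : 0 < Ω) (hΩ : Ω = ∑ Q ∈ nH Hy A, w Q) (hΩ1 : a * (1 - 2 * δ) ≤ Ω * η)
    (hΩ2 : Ω * η ≤ a * (1 + 2 * δ)) (hΔ1 : 8 * (k * η) * δ ≤ Δ) (hΔ2 : Δ ≤ 16 * (k * η) * δ)
    (e : γ) (he : e ∈ A) (σ : ℝ) (hσ : σ = 1 ∨ σ = -1) :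
    ∑ Q ∈ nH Hy A, (w Q / Ω) *
      Real.exp (lam * (σ * (((1 - η) ^ (k - 1))⁻¹ * (nW Hy w A e / a - nD Hy w A e Q / a) -
        nW Hy w A e / a) - Δ)) ≤ 1 := by
  have hkR : (2 : ℝ) ≤ k := by exact_mod_cast hk
  have hk1 : ((k - 1 : ℕ) : ℝ) = (k : ℝ) - 1 := by
    rw [Nat.cast_sub (by omega), Nat.cast_one]
  have hP0 : ∀ Q ∈ nH Hy A, 0 ≤ w Q / Ω := fun Q hQ =>
    div_nonneg (hw Q ((mem_nH Hy).1 hQ).1) hΩ0.le
  have hP1 : ∑ Q ∈ nH Hy A, w Q / Ω = 1 := by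
    rw [← Finset.sum_div, ← hΩ, div_self hΩ0.ne']
  obtain ⟨m1, m2⟩ := mean_bounds Hy w hw E ν k (fun Q hQ => (hHy Q hQ).2) hν A hA e
    (a * (1 - 2 * δ)) (a * (1 + 2 * δ)) hW
  have hWe0 : 0 ≤ nW Hy w A e := nW_nonneg Hy w hw A e
  have hmean : ∑ Q ∈ nH Hy A, (w Q / Ω) * (nD Hy w A e Q / a) =
      (∑ Q ∈ nH Hy A, w Q * nD Hy w A e Q) / (Ω * a) := by
    rw [Finset.sum_div]
    apply Finset.sum_congr rfl
    intro Q _
    rw [div_mul_div_comm]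
  have hΩa : 0 < Ω * a := mul_pos hΩ0 ha0
  have hκ1 : 0 ≤ k * ν / a := by positivity
  have hkνa : k * ν ≤ a * δ := by
    have h3 : k * ν / a ≤ δ := by
      have h4 : 1 * (k * ν / a) ≤ lam * (k * ν / a) := mul_le_mul_of_nonneg_right hlam1 hκ1
      linarith
    rw [div_le_iff₀ ha0] at h3
    linarith
  have h8 : 0 ≤ nW Hy w A e * (k - 1) := mul_nonneg hWe0 (by linarith)
  apply step_mean (nH Hy A) (fun Q => w Q / Ω) (fun Q => nD Hy w A e Q / a) hP0 hP1 (k - 1) k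
    (by omega) (by omega) η δ Δ (k * ν / a) (nW Hy w A e / a) lam σ hσ hη0 hδ0 hδ1 hlam1 hb1 hκ1
    hb2
  · intro Q hQ
    obtain ⟨hQ1, hQ2⟩ := (mem_nH Hy).1 hQ
    exact ⟨div_nonneg (nD_nonneg Hy w hw A e Q) ha0.le,
      div_le_div_of_nonneg_right (nD_le Hy w hw E ν k hν0 hν A e Q (hA he) (hHy Q hQ1).1
        (hHy Q hQ1).2) ha0.le⟩
  · exact div_nonneg hWe0 ha0.le
  · rw [div_le_iff₀ ha0]
    have := (hW e he).2
    linarith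
  · have e1 : nW Hy w A e / a * (((k - 1 : ℕ) : ℝ) * η) * (1 + 5 * δ) * (Ω * a) =
        nW Hy w A e * (k - 1) * ((Ω * η) * (1 + 5 * δ)) := by
      rw [hk1]; field_simp
    have e2 := mul_le_mul_of_nonneg_left (num_up a δ (Ω * η) ha0 hδ0 hδ1 hΩ1) h8
    change ∑ Q ∈ nH Hy A, (w Q / Ω) * (nD Hy w A e Q / a) ≤ _
    rw [hmean, div_le_iff₀ hΩa, e1]
    refine le_trans m2 (le_trans (le_of_eq ?_) e2)
    ring
  · have e1 : nW Hy w A e / a * (((k - 1 : ℕ) : ℝ) * η) * (1 - 5 * δ) * (Ω * a) =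
        nW Hy w A e * (k - 1) * ((Ω * η) * (1 - 5 * δ)) := by
      rw [hk1]; field_simp
    have e2 := mul_le_mul_of_nonneg_left (num_dn a δ (Ω * η) (k * ν) ha0 hδ0 hδ1 hΩ2 hkνa) h8
    change _ ≤ ∑ Q ∈ nH Hy A, (w Q / Ω) * (nD Hy w A e Q / a)
    rw [hmean, le_div_iff₀ hΩa, e1]
    refine le_trans e2 (le_trans (le_of_eq ?_) m1)
    ring
  · exact hΔ1
  · exact hΔ2

/-- expectation of the change at a test set -/
lemma meanS (E : Finset γ) (k : ℕ) (hk : 2 ≤ k)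
    (hHy : ∀ Q ∈ Hy, Q ⊆ E ∧ Q.card = k) (hw : ∀ Q ∈ Hy, 0 ≤ w Q)
    (A : Finset γ) (a δ η lam Δ Ω T : ℝ) (ha0 : 0 < a) (hδ0 : 0 < δ)
    (hδ1 : δ ≤ 1 / 100) (hη0 : 0 < η) (hlam1 : 1 ≤ lam) (hb1 : lam * (k * η) ≤ δ / 20)
    (hT : 0 < T) (hb3 : lam * (k / T) ≤ δ / 20)
    (hW : ∀ e ∈ A, a * (1 - 2 * δ) ≤ nW Hy w A e ∧ nW Hy w A e ≤ a * (1 + 2 * δ))
    (hΩ0 : 0 < Ω) (hΩ : Ω = ∑ Q ∈ nH Hy A, w Q) (hΩ1 : a * (1 - 2 * δ) ≤ Ω * η)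
    (hΩ2 : Ω * η ≤ a * (1 + 2 * δ)) (hΔ1 : 8 * (k * η) * δ ≤ Δ) (hΔ2 : Δ ≤ 16 * (k * η) * δ)
    (S : Finset γ) (hv : ((S ∩ A).card : ℝ) / T ≤ 1 + 2 * δ) :
    ∑ Q ∈ nH Hy A, (w Q / Ω) *
      Real.exp (lam * (1 * (((1 - η) ^ 1)⁻¹ * (((S ∩ A).card : ℝ) / T -
          ((S ∩ Q).card : ℝ) / T) - ((S ∩ A).card : ℝ) / T) - Δ)) ≤ 1 := by
  have hP0 : ∀ Q ∈ nH Hy A, 0 ≤ w Q / Ω := fun Q hQ =>
    div_nonneg (hw Q ((mem_nH Hy).1 hQ).1) hΩ0.le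
  have hP1 : ∑ Q ∈ nH Hy A, w Q / Ω = 1 := by
    rw [← Finset.sum_div, ← hΩ, div_self hΩ0.ne']
  have hmean : ∑ Q ∈ nH Hy A, (w Q / Ω) * (((S ∩ Q).card : ℝ) / T) =
      (∑ e ∈ S ∩ A, nW Hy w A e) / (Ω * T) := by
    rw [← sum_S, Finset.sum_div]
    apply Finset.sum_congr rfl
    intro Q _
    rw [div_mul_div_comm]
  have hΩT : 0 < Ω * T := mul_pos hΩ0 hT
  have hlo : ((S ∩ A).card : ℝ) * (a * (1 - 2 * δ)) ≤ ∑ e ∈ S ∩ A, nW Hy w A e := by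
    calc _ = ∑ e ∈ S ∩ A, (a * (1 - 2 * δ)) := by rw [Finset.sum_const, nsmul_eq_mul]
      _ ≤ _ := Finset.sum_le_sum (fun e he => (hW e (mem_inter.1 he).2).1)
  have hhi : ∑ e ∈ S ∩ A, nW Hy w A e ≤ ((S ∩ A).card : ℝ) * (a * (1 + 2 * δ)) := by
    calc _ ≤ ∑ e ∈ S ∩ A, (a * (1 + 2 * δ)) :=
          Finset.sum_le_sum (fun e he => (hW e (mem_inter.1 he).2).2)
      _ = _ := by rw [Finset.sum_const, nsmul_eq_mul]
  have hc0 : (0 : ℝ) ≤ ((S ∩ A).card : ℝ) := by positivity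
  apply step_mean (nH Hy A) (fun Q => w Q / Ω) (fun Q => ((S ∩ Q).card : ℝ) / T) hP0 hP1 1 k
    (by omega) (by omega) η δ Δ (k / T) (((S ∩ A).card : ℝ) / T) lam 1 (Or.inl rfl) hη0 hδ0
    hδ1 hlam1 hb1 (by positivity) hb3
  · intro Q hQ
    obtain ⟨hQ1, hQ2⟩ := (mem_nH Hy).1 hQ
    refine ⟨by positivity, ?_⟩
    apply div_le_div_of_nonneg_right _ hT.le
    have : (S ∩ Q).card ≤ k := by
      rw [← (hHy Q hQ1).2]
      exact Finset.card_le_card Finset.inter_subset_right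
    exact_mod_cast this
  · positivity
  · exact hv
  · have e1 : ((S ∩ A).card : ℝ) / T * (((1 : ℕ) : ℝ) * η) * (1 + 5 * δ) * (Ω * T) =
        ((S ∩ A).card : ℝ) * ((Ω * η) * (1 + 5 * δ)) := by
      rw [Nat.cast_one, one_mul]; field_simp
    change ∑ Q ∈ nH Hy A, (w Q / Ω) * (((S ∩ Q).card : ℝ) / T) ≤ _
    rw [hmean, div_le_iff₀ hΩT, e1]
    exact le_trans hhi (mul_le_mul_of_nonneg_left (num_up a δ (Ω * η) ha0 hδ0 hδ1 hΩ1) hc0)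
  · have e1 : ((S ∩ A).card : ℝ) / T * (((1 : ℕ) : ℝ) * η) * (1 - 5 * δ) * (Ω * T) =
        ((S ∩ A).card : ℝ) * ((Ω * η) * (1 - 5 * δ)) := by
      rw [Nat.cast_one, one_mul]; field_simp
    change _ ≤ ∑ Q ∈ nH Hy A, (w Q / Ω) * (((S ∩ Q).card : ℝ) / T)
    rw [hmean, le_div_iff₀ hΩT, e1]
    have h3 := num_dn a δ (Ω * η) 0 ha0 hδ0 hδ1 hΩ2 (by positivity)
    rw [sub_zero] at h3
    exact le_trans (mul_le_mul_of_nonneg_left h3 hc0) hlo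
  · exact hΔ1
  · exact hΔ2

/-- the potential after one step, pointwise bound -/
lemma phi_term (E : Finset γ) (Sf : Finset (Finset γ)) (k : ℕ) (x s : ℝ)
    (A Q : Finset γ) (hQA : Q ⊆ A) (π η δ Δ a : ℝ) (hπ0 : 0 < π) (hη1 : 0 < 1 - η)
    (hs0 : 0 < s) (ha : a = π ^ (k - 1))
    (hπ' : nπ E (A \ Q) = π * (1 - η)) (hδ' : nδ k x (π * (1 - η)) = δ + Δ) :
    nPhi Hy w E Sf k x s (A \ Q) ≤
      ∑ e ∈ A, (Real.exp (x ^ 3 * (nW Hy w A e / a - 1 - δ)) *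
          Real.exp (x ^ 3 * (1 * (((1 - η) ^ (k - 1))⁻¹ *
            (nW Hy w A e / a - nD Hy w A e Q / a) - nW Hy w A e / a) - Δ)) +
        Real.exp (x ^ 3 * (1 - δ - nW Hy w A e / a)) *
          Real.exp (x ^ 3 * (-1 * (((1 - η) ^ (k - 1))⁻¹ *
            (nW Hy w A e / a - nD Hy w A e Q / a) - nW Hy w A e / a) - Δ))) +
      ∑ S ∈ Sf, Real.exp (x ^ 3 * (((S ∩ A).card : ℝ) / (π * s) - 1 - δ)) *
        Real.exp (x ^ 3 * (1 * (((1 - η) ^ 1)⁻¹ * (((S ∩ A).card : ℝ) / (π * s) -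
          ((S ∩ Q).card : ℝ) / (π * s)) - ((S ∩ A).card : ℝ) / (π * s)) - Δ)) := by
  unfold nPhi
  rw [hπ', hδ']
  apply add_le_add
  · have hsub : A \ Q ⊆ A := Finset.sdiff_subset
    refine le_trans (le_of_eq ?_) (Finset.sum_le_sum_of_subset_of_nonneg hsub
      (fun e _ _ => by positivity))
    apply Finset.sum_congr rfl
    intro e he
    rw [mem_sdiff] at he
    rw [nW_sdiff Hy w A e Q he.2]
    have e1 : (nW Hy w A e - nD Hy w A e Q) / (π * (1 - η)) ^ (k - 1) =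
        ((1 - η) ^ (k - 1))⁻¹ * (nW Hy w A e / a - nD Hy w A e Q / a) := by
      rw [mul_pow, ← ha, ← sub_div, div_mul_eq_div_div_swap, div_eq_inv_mul, mul_comm,
        mul_comm ((1 - η) ^ (k - 1))⁻¹, ← div_eq_mul_inv, ← div_eq_mul_inv, div_right_comm]
    rw [e1, ← Real.exp_add, ← Real.exp_add]
    congr 1
    · congr 1
      ring
    · congr 1
      ring
  · apply Finset.sum_le_sum
    intro S hS
    rw [← Real.exp_add]
    apply le_of_eq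
    congr 1
    have e2 : ((S ∩ (A \ Q)).card : ℝ) = ((S ∩ A).card : ℝ) - ((S ∩ Q).card : ℝ) := by
      have h3 : S ∩ (A \ Q) = (S ∩ A) \ (S ∩ Q) := by
        ext f
        simp only [mem_inter, mem_sdiff]
        tauto
      have h4 : S ∩ Q ⊆ S ∩ A := Finset.inter_subset_inter_left hQA
      rw [h3, Finset.card_sdiff_of_subset h4, Nat.cast_sub (Finset.card_le_card h4)]
    rw [e2]
    have e3 : (((S ∩ A).card : ℝ) - ((S ∩ Q).card : ℝ)) / (π * (1 - η) * s) =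
        ((1 - η) ^ 1)⁻¹ * (((S ∩ A).card : ℝ) / (π * s) - ((S ∩ Q).card : ℝ) / (π * s)) := by
      rw [pow_one]
      field_simp
    rw [e3]
    ring

/-- averaging -/
lemma exists_of_avg {ι : Type*} (H : Finset ι) (P F : ι → ℝ) (c : ℝ) (hP0 : ∀ i ∈ H, 0 ≤ P i)
    (hP1 : ∑ i ∈ H, P i = 1) (h : ∑ i ∈ H, P i * F i ≤ c) : ∃ i ∈ H, F i ≤ c := by
  by_contra hcon
  push Not at hcon
  have h4 : c < ∑ i ∈ H, P i * F i := by
    have h5 : c = ∑ i ∈ H, P i * c := by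
      rw [← Finset.sum_mul, hP1, one_mul]
    rw [h5]
    obtain ⟨j, hj, hj'⟩ : ∃ i ∈ H, 0 < P i := by
      by_contra hno
      push Not at hno
      have : ∑ i ∈ H, P i ≤ 0 := Finset.sum_nonpos hno
      linarith
    apply Finset.sum_lt_sum
    · intro i hi
      exact mul_le_mul_of_nonneg_left (hcon i hi).le (hP0 i hi)
    · exact ⟨j, hj, mul_lt_mul_of_pos_left (hcon j hj) hj'⟩
  linarith

/-- swapping sums and bounding -/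
lemma avg_bound {ι κ' τ : Type*} (H : Finset ι) (P : ι → ℝ) (A : Finset κ') (T : Finset τ)
    (U L : κ' → ℝ) (V : τ → ℝ) (f1 f2 : κ' → ι → ℝ) (f3 : τ → ι → ℝ)
    (hU : ∀ e ∈ A, 0 ≤ U e) (hL : ∀ e ∈ A, 0 ≤ L e) (hV : ∀ S ∈ T, 0 ≤ V S)
    (h1 : ∀ e ∈ A, ∑ i ∈ H, P i * f1 e i ≤ 1) (h2 : ∀ e ∈ A, ∑ i ∈ H, P i * f2 e i ≤ 1)
    (h3 : ∀ S ∈ T, ∑ i ∈ H, P i * f3 S i ≤ 1) :
    ∑ i ∈ H, P i * (∑ e ∈ A, (U e * f1 e i + L e * f2 e i) + ∑ S ∈ T, V S * f3 S i) ≤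
      ∑ e ∈ A, (U e + L e) + ∑ S ∈ T, V S := by
  have e1 : ∑ i ∈ H, P i * (∑ e ∈ A, (U e * f1 e i + L e * f2 e i) + ∑ S ∈ T, V S * f3 S i) =
      ∑ e ∈ A, (U e * ∑ i ∈ H, P i * f1 e i + L e * ∑ i ∈ H, P i * f2 e i) +
        ∑ S ∈ T, V S * ∑ i ∈ H, P i * f3 S i := by
    simp only [mul_add, Finset.mul_sum, Finset.sum_add_distrib]
    congr 1
    · congr 1
      · rw [Finset.sum_comm]
        apply Finset.sum_congr rfl
        intro e _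
        apply Finset.sum_congr rfl
        intro Q _
        ring
      · rw [Finset.sum_comm]
        apply Finset.sum_congr rfl
        intro e _
        apply Finset.sum_congr rfl
        intro Q _
        ring
    · rw [Finset.sum_comm]
      apply Finset.sum_congr rfl
      intro e _
      apply Finset.sum_congr rfl
      intro Q _
      ring
  rw [e1]
  apply add_le_add
  · apply Finset.sum_le_sum
    intro e he
    apply add_le_add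
    · have := mul_le_mul_of_nonneg_left (h1 e he) (hU e he)
      rwa [mul_one] at this
    · have := mul_le_mul_of_nonneg_left (h2 e he) (hL e he)
      rwa [mul_one] at this
  · apply Finset.sum_le_sum
    intro S hS
    have := mul_le_mul_of_nonneg_left (h3 S hS) (hV S hS)
    rwa [mul_one] at this

/-- one step of the nibble -/
lemma nib_step (E : Finset γ) (Sf : Finset (Finset γ)) (k : ℕ) (hk : 2 ≤ k) (ν s x p : ℝ)
    (hHy : ∀ Q ∈ Hy, Q ⊆ E ∧ Q.card = k) (hw : ∀ Q ∈ Hy, 0 ≤ w Q)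
    (h1 : ∀ e ∈ E, ∑ Q ∈ Hy.filter (fun Q => e ∈ Q), w Q = 1)
    (hν : ∀ e ∈ E, ∀ e' ∈ E, e ≠ e' → ∑ Q ∈ Hy.filter (fun Q => e ∈ Q ∧ e' ∈ Q), w Q ≤ ν)
    (hp0 : 0 < p) (hp1 : p ≤ 1) (hC : 1000 * (k : ℝ) ^ 2 ≤ x * p ^ (8 * k))
    (hlog : Real.log (2 * (E.card : ℝ) + (Sf.card : ℝ) + 1) ≤ x) (hνx : ν * x ^ 6 ≤ 1)
    (hsx : x ^ 6 ≤ s)
    (A : Finset γ) (hA : A ⊆ E) (hAc : p * (E.card : ℝ) + k ≤ (A.card : ℝ))
    (hPhi : nPhi Hy w E Sf k x s A ≤ 2 * (E.card : ℝ) + (Sf.card : ℝ)) :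
    ∃ Q ∈ Hy, Q ⊆ A ∧ nPhi Hy w E Sf k x s (A \ Q) ≤ nPhi Hy w E Sf k x s A := by
  obtain ⟨hxC, hx1, hx0⟩ := num_x k hk x p hp0 hp1 hC
  have hkR : (2 : ℝ) ≤ k := by exact_mod_cast hk
  have hAne : A.Nonempty := by
    rw [← Finset.card_pos]
    have : (0 : ℝ) < (A.card : ℝ) := by
      have : 0 ≤ p * (E.card : ℝ) := by positivity
      linarith
    exact_mod_cast this
  obtain ⟨e0, he0⟩ := hAne
  obtain ⟨hNν, hν0⟩ := N_ge Hy w hw E ν k hk hHy h1 hν e0 (hA he0)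
  have hNpos : 0 < (E.card : ℝ) := by
    have : 0 < E.card := Finset.card_pos.2 ⟨e0, hA he0⟩
    exact_mod_cast this
  have hπN : (A.card : ℝ) = nπ E A * (E.card : ℝ) := by
    unfold nπ; rw [div_mul_cancel₀ _ hNpos.ne']
  have hπp : p ≤ nπ E A := by
    rw [hπN] at hAc
    have : p * (E.card : ℝ) ≤ nπ E A * (E.card : ℝ) := by linarith
    exact le_of_mul_le_mul_right this hNpos
  have hπ1 : nπ E A ≤ 1 := by
    have : (A.card : ℝ) ≤ (E.card : ℝ) := by exact_mod_cast Finset.card_le_card hA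
    rw [hπN] at this
    have : nπ E A * (E.card : ℝ) ≤ 1 * (E.card : ℝ) := by linarith
    exact le_of_mul_le_mul_right this hNpos
  have hπ0 : 0 < nπ E A := lt_of_lt_of_le hp0 hπp
  obtain ⟨hδ0, hδ1, hδx⟩ := num_delta k hk x p (nπ E A) hp0 hπp hπ1 hC
  obtain ⟨hb1, hb2, hb3⟩ := num_lam k hk x p (nπ E A) (E.card : ℝ) ν s hp0 hπp hπ1 hC hNpos hNν
    hνx hν0 hsx
  rw [← hπN] at hb1
  have hlam1 : 1 ≤ x ^ 3 := one_le_pow₀ hx1
  have ha0 : 0 < nπ E A ^ (k - 1) := by positivity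
  have hAc0 : 0 < (A.card : ℝ) := by rw [hπN]; positivity
  have hs0 : 0 < s := lt_of_lt_of_le (by positivity) hsx
  have hη0 : 0 < (k : ℝ) / (A.card : ℝ) := by positivity
  have hB : 2 * (E.card : ℝ) + (Sf.card : ℝ) ≤ Real.exp x := by
    have h2 : 0 < 2 * (E.card : ℝ) + (Sf.card : ℝ) + 1 := by positivity
    have h3 := (Real.log_le_iff_le_exp h2).1 hlog
    linarith
  have hu := dev_W Hy w E Sf k x s _ A hx1 hδx hB hPhi
  have hv := dev_S Hy w E Sf k x s _ A hx1 hδx hB hPhi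
  have hδdef : nδ k x (nπ E A) = (x ^ 2 * nπ E A ^ (8 * k))⁻¹ := rfl
  rw [← hδdef] at hδ0 hδ1 hδx hb1 hb2 hb3
  generalize hδg : nδ k x (nπ E A) = δ at *
  generalize hηg : (k : ℝ) / (A.card : ℝ) = η at *
  have hkη : (k : ℝ) * η ≤ δ / 20 := by
    have h3 : 0 ≤ (k : ℝ) * η := by positivity
    have h4 : 1 * ((k : ℝ) * η) ≤ x ^ 3 * (k * η) := mul_le_mul_of_nonneg_right hlam1 h3
    linarith
  have hη1 : η ≤ 1 / 2 := by
    have : 1 * η ≤ k * η := mul_le_mul_of_nonneg_right (by linarith) hη0.le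
    linarith
  have hW : ∀ e ∈ A, nπ E A ^ (k - 1) * (1 - 2 * δ) ≤ nW Hy w A e ∧
      nW Hy w A e ≤ nπ E A ^ (k - 1) * (1 + 2 * δ) := by
    intro e he
    obtain ⟨h2, h3⟩ := hu e he
    rw [div_le_iff₀ ha0] at h2
    rw [le_div_iff₀ ha0] at h3
    constructor <;> linarith
  obtain ⟨hΩ0, hΩ1, hΩ2⟩ := Omega_bounds Hy w k (by omega) (fun Q hQ => (hHy Q hQ).2) A hAc0
    (nπ E A ^ (k - 1)) δ ha0 hδ1 hW
  rw [hηg] at hΩ1 hΩ2
  obtain ⟨hΔ1, hΔ2⟩ := num_Delta k η δ hη0 hδ0 hδ1 hkη hη1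
  have h1η : 0 < 1 - η := by linarith
  have hπ' : ∀ Q ∈ nH Hy A, nπ E (A \ Q) = nπ E A * (1 - η) := by
    intro Q hQ
    obtain ⟨h2, h3⟩ := (mem_nH Hy).1 hQ
    have h4 : ((A \ Q).card : ℝ) = (A.card : ℝ) - k := by
      rw [Finset.card_sdiff_of_subset h3, (hHy Q h2).2, Nat.cast_sub]
      rw [← (hHy Q h2).2]
      exact Finset.card_le_card h3
    unfold nπ
    rw [h4, ← hηg]
    field_simp
  have hδ' : nδ k x (nπ E A * (1 - η)) = δ + (δ * ((1 - η) ^ (8 * k))⁻¹ - δ) := by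
    rw [← hδg]
    unfold nδ
    rw [mul_pow, add_sub_cancel, ← mul_inv]
    congr 1
    ring
  have hP0 : ∀ Q ∈ nH Hy A, 0 ≤ w Q / (∑ Q ∈ nH Hy A, w Q) := by
    intro Q hQ
    exact div_nonneg (hw Q ((mem_nH Hy).1 hQ).1) hΩ0.le
  have hP1 : ∑ Q ∈ nH Hy A, w Q / (∑ Q ∈ nH Hy A, w Q) = 1 := by
    rw [← Finset.sum_div, div_self hΩ0.ne']
  have hfinal : ∑ Q ∈ nH Hy A, (w Q / (∑ Q ∈ nH Hy A, w Q)) * nPhi Hy w E Sf k x s (A \ Q) ≤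
      nPhi Hy w E Sf k x s A := by
    have h2 : nPhi Hy w E Sf k x s A = ∑ e ∈ A,
        (Real.exp (x ^ 3 * (nW Hy w A e / nπ E A ^ (k - 1) - 1 - δ)) +
        Real.exp (x ^ 3 * (1 - δ - nW Hy w A e / nπ E A ^ (k - 1)))) +
        ∑ S ∈ Sf, Real.exp (x ^ 3 * (((S ∩ A).card : ℝ) / (nπ E A * s) - 1 - δ)) := by
      unfold nPhi
      rw [hδg]
    rw [h2]
    refine le_trans (Finset.sum_le_sum (fun Q hQ => mul_le_mul_of_nonneg_left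
      (phi_term Hy w E Sf k x s A Q ((mem_nH Hy).1 hQ).2 (nπ E A) η δ
        (δ * ((1 - η) ^ (8 * k))⁻¹ - δ) (nπ E A ^ (k - 1)) hπ0 h1η hs0 rfl (hπ' Q hQ) hδ')
        (hP0 Q hQ))) ?_
    apply avg_bound
    · intro e _; exact (Real.exp_pos _).le
    · intro e _; exact (Real.exp_pos _).le
    · intro e _; exact (Real.exp_pos _).le
    · intro e he
      exact meanE Hy w E k hk ν hν0 hHy hw hν A hA (nπ E A ^ (k - 1)) δ η (x ^ 3)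
        (δ * ((1 - η) ^ (8 * k))⁻¹ - δ) _ ha0 hδ0 hδ1 hη0 hlam1 hb1 hb2 hW hΩ0 rfl hΩ1 hΩ2
        hΔ1 hΔ2 e he 1 (Or.inl rfl)
    · intro e he
      exact meanE Hy w E k hk ν hν0 hHy hw hν A hA (nπ E A ^ (k - 1)) δ η (x ^ 3)
        (δ * ((1 - η) ^ (8 * k))⁻¹ - δ) _ ha0 hδ0 hδ1 hη0 hlam1 hb1 hb2 hW hΩ0 rfl hΩ1 hΩ2
        hΔ1 hΔ2 e he (-1) (Or.inr rfl)
    · intro S hS
      exact meanS Hy w E k hk hHy hw A (nπ E A ^ (k - 1)) δ η (x ^ 3)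
        (δ * ((1 - η) ^ (8 * k))⁻¹ - δ) _ (nπ E A * s) ha0 hδ0 hδ1 hη0 hlam1 hb1
        (by positivity) hb3 hW hΩ0 rfl hΩ1 hΩ2 hΔ1 hΔ2 S (hv S hS)
  obtain ⟨Q, hQ, hQ'⟩ := exists_of_avg _ _ _ _ hP0 hP1 hfinal
  obtain ⟨hQ1, hQ2⟩ := (mem_nH Hy).1 hQ
  exact ⟨Q, hQ1, hQ2, hQ'⟩

/-- the potential at the start -/
lemma phi_start (E : Finset γ) (Sf : Finset (Finset γ)) (k : ℕ) (x s : ℝ) (hx0 : 0 < x)
    (hs0 : 0 < s) (hNpos : 0 < (E.card : ℝ))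
    (hHy : ∀ Q ∈ Hy, Q ⊆ E ∧ Q.card = k)
    (h1 : ∀ e ∈ E, ∑ Q ∈ Hy.filter (fun Q => e ∈ Q), w Q = 1)
    (hS : ∀ S ∈ Sf, S ⊆ E ∧ (S.card : ℝ) ≤ s) :
    nPhi Hy w E Sf k x s E ≤ 2 * (E.card : ℝ) + (Sf.card : ℝ) := by
  have hπ1 : nπ E E = 1 := by
    unfold nπ; exact div_self hNpos.ne'
  have hδ1 : nδ k x 1 = (x ^ 2)⁻¹ := by
    unfold nδ; rw [one_pow, mul_one]
  have hδ0 : 0 < (x ^ 2)⁻¹ := by positivity
  have hx3 : 0 < x ^ 3 := by positivity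
  unfold nPhi
  rw [hπ1, hδ1, one_pow, one_mul]
  have e1 : ∀ e ∈ E, nW Hy w E e = 1 := by
    intro e he
    rw [← h1 e he]
    unfold nW
    have : nH Hy E = Hy := by
      unfold nH
      exact Finset.filter_true_of_mem (fun Q hQ => (hHy Q hQ).1)
    rw [this, Finset.sum_filter]
  apply add_le_add
  · calc _ ≤ ∑ e ∈ E, (2 : ℝ) := by
          apply Finset.sum_le_sum
          intro e he
          rw [e1 e he, div_one]
          have h2 : Real.exp (x ^ 3 * (1 - 1 - (x ^ 2)⁻¹)) ≤ 1 := by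
            rw [Real.exp_le_one_iff]
            apply mul_nonpos_of_nonneg_of_nonpos hx3.le
            linarith
          have h3 : Real.exp (x ^ 3 * (1 - (x ^ 2)⁻¹ - 1)) ≤ 1 := by
            rw [Real.exp_le_one_iff]
            apply mul_nonpos_of_nonneg_of_nonpos hx3.le
            linarith
          linarith
      _ = 2 * (E.card : ℝ) := by rw [Finset.sum_const, nsmul_eq_mul]; ring
  · calc _ ≤ ∑ S ∈ Sf, (1 : ℝ) := by
          apply Finset.sum_le_sum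
          intro S hSf
          rw [Real.exp_le_one_iff]
          have h2 : ((S ∩ E).card : ℝ) / s ≤ 1 := by
            rw [div_le_one hs0]
            refine le_trans ?_ (hS S hSf).2
            exact_mod_cast Finset.card_le_card Finset.inter_subset_left
          apply mul_nonpos_of_nonneg_of_nonpos hx3.le
          linarith
      _ = (Sf.card : ℝ) := by rw [Finset.sum_const, nsmul_eq_mul, mul_one]

end NibS

open NibS in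
theorem nib (k : ℕ) (hk : 2 ≤ k) : ∃ Ck : ℝ, 1 ≤ Ck ∧
    ∀ (γ : Type) [DecidableEq γ] (E : Finset γ) (Hy : Finset (Finset γ)) (w : Finset γ → ℝ)
      (Sf : Finset (Finset γ)) (ν s x p : ℝ),
      (∀ Q ∈ Hy, Q ⊆ E ∧ Q.card = k) → (∀ Q ∈ Hy, 0 ≤ w Q) →
      (∀ e ∈ E, ∑ Q ∈ Hy.filter (fun Q => e ∈ Q), w Q = 1) →
      (∀ e ∈ E, ∀ e' ∈ E, e ≠ e' → ∑ Q ∈ Hy.filter (fun Q => e ∈ Q ∧ e' ∈ Q), w Q ≤ ν) →
      (∀ S ∈ Sf, S ⊆ E ∧ (S.card : ℝ) ≤ s) →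
      0 < p → p ≤ 1 → Ck ≤ x * p ^ (8 * k) →
      Real.log (2 * (E.card : ℝ) + (Sf.card : ℝ) + 1) ≤ x → ν * x ^ 6 ≤ 1 → x ^ 6 ≤ s →
      ∃ Mt ⊆ Hy, (∀ Q ∈ Mt, ∀ Q' ∈ Mt, Q ≠ Q' → Disjoint Q Q') ∧
        ∀ S ∈ Sf, ((S.filter (fun e => ∀ Q ∈ Mt, e ∉ Q)).card : ℝ) ≤ 2 * p * s := by
  have hkR : (2 : ℝ) ≤ k := by exact_mod_cast hk
  have hk2 : (4 : ℝ) ≤ (k : ℝ) ^ 2 := by nlinarith
  refine ⟨1000 * (k : ℝ) ^ 2, by linarith, ?_⟩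
  intro γ _ E Hy w Sf ν s x p hHy hw h1 hν hS hp0 hp1 hC hlog hνx hsx
  obtain ⟨hxC, hx1, hx0⟩ := num_x k hk x p hp0 hp1 hC
  have hs0 : 0 < s := lt_of_lt_of_le (by positivity) hsx
  rcases Finset.eq_empty_or_nonempty E with hE | ⟨e0, he0⟩
  · refine ⟨∅, Finset.empty_subset _, by simp, ?_⟩
    intro S hSf
    have : S = ∅ := by
      have := (hS S hSf).1
      rw [hE] at this
      exact Finset.subset_empty.1 this
    rw [this]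
    simp
    positivity
  obtain ⟨hNν, hν0⟩ := N_ge Hy w hw E ν k hk hHy h1 hν e0 he0
  have hNpos : 0 < (E.card : ℝ) := by
    have : 0 < E.card := Finset.card_pos.2 ⟨e0, he0⟩
    exact_mod_cast this
  have hNx := num_N x (E.card : ℝ) ν hx0 hNpos hNν hνx
  obtain ⟨J, hJ⟩ : ∃ J : ℕ, J = ⌊(1 - p) * (E.card : ℝ) / k⌋₊ := ⟨_, rfl⟩
  have hkpos : (0 : ℝ) < k := by linarith
  have hJ1 : (J : ℝ) * k ≤ (1 - p) * (E.card : ℝ) := by
    have h2 : (J : ℝ) ≤ (1 - p) * (E.card : ℝ) / k := by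
      rw [hJ]
      exact Nat.floor_le (div_nonneg (mul_nonneg (by linarith) hNpos.le) hkpos.le)
    rwa [le_div_iff₀ hkpos] at h2
  have hJ2 : (1 - p) * (E.card : ℝ) ≤ ((J : ℝ) + 1) * k := by
    have h2 : (1 - p) * (E.card : ℝ) / k < (J : ℝ) + 1 := by
      rw [hJ]
      exact Nat.lt_floor_add_one _
    rw [div_lt_iff₀ hkpos] at h2
    exact h2.le
  have hind : ∀ j : ℕ, j ≤ J → ∃ (Mt : Finset (Finset γ)) (A : Finset γ), Mt ⊆ Hy ∧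
      (∀ Q ∈ Mt, ∀ Q' ∈ Mt, Q ≠ Q' → Disjoint Q Q') ∧ A ⊆ E ∧ (∀ Q ∈ Mt, Disjoint Q A) ∧
      (∀ e ∈ E, (∀ Q ∈ Mt, e ∉ Q) → e ∈ A) ∧ (A.card : ℝ) + j * k = (E.card : ℝ) ∧
      nPhi Hy w E Sf k x s A ≤ 2 * (E.card : ℝ) + (Sf.card : ℝ) := by
    intro j
    induction j with
    | zero =>
      intro _
      refine ⟨∅, E, Finset.empty_subset _, by simp, Finset.Subset.refl _, by simp, ?_, ?_,
        phi_start Hy w E Sf k x s hx0 hs0 hNpos hHy h1 hS⟩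
      · intro e he _; exact he
      · simp
    | succ j ih =>
      intro hj
      obtain ⟨Mt, A, hM1, hM2, hA1, hA2, hA3, hA4, hA5⟩ := ih (by omega)
      have hjJ : ((j : ℝ) + 1) ≤ J := by exact_mod_cast hj
      have hAc : p * (E.card : ℝ) + k ≤ (A.card : ℝ) := by
        have : ((j : ℝ) + 1) * k ≤ J * k := mul_le_mul_of_nonneg_right hjJ hkpos.le
        linarith
      obtain ⟨Q, hQ1, hQ2, hQ3⟩ := nib_step Hy w E Sf k hk ν s x p hHy hw h1 hν hp0 hp1 hC hlog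
        hνx hsx A hA1 hAc hA5
      refine ⟨insert Q Mt, A \ Q, ?_, ?_, ?_, ?_, ?_, ?_, hQ3.trans hA5⟩
      · exact Finset.insert_subset hQ1 hM1
      · intro R hR R' hR' hne
        rw [mem_insert] at hR hR'
        rcases hR with rfl | hR <;> rcases hR' with rfl | hR'
        · exact absurd rfl hne
        · exact ((hA2 R' hR').mono_right hQ2).symm
        · exact (hA2 R hR).mono_right hQ2
        · exact hM2 R hR R' hR' hne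
      · exact Finset.sdiff_subset.trans hA1
      · intro R hR
        rw [mem_insert] at hR
        rcases hR with rfl | hR
        · exact Finset.disjoint_sdiff
        · exact (hA2 R hR).mono_right Finset.sdiff_subset
      · intro e he hall
        rw [mem_sdiff]
        refine ⟨hA3 e he (fun R hR => hall R (mem_insert_of_mem hR)), hall Q (mem_insert_self _ _)⟩
      · have h2 : ((A \ Q).card : ℝ) = (A.card : ℝ) - k := by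
          rw [Finset.card_sdiff_of_subset hQ2, (hHy Q hQ1).2, Nat.cast_sub]
          rw [← (hHy Q hQ1).2]
          exact Finset.card_le_card hQ2
        rw [h2]
        push_cast
        linarith
  obtain ⟨Mt, A, hM1, hM2, hA1, hA2, hA3, hA4, hA5⟩ := hind J le_rfl
  refine ⟨Mt, hM1, hM2, ?_⟩
  intro S hSf
  have hπN : (A.card : ℝ) = nπ E A * (E.card : ℝ) := by
    unfold nπ; rw [div_mul_cancel₀ _ hNpos.ne']
  have hπp : p ≤ nπ E A := by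
    have : p * (E.card : ℝ) ≤ nπ E A * (E.card : ℝ) := by rw [← hπN]; linarith
    exact le_of_mul_le_mul_right this hNpos
  have hπ0 : 0 < nπ E A := lt_of_lt_of_le hp0 hπp
  have hπ1 : nπ E A ≤ 1 := by
    have : (A.card : ℝ) ≤ (E.card : ℝ) := by exact_mod_cast Finset.card_le_card hA1
    rw [hπN] at this
    have : nπ E A * (E.card : ℝ) ≤ 1 * (E.card : ℝ) := by linarith
    exact le_of_mul_le_mul_right this hNpos
  have hπ2 : nπ E A ≤ p + p / 2 := by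
    have h2 : nπ E A * (E.card : ℝ) ≤ p * (E.card : ℝ) + k := by rw [← hπN]; linarith
    have h3 : (k : ℝ) ≤ p / 2 * (E.card : ℝ) := by
      have h4 : 1000 * (k : ℝ) ^ 2 ≤ x * p := by
        refine hC.trans (mul_le_mul_of_nonneg_left ?_ hx0.le)
        calc p ^ (8 * k) ≤ p ^ 1 := pow_le_pow_of_le_one hp0.le hp1 (by omega)
          _ = p := pow_one p
      have h5 : x ≤ x ^ 6 := by
        calc x = x ^ 1 := (pow_one x).symm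
          _ ≤ x ^ 6 := pow_le_pow_right₀ hx1 (by norm_num)
      have h6 : x * p ≤ (E.card : ℝ) * p := mul_le_mul_of_nonneg_right (h5.trans hNx) hp0.le
      nlinarith
    have h7 : nπ E A * (E.card : ℝ) ≤ (p + p / 2) * (E.card : ℝ) := by linarith
    exact le_of_mul_le_mul_right h7 hNpos
  obtain ⟨hδ0, hδ1, hδx⟩ := num_delta k hk x p (nπ E A) hp0 hπp hπ1 hC
  have hB : 2 * (E.card : ℝ) + (Sf.card : ℝ) ≤ Real.exp x := by
    have h2 : 0 < 2 * (E.card : ℝ) + (Sf.card : ℝ) + 1 := by positivity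
    have h3 := (Real.log_le_iff_le_exp h2).1 hlog
    linarith
  have hv := dev_S Hy w E Sf k x s _ A hx1 hδx hB hA5 S hSf
  have hδ1' : nδ k x (nπ E A) ≤ 1 / 100 := hδ1
  have hsubset : S.filter (fun e => ∀ Q ∈ Mt, e ∉ Q) ⊆ S ∩ A := by
    intro e he
    rw [mem_filter] at he
    rw [mem_inter]
    exact ⟨he.1, hA3 e ((hS S hSf).1 he.1) he.2⟩
  have hcard : ((S.filter (fun e => ∀ Q ∈ Mt, e ∉ Q)).card : ℝ) ≤ ((S ∩ A).card : ℝ) := by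
    exact_mod_cast Finset.card_le_card hsubset
  have hπs : 0 < nπ E A * s := by positivity
  rw [div_le_iff₀ hπs] at hv
  have h5 : (1 + 2 * nδ k x (nπ E A)) * (nπ E A * s) ≤
      (1 + 2 * (1 / 100)) * ((p + p / 2) * s) := by
    apply mul_le_mul
    · linarith
    · exact mul_le_mul_of_nonneg_right hπ2 hs0.le
    · exact hπs.le
    · norm_num
  have h6 : 0 < p * s := by positivity
  calc _ ≤ ((S ∩ A).card : ℝ) := hcard
    _ ≤ _ := hv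
    _ ≤ _ := h5
    _ ≤ 2 * p * s := by linarith

end Pool.Agent.Kv
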