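import Pool.Agent.Designs.Frac
import Pool.Agent.Designs.Nib
import Pool.Agent.Designs.Asym

set_option autoImplicit false

/-!
# Module NibApp: almost decomposition (section 12, APPLICATION)
-/

namespace Pool.Agent.Kv

open Finset

/-- number of `q`-sets containing `U`. -/
lemma nibapp_count (q n : ℕ) (U : Finset ℕ) (_hU : U.card ≤ q) :
    ((powersetCard q (range n)).filter (fun Q => U ⊆ Q)).card ≤ n ^ (q - U.card) := by
  have h1 : ((powersetCard q (range n)).filter (fun Q => U ⊆ Q)).card ≤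
      (powersetCard (q - U.card) (range n)).card := by
    apply card_le_card_of_injOn (fun Q => Q \ U)
    · intro Q hQ
      simp only [coe_filter, mem_powersetCard, Set.mem_ofPred_eq] at hQ
      simp only [mem_coe, mem_powersetCard]
      refine ⟨sdiff_subset.trans hQ.1.1, ?_⟩
      rw [card_sdiff_of_subset hQ.2, hQ.1.2]
    · intro Q hQ Q' hQ' h
      simp only [coe_filter, mem_powersetCard, Set.mem_ofPred_eq] at hQ hQ'
      simp only at h
      rw [← sdiff_union_of_subset hQ.2, ← sdiff_union_of_subset hQ'.2, h]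
  refine h1.trans ?_
  rw [card_powersetCard, card_range]
  exact Nat.choose_le_pow n (q - U.card)

/-- lower bound of a binomial coefficient. -/
lemma nibapp_choose {q r n : ℕ} (hrq : r < q) (hn : 2 * q ≤ n) :
    (n : ℝ) ^ (q - r) ≤ 2 ^ (q - r) * ((q - r).factorial : ℝ) * ((n - r).choose (q - r) : ℝ) := by
  have h1 : ((n - r + 1 - (q - r) : ℕ) : ℝ) ^ (q - r) ≤
      ((q - r).factorial : ℝ) * ((n - r).choose (q - r) : ℝ) := by
    have := Nat.pow_sub_le_descFactorial (n - r) (q - r)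
    rw [Nat.descFactorial_eq_factorial_mul_choose] at this
    exact_mod_cast this
  have h2 : (n : ℝ) ≤ 2 * ((n - r + 1 - (q - r) : ℕ) : ℝ) := by
    have : n ≤ 2 * (n - r + 1 - (q - r)) := by omega
    exact_mod_cast this
  calc (n : ℝ) ^ (q - r) ≤ (2 * ((n - r + 1 - (q - r) : ℕ) : ℝ)) ^ (q - r) := by
        gcongr
    _ = 2 ^ (q - r) * ((n - r + 1 - (q - r) : ℕ) : ℝ) ^ (q - r) := mul_pow _ _ _
    _ ≤ _ := by
        rw [mul_assoc]
        exact mul_le_mul_of_nonneg_left h1 (by positivity)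

lemma nibapp_sup {q r : ℕ} (hr : 1 ≤ r) (hrq : r < q) {Q : Finset ℕ} (hQ : Q.card = q) :
    (powersetCard r Q).sup id = Q := by
  obtain ⟨m, rfl⟩ : ∃ m, r = m + 1 := ⟨r - 1, by omega⟩
  exact powersetCard_sup Q m (by omega)

lemma nibapp_log (n r : ℕ) {a : ℝ} (ha : a ≤ ((n : ℝ) + 1) ^ (r + 2)) (ha0 : 0 < a)
    (hL : ((r + 2 : ℕ) : ℝ) ≤ (Lam n : ℝ)) : Real.log a ≤ (Lam n : ℝ) ^ 2 := by
  have h1 : Real.log a ≤ Real.log (((n : ℝ) + 1) ^ (r + 2)) := Real.log_le_log ha0 ha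
  rw [Real.log_pow] at h1
  have h2 := log_le_Lam n
  have h3 : 0 ≤ Real.log ((n : ℝ) + 1) := Real.log_nonneg (by linarith [Nat.cast_nonneg (α := ℝ) n])
  have h4 : 0 ≤ (Lam n : ℝ) := Nat.cast_nonneg _
  calc Real.log a ≤ ((r + 2 : ℕ) : ℝ) * Real.log ((n : ℝ) + 1) := h1
    _ ≤ (Lam n : ℝ) * (Lam n : ℝ) := mul_le_mul hL h2 h3 h4
    _ = _ := by ring

lemma nibapp_two {q r : ℕ} (hr : 1 ≤ r) (hrq : r < q) : 2 ≤ q.choose r := by
  obtain ⟨a, rfl⟩ : ∃ a, q = a + 1 := ⟨q - 1, by omega⟩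
  obtain ⟨b, rfl⟩ : ∃ b, r = b + 1 := ⟨r - 1, by omega⟩
  rw [Nat.choose_succ_succ']
  have h1 : 0 < a.choose b := Nat.choose_pos (by omega)
  have h2 : 0 < a.choose (b + 1) := Nat.choose_pos (by omega)
  omega

/-- star sizes. -/
lemma nibapp_star (r n : ℕ) (hr : 1 ≤ r) {S : Finset ℕ} (hS : S.card = r - 1)
    (E : Finset (Finset ℕ)) (hE : E ⊆ powersetCard r (range n)) :
    ((E.filter (fun e => S ⊆ e)).card : ℝ) ≤ n := by
  have h1 := nibapp_count r n S (by omega)
  rw [hS, show r - (r - 1) = 1 by omega, pow_one] at h1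
  have h2 : (E.filter (fun e => S ⊆ e)).card ≤
      ((powersetCard r (range n)).filter (fun Q => S ⊆ Q)).card :=
    card_le_card (filter_subset_filter _ hE)
  exact_mod_cast h2.trans h1

/-- the arithmetic of the parameters. -/
lemma nibapp_params (k r B : ℕ) (Ck C : ℝ) : ∃ n0 : ℕ, ∀ n ≥ n0,
    Ck ≤ (Lam n : ℝ) ^ (8 * k * B + 2) * (1 / (2 * (Lam n : ℝ) ^ B)) ^ (8 * k) ∧
    ((r + 2 : ℕ) : ℝ) ≤ (Lam n : ℝ) ∧ C * ((Lam n : ℝ) ^ (8 * k * B + 2)) ^ 6 ≤ n ∧
    ((Lam n : ℝ) ^ (8 * k * B + 2)) ^ 6 ≤ n := by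
  obtain ⟨n1, h1⟩ := Lam_large (⌈Ck * 2 ^ (8 * k)⌉₊ + r + 2)
  obtain ⟨n2, h2⟩ := Lam_pow_le ((8 * k * B + 2) * 6) (⌈C⌉₊ + 1)
  refine ⟨max n1 n2, fun n hn => ?_⟩
  have e1 := h1 n (le_trans (le_max_left _ _) hn)
  have e2 := h2 n (le_trans (le_max_right _ _) hn)
  have hL1 : (1 : ℝ) ≤ (Lam n : ℝ) := one_le_Lam n
  have hL0 : (0 : ℝ) < (Lam n : ℝ) := by linarith
  have e1' : ((⌈Ck * 2 ^ (8 * k)⌉₊ + r + 2 : ℕ) : ℝ) ≤ (Lam n : ℝ) := by exact_mod_cast e1
  have e2' : (((⌈C⌉₊ + 1 : ℕ) : ℝ)) * (Lam n : ℝ) ^ ((8 * k * B + 2) * 6) ≤ n := by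
    exact_mod_cast e2
  push_cast at e1' e2'
  have hceil : Ck * 2 ^ (8 * k) ≤ (⌈Ck * 2 ^ (8 * k)⌉₊ : ℝ) := Nat.le_ceil _
  have hceil2 : C ≤ (⌈C⌉₊ : ℝ) := Nat.le_ceil _
  have hc0 : (0 : ℝ) ≤ (⌈Ck * 2 ^ (8 * k)⌉₊ : ℝ) := Nat.cast_nonneg _
  have hc1 : (0 : ℝ) ≤ (⌈C⌉₊ : ℝ) := Nat.cast_nonneg _
  have hr0 : (0 : ℝ) ≤ (r : ℝ) := Nat.cast_nonneg _
  refine ⟨?_, ?_, ?_, ?_⟩
  · have e3 : (Lam n : ℝ) ^ (8 * k * B + 2) * (1 / (2 * (Lam n : ℝ) ^ B)) ^ (8 * k) =
        (Lam n : ℝ) ^ 2 / 2 ^ (8 * k) := by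
      rw [div_pow, one_pow, mul_pow, ← pow_mul, mul_comm B (8 * k), pow_add]
      field_simp
    rw [e3, le_div_iff₀ (by positivity)]
    nlinarith
  · push_cast; linarith
  · rw [← pow_mul]
    refine le_trans ?_ e2'
    exact mul_le_mul_of_nonneg_right (by linarith) (by positivity)
  · rw [← pow_mul]
    refine le_trans ?_ e2'
    have : (0 : ℝ) ≤ (Lam n : ℝ) ^ ((8 * k * B + 2) * 6) := by positivity
    nlinarith

theorem nibapp {q r : ℕ} (hr : 1 ≤ r) (hrq : r < q) : ∃ c4 : ℝ, 0 < c4 ∧ ∀ B : ℕ, ∃ n0 : ℕ,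
    ∀ n ≥ n0, ∀ F ⊆ powersetCard r (range n), DegLe (r - 1) F (c4 * n) →
      ∃ Mt : Finset (Finset ℕ), (∀ Q ∈ Mt, Q ⊆ range n ∧ Q.card = q) ∧
        (∀ e, vec r Mt e ≤ 1) ∧ (∀ e ∈ F, vec r Mt e = 0) ∧
        DegLe (r - 1) ((powersetCard r (range n)).filter (fun e => e ∉ F ∧ vec r Mt e = 0))
          ((n : ℝ) / (Lam n : ℝ) ^ B) := by
  classical
  obtain ⟨c4, hc4, n1, hfrac⟩ := frac hr hrq
  refine ⟨c4, hc4, fun B => ?_⟩
  set k := q.choose r with hk
  obtain ⟨Ck, hCk, hnib⟩ := nib k (nibapp_two hr hrq)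
  set C : ℝ := 2 * (2 ^ (q - r) * ((q - r).factorial : ℝ)) with hC
  obtain ⟨n2, hpar⟩ := nibapp_params k r B Ck C
  refine ⟨max n1 (max n2 (2 * q)), fun n hn F hF hdeg => ?_⟩
  have hn1 : n1 ≤ n := le_trans (le_max_left _ _) hn
  have hn2 : n2 ≤ n := le_trans (le_trans (le_max_left _ _) (le_max_right _ _)) hn
  have hnq : 2 * q ≤ n := le_trans (le_trans (le_max_right _ _) (le_max_right _ _)) hn
  obtain ⟨w, hw0, hw1, hw2, hw3⟩ := hfrac n hn1 F hF hdeg
  obtain ⟨hp1, hp2, hp3, hp4⟩ := hpar n hn2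
  have hnpos : 0 < (n : ℝ) := by
    have : 0 < n := by omega
    exact_mod_cast this
  have hL1 : (1 : ℝ) ≤ (Lam n : ℝ) := one_le_Lam n
  have hL0 : (0 : ℝ) < (Lam n : ℝ) := by linarith
  -- the hypergraph
  set E := (powersetCard r (range n)).filter (fun e => e ∉ F) with hE
  set Qs := (powersetCard q (range n)).filter (fun Q => ∀ e ∈ F, ¬ e ⊆ Q) with hQs
  have hQs1 : ∀ Q ∈ Qs, Q ⊆ range n ∧ Q.card = q ∧ ∀ e ∈ F, ¬ e ⊆ Q := by
    intro Q hQ
    rw [hQs, mem_filter, mem_powersetCard] at hQ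
    exact ⟨hQ.1.1, hQ.1.2, hQ.2⟩
  have hinj : Set.InjOn (powersetCard r) (Qs : Set (Finset ℕ)) := by
    intro Q hQ Q' hQ' h
    rw [← nibapp_sup hr hrq (hQs1 Q hQ).2.1, ← nibapp_sup hr hrq (hQs1 Q' hQ').2.1, h]
  -- sums over hyperedges
  have hsum : ∀ (P : Finset (Finset ℕ) → Prop) [DecidablePred P], ∑ h ∈ (Qs.image (powersetCard r)).filter P,
      w (h.sup id) = ∑ Q ∈ Qs.filter (fun Q => P (powersetCard r Q)), w Q := by
    intro P _
    rw [filter_image, sum_image (fun Q hQ Q' hQ' h => hinj (mem_filter.mp hQ).1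
      (mem_filter.mp hQ').1 h)]
    apply sum_congr rfl
    intro Q hQ
    rw [nibapp_sup hr hrq (hQs1 Q (mem_filter.mp hQ).1).2.1]
  have hmemK : ∀ Q, ∀ e ∈ E, e ∈ powersetCard r Q ↔ e ⊆ Q := by
    intro Q e he
    rw [hE, mem_filter, mem_powersetCard] at he
    rw [mem_powersetCard]
    exact ⟨fun h => h.1, fun h => ⟨h, he.1.2⟩⟩
  set x : ℝ := (Lam n : ℝ) ^ (8 * k * B + 2) with hx
  set p : ℝ := 1 / (2 * (Lam n : ℝ) ^ B) with hp
  have hpow1 : (1 : ℝ) ≤ (Lam n : ℝ) ^ B := one_le_pow₀ hL1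
  have hx0 : 0 < x := by positivity
  obtain ⟨Mt', hM1, hM2, hM3⟩ := hnib (Finset ℕ) E (Qs.image (powersetCard r))
    (fun h => w (h.sup id))
    ((powersetCard (r - 1) (range n)).image (fun S => E.filter (fun e => S ⊆ e)))
    (C / n) (n : ℝ) x p
    (by
      intro h hh
      obtain ⟨Q, hQ, rfl⟩ := mem_image.mp hh
      obtain ⟨a1, a2, a3⟩ := hQs1 Q hQ
      refine ⟨fun e he => ?_, ?_⟩
      · rw [mem_powersetCard] at he
        rw [hE, mem_filter, mem_powersetCard]
        exact ⟨⟨he.1.trans a1, he.2⟩, fun heF => a3 e heF he.1⟩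
      · rw [card_powersetCard, a2])
    (fun h _ => hw0 _)
    (by
      intro e he
      have h1 := hw3 e (mem_filter.mp he).1 (mem_filter.mp he).2
      rw [hsum (fun h => e ∈ h), ← h1]
      apply sum_subset_zero_on_sdiff
      · intro Q hQ
        rw [mem_filter] at hQ
        rw [mem_filter, mem_powersetCard]
        exact ⟨⟨(hQs1 Q hQ.1).1, (hQs1 Q hQ.1).2.1⟩, (hmemK Q e he).mp hQ.2⟩
      · intro Q hQ
        rw [mem_sdiff, mem_filter, mem_filter] at hQ
        by_contra hne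
        obtain ⟨b1, b2, b3⟩ := hw2 Q hne
        apply hQ.2
        refine ⟨?_, (hmemK Q e he).mpr hQ.1.2⟩
        rw [hQs, mem_filter]
        exact ⟨hQ.1.1, b3⟩
      · intro Q _
        rfl)
    (by
      intro e he e' he' hne
      rw [hsum (fun h => e ∈ h ∧ e' ∈ h)]
      have hec := (mem_powersetCard.mp (mem_filter.mp he).1).2
      have hec' := (mem_powersetCard.mp (mem_filter.mp he').1).2
      -- the union has at least `r + 1` elements
      have hU : r + 1 ≤ (e ∪ e').card := by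
        by_contra hlt
        have h1 : e ∪ e' = e := (eq_of_subset_of_card_le subset_union_left (by omega)).symm
        have h2 : e' ⊆ e := by rw [← h1]; exact subset_union_right
        exact hne (eq_of_subset_of_card_le h2 (by omega)).symm
      set Fs := Qs.filter (fun Q => e ∈ powersetCard r Q ∧ e' ∈ powersetCard r Q) with hFs
      have hFs1 : ∀ Q ∈ Fs, Q ∈ (powersetCard q (range n)).filter (fun Q => e ∪ e' ⊆ Q) := by
        intro Q hQ
        rw [hFs, mem_filter] at hQ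
        rw [mem_filter, mem_powersetCard]
        exact ⟨⟨(hQs1 Q hQ.1).1, (hQs1 Q hQ.1).2.1⟩,
          union_subset ((hmemK Q e he).mp hQ.2.1) ((hmemK Q e' he').mp hQ.2.2)⟩
      have hcardF : (Fs.card : ℝ) ≤ (n : ℝ) ^ (q - r - 1) := by
        rcases Fs.eq_empty_or_nonempty with h0 | ⟨Q, hQ⟩
        · rw [h0, card_empty, Nat.cast_zero]; positivity
        · have h1 := hFs1 Q hQ
          rw [mem_filter, mem_powersetCard] at h1
          have h2 : (e ∪ e').card ≤ q := by rw [← h1.1.2]; exact card_le_card h1.2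
          have h3 : Fs.card ≤ n ^ (q - (e ∪ e').card) :=
            (card_le_card hFs1).trans (nibapp_count q n (e ∪ e') h2)
          have h4 : n ^ (q - (e ∪ e').card) ≤ n ^ (q - r - 1) :=
            Nat.pow_le_pow_right (by omega) (by omega)
          exact_mod_cast h3.trans h4
      have hchoose : (0 : ℝ) < ((n - r).choose (q - r) : ℝ) := by
        exact_mod_cast Nat.choose_pos (by omega)
      have hwle : ∀ Q, w Q ≤ 2 / ((n - r).choose (q - r) : ℝ) := by
        intro Q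
        rw [le_div_iff₀ hchoose]
        exact hw1 Q
      calc ∑ Q ∈ Fs, w Q ≤ ∑ _Q ∈ Fs, 2 / ((n - r).choose (q - r) : ℝ) :=
            sum_le_sum fun Q _ => hwle Q
        _ = Fs.card * (2 / ((n - r).choose (q - r) : ℝ)) := by
            rw [sum_const, nsmul_eq_mul]
        _ ≤ (n : ℝ) ^ (q - r - 1) * (2 / ((n - r).choose (q - r) : ℝ)) :=
            mul_le_mul_of_nonneg_right hcardF (by positivity)
        _ ≤ C / n := by
            rw [← mul_div_assoc, div_le_div_iff₀ hchoose hnpos]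
            have h5 := nibapp_choose hrq hnq
            have h6 : (n : ℝ) ^ (q - r) = (n : ℝ) ^ (q - r - 1) * n := by
              rw [← pow_succ]; congr 1; omega
            rw [h6] at h5
            rw [hC]
            nlinarith)
    (by
      intro S hS
      obtain ⟨S0, hS0, rfl⟩ := mem_image.mp hS
      refine ⟨filter_subset _ _, ?_⟩
      exact nibapp_star r n hr (mem_powersetCard.mp hS0).2 E (filter_subset _ _))
    (by positivity)
    (by
      rw [hp, div_le_one (by positivity)]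
      linarith)
    hp1
    (by
      have hE1 : (E.card : ℝ) ≤ (n : ℝ) ^ r := by
        have h1 : E.card ≤ (powersetCard r (range n)).card := card_le_card (filter_subset _ _)
        rw [card_powersetCard, card_range] at h1
        exact_mod_cast h1.trans (Nat.choose_le_pow n r)
      have hS1 : ((((powersetCard (r - 1) (range n)).image
          (fun S => E.filter (fun e => S ⊆ e))).card : ℕ) : ℝ) ≤ (n : ℝ) ^ (r - 1) := by
        have h1 := card_image_le (s := powersetCard (r - 1) (range n))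
          (f := fun S => E.filter (fun e => S ⊆ e))
        rw [card_powersetCard, card_range] at h1
        exact_mod_cast h1.trans (Nat.choose_le_pow n (r - 1))
      have hn1' : (1 : ℝ) ≤ n := by
        have : 1 ≤ n := by omega
        exact_mod_cast this
      have hpows : (n : ℝ) ^ (r - 1) ≤ (n : ℝ) ^ r := pow_le_pow_right₀ hn1' (by omega)
      have hpow1' : (1 : ℝ) ≤ (n : ℝ) ^ r := one_le_pow₀ hn1'
      have hpow2 : (n : ℝ) ^ r ≤ ((n : ℝ) + 1) ^ r := pow_le_pow_left₀ hnpos.le (by linarith) r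
      have hbig : (4 : ℝ) ≤ ((n : ℝ) + 1) ^ 2 := by nlinarith
      have h1 : 2 * (E.card : ℝ) + ((((powersetCard (r - 1) (range n)).image
          (fun S => E.filter (fun e => S ⊆ e))).card : ℕ) : ℝ) + 1 ≤ ((n : ℝ) + 1) ^ (r + 2) := by
        rw [pow_add]
        have h2 : 4 * (n : ℝ) ^ r ≤ ((n : ℝ) + 1) ^ r * ((n : ℝ) + 1) ^ 2 := by
          rw [mul_comm]
          exact mul_le_mul hpow2 hbig (by norm_num) (by positivity)
        linarith
      refine (nibapp_log n r h1 (by positivity) hp2).trans ?_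
      rw [hx]
      exact pow_le_pow_right₀ hL1 (by omega))
    (by
      rw [div_mul_eq_mul_div, div_le_one hnpos]
      exact hp3)
    hp4
  -- the matching
  refine ⟨Qs.filter (fun Q => powersetCard r Q ∈ Mt'), ?_, ?_, ?_, ?_⟩
  · intro Q hQ
    rw [mem_filter] at hQ
    exact ⟨(hQs1 Q hQ.1).1, (hQs1 Q hQ.1).2.1⟩
  · intro e
    rw [vec_apply]
    by_contra hlt
    push Not at hlt
    have h1 : ∑ Q ∈ Qs.filter (fun Q => powersetCard r Q ∈ Mt'), K r Q e =
        (((Qs.filter (fun Q => powersetCard r Q ∈ Mt')).filter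
          (fun Q => e ⊆ Q ∧ e.card = r)).card : ℤ) := by
      simp only [K]
      rw [sum_ite]
      simp
    rw [h1] at hlt
    have h2 : 1 < ((Qs.filter (fun Q => powersetCard r Q ∈ Mt')).filter
          (fun Q => e ⊆ Q ∧ e.card = r)).card := by exact_mod_cast hlt
    obtain ⟨Q, hQ, Q', hQ', hne⟩ := one_lt_card.mp h2
    rw [mem_filter, mem_filter] at hQ hQ'
    have h3 : powersetCard r Q ≠ powersetCard r Q' := fun h => hne (hinj hQ.1.1 hQ'.1.1 h)
    have h4 := hM2 _ hQ.1.2 _ hQ'.1.2 h3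
    exact disjoint_left.mp h4 (mem_powersetCard.mpr hQ.2) (mem_powersetCard.mpr hQ'.2)
  · intro e he
    rw [vec_apply]
    apply sum_eq_zero
    intro Q hQ
    rw [mem_filter] at hQ
    simp only [K]
    rw [if_neg]
    intro h
    exact (hQs1 Q hQ.1).2.2 e he h.1
  · intro S hS
    by_cases hSn : S ⊆ range n
    · have h1 := hM3 (E.filter (fun e => S ⊆ e)) (mem_image.mpr ⟨S,
        mem_powersetCard.mpr ⟨hSn, hS⟩, rfl⟩)
      have h2 : 2 * p * (n : ℝ) = (n : ℝ) / (Lam n : ℝ) ^ B := by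
        rw [hp]; field_simp
      rw [h2] at h1
      refine le_trans ?_ h1
      have h3 : (((powersetCard r (range n)).filter (fun e => e ∉ F ∧
          vec r (Qs.filter (fun Q => powersetCard r Q ∈ Mt')) e = 0)).filter
            (fun e => S ⊆ e)).card ≤
          ((E.filter (fun e => S ⊆ e)).filter (fun e => ∀ Q ∈ Mt', e ∉ Q)).card := by
        apply card_le_card
        intro e he
        rw [mem_filter, mem_filter] at he
        rw [mem_filter, mem_filter, hE, mem_filter]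
        refine ⟨⟨⟨he.1.1, he.1.2.1⟩, he.2⟩, fun h hh heh => ?_⟩
        obtain ⟨Q, hQ, rfl⟩ := mem_image.mp (hM1 hh)
        have h4 := he.1.2.2
        rw [vec_apply] at h4
        have h5 : K r Q e ≤ ∑ Q ∈ Qs.filter (fun Q => powersetCard r Q ∈ Mt'), K r Q e := by
          apply single_le_sum (f := fun Q => K r Q e)
          · intro Q' _
            simp only [K]
            split_ifs <;> norm_num
          · rw [mem_filter]; exact ⟨hQ, hh⟩
        have h6 : K r Q e = 1 := by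
          simp only [K]
          rw [if_pos (mem_powersetCard.mp heh)]
        omega
      exact_mod_cast h3
    · have h3 : (((powersetCard r (range n)).filter (fun e => e ∉ F ∧
          vec r (Qs.filter (fun Q => powersetCard r Q ∈ Mt')) e = 0)).filter
            (fun e => S ⊆ e)) = ∅ := by
        rw [filter_eq_empty_iff]
        intro e he hSe
        exact hSn (hSe.trans (mem_powersetCard.mp (mem_filter.mp he).1).1)
      rw [h3, card_empty, Nat.cast_zero]
      positivity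

end Pool.Agent.Kv
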