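import Pool.Agent.Designs.OmniDefs

set_option autoImplicit false

/-!
# Module OmniAlg: the omni-absorber absorbs (section 10, DECOMPOSITION)
-/

namespace Pool.Agent.Kv

open Finset

lemma oa_nxt {k : ℕ} {U : ℕ → Finset ℕ} {e : Finset ℕ} {j : ℕ}
    (h : ∃ i ∈ range k, j < i ∧ e ⊆ U i) :
    j < nxt k U e j ∧ nxt k U e j < k ∧ e ⊆ U (nxt k U e j) ∧
      ∀ i, j < i → i < k → e ⊆ U i → nxt k U e j ≤ i := by
  have hne : {i : ℕ | j < i ∧ i < k ∧ e ⊆ U i}.Nonempty := by
    obtain ⟨i, hi, h1, h2⟩ := h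
    exact ⟨i, h1, mem_range.mp hi, h2⟩
  have hm := Nat.sInf_mem hne
  refine ⟨hm.1, hm.2.1, hm.2.2, fun i h1 h2 h3 => ?_⟩
  exact Nat.sInf_le ⟨h1, h2, h3⟩

/-- residues. -/
noncomputable def oaS (N : ℕ) (X : Finset (Finset ℕ)) (f : ℕ → Finset ℕ → ℤ) (e : Finset ℕ)
    (j : ℕ) : ℕ :=
  ((ind X e - ∑ j' ∈ range (j + 1), f j' e) % (N : ℤ)).toNat

lemma oaS_lt {N : ℕ} (hN : 0 < N) (X : Finset (Finset ℕ)) (f : ℕ → Finset ℕ → ℤ) (e : Finset ℕ)
    (j : ℕ) : oaS N X f e j < N := by
  unfold oaS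
  have h1 : (0 : ℤ) < (N : ℤ) := by exact_mod_cast hN
  have h2 := Int.emod_lt_of_pos (ind X e - ∑ j' ∈ range (j + 1), f j' e) h1
  have h3 := Int.emod_nonneg (ind X e - ∑ j' ∈ range (j + 1), f j' e) (ne_of_gt h1)
  omega

lemma oaS_dvd {N : ℕ} (hN : 0 < N) (X : Finset (Finset ℕ)) (f : ℕ → Finset ℕ → ℤ) (e : Finset ℕ)
    (j : ℕ) : (N : ℤ) ∣ (ind X e - ∑ j' ∈ range (j + 1), f j' e) - (oaS N X f e j : ℤ) := by
  unfold oaS
  have h1 : (0 : ℤ) < (N : ℤ) := by exact_mod_cast hN
  have h3 := Int.emod_nonneg (ind X e - ∑ j' ∈ range (j + 1), f j' e) (ne_of_gt h1)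
  rw [Int.toNat_of_nonneg h3]
  exact Int.dvd_self_sub_emod

/-- the consumer of a pool. -/
noncomputable def oaCn (k N : ℕ) (U : ℕ → Finset ℕ) (X : Finset (Finset ℕ))
    (f : ℕ → Finset ℕ → ℤ) (τ : PoolIx) : ℕ :=
  if τ.2.2 < oaS N X f τ.1 τ.2.1 then τ.2.1 else nxt k U τ.1 τ.2.1

lemma oa_mem_pools {r N k : ℕ} {U : ℕ → Finset ℕ} {τ : PoolIx} :
    τ ∈ pools r N k U ↔ τ.1.card = r ∧ τ.2.1 < k ∧ τ.2.2 < N ∧ τ.1 ⊆ U τ.2.1 ∧
      ∃ i ∈ range k, τ.2.1 < i ∧ τ.1 ⊆ U i := by
  unfold pools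
  simp only [mem_filter, mem_product, mem_biUnion, mem_range, mem_powersetCard]
  constructor
  · rintro ⟨⟨⟨j, hj, h1, h2⟩, h3, h4⟩, h5, h6⟩
    exact ⟨h2, h3, h4, h5, h6⟩
  · rintro ⟨h1, h2, h3, h4, h5⟩
    exact ⟨⟨⟨τ.2.1, h2, h4, h1⟩, h2, h3⟩, h4, h5⟩

lemma oaCn_mem {r N k : ℕ} {U : ℕ → Finset ℕ} {X : Finset (Finset ℕ)}
    {f : ℕ → Finset ℕ → ℤ} {τ : PoolIx} (hτ : τ ∈ pools r N k U) :
    oaCn k N U X f τ ∈ cands k U τ ∧ oaCn k N U X f τ < k ∧ τ.1 ⊆ U (oaCn k N U X f τ) := by
  rw [oa_mem_pools] at hτ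
  obtain ⟨h1, h2, h3, h4, h5⟩ := hτ
  have h6 := oa_nxt h5
  unfold oaCn cands
  split_ifs with h
  · exact ⟨mem_insert_self _ _, h2, h4⟩
  · exact ⟨mem_insert_of_mem (mem_singleton_self _), h6.2.1, h6.2.2.1⟩

lemma oa_count {r N k : ℕ} {U : ℕ → Finset ℕ} {X : Finset (Finset ℕ)}
    {f : ℕ → Finset ℕ → ℤ} (hN : 0 < N) {i : ℕ} (hi : i < k) {e : Finset ℕ} (he : e ⊆ U i)
    (her : e.card = r) (hf0 : ∀ j < k, ¬ e ⊆ U j → f j e = 0)
    (hsum : ind X e = ∑ j ∈ range k, f j e) :
    (N : ℤ) ∣ ((if e ∈ X ∧ ∀ j < i, ¬ e ⊆ U j then (1 : ℤ) else 0) -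
      (((pools r N k U).filter (fun τ => oaCn k N U X f τ = i ∧ τ.1 = e)).card : ℤ)) - f i e := by
  classical
  set g : ℕ → ℤ := fun j => ind X e - ∑ j' ∈ range (j + 1), f j' e with hg
  have hgs : ∀ j, (N : ℤ) ∣ g j - (oaS N X f e j : ℤ) := fun j => oaS_dvd hN X f e j
  -- the two parts
  have hsplit : (pools r N k U).filter (fun τ => oaCn k N U X f τ = i ∧ τ.1 = e) =
      (pools r N k U).filter (fun τ => τ.1 = e ∧ τ.2.1 = i ∧ τ.2.2 < oaS N X f e i) ∪
      (pools r N k U).filter (fun τ => τ.1 = e ∧ nxt k U e τ.2.1 = i ∧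
        oaS N X f e τ.2.1 ≤ τ.2.2) := by
    ext τ
    rw [mem_union, mem_filter, mem_filter, mem_filter]
    unfold oaCn
    constructor
    · rintro ⟨h1, h2, rfl⟩
      split_ifs at h2 with h
      · left; subst h2; exact ⟨h1, rfl, rfl, h⟩
      · right; exact ⟨h1, rfl, h2, by omega⟩
    · rintro (⟨h1, rfl, rfl, h2⟩ | ⟨h1, rfl, h2, h3⟩)
      · exact ⟨h1, by rw [if_pos h2], rfl⟩
      · exact ⟨h1, by rw [if_neg (by omega), h2], rfl⟩
  have hdisj : Disjoint
      ((pools r N k U).filter (fun τ => τ.1 = e ∧ τ.2.1 = i ∧ τ.2.2 < oaS N X f e i))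
      ((pools r N k U).filter (fun τ => τ.1 = e ∧ nxt k U e τ.2.1 = i ∧
        oaS N X f e τ.2.1 ≤ τ.2.2)) := by
    rw [disjoint_left]
    intro τ h1 h2
    rw [mem_filter] at h1 h2
    obtain ⟨h3, h4, h5, h6⟩ := h1
    obtain ⟨_, _, h7, _⟩ := h2
    rw [oa_mem_pools] at h3
    have := (oa_nxt h3.2.2.2.2).1
    rw [h4] at this
    omega
  rw [hsplit, card_union_of_disjoint hdisj]
  -- part A
  have hA : (N : ℤ) ∣ ((((pools r N k U).filter
      (fun τ => τ.1 = e ∧ τ.2.1 = i ∧ τ.2.2 < oaS N X f e i)).card : ℕ) : ℤ) - g i := by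
    by_cases hL : ∃ i' ∈ range k, i < i' ∧ e ⊆ U i'
    · have : (pools r N k U).filter (fun τ => τ.1 = e ∧ τ.2.1 = i ∧ τ.2.2 < oaS N X f e i) =
          (range (oaS N X f e i)).image (fun l => ((e, i, l) : PoolIx)) := by
        ext τ
        rw [mem_filter, mem_image, oa_mem_pools]
        constructor
        · rintro ⟨_, h2, h3, h4⟩
          exact ⟨τ.2.2, mem_range.mpr h4, by rw [← h2, ← h3]⟩
        · rintro ⟨l, hl, rfl⟩
          have := oaS_lt hN X f e i
          have hl' := mem_range.mp hl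
          exact ⟨⟨her, hi, by simp only; omega, he, hL⟩, rfl, rfl, hl'⟩
      rw [this, card_image_of_injective, card_range]
      · have := hgs i
        rw [← dvd_neg]
        rw [neg_sub]; exact this
      · intro a b h
        exact (Prod.mk.inj (Prod.mk.inj h).2).2
    · have h0 : (pools r N k U).filter
          (fun τ => τ.1 = e ∧ τ.2.1 = i ∧ τ.2.2 < oaS N X f e i) = ∅ := by
        rw [eq_empty_iff_forall_notMem]
        intro τ hτ
        rw [mem_filter, oa_mem_pools] at hτ
        obtain ⟨⟨_, _, _, _, h5⟩, h6, h7, _⟩ := hτ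
        rw [h6, h7] at h5
        exact hL h5
      have hgi : g i = 0 := by
        simp only [hg]
        rw [hsum, sub_eq_zero]
        symm
        apply sum_subset
        · intro x hx; rw [mem_range] at hx ⊢; omega
        · intro x hx hx'
          rw [mem_range] at hx hx'
          apply hf0 x hx
          intro h
          exact hL ⟨x, mem_range.mpr hx, by omega, h⟩
      rw [h0, hgi]; simp
  -- part B
  have hB : (N : ℤ) ∣ (if e ∈ X ∧ ∀ j < i, ¬ e ⊆ U j then (1 : ℤ) else 0) -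
      ((((pools r N k U).filter (fun τ => τ.1 = e ∧ nxt k U e τ.2.1 = i ∧
        oaS N X f e τ.2.1 ≤ τ.2.2)).card : ℕ) : ℤ) - (g i + f i e) := by
    by_cases hE : ∃ j < i, e ⊆ U j
    · -- previous location
      have hex : ∃ p, p < i ∧ e ⊆ U p ∧ ∀ j, p < j → j < i → ¬ e ⊆ U j := by
        have hne : ((range i).filter (fun j => e ⊆ U j)).Nonempty := by
          obtain ⟨j, hj, hej⟩ := hE
          exact ⟨j, mem_filter.mpr ⟨mem_range.mpr hj, hej⟩⟩
        refine ⟨((range i).filter (fun j => e ⊆ U j)).max' hne, ?_, ?_, ?_⟩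
        · exact mem_range.mp (mem_filter.mp (max'_mem _ hne)).1
        · exact (mem_filter.mp (max'_mem _ hne)).2
        · intro j h1 h2 h3
          have := le_max' ((range i).filter (fun j => e ⊆ U j)) j
            (mem_filter.mpr ⟨mem_range.mpr h2, h3⟩)
          omega
      obtain ⟨p, hp, hep, hmax⟩ := hex
      have hnp : nxt k U e p = i := by
        have hex' : ∃ i' ∈ range k, p < i' ∧ e ⊆ U i' := ⟨i, mem_range.mpr hi, hp, he⟩
        have h1 := oa_nxt hex'
        have h2 := h1.2.2.2 i hp hi he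
        by_contra hne
        exact hmax _ h1.1 (by omega) h1.2.2.1
      have : (pools r N k U).filter (fun τ => τ.1 = e ∧ nxt k U e τ.2.1 = i ∧
          oaS N X f e τ.2.1 ≤ τ.2.2) =
          (Ico (oaS N X f e p) N).image (fun l => ((e, p, l) : PoolIx)) := by
        ext τ
        rw [mem_filter, mem_image, oa_mem_pools]
        constructor
        · rintro ⟨⟨h1, h2, h3, h4, h5⟩, h6, h7, h8⟩
          rw [h6] at h4 h5
          have h9 := oa_nxt h5
          rw [h7] at h9
          have h10 : τ.2.1 = p := by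
            rcases lt_trichotomy τ.2.1 p with h | h | h
            · have := h9.2.2.2 p h (by omega) hep
              omega
            · exact h
            · exact absurd h4 (hmax _ h h9.1)
          rw [h10] at h8
          exact ⟨τ.2.2, mem_Ico.mpr ⟨h8, h3⟩, by rw [← h6, ← h10]⟩
        · rintro ⟨l, hl, rfl⟩
          have hl' := mem_Ico.mp hl
          refine ⟨⟨her, by simp only; omega, hl'.2, hep, ⟨i, mem_range.mpr hi, hp, he⟩⟩, rfl, hnp,
            hl'.1⟩
      rw [this, card_image_of_injective, Nat.card_Ico]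
      · have h1 : ¬ (e ∈ X ∧ ∀ j < i, ¬ e ⊆ U j) := by
          rintro ⟨_, h⟩
          exact h p hp hep
        rw [if_neg h1]
        have h2 : g i + f i e = g p := by
          simp only [hg]
          have h3 : ∑ j' ∈ range (i + 1), f j' e = ∑ j' ∈ range (p + 1), f j' e + f i e := by
            rw [sum_range_succ, add_left_inj]
            symm
            apply sum_subset
            · intro x hx; rw [mem_range] at hx ⊢; omega
            · intro x hx hx'
              rw [mem_range] at hx hx'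
              apply hf0 x (by omega)
              exact hmax x (by omega) hx
          rw [h3]; ring
        rw [h2]
        have h3 := hgs p
        have h4 := oaS_lt hN X f e p
        rw [Nat.cast_sub h4.le]
        have h5 : (0 : ℤ) - ((N : ℤ) - (oaS N X f e p : ℤ)) - g p =
            -((g p - (oaS N X f e p : ℤ)) + (N : ℤ)) := by ring
        rw [h5, dvd_neg]
        exact dvd_add h3 (dvd_refl _)
      · intro a b h
        exact (Prod.mk.inj (Prod.mk.inj h).2).2
    · push Not at hE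
      have h0 : (pools r N k U).filter (fun τ => τ.1 = e ∧ nxt k U e τ.2.1 = i ∧
          oaS N X f e τ.2.1 ≤ τ.2.2) = ∅ := by
        rw [eq_empty_iff_forall_notMem]
        intro τ hτ
        rw [mem_filter, oa_mem_pools] at hτ
        obtain ⟨⟨h1, h2, h3, h4, h5⟩, h6, h7, _⟩ := hτ
        rw [h6] at h4 h5
        have h9 := oa_nxt h5
        rw [h7] at h9
        exact hE _ h9.1 h4
      rw [h0]
      have h1 : (if e ∈ X ∧ ∀ j < i, ¬ e ⊆ U j then (1 : ℤ) else 0) = ind X e := by
        unfold ind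
        by_cases heX : e ∈ X
        · rw [if_pos ⟨heX, hE⟩, if_pos heX]
        · rw [if_neg (fun h => heX h.1), if_neg heX]
      rw [h1]
      have h2 : g i + f i e = ind X e := by
        simp only [hg]
        rw [sum_range_succ]
        have : ∑ j' ∈ range i, f j' e = 0 := by
          apply sum_eq_zero
          intro x hx
          rw [mem_range] at hx
          exact hf0 x (by omega) (hE x hx)
        rw [this]; ring
      rw [h2]; simp
  have hfin := dvd_sub hB hA
  refine (dvd_congr ?_).mp hfin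
  push_cast
  ring
where
  dvd_congr {a b c : ℤ} (h : b = c) : a ∣ b ↔ a ∣ c := by rw [h]

lemma oa_ind_claim {r : ℕ} {e Z : Finset ℕ} (her : e.card = r) (hZ : Disjoint e Z) :
    ind (claim r e Z) = K r (e ∪ Z) - ind {e} := by
  funext g
  simp only [Pi.sub_apply, ind, K, mem_claim, mem_singleton]
  by_cases h1 : g ⊆ e ∪ Z ∧ g.card = r
  · by_cases h2 : g = e
    · subst h2
      have : ¬ (g ⊆ g ∪ Z ∧ g.card = r ∧ ¬ Disjoint g Z) := fun h => h.2.2 hZ
      rw [if_neg this, if_pos h1]
      simp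
    · have h3 : ¬ Disjoint g Z := by
        intro h
        apply h2
        have h4 : g ⊆ e := by
          intro x hx
          rcases mem_union.mp (h1.1 hx) with h5 | h5
          · exact h5
          · exact absurd h5 ((disjoint_left.mp h) hx)
        exact eq_of_subset_of_card_le h4 (by omega)
      rw [if_pos ⟨h1.1, h1.2, h3⟩, if_pos h1, if_neg h2]; ring
  · have h2 : g ≠ e := by
      rintro rfl
      exact h1 ⟨subset_union_left, her⟩
    rw [if_neg (fun h => h1 ⟨h.1, h.2.1⟩), if_neg h1, if_neg h2]; ring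

lemma oa_ind_biUnion {ι : Type*} [DecidableEq ι] (s : Finset ι) (t : ι → Finset (Finset ℕ))
    (h : ∀ i ∈ s, ∀ j ∈ s, i ≠ j → Disjoint (t i) (t j)) :
    ind (s.biUnion t) = ∑ i ∈ s, ind (t i) := by
  induction s using Finset.induction_on with
  | empty => funext e; simp [ind]
  | insert a s ha ih =>
    rw [biUnion_insert, sum_insert ha, ind_union, ih]
    · intro i hi j hj hij
      exact h i (mem_insert_of_mem hi) j (mem_insert_of_mem hj) hij
    · rw [disjoint_biUnion_right]
      intro j hj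
      exact h a (mem_insert_self _ _) j (mem_insert_of_mem hj) (by rintro rfl; exact ha hj)

lemma oa_poolsAt {r N k : ℕ} {U : ℕ → Finset ℕ} {i : ℕ} {τ : PoolIx}
    (hτ : τ ∈ poolsAt r N k U i) : τ ∈ pools r N k U ∧ τ.1 ⊆ U i ∧ i < k ∧ τ.1.card = r := by
  unfold poolsAt at hτ
  rw [mem_filter] at hτ
  have h := oa_mem_pools.mp hτ.1
  refine ⟨hτ.1, ?_⟩
  have h1 := hτ.2
  unfold cands at h1
  rw [mem_insert, mem_singleton] at h1
  have h6 := oa_nxt h.2.2.2.2
  rcases h1 with h1 | h1
  · rw [h1]; exact ⟨h.2.2.2.1, h.2.1, h.1⟩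
  · rw [h1]; exact ⟨h6.2.2.1, h6.2.1, h.1⟩

/-- the omni-absorber absorbs. -/
theorem omni_alg {q r n C1 k : ℕ} (hr : 1 ≤ r) (hrq : r < q) {T E : Finset (Finset ℕ)}
    {U : ℕ → Finset ℕ} (hloc : IsLoc q r n C1 T k U) (D : OmniData q r n k U (T ∪ E))
    {X : Finset (Finset ℕ)} (hX : X ⊆ T \ E) (hXd : ind X ∈ Dv q r (powersetCard r (range n))) :
    ∃ Q : Finset (Finset ℕ), (∀ B ∈ Q, B ⊆ range n ∧ B.card = q) ∧ vec r Q = ind X + ind D.A := by
  classical
  have hNpos : 0 < Md q r := Md_pos hrq.le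
  have hXT : X ⊆ T := fun e he => (mem_sdiff.mp (hX he)).1
  have hXr : ∀ e ∈ X, e.card = r := fun e he => (mem_powersetCard.mp (hloc.1 (hXT he))).2
  have hXdT : ind X ∈ Dv q r T := by
    apply Dv_restrict hloc.1 hXd
    intro e he
    unfold ind
    rw [if_neg (fun h => he (hXT h))]
  obtain ⟨f, hf, hfs⟩ := hloc.2.2 (ind X) hXdT
  have hf0 : ∀ j < k, ∀ e, e ∉ powersetCard r (U j) → f j e = 0 := fun j hj => (hf j hj).1
  have hfe : ∀ e, ind X e = ∑ j ∈ range k, f j e := fun e => by
    have := congrFun hfs e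
    rwa [Finset.sum_apply] at this
  set cn : PoolIx → ℕ := oaCn k (Md q r) U X f with hcn
  set P := pools r (Md q r) k U with hP
  set PA : ℕ → Finset PoolIx := fun i => poolsAt r (Md q r) k U i with hPA
  set Fi : ℕ → Finset (Finset ℕ) := fun i => X.filter (fun e => e ⊆ U i ∧ ∀ j < i, ¬ e ⊆ U j)
    with hFi
  set Ci : ℕ → Finset PoolIx := fun i => (PA i).filter (fun τ => cn τ = i) with hCi
  set R : ℕ → Finset (Finset ℕ) := fun i =>
    Fi i ∪ (Ci i).biUnion (fun τ => claim r τ.1 (D.bl i τ)) with hR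
  have hPAmem : ∀ i, ∀ τ ∈ PA i, τ ∈ P ∧ τ.1 ⊆ U i ∧ i < k ∧ τ.1.card = r :=
    fun i τ hτ => oa_poolsAt hτ
  have hblZ : ∀ i, ∀ τ ∈ PA i, Disjoint (U i) (D.bl i τ) := by
    intro i τ hτ
    have h1 := hPAmem i τ hτ
    exact (D.hZb i h1.2.2.1).2.mono_right (D.hbl i h1.2.2.1 τ hτ).1
  -- indicator of `R i`
  have hRind : ∀ i < k, ind (R i) = ind (Fi i) + ∑ τ ∈ Ci i, ind (claim r τ.1 (D.bl i τ)) := by
    intro i hi
    simp only [hR]
    rw [ind_union, oa_ind_biUnion]
    · intro τ hτ τ' hτ' hne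
      have h1 := (mem_filter.mp hτ).1
      have h1' := (mem_filter.mp hτ').1
      rw [disjoint_left]
      intro g hg hg'
      rw [mem_claim] at hg hg'
      obtain ⟨x, hxg, hxb⟩ := not_disjoint_iff.mp hg.2.2
      rcases mem_union.mp (hg'.1 hxg) with h2 | h2
      · exact (disjoint_left.mp (hblZ i τ h1)) ((hPAmem i τ' h1').2.1 h2) hxb
      · exact (disjoint_left.mp (D.hbld i hi τ h1 τ' h1' hne)) hxb h2
    · rw [disjoint_biUnion_right]
      intro τ hτ
      have h1 := (mem_filter.mp hτ).1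
      rw [disjoint_left]
      intro g hg hg'
      rw [mem_claim] at hg'
      obtain ⟨x, hxg, hxb⟩ := not_disjoint_iff.mp hg'.2.2
      exact (disjoint_left.mp (hblZ i τ h1)) ((mem_filter.mp hg).2.1 hxg) hxb
  have hRsub : ∀ i < k, R i ⊆ powersetCard r (U i ∪ D.Zb i) := by
    intro i hi g hg
    simp only [hR] at hg
    rw [mem_powersetCard]
    rcases mem_union.mp hg with h | h
    · have h1 := mem_filter.mp h
      exact ⟨h1.2.1.trans subset_union_left, hXr g h1.1⟩
    · obtain ⟨τ, hτ, hgτ⟩ := mem_biUnion.mp h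
      have h1 := (mem_filter.mp hτ).1
      rw [mem_claim] at hgτ
      refine ⟨hgτ.1.trans (union_subset_union (hPAmem i τ h1).2.1 (D.hbl i hi τ h1).1), hgτ.2.1⟩
  have hRdv : ∀ i < k, R i ∈ dvSets q r (U i ∪ D.Zb i) := by
    intro i hi
    unfold dvSets
    rw [mem_filter, mem_powerset]
    refine ⟨hRsub i hi, ?_⟩
    have h1 : ind (R i) = (∑ τ ∈ Ci i, K r (τ.1 ∪ D.bl i τ)) +
        (f i + ((ind (Fi i) - ∑ τ ∈ Ci i, ind {τ.1}) - f i)) := by
      rw [hRind i hi]
      have h2 : ∑ τ ∈ Ci i, ind (claim r τ.1 (D.bl i τ)) =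
          ∑ τ ∈ Ci i, (K r (τ.1 ∪ D.bl i τ) - ind {τ.1}) := by
        apply sum_congr rfl
        intro τ hτ
        have h3 := (mem_filter.mp hτ).1
        exact oa_ind_claim (hPAmem i τ h3).2.2.2
          ((hblZ i τ h3).mono_left (hPAmem i τ h3).2.1)
      rw [h2, sum_sub_distrib]
      abel
    rw [h1]
    have hsubU : powersetCard r (U i) ⊆ powersetCard r (U i ∪ D.Zb i) :=
      powersetCard_mono subset_union_left
    refine AddSubgroup.add_mem _ ?_ (AddSubgroup.add_mem _ (Dv_mono hsubU (hf i hi)) ?_)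
    · apply AddSubgroup.sum_mem
      intro τ hτ
      have h3 := (mem_filter.mp hτ).1
      apply K_mem_Dv
      · rw [card_union_of_disjoint ((hblZ i τ h3).mono_left (hPAmem i τ h3).2.1),
          (hPAmem i τ h3).2.2.2, (D.hbl i hi τ h3).2]
        omega
      · exact powersetCard_mono (union_subset_union (hPAmem i τ h3).2.1 (D.hbl i hi τ h3).1)
    · have hval : ∀ e, e ∉ powersetCard r (U i) →
          ((ind (Fi i) - ∑ τ ∈ Ci i, ind {τ.1}) - f i) e = 0 := by
        intro e he
        simp only [Pi.sub_apply, Finset.sum_apply]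
        rw [hf0 i hi e he]
        have h3 : ind (Fi i) e = 0 := by
          unfold ind
          rw [if_neg]
          intro h
          have h4 := mem_filter.mp h
          exact he (mem_powersetCard.mpr ⟨h4.2.1, hXr e h4.1⟩)
        have h5 : ∑ τ ∈ Ci i, ind {τ.1} e = 0 := by
          apply sum_eq_zero
          intro τ hτ
          have h6 := (mem_filter.mp hτ).1
          unfold ind
          rw [if_neg]
          intro h
          rw [mem_singleton] at h
          rw [h] at he
          exact he (mem_powersetCard.mpr ⟨(hPAmem i τ h6).2.1, (hPAmem i τ h6).2.2.2⟩)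
        rw [h3, h5]; ring
      apply Dv_mono hsubU
      apply Md_mul_mem_Dv hval
      intro e
      by_cases he : e ∈ powersetCard r (U i)
      · obtain ⟨heU, her⟩ := mem_powersetCard.mp he
        have hc := oa_count (r := r) (N := Md q r) (k := k) (U := U) (X := X) (f := f) hNpos hi heU
          her (fun j hj hej => hf0 j hj e (fun h => hej (mem_powersetCard.mp h).1)) (hfe e)
        have e1 : ind (Fi i) e = (if e ∈ X ∧ ∀ j < i, ¬ e ⊆ U j then (1 : ℤ) else 0) := by
          simp only [ind, hFi, mem_filter]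
          by_cases h : e ∈ X ∧ ∀ j < i, ¬ e ⊆ U j
          · rw [if_pos h, if_pos ⟨h.1, heU, h.2⟩]
          · rw [if_neg h, if_neg (fun h' => h ⟨h'.1, h'.2.2⟩)]
        have e2 : ∑ τ ∈ Ci i, ind {τ.1} e =
            (((pools r (Md q r) k U).filter
              (fun τ => oaCn k (Md q r) U X f τ = i ∧ τ.1 = e)).card : ℤ) := by
          have : (pools r (Md q r) k U).filter
              (fun τ => oaCn k (Md q r) U X f τ = i ∧ τ.1 = e) =
              (Ci i).filter (fun τ => τ.1 = e) := by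
            ext τ
            simp only [hCi, hPA, poolsAt, mem_filter, hcn]
            constructor
            · rintro ⟨h1, h2, h3⟩
              refine ⟨⟨⟨h1, ?_⟩, h2⟩, h3⟩
              rw [← h2]
              exact (oaCn_mem h1).1
            · rintro ⟨⟨⟨h1, _⟩, h2⟩, h3⟩
              exact ⟨h1, h2, h3⟩
          rw [this, card_filter]
          push_cast
          apply sum_congr rfl
          intro τ _
          unfold ind
          simp only [mem_singleton]
          by_cases h : τ.1 = e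
          · rw [if_pos h.symm, if_pos h]
          · rw [if_neg (fun h' => h h'.symm), if_neg h]
        simp only [Pi.sub_apply, Finset.sum_apply]
        rw [e1, e2]
        exact hc
      · rw [hval e he]; exact dvd_zero _
  -- the sum of the first-location sets
  have hFsum : ∑ i ∈ range k, ind (Fi i) = ind X := by
    funext e
    rw [Finset.sum_apply]
    by_cases he : e ∈ X
    · have h1 : ∃ j, j < k ∧ e ⊆ U j := by
        by_contra hno
        push Not at hno
        have h2 := hfe e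
        have h3 : ∑ j ∈ range k, f j e = 0 := by
          apply sum_eq_zero
          intro j hj
          rw [mem_range] at hj
          exact hf0 j hj e (fun h => hno j hj (mem_powersetCard.mp h).1)
        rw [h3] at h2
        simp [ind, he] at h2
      have hmin := Nat.find_spec h1
      have hlt : ∀ j < Nat.find h1, ¬ e ⊆ U j := by
        intro j hj hej
        exact Nat.find_min h1 hj ⟨by omega, hej⟩
      rw [sum_eq_single (Nat.find h1)]
      · simp only [ind, hFi, mem_filter]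
        rw [if_pos ⟨he, hmin.2, hlt⟩, if_pos he]
      · intro j hj hne
        simp only [ind, hFi, mem_filter]
        rw [if_neg]
        rintro ⟨_, h2, h3⟩
        rcases lt_trichotomy j (Nat.find h1) with h | h | h
        · exact hlt j h h2
        · exact hne h
        · exact h3 _ h hmin.2
      · intro h
        exact absurd (mem_range.mpr hmin.1) h
    · have : ∀ i ∈ range k, ind (Fi i) e = 0 := by
        intro i _
        simp only [ind, hFi, mem_filter]
        rw [if_neg (fun h => he h.1)]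
      rw [sum_eq_zero this]
      simp [ind, he]
  -- the family
  let Fam : ((_ : ℕ) × PoolIx) ⊕ ((_ : ℕ) × Finset (Finset ℕ)) → Finset (Finset ℕ) := fun x =>
    match x with
    | Sum.inl y => if cn y.2 = y.1 then D.B3 y.1 y.2 else D.A3 y.1 y.2
    | Sum.inr y => if y.2 = R y.1 then D.B4 y.1 y.2 else D.A4 y.1 y.2
  set I : Finset (((_ : ℕ) × PoolIx) ⊕ ((_ : ℕ) × Finset (Finset ℕ))) :=
    ((range k).sigma (fun i => PA i)).disjSum
      ((range k).sigma (fun i => dvSets q r (U i ∪ D.Zb i))) with hI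
  have hsumF : ∑ x ∈ I, vec r (Fam x) = ind X + ind D.A := by
    rw [hI, sum_disjSum, sum_sigma, sum_sigma, D.hsum]
    have s1 : ∑ i ∈ range k, ∑ τ ∈ PA i, vec r (Fam (Sum.inl ⟨i, τ⟩)) =
        ∑ i ∈ range k, ∑ τ ∈ PA i, (ind (D.T3 i τ) +
          ((if cn τ = i then ind (claim r τ.1 (D.Zp τ)) else 0) +
            (if cn τ = i then 0 else ind (claim r τ.1 (D.bl i τ))))) := by
      apply sum_congr rfl
      intro i hi
      apply sum_congr rfl
      intro τ hτ
      have h3 := D.h3 i (mem_range.mp hi) τ hτ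
      simp only [Fam]
      by_cases h : cn τ = i
      · rw [if_pos h, if_pos h, if_pos h, h3.2.2, add_zero]
      · rw [if_neg h, if_neg h, if_neg h, h3.2.1, zero_add]
    have s2 : ∑ i ∈ range k, ∑ S ∈ dvSets q r (U i ∪ D.Zb i), vec r (Fam (Sum.inr ⟨i, S⟩)) =
        ∑ i ∈ range k, ∑ S ∈ dvSets q r (U i ∪ D.Zb i), ind (D.T4 i S) +
        ∑ i ∈ range k, ind (R i) := by
      rw [← sum_add_distrib]
      apply sum_congr rfl
      intro i hi
      have hi' := mem_range.mp hi
      have h4 : ∀ S ∈ dvSets q r (U i ∪ D.Zb i), vec r (Fam (Sum.inr ⟨i, S⟩)) =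
          ind (D.T4 i S) + (if S = R i then ind (R i) else 0) := by
        intro S hS
        have h3 := D.h4 i hi' S hS
        simp only [Fam]
        by_cases h : S = R i
        · rw [if_pos h, if_pos h, h3.2.2, h]
        · rw [if_neg h, if_neg h, h3.2.1, add_zero]
      rw [sum_congr rfl h4, sum_add_distrib, sum_ite_eq' (dvSets q r (U i ∪ D.Zb i)) (R i),
        if_pos (hRdv i hi')]
    have s3 : ∑ i ∈ range k, ∑ τ ∈ PA i, (if cn τ = i then ind (claim r τ.1 (D.Zp τ)) else 0) =
        ∑ τ ∈ P, ind (claim r τ.1 (D.Zp τ)) := by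
      have h5 : ∀ i ∈ range k, ∑ τ ∈ PA i, (if cn τ = i then ind (claim r τ.1 (D.Zp τ)) else 0) =
          ∑ τ ∈ P, (if cn τ = i then ind (claim r τ.1 (D.Zp τ)) else 0) := by
        intro i _
        simp only [hPA, poolsAt]
        rw [sum_filter]
        apply sum_congr rfl
        intro τ hτ
        by_cases h : cn τ = i
        · rw [if_pos h, if_pos (by rw [← h]; exact (oaCn_mem hτ).1)]
        · rw [if_neg h]; simp
      rw [sum_congr rfl h5, sum_comm]
      apply sum_congr rfl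
      intro τ hτ
      rw [sum_ite_eq (range k) (cn τ), if_pos (mem_range.mpr (oaCn_mem hτ).2.1)]
    have s4 : ∑ i ∈ range k, ind (R i) = ind X +
        ∑ i ∈ range k, ∑ τ ∈ PA i, (if cn τ = i then ind (claim r τ.1 (D.bl i τ)) else 0) := by
      rw [← hFsum, ← sum_add_distrib]
      apply sum_congr rfl
      intro i hi
      rw [hRind i (mem_range.mp hi)]
      simp only [hCi]
      rw [sum_filter]
    have s5 : ∑ i ∈ range k, ∑ τ ∈ PA i, (ind (claim r τ.1 (D.bl i τ)) + ind (D.T3 i τ)) =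
        ∑ i ∈ range k, ∑ τ ∈ PA i, ind (D.T3 i τ) +
        (∑ i ∈ range k, ∑ τ ∈ PA i, (if cn τ = i then 0 else ind (claim r τ.1 (D.bl i τ))) +
        ∑ i ∈ range k, ∑ τ ∈ PA i, (if cn τ = i then ind (claim r τ.1 (D.bl i τ)) else 0)) := by
      rw [← sum_add_distrib, ← sum_add_distrib]
      apply sum_congr rfl
      intro i _
      rw [← sum_add_distrib, ← sum_add_distrib]
      apply sum_congr rfl
      intro τ _
      by_cases h : cn τ = i
      · simp only [if_pos h]; abel
      · simp only [if_neg h]; abel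
    rw [s1, s2, s4]
    change _ = ind X + (∑ τ ∈ P, ind (claim r τ.1 (D.Zp τ)) +
      ∑ i ∈ range k, ∑ τ ∈ PA i, (ind (claim r τ.1 (D.bl i τ)) + ind (D.T3 i τ)) +
      ∑ i ∈ range k, ∑ R ∈ dvSets q r (U i ∪ D.Zb i), ind (D.T4 i R))
    rw [s5, ← s3]
    simp only [sum_add_distrib]
    abel
  have hle : ∀ e, ∑ x ∈ I, vec r (Fam x) e ≤ 1 := by
    intro e
    have h1 := congrFun hsumF e
    rw [Finset.sum_apply] at h1
    rw [h1, Pi.add_apply]
    by_cases he : e ∈ X
    · have h2 : e ∉ D.A := fun h =>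
        (disjoint_left.mp D.hAv) h (mem_union_left _ (hXT he))
      simp [ind, he, h2]
    · simp only [ind, if_neg he]
      split_ifs <;> norm_num
  have hFq : ∀ x ∈ I, ∀ Q ∈ Fam x, Q ⊆ range n ∧ Q.card = q := by
    intro x hx Q hQ
    rw [hI, mem_disjSum] at hx
    rcases hx with ⟨⟨i, τ⟩, hy, rfl⟩ | ⟨⟨i, S⟩, hy, rfl⟩
    · rw [mem_sigma] at hy
      have h3 := (D.h3 i (mem_range.mp hy.1) τ hy.2).1
      simp only [Fam] at hQ
      split_ifs at hQ
      · exact h3 Q (mem_union_right _ hQ)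
      · exact h3 Q (mem_union_left _ hQ)
    · rw [mem_sigma] at hy
      have h3 := (D.h4 i (mem_range.mp hy.1) S hy.2).1
      simp only [Fam] at hQ
      split_ifs at hQ
      · exact h3 Q (mem_union_right _ hQ)
      · exact h3 Q (mem_union_left _ hQ)
  refine ⟨I.biUnion Fam, ?_, ?_⟩
  · intro B hB
    obtain ⟨x, hx, hBx⟩ := mem_biUnion.mp hB
    exact hFq x hx B hBx
  · rw [vec_biUnion hrq.le I Fam (fun x hx Q hQ => (hFq x hx Q hQ).2) hle, hsumF]

end Pool.Agent.Kv
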