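import Pool.Agent.Designs.OmniEmb
import Pool.Agent.Designs.OmniAlg

set_option autoImplicit false

/-!
The omni-absorber theorem (assembly).
-/

namespace Pool.Agent.Kv

open Finset

theorem omni {q r : ℕ} (hr : 1 ≤ r) (hrq : r < q) (C1 : ℕ) {c : ℝ} (hc : 0 < c) :
    ∃ ε0 : ℝ, 0 < ε0 ∧ ∃ n0 : ℕ, ∀ n ≥ n0, ∀ (T : Finset (Finset ℕ)) (k : ℕ)
      (U : ℕ → Finset ℕ) (E : Finset (Finset ℕ)), IsLoc q r n C1 T k U →
      E ⊆ powersetCard r (range n) → DegLe (r - 1) (T ∪ E) (ε0 * n) →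
      (∀ S : Finset ℕ, S.card + 1 = r →
        (((range k).filter (fun j => S ⊆ U j)).card : ℝ) ≤ ε0 * n) →
      ∃ A ⊆ powersetCard r (range n), Disjoint A (T ∪ E) ∧ DegLe (r - 1) A (c * n) ∧
        ∀ X ⊆ T \ E, ind X ∈ Dv q r (powersetCard r (range n)) →
          ∃ Q : Finset (Finset ℕ), (∀ B ∈ Q, B ⊆ range n ∧ B.card = q) ∧
            vec r Q = ind X + ind A := by
  obtain ⟨ε0, hε0, n0, h⟩ := omni_emb hr hrq C1 hc
  refine ⟨ε0, hε0, n0, fun n hn T k U E hloc hE hdeg hU => ?_⟩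
  obtain ⟨D, hD⟩ := h n hn k U (T ∪ E) (fun j hj => ⟨(hloc.2.1 j hj).1, (hloc.2.1 j hj).2.1, (hloc.2.1 j hj).2.2.1⟩)
    (union_subset hloc.1 hE) hdeg hU
  exact ⟨D.A, D.hA, D.hAv, hD, fun X hX hXd => omni_alg hr hrq hloc D hX hXd⟩

end Pool.Agent.Kv
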