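import Pool.Agent.Designs.Loc
import Pool.Agent.Designs.Omni
import Pool.Agent.Designs.NibApp
import Pool.Agent.Designs.Cover

set_option autoImplicit false

/-!
Theorem D (assembly): existence of designs extending a sparse partial design.
-/

namespace Pool.Agent.Kv

open Finset

lemma DegLe_mono {s : ℕ} {F : Finset (Finset ℕ)} {b b' : ℝ} (h : DegLe s F b) (hb : b ≤ b') :
    DegLe s F b' := fun S hS => (h S hS).trans hb

lemma DegLe_union {s : ℕ} {F G : Finset (Finset ℕ)} {b b' : ℝ} (h : DegLe s F b)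
    (h' : DegLe s G b') : DegLe s (F ∪ G) (b + b') := by
  intro S hS
  have h1 := h S hS
  have h2 := h' S hS
  rw [filter_union]
  have h3 : (((F.filter (fun e => S ⊆ e)) ∪ (G.filter (fun e => S ⊆ e))).card : ℝ) ≤
      ((F.filter (fun e => S ⊆ e)).card : ℝ) + ((G.filter (fun e => S ⊆ e)).card : ℝ) := by
    exact_mod_cast card_union_le _ _
  linarith

/-- the complete `r`-graph is divisible. -/
lemma ind_all_mem_Dv {q r n : ℕ}
    (hdiv : ∀ s < r, (q - s).choose (r - s) ∣ (n - s).choose (r - s)) :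
    ind (powersetCard r (range n)) ∈ Dv q r (powersetCard r (range n)) := by
  rw [← K_eq_ind]
  refine ⟨fun e he => ?_, fun S hS => ?_⟩
  · simp only [K, mem_powersetCard] at he ⊢
    rw [if_neg he]
  · rw [dg_K (q := n) (card_range n) (le_refl _) hS]
    split_ifs with h
    · rcases Nat.lt_or_ge S.card r with h1 | h1
      · exact_mod_cast hdiv S.card h1
      · have : r - S.card = 0 := by omega
        rw [this]; simp
    · exact dvd_zero _

theorem design_ext {q r : ℕ} (hr : 1 ≤ r) (hrq : r < q) {ε : ℝ} (hε : 0 < ε) :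
    ∃ n0 : ℕ, ∀ n ≥ n0, (∀ s < r, (q - s).choose (r - s) ∣ (n - s).choose (r - s)) →
      ∀ P : Finset (Finset ℕ), IsPartial r q n P →
        DegLe (r - 1) (Ed r P) ((n : ℝ) ^ (1 - ε)) →
        ∃ D : Finset (Finset ℕ), P ⊆ D ∧ IsDesign r q n D := by
  obtain ⟨C1, n1, hloc⟩ := loc (q := q) (r := r) hr hrq
  obtain ⟨c4, hc4, hnib⟩ := nibapp (q := q) (r := r) hr hrq
  obtain ⟨ε0, hε0, n2, homni⟩ := omni hr hrq C1 (c := c4 / 3) (by positivity)
  obtain ⟨B, hcov⟩ := cover hr hrq C1
  obtain ⟨n3, hcov⟩ := hcov ε hε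
  obtain ⟨n4, hnib⟩ := hnib B
  -- largeness
  obtain ⟨δ, hδ, hδ1, hδ2⟩ : ∃ δ : ℝ, 0 < δ ∧ δ ≤ ε0 / 2 ∧ δ ≤ c4 / 3 :=
    ⟨min (ε0 / 2) (c4 / 3), lt_min (by positivity) (by positivity), min_le_left _ _,
      min_le_right _ _⟩
  obtain ⟨n5, hn5⟩ := Lam_large (Nat.ceil (1 / δ))
  obtain ⟨n6, hn6⟩ := Lam_pow_le_rpow 0 hε (1 / δ)
  refine ⟨n1 + n2 + n3 + n4 + n5 + n6 + 1, fun n hn hdiv P hP hPd => ?_⟩
  obtain ⟨T, k, U, H, hL, hLU, hLT, hH⟩ := hloc n (by omega)
  have hnpos : (0 : ℝ) < n := by exact_mod_cast (by omega : 0 < n)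
  have hLamδ : 1 / δ ≤ (Lam n : ℝ) := by
    have := hn5 n (by omega)
    calc 1 / δ ≤ (Nat.ceil (1 / δ) : ℝ) := Nat.le_ceil _
      _ ≤ Lam n := by exact_mod_cast this
  have hLampos : (0 : ℝ) < Lam n := lt_of_lt_of_le (by positivity) hLamδ
  have hnLam : ∀ x : ℕ, x * Lam n ≤ n → (x : ℝ) ≤ δ * n := by
    intro x hx
    have h1 : (x : ℝ) * Lam n ≤ n := by exact_mod_cast hx
    have h2 : (x : ℝ) * (1 / δ) ≤ n := le_trans (by gcongr) h1
    rw [mul_one_div, div_le_iff₀ hδ] at h2
    linarith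
  have hnε : (n : ℝ) ^ (1 - ε) ≤ δ * n := by
    have h1 := hn6 n (by omega)
    simp only [pow_zero, mul_one] at h1
    rw [Real.rpow_sub hnpos, Real.rpow_one]
    rw [div_le_iff₀ (by positivity)]
    have h2 : 1 ≤ δ * (n : ℝ) ^ ε := by
      rw [div_le_iff₀ hδ] at h1
      linarith
    nlinarith
  have hEd : Ed r P ⊆ powersetCard r (range n) := by
    intro e he
    obtain ⟨Q, hQ, heQ⟩ := mem_biUnion.mp he
    have := mem_powersetCard.mp heQ
    exact mem_powersetCard.mpr ⟨this.1.trans (hP.1 Q hQ).1, this.2⟩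
  have hTdeg : DegLe (r - 1) T (δ * n) := fun S hS => hnLam _ (hLT S (by omega))
  have hEdeg : DegLe (r - 1) (Ed r P) (δ * n) := DegLe_mono hPd hnε
  obtain ⟨A, hA, hAdis, hAdeg, hAabs⟩ := homni n (by omega) T k U (Ed r P) hL hEd
    (DegLe_mono (DegLe_union hTdeg hEdeg) (by nlinarith))
    (fun S hS => (hnLam _ (hLU S hS)).trans (by nlinarith))
  -- the nibble
  have hFsub : T ∪ Ed r P ∪ A ⊆ powersetCard r (range n) :=
    union_subset (union_subset hL.1 hEd) hA
  obtain ⟨Mt, hMt1, hMt2, hMt3, hMt4⟩ := hnib n (by omega) (T ∪ Ed r P ∪ A) hFsub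
    (DegLe_mono (DegLe_union (DegLe_union hTdeg hEdeg) hAdeg) (by nlinarith))
  set L0 := (powersetCard r (range n)).filter
    (fun e => e ∉ T ∪ Ed r P ∪ A ∧ vec r Mt e = 0) with hL0
  obtain ⟨Cv, T', hCv1, hT', hCv2⟩ := hcov n (by omega) T H (Ed r P) L0 hH hEd hPd
    (filter_subset _ _) (by
      rw [disjoint_left]
      intro e he heT
      exact (mem_filter.mp he).2.1 (mem_union_left _ (mem_union_left _ heT))) hMt4
  -- the rest
  set X := (T \ Ed r P) \ T' with hX
  have hvP : vec r P = ind (Ed r P) := vec_eq_ind_Ed hP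
  have hvM : ∀ e, vec r Mt e = 0 ∨ vec r Mt e = 1 := by
    intro e
    have h1 := hMt2 e
    have h2 := vec_nonneg r Mt e
    omega
  have hvMr : ∀ e, e ∉ powersetCard r (range n) → vec r Mt e = 0 := by
    intro e he
    rw [vec_apply]
    apply sum_eq_zero
    intro Q hQ
    unfold K
    rw [if_neg]
    rintro ⟨h1, h2⟩
    exact he (mem_powersetCard.mpr ⟨h1.trans (hMt1 Q hQ).1, h2⟩)
  have hAT : ∀ e ∈ A, e ∉ T ∧ e ∉ Ed r P := by
    intro e he
    have := (disjoint_left.mp hAdis) he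
    rw [mem_union, not_or] at this
    exact this
  have hid : ind (powersetCard r (range n)) = vec r P + vec r Mt + vec r Cv + (ind X + ind A) := by
    rw [hvP, hCv2]
    funext e
    simp only [Pi.add_apply]
    by_cases he : e ∈ powersetCard r (range n)
    · have h1 : ind (powersetCard r (range n)) e = 1 := by simp only [ind, he, if_true]
      rw [h1]
      by_cases heP : e ∈ Ed r P
      · have hA0 : e ∉ A := fun h => (hAT e h).2 heP
        have hM0 : vec r Mt e = 0 := hMt3 e (by simp [heP])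
        have hT0 : e ∉ T' := fun h => (mem_sdiff.mp (hT' h)).2 heP
        have hX0 : e ∉ X := fun h => (mem_sdiff.mp (mem_sdiff.mp h).1).2 heP
        have hL00 : e ∉ L0 := fun h => (mem_filter.mp h).2.1 (by simp [heP])
        simp [ind, heP, hA0, hM0, hT0, hX0, hL00]
      · by_cases heT : e ∈ T
        · have hA0 : e ∉ A := fun h => (hAT e h).1 heT
          have hM0 : vec r Mt e = 0 := hMt3 e (by simp [heT])
          have hL00 : e ∉ L0 := fun h => (mem_filter.mp h).2.1 (by simp [heT])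
          by_cases heT' : e ∈ T'
          · have hX0 : e ∉ X := fun h => (mem_sdiff.mp h).2 heT'
            simp [ind, heP, hA0, hM0, heT', hX0, hL00]
          · have hX0 : e ∈ X := mem_sdiff.mpr ⟨mem_sdiff.mpr ⟨heT, heP⟩, heT'⟩
            simp [ind, heP, hA0, hM0, heT', hX0, hL00]
        · have heT' : e ∉ T' := fun h => heT (mem_sdiff.mp (hT' h)).1
          have hX0 : e ∉ X := fun h => heT (mem_sdiff.mp (mem_sdiff.mp h).1).1
          by_cases heA : e ∈ A
          · have hM0 : vec r Mt e = 0 := hMt3 e (by simp [heA])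
            have hL00 : e ∉ L0 := fun h => (mem_filter.mp h).2.1 (by simp [heA])
            simp [ind, heP, heA, hM0, heT', hX0, hL00]
          · rcases hvM e with hM0 | hM1
            · have hL00 : e ∈ L0 := mem_filter.mpr ⟨he, by simp [heP, heA, heT], hM0⟩
              simp [ind, heP, heA, hM0, heT', hX0, hL00]
            · have hL00 : e ∉ L0 := fun h => by
                have := (mem_filter.mp h).2.2
                omega
              simp [ind, heP, heA, hM1, heT', hX0, hL00]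
    · have h1 : e ∉ Ed r P := fun h => he (hEd h)
      have h2 : e ∉ A := fun h => he (hA h)
      have h3 : e ∉ T' := fun h => he (hL.1 (mem_sdiff.mp (hT' h)).1)
      have h4 : e ∉ X := fun h => he (hL.1 (mem_sdiff.mp (mem_sdiff.mp h).1).1)
      have h5 : e ∉ L0 := fun h => he (mem_filter.mp h).1
      simp only [ind, he, h1, h2, h3, h4, h5, hvMr e he, if_false]
      norm_num
  have hq_sub : ∀ Q : Finset ℕ, Q ⊆ range n → powersetCard r Q ⊆ powersetCard r (range n) :=
    fun Q h => powersetCard_mono h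
  have hall := ind_all_mem_Dv hdiv
  -- `ind A` is divisible
  have hAd : ind A ∈ Dv q r (powersetCard r (range n)) := by
    obtain ⟨Q, hQ1, hQ2⟩ := hAabs ∅ (empty_subset _) (by
      have : ind (∅ : Finset (Finset ℕ)) = 0 := by funext e; simp [ind]
      rw [this]; exact AddSubgroup.zero_mem _)
    have h0 : ind (∅ : Finset (Finset ℕ)) = 0 := by funext e; simp [ind]
    rw [h0, zero_add] at hQ2
    rw [← hQ2]
    exact vec_mem_Dv (fun B hB => ⟨(hQ1 B hB).2, hq_sub B (hQ1 B hB).1⟩)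
  have hXd : ind X ∈ Dv q r (powersetCard r (range n)) := by
    have h1 : ind X = ind (powersetCard r (range n)) - vec r P - vec r Mt - vec r Cv - ind A := by
      rw [hid]; abel
    rw [h1]
    refine AddSubgroup.sub_mem _ (AddSubgroup.sub_mem _ (AddSubgroup.sub_mem _
      (AddSubgroup.sub_mem _ hall ?_) ?_) ?_) hAd
    · exact vec_mem_Dv (fun B hB => ⟨(hP.1 B hB).2, hq_sub B (hP.1 B hB).1⟩)
    · exact vec_mem_Dv (fun B hB => ⟨(hMt1 B hB).2, hq_sub B (hMt1 B hB).1⟩)
    · exact vec_mem_Dv (fun B hB => ⟨(hCv1 B hB).2, hq_sub B (hCv1 B hB).1⟩)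
  obtain ⟨Q, hQ1, hQ2⟩ := hAabs X sdiff_subset hXd
  -- merge
  have hsum : vec r P + vec r Mt + vec r Cv + vec r Q = ind (powersetCard r (range n)) := by
    rw [hQ2, hid]
  let F : Fin 4 → Finset (Finset ℕ) := ![P, Mt, Cv, Q]
  have hF : ∀ i, ∀ B ∈ F i, B ⊆ range n ∧ B.card = q := by
    intro i
    fin_cases i
    · exact hP.1
    · exact hMt1
    · exact hCv1
    · exact hQ1
  have hFs : ∑ i, vec r (F i) = ind (powersetCard r (range n)) := by
    rw [Fin.sum_univ_four]; exact hsum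
  refine ⟨univ.biUnion F, ?_, isDesign_of_vec (q := q) ?_ ?_⟩
  · intro B hB
    exact mem_biUnion.mpr ⟨0, mem_univ _, hB⟩
  · intro B hB
    obtain ⟨i, _, hi⟩ := mem_biUnion.mp hB
    exact hF i B hi
  · rw [vec_biUnion (q := q) (by omega) univ F (fun i _ Q hQ => (hF i Q hQ).2), hFs]
    intro e
    have h1 : ∑ i, vec r (F i) e = ind (powersetCard r (range n)) e := by
      rw [← hFs, Finset.sum_apply]
    rw [h1]
    exact ind_le_one _ _

end Pool.Agent.Kv
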