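import Pool.Agent.Designs.PMain
import Pool.Agent.Designs.Main
import Pool.Agent.Work.MP_b59edb_co.Lower

set_option autoImplicit false

/-!
The exponent.
-/

namespace Pool.Agent.Kv

open Finset Pool.Agent.Work.MP_b59edb_co

/-- descending factorials of congruent numbers. -/
lemma PFinal_desc (m a : ℕ) : ∀ j : ℕ, j ≤ a → (a + m).descFactorial j ≡ a.descFactorial j [MOD m] := by
  intro j
  induction j with
  | zero => intro _; simp [Nat.ModEq.refl]
  | succ j ih =>
    intro hj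
    rw [Nat.descFactorial_succ, Nat.descFactorial_succ]
    apply Nat.ModEq.mul _ (ih (by omega))
    have : a + m - j = (a - j) + m := by omega
    rw [this]
    simp [Nat.ModEq]

theorem exists_div (q r N0 : ℕ) (hrq : r < q) : ∃ n ≥ N0, q ≤ n ∧
    ∀ s < r, (q - s).choose (r - s) ∣ (n - s).choose (r - s) := by
  set m0 := ∏ s ∈ range r, ((q - s).choose (r - s) * (r - s).factorial) with hm0
  have hpos : 0 < m0 := by
    apply Finset.prod_pos
    intro s hs
    exact Nat.mul_pos (Nat.choose_pos (by have := mem_range.mp hs; omega)) (Nat.factorial_pos _)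
  refine ⟨q + (N0 + 1) * m0, ?_, by omega, ?_⟩
  · have : N0 + 1 ≤ (N0 + 1) * m0 := Nat.le_mul_of_pos_right _ hpos
    show N0 ≤ _
    omega
  · intro s hs
    have hd : (q - s).choose (r - s) * (r - s).factorial ∣ (N0 + 1) * m0 := by
      apply Dvd.dvd.mul_left
      exact Finset.dvd_prod_of_mem (fun s => (q - s).choose (r - s) * (r - s).factorial)
        (mem_range.mpr hs)
    have h1 : (q + (N0 + 1) * m0 - s) = (q - s) + (N0 + 1) * m0 := by omega
    rw [h1]
    set M := (N0 + 1) * m0 with hM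
    have h2 := PFinal_desc M (q - s) (r - s) (by omega)
    rw [Nat.descFactorial_eq_factorial_mul_choose, Nat.descFactorial_eq_factorial_mul_choose] at h2
    have h3 : (r - s).factorial * (q - s).choose (r - s) ∣
        (r - s).factorial * ((q - s) + M).choose (r - s) := by
      have h5 : (r - s).factorial * (q - s).choose (r - s) ∣ M := by
        rw [Nat.mul_comm]; exact hd
      have h4 := Nat.ModEq.of_dvd h5 h2
      exact (Nat.ModEq.dvd_iff h4 (dvd_refl _)).mpr (dvd_refl _)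
    exact Nat.dvd_of_mul_dvd_mul_left (Nat.factorial_pos _) h3

/-- the blocks of a design on `range n`, as subsets of `Fin n`. -/
noncomputable def PFinal_B (n : ℕ) (D : Finset (Finset ℕ)) : Finset (Finset (Fin n)) :=
  (univ : Finset (Finset (Fin n))).filter (fun b => b.map Fin.valEmbedding ∈ D)

lemma PFinal_lift {n : ℕ} {Q : Finset ℕ} (hQ : Q ⊆ range n) :
    ∃ b : Finset (Fin n), b.map Fin.valEmbedding = Q := by
  refine ⟨univ.filter (fun x : Fin n => (x : ℕ) ∈ Q), ?_⟩
  ext x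
  simp only [mem_map, mem_filter, mem_univ, true_and, Fin.valEmbedding_apply]
  constructor
  · rintro ⟨y, hy, rfl⟩; exact hy
  · intro hx
    exact ⟨⟨x, mem_range.mp (hQ hx)⟩, hx, rfl⟩

lemma PFinal_steiner {t k n : ℕ} {D : Finset (Finset ℕ)} (hD : IsDesign t k n D) :
    IsSteinerSystem t k n (PFinal_B n D) := by
  refine ⟨fun b hb => ?_, fun T hT => ?_⟩
  · have h1 := (hD.1 _ (mem_filter.mp hb).2).2
    rwa [card_map] at h1
  · have h1 : T.map Fin.valEmbedding ⊆ range n := by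
      intro x hx
      obtain ⟨y, _, rfl⟩ := mem_map.mp hx
      exact mem_range.mpr y.2
    obtain ⟨Q, ⟨hQ1, hQ2⟩, hQ3⟩ := hD.2 _ h1 (by rw [card_map, hT])
    obtain ⟨b, hb⟩ := PFinal_lift (hD.1 Q hQ1).1
    refine ⟨b, ⟨mem_filter.mpr ⟨mem_univ _, by rw [hb]; exact hQ1⟩, ?_⟩, ?_⟩
    · rw [← hb] at hQ2
      exact map_subset_map.mp hQ2
    · rintro b' ⟨hb'1, hb'2⟩
      have h2 := hQ3 (b'.map Fin.valEmbedding) ⟨(mem_filter.mp hb'1).2, map_subset_map.mpr hb'2⟩
      rw [← hb] at h2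
      exact (map_injective _) h2

lemma PFinal_upper {t k n : ℕ} {D P : Finset (Finset ℕ)} (hPD : P ⊆ D) (hD : IsDesign t k n D)
    {b : ℝ} (hb : 0 < b)
    (hP : ∀ φ : ℕ → ℕ, b ≤ (((range n).image φ).card : ℝ) → ∃ B ∈ P, Set.InjOn φ (B : Set ℕ)) :
    (upperChromaticNumber (PFinal_B n D) : ℝ) < b := by
  have hall : ∀ c ∈ {c : ℕ | ∃ φ : Fin n → ℕ, ProperColouring (PFinal_B n D) φ ∧
      (Finset.univ.image φ).card = c}, (c : ℝ) < b ∧ c ≤ n := by
    rintro c ⟨φ, hφ, rfl⟩
    refine ⟨?_, ?_⟩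
    · by_contra hle
      push Not at hle
      let φ' : ℕ → ℕ := fun x => if h : x < n then φ ⟨x, h⟩ else 0
      have h1 : (range n).image φ' = univ.image φ := by
        ext y
        simp only [mem_image, mem_range, mem_univ, true_and]
        constructor
        · rintro ⟨x, hx, rfl⟩
          exact ⟨⟨x, hx⟩, by simp [φ', hx]⟩
        · rintro ⟨x, rfl⟩
          exact ⟨x, x.2, by simp [φ']⟩
      obtain ⟨B0, hB0, hinj⟩ := hP φ' (by rw [h1]; exact hle)
      obtain ⟨b0, hb0⟩ := PFinal_lift (hD.1 B0 (hPD hB0)).1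
      obtain ⟨x, hx, y, hy, hxy, hφxy⟩ := hφ b0
        (mem_filter.mpr ⟨mem_univ _, by rw [hb0]; exact hPD hB0⟩)
      apply hxy
      have hx' : (x : ℕ) ∈ B0 := by rw [← hb0]; exact mem_map.mpr ⟨x, hx, rfl⟩
      have hy' : (y : ℕ) ∈ B0 := by rw [← hb0]; exact mem_map.mpr ⟨y, hy, rfl⟩
      have h2 : φ' x = φ' y := by simp [φ', hφxy]
      exact Fin.ext (hinj (by exact_mod_cast hx') (by exact_mod_cast hy') h2)
    · calc (univ.image φ).card ≤ (univ : Finset (Fin n)).card := card_image_le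
        _ = n := by simp
  unfold upperChromaticNumber
  rcases Set.eq_empty_or_nonempty {c : ℕ | ∃ φ : Fin n → ℕ, ProperColouring (PFinal_B n D) φ ∧
      (Finset.univ.image φ).card = c} with h | h
  · rw [h]; simpa using hb
  · exact (hall _ (Nat.sSup_mem h ⟨n, fun c hc => (hall c hc).2⟩)).1

theorem exponent_value {k t : ℕ} (ht : 2 ≤ t) (hk : t + 2 ≤ k) :
    IsGreatest {c : ℝ | AdmissibleExponent k t c} (((k : ℝ) - t - 1) / ((k : ℝ) - 2)) := by
  refine ⟨admissible_lower k t (by omega) hk, ?_⟩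
  rintro c'' ⟨_, C, hC, hadm⟩
  by_contra hlt
  push Not at hlt
  have hkR : (t : ℝ) + 2 ≤ k := by exact_mod_cast hk
  have htR : (2 : ℝ) ≤ t := by exact_mod_cast ht
  have hc1 : ((k : ℝ) - t - 1) / ((k : ℝ) - 2) < 1 := by
    rw [div_lt_one (by linarith)]; linarith
  have hc0 : 0 < ((k : ℝ) - t - 1) / ((k : ℝ) - 2) := by
    apply div_pos <;> linarith
  obtain ⟨c', hcc', hc'⟩ := exists_between (lt_min hlt hc1)
  have hc'2 : c' < c'' := hc'.trans_le (min_le_left _ _)
  have hc'1 : c' < 1 := hc'.trans_le (min_le_right _ _)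
  obtain ⟨ε2, hε2, n1, hP⟩ := sparse_P ht hk hcc' hc'1
  obtain ⟨n2, hD⟩ := design_ext (q := k) (r := t) (by omega) (by omega) hε2
  obtain ⟨n3, hn3⟩ := Lam_pow_le_rpow 0 (c := c'' - c') (by linarith) (2 / C)
  obtain ⟨n, hn, hkn, hdiv⟩ := exists_div k t (n1 + n2 + n3 + 1) (by omega)
  obtain ⟨P, hP1, hP2, hP3⟩ := hP n (by omega)
  obtain ⟨D, hPD, hDes⟩ := hD n (by omega) hdiv P hP1 hP2
  have hnpos : (0 : ℝ) < n := by exact_mod_cast (by omega : 0 < n)
  have h1 := hadm n hkn (PFinal_B n D) (PFinal_steiner hDes)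
  have h2 := PFinal_upper hPD hDes (b := (n : ℝ) ^ c') (Real.rpow_pos_of_pos hnpos _) hP3
  have h3 := hn3 n (by omega)
  rw [pow_zero, mul_one, Real.rpow_sub hnpos, div_le_div_iff₀ hC (Real.rpow_pos_of_pos hnpos _)]
    at h3
  have h4 : 0 < (n : ℝ) ^ c' := Real.rpow_pos_of_pos hnpos _
  nlinarith

end Pool.Agent.Kv
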