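import Pool.Agent.Designs.Gadget

set_option autoImplicit false

/-!
# Module Frac: fractional decomposition of an almost complete hypergraph (section 11)
-/

namespace Pool.Agent.Kv

open Finset

/-- number of supersets of `S` of size `m` inside `X` -/
lemma frac_card_sup (X S : Finset ℕ) (m : ℕ) (hS : S ⊆ X) (hm : S.card ≤ m) :
    ((powersetCard m X).filter (fun Z => S ⊆ Z)).card = (X.card - S.card).choose (m - S.card) := by
  have h2 : (powersetCard m X).filter (fun Z => S ⊆ Z) =
      (powersetCard (m - S.card) (X \ S)).image (fun T => S ∪ T) := by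
    ext e
    simp only [mem_filter, mem_powersetCard, mem_image]
    constructor
    · rintro ⟨⟨h1, h2⟩, h3⟩
      refine ⟨e \ S, ⟨sdiff_subset_sdiff h1 (le_refl _), ?_⟩, ?_⟩
      · rw [card_sdiff_of_subset h3, h2]
      · exact union_sdiff_of_subset h3
    · rintro ⟨T, ⟨h1, h2⟩, rfl⟩
      refine ⟨⟨union_subset hS (h1.trans sdiff_subset), ?_⟩, subset_union_left⟩
      rw [card_union_of_disjoint, h2]
      · omega
      · exact (disjoint_sdiff).mono_right h1
  rw [h2, card_image_of_injOn, card_powersetCard, card_sdiff_of_subset hS]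
  intro T hT T' hT' h
  have d1 : Disjoint S T := (disjoint_sdiff).mono_right (mem_powersetCard.mp hT).1
  have d2 : Disjoint S T' := (disjoint_sdiff).mono_right (mem_powersetCard.mp hT').1
  have : (S ∪ T) \ S = (S ∪ T') \ S := by simp only at h; rw [h]
  rwa [union_sdiff_cancel_left d1, union_sdiff_cancel_left d2] at this

/-- number of `m`-subsets of `range n` containing `h` -/
lemma frac_card_range (n m : ℕ) (h : Finset ℕ) :
    ((powersetCard m (range n)).filter (fun Z => h ⊆ Z)).card ≤ n ^ (m - h.card) := by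
  by_cases hh : h ⊆ range n ∧ h.card ≤ m
  · rw [frac_card_sup (range n) h m hh.1 hh.2, card_range]
    exact (Nat.choose_le_pow _ _).trans (Nat.pow_le_pow_left (Nat.sub_le _ _) _)
  · have : (powersetCard m (range n)).filter (fun Z => h ⊆ Z) = ∅ := by
      rw [filter_eq_empty_iff]
      intro Z hZ hSZ
      have hZ' := mem_powersetCard.1 hZ
      exact hh ⟨hSZ.trans hZ'.1, hZ'.2 ▸ card_le_card hSZ⟩
    rw [this]; simp

/-- number of members of `G` containing `h`, from the degree condition -/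
lemma frac_card_containing (n r : ℕ) (G : Finset (Finset ℕ)) (hG : G ⊆ powersetCard r (range n))
    (D : ℝ) (hD : DegLe (r - 1) G D) (h : Finset ℕ) (hh : h.card < r) :
    ((G.filter (fun e => h ⊆ e)).card : ℝ) ≤ (n : ℝ) ^ (r - h.card - 1) * D := by
  have hD0 : 0 ≤ D := by
    obtain ⟨S, hS⟩ : ∃ S : Finset ℕ, S.card = r - 1 := ⟨range (r - 1), card_range _⟩
    exact le_trans (Nat.cast_nonneg _) (hD S hS)
  have h1 : G.filter (fun e => h ⊆ e) ⊆
      ((powersetCard (r - 1) (range n)).filter (fun Z => h ⊆ Z)).biUnion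
        (fun S => G.filter (fun e => S ⊆ e)) := by
    intro e he
    obtain ⟨heG, hhe⟩ := mem_filter.1 he
    have heR := mem_powersetCard.1 (hG heG)
    obtain ⟨S, hS1, hS2, hS3⟩ := exists_subsuperset_card_eq hhe (n := r - 1) (by omega) (by omega)
    rw [mem_biUnion]
    exact ⟨S, mem_filter.2 ⟨mem_powersetCard.2 ⟨hS2.trans heR.1, hS3⟩, hS1⟩,
      mem_filter.2 ⟨heG, hS2⟩⟩
  calc ((G.filter (fun e => h ⊆ e)).card : ℝ)
      ≤ ((((powersetCard (r - 1) (range n)).filter (fun Z => h ⊆ Z)).biUnion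
        (fun S => G.filter (fun e => S ⊆ e))).card : ℝ) := by exact_mod_cast card_le_card h1
    _ ≤ ((∑ S ∈ (powersetCard (r - 1) (range n)).filter (fun Z => h ⊆ Z),
        (G.filter (fun e => S ⊆ e)).card : ℕ) : ℝ) := by exact_mod_cast card_biUnion_le
    _ = ∑ S ∈ (powersetCard (r - 1) (range n)).filter (fun Z => h ⊆ Z),
        ((G.filter (fun e => S ⊆ e)).card : ℝ) := by push_cast; rfl
    _ ≤ ∑ S ∈ (powersetCard (r - 1) (range n)).filter (fun Z => h ⊆ Z), D := by
        refine sum_le_sum fun S hS => hD S ?_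
        exact (mem_powersetCard.1 (mem_filter.1 hS).1).2
    _ = ((powersetCard (r - 1) (range n)).filter (fun Z => h ⊆ Z)).card * D := by
        rw [sum_const, nsmul_eq_mul]
    _ ≤ (n : ℝ) ^ (r - h.card - 1) * D := by
        refine mul_le_mul_of_nonneg_right ?_ hD0
        have := frac_card_range n (r - 1) h
        rw [show r - h.card - 1 = r - 1 - h.card by omega]
        exact_mod_cast this

/-- `J` contains no member of `F` -/
def FracFree (F : Finset (Finset ℕ)) (J : Finset ℕ) : Prop := ∀ f ∈ F, ¬ f ⊆ J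

instance (F : Finset (Finset ℕ)) : DecidablePred (FracFree F) := fun J => by
  unfold FracFree; infer_instance

lemma FracFree.mono {F : Finset (Finset ℕ)} {J Q : Finset ℕ} (h : FracFree F J) (hQ : Q ⊆ J) :
    FracFree F Q := fun f hf hfQ => h f hf (hfQ.trans hQ)

/-- number of sets containing `e` which are not free -/
lemma frac_nonfree (n r j0 : ℕ) (hn0 : 0 < n) (F : Finset (Finset ℕ))
    (hF : F ⊆ powersetCard r (range n)) (c : ℝ) (hD : DegLe (r - 1) F (c * n)) (e : Finset ℕ)
    (her : e.card = r) (heF : e ∉ F) :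
    (((powersetCard j0 (range n)).filter (fun J => e ⊆ J ∧ ¬ FracFree F J)).card : ℝ) ≤
      2 ^ r * (c * (n : ℝ) ^ (j0 - r)) := by
  have hnR : (0 : ℝ) < n := by exact_mod_cast hn0
  have hc0 : 0 ≤ c := by
    obtain ⟨S, hS⟩ : ∃ S : Finset ℕ, S.card = r - 1 := ⟨range (r - 1), card_range _⟩
    have := le_trans (Nat.cast_nonneg _) (hD S hS)
    exact nonneg_of_mul_nonneg_left this hnR
  have h1 : (powersetCard j0 (range n)).filter (fun J => e ⊆ J ∧ ¬ FracFree F J) ⊆
      (e.powerset.filter (fun h => h.card < r)).biUnion (fun h =>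
        (F.filter (fun f => f ∩ e = h)).biUnion (fun f =>
          (powersetCard j0 (range n)).filter (fun J => e ∪ f ⊆ J))) := by
    intro J hJ
    obtain ⟨hJ1, hJ2, hJ3⟩ := mem_filter.1 hJ
    unfold FracFree at hJ3
    push Not at hJ3
    obtain ⟨f, hf, hfJ⟩ := hJ3
    have hfr := (mem_powersetCard.1 (hF hf)).2
    rw [mem_biUnion]
    refine ⟨f ∩ e, mem_filter.2 ⟨mem_powerset.2 inter_subset_right, ?_⟩, ?_⟩
    · rw [← hfr]
      apply card_lt_card
      rw [ssubset_iff_subset_ne]
      refine ⟨inter_subset_left, fun h => heF ?_⟩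
      have h2 : f ⊆ e := by rw [← h]; exact inter_subset_right
      rw [← eq_of_subset_of_card_le h2 (by rw [her, hfr])]
      exact hf
    · rw [mem_biUnion]
      exact ⟨f, mem_filter.2 ⟨hf, rfl⟩, mem_filter.2 ⟨hJ1, union_subset hJ2 hfJ⟩⟩
  have h2 : ∀ h ∈ e.powerset.filter (fun h => h.card < r),
      (((F.filter (fun f => f ∩ e = h)).biUnion (fun f =>
          (powersetCard j0 (range n)).filter (fun J => e ∪ f ⊆ J))).card : ℝ) ≤
        c * (n : ℝ) ^ (j0 - r) := by
    intro h hh
    obtain ⟨hhe, hhr⟩ := mem_filter.1 hh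
    have hcard : ∀ f ∈ F.filter (fun f => f ∩ e = h), (e ∪ f).card = 2 * r - h.card := by
      intro f hf
      obtain ⟨hf1, hf2⟩ := mem_filter.1 hf
      have hfr := (mem_powersetCard.1 (hF hf1)).2
      have := card_union_add_card_inter e f
      rw [inter_comm, hf2, her, hfr] at this
      omega
    by_cases hj : 2 * r - h.card ≤ j0
    · calc (((F.filter (fun f => f ∩ e = h)).biUnion (fun f =>
          (powersetCard j0 (range n)).filter (fun J => e ∪ f ⊆ J))).card : ℝ)
          ≤ ((∑ f ∈ F.filter (fun f => f ∩ e = h),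
            ((powersetCard j0 (range n)).filter (fun J => e ∪ f ⊆ J)).card : ℕ) : ℝ) := by
            exact_mod_cast card_biUnion_le
        _ ≤ ((∑ f ∈ F.filter (fun f => f ∩ e = h), n ^ (j0 - (2 * r - h.card)) : ℕ) : ℝ) := by
            have : ∑ f ∈ F.filter (fun f => f ∩ e = h),
              ((powersetCard j0 (range n)).filter (fun J => e ∪ f ⊆ J)).card ≤
              ∑ f ∈ F.filter (fun f => f ∩ e = h), n ^ (j0 - (2 * r - h.card)) := by
              refine sum_le_sum fun f hf => ?_
              rw [← hcard f hf]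
              exact frac_card_range n j0 (e ∪ f)
            exact_mod_cast this
        _ = ((F.filter (fun f => f ∩ e = h)).card : ℝ) * (n : ℝ) ^ (j0 - (2 * r - h.card)) := by
            rw [sum_const, smul_eq_mul]; push_cast; rfl
        _ ≤ ((n : ℝ) ^ (r - h.card - 1) * (c * n)) * (n : ℝ) ^ (j0 - (2 * r - h.card)) := by
            refine mul_le_mul_of_nonneg_right ?_ (by positivity)
            refine le_trans ?_ (frac_card_containing n r F hF (c * n) hD h hhr)
            have : (F.filter (fun f => f ∩ e = h)).card ≤ (F.filter (fun f => h ⊆ f)).card := by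
              refine card_le_card ?_
              intro f hf
              obtain ⟨hf1, hf2⟩ := mem_filter.1 hf
              exact mem_filter.2 ⟨hf1, by rw [← hf2]; exact inter_subset_left⟩
            exact_mod_cast this
        _ = c * ((n : ℝ) ^ (r - h.card - 1) * n * (n : ℝ) ^ (j0 - (2 * r - h.card))) := by ring
        _ = c * (n : ℝ) ^ (j0 - r) := by
            rw [← pow_succ, ← pow_add]
            congr 2
            omega
    · have h0 : (F.filter (fun f => f ∩ e = h)).biUnion (fun f =>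
          (powersetCard j0 (range n)).filter (fun J => e ∪ f ⊆ J)) = ∅ := by
        rw [eq_empty_iff_forall_notMem]
        intro J hJ
        obtain ⟨f, hf, hfJ⟩ := mem_biUnion.1 hJ
        obtain ⟨hJ1, hJ2⟩ := mem_filter.1 hfJ
        have h3 := card_le_card hJ2
        rw [hcard f hf, (mem_powersetCard.1 hJ1).2] at h3
        exact hj h3
      rw [h0, card_empty, Nat.cast_zero]
      positivity
  calc (((powersetCard j0 (range n)).filter (fun J => e ⊆ J ∧ ¬ FracFree F J)).card : ℝ)
      ≤ ((∑ h ∈ e.powerset.filter (fun h => h.card < r),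
        ((F.filter (fun f => f ∩ e = h)).biUnion (fun f =>
          (powersetCard j0 (range n)).filter (fun J => e ∪ f ⊆ J))).card : ℕ) : ℝ) := by
        exact_mod_cast (card_le_card h1).trans card_biUnion_le
    _ = ∑ h ∈ e.powerset.filter (fun h => h.card < r),
        (((F.filter (fun f => f ∩ e = h)).biUnion (fun f =>
          (powersetCard j0 (range n)).filter (fun J => e ∪ f ⊆ J))).card : ℝ) := by
        push_cast; rfl
    _ ≤ ∑ h ∈ e.powerset.filter (fun h => h.card < r), c * (n : ℝ) ^ (j0 - r) := sum_le_sum h2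
    _ = ((e.powerset.filter (fun h => h.card < r)).card : ℝ) * (c * (n : ℝ) ^ (j0 - r)) := by
        rw [sum_const, nsmul_eq_mul]
    _ ≤ 2 ^ r * (c * (n : ℝ) ^ (j0 - r)) := by
        refine mul_le_mul_of_nonneg_right ?_ (by positivity)
        have : (e.powerset.filter (fun h => h.card < r)).card ≤ 2 ^ r := by
          refine (card_filter_le _ _).trans ?_
          rw [card_powerset, her]
        exact_mod_cast this

/-- lower bound for binomial coefficients -/
lemma frac_choose_lower (n r m : ℕ) (hn : 2 * (r + m) ≤ n) :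
    (n : ℝ) ^ m ≤ (2 ^ m * (m.factorial : ℝ)) * ((n - r).choose m : ℝ) := by
  have h1 := Nat.pow_le_choose (α := ℝ) m (n - r)
  have h2 : (n : ℝ) ≤ 2 * ((n - r + 1 - m : ℕ) : ℝ) := by
    have : n ≤ 2 * (n - r + 1 - m) := by omega
    exact_mod_cast this
  calc (n : ℝ) ^ m ≤ (2 * ((n - r + 1 - m : ℕ) : ℝ)) ^ m :=
        pow_le_pow_left₀ (Nat.cast_nonneg _) h2 m
    _ = 2 ^ m * ((n - r + 1 - m : ℕ) : ℝ) ^ m := mul_pow _ _ _
    _ ≤ 2 ^ m * ((m.factorial : ℝ) * ((n - r).choose m : ℝ)) := by
        refine mul_le_mul_of_nonneg_left ?_ (by positivity)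
        have hm : (0 : ℝ) < (m.factorial : ℝ) := by exact_mod_cast m.factorial_pos
        rw [div_le_iff₀ hm] at h1
        linarith
    _ = _ := by ring

/-- sum over the `r`-sets -/
lemma frac_sum_inter (n r : ℕ) (Q : Finset ℕ) :
    ∑ e ∈ powersetCard r (range n), (n : ℝ) ^ (Q ∩ e).card ≤ 2 ^ Q.card * (n : ℝ) ^ r := by
  have h1 : ∑ e ∈ powersetCard r (range n), (n : ℝ) ^ (Q ∩ e).card =
      ∑ h ∈ Q.powerset, ∑ e ∈ (powersetCard r (range n)).filter (fun e => Q ∩ e = h),
        (n : ℝ) ^ (Q ∩ e).card := by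
    rw [sum_fiberwise_of_maps_to]
    intro e _
    exact mem_powerset.2 inter_subset_left
  rw [h1]
  calc ∑ h ∈ Q.powerset, ∑ e ∈ (powersetCard r (range n)).filter (fun e => Q ∩ e = h),
        (n : ℝ) ^ (Q ∩ e).card
      ≤ ∑ h ∈ Q.powerset, (n : ℝ) ^ r := by
        refine sum_le_sum fun h _ => ?_
        by_cases hh : h.card ≤ r
        · calc ∑ e ∈ (powersetCard r (range n)).filter (fun e => Q ∩ e = h),
                (n : ℝ) ^ (Q ∩ e).card
              = ∑ e ∈ (powersetCard r (range n)).filter (fun e => Q ∩ e = h),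
                (n : ℝ) ^ h.card := by
                refine sum_congr rfl fun e he => ?_
                rw [(mem_filter.1 he).2]
            _ = (((powersetCard r (range n)).filter (fun e => Q ∩ e = h)).card : ℝ) *
                (n : ℝ) ^ h.card := by rw [sum_const, nsmul_eq_mul]
            _ ≤ (n : ℝ) ^ (r - h.card) * (n : ℝ) ^ h.card := by
                refine mul_le_mul_of_nonneg_right ?_ (by positivity)
                have h2 : ((powersetCard r (range n)).filter (fun e => Q ∩ e = h)).card ≤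
                    n ^ (r - h.card) := by
                  refine (card_le_card ?_).trans (frac_card_range n r h)
                  intro e he
                  obtain ⟨he1, he2⟩ := mem_filter.1 he
                  exact mem_filter.2 ⟨he1, by rw [← he2]; exact inter_subset_right⟩
                exact_mod_cast h2
            _ = (n : ℝ) ^ r := by rw [← pow_add]; congr 1; omega
        · have h0 : (powersetCard r (range n)).filter (fun e => Q ∩ e = h) = ∅ := by
            rw [filter_eq_empty_iff]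
            intro e he h3
            apply hh
            rw [← h3, ← (mem_powersetCard.1 he).2]
            exact card_le_card inter_subset_right
          rw [h0, sum_empty]
          positivity
    _ = 2 ^ Q.card * (n : ℝ) ^ r := by
        rw [sum_const, card_powerset, nsmul_eq_mul]; push_cast; rfl


theorem frac {q r : ℕ} (hr : 1 ≤ r) (hrq : r < q) : ∃ c4 : ℝ, 0 < c4 ∧ ∃ n0 : ℕ, ∀ n ≥ n0,
    ∀ F ⊆ powersetCard r (range n), DegLe (r - 1) F (c4 * n) →
      ∃ w : Finset ℕ → ℝ, (∀ Q, 0 ≤ w Q) ∧ (∀ Q, w Q * ((n - r).choose (q - r) : ℝ) ≤ 2) ∧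
        (∀ Q, w Q ≠ 0 → Q ⊆ range n ∧ Q.card = q ∧ ∀ e ∈ F, ¬ e ⊆ Q) ∧
        ∀ e ∈ powersetCard r (range n), e ∉ F →
          ∑ Q ∈ (powersetCard q (range n)).filter (fun Q => e ⊆ Q), w Q = 1 := by
  obtain ⟨g, hg⟩ := gadget (q := q) (r := r) hrq
  -- constants
  set C1 : ℝ := 2 ^ (q - r) * ((q - r).factorial : ℝ) with hC1
  set C2 : ℝ := 2 ^ q * (q.factorial : ℝ) with hC2
  set gm : ℝ := ∑ i ∈ range (q + 1), |g i| with hgm
  have hC1p : 0 < C1 := by positivity
  have hC2p : 0 < C2 := by positivity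
  have hgm0 : 0 ≤ gm := sum_nonneg fun i _ => abs_nonneg _
  have hgm1 : ∀ i ≤ q, |g i| ≤ gm := fun i hi =>
    single_le_sum (f := fun i => |g i|) (fun i _ => abs_nonneg _) (mem_range.2 (by omega))
  set K : ℝ := 2 ^ r * C1 * (2 * C2) * gm * 2 ^ q with hK
  have hK0 : 0 ≤ K := by positivity
  refine ⟨1 / (K + 2 * 2 ^ r * C2 + 1), by positivity, 2 * (r + q) + 1, ?_⟩
  set c : ℝ := 1 / (K + 2 * 2 ^ r * C2 + 1) with hc
  have hc0 : 0 < c := by positivity
  have hcK : c * K ≤ 1 := by
    rw [hc, div_mul_eq_mul_div, div_le_one (by positivity)]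
    have : 0 ≤ 2 * 2 ^ r * C2 := by positivity
    linarith
  have hcC2 : c * (2 * 2 ^ r * C2) ≤ 1 := by
    rw [hc, div_mul_eq_mul_div, div_le_one (by positivity)]
    linarith
  clear_value c
  intro n hn F hF hFd
  have hn0 : 0 < n := by omega
  have hnR : (0 : ℝ) < n := by exact_mod_cast hn0
  have L1 := frac_choose_lower n r (q - r) (by omega)
  have L2 := frac_choose_lower n r q (by omega)
  rw [← hC1] at L1
  rw [← hC2] at L2
  set M1 : ℝ := ((n - r).choose (q - r) : ℝ) with hM1
  set M2 : ℝ := ((n - r).choose q : ℝ) with hM2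
  have hM1p : 0 < M1 := by
    rw [hM1]
    exact_mod_cast Nat.choose_pos (by omega)
  have hM2p : 0 < M2 := by
    rw [hM2]
    exact_mod_cast Nat.choose_pos (by omega)
  have hM1le : M1 ≤ (n : ℝ) ^ (q - r) := by
    have h1 : (n - r).choose (q - r) ≤ n ^ (q - r) :=
      (Nat.choose_le_pow _ _).trans (Nat.pow_le_pow_left (Nat.sub_le _ _) _)
    rw [hM1]; exact_mod_cast h1
  set E' : Finset (Finset ℕ) := (powersetCard r (range n)) \ F with hE'
  have hE'm : ∀ e ∈ E', e ⊆ range n ∧ e.card = r ∧ e ∉ F := by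
    intro e he
    rw [hE', mem_sdiff, mem_powersetCard] at he
    exact ⟨he.1.1, he.1.2, he.2⟩
  set η : Finset ℕ → ℝ := fun e => 1 - 1 / M1 *
    (((powersetCard q (range n)).filter (fun Q => e ⊆ Q ∧ FracFree F Q)).card : ℝ) with hη
  set JJ : Finset ℕ → Finset (Finset ℕ) := fun e =>
    (powersetCard (q + r) (range n)).filter (fun J => e ⊆ J ∧ FracFree F J) with hJJ
  set ψ : Finset ℕ → Finset ℕ → ℝ := fun e Q => 1 / ((JJ e).card : ℝ) *
    ∑ J ∈ (JJ e).filter (fun J => Q ⊆ J), g (Q ∩ e).card with hψ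
  set w : Finset ℕ → ℝ := fun Q => if Q ∈ powersetCard q (range n) ∧ FracFree F Q then
    1 / M1 + ∑ e ∈ E', η e * ψ e Q else 0 with hw
  -- splitting into free and nonfree sets
  have hsplit : ∀ j0, r ≤ j0 → ∀ e ∈ E',
      (((powersetCard j0 (range n)).filter (fun Q => e ⊆ Q ∧ FracFree F Q)).card : ℝ) +
      (((powersetCard j0 (range n)).filter (fun Q => e ⊆ Q ∧ ¬ FracFree F Q)).card : ℝ) =
      ((n - r).choose (j0 - r) : ℝ) := by
    intro j0 hj0 e he
    obtain ⟨h1, h2, h3⟩ := hE'm e he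
    have h4 := frac_card_sup (range n) e j0 h1 (by omega)
    rw [card_range, h2] at h4
    rw [← h4, ← filter_filter, ← filter_filter]
    have := card_filter_add_card_filter_not (s := (powersetCard j0 (range n)).filter (fun Q => e ⊆ Q))
      (FracFree F)
    exact_mod_cast this
  have hη0 : ∀ e ∈ E', 0 ≤ η e ∧ η e ≤ 2 ^ r * C1 * c := by
    intro e he
    obtain ⟨h1, h2, h3⟩ := hE'm e he
    have h4 := hsplit q hrq.le e he
    have h5 := frac_nonfree n r q hn0 F hF c hFd e h2 h3
    have h6 : η e = (((powersetCard q (range n)).filter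
        (fun Q => e ⊆ Q ∧ ¬ FracFree F Q)).card : ℝ) / M1 := by
      simp only [hη]
      rw [eq_div_iff hM1p.ne', sub_mul, one_div, mul_right_comm, inv_mul_cancel₀ hM1p.ne',
        one_mul, one_mul]
      rw [← hM1] at h4
      linarith
    rw [h6]
    refine ⟨by positivity, ?_⟩
    rw [div_le_iff₀ hM1p]
    refine h5.trans ?_
    calc 2 ^ r * (c * (n : ℝ) ^ (q - r)) ≤ 2 ^ r * (c * (C1 * M1)) := by gcongr
      _ = 2 ^ r * C1 * c * M1 := by ring
  have hJJ1 : ∀ e ∈ E', M2 ≤ 2 * ((JJ e).card : ℝ) := by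
    intro e he
    obtain ⟨h1, h2, h3⟩ := hE'm e he
    have h4 := hsplit (q + r) (by omega) e he
    have h5 := frac_nonfree n r (q + r) hn0 F hF c hFd e h2 h3
    rw [Nat.add_sub_cancel] at h4 h5
    rw [← hM2] at h4
    have h6 : 2 ^ r * (c * (n : ℝ) ^ q) ≤ M2 / 2 := by
      calc 2 ^ r * (c * (n : ℝ) ^ q) ≤ 2 ^ r * (c * (C2 * M2)) := by gcongr
        _ = (c * (2 * 2 ^ r * C2)) * (M2 / 2) := by ring
        _ ≤ 1 * (M2 / 2) := by gcongr
        _ = M2 / 2 := one_mul _
    have h7 : ((JJ e).card : ℝ) = (((powersetCard (q + r) (range n)).filter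
      (fun J => e ⊆ J ∧ FracFree F J)).card : ℝ) := rfl
    linarith
  have hJJ0 : ∀ e ∈ E', (0 : ℝ) < ((JJ e).card : ℝ) := by
    intro e he
    have := hJJ1 e he
    linarith
  -- the gadget identity
  have hψs : ∀ e ∈ E', ∀ e' ∈ E',
      ∑ Q ∈ (powersetCard q (range n)).filter (fun Q => e' ⊆ Q ∧ FracFree F Q), ψ e Q =
        if e' = e then 1 else 0 := by
    intro e he e' he'
    obtain ⟨h1, h2, h3⟩ := hE'm e he
    obtain ⟨h1', h2', h3'⟩ := hE'm e' he'
    simp only [hψ]
    rw [← mul_sum]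
    have h4 : ∑ Q ∈ (powersetCard q (range n)).filter (fun Q => e' ⊆ Q ∧ FracFree F Q),
        ∑ J ∈ (JJ e).filter (fun J => Q ⊆ J), g (Q ∩ e).card =
        ∑ J ∈ JJ e, ∑ Q ∈ (powersetCard q J).filter (fun Q => e' ⊆ Q), g (Q ∩ e).card := by
      rw [sum_comm' (t' := JJ e) (s' := fun J => (powersetCard q J).filter (fun Q => e' ⊆ Q))]
      intro Q J
      simp only [mem_filter, mem_powersetCard]
      constructor
      · rintro ⟨⟨⟨a1, a2⟩, a3, a4⟩, a5, a6⟩
        exact ⟨⟨⟨a6, a2⟩, a3⟩, a5⟩
      · rintro ⟨⟨⟨a6, a2⟩, a3⟩, a5⟩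
        have a7 : J ⊆ range n ∧ J.card = q + r := by
          have := (mem_filter.1 a5).1
          exact mem_powersetCard.1 this
        exact ⟨⟨⟨a6.trans a7.1, a2⟩, a3, (mem_filter.1 a5).2.2.mono a6⟩, a5, a6⟩
    rw [h4]
    have h5 : ∀ J ∈ JJ e, ∑ Q ∈ (powersetCard q J).filter (fun Q => e' ⊆ Q), g (Q ∩ e).card =
        if e' = e then 1 else 0 := by
      intro J hJ
      obtain ⟨b1, b2, b3⟩ := mem_filter.1 hJ
      have b4 := (mem_powersetCard.1 b1).2
      by_cases h6 : e' ⊆ J
      · exact hg J e b4 b2 h2 e' h6 h2'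
      · have h7 : (powersetCard q J).filter (fun Q => e' ⊆ Q) = ∅ := by
          rw [filter_eq_empty_iff]
          intro Q hQ h8
          exact h6 (h8.trans (mem_powersetCard.1 hQ).1)
        rw [h7, sum_empty, if_neg]
        rintro rfl
        exact h6 b2
    rw [sum_congr rfl h5, sum_const, nsmul_eq_mul, one_div]
    have := (hJJ0 e he).ne'
    rw [← mul_assoc, inv_mul_cancel₀ this, one_mul]
  -- the perturbation is small
  have hpert : ∀ Q ∈ powersetCard q (range n), |∑ e ∈ E', η e * ψ e Q| ≤ 1 / M1 := by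
    intro Q hQ
    obtain ⟨hQ1, hQ2⟩ := mem_powersetCard.1 hQ
    have h1 : ∀ e ∈ E', |η e * ψ e Q| ≤ (2 ^ r * C1 * c) * (2 * C2 / (n : ℝ) ^ q * gm) *
        (n : ℝ) ^ (Q ∩ e).card := by
      intro e he
      obtain ⟨h1, h2, h3⟩ := hE'm e he
      have h4 := hη0 e he
      have h5 : |ψ e Q| ≤ (2 * C2 / (n : ℝ) ^ q * gm) * (n : ℝ) ^ (Q ∩ e).card := by
        simp only [hψ]
        rw [sum_const, nsmul_eq_mul, abs_mul, abs_mul]
        have h6 : |1 / ((JJ e).card : ℝ)| ≤ 2 * C2 / (n : ℝ) ^ q := by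
          rw [abs_of_nonneg (by positivity), div_le_div_iff₀ (hJJ0 e he) (by positivity), one_mul]
          calc (n : ℝ) ^ q ≤ C2 * M2 := L2
            _ ≤ C2 * (2 * ((JJ e).card : ℝ)) := by
                refine mul_le_mul_of_nonneg_left (hJJ1 e he) hC2p.le
            _ = _ := by ring
        have h7 : |(((JJ e).filter (fun J => Q ⊆ J)).card : ℝ)| ≤ (n : ℝ) ^ (Q ∩ e).card := by
          rw [abs_of_nonneg (by positivity)]
          have h8 : ((JJ e).filter (fun J => Q ⊆ J)).card ≤ n ^ (Q ∩ e).card := by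
            have h9 : (Q ∪ e).card = q + r - (Q ∩ e).card := by
              have := card_union_add_card_inter Q e
              omega
            have h10 : (Q ∩ e).card ≤ q + r := by
              have := card_le_card (inter_subset_left : Q ∩ e ⊆ Q)
              omega
            have h11 := frac_card_range n (q + r) (Q ∪ e)
            rw [h9, show q + r - (q + r - (Q ∩ e).card) = (Q ∩ e).card by omega] at h11
            refine (card_le_card ?_).trans h11
            intro J hJ
            obtain ⟨b1, b2⟩ := mem_filter.1 hJ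
            obtain ⟨b3, b4, b5⟩ := mem_filter.1 b1
            exact mem_filter.2 ⟨b3, union_subset b2 b4⟩
          exact_mod_cast h8
        have h8 : |g (Q ∩ e).card| ≤ gm := by
          refine hgm1 _ ?_
          rw [← hQ2]
          exact card_le_card inter_subset_left
        calc |1 / ((JJ e).card : ℝ)| * (|(((JJ e).filter (fun J => Q ⊆ J)).card : ℝ)| *
              |g (Q ∩ e).card|)
            ≤ (2 * C2 / (n : ℝ) ^ q) * ((n : ℝ) ^ (Q ∩ e).card * gm) := by gcongr
          _ = _ := by ring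
      rw [abs_mul, abs_of_nonneg h4.1]
      calc η e * |ψ e Q| ≤ (2 ^ r * C1 * c) *
            ((2 * C2 / (n : ℝ) ^ q * gm) * (n : ℝ) ^ (Q ∩ e).card) :=
            mul_le_mul h4.2 h5 (abs_nonneg _) (by positivity)
        _ = _ := by ring
    calc |∑ e ∈ E', η e * ψ e Q| ≤ ∑ e ∈ E', |η e * ψ e Q| := abs_sum_le_sum_abs _ _
      _ ≤ ∑ e ∈ E', (2 ^ r * C1 * c) * (2 * C2 / (n : ℝ) ^ q * gm) *
        (n : ℝ) ^ (Q ∩ e).card := sum_le_sum h1
      _ ≤ ∑ e ∈ powersetCard r (range n), (2 ^ r * C1 * c) * (2 * C2 / (n : ℝ) ^ q * gm) *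
        (n : ℝ) ^ (Q ∩ e).card := by
          refine sum_le_sum_of_subset_of_nonneg sdiff_subset fun e _ _ => by positivity
      _ = (2 ^ r * C1 * c) * (2 * C2 / (n : ℝ) ^ q * gm) *
          ∑ e ∈ powersetCard r (range n), (n : ℝ) ^ (Q ∩ e).card := (mul_sum _ _ _).symm
      _ ≤ (2 ^ r * C1 * c) * (2 * C2 / (n : ℝ) ^ q * gm) * (2 ^ q * (n : ℝ) ^ r) := by
          refine mul_le_mul_of_nonneg_left ?_ (by positivity)
          have := frac_sum_inter n r Q
          rwa [hQ2] at this
      _ = (c * K) * (1 / (n : ℝ) ^ (q - r)) := by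
          have h12 : (n : ℝ) ^ q = (n : ℝ) ^ (q - r) * (n : ℝ) ^ r := by
            rw [← pow_add]; congr 1; omega
          rw [hK, h12]
          field_simp
      _ ≤ 1 * (1 / (n : ℝ) ^ (q - r)) := by gcongr
      _ ≤ 1 / M1 := by
          rw [one_mul]
          exact one_div_le_one_div_of_le hM1p hM1le
  refine ⟨w, ?_, ?_, ?_, ?_⟩
  · intro Q
    simp only [hw]
    split_ifs with h
    · have := (abs_le.1 (hpert Q h.1)).1
      linarith
    · exact le_refl _
  · intro Q
    simp only [hw]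
    split_ifs with h
    · have := (abs_le.1 (hpert Q h.1)).2
      have h2 : (1 / M1 + ∑ e ∈ E', η e * ψ e Q) * M1 ≤ (1 / M1 + 1 / M1) * M1 :=
        mul_le_mul_of_nonneg_right (by linarith) hM1p.le
      refine h2.trans (le_of_eq ?_)
      field_simp
      norm_num
    · rw [zero_mul]; norm_num
  · intro Q hQ
    simp only [hw] at hQ
    split_ifs at hQ with h
    · obtain ⟨h1, h2⟩ := mem_powersetCard.1 h.1
      exact ⟨h1, h2, h.2⟩
    · exact absurd rfl hQ
  · intro e' he' he'F
    have heE : e' ∈ E' := by rw [hE', mem_sdiff]; exact ⟨he', he'F⟩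
    have h1 : ∑ Q ∈ (powersetCard q (range n)).filter (fun Q => e' ⊆ Q), w Q =
        ∑ Q ∈ (powersetCard q (range n)).filter (fun Q => e' ⊆ Q ∧ FracFree F Q),
          (1 / M1 + ∑ e ∈ E', η e * ψ e Q) := by
      rw [← filter_filter, sum_filter (s := (powersetCard q (range n)).filter (fun Q => e' ⊆ Q))]
      refine sum_congr rfl fun Q hQ => ?_
      simp only [hw]
      have := (mem_filter.1 hQ).1
      by_cases h2 : FracFree F Q <;> simp [this, h2]
    rw [h1, sum_add_distrib, sum_comm]
    have h2 : ∀ e ∈ E', ∑ Q ∈ (powersetCard q (range n)).filter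
        (fun Q => e' ⊆ Q ∧ FracFree F Q), η e * ψ e Q = η e * if e' = e then 1 else 0 := by
      intro e he
      rw [← mul_sum, hψs e he e' heE]
    rw [sum_congr rfl h2]
    simp only [mul_ite, mul_one, mul_zero]
    rw [sum_ite_eq, if_pos heE, sum_const, nsmul_eq_mul]
    simp only [hη]
    ring

end Pool.Agent.Kv
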