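import Pool.Agent.Designs.Defs

set_option autoImplicit false

/-!
# Module Gadget: the gadget for fractional decompositions
-/

namespace Pool.Agent.Kv

open Finset

/-- subsets of `A ∪ B` with `a` elements in `A` and `b` elements in `B`. -/
lemma gadget_count (A B : Finset ℕ) (hAB : Disjoint A B) (a b : ℕ) :
    ((powersetCard (a + b) (A ∪ B)).filter (fun R => (R ∩ A).card = a)).card =
      A.card.choose a * B.card.choose b := by
  rw [← card_powersetCard, ← card_powersetCard, ← card_product]
  symm
  apply card_nbij' (fun p => p.1 ∪ p.2) (fun R => (R ∩ A, R ∩ B))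
  · rintro ⟨X, Y⟩ h
    simp only [coe_product, Set.mem_prod, mem_coe, mem_powersetCard] at h
    obtain ⟨⟨h1, h2⟩, h3, h4⟩ := h
    have hXY : Disjoint X Y := disjoint_of_subset_left h1 (disjoint_of_subset_right h3 hAB)
    have e1 : (X ∪ Y) ∩ A = X := by
      rw [union_inter_distrib_right, inter_eq_left.mpr h1]
      have : Y ∩ A = ∅ := disjoint_iff_inter_eq_empty.mp (disjoint_of_subset_left h3 hAB.symm)
      rw [this, union_empty]
    simp only [coe_filter, mem_powersetCard, Set.mem_ofPred_eq]
    refine ⟨⟨union_subset_union h1 h3, ?_⟩, ?_⟩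
    · rw [card_union_of_disjoint hXY, h2, h4]
    · rw [e1, h2]
  · intro R h
    simp only [coe_filter, mem_powersetCard, Set.mem_ofPred_eq] at h
    obtain ⟨⟨h1, h2⟩, h3⟩ := h
    have e1 : (R ∩ A).card + (R ∩ B).card = R.card := by
      rw [← card_union_of_disjoint (disjoint_of_subset_left inter_subset_right
        (disjoint_of_subset_right inter_subset_right hAB)), ← inter_union_distrib_left,
        inter_eq_left.mpr h1]
    simp only [coe_product, Set.mem_prod, mem_coe, mem_powersetCard]
    exact ⟨⟨inter_subset_right, h3⟩, inter_subset_right, by omega⟩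
  · rintro ⟨X, Y⟩ h
    simp only [coe_product, Set.mem_prod, mem_coe, mem_powersetCard] at h
    obtain ⟨⟨h1, h2⟩, h3, h4⟩ := h
    have e1 : (X ∪ Y) ∩ A = X := by
      rw [union_inter_distrib_right, inter_eq_left.mpr h1]
      have : Y ∩ A = ∅ := disjoint_iff_inter_eq_empty.mp (disjoint_of_subset_left h3 hAB.symm)
      rw [this, union_empty]
    have e2 : (X ∪ Y) ∩ B = Y := by
      rw [union_inter_distrib_right, inter_eq_left.mpr h3]
      have : X ∩ B = ∅ := disjoint_iff_inter_eq_empty.mp (disjoint_of_subset_left h1 hAB)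
      rw [this, empty_union]
    simp only [e1, e2]
  · intro R h
    simp only [coe_filter, mem_powersetCard, Set.mem_ofPred_eq] at h
    obtain ⟨⟨h1, h2⟩, h3⟩ := h
    simp only
    rw [← inter_union_distrib_left, inter_eq_left.mpr h1]

/-- solution of the triangular system. -/
lemma gadget_solve {q r : ℕ} (hrq : r < q) (m : ℕ) : m ≤ r → ∃ g : ℕ → ℝ, ∀ j, r - m ≤ j → j ≤ r →
    ∑ t ∈ range (r - j + 1), ((r - j).choose t : ℝ) * ((q - r + j).choose (j + t) : ℝ) *
      g (j + t) = if j = r then 1 else 0 := by
  induction m with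
  | zero =>
    intro _
    refine ⟨fun _ => 1 / (q.choose r : ℝ), fun j h1 h2 => ?_⟩
    have hj : j = r := by omega
    subst hj
    have h3 : (0 : ℝ) < (q.choose j : ℝ) := by exact_mod_cast Nat.choose_pos hrq.le
    have h4 : q - j + j = q := by omega
    simp [h4, h3.ne']
  | succ m ih =>
    intro hm
    obtain ⟨g, hg⟩ := ih (by omega)
    set j0 := r - (m + 1) with hj0
    have hpos : (0 : ℝ) < ((q - r + j0).choose j0 : ℝ) := by
      exact_mod_cast Nat.choose_pos (by omega)
    set s : ℝ := ∑ t ∈ range (r - j0), ((r - j0).choose (t + 1) : ℝ) *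
      ((q - r + j0).choose (j0 + (t + 1)) : ℝ) * g (j0 + (t + 1)) with hs
    refine ⟨Function.update g j0 (-s / ((q - r + j0).choose j0 : ℝ)), fun j h1 h2 => ?_⟩
    rcases Nat.lt_or_ge j (r - m) with h3 | h3
    · have hj : j = j0 := by omega
      rw [hj]
      rw [sum_range_succ']
      have e1 : ∀ t ∈ range (r - j0), ((r - j0).choose (t + 1) : ℝ) *
          ((q - r + j0).choose (j0 + (t + 1)) : ℝ) *
            Function.update g j0 (-s / ((q - r + j0).choose j0 : ℝ)) (j0 + (t + 1)) =
          ((r - j0).choose (t + 1) : ℝ) * ((q - r + j0).choose (j0 + (t + 1)) : ℝ) *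
            g (j0 + (t + 1)) := by
        intro t _
        rw [Function.update_of_ne (by omega)]
      rw [sum_congr rfl e1, ← hs]
      simp only [Nat.choose_zero_right, Nat.cast_one, one_mul, add_zero, Function.update_self]
      rw [if_neg (by omega)]
      field_simp
      ring
    · have := hg j h3 h2
      rw [← this]
      apply sum_congr rfl
      intro t _
      rw [Function.update_of_ne (by omega)]

theorem gadget {q r : ℕ} (hrq : r < q) : ∃ g : ℕ → ℝ, ∀ J e : Finset ℕ, J.card = q + r → e ⊆ J →
    e.card = r → ∀ e' ⊆ J, e'.card = r →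
      ∑ Q ∈ (powersetCard q J).filter (fun Q => e' ⊆ Q), g (Q ∩ e).card =
        if e' = e then 1 else 0 := by
  obtain ⟨g, hg⟩ := gadget_solve hrq r le_rfl
  refine ⟨g, fun J e hJ heJ he e' heJ' he' => ?_⟩
  set A := e \ e' with hA
  set B := (J \ e) \ e' with hB
  have hAB : Disjoint A B := by
    rw [disjoint_left]
    intro x hx hx'
    simp only [hA, hB, mem_sdiff] at hx hx'
    exact hx'.1.2 hx.1
  have hABu : A ∪ B = J \ e' := by
    ext x
    simp only [hA, hB, mem_union, mem_sdiff]
    constructor
    · rintro (⟨h1, h2⟩ | ⟨⟨h1, h2⟩, h3⟩)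
      · exact ⟨heJ h1, h2⟩
      · exact ⟨h1, h3⟩
    · rintro ⟨h1, h2⟩
      by_cases h : x ∈ e
      · exact Or.inl ⟨h, h2⟩
      · exact Or.inr ⟨⟨h1, h⟩, h2⟩
  set j := (e ∩ e').card with hj
  have hjr : j ≤ r := by
    rw [hj, ← he]; exact card_le_card inter_subset_left
  have hAc : A.card = r - j := by
    have := card_sdiff_add_card_inter e e'
    rw [hA]; omega
  have hBc : B.card = q - r + j := by
    have h1 : (A ∪ B).card = A.card + B.card := card_union_of_disjoint hAB
    rw [hABu, card_sdiff_of_subset heJ', hJ, he', hAc] at h1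
    omega
  -- bijection with the subsets of `A ∪ B`
  have step1 : ∑ Q ∈ (powersetCard q J).filter (fun Q => e' ⊆ Q), g (Q ∩ e).card =
      ∑ R ∈ powersetCard (q - r) (A ∪ B), g (j + (R ∩ A).card) := by
    apply sum_nbij' (fun Q => Q \ e') (fun R => R ∪ e')
    · intro Q hQ
      simp only [mem_filter, mem_powersetCard] at hQ
      rw [hABu, mem_powersetCard]
      refine ⟨sdiff_subset_sdiff hQ.1.1 (le_refl _), ?_⟩
      rw [card_sdiff_of_subset hQ.2, hQ.1.2, he']
    · intro R hR
      rw [hABu, mem_powersetCard] at hR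
      simp only [mem_filter, mem_powersetCard]
      refine ⟨⟨union_subset (hR.1.trans sdiff_subset) heJ', ?_⟩, subset_union_right⟩
      rw [card_union_of_disjoint, hR.2, he']
      · omega
      · exact disjoint_of_subset_left hR.1 sdiff_disjoint
    · intro Q hQ
      simp only [mem_filter, mem_powersetCard] at hQ
      exact sdiff_union_of_subset hQ.2
    · intro R hR
      rw [hABu, mem_powersetCard] at hR
      rw [union_sdiff_cancel_right (disjoint_of_subset_left hR.1 sdiff_disjoint)]
    · intro Q hQ
      simp only [mem_filter, mem_powersetCard] at hQ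
      congr 1
      have h1 : Q ∩ e = ((Q \ e') ∩ A) ∪ (e ∩ e') := by
        ext x
        simp only [hA, mem_inter, mem_union, mem_sdiff]
        constructor
        · rintro ⟨h1, h2⟩
          by_cases h : x ∈ e'
          · exact Or.inr ⟨h2, h⟩
          · exact Or.inl ⟨⟨h1, h⟩, h2, h⟩
        · rintro (⟨⟨h1, h2⟩, h3, h4⟩ | ⟨h1, h2⟩)
          · exact ⟨h1, h3⟩
          · exact ⟨hQ.2 h2, h1⟩
      rw [h1, card_union_of_disjoint, hj, add_comm]
      rw [disjoint_left]
      intro x hx hx'
      simp only [mem_inter, mem_sdiff] at hx hx'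
      exact hx.1.2 hx'.2
  rw [step1]
  have hmaps : ∀ R ∈ powersetCard (q - r) (A ∪ B), (R ∩ A).card ∈ range (r - j + 1) := by
    intro R _
    rw [mem_range, ← hAc]
    exact Nat.lt_succ_of_le (card_le_card inter_subset_right)
  rw [← sum_fiberwise_of_maps_to hmaps]
  have step2 : ∀ t ∈ range (r - j + 1),
      ∑ R ∈ (powersetCard (q - r) (A ∪ B)).filter (fun R => (R ∩ A).card = t),
        g (j + (R ∩ A).card) =
      ((r - j).choose t : ℝ) * ((q - r + j).choose (j + t) : ℝ) * g (j + t) := by
    intro t _
    have h1 : ∀ R ∈ (powersetCard (q - r) (A ∪ B)).filter (fun R => (R ∩ A).card = t),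
        g (j + (R ∩ A).card) = g (j + t) := by
      intro R hR
      rw [(mem_filter.mp hR).2]
    rw [sum_congr rfl h1, sum_const, nsmul_eq_mul]
    congr 1
    rcases Nat.lt_or_ge (q - r) t with h2 | h2
    · have h3 : (powersetCard (q - r) (A ∪ B)).filter (fun R => (R ∩ A).card = t) = ∅ := by
        rw [filter_eq_empty_iff]
        intro R hR h4
        have h5 := card_le_card (inter_subset_left (s₁ := R) (s₂ := A))
        rw [(mem_powersetCard.mp hR).2] at h5
        omega
      rw [h3, card_empty, Nat.choose_eq_zero_of_lt (by omega : q - r + j < j + t)]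
      simp
    · have h3 := gadget_count A B hAB t (q - r - t)
      rw [show t + (q - r - t) = q - r by omega] at h3
      rw [h3, hAc, hBc]
      have h4 : (q - r + j).choose (q - r - t) = (q - r + j).choose (j + t) := by
        rw [← Nat.choose_symm (by omega : j + t ≤ q - r + j)]
        congr 1
        omega
      rw [h4]
      push_cast
      ring
  rw [sum_congr rfl step2, hg j (by omega) hjr]
  have : j = r ↔ e' = e := by
    constructor
    · intro h
      have h1 : e ∩ e' = e := eq_of_subset_of_card_le inter_subset_left (by omega)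
      have h2 : e ∩ e' = e' := eq_of_subset_of_card_le inter_subset_right (by omega)
      rw [← h2, h1]
    · rintro rfl
      rw [hj, inter_self, he]
  simp only [this]

end Pool.Agent.Kv
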