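import Pool.Agent.Designs.HubA

set_option autoImplicit false

/-!
# Module Hub, second half: `hub_count` and `tok_deg` (section (5c))
-/

namespace Pool.Agent.Kv

open Finset

lemma hubc_mem_Hs {Kf : Finset ℕ → Finset ℕ} {n r : ℕ} {G : Finset ℕ} {v : ℕ} :
    v ∈ Hs Kf n r G ↔ (v ∈ range n ∧ v ∉ G) ∧ ∀ G' ⊆ G, G'.card < r → v ∈ Kf G' := by
  simp [Hs, mem_filter, mem_sdiff, mem_powerset]

theorem hub_count {r n M : ℕ} (hM : 1 ≤ M) {Kf : Finset ℕ → Finset ℕ} (hK : HubProp r n M Kf)
    {g0 g1 : Finset ℕ} (h0 : g0 ⊆ range n) (h1 : g1 ⊆ range n) (h01 : Disjoint g0 g1)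
    (hg1 : 1 ≤ g1.card) (hg1r : g1.card + 1 ≤ r) {a : ℕ} (hb : g0.card ≤ a) (ha : a < r) :
    ((range n).powerset.filter
      (fun G => g0 ⊆ G ∧ G.card = a ∧ g1 ⊆ Hs Kf n r G)).card *
      M ^ (g1.card * (2 ^ a - 2 ^ g0.card)) ≤ (3 * n) ^ (a - g0.card) := by
  obtain ⟨d, hd⟩ : ∃ d, d = a - g0.card := ⟨_, rfl⟩
  induction d generalizing g0 with
  | zero =>
    have hab : g0.card = a := by omega
    have h2 : (range n).powerset.filter
      (fun G => g0 ⊆ G ∧ G.card = a ∧ g1 ⊆ Hs Kf n r G) ⊆ {g0} := by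
      intro G hG
      obtain ⟨_, h3, h4, _⟩ := mem_filter.mp hG
      rw [mem_singleton]
      exact (eq_of_subset_of_card_le h3 (by omega)).symm
    have h3 := card_le_card h2
    rw [card_singleton] at h3
    rw [hab]
    simpa using h3
  | succ d ih =>
    have hlt : g0.card + 1 ≤ a := by omega
    set X := (range n \ (g0 ∪ g1)).filter
        (fun x => ∀ G' ∈ g0.powerset, ∀ y ∈ g1, y ∈ Kf (insert x G')) with hX
    set F : Finset ℕ → Finset (Finset ℕ) := fun g => (range n).powerset.filter
      (fun G => g ⊆ G ∧ G.card = a ∧ g1 ⊆ Hs Kf n r G) with hF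
    have hsub : F g0 ⊆ X.biUnion (fun x => F (insert x g0)) := by
      intro G hG
      obtain ⟨hGn, hgG, hGc, hG1⟩ := mem_filter.mp hG
      rw [mem_powerset] at hGn
      have hss : ∃ x ∈ G, x ∉ g0 := by
        by_contra hcon
        push Not at hcon
        have : G.card ≤ g0.card := card_le_card hcon
        omega
      obtain ⟨x, hxG, hx0⟩ := hss
      rw [mem_biUnion]
      refine ⟨x, ?_, ?_⟩
      · rw [hX, mem_filter, mem_sdiff, mem_union]
        refine ⟨⟨hGn hxG, ?_⟩, ?_⟩
        · rintro (h | h)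
          · exact hx0 h
          · exact (hubc_mem_Hs.mp (hG1 h)).1.2 hxG
        · intro G' hG' y hy
          rw [mem_powerset] at hG'
          have hins : insert x G' ⊆ G := insert_subset hxG (hG'.trans hgG)
          refine (hubc_mem_Hs.mp (hG1 hy)).2 _ hins ?_
          have := card_le_card hins
          omega
      · rw [hF]
        simp only [mem_filter, mem_powerset]
        exact ⟨hGn, insert_subset hxG hgG, hGc, hG1⟩
    have hcard : (F g0).card ≤ ∑ x ∈ X, (F (insert x g0)).card :=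
      (card_le_card hsub).trans card_biUnion_le
    have hXb : X.card * M ^ (g1.card * 2 ^ g0.card) ≤ 3 * n :=
      hK.2 g0 h0 g1 h1 h01 (by omega) hg1 hg1r
    have hterm : ∀ x ∈ X, (F (insert x g0)).card * M ^ (g1.card * (2 ^ a - 2 ^ (g0.card + 1))) ≤
        (3 * n) ^ d := by
      intro x hx
      rw [hX, mem_filter, mem_sdiff, mem_union] at hx
      obtain ⟨⟨hxn, hx01⟩, _⟩ := hx
      push Not at hx01
      have hc : (insert x g0).card = g0.card + 1 := card_insert_of_notMem hx01.1
      have h5 := ih (g0 := insert x g0) (insert_subset hxn h0)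
        (disjoint_insert_left.mpr ⟨hx01.2, h01⟩) (by omega) (by omega)
      rw [hc] at h5
      have h6 : a - (g0.card + 1) = d := by omega
      rw [h6] at h5
      exact h5
    have hexp : g1.card * (2 ^ a - 2 ^ g0.card) =
        g1.card * (2 ^ a - 2 ^ (g0.card + 1)) + g1.card * 2 ^ g0.card := by
      rw [← Nat.mul_add]
      congr 1
      have h7 : 2 ^ (g0.card + 1) ≤ 2 ^ a := Nat.pow_le_pow_right (by norm_num) hlt
      have h8 : 2 ^ (g0.card + 1) = 2 ^ g0.card + 2 ^ g0.card := by ring
      clear_value X F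
      generalize 2 ^ g0.card = u at h7 h8 ⊢
      generalize 2 ^ (g0.card + 1) = v at h7 h8 ⊢
      generalize 2 ^ a = w at h7 h8 ⊢
      omega
    have hd2 : a - g0.card = d + 1 := by omega
    rw [hd2, hexp, pow_add]
    calc (F g0).card * (M ^ (g1.card * (2 ^ a - 2 ^ (g0.card + 1))) * M ^ (g1.card * 2 ^ g0.card))
        ≤ (∑ x ∈ X, (F (insert x g0)).card) *
          (M ^ (g1.card * (2 ^ a - 2 ^ (g0.card + 1))) * M ^ (g1.card * 2 ^ g0.card)) :=
          Nat.mul_le_mul_right _ hcard
      _ = (∑ x ∈ X, (F (insert x g0)).card * M ^ (g1.card * (2 ^ a - 2 ^ (g0.card + 1)))) *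
          M ^ (g1.card * 2 ^ g0.card) := by
          rw [← mul_assoc, sum_mul]
      _ ≤ (∑ _x ∈ X, (3 * n) ^ d) * M ^ (g1.card * 2 ^ g0.card) :=
          Nat.mul_le_mul_right _ (sum_le_sum hterm)
      _ = (3 * n) ^ d * (X.card * M ^ (g1.card * 2 ^ g0.card)) := by
          rw [sum_const, smul_eq_mul]; ring
      _ ≤ (3 * n) ^ d * (3 * n) := Nat.mul_le_mul_left _ hXb
      _ = (3 * n) ^ (d + 1) := by rw [pow_succ]

theorem tok_deg {r n M : ℕ} (hr : 1 ≤ r) (hM : 1 ≤ M) {Kf : Finset ℕ → Finset ℕ}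
    (hK : HubProp r n M Kf) {S : Finset ℕ} (hS : S.card + 1 = r) :
    ((Tok Kf n r).filter (fun e => S ⊆ e)).card * M ≤ 2 ^ r * (3 * n) := by
  rcases Finset.eq_empty_or_nonempty ((Tok Kf n r).filter (fun e => S ⊆ e)) with hE | hE
  · rw [hE]; simp
  have hSn : S ⊆ range n := by
    obtain ⟨e, he⟩ := hE
    obtain ⟨he1, he2⟩ := mem_filter.mp he
    exact he2.trans (mem_powersetCard.mp (mem_filter.mp he1).1).1
  -- the set of x's for a given `G0 ⊂ S`
  set Y : Finset ℕ → Finset ℕ := fun g => (range n \ (g ∪ (S \ g))).filter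
        (fun x => ∀ G' ∈ g.powerset, ∀ y ∈ (S \ g), y ∈ Kf (insert x G')) with hY
  have hsub : (Tok Kf n r).filter (fun e => S ⊆ e) ⊆
      (Hs Kf n r ∅ ∪ (S.powerset.erase S).biUnion Y).image (fun x => insert x S) := by
    intro e he
    obtain ⟨he1, hSe⟩ := mem_filter.mp he
    obtain ⟨he2, G, hGe, hne, hG⟩ := mem_filter.mp he1
    rw [mem_powerset] at hGe
    obtain ⟨hen, hec⟩ := mem_powersetCard.mp he2
    have hx : ∃ x ∈ e, x ∉ S := by
      by_contra hcon
      push Not at hcon
      have : e.card ≤ S.card := card_le_card hcon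
      omega
    obtain ⟨x, hxe, hxS⟩ := hx
    have heq : insert x S = e := by
      apply eq_of_subset_of_card_le (insert_subset hxe hSe)
      rw [card_insert_of_notMem hxS]; omega
    have hGc : G.card < r := by
      rw [← hec]
      exact card_lt_card (Finset.ssubset_iff_subset_ne.mpr ⟨hGe, hne⟩)
    rw [mem_image]
    refine ⟨x, ?_, heq⟩
    rw [mem_union]
    by_cases hxG : x ∈ G
    · right
      rw [mem_biUnion]
      refine ⟨G.erase x, ?_, ?_⟩
      · rw [mem_erase, mem_powerset]
        refine ⟨?_, ?_⟩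
        · intro h
          apply hne
          rw [← heq, ← h, insert_erase hxG]
        · intro y hy
          obtain ⟨hyx, hyG⟩ := mem_erase.mp hy
          have := hGe hyG
          rw [← heq, mem_insert] at this
          exact this.resolve_left hyx
      · simp only [hY, mem_filter, mem_sdiff, mem_union, mem_powerset]
        refine ⟨⟨hen hxe, ?_⟩, ?_⟩
        · rintro (h | h)
          · exact (mem_erase.mp h).1 rfl
          · exact hxS h.1
        · intro G' hG' y hy
          have hyG : y ∉ G := by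
            intro h
            apply hy.2
            rw [mem_erase]
            refine ⟨?_, h⟩
            rintro rfl
            exact hxS hy.1
          have hyH : y ∈ Hs Kf n r G := hG (mem_sdiff.mpr ⟨hSe hy.1, hyG⟩)
          have hins : insert x G' ⊆ G := insert_subset hxG (hG'.trans (erase_subset _ _))
          exact (hubc_mem_Hs.mp hyH).2 _ hins (lt_of_le_of_lt (card_le_card hins) hGc)
    · left
      have hxH : x ∈ Hs Kf n r G := hG (mem_sdiff.mpr ⟨hxe, hxG⟩)
      rw [hubc_mem_Hs] at hxH ⊢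
      refine ⟨⟨hxH.1.1, by simp⟩, fun G' hG' hc => hxH.2 G' (hG'.trans (empty_subset _)) hc⟩
  have hpow : ∀ {k : ℕ}, 1 ≤ k → M ≤ M ^ k := fun {k} hk => by
    calc M = M ^ 1 := (pow_one M).symm
      _ ≤ M ^ k := Nat.pow_le_pow_right hM hk
  have hH : (Hs Kf n r ∅).card * M ≤ 3 * n := by
    have h := (hK.1 ∅ (empty_subset _) (by simp)).2
    have h2 : 1 ≤ sG r (∅ : Finset ℕ).card := by
      unfold sG
      rw [card_empty, if_pos (by omega)]
      simp
    exact (Nat.mul_le_mul_left _ (hpow h2)).trans h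
  have hYb : ∀ g ∈ S.powerset.erase S, (Y g).card * M ≤ 3 * n := by
    intro g hg
    obtain ⟨hgne, hgS⟩ := mem_erase.mp hg
    rw [mem_powerset] at hgS
    have hlt : g.card < S.card := card_lt_card (Finset.ssubset_iff_subset_ne.mpr ⟨hgS, hgne⟩)
    have hc : (S \ g).card = S.card - g.card := card_sdiff_of_subset hgS
    have h := hK.2 g (hgS.trans hSn) (S \ g) (sdiff_subset.trans hSn) disjoint_sdiff (by omega)
      (by omega) (by omega)
    have h2 : 1 ≤ (S \ g).card * 2 ^ g.card := by
      have : 1 ≤ (S \ g).card := by omega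
      exact Nat.mul_pos this (by positivity)
    exact (Nat.mul_le_mul_left _ (hpow h2)).trans h
  calc ((Tok Kf n r).filter (fun e => S ⊆ e)).card * M
      ≤ (Hs Kf n r ∅ ∪ (S.powerset.erase S).biUnion Y).card * M :=
        Nat.mul_le_mul_right _ ((card_le_card hsub).trans card_image_le)
    _ ≤ ((Hs Kf n r ∅).card + ∑ g ∈ S.powerset.erase S, (Y g).card) * M :=
        Nat.mul_le_mul_right _ ((card_union_le _ _).trans
          (Nat.add_le_add_left card_biUnion_le _))
    _ = (Hs Kf n r ∅).card * M + ∑ g ∈ S.powerset.erase S, (Y g).card * M := by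
        rw [Nat.add_mul, sum_mul]
    _ ≤ 3 * n + ∑ _g ∈ S.powerset.erase S, 3 * n :=
        Nat.add_le_add hH (sum_le_sum hYb)
    _ = (1 + (S.powerset.erase S).card) * (3 * n) := by
        rw [sum_const, smul_eq_mul]; ring
    _ ≤ 2 ^ r * (3 * n) := by
        apply Nat.mul_le_mul_right
        rw [card_erase_of_mem (mem_powerset_self S), card_powerset]
        have h3 : 1 ≤ 2 ^ S.card := Nat.one_le_two_pow
        have h4 : 2 ^ S.card ≤ 2 ^ r := Nat.pow_le_pow_right (by norm_num) (by omega)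
        omega

end Pool.Agent.Kv
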