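import Pool.Agent.Designs.Defs
import Pool.Agent.Designs.Ch

set_option autoImplicit false

/-!
# Module Hub: the hub system (section 5 (5b)), part `hub`
-/

namespace Pool.Agent.Kv

open Finset

/-- the two properties of a hub system. -/
def HubProp (r n M : ℕ) (Kf : Finset ℕ → Finset ℕ) : Prop :=
  (∀ G ⊆ range n, G.card ≤ r → n ≤ 3 * (Hs Kf n r G).card * M ^ (sG r G.card) ∧
      (Hs Kf n r G).card * M ^ (sG r G.card) ≤ 3 * n) ∧
  (∀ g0 ⊆ range n, ∀ g1 ⊆ range n, Disjoint g0 g1 → g0.card + 2 ≤ r → 1 ≤ g1.card →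
      g1.card + 1 ≤ r →
      ((range n \ (g0 ∪ g1)).filter
        (fun x => ∀ G' ∈ g0.powerset, ∀ y ∈ g1, y ∈ Kf (insert x G'))).card *
        M ^ (g1.card * 2 ^ g0.card) ≤ 3 * n)

/-- the coordinates read by the test `t` at `x`. -/
def hubI (r : ℕ) (t : Finset ℕ × Finset ℕ) (x : ℕ) : Finset (Finset ℕ × ℕ) :=
  if t.2 = ∅ then (t.1.powerset.filter (fun G => G.card < r)) ×ˢ {x}
  else (t.1.powerset ×ˢ t.2).image (fun p => (insert x p.1, p.2))

/-- their number. -/
def hubS (r : ℕ) (t : Finset ℕ × Finset ℕ) : ℕ :=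
  if t.2 = ∅ then sG r t.1.card else t.2.card * 2 ^ t.1.card

/-- the small subsets. -/
def hubP (r n : ℕ) : Finset (Finset ℕ) := (range n).powerset.filter (fun G => G.card ≤ r)

/-- the tests. -/
def hubT (r n : ℕ) : Finset (Finset ℕ × Finset ℕ) :=
  (hubP r n ×ˢ hubP r n).filter (fun t => t.2 = ∅ ∨ Disjoint t.1 t.2)

lemma hub_card_filter_lt {r : ℕ} {G : Finset ℕ} (hG : G.card ≤ r) :
    (G.powerset.filter (fun G' => G'.card < r)).card = sG r G.card := by
  unfold sG
  split_ifs with h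
  · rw [filter_true_of_mem, card_powerset]
    intro G' hG'
    exact (card_le_card (mem_powerset.mp hG')).trans_lt h
  · have h1 : G.card = r := by omega
    have h2 : G.powerset.filter (fun G' => G'.card < r) = G.powerset.erase G := by
      ext G'
      simp only [mem_filter, mem_powerset, mem_erase]
      constructor
      · rintro ⟨h3, h4⟩
        refine ⟨?_, h3⟩
        rintro rfl
        omega
      · rintro ⟨h3, h4⟩
        refine ⟨h4, ?_⟩
        rw [← h1]
        exact card_lt_card (h4.ssubset_of_ne h3)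
    rw [h2, card_erase_of_mem (mem_powerset_self G), card_powerset, h1]

lemma hubI_card {r : ℕ} {t : Finset ℕ × Finset ℕ} (h1 : t.1.card ≤ r)
    {x : ℕ} (hx : x ∉ t.1) : (hubI r t x).card = hubS r t := by
  unfold hubI hubS
  split_ifs with h
  · rw [card_product, hub_card_filter_lt h1, card_singleton, mul_one]
  · rw [card_image_of_injOn, card_product, card_powerset, mul_comm]
    intro p hp p' hp' hpp
    simp only [coe_product, Set.mem_prod, mem_coe, mem_powerset] at hp hp'
    simp only [Prod.mk.injEq] at hpp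
    obtain ⟨h3, h4⟩ := hpp
    have h5 : x ∉ p.1 := fun h => hx (hp.1 h)
    have h6 : x ∉ p'.1 := fun h => hx (hp'.1 h)
    have h7 : (insert x p.1).erase x = (insert x p'.1).erase x := by rw [h3]
    rw [erase_insert h5, erase_insert h6] at h7
    exact Prod.ext h7 h4

lemma hubI_disj {r : ℕ} {t : Finset ℕ × Finset ℕ}
    {x y : ℕ} (hx : x ∉ t.1) (_hy : y ∉ t.1) (hxy : x ≠ y) :
    Disjoint (hubI r t x) (hubI r t y) := by
  unfold hubI
  split_ifs with h
  · rw [disjoint_left]
    rintro ⟨a, b⟩ h1 h2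
    rw [mem_product] at h1 h2
    have h3 : b = x := mem_singleton.mp h1.2
    have h4 : b = y := mem_singleton.mp h2.2
    exact hxy (h3.symm.trans h4)
  · rw [disjoint_left]
    intro q h1 h2
    obtain ⟨p, hp, hpq⟩ := mem_image.mp h1
    obtain ⟨p', hp', hpq'⟩ := mem_image.mp h2
    have h3 : insert x p.1 = insert y p'.1 := by
      have h4 : q.1 = insert x p.1 := by rw [← hpq]
      have h5 : q.1 = insert y p'.1 := by rw [← hpq']
      rw [← h4, ← h5]
    have h4 : x ∈ insert y p'.1 := by rw [← h3]; exact mem_insert_self _ _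
    rcases mem_insert.mp h4 with h5 | h5
    · exact hxy h5
    · exact hx (mem_powerset.mp (mem_product.mp hp').1 h5)

lemma hub_sG_le {r : ℕ} (hr : 1 ≤ r) (a : ℕ) : sG r a ≤ r * 2 ^ r := by
  unfold sG
  have h2 : 2 ^ r ≤ r * 2 ^ r := Nat.le_mul_of_pos_left _ (by omega)
  split_ifs with h
  · exact (Nat.pow_le_pow_right (by norm_num) h.le).trans h2
  · omega

lemma hubS_le {r : ℕ} (hr : 1 ≤ r) {t : Finset ℕ × Finset ℕ} (h1 : t.1.card ≤ r)
    (h2 : t.2.card ≤ r) : hubS r t ≤ r * 2 ^ r := by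
  unfold hubS
  split_ifs with h
  · exact hub_sG_le hr _
  · exact Nat.mul_le_mul h2 (Nat.pow_le_pow_right (by norm_num) h1)

lemma hubP_card (r n : ℕ) : (hubP r n).card ≤ (n + 1) ^ r := by
  -- surject functions `Fin r → Fin (n+1)`
  have h : (hubP r n).card ≤
      (Finset.univ.image (fun f : Fin r → Fin (n + 1) =>
        (Finset.univ.image (fun i => (f i : ℕ))).filter (fun v => v < n))).card := by
    apply card_le_card
    intro G hG
    obtain ⟨hG1, hG2⟩ := mem_filter.mp hG
    rw [mem_powerset] at hG1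
    rw [mem_image]
    let e := G.equivFin
    refine ⟨fun i => if h : (i : ℕ) < G.card then
        ⟨((e.symm ⟨i, h⟩ : G) : ℕ), by
          have := mem_range.mp (hG1 (e.symm ⟨i, h⟩).2); omega⟩ else ⟨n, by omega⟩,
      mem_univ _, ?_⟩
    ext v
    simp only [mem_filter, mem_image, mem_univ, true_and]
    constructor
    · rintro ⟨⟨i, hi⟩, hv⟩
      by_cases h : (i : ℕ) < G.card
      · rw [dif_pos h] at hi
        rw [← hi]
        exact (e.symm ⟨i, h⟩).2
      · rw [dif_neg h] at hi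
        simp only at hi
        omega
    · intro hv
      refine ⟨⟨⟨(e ⟨v, hv⟩ : ℕ), (e ⟨v, hv⟩).2.trans_le hG2⟩, ?_⟩, mem_range.mp (hG1 hv)⟩
      rw [dif_pos (e ⟨v, hv⟩).2]
      simp
  refine h.trans (card_image_le.trans ?_)
  simp

lemma hub_log (n : ℕ) : Real.log ((n : ℝ) + 1) ≤ (Lam n : ℝ) := by
  have h1 : n + 1 ≤ 2 ^ (Nat.log 2 n + 1) := Nat.lt_pow_succ_log_self (by norm_num) n
  have h2 : ((n : ℝ) + 1) ≤ (2 : ℝ) ^ (Nat.log 2 n + 1) := by exact_mod_cast h1
  have h3 : Real.log ((n : ℝ) + 1) ≤ Real.log ((2 : ℝ) ^ (Nat.log 2 n + 1)) :=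
    Real.log_le_log (by positivity) h2
  rw [Real.log_pow] at h3
  have h4 : Real.log 2 ≤ 1 := by
    have := Real.log_two_lt_d9
    linarith
  have h5 : ((Nat.log 2 n + 1 : ℕ) : ℝ) * Real.log 2 ≤ ((Nat.log 2 n + 1 : ℕ) : ℝ) * 1 :=
    mul_le_mul_of_nonneg_left h4 (by positivity)
  have h6 : ((Nat.log 2 n + 1 : ℕ) : ℝ) * 1 ≤ (Lam n : ℝ) := by
    unfold Lam
    push_cast
    linarith
  linarith

lemma hubT_card (r n : ℕ) : (hubT r n).card ≤ ((n + 1) ^ r) * ((n + 1) ^ r) := by
  refine (card_filter_le _ _).trans ?_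
  rw [card_product]
  exact Nat.mul_le_mul (hubP_card r n) (hubP_card r n)

lemma hub_logT (r n : ℕ) : Real.log (2 * ((hubT r n).card : ℝ)) ≤
    (2 * (r : ℝ) + 1) * (Lam n : ℝ) := by
  have hL : (0 : ℝ) ≤ (Lam n : ℝ) := by positivity
  have hL2 : (2 : ℝ) ≤ (Lam n : ℝ) := by exact_mod_cast Lam_pos n
  rcases Nat.eq_zero_or_pos (hubT r n).card with h0 | h0
  · rw [h0]
    simp only [Nat.cast_zero, mul_zero, Real.log_zero]
    positivity
  have h1 : ((hubT r n).card : ℝ) ≤ ((n : ℝ) + 1) ^ r * ((n : ℝ) + 1) ^ r := by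
    exact_mod_cast hubT_card r n
  have h2 : (0 : ℝ) < ((hubT r n).card : ℝ) := by exact_mod_cast h0
  have hn : (0 : ℝ) < (n : ℝ) + 1 := by positivity
  have h3 : Real.log (2 * ((hubT r n).card : ℝ)) ≤
      Real.log (2 * (((n : ℝ) + 1) ^ r * ((n : ℝ) + 1) ^ r)) :=
    Real.log_le_log (by positivity) (by linarith)
  have h3' : Real.log (2 * (((n : ℝ) + 1) ^ r * ((n : ℝ) + 1) ^ r)) =
      Real.log 2 + ((r : ℝ) * Real.log ((n : ℝ) + 1) + (r : ℝ) * Real.log ((n : ℝ) + 1)) := by
    rw [Real.log_mul (by norm_num) (by positivity), Real.log_mul (by positivity) (by positivity),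
      Real.log_pow]
  rw [h3'] at h3
  have h4 : Real.log 2 ≤ 1 := by
    have := Real.log_two_lt_d9
    linarith
  have h5 := hub_log n
  have h6 : (r : ℝ) * Real.log ((n : ℝ) + 1) ≤ (r : ℝ) * (Lam n : ℝ) :=
    mul_le_mul_of_nonneg_left h5 (by positivity)
  nlinarith

theorem hub {r : ℕ} (hr : 1 ≤ r) : ∃ C : ℕ, ∀ n M : ℕ, 1 ≤ M →
    C * M ^ (r * 2 ^ r) * Lam n ≤ n → ∃ Kf : Finset ℕ → Finset ℕ, HubProp r n M Kf := by
  refine ⟨16 * (2 * r + 1), fun n M hM hn => ?_⟩
  have hL := Lam_pos n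
  have hMp : 1 ≤ M ^ (r * 2 ^ r) := Nat.one_le_pow _ _ hM
  have hML : 2 ≤ M ^ (r * 2 ^ r) * Lam n := by nlinarith
  have hn' : 16 * (2 * r + 1) * (M ^ (r * 2 ^ r) * Lam n) ≤ n := by
    rw [← mul_assoc]; exact hn
  have hnr : 6 * r + 1 ≤ n := by nlinarith
  -- the sizes of the ground sets
  have hX : ∀ t ∈ hubT r n, n ≤ (range n \ (t.1 ∪ t.2)).card + 2 * r := by
    intro t ht
    obtain ⟨h1, -⟩ := mem_filter.mp ht
    obtain ⟨h2, h3⟩ := mem_product.mp h1
    have h4 := (mem_filter.mp h2).2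
    have h5 := (mem_filter.mp h3).2
    have h6 : (t.1 ∪ t.2).card ≤ t.1.card + t.2.card := card_union_le _ _
    have h7 : (range n).card ≤ (range n \ (t.1 ∪ t.2)).card + (t.1 ∪ t.2).card :=
      card_le_card_sdiff_add_card
    rw [card_range] at h7
    omega
  obtain ⟨Kv, hKv⟩ := ch (γ := Finset ℕ × ℕ) hM (hubT r n)
    (fun t => range n \ (t.1 ∪ t.2)) (hubI r) (hubS r)
    (by
      intro t _ x hx y hy hxy
      have hx' := (mem_sdiff.mp hx).2
      have hy' := (mem_sdiff.mp hy).2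
      exact hubI_disj (fun h => hx' (mem_union_left _ h)) (fun h => hy' (mem_union_left _ h)) hxy)
    (by
      intro t ht x hx
      have hx' := (mem_sdiff.mp hx).2
      obtain ⟨h1, -⟩ := mem_filter.mp ht
      obtain ⟨h2, h3⟩ := mem_product.mp h1
      exact hubI_card (mem_filter.mp h2).2 (fun h => hx' (mem_union_left _ h)))
    (by
      intro t ht
      have h1 := hX t ht
      obtain ⟨h2, -⟩ := mem_filter.mp ht
      obtain ⟨h3, h4⟩ := mem_product.mp h2
      have h5 : hubS r t ≤ r * 2 ^ r := hubS_le hr (mem_filter.mp h3).2 (mem_filter.mp h4).2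
      have h6 : (M : ℝ) ^ (hubS r t) ≤ (M : ℝ) ^ (r * 2 ^ r) :=
        pow_le_pow_right₀ (by exact_mod_cast hM) h5
      have h7 := hub_logT r n
      have h8 : (0 : ℝ) ≤ (2 * (r : ℝ) + 1) * (Lam n : ℝ) := by positivity
      have h9 : (M : ℝ) ^ (hubS r t) * Real.log (2 * ((hubT r n).card : ℝ)) ≤
          (M : ℝ) ^ (r * 2 ^ r) * ((2 * (r : ℝ) + 1) * (Lam n : ℝ)) := by
        refine (mul_le_mul_of_nonneg_left h7 (by positivity)).trans ?_
        exact mul_le_mul_of_nonneg_right h6 h8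
      have h10 : (16 * (2 * (r : ℝ) + 1)) * ((M : ℝ) ^ (r * 2 ^ r) * (Lam n : ℝ)) ≤ (n : ℝ) := by
        exact_mod_cast hn'
      have h11 : (n : ℝ) ≤ ((range n \ (t.1 ∪ t.2)).card : ℝ) + 2 * (r : ℝ) := by
        exact_mod_cast h1
      have h12 : 6 * (r : ℝ) + 1 ≤ (n : ℝ) := by exact_mod_cast hnr
      nlinarith)
  refine ⟨fun G => (Kv.filter (fun p => p.1 = G)).image Prod.snd, ?_, ?_⟩
  · intro G hG hGr
    have ht : (G, (∅ : Finset ℕ)) ∈ hubT r n := by
      unfold hubT hubP
      simp [hG, hGr]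
    obtain ⟨h1, h2⟩ := hKv _ ht
    have hs : hubS r (G, ∅) = sG r G.card := by simp [hubS]
    have hf : ((range n \ (G ∪ ∅)).filter (fun x => hubI r (G, ∅) x ⊆ Kv)) =
        Hs (fun G => (Kv.filter (fun p => p.1 = G)).image Prod.snd) n r G := by
      unfold Hs
      rw [union_empty]
      apply filter_congr
      intro x _
      unfold hubI
      simp only [if_true]
      constructor
      · intro h G' hG' hG'r
        simp only [mem_image, mem_filter]
        refine ⟨(G', x), ⟨h ?_, rfl⟩, rfl⟩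
        simp only [mem_product, mem_filter, mem_singleton, and_true]
        exact ⟨hG', hG'r⟩
      · intro h p hp
        simp only [mem_product, mem_filter, mem_singleton] at hp
        have h3 := h p.1 hp.1.1 hp.1.2
        simp only [mem_image, mem_filter] at h3
        obtain ⟨p', ⟨h4, h5⟩, h6⟩ := h3
        have : p' = p := Prod.ext h5 (by rw [h6, hp.2])
        rwa [this] at h4
    simp only at h1 h2
    rw [hf, hs] at h1 h2
    have h3 : n ≤ (range n \ (G ∪ ∅)).card + r := by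
      have h7 : (range n).card ≤ (range n \ (G ∪ ∅)).card + (G ∪ ∅).card :=
        card_le_card_sdiff_add_card
      rw [card_range, union_empty] at h7
      rw [union_empty]
      omega
    have h4 : (range n \ (G ∪ ∅)).card ≤ n := by
      refine (card_le_card sdiff_subset).trans ?_
      rw [card_range]
    set Z := (Hs (fun G => (Kv.filter (fun p => p.1 = G)).image Prod.snd) n r G).card with hZ
    constructor
    · nlinarith
    · omega
  · intro g0 hg0 g1 hg1 hd h0 h11 h12
    have hne : g1 ≠ ∅ := by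
      rintro rfl
      simp at h11
    have ht : (g0, g1) ∈ hubT r n := by
      unfold hubT hubP
      simp only [mem_filter, mem_product, mem_powerset]
      exact ⟨⟨⟨hg0, by omega⟩, ⟨hg1, by omega⟩⟩, Or.inr hd⟩
    obtain ⟨-, h2⟩ := hKv _ ht
    have hs : hubS r (g0, g1) = g1.card * 2 ^ g0.card := by simp [hubS, hne]
    simp only at h2
    rw [hs] at h2
    have h4 : (range n \ (g0 ∪ g1)).card ≤ n := by
      refine (card_le_card sdiff_subset).trans ?_
      rw [card_range]
    have hf : ((range n \ (g0 ∪ g1)).filter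
        (fun x => ∀ G' ∈ g0.powerset, ∀ y ∈ g1,
          y ∈ (fun G => (Kv.filter (fun p => p.1 = G)).image Prod.snd) (insert x G'))) =
        ((range n \ (g0 ∪ g1)).filter (fun x => hubI r (g0, g1) x ⊆ Kv)) := by
      apply filter_congr
      intro x _
      unfold hubI
      rw [if_neg hne]
      constructor
      · intro h p hp
        obtain ⟨q, hq, rfl⟩ := mem_image.mp hp
        obtain ⟨hq1, hq2⟩ := mem_product.mp hq
        have h3 := h q.1 hq1 q.2 hq2
        simp only [mem_image, mem_filter] at h3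
        obtain ⟨p', ⟨h4, h5⟩, h6⟩ := h3
        have : p' = (insert x q.1, q.2) := Prod.ext h5 h6
        rwa [this] at h4
      · intro h G' hG' y hy
        simp only [mem_image, mem_filter]
        refine ⟨(insert x G', y), ⟨h ?_, rfl⟩, rfl⟩
        exact mem_image.mpr ⟨(G', y), mem_product.mpr ⟨hG', hy⟩, rfl⟩
    rw [hf]
    omega

end Pool.Agent.Kv
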