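import Pool.Agent.Designs.Ctx

set_option autoImplicit false

/-!
# Module LG: local generation of the token lattice (section 6 of the paper proof)
-/

namespace Pool.Agent.Kv

open Finset

theorem Hs_anti {Kf : Finset ℕ → Finset ℕ} {n r : ℕ} {G' G : Finset ℕ} (h : G' ⊆ G) :
    Hs Kf n r G ⊆ Hs Kf n r G' := by
  intro v hv
  unfold Hs at hv ⊢
  rw [mem_filter, mem_sdiff] at hv ⊢
  refine ⟨⟨hv.1.1, fun hG' => hv.1.2 (h hG')⟩, fun G'' hG'' hc => ?_⟩
  exact hv.2 G'' (mem_powerset.mpr ((mem_powerset.mp hG'').trans h)) hc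

/-- `G` is a good context of `e`. -/
def LGgood (Kf : Finset ℕ → Finset ℕ) (n r : ℕ) (e G : Finset ℕ) : Prop :=
  G ⊆ e ∧ G ≠ e ∧ e \ G ⊆ Hs Kf n r G

/-- `e` has a good context with fewer than `a` elements. -/
def LGlt (Kf : Finset ℕ → Finset ℕ) (n r a : ℕ) (e : Finset ℕ) : Prop :=
  ∃ G, LGgood Kf n r e G ∧ G.card < a

/-- `G` is the least good context of some set. -/
def LGact (Kf : Finset ℕ → Finset ℕ) (n r : ℕ) (G : Finset ℕ) : Prop :=
  ∃ e0, LGgood Kf n r e0 G ∧ ∀ G1, LGgood Kf n r e0 G1 → G.card ≤ G1.card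

lemma LG_inter {Kf : Finset ℕ → Finset ℕ} {n r : ℕ} {G W e : Finset ℕ}
    (hGr : G.card < e.card) (hW : W ⊆ Hs Kf n r G) (he : e ⊆ G ∪ W) :
    LGgood Kf n r e (e ∩ G) := by
  refine ⟨inter_subset_left, ?_, ?_⟩
  · intro h
    have h1 : (e ∩ G).card ≤ G.card := card_le_card inter_subset_right
    rw [h] at h1
    omega
  · intro v hv
    rw [mem_sdiff, mem_inter] at hv
    have h1 : v ∉ G := fun h => hv.2 ⟨hv.1, h⟩
    have h2 : v ∈ W := by
      rcases mem_union.mp (he hv.1) with h | h
      · exact absurd h h1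
      · exact h
    exact Hs_anti inter_subset_right (hW h2)

theorem tok_sub {Kf : Finset ℕ → Finset ℕ} {n r : ℕ} {G W : Finset ℕ} (hG : G ⊆ range n)
    (hGr : G.card < r) (hW : W ⊆ Hs Kf n r G) :
    powersetCard r (G ∪ W) ⊆ Tok Kf n r := by
  intro e he
  rw [mem_powersetCard] at he
  have hWn : W ⊆ range n := by
    intro v hv
    have := hW hv
    unfold Hs at this
    exact (mem_sdiff.mp (mem_filter.mp this).1).1
  obtain ⟨h1, h2, h3⟩ := LG_inter (by rw [he.2]; exact hGr) hW he.1
  unfold Tok
  rw [mem_filter, mem_powersetCard]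
  refine ⟨⟨he.1.trans (union_subset hG hWn), he.2⟩, e ∩ G, mem_powerset.mpr h1, h2, h3⟩

/-- (6c). -/
lemma LG_act {Kf : Finset ℕ → Finset ℕ} {n r : ℕ} {G G1 e : Finset ℕ}
    (hG : LGact Kf n r G) (hGe : G ⊆ e) (hG1 : LGgood Kf n r e G1) (hc : G1.card ≤ G.card) :
    G1 = G := by
  by_contra hne
  obtain ⟨e0, ⟨h0a, h0b, h0c⟩, hmin⟩ := hG
  have hnsub : ¬ G ⊆ G1 := by
    intro h
    exact hne (eq_of_subset_of_card_le h hc).symm
  have hgood : LGgood Kf n r e0 (G ∩ G1) := by
    refine ⟨inter_subset_left.trans h0a, ?_, ?_⟩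
    · intro h
      apply h0b
      apply subset_antisymm h0a
      rw [← h]
      exact inter_subset_left
    · intro v hv
      rw [mem_sdiff, mem_inter] at hv
      by_cases hvG : v ∈ G
      · have hv1 : v ∉ G1 := fun h => hv.2 ⟨hvG, h⟩
        exact Hs_anti inter_subset_right (hG1.2.2 (mem_sdiff.mpr ⟨hGe hvG, hv1⟩))
      · exact Hs_anti inter_subset_left (h0c (mem_sdiff.mpr ⟨hv.1, hvG⟩))
  have h1 := hmin _ hgood
  have h2 : (G ∩ G1).card < G.card := by
    apply card_lt_card
    refine ⟨inter_subset_left, fun h => hnsub (h.trans inter_subset_right)⟩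
  omega

theorem tok_gen {q r n : ℕ} (hr : 1 ≤ r) (hrq : r < q) {Kf : Finset ℕ → Finset ℕ}
    (fam : Finset ℕ → Finset (Finset ℕ))
    (hfam : ∀ G ⊆ range n, G.card < r →
      (∀ W ∈ fam G, W ⊆ Hs Kf n r G ∧ (q - G.card) + (r - G.card) ≤ W.card) ∧
      Gen (q - G.card) (r - G.card) (powersetCard (r - G.card) (Hs Kf n r G)) (fam G)) :
    ∀ L ∈ Dv q r (Tok Kf n r), ∃ f : Finset ℕ → Finset ℕ → Finset ℕ → ℤ,
      (∀ G ⊆ range n, G.card < r → ∀ W ∈ fam G, f G W ∈ Dv q r (powersetCard r (G ∪ W))) ∧
      L = ∑ G ∈ (range n).powerset.filter (fun G => G.card < r), ∑ W ∈ fam G, f G W := by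
  classical
  have hTok : ∀ e ∈ Tok Kf n r, e ⊆ range n ∧ e.card = r ∧ LGlt Kf n r r e := by
    intro e he
    unfold Tok at he
    rw [mem_filter, mem_powersetCard] at he
    obtain ⟨⟨h1, h2⟩, G, h3, h4, h5⟩ := he
    rw [mem_powerset] at h3
    refine ⟨h1, h2, G, ⟨h3, h4, h5⟩, ?_⟩
    rw [← h2]
    exact card_lt_card (h3.ssubset_of_ne h4)
  have key : ∀ a ≤ r, ∀ L ∈ Dv q r (Tok Kf n r), (∀ e, L e ≠ 0 → LGlt Kf n r a e) →
      ∃ f : Finset ℕ → Finset ℕ → Finset ℕ → ℤ,
      (∀ G ⊆ range n, G.card < r → ∀ W ∈ fam G, f G W ∈ Dv q r (powersetCard r (G ∪ W))) ∧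
      L = ∑ G ∈ (range n).powerset.filter (fun G => G.card < r), ∑ W ∈ fam G, f G W := by
    intro a
    induction a with
    | zero =>
      intro _ L _ hsupp
      refine ⟨fun _ _ => 0, fun G _ _ W _ => AddSubgroup.zero_mem _, ?_⟩
      have hL0 : L = 0 := by
        funext e
        by_contra h
        obtain ⟨G, -, hG⟩ := hsupp e h
        omega
      rw [hL0]
      simp
    | succ a ih =>
      intro ha L hL hsupp
      -- the pieces at the active contexts of size `a`
      have hpiece : ∀ G : Finset ℕ, G ⊆ range n → G.card = a → LGact Kf n r G →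
          ∃ f : Finset ℕ → Finset ℕ → ℤ,
            (∀ W ∈ fam G, f W ∈ Dv q r (powersetCard r (G ∪ W))) ∧
            ∀ e, G ⊆ e → (L - ∑ W ∈ fam G, f W) e = 0 := by
        intro G hGn hGa hact
        obtain ⟨hF, hgen⟩ := hfam G hGn (by omega)
        refine ctx (q := q) (r := r) (a := G.card) hrq.le (by omega) rfl ?_ hF hgen
          (X := Tok Kf n r) (fun e he => (hTok e he).2.1) hL ?_
        · rw [disjoint_left]
          intro v hv hv'
          unfold Hs at hv'
          exact (mem_sdiff.mp (mem_filter.mp hv').1).2 hv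
        · intro e hGe hLe
          obtain ⟨G1, hG1, hc⟩ := hsupp e hLe
          have := LG_act hact hGe hG1 (by omega)
          rw [← this]
          exact hG1.2.2
      let g : Finset ℕ → Finset ℕ → Finset ℕ → ℤ := fun G =>
        if h : G ⊆ range n ∧ G.card = a ∧ LGact Kf n r G then
          (hpiece G h.1 h.2.1 h.2.2).choose else 0
      have hg0 : ∀ G, ¬ (G ⊆ range n ∧ G.card = a ∧ LGact Kf n r G) → g G = 0 := by
        intro G h
        simp only [g]
        rw [dif_neg h]
      have hg1 : ∀ G, (G ⊆ range n ∧ G.card = a ∧ LGact Kf n r G) →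
          (∀ W ∈ fam G, g G W ∈ Dv q r (powersetCard r (G ∪ W))) ∧
            ∀ e, G ⊆ e → (L - ∑ W ∈ fam G, g G W) e = 0 := by
        intro G h
        simp only [g]
        rw [dif_pos h]
        exact (hpiece G h.1 h.2.1 h.2.2).choose_spec
      have hgmem : ∀ G, ∀ W ∈ fam G, g G W ∈ Dv q r (powersetCard r (G ∪ W)) := by
        intro G W hW
        by_cases h : G ⊆ range n ∧ G.card = a ∧ LGact Kf n r G
        · exact (hg1 G h).1 W hW
        · rw [hg0 G h]
          exact AddSubgroup.zero_mem _
      -- where the pieces live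
      have hgsupp : ∀ G, ∀ W ∈ fam G, ∀ e, g G W e ≠ 0 → G.card = a ∧ G ⊆ range n ∧
          LGact Kf n r G ∧ LGgood Kf n r e (e ∩ G) := by
        intro G W hW e hne
        have h : G ⊆ range n ∧ G.card = a ∧ LGact Kf n r G := by
          by_contra h
          apply hne
          rw [hg0 G h]
          rfl
        have hmem : e ∈ powersetCard r (G ∪ W) := by
          by_contra he
          exact hne ((hgmem G W hW).1 e he)
        rw [mem_powersetCard] at hmem
        obtain ⟨hF, -⟩ := hfam G h.1 (by omega)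
        refine ⟨h.2.1, h.1, h.2.2, LG_inter (by rw [hmem.2]; omega) (hF W hW).1 hmem.1⟩
      let S : Finset ℕ → ℤ :=
        ∑ G ∈ (range n).powerset.filter (fun G => G.card < r), ∑ W ∈ fam G, g G W
      have hSmem : S ∈ Dv q r (Tok Kf n r) := by
        refine AddSubgroup.sum_mem _ (fun G hG => AddSubgroup.sum_mem _ (fun W hW => ?_))
        rw [mem_filter, mem_powerset] at hG
        obtain ⟨hF, -⟩ := hfam G hG.1 hG.2
        exact Dv_mono (tok_sub hG.1 hG.2 (hF W hW).1) (hgmem G W hW)
      have hL' : L - S ∈ Dv q r (Tok Kf n r) := AddSubgroup.sub_mem _ hL hSmem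
      have hSe : ∀ e, S e = ∑ G ∈ (range n).powerset.filter (fun G => G.card < r),
          ∑ W ∈ fam G, g G W e := by
        intro e
        simp only [S, Finset.sum_apply]
      have hsupp' : ∀ e, (L - S) e ≠ 0 → LGlt Kf n r a e := by
        intro e hne
        by_contra hcon
        apply hne
        -- pieces from contexts not inside `e` vanish
        have hout : ∀ G, ∀ W ∈ fam G, ¬ G ⊆ e → g G W e = 0 := by
          intro G W hW hGe
          by_contra h
          obtain ⟨h1, -, -, h2⟩ := hgsupp G W hW e h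
          apply hcon
          refine ⟨e ∩ G, h2, ?_⟩
          rw [← h1]
          apply card_lt_card
          refine ⟨inter_subset_right, fun h3 => hGe (h3.trans inter_subset_left)⟩
        by_cases hlt : LGlt Kf n r (a + 1) e
        · obtain ⟨G, hG, hGc⟩ := hlt
          have hGa : G.card = a := by
            by_contra h
            exact hcon ⟨G, hG, by omega⟩
          have hact : LGact Kf n r G := by
            refine ⟨e, hG, fun G1 hG1 => ?_⟩
            by_contra h
            exact hcon ⟨G1, hG1, by omega⟩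
          -- `e` is a token (or the value is zero anyway)
          by_cases heT : e ∈ Tok Kf n r
          · have hGn : G ⊆ range n := hG.1.trans (hTok e heT).1
            have h1 := (hg1 G ⟨hGn, hGa, hact⟩).2 e hG.1
            have h2 : S e = ∑ W ∈ fam G, g G W e := by
              rw [hSe e]
              apply sum_eq_single_of_mem G
              · rw [mem_filter, mem_powerset]
                exact ⟨hGn, by omega⟩
              · intro G' _ hne'
                apply sum_eq_zero
                intro W hW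
                by_contra h3
                obtain ⟨h4, -, h5, -⟩ := hgsupp G' W hW e h3
                have h6 : G' ⊆ e := by
                  by_contra h7
                  exact h3 (hout G' W hW h7)
                have h8 := LG_act h5 h6 hG (by omega)
                exact hne' h8.symm
            rw [Pi.sub_apply, h2]
            rw [Pi.sub_apply, Finset.sum_apply] at h1
            exact h1
          · exact hL'.1 e heT
        · have h1 : L e = 0 := by
            by_contra h
            exact hlt (hsupp e h)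
          have h2 : S e = 0 := by
            rw [hSe e]
            apply sum_eq_zero
            intro G _
            apply sum_eq_zero
            intro W hW
            by_contra h
            obtain ⟨h3, -, -, h4⟩ := hgsupp G W hW e h
            apply hlt
            refine ⟨e ∩ G, h4, ?_⟩
            have : (e ∩ G).card ≤ G.card := card_le_card inter_subset_right
            omega
          rw [Pi.sub_apply, h1, h2]
          rfl
      obtain ⟨f, hf1, hf2⟩ := ih (by omega) (L - S) hL' hsupp'
      refine ⟨fun G W => g G W + f G W, ?_, ?_⟩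
      · intro G hGn hGr W hW
        exact AddSubgroup.add_mem _ (hgmem G W hW) (hf1 G hGn hGr W hW)
      · simp only [sum_add_distrib]
        rw [← hf2]
        simp only [S]
        abel
  intro L hL
  refine key r le_rfl L hL ?_
  intro e he
  have heT : e ∈ Tok Kf n r := by
    by_contra h
    exact he (hL.1 e h)
  exact (hTok e heT).2.2

end Pool.Agent.Kv
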