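import Pool.Agent.Designs.LocFam
import Pool.Agent.Designs.Hub
import Pool.Agent.Designs.LG
import Pool.Agent.Designs.Asym

set_option autoImplicit false

/-!
Locations: assembly.
-/

namespace Pool.Agent.Kv

open Finset

lemma Loc_enum {α : Type*} [Inhabited α] (s : Finset α) :
    ∃ g : ℕ → α, (∀ j < s.card, g j ∈ s) ∧
      ∀ {β : Type} [AddCommMonoid β] (F : α → β), ∑ j ∈ range s.card, F (g j) = ∑ p ∈ s, F p := by
  classical
  let e := s.equivFin
  refine ⟨fun j => if h : j < s.card then (e.symm ⟨j, h⟩).1 else default, ?_, ?_⟩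
  · intro j hj
    simp only [hj, dif_pos]
    exact (e.symm ⟨j, hj⟩).2
  · intro β _ F
    rw [Finset.sum_range]
    have h1 : ∀ i : Fin s.card, F (if h : (i : ℕ) < s.card then (e.symm ⟨i, h⟩).1 else default) =
        F ((e.symm i).1) := by
      intro i
      simp only [i.2, dif_pos]
    simp only [h1]
    rw [Equiv.sum_comp e.symm (fun x : s => F x.1)]
    exact sum_coe_sort s F

theorem loc {q r : ℕ} (hr : 1 ≤ r) (hrq : r < q) :
    ∃ C1 n0 : ℕ, ∀ n ≥ n0, ∃ (T : Finset (Finset ℕ)) (k : ℕ) (U : ℕ → Finset ℕ)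
      (H : Finset ℕ → Finset ℕ), IsLoc q r n C1 T k U ∧
      (∀ S : Finset ℕ, S.card + 1 = r →
        ((range k).filter (fun j => S ⊆ U j)).card * Lam n ≤ n) ∧
      (∀ S : Finset ℕ, S.card + 1 = r → (T.filter (fun e => S ⊆ e)).card * Lam n ≤ n) ∧
      ∀ e ∈ powersetCard r (range n), H e ⊆ range n \ e ∧ n ≤ Lam n ^ C1 * (H e).card ∧
        ∀ e' S' : Finset ℕ, e' ⊂ e → S' ⊆ H e → e'.card + S'.card = r → e' ∪ S' ∈ T := by
  classical
  obtain ⟨C, hfam⟩ := loc_fam hr hrq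
  obtain ⟨Ch, hhub⟩ := hub hr
  set C' := C + 2 with hC'
  obtain ⟨n1, hfam⟩ := hfam C' (by omega)
  obtain ⟨n2, hn2⟩ := Lam_pow_le (C' * (r * 2 ^ r) + 1) Ch
  obtain ⟨n3, hn3⟩ := Lam_large (2 ^ r * 3)
  refine ⟨C' * 2 ^ r + 2 + C + r, n1 + n2 + n3 + 1, fun n hn => ?_⟩
  have hLam := Lam_pos n
  set M := Lam n ^ C' with hM
  have hM1 : 1 ≤ M := Nat.one_le_pow _ _ (by omega)
  obtain ⟨Kf, hKf⟩ := hhub n M hM1 (by
    have h1 := hn2 n (by omega)
    calc Ch * M ^ (r * 2 ^ r) * Lam n = Ch * Lam n ^ (C' * (r * 2 ^ r) + 1) := by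
          rw [hM, ← pow_mul, pow_succ]; ring
      _ ≤ n := h1)
  obtain ⟨fam, hfam1, hfam2⟩ := hfam n (by omega) Kf hKf
  have hgen := tok_gen (n := n) hr hrq (Kf := Kf) fam
    (fun G hG hGr => ⟨fun W hW => ⟨((hfam1 G hG hGr).1 W hW).1, ((hfam1 G hG hGr).1 W hW).2.1⟩,
      (hfam1 G hG hGr).2⟩)
  set Ct := (range n).powerset.filter (fun G => G.card < r) with hCt
  set Ix : Finset (Σ _ : Finset ℕ, Finset ℕ) := Ct.sigma fam with hIx
  obtain ⟨g, hg1, hg2⟩ := Loc_enum Ix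
  have hmem : ∀ p ∈ Ix, p.1 ⊆ range n ∧ p.1.card < r ∧ p.2 ∈ fam p.1 := by
    intro p hp
    rw [hIx, mem_sigma, hCt, mem_filter, mem_powerset] at hp
    exact ⟨hp.1.1, hp.1.2, hp.2⟩
  have hHs : ∀ G, Hs Kf n r G ⊆ range n \ G := fun G => filter_subset _ _
  refine ⟨Tok Kf n r, Ix.card, fun j => (g j).1 ∪ (g j).2, fun e => Hs Kf n r e,
    ⟨filter_subset _ _, ?_, ?_⟩, ?_, ?_, ?_⟩
  · intro j hj
    obtain ⟨h1, h2, h3⟩ := hmem _ (hg1 j hj)
    obtain ⟨h4, h5, h6⟩ := (hfam1 _ h1 h2).1 _ h3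
    have h7 : (g j).2 ⊆ range n := (h4.trans (hHs _)).trans sdiff_subset
    have h8 : Disjoint (g j).1 (g j).2 := by
      exact (disjoint_sdiff).mono_right (h4.trans (hHs _))
    refine ⟨union_subset h1 h7, ?_, ?_, tok_sub h1 h2 h4⟩
    · simp only
      rw [card_union_of_disjoint h8]; omega
    · simp only
      rw [card_union_of_disjoint h8]
      have : 0 ≤ C' * 2 ^ r := Nat.zero_le _
      omega
  · intro L hL
    obtain ⟨f, hf1, hf2⟩ := hgen L hL
    refine ⟨fun j => f (g j).1 (g j).2, ?_, ?_⟩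
    · intro j hj
      obtain ⟨h1, h2, h3⟩ := hmem _ (hg1 j hj)
      exact hf1 _ h1 h2 _ h3
    · rw [hg2 (fun p : (Σ _ : Finset ℕ, Finset ℕ) => f p.1 p.2), hIx, sum_sigma]
      exact hf2
  · intro S hS
    have h1 := hfam2 S hS
    have h2 : ((range Ix.card).filter (fun j => S ⊆ (g j).1 ∪ (g j).2)).card =
        ∑ G ∈ Ct, ((fam G).filter (fun W => S ⊆ G ∪ W)).card := by
      rw [card_filter, hg2 (fun p : (Σ _ : Finset ℕ, Finset ℕ) => if S ⊆ p.1 ∪ p.2 then 1 else 0),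
        hIx, sum_sigma]
      apply sum_congr rfl
      intro G _
      rw [card_filter]
    rw [h2]
    exact h1
  · intro S hS
    have h1 := tok_deg hr hM1 hKf hS
    have h2 : 2 ^ r * 3 * Lam n ≤ M := by
      have h3 := hn3 n (by omega)
      calc 2 ^ r * 3 * Lam n ≤ Lam n * Lam n := Nat.mul_le_mul_right _ h3
        _ = Lam n ^ 2 := by ring
        _ ≤ Lam n ^ C' := Nat.pow_le_pow_right (by omega) (by omega)
    have h3 : 0 < 2 ^ r * 3 := by positivity
    apply Nat.le_of_mul_le_mul_left _ h3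
    calc 2 ^ r * 3 * (((Tok Kf n r).filter (fun e => S ⊆ e)).card * Lam n)
        = ((Tok Kf n r).filter (fun e => S ⊆ e)).card * (2 ^ r * 3 * Lam n) := by ring
      _ ≤ ((Tok Kf n r).filter (fun e => S ⊆ e)).card * M := Nat.mul_le_mul_left _ h2
      _ ≤ 2 ^ r * (3 * n) := h1
      _ = 2 ^ r * 3 * n := by ring
  · intro e he
    have he' := mem_powersetCard.mp he
    refine ⟨hHs e, ?_, ?_⟩
    · have h1 := (hKf.1 e he'.1 (by omega)).1
      rw [he'.2] at h1
      have h2 : sG r r = 2 ^ r - 1 := by unfold sG; rw [if_neg (lt_irrefl _)]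
      rw [h2] at h1
      have h3 : M ^ (2 ^ r - 1) ≤ Lam n ^ (C' * 2 ^ r) := by
        rw [hM, ← pow_mul]
        exact Nat.pow_le_pow_right (by omega) (Nat.mul_le_mul_left _ (Nat.sub_le _ _))
      have h4 : 3 ≤ Lam n ^ 2 := by nlinarith
      calc n ≤ 3 * (Hs Kf n r e).card * M ^ (2 ^ r - 1) := h1
        _ ≤ Lam n ^ 2 * (Hs Kf n r e).card * Lam n ^ (C' * 2 ^ r) := by gcongr
        _ = Lam n ^ (C' * 2 ^ r + 2) * (Hs Kf n r e).card := by ring
        _ ≤ Lam n ^ (C' * 2 ^ r + 2 + C + r) * (Hs Kf n r e).card := by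
            apply Nat.mul_le_mul_right
            exact Nat.pow_le_pow_right (by omega) (by omega)
    · intro e' S' h1 h2 h3
      have h4 : e'.card < r := by
        have := card_lt_card h1
        omega
      have h5 : e' ⊆ range n := h1.1.trans he'.1
      have h6 : S' ⊆ Hs Kf n r e' := h2.trans (Hs_anti h1.1)
      apply tok_sub h5 h4 h6
      rw [mem_powersetCard]
      refine ⟨le_refl _, ?_⟩
      rw [card_union_of_disjoint, h3]
      exact (disjoint_sdiff).mono_right (h6.trans (hHs _))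

end Pool.Agent.Kv
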