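import Pool.Agent.Designs.SF
import Pool.Agent.Designs.Hub
import Pool.Agent.Designs.LG
import Pool.Agent.Designs.Asym

set_option autoImplicit false

/-!
# Module LocFam: generating families on all hubs with small codegrees
(section 7 of the paper proof)
-/

namespace Pool.Agent.Kv

open Finset

/-- there are few small subsets of `range n`. -/
lemma locfam_card_small (n r : ℕ) :
    ((range n).powerset.filter (fun g => g.card ≤ r)).card ≤ (r + 1) * (n + 1) ^ r := by
  have h : (range n).powerset.filter (fun g => g.card ≤ r) ⊆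
      (range (r + 1)).biUnion (fun j => powersetCard j (range n)) := by
    intro g hg
    rw [mem_filter, mem_powerset] at hg
    exact mem_biUnion.mpr ⟨g.card, mem_range.mpr (by omega), mem_powersetCard.mpr ⟨hg.1, rfl⟩⟩
  calc _ ≤ _ := card_le_card h
    _ ≤ ∑ j ∈ range (r + 1), (powersetCard j (range n)).card := card_biUnion_le
    _ ≤ ∑ j ∈ range (r + 1), (n + 1) ^ r := by
        apply sum_le_sum
        intro j hj
        rw [card_powersetCard, card_range]
        calc n.choose j ≤ n ^ j := Nat.choose_le_pow n j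
          _ ≤ (n + 1) ^ j := Nat.pow_le_pow_left (by omega) j
          _ ≤ (n + 1) ^ r := Nat.pow_le_pow_right (by omega) (by have := mem_range.mp hj; omega)
    _ = (r + 1) * (n + 1) ^ r := by simp

lemma locfam_pre {m : ℕ} {H W g : Finset ℕ} {π : ℕ → ℕ}
    (hπ : Set.BijOn π ((range m : Finset ℕ) : Set ℕ) (H : Set ℕ))
    (hW : W ⊆ range m) (hg : g ⊆ H) :
    ((range m).filter (fun x => π x ∈ g)).card = g.card ∧
    (g ⊆ W.image π ↔ (range m).filter (fun x => π x ∈ g) ⊆ W) := by
  have himg : ((range m).filter (fun x => π x ∈ g)).image π = g := by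
    ext y
    simp only [mem_image, mem_filter]
    constructor
    · rintro ⟨x, ⟨_, hx⟩, rfl⟩; exact hx
    · intro hy
      obtain ⟨x, hx, rfl⟩ := hπ.surjOn (mem_coe.mpr (hg hy))
      exact ⟨x, ⟨mem_coe.mp hx, hy⟩, rfl⟩
  refine ⟨?_, ?_, ?_⟩
  · conv_rhs => rw [← himg]
    rw [card_image_of_injOn]
    exact hπ.injOn.mono (by intro x hx; exact mem_coe.mpr (mem_filter.mp (mem_coe.mp hx)).1)
  · intro h x hx
    rw [mem_filter] at hx
    obtain ⟨y, hy, hyx⟩ := mem_image.mp (h hx.2)
    have : y = x := hπ.injOn (mem_coe.mpr (hW hy)) (mem_coe.mpr hx.1) hyx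
    rwa [← this]
  · intro h
    calc g = ((range m).filter (fun x => π x ∈ g)).image π := himg.symm
      _ ⊆ W.image π := image_subset_image h

lemma locfam_fam {m C i L : ℕ} (hm : 1 ≤ m) {F : Finset (Finset ℕ)}
    (hF : ∀ W ∈ F, W ⊆ range m ∧ W.card ≤ C)
    (hc : ∀ R : Finset ℕ, (F.filter (fun W => R ⊆ W)).card ≤ L * m ^ (i - R.card))
    {H : Finset ℕ} {Ω : Finset (ℕ → ℕ)}
    (hΩ : ∀ π ∈ Ω, Set.BijOn π ((range m : Finset ℕ) : Set ℕ) (H : Set ℕ))
    (hΩ2 : ∀ W ⊆ range m, ∀ R ⊆ H, (Ω.filter (fun π => R ⊆ W.image π)).card *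
      (range m).card ^ R.card ≤ W.card ^ R.card * Ω.card)
    {g : Finset ℕ} (hg : g ⊆ H) (hig : i ≤ g.card) :
    (∀ π ∈ Ω, (F.filter (fun W => g ⊆ W.image π)).card ≤ L) ∧
    (∑ π ∈ Ω, (F.filter (fun W => g ⊆ W.image π)).card) * m ^ (g.card - i) ≤
      L * C ^ g.card * Ω.card := by
  constructor
  · intro π hπ
    have h1 : F.filter (fun W => g ⊆ W.image π) =
        F.filter (fun W => (range m).filter (fun x => π x ∈ g) ⊆ W) := by
      apply filter_congr
      intro W hW
      exact (locfam_pre (hΩ π hπ) (hF W hW).1 hg).2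
    rw [h1]
    have h2 := hc ((range m).filter (fun x => π x ∈ g))
    rw [(locfam_pre (hΩ π hπ) (empty_subset _) hg).1] at h2
    have h3 : i - g.card = 0 := by omega
    rw [h3, pow_zero, mul_one] at h2
    exact h2
  · have h1 : ∑ π ∈ Ω, (F.filter (fun W => g ⊆ W.image π)).card =
        ∑ W ∈ F, (Ω.filter (fun π => g ⊆ W.image π)).card := by
      simp only [card_filter]
      rw [sum_comm]
    have hFc : F.card ≤ L * m ^ i := by
      have := hc ∅
      simpa using this
    have h2 : (∑ W ∈ F, (Ω.filter (fun π => g ⊆ W.image π)).card) * m ^ g.card ≤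
        (L * m ^ i) * (C ^ g.card * Ω.card) := by
      rw [sum_mul]
      calc ∑ W ∈ F, (Ω.filter (fun π => g ⊆ W.image π)).card * m ^ g.card
          ≤ ∑ W ∈ F, C ^ g.card * Ω.card := by
            apply sum_le_sum
            intro W hW
            have h := hΩ2 W (hF W hW).1 g hg
            rw [card_range] at h
            exact h.trans (Nat.mul_le_mul_right _ (Nat.pow_le_pow_left (hF W hW).2 _))
        _ = F.card * (C ^ g.card * Ω.card) := by rw [sum_const, smul_eq_mul]
        _ ≤ _ := Nat.mul_le_mul_right _ hFc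
    rw [h1]
    have h3 : m ^ g.card = m ^ (g.card - i) * m ^ i := by
      rw [← pow_add]; congr 1; omega
    rw [h3] at h2
    have h4 : 0 < m ^ i := Nat.pow_pos hm
    apply Nat.le_of_mul_le_mul_right _ h4
    calc _ = (∑ W ∈ F, (Ω.filter (fun π => g ⊆ W.image π)).card) * (m ^ (g.card - i) * m ^ i) := by
          ring
      _ ≤ _ := h2
      _ = L * C ^ g.card * Ω.card * m ^ i := by ring

/-- exponent inequality. -/
lemma locfam_exp {r a b : ℕ} (hb : b < a) (ha : a < r) :
    2 ^ a * (a - b - 1) + 1 ≤ (r - 1 - b) * (2 ^ a - 2 ^ b) := by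
  obtain ⟨β, rfl⟩ : ∃ β, a = b + β + 1 := ⟨a - b - 1, by omega⟩
  have h1 : b + β + 1 - b - 1 = β := by omega
  rw [h1]
  have h2 : β + 1 ≤ r - 1 - b := by omega
  have h3 : 2 ^ b ≤ 2 ^ (b + β + 1) := Nat.pow_le_pow_right (by norm_num) (by omega)
  have h4 : β + 1 < 2 ^ (β + 1) := Nat.lt_two_pow_self
  have h5 : (β + 1) * 2 ^ b + 1 ≤ 2 ^ (b + β + 1) := by
    have : (2 : ℕ) ^ (b + β + 1) = 2 ^ (β + 1) * 2 ^ b := by rw [← pow_add]; congr 1; omega
    rw [this]
    have hb0 : 1 ≤ 2 ^ b := Nat.one_le_two_pow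
    nlinarith
  calc 2 ^ (b + β + 1) * β + 1 ≤ (β + 1) * (2 ^ (b + β + 1) - 2 ^ b) := by
        rw [Nat.mul_sub]
        have : (β + 1) * 2 ^ (b + β + 1) = 2 ^ (b + β + 1) * β + 2 ^ (b + β + 1) := by ring
        omega
    _ ≤ _ := Nat.mul_le_mul_right _ h2

/-- the arithmetic of (7b). -/
lemma locfam_arith {r a b n M N : ℕ} {C : ℝ} (hC : 1 ≤ C) (hb : b < a) (ha : a < r) (hn : 1 ≤ n)
    (hM : 1 ≤ M) (hN : N * M ^ ((r - 1 - b) * (2 ^ a - 2 ^ b)) ≤ (3 * n) ^ (a - b)) :
    (N : ℝ) * (C ^ (r - 1 - b) * (3 * (M : ℝ) ^ (2 ^ a) / n) ^ (a - b - 1)) ≤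
      (9 * C) ^ r * n / M := by
  have he := locfam_exp hb ha
  obtain ⟨β, rfl⟩ : ∃ β, a = b + β + 1 := ⟨a - b - 1, by omega⟩
  have h1 : b + β + 1 - b - 1 = β := by omega
  have h1' : b + β + 1 - b = β + 1 := by omega
  rw [h1] at he ⊢
  rw [h1'] at hN
  set e := (r - 1 - b) * (2 ^ (b + β + 1) - 2 ^ b) with hedef
  have hn0 : (0 : ℝ) < n := by exact_mod_cast hn
  have hM0 : (1 : ℝ) ≤ M := by exact_mod_cast hM
  have hM00 : (0 : ℝ) < M := by linarith
  have hNr : (N : ℝ) * (M : ℝ) ^ e ≤ (3 * (n : ℝ)) ^ (β + 1) := by exact_mod_cast hN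
  have hNr2 : (N : ℝ) ≤ (3 * (n : ℝ)) ^ (β + 1) / (M : ℝ) ^ e := by
    rw [le_div_iff₀ (by positivity)]; exact hNr
  have hMe : (M : ℝ) ^ (2 ^ (b + β + 1) * β + 1) ≤ (M : ℝ) ^ e := pow_le_pow_right₀ hM0 he
  calc (N : ℝ) * (C ^ (r - 1 - b) * (3 * (M : ℝ) ^ (2 ^ (b + β + 1)) / n) ^ β)
      ≤ (3 * (n : ℝ)) ^ (β + 1) / (M : ℝ) ^ e *
        (C ^ (r - 1 - b) * (3 * (M : ℝ) ^ (2 ^ (b + β + 1)) / n) ^ β) := by gcongr
    _ = C ^ (r - 1 - b) * (3 * 9 ^ β) * n * ((M : ℝ) ^ (2 ^ (b + β + 1) * β) / (M : ℝ) ^ e) := by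
        rw [div_pow, mul_pow, mul_pow, pow_succ (n : ℝ), pow_succ (3 : ℝ),
          ← pow_mul (M : ℝ) (2 ^ (b + β + 1)) β]
        have : (9 : ℝ) ^ β = 3 ^ β * 3 ^ β := by rw [← mul_pow]; norm_num
        rw [this]
        field_simp
    _ ≤ C ^ (r - 1 - b) * (3 * 9 ^ β) * n * (1 / M) := by
        have : (M : ℝ) ^ (2 ^ (b + β + 1) * β) / (M : ℝ) ^ e ≤ 1 / M := by
          rw [div_le_div_iff₀ (by positivity) hM00, one_mul, ← pow_succ]
          exact hMe
        exact mul_le_mul_of_nonneg_left this (by positivity)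
    _ ≤ C ^ r * 9 ^ r * n * (1 / M) := by
        gcongr
        · omega
        · calc (3 : ℝ) * 9 ^ β ≤ 9 * 9 ^ β := by gcongr; norm_num
            _ = 9 ^ (β + 1) := by ring
            _ ≤ 9 ^ r := pow_le_pow_right₀ (by norm_num) (by omega)
    _ = (9 * C) ^ r * n / M := by rw [mul_pow]; ring

/-- the final growth estimate. -/
lemma locfam_final {C0 : ℕ} (A K : ℕ) : ∀ C' : ℕ, C0 + 3 ≤ C' → ∃ n0 : ℕ, ∀ n ≥ n0,
    (A : ℝ) * ((Lam n : ℝ) ^ C0 * (K * (n / (Lam n : ℝ) ^ C' ) + K * Lam n)) * Lam n ≤ n := by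
  intro C' hC'
  obtain ⟨n1, h1⟩ := Lam_large (2 * A * K)
  obtain ⟨n2, h2⟩ := Lam_pow_le (C0 + 2) (2 * A * K)
  refine ⟨n1 + n2, fun n hn => ?_⟩
  have hL1 : (1 : ℝ) ≤ (Lam n : ℝ) := one_le_Lam n
  have hL0 : (0 : ℝ) < (Lam n : ℝ) := by linarith
  have h3 : ((2 * A * K : ℕ) : ℝ) ≤ (Lam n : ℝ) := by exact_mod_cast h1 n (by omega)
  have h4 : ((2 * A * K : ℕ) : ℝ) * (Lam n : ℝ) ^ (C0 + 2) ≤ n := by
    exact_mod_cast h2 n (by omega)
  push_cast at h3 h4
  have h5 : (Lam n : ℝ) ^ C0 * (n / (Lam n : ℝ) ^ C') * Lam n ≤ n / Lam n := by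
    have : (Lam n : ℝ) ^ (C0 + 2) ≤ (Lam n : ℝ) ^ C' := pow_le_pow_right₀ hL1 (by omega)
    rw [le_div_iff₀ hL0]
    calc (Lam n : ℝ) ^ C0 * (n / (Lam n : ℝ) ^ C') * Lam n * Lam n
        = n * ((Lam n : ℝ) ^ (C0 + 2) / (Lam n : ℝ) ^ C') := by ring
      _ ≤ n * 1 := by
          apply mul_le_mul_of_nonneg_left _ (by positivity)
          rw [div_le_one (by positivity)]
          exact this
      _ = n := mul_one _
  have h6 : (A : ℝ) * K * (n / Lam n) ≤ n / 2 := by
    rw [← mul_div_assoc, div_le_iff₀ hL0]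
    have : (0 : ℝ) ≤ n := by positivity
    nlinarith
  calc (A : ℝ) * ((Lam n : ℝ) ^ C0 * (K * (n / (Lam n : ℝ) ^ C') + K * Lam n)) * Lam n
      = A * K * ((Lam n : ℝ) ^ C0 * (n / (Lam n : ℝ) ^ C') * Lam n) +
        A * K * (Lam n : ℝ) ^ (C0 + 2) := by ring
    _ ≤ A * K * (n / Lam n) + A * K * (Lam n : ℝ) ^ (C0 + 2) := by gcongr
    _ ≤ n / 2 + n / 2 := by
        apply add_le_add h6
        linarith
    _ = n := by ring

/-- number of statistics. -/
lemma locfam_log {n r c : ℕ} (hc : c ≤ ((r + 1) * (n + 1) ^ r) * (((r + 1) * (n + 1) ^ r) * r)) :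
    Real.log (c : ℝ) ≤ 5 * r * (Lam n : ℝ) := by
  have hL : (1 : ℝ) ≤ (Lam n : ℝ) := one_le_Lam n
  have hr0 : (0 : ℝ) ≤ r := by positivity
  rcases Nat.eq_zero_or_pos c with h0 | h0
  · rw [h0]; simp; positivity
  · have h1 : (c : ℝ) ≤ ((r : ℝ) + 1) ^ 3 * ((n : ℝ) + 1) ^ (2 * r) := by
      calc (c : ℝ) ≤ ((((r + 1) * (n + 1) ^ r) * (((r + 1) * (n + 1) ^ r) * r) : ℕ) : ℝ) := by
            exact_mod_cast hc
        _ = ((r : ℝ) + 1) ^ 2 * r * ((n : ℝ) + 1) ^ (2 * r) := by push_cast; ring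
        _ ≤ ((r : ℝ) + 1) ^ 2 * (r + 1) * ((n : ℝ) + 1) ^ (2 * r) := by gcongr; linarith
        _ = _ := by ring
    have h2 : Real.log (c : ℝ) ≤ 3 * Real.log ((r : ℝ) + 1) + 2 * r * Real.log ((n : ℝ) + 1) := by
      calc Real.log (c : ℝ) ≤ Real.log (((r : ℝ) + 1) ^ 3 * ((n : ℝ) + 1) ^ (2 * r)) :=
            Real.log_le_log (by exact_mod_cast h0) h1
        _ = _ := by
            rw [Real.log_mul (by positivity) (by positivity), Real.log_pow, Real.log_pow]
            push_cast; ring
    have h3 : Real.log ((r : ℝ) + 1) ≤ r := by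
      have := Real.log_le_sub_one_of_pos (show (0 : ℝ) < (r : ℝ) + 1 by positivity)
      linarith
    have h4 := log_le_Lam n
    calc Real.log (c : ℝ) ≤ 3 * r + 2 * r * (Lam n : ℝ) := by
          refine h2.trans (add_le_add (by linarith) (mul_le_mul_of_nonneg_left h4 (by positivity)))
      _ ≤ 3 * r * (Lam n : ℝ) + 2 * r * (Lam n : ℝ) := by
          have : 3 * (r : ℝ) ≤ 3 * r * (Lam n : ℝ) := by nlinarith
          linarith
      _ = _ := by ring

/-- generating families on all hubs with small codegrees. -/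
theorem loc_fam {q r : ℕ} (hr : 1 ≤ r) (hrq : r < q) :
    ∃ C : ℕ, ∀ C' : ℕ, C ≤ C' → ∃ n0 : ℕ, ∀ n ≥ n0, ∀ Kf : Finset ℕ → Finset ℕ,
      HubProp r n (Lam n ^ C') Kf → ∃ fam : Finset ℕ → Finset (Finset ℕ),
      (∀ G ⊆ range n, G.card < r →
        (∀ W ∈ fam G, W ⊆ Hs Kf n r G ∧ (q - G.card) + (r - G.card) ≤ W.card ∧ W.card ≤ C) ∧
        Gen (q - G.card) (r - G.card) (powersetCard (r - G.card) (Hs Kf n r G)) (fam G)) ∧
      ∀ S : Finset ℕ, S.card + 1 = r →
        (∑ G ∈ (range n).powerset.filter (fun G => G.card < r),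
          ((fam G).filter (fun W => S ⊆ G ∪ W)).card) * Lam n ≤ n := by
  classical
  obtain ⟨C0, hSF⟩ := SF (d := q - r) (r := r) (c0 := (q - r) + 2 * r) le_rfl (by omega)
  refine ⟨C0 + 3, fun C' hC' => ?_⟩
  obtain ⟨K, hK⟩ : ∃ K : ℕ, K = 3 + 4 * (9 * (C0 + 1)) ^ r + 5 * r := ⟨_, rfl⟩
  obtain ⟨n1, hn1⟩ := locfam_final (C0 := C0) (2 ^ r * r) K C' hC'
  obtain ⟨n2, hn2⟩ := Lam_pow_le (C' * 2 ^ r) (3 * ((q - r) + 2 * r))
  refine ⟨n1 + n2 + 1, fun n hn Kf hKf => ?_⟩
  have hn1' := hn1 n (by omega)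
  have hn2' := hn2 n (by omega)
  have hnpos : 1 ≤ n := by omega
  have hLam : 1 ≤ Lam n := by have := Lam_pos n; omega
  have hM : 1 ≤ Lam n ^ C' := Nat.one_le_pow _ _ hLam
  -- sizes of hubs
  have hsG : ∀ a < r, sG r a = 2 ^ a := fun a ha => by unfold sG; rw [if_pos ha]
  have hm1 : ∀ G ⊆ range n, G.card < r → (q - r) + 2 * r ≤ (Hs Kf n r G).card := by
    intro G hG hGr
    by_contra hlt
    push Not at hlt
    have h1 := (hKf.1 G hG hGr.le).1
    rw [hsG _ hGr] at h1
    have h2 : (Lam n ^ C') ^ (2 ^ G.card) ≤ Lam n ^ (C' * 2 ^ r) := by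
      rw [← pow_mul]
      exact Nat.pow_le_pow_right hLam (Nat.mul_le_mul_left _ (Nat.pow_le_pow_right (by norm_num) hGr.le))
    have h3 : 1 ≤ Lam n ^ (C' * 2 ^ r) := Nat.one_le_pow _ _ hLam
    have h4 : 3 * (Hs Kf n r G).card * (Lam n ^ C') ^ (2 ^ G.card) ≤
        3 * (Hs Kf n r G).card * Lam n ^ (C' * 2 ^ r) := Nat.mul_le_mul_left _ h2
    have h5 : 3 * ((Hs Kf n r G).card + 1) * Lam n ^ (C' * 2 ^ r) ≤
        3 * ((q - r) + 2 * r) * Lam n ^ (C' * 2 ^ r) := by
      apply Nat.mul_le_mul_right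
      omega
    nlinarith
  have hm2 : ∀ G : Finset ℕ, (Hs Kf n r G).card ≤ n := by
    intro G
    calc (Hs Kf n r G).card ≤ (range n).card :=
          card_le_card ((filter_subset _ _).trans sdiff_subset)
      _ = n := card_range n
  -- families
  have hex : ∀ G : Finset ℕ, ∃ F : Finset (Finset ℕ), G ⊆ range n → G.card < r →
      (∀ W ∈ F, W ⊆ range (Hs Kf n r G).card ∧ (q - r) + 2 * r ≤ W.card ∧ W.card ≤ C0) ∧
      Gen ((q - r) + (r - G.card)) (r - G.card)
        (powersetCard (r - G.card) (range (Hs Kf n r G).card)) F ∧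
      ∀ R : Finset ℕ, (F.filter (fun W => R ⊆ W)).card ≤
        Lam n ^ C0 * (Hs Kf n r G).card ^ (r - G.card - R.card) := by
    intro G
    by_cases h : G ⊆ range n ∧ G.card < r
    · obtain ⟨F, hF⟩ := hSF (r - G.card) (by omega) n (Hs Kf n r G).card (hm1 G h.1 h.2) (hm2 G)
      exact ⟨F, fun _ _ => hF⟩
    · exact ⟨∅, fun h1 h2 => absurd ⟨h1, h2⟩ h⟩
  choose F hF using hex
  have hper : ∀ G : Finset ℕ, ∃ Ω : Finset (ℕ → ℕ), Ω.Nonempty ∧
      (∀ π ∈ Ω, Set.BijOn π ((range (Hs Kf n r G).card : Finset ℕ) : Set ℕ)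
        (Hs Kf n r G : Set ℕ)) ∧
      ∀ W ⊆ range (Hs Kf n r G).card, ∀ R ⊆ Hs Kf n r G,
        (Ω.filter (fun π => R ⊆ W.image π)).card * (range (Hs Kf n r G).card).card ^ R.card ≤
        W.card ^ R.card * Ω.card :=
    fun G => exists_perms (card_range _)
  choose Ω hΩ1 hΩ2 hΩ3 using hper
  set Tk := (range n).powerset.filter (fun G => G.card < r) with hTk
  set Pw := (range n).powerset.filter (fun g => g.card ≤ r) with hPw
  set Rs := (Pw ×ˢ Pw ×ˢ range r).filter (fun R => R.1.card < R.2.2 ∧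
    R.1.card + R.2.1.card + 1 = r ∧ Disjoint R.1 R.2.1) with hRs
  have hTk' : ∀ G ∈ Tk, G ⊆ range n ∧ G.card < r := by
    intro G hG
    rw [hTk, mem_filter, mem_powerset] at hG
    exact hG
  have hRs' : ∀ R ∈ Rs, R.1 ⊆ range n ∧ R.2.1 ⊆ range n ∧ R.2.2 < r ∧ R.1.card < R.2.2 ∧
      R.1.card + R.2.1.card + 1 = r ∧ Disjoint R.1 R.2.1 := by
    intro R hR
    rw [hRs, mem_filter, mem_product, mem_product, hPw, mem_filter, mem_filter, mem_powerset,
      mem_powerset, mem_range] at hR
    exact ⟨hR.1.1.1, hR.1.2.1.1, hR.1.2.2, hR.2⟩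
  set x : Finset ℕ × Finset ℕ × ℕ → Finset ℕ → (ℕ → ℕ) → ℝ := fun R G π =>
    if G.card = R.2.2 ∧ R.1 ⊆ G ∧ R.2.1 ⊆ Hs Kf n r G then
      (((F G).filter (fun W => R.2.1 ⊆ W.image π)).card : ℝ) / (Lam n : ℝ) ^ C0 else 0 with hx
  have hLr : (1 : ℝ) ≤ (Lam n : ℝ) := one_le_Lam n
  have hLC : (0 : ℝ) < (Lam n : ℝ) ^ C0 := by positivity
  have hx0 : ∀ R G π, 0 ≤ x R G π := by
    intro R G π
    simp only [hx]
    split_ifs
    · positivity
    · exact le_rfl
  -- properties of a good pair
  have hkey : ∀ R ∈ Rs, ∀ G ∈ Tk, G.card = R.2.2 → R.2.1 ⊆ Hs Kf n r G →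
      (∀ π ∈ Ω G, ((F G).filter (fun W => R.2.1 ⊆ W.image π)).card ≤ Lam n ^ C0) ∧
      (∑ π ∈ Ω G, ((F G).filter (fun W => R.2.1 ⊆ W.image π)).card) *
        (Hs Kf n r G).card ^ (R.2.1.card - (r - G.card)) ≤
        Lam n ^ C0 * C0 ^ R.2.1.card * (Ω G).card := by
    intro R hR G hG hGa hgH
    have h1 := hRs' R hR
    have h2 := hTk' G hG
    have h3 := hF G h2.1 h2.2
    apply locfam_fam (by have := hm1 G h2.1 h2.2; omega)
      (fun W hW => ⟨(h3.1 W hW).1, (h3.1 W hW).2.2⟩) h3.2.2 (hΩ2 G) (hΩ3 G) hgH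
    omega
  have hx1 : ∀ R ∈ Rs, ∀ G ∈ Tk, ∀ π ∈ Ω G, x R G π ≤ 1 := by
    intro R hR G hG π hπ
    simp only [hx]
    split_ifs with h
    · rw [div_le_one hLC]
      exact_mod_cast (hkey R hR G hG h.1 h.2.2).1 π hπ
    · exact zero_le_one
  have hB : ∀ R ∈ Rs, ∑ G ∈ Tk, (∑ π ∈ Ω G, x R G π) / ((Ω G).card : ℝ) ≤
      (9 * ((C0 : ℝ) + 1)) ^ r * n / ((Lam n ^ C' : ℕ) : ℝ) := by
    intro R hR
    obtain ⟨h1, h2, h3, h4, h5, h6⟩ := hRs' R hR
    have hbound : ∀ G ∈ Tk, (∑ π ∈ Ω G, x R G π) / ((Ω G).card : ℝ) ≤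
        if G.card = R.2.2 ∧ R.1 ⊆ G ∧ R.2.1 ⊆ Hs Kf n r G then
          ((C0 : ℝ) + 1) ^ (r - 1 - R.1.card) *
            (3 * ((Lam n ^ C' : ℕ) : ℝ) ^ (2 ^ R.2.2) / n) ^ (R.2.2 - R.1.card - 1) else 0 := by
      intro G hG
      have hG' := hTk' G hG
      by_cases hc : G.card = R.2.2 ∧ R.1 ⊆ G ∧ R.2.1 ⊆ Hs Kf n r G
      · rw [if_pos hc]
        have hxs : ∑ π ∈ Ω G, x R G π =
            ((∑ π ∈ Ω G, ((F G).filter (fun W => R.2.1 ⊆ W.image π)).card : ℕ) : ℝ) /
              (Lam n : ℝ) ^ C0 := by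
          simp only [hx, if_pos hc]
          rw [← sum_div]
          push_cast
          rfl
        have hk := (hkey R hR G hG hc.1 hc.2.2).2
        have hΩpos : (0 : ℝ) < ((Ω G).card : ℝ) := by exact_mod_cast (hΩ1 G).card_pos
        have hmpos : 0 < (Hs Kf n r G).card := by have := hm1 G hG'.1 hG'.2; omega
        have hmr : (0 : ℝ) < ((Hs Kf n r G).card : ℝ) := by exact_mod_cast hmpos
        have he1 : R.2.1.card - (r - G.card) = R.2.2 - R.1.card - 1 := by omega
        have he2 : R.2.1.card = r - 1 - R.1.card := by omega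
        rw [he1] at hk
        have hk' : ((∑ π ∈ Ω G, ((F G).filter (fun W => R.2.1 ⊆ W.image π)).card : ℕ) : ℝ) *
            ((Hs Kf n r G).card : ℝ) ^ (R.2.2 - R.1.card - 1) ≤
            (Lam n : ℝ) ^ C0 * (C0 : ℝ) ^ R.2.1.card * ((Ω G).card : ℝ) := by exact_mod_cast hk
        rw [hxs]
        have hmn : 1 / ((Hs Kf n r G).card : ℝ) ≤
            3 * ((Lam n ^ C' : ℕ) : ℝ) ^ (2 ^ R.2.2) / n := by
          have hh := (hKf.1 G hG'.1 hG'.2.le).1
          rw [hsG _ hG'.2, hc.1] at hh
          have hh' : (n : ℝ) ≤ 3 * ((Hs Kf n r G).card : ℝ) * ((Lam n ^ C' : ℕ) : ℝ) ^ (2 ^ R.2.2) := by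
            exact_mod_cast hh
          rw [div_le_div_iff₀ hmr (by exact_mod_cast hnpos)]
          linarith
        calc ((∑ π ∈ Ω G, ((F G).filter (fun W => R.2.1 ⊆ W.image π)).card : ℕ) : ℝ) /
              (Lam n : ℝ) ^ C0 / ((Ω G).card : ℝ)
            ≤ (C0 : ℝ) ^ R.2.1.card * (1 / ((Hs Kf n r G).card : ℝ)) ^ (R.2.2 - R.1.card - 1) := by
              have hmp : (0 : ℝ) < ((Hs Kf n r G).card : ℝ) ^ (R.2.2 - R.1.card - 1) :=
                pow_pos hmr _
              rw [div_div, div_le_iff₀ (mul_pos hLC hΩpos), one_div, inv_pow,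
                ← mul_le_mul_iff_left₀ hmp]
              refine hk'.trans (le_of_eq ?_)
              have hmne := ne_of_gt hmp
              rw [show (C0 : ℝ) ^ R.2.1.card * (((Hs Kf n r G).card : ℝ) ^
                (R.2.2 - R.1.card - 1))⁻¹ * ((Lam n : ℝ) ^ C0 * ((Ω G).card : ℝ)) *
                ((Hs Kf n r G).card : ℝ) ^ (R.2.2 - R.1.card - 1) =
                (Lam n : ℝ) ^ C0 * (C0 : ℝ) ^ R.2.1.card * ((Ω G).card : ℝ) *
                ((((Hs Kf n r G).card : ℝ) ^ (R.2.2 - R.1.card - 1))⁻¹ *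
                  ((Hs Kf n r G).card : ℝ) ^ (R.2.2 - R.1.card - 1)) by ring,
                inv_mul_cancel₀ hmne, mul_one]
          _ ≤ ((C0 : ℝ) + 1) ^ R.2.1.card *
              (3 * ((Lam n ^ C' : ℕ) : ℝ) ^ (2 ^ R.2.2) / n) ^ (R.2.2 - R.1.card - 1) := by
              have hc0' : (0 : ℝ) ≤ (C0 : ℝ) := Nat.cast_nonneg _
              exact mul_le_mul (pow_le_pow_left₀ hc0' (by linarith) _)
                (pow_le_pow_left₀ (one_div_nonneg.mpr hmr.le) hmn _)
                (pow_nonneg (one_div_nonneg.mpr hmr.le) _) (pow_nonneg (by linarith) _)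
          _ = _ := by rw [he2]
      · rw [if_neg hc]
        have : ∑ π ∈ Ω G, x R G π = 0 := by
          apply sum_eq_zero
          intro π _
          simp only [hx, if_neg hc]
        rw [this, zero_div]
    calc ∑ G ∈ Tk, (∑ π ∈ Ω G, x R G π) / ((Ω G).card : ℝ)
        ≤ ∑ G ∈ Tk, (if G.card = R.2.2 ∧ R.1 ⊆ G ∧ R.2.1 ⊆ Hs Kf n r G then
          ((C0 : ℝ) + 1) ^ (r - 1 - R.1.card) *
            (3 * ((Lam n ^ C' : ℕ) : ℝ) ^ (2 ^ R.2.2) / n) ^ (R.2.2 - R.1.card - 1) else 0) :=
          sum_le_sum hbound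
      _ = ((Tk.filter (fun G => G.card = R.2.2 ∧ R.1 ⊆ G ∧ R.2.1 ⊆ Hs Kf n r G)).card : ℝ) *
          (((C0 : ℝ) + 1) ^ (r - 1 - R.1.card) *
            (3 * ((Lam n ^ C' : ℕ) : ℝ) ^ (2 ^ R.2.2) / n) ^ (R.2.2 - R.1.card - 1)) := by
          rw [← sum_filter, sum_const, nsmul_eq_mul]
      _ ≤ (9 * ((C0 : ℝ) + 1)) ^ r * n / ((Lam n ^ C' : ℕ) : ℝ) := by
          apply locfam_arith (by have : (0 : ℝ) ≤ C0 := by positivity
                                 linarith) h4 h3 hnpos hM
          have h7 := hub_count (n := n) hM hKf h1 h2 h6 (by omega) (by omega) (a := R.2.2)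
            h4.le h3
          have he2 : R.2.1.card = r - 1 - R.1.card := by omega
          rw [he2] at h7
          refine le_trans (Nat.mul_le_mul_right _ (card_le_card ?_)) h7
          intro G hG
          rw [mem_filter] at hG
          have := hTk' G hG.1
          rw [mem_filter, mem_powerset]
          exact ⟨this.1, hG.2.2.1, hG.2.1, hG.2.2.2⟩
  obtain ⟨w, hw1, hw2⟩ := scl0 Tk Ω (fun G _ => hΩ1 G) Rs x (fun R _ G _ π _ => hx0 R G π) hx1
    (fun _ => (9 * ((C0 : ℝ) + 1)) ^ r * n / ((Lam n ^ C' : ℕ) : ℝ)) hB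
  have hlog : Real.log (Rs.card : ℝ) ≤ 5 * r * (Lam n : ℝ) := by
    apply locfam_log
    have hP := locfam_card_small n r
    calc Rs.card ≤ (Pw ×ˢ Pw ×ˢ range r).card := card_le_card (filter_subset _ _)
      _ = Pw.card * (Pw.card * r) := by rw [card_product, card_product, card_range]
      _ ≤ _ := Nat.mul_le_mul hP (Nat.mul_le_mul_right _ hP)
  refine ⟨fun G => (F G).image (fun W => W.image (w G)), ?_, ?_⟩
  · intro G hG hGr
    have hGT : G ∈ Tk := by rw [hTk, mem_filter, mem_powerset]; exact ⟨hG, hGr⟩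
    have hbij := hΩ2 G (w G) (hw1 G hGT)
    have hFG := hF G hG hGr
    have himg : (range (Hs Kf n r G).card).image (w G) = Hs Kf n r G := by
      apply coe_injective
      rw [coe_image]
      exact hbij.image_eq
    refine ⟨?_, ?_⟩
    · intro W' hW'
      obtain ⟨W, hW, rfl⟩ := mem_image.mp hW'
      have h1 := hFG.1 W hW
      have hcard : (W.image (w G)).card = W.card :=
        card_image_of_injOn (hbij.injOn.mono (coe_subset.mpr h1.1))
      refine ⟨?_, ?_, ?_⟩
      · rw [← himg]; exact image_subset_image h1.1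
      · rw [hcard]; omega
      · rw [hcard]; omega
    · have h1 := Gen_image (A := range (Hs Kf n r G).card) hbij.injOn
        (fun W hW => (hFG.1 W hW).1) hFG.2.1
      rw [himg] at h1
      have h2 : q - r + (r - G.card) = q - G.card := by omega
      rw [h2] at h1
      exact h1
  · intro S hS
    -- pointwise bound
    have hpt : ∀ G ∈ Tk, (((F G).image (fun W => W.image (w G))).filter
        (fun W => S ⊆ G ∪ W)).card ≤
        if S \ (G ∩ S) ⊆ Hs Kf n r G then
          ((F G).filter (fun W => S \ (G ∩ S) ⊆ W.image (w G))).card else 0 := by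
      intro G hG
      have hG' := hTk' G hG
      have hbij := hΩ2 G (w G) (hw1 G hG)
      have hsub : ∀ W ∈ F G, W.image (w G) ⊆ Hs Kf n r G := by
        intro W hW y hy
        obtain ⟨z, hz, rfl⟩ := mem_image.mp hy
        exact mem_coe.mp (hbij.mapsTo (mem_coe.mpr (((hF G hG'.1 hG'.2).1 W hW).1 hz)))
      have hiff : ∀ W : Finset ℕ, S ⊆ G ∪ W → S \ (G ∩ S) ⊆ W := by
        intro W h y hy
        rw [mem_sdiff, mem_inter] at hy
        rcases mem_union.mp (h hy.1) with h1 | h1
        · exact absurd ⟨h1, hy.1⟩ hy.2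
        · exact h1
      split_ifs with hc
      · rw [filter_image]
        refine card_image_le.trans (card_le_card ?_)
        intro W hW
        rw [mem_filter] at hW ⊢
        exact ⟨hW.1, hiff _ hW.2⟩
      · rw [Nat.le_zero, card_eq_zero, filter_eq_empty_iff]
        intro W' hW' hSW
        obtain ⟨W, hW, rfl⟩ := mem_image.mp hW'
        exact hc ((hiff _ hSW).trans (hsub W hW))
    by_cases hSn : S ⊆ range n
    · -- main case
      have hMr : (0 : ℝ) < ((Lam n ^ C' : ℕ) : ℝ) := by exact_mod_cast hM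
      set Bd : ℝ := (Lam n : ℝ) ^ C0 * (K * (n / (Lam n : ℝ) ^ C') + K * Lam n) with hBd
      have hBd0 : 0 ≤ Bd := by positivity
      have hmain : ∀ p ∈ S.powerset ×ˢ range r,
          ∑ G ∈ Tk.filter (fun G => (G ∩ S, G.card) = p),
            ((((F G).image (fun W => W.image (w G))).filter (fun W => S ⊆ G ∪ W)).card : ℝ) ≤
            Bd := by
        rintro ⟨g0, a⟩ hp
        rw [mem_product, mem_powerset, mem_range] at hp
        obtain ⟨hg0, ha⟩ := hp
        simp only at hg0 ha
        have hcS : (S \ g0).card + g0.card + 1 = r := by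
          rw [card_sdiff_of_subset hg0]
          have := card_le_card hg0
          omega
        have hmemf : ∀ G ∈ Tk.filter (fun G => (G ∩ S, G.card) = (g0, a)),
            G ∈ Tk ∧ G ∩ S = g0 ∧ G.card = a := by
          intro G hG
          rw [mem_filter, Prod.mk.injEq] at hG
          exact hG
        rcases lt_trichotomy g0.card a with hlt | heq | hgt
        · -- the random part
          have hR : ((g0, S \ g0, a) : Finset ℕ × Finset ℕ × ℕ) ∈ Rs := by
            rw [hRs, mem_filter, mem_product, mem_product, hPw, mem_filter, mem_filter,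
              mem_powerset, mem_powerset, mem_range]
            refine ⟨⟨⟨hg0.trans hSn, ?_⟩, ⟨sdiff_subset.trans hSn, ?_⟩, ha⟩, hlt, ?_,
              disjoint_sdiff⟩
            · simp only; omega
            · simp only; omega
            · simp only; omega
          have h1 := hw2 _ hR
          calc ∑ G ∈ Tk.filter (fun G => (G ∩ S, G.card) = (g0, a)),
                ((((F G).image (fun W => W.image (w G))).filter (fun W => S ⊆ G ∪ W)).card : ℝ)
              ≤ ∑ G ∈ Tk.filter (fun G => (G ∩ S, G.card) = (g0, a)),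
                (Lam n : ℝ) ^ C0 * x (g0, S \ g0, a) G (w G) := by
                apply sum_le_sum
                intro G hG
                obtain ⟨hG1, hG2, hG3⟩ := hmemf G hG
                have h2 := hpt G hG1
                rw [hG2] at h2
                by_cases hc : S \ g0 ⊆ Hs Kf n r G
                · rw [if_pos hc] at h2
                  have hxx : x (g0, S \ g0, a) G (w G) =
                      (((F G).filter (fun W => S \ g0 ⊆ W.image (w G))).card : ℝ) /
                        (Lam n : ℝ) ^ C0 := by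
                    simp only [hx]
                    rw [if_pos ⟨hG3, by rw [← hG2]; exact inter_subset_left, hc⟩]
                  rw [hxx, mul_div_cancel₀ _ (ne_of_gt hLC)]
                  exact_mod_cast h2
                · rw [if_neg hc] at h2
                  have h3 : (((F G).image (fun W => W.image (w G))).filter
                    (fun W => S ⊆ G ∪ W)).card = 0 := by omega
                  rw [h3, Nat.cast_zero]
                  exact mul_nonneg hLC.le (hx0 _ _ _)
            _ ≤ ∑ G ∈ Tk, (Lam n : ℝ) ^ C0 * x (g0, S \ g0, a) G (w G) :=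
                sum_le_sum_of_subset_of_nonneg (filter_subset _ _)
                  (fun G _ _ => mul_nonneg hLC.le (hx0 _ _ _))
            _ = (Lam n : ℝ) ^ C0 * ∑ G ∈ Tk, x (g0, S \ g0, a) G (w G) := by rw [mul_sum]
            _ ≤ (Lam n : ℝ) ^ C0 * (4 * ((9 * ((C0 : ℝ) + 1)) ^ r * n / ((Lam n ^ C' : ℕ) : ℝ)) +
                5 * r * (Lam n : ℝ)) := by
                apply mul_le_mul_of_nonneg_left _ hLC.le
                linarith
            _ ≤ Bd := by
                rw [hBd]
                apply mul_le_mul_of_nonneg_left _ hLC.le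
                have e1 : ((Lam n ^ C' : ℕ) : ℝ) = (Lam n : ℝ) ^ C' := by push_cast; rfl
                rw [e1]
                have e2 : (K : ℝ) = 3 + 4 * (9 * ((C0 : ℝ) + 1)) ^ r + 5 * r := by
                  rw [hK]; push_cast; ring
                apply add_le_add
                · rw [mul_div_assoc, ← mul_assoc]
                  apply mul_le_mul_of_nonneg_right _ (by positivity)
                  rw [e2]
                  have : (0 : ℝ) ≤ 5 * r := by positivity
                  linarith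
                · apply mul_le_mul_of_nonneg_right _ (by positivity)
                  rw [e2]
                  have : (0 : ℝ) ≤ 4 * (9 * ((C0 : ℝ) + 1)) ^ r := by positivity
                  linarith
        · -- the deterministic part
          have hGg : ∀ G ∈ Tk.filter (fun G => (G ∩ S, G.card) = (g0, a)), G = g0 := by
            intro G hG
            obtain ⟨hG1, hG2, hG3⟩ := hmemf G hG
            have h1 : g0 ⊆ G := by rw [← hG2]; exact inter_subset_left
            exact (eq_of_subset_of_card_le h1 (by omega)).symm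
          have hcard1 : (Tk.filter (fun G => (G ∩ S, G.card) = (g0, a))).card ≤ 1 := by
            rw [card_le_one]
            intro G hG G' hG'
            rw [hGg G hG, hGg G' hG']
          have hb : ∀ G ∈ Tk.filter (fun G => (G ∩ S, G.card) = (g0, a)),
              ((((F G).image (fun W => W.image (w G))).filter (fun W => S ⊆ G ∪ W)).card : ℝ) ≤
              Bd := by
            intro G hG
            obtain ⟨hG1, hG2, hG3⟩ := hmemf G hG
            have hG' := hTk' G hG1
            have h2 := hpt G hG1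
            rw [hG2] at h2
            by_cases hc : S \ g0 ⊆ Hs Kf n r G
            · rw [if_pos hc] at h2
              have hbij := hΩ2 G (w G) (hw1 G hG1)
              have hFG := hF G hG'.1 hG'.2
              have h3 : (F G).filter (fun W => S \ g0 ⊆ W.image (w G)) =
                  (F G).filter (fun W => (range (Hs Kf n r G).card).filter
                    (fun x => w G x ∈ S \ g0) ⊆ W) := by
                apply filter_congr
                intro W hW
                exact (locfam_pre hbij (hFG.1 W hW).1 hc).2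
              rw [h3] at h2
              have h4 := hFG.2.2 ((range (Hs Kf n r G).card).filter (fun x => w G x ∈ S \ g0))
              rw [(locfam_pre hbij (empty_subset _) hc).1] at h4
              have h5 : r - G.card - (S \ g0).card = 1 := by omega
              rw [h5, pow_one] at h4
              have h6 := (hKf.1 G hG'.1 hG'.2.le).2
              rw [hsG _ hG'.2] at h6
              have h7 : (Hs Kf n r G).card * Lam n ^ C' ≤ 3 * n := by
                refine le_trans (Nat.mul_le_mul_left _ ?_) h6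
                exact Nat.le_self_pow (by positivity) _
              have h8 : ((Hs Kf n r G).card : ℝ) ≤ 3 * (n / (Lam n : ℝ) ^ C') := by
                rw [← mul_div_assoc, le_div_iff₀ (by positivity)]
                exact_mod_cast h7
              have h9 : ((((F G).image (fun W => W.image (w G))).filter
                  (fun W => S ⊆ G ∪ W)).card : ℝ) ≤
                  (Lam n : ℝ) ^ C0 * ((Hs Kf n r G).card : ℝ) := by
                exact_mod_cast h2.trans h4
              refine h9.trans ?_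
              rw [hBd]
              apply mul_le_mul_of_nonneg_left _ hLC.le
              have e2 : (K : ℝ) = 3 + 4 * (9 * ((C0 : ℝ) + 1)) ^ r + 5 * r := by
                rw [hK]; push_cast; ring
              have e3 : (3 : ℝ) ≤ K := by
                rw [e2]
                have h1 : (0 : ℝ) ≤ 4 * (9 * ((C0 : ℝ) + 1)) ^ r := by positivity
                have h2 : (0 : ℝ) ≤ 5 * (r : ℝ) := by positivity
                linarith
              have e4 : (0 : ℝ) ≤ n / (Lam n : ℝ) ^ C' := by positivity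
              have e5 : (0 : ℝ) ≤ (K : ℝ) * Lam n := by positivity
              nlinarith
            · rw [if_neg hc] at h2
              have h3 : (((F G).image (fun W => W.image (w G))).filter
                (fun W => S ⊆ G ∪ W)).card = 0 := by omega
              rw [h3, Nat.cast_zero]
              exact hBd0
          calc _ ≤ (Tk.filter (fun G => (G ∩ S, G.card) = (g0, a))).card • Bd :=
                sum_le_card_nsmul _ _ _ hb
            _ ≤ 1 • Bd := nsmul_le_nsmul_left hBd0 hcard1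
            _ = Bd := one_nsmul _
        · have : Tk.filter (fun G => (G ∩ S, G.card) = (g0, a)) = ∅ := by
            rw [eq_empty_iff_forall_notMem]
            intro G hG
            obtain ⟨hG1, hG2, hG3⟩ := hmemf G hG
            have h1 : g0 ⊆ G := by rw [← hG2]; exact inter_subset_left
            have := card_le_card h1
            omega
          rw [this, sum_empty]
          exact hBd0
      have htot : ((∑ G ∈ Tk, (((F G).image (fun W => W.image (w G))).filter
          (fun W => S ⊆ G ∪ W)).card : ℕ) : ℝ) ≤ ((2 ^ r * r : ℕ) : ℝ) * Bd := by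
        push_cast
        rw [← sum_fiberwise_of_maps_to (s := Tk) (t := S.powerset ×ˢ range r)
          (g := fun G => (G ∩ S, G.card))]
        · calc _ ≤ (S.powerset ×ˢ range r).card • Bd := sum_le_card_nsmul _ _ _ hmain
            _ = ((2 : ℝ) ^ S.card * r) * Bd := by
                rw [card_product, card_powerset, card_range, nsmul_eq_mul]; push_cast; ring
            _ ≤ ((2 : ℝ) ^ r * r) * Bd := by
                gcongr
                · norm_num
                · omega
        · intro G hG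
          have := hTk' G hG
          rw [mem_product, mem_powerset, mem_range]
          exact ⟨inter_subset_right, this.2⟩
      have hfin : ((∑ G ∈ Tk, (((F G).image (fun W => W.image (w G))).filter
          (fun W => S ⊆ G ∪ W)).card : ℕ) : ℝ) * (Lam n : ℝ) ≤ n :=
        (mul_le_mul_of_nonneg_right htot (by linarith)).trans hn1'
      exact_mod_cast hfin
    · have h0 : ∑ G ∈ Tk, (((F G).image (fun W => W.image (w G))).filter
          (fun W => S ⊆ G ∪ W)).card = 0 := by
        apply sum_eq_zero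
        intro G hG
        have hG' := hTk' G hG
        rw [card_eq_zero, filter_eq_empty_iff]
        intro W' hW' hSW
        obtain ⟨W, hW, rfl⟩ := mem_image.mp hW'
        have hbij := hΩ2 G (w G) (hw1 G hG)
        apply hSn
        refine hSW.trans (union_subset hG'.1 ?_)
        intro y hy
        obtain ⟨z, hz, rfl⟩ := mem_image.mp hy
        have := mem_coe.mp (hbij.mapsTo (mem_coe.mpr (((hF G hG'.1 hG'.2).1 W hW).1 hz)))
        exact (mem_sdiff.mp (mem_filter.mp this).1).1
      rw [h0]; simp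

end Pool.Agent.Kv
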