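import Mathlib

/-!
# Designs.NibbleA : real-variable lemmas for the random greedy nibble

All quantities: `η = k/|R|` the fraction of the vertices removed in one step, `dl = δ_j`,
`dl' = δ_{j+1}`, `lam = λ`, `W0` the total weight of the hyperedges inside `R`.
-/

open Finset

namespace Designs

/-- averaging lemma: `∑_G w exp(y) ≤ W0` if the first and second moments are fine -/
theorem sum_exp_le {ι : Type*} (I G : Finset ι) (hG : G ⊆ I) (w y : ι → ℝ)
    (hw : ∀ i ∈ I, 0 ≤ w i) (hy : ∀ i ∈ G, |y i| ≤ 1)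
    (h : ∑ i ∈ G, w i * y i + ∑ i ∈ G, w i * y i ^ 2 ≤ 0) :
    ∑ i ∈ G, w i * Real.exp (y i) ≤ ∑ i ∈ I, w i := by
  have h1 : ∀ i ∈ G, w i * Real.exp (y i) ≤ w i + w i * y i + w i * y i ^ 2 := by
    intro i hi
    have h2 := Real.abs_exp_sub_one_sub_id_le (hy i hi)
    have h3 : Real.exp (y i) ≤ 1 + y i + y i ^ 2 := by
      have := (abs_le.1 h2).2
      linarith
    have h4 := mul_le_mul_of_nonneg_left h3 (hw i (hG hi))
    linarith
  calc ∑ i ∈ G, w i * Real.exp (y i) ≤ ∑ i ∈ G, (w i + w i * y i + w i * y i ^ 2) :=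
        Finset.sum_le_sum h1
    _ = ∑ i ∈ G, w i + (∑ i ∈ G, w i * y i + ∑ i ∈ G, w i * y i ^ 2) := by
        rw [Finset.sum_add_distrib, Finset.sum_add_distrib]; ring
    _ ≤ ∑ i ∈ G, w i := by linarith
    _ ≤ ∑ i ∈ I, w i := Finset.sum_le_sum_of_subset_of_nonneg hG fun i hi _ => hw i hi

/-- `1 + m η ≤ (1-η)^{-m} ≤ 1 + 2 m η` -/
theorem inv_pow_bounds (m : ℕ) {η : ℝ} (h0 : 0 ≤ η) (h1 : m * η ≤ 1 / 2) (h2 : η < 1) :
    1 + m * η ≤ ((1 - η)⁻¹) ^ m ∧ ((1 - η)⁻¹) ^ m ≤ 1 + 2 * (m * η) := by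
  have h3 : 0 < 1 - η := by linarith
  have h4 : 1 + η ≤ (1 - η)⁻¹ := by
    rw [le_inv_comm₀ (by linarith) h3, inv_eq_one_div, le_div_iff₀ (by linarith)]
    nlinarith
  constructor
  · calc 1 + (m : ℝ) * η ≤ (1 + η) ^ m := one_add_mul_le_pow (by linarith) m
      _ ≤ ((1 - η)⁻¹) ^ m := pow_le_pow_left₀ (by linarith) h4 m
  · have h5 : 1 - m * η ≤ (1 - η) ^ m := by
      have := one_add_mul_le_pow (a := -η) (by linarith) m
      have h6 : (1 : ℝ) + m * (-η) = 1 - m * η := by ring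
      have h7 : (1 : ℝ) + -η = 1 - η := by ring
      rw [h6, h7] at this
      exact this
    rw [inv_pow, inv_le_comm₀ (by positivity) (by positivity)]
    refine le_trans ?_ h5
    rw [inv_eq_one_div, div_le_iff₀ (by positivity)]
    have h8 : 0 ≤ m * η := by positivity
    nlinarith

/-- `g - 1 ≤ g (k-1) η` and `g - 1 ≥ g ((k-1) η - k² η²)`, `g = (1-η)^{-(k-1)}` -/
theorem g_bounds (k : ℕ) (hk : 1 ≤ k) {η : ℝ} (h0 : 0 ≤ η) (h2 : η < 1) :
    ((1 - η)⁻¹) ^ (k - 1) - 1 ≤ ((1 - η)⁻¹) ^ (k - 1) * ((k - 1) * η) ∧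
    ((1 - η)⁻¹) ^ (k - 1) * ((k - 1) * η - k ^ 2 * η ^ 2) ≤ ((1 - η)⁻¹) ^ (k - 1) - 1 := by
  have h3 : 0 < 1 - η := by linarith
  have hk' : ((k - 1 : ℕ) : ℝ) = (k : ℝ) - 1 := by
    rw [Nat.cast_sub hk]; simp
  have hk1 : (1 : ℝ) ≤ k := by exact_mod_cast hk
  have e : ((1 - η)⁻¹) ^ (k - 1) * (1 - η) ^ (k - 1) = 1 := by
    rw [← mul_pow, inv_mul_cancel₀ h3.ne', one_pow]
  have hg : 0 < ((1 - η)⁻¹) ^ (k - 1) := by positivity
  constructor
  · have h5 : 1 - ((k : ℝ) - 1) * η ≤ (1 - η) ^ (k - 1) := by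
      have := one_add_mul_le_pow (a := -η) (by linarith) (k - 1)
      rw [hk'] at this
      have h6 : (1 : ℝ) + ((k : ℝ) - 1) * (-η) = 1 - ((k : ℝ) - 1) * η := by ring
      have h7 : (1 : ℝ) + -η = 1 - η := by ring
      rw [h6, h7] at this
      exact this
    have h6 := mul_le_mul_of_nonneg_left h5 hg.le
    rw [e] at h6
    linarith
  · -- (1-η)^m ≤ 1 - m η + m² η²
    have key : ∀ m : ℕ, (1 - η) ^ m ≤ 1 - m * η + m ^ 2 * η ^ 2 := by
      intro m
      induction m with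
      | zero => simp
      | succ m ih =>
        rw [pow_succ]
        push_cast
        have hm : (0 : ℝ) ≤ m := Nat.cast_nonneg m
        have h8 : (1 - η) ^ m * (1 - η) ≤ (1 - m * η + m ^ 2 * η ^ 2) * (1 - η) :=
          mul_le_mul_of_nonneg_right ih h3.le
        have h9 : 0 ≤ (m : ℝ) ^ 2 * η ^ 3 := by positivity
        nlinarith [mul_nonneg hm (sq_nonneg η), sq_nonneg η]
    have h5 := key (k - 1)
    rw [hk'] at h5
    have h6 := mul_le_mul_of_nonneg_left h5 hg.le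
    rw [e] at h6
    have h7 : ((k : ℝ) - 1) ^ 2 * η ^ 2 ≤ (k : ℝ) ^ 2 * η ^ 2 := by
      refine mul_le_mul_of_nonneg_right ?_ (sq_nonneg _)
      exact pow_le_pow_left₀ (by linarith) (by linarith) 2
    have h8 := mul_le_mul_of_nonneg_left h7 hg.le
    nlinarith

/-- the numerical hypotheses of one step -/
structure Num (k : ℕ) (dl η lam τ : ℝ) : Prop where
  hk : 2 ≤ k
  dl0 : 0 < dl
  dl1 : dl ≤ 1 / (1000 * k ^ 2)
  η0 : 0 < η
  lam1 : 1 ≤ lam
  η1 : lam * η ≤ dl / (1000 * k ^ 2)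
  τ0 : 0 ≤ τ
  τ1 : lam * τ ≤ dl / (1000 * k ^ 2)

namespace Num

variable {k : ℕ} {dl η lam τ : ℝ}

theorem k2 (h : Num k dl η lam τ) : (2 : ℝ) ≤ k := by exact_mod_cast h.hk

theorem dl_le (h : Num k dl η lam τ) : dl * k ^ 2 ≤ 1 / 1000 := by
  have h1 := h.k2
  have := h.dl1
  rw [le_div_iff₀ (by positivity)] at this
  linarith

theorem dl_le' (h : Num k dl η lam τ) : dl ≤ 1 / 4000 := by
  have h1 := h.k2
  have := h.dl_le
  have h2 : (4 : ℝ) ≤ k ^ 2 := by nlinarith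
  nlinarith [h.dl0]

theorem lη_le (h : Num k dl η lam τ) : lam * η * k ^ 2 ≤ dl / 1000 := by
  have h1 := h.k2
  have := h.η1
  rw [le_div_iff₀ (by positivity)] at this
  linarith

theorem lτ_le (h : Num k dl η lam τ) : lam * τ * k ^ 2 ≤ dl / 1000 := by
  have h1 := h.k2
  have := h.τ1
  rw [le_div_iff₀ (by positivity)] at this
  linarith

theorem η_le (h : Num k dl η lam τ) : η * k ^ 2 ≤ dl / 1000 := by
  have h1 := h.lη_le
  have h2 : η * k ^ 2 ≤ lam * (η * k ^ 2) :=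
    le_mul_of_one_le_left (by have := h.η0; positivity) h.lam1
  linarith

theorem τ_le (h : Num k dl η lam τ) : τ * k ^ 2 ≤ dl / 1000 := by
  have h1 := h.lτ_le
  have h2 : τ * k ^ 2 ≤ lam * (τ * k ^ 2) :=
    le_mul_of_one_le_left (by have := h.τ0; positivity) h.lam1
  linarith

theorem kη_le (h : Num k dl η lam τ) : k * η ≤ dl / 2000 := by
  have h1 := h.k2
  have h2 := h.η_le
  have h3 : k * η * 2 ≤ η * k ^ 2 := by
    have := mul_le_mul_of_nonneg_left h1 (show 0 ≤ k * η by have := h.η0; positivity)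
    nlinarith
  linarith

theorem kη_le' (h : Num k dl η lam τ) : k * η ≤ 1 / 1000000 := by
  have := h.kη_le
  have := h.dl_le'
  linarith

theorem η_lt (h : Num k dl η lam τ) : η < 1 := by
  have := h.kη_le'
  have := h.k2
  have := h.η0
  nlinarith

theorem g_le (h : Num k dl η lam τ) : ((1 - η)⁻¹) ^ (k - 1) ≤ 101 / 100 := by
  have h1 := h.kη_le'
  have h2 := inv_pow_bounds (k - 1) h.η0.le (by
    have : ((k - 1 : ℕ) : ℝ) ≤ k := by exact_mod_cast Nat.sub_le _ _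
    have := mul_le_mul_of_nonneg_right this h.η0.le
    linarith) h.η_lt
  have : ((k - 1 : ℕ) : ℝ) ≤ k := by exact_mod_cast Nat.sub_le _ _
  have := mul_le_mul_of_nonneg_right this h.η0.le
  linarith [h2.2]

theorem one_le_g (h : Num k dl η lam τ) : 1 ≤ ((1 - η)⁻¹) ^ (k - 1) := by
  have h2 := inv_pow_bounds (k - 1) h.η0.le (by
    have h1 := h.kη_le'
    have : ((k - 1 : ℕ) : ℝ) ≤ k := by exact_mod_cast Nat.sub_le _ _
    have := mul_le_mul_of_nonneg_right this h.η0.le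
    linarith) h.η_lt
  have : 0 ≤ ((k - 1 : ℕ) : ℝ) * η := by have := h.η0; positivity
  linarith [h2.1]

/-- the increment of `δ` -/
theorem dl_inc (h : Num k dl η lam τ) :
    dl + 16 * (k * η * dl) ≤ dl * ((1 - η)⁻¹) ^ (16 * k) ∧
    dl * ((1 - η)⁻¹) ^ (16 * k) ≤ dl + 32 * (k * η * dl) := by
  have h1 := h.kη_le'
  have h2 := inv_pow_bounds (16 * k) h.η0.le (by push_cast; linarith) h.η_lt
  push_cast at h2
  have h3 := h.dl0
  constructor
  · have := mul_le_mul_of_nonneg_left h2.1 h3.le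
    nlinarith
  · have := mul_le_mul_of_nonneg_left h2.2 h3.le
    nlinarith

end Num

end Designs
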