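import Pool.Agent.Designs.Vec

set_option autoImplicit false

/-!
Data of the omni-absorber (section 10 of the paper proof).
-/

namespace Pool.Agent.Kv

open Finset

/-- a pool: `(e, j, l)`, `e` an `r`-subset of location `j`, `l < Md q r`. -/
abbrev PoolIx := Finset ℕ × ℕ × ℕ

/-- the next location after `j` containing `e` (junk if there is none). -/
noncomputable def nxt (k : ℕ) (U : ℕ → Finset ℕ) (e : Finset ℕ) (j : ℕ) : ℕ :=
  sInf {i : ℕ | j < i ∧ i < k ∧ e ⊆ U i}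

/-- the pools: `j` is not the last location containing `e`. -/
noncomputable def pools (r N k : ℕ) (U : ℕ → Finset ℕ) : Finset PoolIx :=
  (((range k).biUnion (fun j => powersetCard r (U j))) ×ˢ range k ×ˢ range N).filter
    (fun τ => τ.1 ⊆ U τ.2.1 ∧ ∃ i ∈ range k, τ.2.1 < i ∧ τ.1 ⊆ U i)

/-- the two locations which may consume the pool. -/
noncomputable def cands (k : ℕ) (U : ℕ → Finset ℕ) (τ : PoolIx) : Finset ℕ :=
  {τ.2.1, nxt k U τ.1 τ.2.1}

/-- the pools which may be consumed by location `i`. -/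
noncomputable def poolsAt (r N k : ℕ) (U : ℕ → Finset ℕ) (i : ℕ) : Finset PoolIx :=
  (pools r N k U).filter (fun τ => i ∈ cands k U τ)

open Classical in
/-- the sets `R` of `r`-subsets of `Y` with divisible indicator. -/
noncomputable def dvSets (q r : ℕ) (Y : Finset ℕ) : Finset (Finset (Finset ℕ)) :=
  (powersetCard r Y).powerset.filter (fun R => ind R ∈ Dv q r (powersetCard r Y))

/-- data of an omni-absorber avoiding `Av`. -/
structure OmniData (q r n k : ℕ) (U : ℕ → Finset ℕ) (Av : Finset (Finset ℕ)) where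
  /-- private vertices of the pools -/
  Zp : PoolIx → Finset ℕ
  /-- private vertices of the locations -/
  Zb : ℕ → Finset ℕ
  /-- block of a pool at a location -/
  bl : ℕ → PoolIx → Finset ℕ
  /-- transformers -/
  T3 : ℕ → PoolIx → Finset (Finset ℕ)
  A3 : ℕ → PoolIx → Finset (Finset ℕ)
  B3 : ℕ → PoolIx → Finset (Finset ℕ)
  /-- absorbers -/
  T4 : ℕ → Finset (Finset ℕ) → Finset (Finset ℕ)
  A4 : ℕ → Finset (Finset ℕ) → Finset (Finset ℕ)
  B4 : ℕ → Finset (Finset ℕ) → Finset (Finset ℕ)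
  /-- the omni-absorber -/
  A : Finset (Finset ℕ)
  hA : A ⊆ powersetCard r (range n)
  hAv : Disjoint A Av
  hZp : ∀ τ ∈ pools r (Md q r) k U, Zp τ ⊆ range n ∧ Disjoint τ.1 (Zp τ) ∧ (Zp τ).card = q - r
  hZb : ∀ i < k, Zb i ⊆ range n ∧ Disjoint (U i) (Zb i)
  hbl : ∀ i < k, ∀ τ ∈ poolsAt r (Md q r) k U i, bl i τ ⊆ Zb i ∧ (bl i τ).card = q - r
  hbld : ∀ i < k, ∀ τ ∈ poolsAt r (Md q r) k U i, ∀ τ' ∈ poolsAt r (Md q r) k U i, τ ≠ τ' →
    Disjoint (bl i τ) (bl i τ')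
  h3 : ∀ i < k, ∀ τ ∈ poolsAt r (Md q r) k U i,
    (∀ Q ∈ A3 i τ ∪ B3 i τ, Q ⊆ range n ∧ Q.card = q) ∧
    vec r (A3 i τ) = ind (T3 i τ) + ind (claim r τ.1 (bl i τ)) ∧
    vec r (B3 i τ) = ind (T3 i τ) + ind (claim r τ.1 (Zp τ))
  h4 : ∀ i < k, ∀ R ∈ dvSets q r (U i ∪ Zb i),
    (∀ Q ∈ A4 i R ∪ B4 i R, Q ⊆ range n ∧ Q.card = q) ∧
    vec r (A4 i R) = ind (T4 i R) ∧ vec r (B4 i R) = ind (T4 i R) + ind R
  hsum : ind A = ∑ τ ∈ pools r (Md q r) k U, ind (claim r τ.1 (Zp τ)) +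
    ∑ i ∈ range k, ∑ τ ∈ poolsAt r (Md q r) k U i, (ind (claim r τ.1 (bl i τ)) + ind (T3 i τ)) +
    ∑ i ∈ range k, ∑ R ∈ dvSets q r (U i ∪ Zb i), ind (T4 i R)

end Pool.Agent.Kv
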