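import Pool.Agent.Designs.OmniDefs
import Pool.Agent.Designs.Emb
import Pool.Agent.Designs.Abs2
import Pool.Agent.Designs.Asym

set_option autoImplicit false

/-!
# Module OmniEmb: embedding the omni-absorber in four rounds (section 10, R1–R4)
-/

namespace Pool.Agent.Kv

open Finset

/-- disjoint blocks of size `c`. -/
lemma OmniEmb_blocks {α : Type*} [DecidableEq α] (P : Finset α) (Z : Finset ℕ) (c : ℕ)
    (h : c * P.card ≤ Z.card) : ∃ bl : α → Finset ℕ, (∀ a ∈ P, bl a ⊆ Z ∧ (bl a).card = c) ∧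
      ∀ a ∈ P, ∀ b ∈ P, a ≠ b → Disjoint (bl a) (bl b) := by
  induction P using Finset.induction_on with
  | empty => exact ⟨fun _ => ∅, by simp, by simp⟩
  | insert a P ha ih =>
    rw [card_insert_of_notMem ha] at h
    obtain ⟨bl, h1, h2⟩ := ih (by nlinarith)
    have hc : c ≤ (Z \ P.biUnion bl).card := by
      have h3 : (P.biUnion bl).card ≤ P.card * c :=
        card_biUnion_le_card_mul _ _ _ (fun x hx => (h1 x hx).2.le)
      have h4 := le_card_sdiff (P.biUnion bl) Z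
      have h5 : c * (P.card + 1) = c * P.card + c := by ring
      rw [mul_comm] at h3
      omega
    obtain ⟨W, hW1, hW2⟩ := exists_subset_card_eq hc
    have hW : ∀ x ∈ P, Disjoint W (bl x) := by
      intro x hx
      rw [disjoint_left]
      intro y hy hy2
      exact (mem_sdiff.mp (hW1 hy)).2 (mem_biUnion.mpr ⟨x, hx, hy2⟩)
    refine ⟨fun x => if x = a then W else bl x, ?_, ?_⟩
    · intro x hx
      by_cases hxa : x = a
      · simp only [hxa, if_true]
        exact ⟨hW1.trans sdiff_subset, hW2⟩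
      · simp only [hxa, if_false]
        exact h1 x ((mem_insert.mp hx).resolve_left hxa)
    · intro x hx y hy hxy
      by_cases hxa : x = a
      · have hya : y ≠ a := fun h => hxy (hxa.trans h.symm)
        simp only [hxa, hya, if_true, if_false]
        exact hW y ((mem_insert.mp hy).resolve_left hya)
      · by_cases hya : y = a
        · simp only [hxa, hya, if_true, if_false]
          exact (hW x ((mem_insert.mp hx).resolve_left hxa)).symm
        · simp only [hxa, hya, if_false]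
          exact h2 x ((mem_insert.mp hx).resolve_left hxa) y
            ((mem_insert.mp hy).resolve_left hya) hxy

/-- splitting the counts. -/
lemma OmniEmb_split {κ : Type*} [DecidableEq κ] {r n : ℕ} (Mk : Finset κ) (A B : κ → Finset ℕ)
    {b : ℝ} (hb : 0 ≤ b)
    (H : ∀ h' h'' : Finset ℕ, h'.card + h''.card < r →
      ((Mk.filter (fun μ => h' ⊆ A μ ∧ h'' ⊆ B μ)).card : ℝ) ≤
        b * (n : ℝ) ^ (r - h'.card - h''.card))
    (h : Finset ℕ) (hh : h.card < r) :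
    ((Mk.filter (fun μ => h ⊆ A μ ∪ B μ)).card : ℝ) ≤ 2 ^ r * b * (n : ℝ) ^ (r - h.card) := by
  have h1 : Mk.filter (fun μ => h ⊆ A μ ∪ B μ) ⊆
      h.powerset.biUnion (fun h' => Mk.filter (fun μ => h' ⊆ A μ ∧ h \ h' ⊆ B μ)) := by
    intro μ hμ
    rw [mem_filter] at hμ
    refine mem_biUnion.mpr ⟨h ∩ A μ, mem_powerset.mpr inter_subset_left,
      mem_filter.mpr ⟨hμ.1, inter_subset_right, ?_⟩⟩
    intro x hx
    rw [mem_sdiff, mem_inter, not_and] at hx
    have := hμ.2 hx.1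
    rcases mem_union.mp this with h2 | h2
    · exact absurd h2 (hx.2 hx.1)
    · exact h2
  calc ((Mk.filter (fun μ => h ⊆ A μ ∪ B μ)).card : ℝ)
      ≤ ((h.powerset.biUnion
          (fun h' => Mk.filter (fun μ => h' ⊆ A μ ∧ h \ h' ⊆ B μ))).card : ℝ) := by
        exact_mod_cast card_le_card h1
    _ ≤ ∑ h' ∈ h.powerset, ((Mk.filter (fun μ => h' ⊆ A μ ∧ h \ h' ⊆ B μ)).card : ℝ) := by
        exact_mod_cast card_biUnion_le
    _ ≤ ∑ h' ∈ h.powerset, b * (n : ℝ) ^ (r - h.card) := by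
        apply sum_le_sum
        intro h' hh'
        have hs := mem_powerset.mp hh'
        have hc : h'.card + (h \ h').card = h.card := by
          rw [card_sdiff_of_subset hs]
          have := card_le_card hs
          omega
        have := H h' (h \ h') (by omega)
        rwa [Nat.sub_sub, hc] at this
    _ = 2 ^ h.card * (b * (n : ℝ) ^ (r - h.card)) := by
        rw [sum_const, card_powerset, nsmul_eq_mul]; push_cast; ring
    _ ≤ 2 ^ r * (b * (n : ℝ) ^ (r - h.card)) := by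
        gcongr
        norm_num
    _ = _ := by ring

/-- number of locations containing a small set. -/
lemma OmniEmb_cnt {r n k : ℕ} (hr : 1 ≤ r) {U : ℕ → Finset ℕ} {ε : ℝ}
    (hU : ∀ j < k, U j ⊆ range n ∧ r ≤ (U j).card)
    (H : ∀ S : Finset ℕ, S.card + 1 = r →
      (((range k).filter (fun j => S ⊆ U j)).card : ℝ) ≤ ε * n)
    (h : Finset ℕ) (hh : h.card < r) :
    (((range k).filter (fun j => h ⊆ U j)).card : ℝ) ≤ ε * (n : ℝ) ^ (r - h.card) := by
  set P := (powersetCard (r - 1) (range n)).filter (fun S => h ⊆ S) with hP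
  have hPc : P.card ≤ n ^ (r - 1 - h.card) := by
    have h1 : P.card ≤ (powersetCard (r - 1 - h.card) (range n)).card := by
      apply card_le_card_of_injOn (fun S => S \ h)
      · intro S hS
        have hS' := mem_filter.mp (mem_coe.mp hS)
        have hS'' := mem_powersetCard.mp hS'.1
        apply mem_coe.mpr
        rw [mem_powersetCard]
        refine ⟨sdiff_subset.trans hS''.1, ?_⟩
        rw [card_sdiff_of_subset hS'.2, hS''.2]
      · intro S hS S' hS' he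
        have h2 := (mem_filter.mp (mem_coe.mp hS)).2
        have h3 := (mem_filter.mp (mem_coe.mp hS')).2
        simp only at he
        rw [← sdiff_union_of_subset h2, ← sdiff_union_of_subset h3, he]
    rw [card_powersetCard, card_range] at h1
    exact h1.trans (Nat.choose_le_pow _ _)
  have h1 : (range k).filter (fun j => h ⊆ U j) ⊆
      P.biUnion (fun S => (range k).filter (fun j => S ⊆ U j)) := by
    intro j hj
    rw [mem_filter, mem_range] at hj
    obtain ⟨S, hS1, hS2, hS3⟩ := exists_subsuperset_card_eq (n := r - 1) hj.2 (by omega)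
      (by have := (hU j hj.1).2; omega)
    refine mem_biUnion.mpr ⟨S, ?_, mem_filter.mpr ⟨mem_range.mpr hj.1, hS2⟩⟩
    rw [hP, mem_filter, mem_powersetCard]
    exact ⟨⟨hS2.trans (hU j hj.1).1, hS3⟩, hS1⟩
  by_cases hP0 : P = ∅
  · rw [hP0, biUnion_empty] at h1
    rw [subset_empty.mp h1, card_empty, Nat.cast_zero]
    have hS0 : 0 ≤ ε * n := by
      obtain ⟨S, hS⟩ : ∃ S : Finset ℕ, S.card + 1 = r :=
        ⟨range (r - 1), by rw [card_range]; omega⟩
      exact le_trans (Nat.cast_nonneg _) (H S hS)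
    obtain ⟨m, hm⟩ : ∃ m, r - h.card = m + 1 := ⟨r - h.card - 1, by omega⟩
    rw [hm, pow_succ]
    have : ε * ((n : ℝ) ^ m * n) = (n : ℝ) ^ m * (ε * n) := by ring
    rw [this]
    positivity
  · have hS0 : 0 ≤ ε * n := by
      obtain ⟨S, hS⟩ := nonempty_of_ne_empty hP0
      have := (mem_powersetCard.mp (mem_filter.mp hS).1).2
      exact le_trans (Nat.cast_nonneg _) (H S (by omega))
    calc (((range k).filter (fun j => h ⊆ U j)).card : ℝ)
        ≤ ((P.biUnion (fun S => (range k).filter (fun j => S ⊆ U j))).card : ℝ) := by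
          exact_mod_cast card_le_card h1
      _ ≤ ∑ S ∈ P, (((range k).filter (fun j => S ⊆ U j)).card : ℝ) := by
          exact_mod_cast card_biUnion_le
      _ ≤ ∑ S ∈ P, ε * n := by
          apply sum_le_sum
          intro S hS
          have := (mem_powersetCard.mp (mem_filter.mp hS).1).2
          exact H S (by omega)
      _ = (P.card : ℝ) * (ε * n) := by rw [sum_const, nsmul_eq_mul]
      _ ≤ (n : ℝ) ^ (r - 1 - h.card) * (ε * n) := by
          gcongr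
          exact_mod_cast hPc
      _ = ε * (n : ℝ) ^ (r - h.card) := by
          obtain ⟨m, hm⟩ : ∃ m, r - 1 - h.card = m := ⟨_, rfl⟩
          have hm2 : r - h.card = m + 1 := by omega
          rw [hm, hm2, pow_succ]; ring

lemma OmniEmb_sig {β : Type*} [DecidableEq β] {k : ℕ} (s : ℕ → Finset β) (m : ℕ)
    (hs : ∀ i < k, (s i).card ≤ m) (p : ℕ → Prop) [DecidablePred p] :
    (((range k).sigma s).filter (fun x => p x.1)).card ≤ m * ((range k).filter p).card := by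
  have h1 : ((range k).sigma s).filter (fun x => p x.1) = ((range k).filter p).sigma s := by
    ext ⟨i, b⟩
    simp only [mem_filter, mem_sigma]
    tauto
  rw [h1, card_sigma]
  have := sum_le_card_nsmul ((range k).filter p) (fun a => (s a).card) m
    (fun x hx => hs x (mem_range.mp (mem_filter.mp hx).1))
  rw [smul_eq_mul, mul_comm] at this
  exact this

/-! ### pools -/

lemma OmniEmb_pool {r N k : ℕ} {U : ℕ → Finset ℕ} {τ : PoolIx} (h : τ ∈ pools r N k U) :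
    τ.1.card = r ∧ τ.2.1 < k ∧ τ.2.2 < N ∧ τ.1 ⊆ U τ.2.1 ∧ τ.2.1 < nxt k U τ.1 τ.2.1 ∧
      nxt k U τ.1 τ.2.1 < k ∧ τ.1 ⊆ U (nxt k U τ.1 τ.2.1) := by
  unfold pools at h
  rw [mem_filter, mem_product, mem_product, mem_biUnion, mem_range, mem_range] at h
  obtain ⟨⟨⟨j, _, hj⟩, hk, hN⟩, hU, i, hi, hi2, hi3⟩ := h
  have hne : {i : ℕ | τ.2.1 < i ∧ i < k ∧ τ.1 ⊆ U i}.Nonempty :=
    ⟨i, hi2, mem_range.mp hi, hi3⟩
  have hm := Nat.sInf_mem hne
  exact ⟨(mem_powersetCard.mp hj).2, hk, hN, hU, hm.1, hm.2.1, hm.2.2⟩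

lemma OmniEmb_cand {r N k : ℕ} {U : ℕ → Finset ℕ} {τ : PoolIx} (h : τ ∈ pools r N k U) {i : ℕ}
    (hi : i ∈ cands k U τ) : i < k ∧ τ.1 ⊆ U i := by
  obtain ⟨h1, h2, h3, h4, h5, h6, h7⟩ := OmniEmb_pool h
  unfold cands at hi
  rw [mem_insert, mem_singleton] at hi
  rcases hi with rfl | rfl
  · exact ⟨h2, h4⟩
  · exact ⟨h6, h7⟩

lemma OmniEmb_poolsAt {r N k : ℕ} {U : ℕ → Finset ℕ} {C1 i : ℕ} (hU : (U i).card ≤ C1) :
    (poolsAt r N k U i).card ≤ 2 ^ C1 * N * 2 := by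
  have h1 : (poolsAt r N k U i).card ≤ ((U i).powerset ×ˢ range N ×ˢ range 2).card := by
    apply card_le_card_of_injOn (fun τ => (τ.1, τ.2.2, if τ.2.1 = i then 0 else 1))
    · intro τ hτ
      have hτ' := mem_filter.mp (mem_coe.mp hτ)
      obtain ⟨h1, h2, h3, h4, h5, h6, h7⟩ := OmniEmb_pool hτ'.1
      have h8 := OmniEmb_cand hτ'.1 hτ'.2
      apply mem_coe.mpr
      simp only [mem_product, mem_powerset, mem_range]
      refine ⟨h8.2, h3, ?_⟩
      split_ifs <;> norm_num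
    · rintro ⟨e, j, l⟩ hτ ⟨e', j', l'⟩ hτ' he
      have a := mem_filter.mp (mem_coe.mp hτ)
      have a' := mem_filter.mp (mem_coe.mp hτ')
      obtain ⟨h1, h2, h3, h4, h5, h6, h7⟩ := OmniEmb_pool a.1
      obtain ⟨h1', h2', h3', h4', h5', h6', h7'⟩ := OmniEmb_pool a'.1
      have hc := a.2
      have hc' := a'.2
      unfold cands at hc hc'
      rw [mem_insert, mem_singleton] at hc hc'
      simp only [Prod.mk.injEq] at he h1 h2 h3 h4 h5 h6 h7 h1' h2' h3' h4' h5' h6' h7' hc hc' ⊢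
      obtain ⟨rfl, rfl, he3⟩ := he
      refine ⟨rfl, ?_, rfl⟩
      by_cases hj : j = i
      · by_cases hj' : j' = i
        · rw [hj, hj']
        · rw [if_pos hj, if_neg hj'] at he3
          exact absurd he3 (by norm_num)
      · by_cases hj' : j' = i
        · rw [if_neg hj, if_pos hj'] at he3
          exact absurd he3 (by norm_num)
        · have hc := hc.resolve_left (fun h => hj h.symm)
          have hc' := hc'.resolve_left (fun h => hj' h.symm)
          rcases lt_trichotomy j j' with hlt | heq | hgt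
          · exfalso
            have : nxt k U e j ≤ j' := Nat.sInf_le ⟨hlt, h2', h4'⟩
            omega
          · exact heq
          · exfalso
            have : nxt k U e j' ≤ j := Nat.sInf_le ⟨hgt, h2, h4⟩
            omega
  rw [card_product, card_product, card_powerset, card_range, card_range] at h1
  have h2 : 2 ^ (U i).card ≤ 2 ^ C1 := Nat.pow_le_pow_right (by norm_num) hU
  calc (poolsAt r N k U i).card ≤ 2 ^ (U i).card * (N * 2) := h1
    _ ≤ 2 ^ C1 * (N * 2) := Nat.mul_le_mul_right _ h2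
    _ = _ := by ring

/-- specialisation of `emb` to `Γ = 2`, universes `range n \ Y t`. -/
lemma OmniEmb_emb2 (r c Cy Cm : ℕ) (hr : 1 ≤ r) (hc : 1 ≤ c) : ∃ K : ℝ, 1 ≤ K ∧
    ∀ (n : ℕ) (ι κ : Type) [DecidableEq ι] [DecidableEq κ] (T : Finset ι) (Y : ι → Finset ℕ)
      (Mk : Finset κ) (tk : κ → ι) (Ym : κ → Finset ℕ) (F : Finset (Finset ℕ)) (ε : ℝ),
      0 < ε → K * ε ≤ 1 → K * Real.log ((n : ℝ) + 1) ≤ ε * n → 2 * Cy ≤ n →
      (∀ t ∈ T, Y t ⊆ range n ∧ (Y t).card ≤ Cy) →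
      (∀ μ ∈ Mk, tk μ ∈ T ∧ Ym μ ⊆ range n) →
      (∀ t ∈ T, (Mk.filter (fun μ => tk μ = t)).card ≤ Cm) →
      F ⊆ powersetCard r (range n) → DegLe (r - 1) F (ε * n) →
      (∀ h : Finset ℕ, h.card < r →
        ((T.filter (fun t => h ⊆ Y t)).card : ℝ) ≤ ε * (n : ℝ) ^ (r - h.card)) →
      (∀ h : Finset ℕ, h.card < r →
        ((Mk.filter (fun μ => h ⊆ Ym μ)).card : ℝ) ≤ ε * (n : ℝ) ^ (r - h.card)) →
      ∃ Z : ι → Finset ℕ, (∀ t ∈ T, Z t ⊆ range n ∧ Disjoint (Y t) (Z t) ∧ (Z t).card = c) ∧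
        (∀ t ∈ T, Disjoint (claim r (Y t) (Z t)) F) ∧
        (∀ t ∈ T, ∀ t' ∈ T, t ≠ t' →
          Disjoint (claim r (Y t) (Z t)) (claim r (Y t') (Z t'))) ∧
        DegLe (r - 1) (T.biUnion (fun t => claim r (Y t) (Z t))) (K * ε * n) ∧
        ∀ h' h'' : Finset ℕ, h'.card + h''.card < r →
          ((Mk.filter (fun μ => h' ⊆ Ym μ ∧ h'' ⊆ Z (tk μ))).card : ℝ) ≤
            K * ε * (n : ℝ) ^ (r - h'.card - h''.card) := by
  obtain ⟨Kc, hKc, H⟩ := emb r c Cy Cm hr hc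
  have hpow : (1 : ℝ) ≤ 2 ^ (2 * r) := one_le_pow₀ (by norm_num)
  have hpow2 : (2 : ℝ) ^ r ≤ 2 ^ (2 * r) := pow_le_pow_right₀ (by norm_num) (by omega)
  refine ⟨Kc * 2 ^ (2 * r), by nlinarith, ?_⟩
  intro n ι κ _ _ T Y Mk tk Ym F ε hε hKε hKlog hn hY htk hCm hF hFd hT hMk
  have hlog : 0 ≤ Real.log ((n : ℝ) + 1) := Real.log_nonneg (by
    have : (0 : ℝ) ≤ n := Nat.cast_nonneg n
    linarith)
  obtain ⟨Z, hZ1, hZ2, hZ3, hZ4, hZ5⟩ := H n ι κ T Y (fun t => range n \ Y t) Mk tk Ym F 2 ε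
    (by norm_num) hε hKε (le_trans (by
      have : Kc ≤ Kc * 2 ^ (2 * r) := by nlinarith
      gcongr) hKlog)
    (fun t ht => ⟨(hY t ht).1, (hY t ht).2, sdiff_subset, sdiff_disjoint, by
      have h1 := (hY t ht).2
      have h2 : (range n \ Y t).card = n - (Y t).card := by
        rw [card_sdiff_of_subset (hY t ht).1, card_range]
      rw [h2]
      have h3 : n ≤ 2 * (n - (Y t).card) := by omega
      exact_mod_cast h3⟩)
    htk hCm hF hFd hT hMk
  have hK2 : Kc * 2 ^ r * ε ≤ Kc * 2 ^ (2 * r) * ε := by gcongr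
  refine ⟨Z, fun t ht => ⟨(hZ1 t ht).1.trans sdiff_subset, ?_, (hZ1 t ht).2⟩, hZ2, hZ3, ?_, ?_⟩
  · exact (disjoint_sdiff).mono_right (hZ1 t ht).1
  · intro S hS
    refine (hZ4 S hS).trans ?_
    gcongr
  · intro h' h'' hh
    refine (hZ5 h' h'' hh).trans ?_
    gcongr

lemma OmniEmb_claim_sub {r n : ℕ} {Y Z : Finset ℕ} (hY : Y ⊆ range n) (hZ : Z ⊆ range n) :
    claim r Y Z ⊆ powersetCard r (range n) := by
  intro e he
  rw [mem_claim] at he
  exact mem_powersetCard.mpr ⟨he.1.trans (union_subset hY hZ), he.2.1⟩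

lemma OmniEmb_claim_mono {r : ℕ} {Y Z Y' Z' : Finset ℕ} (hY : Y ⊆ Y') (hZ : Z ⊆ Z') :
    claim r Y Z ⊆ claim r Y' Z' := by
  intro e he
  rw [mem_claim] at he ⊢
  exact ⟨he.1.trans (union_subset_union hY hZ), he.2.1,
    fun h => he.2.2 (h.mono_right hZ)⟩

lemma OmniEmb_deg_union {s : ℕ} {F G : Finset (Finset ℕ)} {b b' : ℝ} (h : DegLe s F b)
    (h' : DegLe s G b') : DegLe s (F ∪ G) (b + b') := by
  intro S hS
  have h1 := h S hS
  have h2 := h' S hS
  rw [filter_union]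
  have h3 : (((F.filter (fun e => S ⊆ e)) ∪ (G.filter (fun e => S ⊆ e))).card : ℝ) ≤
      ((F.filter (fun e => S ⊆ e)).card : ℝ) + ((G.filter (fun e => S ⊆ e)).card : ℝ) := by
    exact_mod_cast card_union_le _ _
  linarith

lemma OmniEmb_deg_mono {s : ℕ} {F G : Finset (Finset ℕ)} {b b' : ℝ} (h : DegLe s F b)
    (hG : G ⊆ F) (hb : b ≤ b') : DegLe s G b' := by
  intro S hS
  have h1 := h S hS
  have h2 : ((G.filter (fun e => S ⊆ e)).card : ℝ) ≤ ((F.filter (fun e => S ⊆ e)).card : ℝ) := by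
    exact_mod_cast card_le_card (filter_subset_filter _ hG)
  linarith

lemma OmniEmb_R12 {q r : ℕ} (hr : 1 ≤ r) (hrq : r < q) (C1 : ℕ) :
    ∃ (K : ℝ) (m0 : ℕ), 1 ≤ K ∧ ∃ n1 : ℕ, ∀ n ≥ n1, ∀ (k : ℕ) (U : ℕ → Finset ℕ)
      (Av : Finset (Finset ℕ)) (ε : ℝ), 0 < ε → K * ε ≤ 1 → K * Real.log ((n : ℝ) + 1) ≤ ε * n →
      (∀ j < k, U j ⊆ range n ∧ r ≤ (U j).card ∧ (U j).card ≤ C1) →
      Av ⊆ powersetCard r (range n) → DegLe (r - 1) Av (ε * n) →
      (∀ S : Finset ℕ, S.card + 1 = r →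
        (((range k).filter (fun j => S ⊆ U j)).card : ℝ) ≤ ε * n) →
      ∃ (Zp : PoolIx → Finset ℕ) (Zb : ℕ → Finset ℕ) (bl : ℕ → PoolIx → Finset ℕ)
        (Cl : Finset (Finset ℕ)),
        (∀ τ ∈ pools r (Md q r) k U, Zp τ ⊆ range n ∧ Disjoint τ.1 (Zp τ) ∧ (Zp τ).card = q - r) ∧
        (∀ i < k, Zb i ⊆ range n ∧ Disjoint (U i) (Zb i) ∧ (Zb i).card = (q - r) * m0) ∧
        (∀ i < k, ∀ τ ∈ poolsAt r (Md q r) k U i, bl i τ ⊆ Zb i ∧ (bl i τ).card = q - r) ∧
        (∀ i < k, ∀ τ ∈ poolsAt r (Md q r) k U i, ∀ τ' ∈ poolsAt r (Md q r) k U i, τ ≠ τ' →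
          Disjoint (bl i τ) (bl i τ')) ∧
        Cl ⊆ powersetCard r (range n) ∧ Disjoint Cl Av ∧ DegLe (r - 1) Cl (K * ε * n) ∧
        (∀ τ ∈ pools r (Md q r) k U, claim r τ.1 (Zp τ) ⊆ Cl) ∧
        (∀ i < k, ∀ τ ∈ poolsAt r (Md q r) k U i, claim r τ.1 (bl i τ) ⊆ Cl) ∧
        (∀ τ ∈ pools r (Md q r) k U, ∀ τ' ∈ pools r (Md q r) k U, τ ≠ τ' →
          Disjoint (claim r τ.1 (Zp τ)) (claim r τ'.1 (Zp τ'))) ∧
        (∀ i < k, ∀ τ ∈ poolsAt r (Md q r) k U i, ∀ i' < k, ∀ τ' ∈ poolsAt r (Md q r) k U i',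
          (i ≠ i' ∨ τ ≠ τ') → Disjoint (claim r τ.1 (bl i τ)) (claim r τ'.1 (bl i' τ'))) ∧
        (∀ τ ∈ pools r (Md q r) k U, ∀ i < k, ∀ τ' ∈ poolsAt r (Md q r) k U i,
          Disjoint (claim r τ.1 (Zp τ)) (claim r τ'.1 (bl i τ'))) ∧
        (∀ h : Finset ℕ, h.card < r →
          ((((range k).sigma (fun i => poolsAt r (Md q r) k U i)).filter
            (fun x => h ⊆ x.2.1 ∪ Zp x.2 ∪ bl x.1 x.2)).card : ℝ) ≤
            K * ε * (n : ℝ) ^ (r - h.card)) ∧
        (∀ h : Finset ℕ, h.card < r →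
          (((range k).filter (fun i => h ⊆ U i ∪ Zb i)).card : ℝ) ≤
            K * ε * (n : ℝ) ^ (r - h.card)) := by
  obtain ⟨K1, hK1, E1⟩ := OmniEmb_emb2 r (q - r) r 2 hr (by omega)
  set m0 : ℕ := 2 ^ C1 * Md q r * 2 with hm0
  have hm0pos : 1 ≤ m0 := by
    have := Md_pos (q := q) (r := r) hrq.le
    have h2 : 0 < 2 ^ C1 := by positivity
    have : 0 < m0 := by positivity
    exact this
  obtain ⟨K2, hK2, E2⟩ := OmniEmb_emb2 r ((q - r) * m0) C1 (m0 + 1) hr
    (Nat.mul_pos (by omega) hm0pos)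
  have hM : (1 : ℝ) ≤ (m0 : ℝ) := by exact_mod_cast hm0pos
  have hP : (2 : ℝ) ≤ 2 ^ r := by
    calc (2 : ℝ) = 2 ^ 1 := (pow_one _).symm
      _ ≤ 2 ^ r := pow_le_pow_right₀ (by norm_num) hr
  have hP1 : (1 : ℝ) ≤ 2 ^ r := by linarith
  have hKK : K1 ≤ 2 ^ r * K2 * (2 * 2 ^ r * K1 * m0) ∧ K2 ≤ 2 ^ r * K2 * (2 * 2 ^ r * K1 * m0) := by
    have h1 : (1 : ℝ) ≤ 2 ^ r * K2 := one_le_mul_of_one_le_of_one_le hP1 hK2
    have h2 : (1 : ℝ) ≤ 2 * 2 ^ r := by linarith
    have h3 : K1 ≤ 2 * 2 ^ r * K1 * m0 := by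
      have : K1 ≤ 2 * 2 ^ r * K1 := by nlinarith
      nlinarith
    constructor
    · nlinarith
    · have h4 : K2 ≤ 2 ^ r * K2 := by nlinarith
      nlinarith
  refine ⟨2 ^ r * K2 * (2 * 2 ^ r * K1 * m0), m0, by linarith [hKK.1], 2 * r + 2 * C1, ?_⟩
  intro n hn k U Av ε hε hKε hKlog hU hAv hAvd hloc
  set ε1 : ℝ := m0 * ε with hε1
  set ε2 : ℝ := 2 * 2 ^ r * K1 * ε1 with hε2
  have hKε2 : 2 ^ r * K2 * (2 * 2 ^ r * K1 * m0) * ε = 2 ^ r * (K2 * ε2) := by
    rw [hε2, hε1]; ring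
  rw [hKε2] at hKε
  have e0 : ε ≤ ε1 := by rw [hε1]; nlinarith
  have e0' : 0 < ε1 := by linarith
  have e1 : ε1 ≤ K1 * ε1 := by nlinarith
  have e2 : 2 * (K1 * ε1) ≤ ε2 := by
    rw [hε2]
    have : 0 ≤ K1 * ε1 := by nlinarith
    nlinarith
  have e2s : 2 ^ r * (K1 * ε1) + 2 ^ r * (K1 * ε1) = ε2 := by rw [hε2]; ring
  have e2' : 0 < ε2 := by linarith
  have e3 : ε2 ≤ K2 * ε2 := by nlinarith
  have e4 : 2 * (K2 * ε2) ≤ 2 ^ r * (K2 * ε2) := by nlinarith
  have hn0 : (0 : ℝ) ≤ n := Nat.cast_nonneg n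
  have hlog : 0 ≤ Real.log ((n : ℝ) + 1) := Real.log_nonneg (by linarith)
  have l1 : K1 * Real.log ((n : ℝ) + 1) ≤ ε1 * n := by
    calc K1 * Real.log ((n : ℝ) + 1)
        ≤ 2 ^ r * K2 * (2 * 2 ^ r * K1 * m0) * Real.log ((n : ℝ) + 1) :=
          mul_le_mul_of_nonneg_right hKK.1 hlog
      _ ≤ ε * n := hKlog
      _ ≤ ε1 * n := mul_le_mul_of_nonneg_right e0 hn0
  have l2 : K2 * Real.log ((n : ℝ) + 1) ≤ ε2 * n := by
    calc K2 * Real.log ((n : ℝ) + 1)
        ≤ 2 ^ r * K2 * (2 * 2 ^ r * K1 * m0) * Real.log ((n : ℝ) + 1) :=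
          mul_le_mul_of_nonneg_right hKK.2 hlog
      _ ≤ ε * n := hKlog
      _ ≤ ε2 * n := mul_le_mul_of_nonneg_right (by linarith) hn0
  set pl := pools r (Md q r) k U with hpl
  set Inc := (range k).sigma (fun i => poolsAt r (Md q r) k U i) with hInc
  have hcntU : ∀ h : Finset ℕ, h.card < r →
      (((range k).filter (fun j => h ⊆ U j)).card : ℝ) ≤ ε * (n : ℝ) ^ (r - h.card) :=
    OmniEmb_cnt hr (fun j hj => ⟨(hU j hj).1, (hU j hj).2.1⟩) hloc
  have hpa : ∀ i < k, (poolsAt r (Md q r) k U i).card ≤ m0 :=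
    fun i hi => OmniEmb_poolsAt (hU i hi).2.2
  have hcntI : ∀ h : Finset ℕ, h.card < r →
      ((Inc.filter (fun x => h ⊆ U x.1)).card : ℝ) ≤ ε1 * (n : ℝ) ^ (r - h.card) := by
    intro h hh
    have h1 := OmniEmb_sig (k := k) (fun i => poolsAt r (Md q r) k U i) m0 hpa (fun i => h ⊆ U i)
    have h2 : ((Inc.filter (fun x => h ⊆ U x.1)).card : ℝ) ≤
        m0 * (((range k).filter (fun j => h ⊆ U j)).card : ℝ) := by exact_mod_cast h1
    calc ((Inc.filter (fun x => h ⊆ U x.1)).card : ℝ)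
        ≤ m0 * (((range k).filter (fun j => h ⊆ U j)).card : ℝ) := h2
      _ ≤ m0 * (ε * (n : ℝ) ^ (r - h.card)) :=
          mul_le_mul_of_nonneg_left (hcntU h hh) (by positivity)
      _ = _ := by rw [hε1]; ring
  have hcntP : ∀ h : Finset ℕ, h.card < r →
      ((pl.filter (fun τ => h ⊆ τ.1)).card : ℝ) ≤ ε1 * (n : ℝ) ^ (r - h.card) := by
    intro h hh
    refine le_trans ?_ (hcntI h hh)
    have : (pl.filter (fun τ => h ⊆ τ.1)).card ≤ (Inc.filter (fun x => h ⊆ U x.1)).card := by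
      apply card_le_card_of_injOn (fun τ => (⟨τ.2.1, τ⟩ : (_ : ℕ) × PoolIx))
      · intro τ hτ
        have hτ' := mem_filter.mp (mem_coe.mp hτ)
        obtain ⟨h1, h2, h3, h4, h5, h6, h7⟩ := OmniEmb_pool hτ'.1
        apply mem_coe.mpr
        rw [mem_filter, hInc, mem_sigma, mem_range]
        refine ⟨⟨h2, ?_⟩, hτ'.2.trans h4⟩
        unfold poolsAt cands
        rw [mem_filter]
        exact ⟨hτ'.1, by simp⟩
      · intro τ _ τ' _ he
        simp only [Sigma.mk.injEq, heq_eq_eq] at he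
        exact he.2
    exact_mod_cast this
  have hfib : ∀ τ ∈ pl, (Inc.filter (fun x => x.2 = τ)).card ≤ 2 := by
    intro τ hτ
    have h1 : (Inc.filter (fun x => x.2 = τ)).card ≤ (cands k U τ).card := by
      apply card_le_card_of_injOn (fun x => x.1)
      · intro x hx
        have hx' := mem_filter.mp (mem_coe.mp hx)
        have hx2 := (mem_sigma.mp hx'.1).2
        unfold poolsAt at hx2
        rw [mem_filter] at hx2
        apply mem_coe.mpr
        rw [← hx'.2]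
        exact hx2.2
      · rintro ⟨i, τ1⟩ hx ⟨i', τ2⟩ hx' he
        have a := (mem_filter.mp (mem_coe.mp hx)).2
        have a' := (mem_filter.mp (mem_coe.mp hx')).2
        simp only at he a a'
        rw [he, a, a']
    refine h1.trans ?_
    unfold cands
    exact card_le_two
  have hplI : ∀ x ∈ Inc, x.2 ∈ pl ∧ x.2.1 ⊆ U x.1 ∧ x.1 < k := by
    intro x hx
    rw [hInc, mem_sigma, mem_range] at hx
    have h2 := hx.2
    unfold poolsAt at h2
    rw [mem_filter] at h2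
    exact ⟨h2.1, (OmniEmb_cand h2.1 h2.2).2, hx.1⟩
  have hplr : ∀ τ ∈ pl, τ.1 ⊆ range n ∧ τ.1.card ≤ r := by
    intro τ hτ
    obtain ⟨h1, h2, h3, h4, h5, h6, h7⟩ := OmniEmb_pool hτ
    exact ⟨h4.trans (hU _ h2).1, h1.le⟩
  -- round 1
  obtain ⟨Zp, hZ1, hZ2, hZ3, hZ4, hZ5⟩ := E1 n PoolIx ((_ : ℕ) × PoolIx) pl (fun τ => τ.1) Inc
    (fun x => x.2) (fun x => U x.1) Av ε1 e0' (by linarith) l1 (by omega) hplr
    (fun x hx => ⟨(hplI x hx).1, (hU x.1 (hplI x hx).2.2).1⟩) hfib hAv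
    (OmniEmb_deg_mono hAvd (le_refl _) (mul_le_mul_of_nonneg_right e0 hn0)) hcntP hcntI
  set Cl1 := pl.biUnion (fun t => claim r t.1 (Zp t)) with hCl1
  have hCl1s : Cl1 ⊆ powersetCard r (range n) := by
    intro e he
    obtain ⟨τ, hτ, he⟩ := mem_biUnion.mp he
    exact OmniEmb_claim_sub (hplr τ hτ).1 (hZ1 τ hτ).1 he
  have hCl1A : Disjoint Cl1 Av := by
    rw [hCl1, disjoint_biUnion_left]
    exact hZ2
  -- round 2
  have hcntM : ∀ h : Finset ℕ, h.card < r →
      (((((range k).disjSum Inc).filter (fun μ => h ⊆ Sum.elim U (fun x => U x.1 ∪ Zp x.2) μ)).card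
        : ℕ) : ℝ) ≤ ε2 * (n : ℝ) ^ (r - h.card) := by
    intro h hh
    have h1 := OmniEmb_split (r := r) (n := n) Inc (fun x => U x.1) (fun x => Zp x.2)
      (b := K1 * ε1) (by linarith) hZ5 h hh
    have h2 := hcntU h hh
    have h3 : ((range k).disjSum Inc).filter
        (fun μ => h ⊆ Sum.elim U (fun x => U x.1 ∪ Zp x.2) μ) =
        ((range k).filter (fun j => h ⊆ U j)).disjSum
          (Inc.filter (fun x => h ⊆ U x.1 ∪ Zp x.2)) := by
      ext x
      rcases x with x | x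
      · simp [mem_filter]
      · simp [mem_filter]
    rw [h3, card_disjSum]
    push_cast
    have h4 : (0 : ℝ) ≤ (n : ℝ) ^ (r - h.card) := by positivity
    calc (((range k).filter (fun j => h ⊆ U j)).card : ℝ) +
          ((Inc.filter (fun x => h ⊆ U x.1 ∪ Zp x.2)).card : ℝ)
        ≤ ε * (n : ℝ) ^ (r - h.card) + 2 ^ r * (K1 * ε1) * (n : ℝ) ^ (r - h.card) :=
          add_le_add h2 h1
      _ ≤ (2 ^ r * (K1 * ε1)) * (n : ℝ) ^ (r - h.card) +
          2 ^ r * (K1 * ε1) * (n : ℝ) ^ (r - h.card) := by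
          have : ε ≤ 2 ^ r * (K1 * ε1) := by nlinarith
          have := mul_le_mul_of_nonneg_right this h4
          linarith
      _ = ε2 * (n : ℝ) ^ (r - h.card) := by rw [← e2s]; ring
  obtain ⟨Zb, hB1, hB2, hB3, hB4, hB5⟩ := E2 n ℕ (ℕ ⊕ ((_ : ℕ) × PoolIx)) (range k) U
    ((range k).disjSum Inc) (Sum.elim id (fun x => x.1))
    (Sum.elim U (fun x => U x.1 ∪ Zp x.2)) (Av ∪ Cl1) ε2 e2' (by linarith) l2 (by omega)
    (fun i hi => ⟨(hU i (mem_range.mp hi)).1, (hU i (mem_range.mp hi)).2.2⟩)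
    (by
      intro μ hμ
      rcases μ with μ | μ
      · have := inl_mem_disjSum.mp hμ
        exact ⟨this, (hU μ (mem_range.mp this)).1⟩
      · have := inr_mem_disjSum.mp hμ
        exact ⟨mem_range.mpr (hplI μ this).2.2,
          union_subset (hU μ.1 (hplI μ this).2.2).1 (hZ1 μ.2 (hplI μ this).1).1⟩)
    (by
      intro i hi
      have h3 : ((range k).disjSum Inc).filter
          (fun μ => Sum.elim id (fun x : (_ : ℕ) × PoolIx => x.1) μ = i) ⊆
          ({i} : Finset ℕ).disjSum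
            ((poolsAt r (Md q r) k U i).image (fun τ => (⟨i, τ⟩ : (_ : ℕ) × PoolIx))) := by
        intro x hx
        rw [mem_filter] at hx
        rcases x with x | ⟨j, τ⟩
        · rw [inl_mem_disjSum, mem_singleton]
          exact hx.2
        · have h5 : j = i := hx.2
          subst h5
          rw [inr_mem_disjSum, mem_image]
          have := inr_mem_disjSum.mp hx.1
          rw [hInc, mem_sigma] at this
          exact ⟨τ, this.2, rfl⟩
      have h4 := card_le_card h3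
      rw [card_disjSum, card_singleton] at h4
      have h5 : ((poolsAt r (Md q r) k U i).image
          (fun τ => (⟨i, τ⟩ : (_ : ℕ) × PoolIx))).card ≤ m0 :=
        card_image_le.trans (hpa i (mem_range.mp hi))
      omega)
    (union_subset hAv hCl1s)
    (OmniEmb_deg_mono (OmniEmb_deg_union hAvd hZ4) (le_refl _) (by
      have : ε * n + K1 * ε1 * n = (ε + K1 * ε1) * n := by ring
      rw [this]
      exact mul_le_mul_of_nonneg_right (by linarith) hn0))
    (by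
      intro h hh
      refine (hcntU h hh).trans ?_
      exact mul_le_mul_of_nonneg_right (by linarith) (by positivity))
    hcntM
  have hbl0 : ∀ i, ∃ bl : PoolIx → Finset ℕ, i < k →
      (∀ τ ∈ poolsAt r (Md q r) k U i, bl τ ⊆ Zb i ∧ (bl τ).card = q - r) ∧
      ∀ τ ∈ poolsAt r (Md q r) k U i, ∀ τ' ∈ poolsAt r (Md q r) k U i, τ ≠ τ' →
        Disjoint (bl τ) (bl τ') := by
    intro i
    by_cases hi : i < k
    · obtain ⟨bl, h1, h2⟩ := OmniEmb_blocks (poolsAt r (Md q r) k U i) (Zb i) (q - r) (by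
        rw [(hB1 i (mem_range.mpr hi)).2.2]
        exact Nat.mul_le_mul_left _ (hpa i hi))
      exact ⟨bl, fun _ => ⟨h1, h2⟩⟩
    · exact ⟨fun _ => ∅, fun h => absurd h hi⟩
  choose bl hbl using hbl0
  set Cl2 := (range k).biUnion (fun t => claim r (U t) (Zb t)) with hCl2
  have hCl2s : Cl2 ⊆ powersetCard r (range n) := by
    intro e he
    obtain ⟨i, hi, he⟩ := mem_biUnion.mp he
    exact OmniEmb_claim_sub (hU i (mem_range.mp hi)).1 (hB1 i hi).1 he
  have hCl2A : Disjoint Cl2 (Av ∪ Cl1) := by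
    rw [hCl2, disjoint_biUnion_left]
    exact hB2
  have hpe : ∀ i < k, ∀ τ ∈ poolsAt r (Md q r) k U i, τ ∈ pl ∧ τ.1 ⊆ U i := by
    intro i hi τ hτ
    unfold poolsAt at hτ
    rw [mem_filter] at hτ
    exact ⟨hτ.1, (OmniEmb_cand hτ.1 hτ.2).2⟩
  have hsub2 : ∀ i < k, ∀ τ ∈ poolsAt r (Md q r) k U i,
      claim r τ.1 (bl i τ) ⊆ claim r (U i) (Zb i) := by
    intro i hi τ hτ
    exact OmniEmb_claim_mono (hpe i hi τ hτ).2 ((hbl i hi).1 τ hτ).1
  have hsub2' : ∀ i < k, ∀ τ ∈ poolsAt r (Md q r) k U i, claim r τ.1 (bl i τ) ⊆ Cl2 := by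
    intro i hi τ hτ
    exact (hsub2 i hi τ hτ).trans
      (subset_biUnion_of_mem (fun t => claim r (U t) (Zb t)) (mem_range.mpr hi))
  have hsub1 : ∀ τ ∈ pl, claim r τ.1 (Zp τ) ⊆ Cl1 := by
    intro τ hτ
    exact subset_biUnion_of_mem (fun t : PoolIx => claim r t.1 (Zp t)) hτ
  refine ⟨Zp, Zb, bl, Cl1 ∪ Cl2, hZ1, fun i hi => hB1 i (mem_range.mpr hi),
    fun i hi => (hbl i hi).1, fun i hi => (hbl i hi).2, union_subset hCl1s hCl2s, ?_, ?_,
    fun τ hτ => (hsub1 τ hτ).trans subset_union_left,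
    fun i hi τ hτ => (hsub2' i hi τ hτ).trans subset_union_right, hZ3, ?_, ?_, ?_, ?_⟩
  · rw [disjoint_union_left]
    exact ⟨hCl1A, hCl2A.mono_right subset_union_left⟩
  · rw [hKε2]
    refine OmniEmb_deg_mono (OmniEmb_deg_union hZ4 hB4) (le_refl _) ?_
    have h1 : K1 * ε1 * n + K2 * ε2 * n = (K1 * ε1 + K2 * ε2) * n := by ring
    rw [h1]
    exact mul_le_mul_of_nonneg_right (by linarith) hn0
  · intro i hi τ hτ i' hi' τ' hτ' hne
    by_cases hii : i = i'
    · subst hii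
      have hne' : τ ≠ τ' := hne.resolve_left (fun h => h rfl)
      have hd := (hbl i hi).2 τ hτ τ' hτ' hne'
      rw [disjoint_left]
      intro e he he'
      rw [mem_claim] at he he'
      obtain ⟨x, hx, hx2⟩ := not_disjoint_iff.mp he.2.2
      have h1 : x ∉ bl i τ' := (disjoint_left.mp hd) hx2
      have h2 : x ∉ τ'.1 := by
        intro h3
        have h4 : x ∈ U i := (hpe i hi τ' hτ').2 h3
        have h5 : x ∈ Zb i := ((hbl i hi).1 τ hτ).1 hx2
        exact (disjoint_left.mp (hB1 i (mem_range.mpr hi)).2.1) h4 h5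
      rcases mem_union.mp (he'.1 hx) with h3 | h3
      · exact h2 h3
      · exact h1 h3
    · exact (hB3 i (mem_range.mpr hi) i' (mem_range.mpr hi') hii).mono (hsub2 i hi τ hτ)
        (hsub2 i' hi' τ' hτ')
  · intro τ hτ i hi τ' hτ'
    exact (hCl2A.symm.mono_left subset_union_right).mono (hsub1 τ hτ) (hsub2' i hi τ' hτ')
  · intro h hh
    rw [hKε2]
    have h0 : ∀ h' h'' : Finset ℕ, h'.card + h''.card < r →
        ((Inc.filter (fun μ => h' ⊆ U μ.1 ∪ Zp μ.2 ∧ h'' ⊆ Zb μ.1)).card : ℝ) ≤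
          K2 * ε2 * (n : ℝ) ^ (r - h'.card - h''.card) := by
      intro h' h'' hhh
      refine le_trans ?_ (hB5 h' h'' hhh)
      have : (Inc.filter (fun μ => h' ⊆ U μ.1 ∪ Zp μ.2 ∧ h'' ⊆ Zb μ.1)).card ≤
          (((range k).disjSum Inc).filter
            (fun μ => h' ⊆ Sum.elim U (fun x : (_ : ℕ) × PoolIx => U x.1 ∪ Zp x.2) μ ∧
              h'' ⊆ Zb (Sum.elim id (fun x : (_ : ℕ) × PoolIx => x.1) μ))).card := by
        apply card_le_card_of_injOn Sum.inr
        · intro x hx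
          have hx' := mem_filter.mp (mem_coe.mp hx)
          apply mem_coe.mpr
          rw [mem_filter]
          exact ⟨inr_mem_disjSum.mpr hx'.1, hx'.2⟩
        · intro x _ y _ hxy
          exact Sum.inr_injective hxy
      exact_mod_cast this
    have h1 := OmniEmb_split (r := r) (n := n) Inc (fun x => U x.1 ∪ Zp x.2) (fun x => Zb x.1)
      (b := K2 * ε2) (by linarith) h0 h hh
    have h2 : (Inc.filter (fun x => h ⊆ x.2.1 ∪ Zp x.2 ∪ bl x.1 x.2)).card ≤
        (Inc.filter (fun x => h ⊆ U x.1 ∪ Zp x.2 ∪ Zb x.1)).card := by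
      apply card_le_card
      intro x hx
      rw [mem_filter] at hx ⊢
      refine ⟨hx.1, hx.2.trans ?_⟩
      have h3 := hplI x hx.1
      have h4 : x.2 ∈ poolsAt r (Md q r) k U x.1 := by
        have := hx.1
        rw [hInc, mem_sigma] at this
        exact this.2
      exact union_subset_union (union_subset_union h3.2.1 (le_refl _))
        ((hbl x.1 h3.2.2).1 x.2 h4).1
    have h3 : ((Inc.filter (fun x => h ⊆ x.2.1 ∪ Zp x.2 ∪ bl x.1 x.2)).card : ℝ) ≤
        ((Inc.filter (fun x => h ⊆ U x.1 ∪ Zp x.2 ∪ Zb x.1)).card : ℝ) := by exact_mod_cast h2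
    exact h3.trans h1
  · intro h hh
    rw [hKε2]
    have h0 : ∀ h' h'' : Finset ℕ, h'.card + h''.card < r →
        (((range k).filter (fun i => h' ⊆ U i ∧ h'' ⊆ Zb i)).card : ℝ) ≤
          K2 * ε2 * (n : ℝ) ^ (r - h'.card - h''.card) := by
      intro h' h'' hhh
      refine le_trans ?_ (hB5 h' h'' hhh)
      have : ((range k).filter (fun i => h' ⊆ U i ∧ h'' ⊆ Zb i)).card ≤
          (((range k).disjSum Inc).filter
            (fun μ => h' ⊆ Sum.elim U (fun x : (_ : ℕ) × PoolIx => U x.1 ∪ Zp x.2) μ ∧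
              h'' ⊆ Zb (Sum.elim id (fun x : (_ : ℕ) × PoolIx => x.1) μ))).card := by
        apply card_le_card_of_injOn Sum.inl
        · intro x hx
          have hx' := mem_filter.mp (mem_coe.mp hx)
          apply mem_coe.mpr
          rw [mem_filter]
          exact ⟨inl_mem_disjSum.mpr hx'.1, hx'.2⟩
        · intro x _ y _ hxy
          exact Sum.inl_injective hxy
      exact_mod_cast this
    exact OmniEmb_split (r := r) (n := n) (range k) U Zb (b := K2 * ε2) (by linarith) h0 h hh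

/-- embedding of absorbers. -/
lemma OmniEmb_abs {q r : ℕ} (hr : 1 ≤ r) (hrq : r < q) (Cy : ℕ) : ∃ K : ℝ, 1 ≤ K ∧
    ∀ (n : ℕ) (ι : Type) [DecidableEq ι] (T : Finset ι) (Y : ι → Finset ℕ)
      (D0 D1 : ι → Finset (Finset ℕ)) (F : Finset (Finset ℕ)) (ε : ℝ),
      0 < ε → K * ε ≤ 1 → K * Real.log ((n : ℝ) + 1) ≤ ε * n → 2 * Cy ≤ n →
      (∀ t ∈ T, Y t ⊆ range n ∧ (Y t).card ≤ Cy) →
      (∀ t ∈ T, D0 t ⊆ powersetCard r (Y t) ∧ D1 t ⊆ powersetCard r (Y t) ∧
        Disjoint (D0 t) (D1 t) ∧ ind (D1 t) - ind (D0 t) ∈ Dv q r (powersetCard r (Y t))) →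
      F ⊆ powersetCard r (range n) → DegLe (r - 1) F (ε * n) →
      (∀ h : Finset ℕ, h.card < r →
        ((T.filter (fun t => h ⊆ Y t)).card : ℝ) ≤ ε * (n : ℝ) ^ (r - h.card)) →
      ∃ T' A B : ι → Finset (Finset ℕ), (∀ t ∈ T, T' t ⊆ powersetCard r (range n) ∧
        Disjoint (T' t) F ∧ (∀ Q ∈ A t ∪ B t, Q ⊆ range n ∧ Q.card = q) ∧
        vec r (A t) = ind (T' t) + ind (D0 t) ∧ vec r (B t) = ind (T' t) + ind (D1 t)) ∧
        (∀ t ∈ T, ∀ t' ∈ T, t ≠ t' → Disjoint (T' t) (T' t')) ∧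
        DegLe (r - 1) (T.biUnion T') (K * ε * n) := by
  obtain ⟨C3, hC3⟩ := abs2 (q := q) (r := r) hr hrq Cy
  obtain ⟨K, hK, H⟩ := OmniEmb_emb2 r (C3 + 1) Cy 0 hr (by omega)
  refine ⟨K, hK, ?_⟩
  intro n ι _ T Y D0 D1 F ε hε hKε hKlog hn hY hD hF hFd hT
  obtain ⟨Z, hZ1, hZ2, hZ3, hZ4, _⟩ := H n ι Empty T Y ∅ (fun x => x.elim) (fun _ => ∅) F ε hε
    hKε hKlog hn hY (fun x => x.elim) (fun t _ => by simp) hF hFd hT
    (fun h _ => by
      simp only [filter_empty, card_empty, Nat.cast_zero]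
      positivity)
  have hex : ∀ t, ∃ T' A B : Finset (Finset ℕ), t ∈ T → T' ⊆ claim r (Y t) (Z t) ∧
      (∀ Q ∈ A ∪ B, Q ⊆ Y t ∪ Z t ∧ Q.card = q) ∧
        vec r A = ind T' + ind (D0 t) ∧ vec r B = ind T' + ind (D1 t) := by
    intro t
    by_cases ht : t ∈ T
    · obtain ⟨T', A, B, h⟩ := hC3 (Y t) (Z t) (D0 t) (D1 t) (hZ1 t ht).2.1 (hY t ht).2
        (by rw [(hZ1 t ht).2.2]; omega) (hD t ht).1 (hD t ht).2.1 (hD t ht).2.2.1 (hD t ht).2.2.2
      exact ⟨T', A, B, fun _ => h⟩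
    · exact ⟨∅, ∅, ∅, fun h => absurd h ht⟩
  choose T' A B hTAB using hex
  refine ⟨T', A, B, ?_, ?_, ?_⟩
  · intro t ht
    obtain ⟨h1, h2, h3, h4⟩ := hTAB t ht
    refine ⟨h1.trans (OmniEmb_claim_sub (hY t ht).1 (hZ1 t ht).1), (hZ2 t ht).mono_left h1, ?_,
      h3, h4⟩
    intro Q hQ
    exact ⟨(h2 Q hQ).1.trans (union_subset (hY t ht).1 (hZ1 t ht).1), (h2 Q hQ).2⟩
  · intro t ht t' ht' hne
    exact (hZ3 t ht t' ht' hne).mono (hTAB t ht).1 (hTAB t' ht').1
  · refine OmniEmb_deg_mono hZ4 ?_ (le_refl _)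
    exact biUnion_mono (fun t ht => (hTAB t ht).1)

lemma OmniEmb_ind_biUnion {ι : Type*} [DecidableEq ι] (s : Finset ι)
    (f : ι → Finset (Finset ℕ)) (h : ∀ i ∈ s, ∀ j ∈ s, i ≠ j → Disjoint (f i) (f j)) :
    ind (s.biUnion f) = ∑ i ∈ s, ind (f i) := by
  induction s using Finset.induction_on with
  | empty =>
    rw [biUnion_empty, sum_empty]
    funext e
    simp [ind]
  | insert a s ha ih =>
    rw [biUnion_insert, ind_union, sum_insert ha, ih]
    · intro i hi j hj hij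
      exact h i (mem_insert_of_mem hi) j (mem_insert_of_mem hj) hij
    · rw [disjoint_biUnion_right]
      intro i hi
      exact h a (mem_insert_self _ _) i (mem_insert_of_mem hi) (fun he => ha (he ▸ hi))

lemma OmniEmb_ind_claim {r : ℕ} {e Z : Finset ℕ} (he : e.card = r) (hd : Disjoint e Z) :
    ind (claim r e Z) = K r (e ∪ Z) - ind {e} := by
  funext f
  simp only [Pi.sub_apply, ind, K, mem_claim, mem_singleton]
  by_cases h1 : f ⊆ e ∪ Z ∧ f.card = r
  · by_cases h2 : Disjoint f Z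
    · have h3 : f ⊆ e := by
        intro x hx
        rcases mem_union.mp (h1.1 hx) with h | h
        · exact h
        · exact absurd h ((disjoint_left.mp h2) hx)
      have h4 : f = e := eq_of_subset_of_card_le h3 (by omega)
      rw [if_neg (fun h => h.2.2 h2), if_pos h1, if_pos h4]
      norm_num
    · have h4 : f ≠ e := fun h => h2 (h ▸ hd)
      rw [if_pos ⟨h1.1, h1.2, h2⟩, if_pos h1, if_neg h4]
      norm_num
  · have h4 : f ≠ e := by
      rintro rfl
      exact h1 ⟨subset_union_left, he⟩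
    rw [if_neg (fun h => h1 ⟨h.1, h.2.1⟩), if_neg h1, if_neg h4]
    norm_num

lemma OmniEmb_mem_dvSets {q r : ℕ} {Y : Finset ℕ} {R : Finset (Finset ℕ)} :
    R ∈ dvSets q r Y ↔ R ⊆ powersetCard r Y ∧ ind R ∈ Dv q r (powersetCard r Y) := by
  classical
  unfold dvSets
  rw [mem_filter, mem_powerset]

lemma OmniEmb_card_dvSets {q r C : ℕ} {Y : Finset ℕ} (hY : Y.card ≤ C) :
    (dvSets q r Y).card ≤ 2 ^ (2 ^ C) := by
  classical
  unfold dvSets
  refine (card_filter_le _ _).trans ?_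
  rw [card_powerset, card_powersetCard]
  apply Nat.pow_le_pow_right (by norm_num)
  exact (Nat.choose_le_two_pow _ _).trans (Nat.pow_le_pow_right (by norm_num) hY)

theorem omni_emb {q r : ℕ} (hr : 1 ≤ r) (hrq : r < q) (C1 : ℕ) {c : ℝ} (hc : 0 < c) :
    ∃ ε0 : ℝ, 0 < ε0 ∧ ∃ n0 : ℕ, ∀ n ≥ n0, ∀ (k : ℕ) (U : ℕ → Finset ℕ)
      (Av : Finset (Finset ℕ)), (∀ j < k, U j ⊆ range n ∧ r ≤ (U j).card ∧ (U j).card ≤ C1) →
      Av ⊆ powersetCard r (range n) → DegLe (r - 1) Av (ε0 * n) →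
      (∀ S : Finset ℕ, S.card + 1 = r →
        (((range k).filter (fun j => S ⊆ U j)).card : ℝ) ≤ ε0 * n) →
      ∃ D : OmniData q r n k U Av, DegLe (r - 1) D.A (c * n) := by
  obtain ⟨Ka, m0, hKa, n1, H12⟩ := OmniEmb_R12 hr hrq C1
  obtain ⟨Kb, hKb, H3⟩ := OmniEmb_abs hr hrq (2 * q)
  obtain ⟨Kc, hKc, H4⟩ := OmniEmb_abs hr hrq (C1 + (q - r) * m0)
  set m4 : ℕ := 2 ^ (2 ^ (C1 + (q - r) * m0)) with hm4
  have hm4pos : (1 : ℝ) ≤ (m4 : ℝ) := by
    have : 0 < m4 := by rw [hm4]; positivity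
    exact_mod_cast this
  set μ : ℝ := min 1 c with hμ
  have hμ0 : 0 < μ := lt_min one_pos hc
  have hμ1 : μ ≤ 1 := min_le_left _ _
  have hμc : μ ≤ c := min_le_right _ _
  have hKa0 : 0 < Ka := by linarith
  have hKb0 : 0 < Kb := by linarith
  have hKc0 : 0 < Kc := by linarith
  have hm40 : (0 : ℝ) < m4 := by linarith
  obtain ⟨ε0, hε0def⟩ : ∃ ε0 : ℝ, ε0 = μ / (3 * Kc * (2 * Kb * m4) * (2 * Ka)) := ⟨_, rfl⟩
  have hε0 : 0 < ε0 := by rw [hε0def]; positivity
  obtain ⟨n2, hn2⟩ := Lam_pow_le 1 (Nat.ceil ((Ka + Kb + Kc) / ε0))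
  refine ⟨ε0, hε0, n1 + n2 + 4 * q + 2 * (C1 + (q - r) * m0), ?_⟩
  intro n hn k U Av hU hAv hAvd hloc
  obtain ⟨εb, hεb⟩ : ∃ εb : ℝ, εb = 2 * Ka * ε0 := ⟨_, rfl⟩
  obtain ⟨εc, hεc⟩ : ∃ εc : ℝ, εc = 2 * Kb * m4 * εb := ⟨_, rfl⟩
  have hμe : 3 * (Kc * εc) = μ := by
    rw [hεc, hεb, hε0def]
    field_simp
  have hεb0 : 0 < εb := by rw [hεb]; positivity
  have hεc0 : 0 < εc := by rw [hεc]; positivity
  have a1 : ε0 ≤ Ka * ε0 := by nlinarith
  have a2 : 2 * (Ka * ε0) = εb := by rw [hεb]; ring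
  have a3 : εb ≤ Kb * εb := by nlinarith
  have a4 : Kb * εb ≤ m4 * (Kb * εb) := by
    have : 0 < Kb * εb := by positivity
    nlinarith
  have a5 : 2 * (m4 * (Kb * εb)) = εc := by rw [hεc]; ring
  have a6 : εc ≤ Kc * εc := by nlinarith
  have hn0 : (0 : ℝ) ≤ n := Nat.cast_nonneg n
  have hlogall : (Ka + Kb + Kc) * Real.log ((n : ℝ) + 1) ≤ ε0 * n := by
    have h1 := log_le_Lam n
    have h2 := hn2 n (by omega)
    rw [pow_one] at h2
    have h3 : (Ka + Kb + Kc) / ε0 * (Lam n : ℝ) ≤ n := by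
      calc (Ka + Kb + Kc) / ε0 * (Lam n : ℝ)
          ≤ (Nat.ceil ((Ka + Kb + Kc) / ε0) : ℝ) * (Lam n : ℝ) := by
            gcongr
            exact Nat.le_ceil _
        _ ≤ n := by exact_mod_cast h2
    have h4 : (Ka + Kb + Kc) * (Lam n : ℝ) ≤ ε0 * n := by
      have : (Ka + Kb + Kc) * (Lam n : ℝ) = ε0 * ((Ka + Kb + Kc) / ε0 * (Lam n : ℝ)) := by
        field_simp
      rw [this]
      exact mul_le_mul_of_nonneg_left h3 hε0.le
    calc (Ka + Kb + Kc) * Real.log ((n : ℝ) + 1) ≤ (Ka + Kb + Kc) * (Lam n : ℝ) := by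
          gcongr
      _ ≤ _ := h4
  have hlog : 0 ≤ Real.log ((n : ℝ) + 1) := Real.log_nonneg (by linarith)
  have la : Ka * Real.log ((n : ℝ) + 1) ≤ ε0 * n := by
    refine le_trans ?_ hlogall
    exact mul_le_mul_of_nonneg_right (by linarith) hlog
  have lb : Kb * Real.log ((n : ℝ) + 1) ≤ εb * n := by
    refine le_trans (le_trans ?_ hlogall) (mul_le_mul_of_nonneg_right (by linarith) hn0)
    exact mul_le_mul_of_nonneg_right (by linarith) hlog
  have lc : Kc * Real.log ((n : ℝ) + 1) ≤ εc * n := by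
    refine le_trans (le_trans ?_ hlogall) (mul_le_mul_of_nonneg_right (by linarith) hn0)
    exact mul_le_mul_of_nonneg_right (by linarith) hlog
  obtain ⟨Zp, Zb, bl, Cl, hZp, hZb, hbl, hbld, hCls, hClA, hCld, hCl1, hCl2, hd1, hd2, hd3, hc1,
    hc2⟩ := H12 n (by omega) k U Av ε0 hε0 (by linarith) la hU hAv hAvd hloc
  set Inc := (range k).sigma (fun i => poolsAt r (Md q r) k U i) with hInc
  set J := (range k).sigma (fun i => dvSets q r (U i ∪ Zb i)) with hJ
  have hIncm : ∀ x ∈ Inc, x.1 < k ∧ x.2 ∈ poolsAt r (Md q r) k U x.1 ∧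
      x.2 ∈ pools r (Md q r) k U ∧ x.2.1 ⊆ U x.1 := by
    intro x hx
    rw [hInc, mem_sigma, mem_range] at hx
    have h2 := hx.2
    unfold poolsAt at h2
    rw [mem_filter] at h2
    exact ⟨hx.1, hx.2, h2.1, (OmniEmb_cand h2.1 h2.2).2⟩
  have hpr : ∀ τ ∈ pools r (Md q r) k U, τ.1.card = r ∧ τ.1 ⊆ range n := by
    intro τ hτ
    obtain ⟨h1, h2, h3, h4, h5, h6, h7⟩ := OmniEmb_pool hτ
    exact ⟨h1, h4.trans (hU _ h2).1⟩
  -- round 3
  have hn03 : (0 : ℝ) ≤ (n : ℝ) := hn0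
  obtain ⟨T3, A3, B3, hT3, hT3d, hT3deg⟩ := H3 n ((_ : ℕ) × PoolIx) Inc
    (fun x => x.2.1 ∪ Zp x.2 ∪ bl x.1 x.2) (fun x => claim r x.2.1 (bl x.1 x.2))
    (fun x => claim r x.2.1 (Zp x.2)) (Av ∪ Cl) εb hεb0 (by linarith) lb (by omega)
    (by
      intro x hx
      obtain ⟨h1, h2, h3, h4⟩ := hIncm x hx
      have h5 := hZp x.2 h3
      have h6 := hbl x.1 h1 x.2 h2
      have h7 := hpr x.2 h3
      refine ⟨union_subset (union_subset h7.2 h5.1) (h6.1.trans (hZb x.1 h1).1), ?_⟩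
      have h8 := card_union_le (x.2.1 ∪ Zp x.2) (bl x.1 x.2)
      have h9 := card_union_le (x.2.1) (Zp x.2)
      omega)
    (by
      intro x hx
      obtain ⟨h1, h2, h3, h4⟩ := hIncm x hx
      have h5 := hZp x.2 h3
      have h6 := hbl x.1 h1 x.2 h2
      have h7 := hpr x.2 h3
      have hde : Disjoint x.2.1 (bl x.1 x.2) := (hZb x.1 h1).2.1.mono h4 h6.1
      have s1 : powersetCard r (x.2.1 ∪ bl x.1 x.2) ⊆
          powersetCard r (x.2.1 ∪ Zp x.2 ∪ bl x.1 x.2) :=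
        powersetCard_mono (union_subset_union subset_union_left (le_refl _))
      have s2 : powersetCard r (x.2.1 ∪ Zp x.2) ⊆
          powersetCard r (x.2.1 ∪ Zp x.2 ∪ bl x.1 x.2) :=
        powersetCard_mono subset_union_left
      refine ⟨(filter_subset _ _).trans s1, (filter_subset _ _).trans s2,
        (hd3 x.2 h3 x.1 h1 x.2 h2).symm, ?_⟩
      rw [OmniEmb_ind_claim h7.1 h5.2.1, OmniEmb_ind_claim h7.1 hde, sub_sub_sub_cancel_right]
      refine AddSubgroup.sub_mem _ (K_mem_Dv ?_ s2) (K_mem_Dv ?_ s1)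
      · rw [card_union_of_disjoint h5.2.1, h7.1, h5.2.2]; omega
      · rw [card_union_of_disjoint hde, h7.1, h6.2]; omega)
    (union_subset hAv hCls)
    (OmniEmb_deg_mono (OmniEmb_deg_union hAvd hCld) (le_refl _) (by
      have : ε0 * n + Ka * ε0 * n = (ε0 + Ka * ε0) * n := by ring
      rw [this]
      exact mul_le_mul_of_nonneg_right (by linarith) hn0))
    (by
      intro h hh
      refine (hc1 h hh).trans ?_
      exact mul_le_mul_of_nonneg_right (by linarith) (by positivity))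
  set Cl3 := Inc.biUnion T3 with hCl3
  have hCl3s : Cl3 ⊆ powersetCard r (range n) := by
    rw [hCl3, biUnion_subset]
    exact fun x hx => (hT3 x hx).1
  have hCl3A : Disjoint Cl3 (Av ∪ Cl) := by
    rw [hCl3, disjoint_biUnion_left]
    exact fun x hx => (hT3 x hx).2.1
  -- round 4
  obtain ⟨T4, A4, B4, hT4, hT4d, hT4deg⟩ := H4 n ((_ : ℕ) × Finset (Finset ℕ)) J
    (fun x => U x.1 ∪ Zb x.1) (fun _ => ∅) (fun x => x.2) (Av ∪ Cl ∪ Cl3) εc hεc0
    (by linarith) lc (by omega)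
    (by
      intro x hx
      rw [hJ, mem_sigma, mem_range] at hx
      have h1 := hU x.1 hx.1
      have h2 := hZb x.1 hx.1
      refine ⟨union_subset h1.1 h2.1, ?_⟩
      have h3 := card_union_le (U x.1) (Zb x.1)
      omega)
    (by
      intro x hx
      rw [hJ, mem_sigma, mem_range, OmniEmb_mem_dvSets] at hx
      refine ⟨empty_subset _, hx.2.1, disjoint_empty_left _, ?_⟩
      have : ind (∅ : Finset (Finset ℕ)) = 0 := by funext e; simp [ind]
      rw [this, sub_zero]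
      exact hx.2.2)
    (union_subset (union_subset hAv hCls) hCl3s)
    (OmniEmb_deg_mono (OmniEmb_deg_union (OmniEmb_deg_union hAvd hCld) hT3deg) (le_refl _) (by
      have : ε0 * n + Ka * ε0 * n + Kb * εb * n = (ε0 + Ka * ε0 + Kb * εb) * n := by ring
      rw [this]
      exact mul_le_mul_of_nonneg_right (by linarith) hn0))
    (by
      intro h hh
      have h1 := OmniEmb_sig (k := k) (fun i => dvSets q r (U i ∪ Zb i)) m4
        (fun i hi => OmniEmb_card_dvSets (by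
          have h3 := card_union_le (U i) (Zb i)
          have h4 := (hU i hi).2.2
          have h5 := (hZb i hi).2.2
          omega)) (fun i => h ⊆ U i ∪ Zb i)
      have h2 : ((J.filter (fun x => h ⊆ U x.1 ∪ Zb x.1)).card : ℝ) ≤
          m4 * (((range k).filter (fun i => h ⊆ U i ∪ Zb i)).card : ℝ) := by exact_mod_cast h1
      calc ((J.filter (fun x => h ⊆ U x.1 ∪ Zb x.1)).card : ℝ)
          ≤ m4 * (((range k).filter (fun i => h ⊆ U i ∪ Zb i)).card : ℝ) := h2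
        _ ≤ m4 * (Ka * ε0 * (n : ℝ) ^ (r - h.card)) :=
            mul_le_mul_of_nonneg_left (hc2 h hh) (by positivity)
        _ = (m4 * (Ka * ε0)) * (n : ℝ) ^ (r - h.card) := by ring
        _ ≤ εc * (n : ℝ) ^ (r - h.card) := by
            apply mul_le_mul_of_nonneg_right _ (by positivity)
            rw [← a5]
            have : m4 * (Ka * ε0) ≤ m4 * (Kb * εb) :=
              mul_le_mul_of_nonneg_left (by linarith) hm40.le
            have h5 : 0 ≤ m4 * (Kb * εb) := by positivity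
            linarith)
  set Cl4 := J.biUnion T4 with hCl4
  have hCl4s : Cl4 ⊆ powersetCard r (range n) := by
    rw [hCl4, biUnion_subset]
    exact fun x hx => (hT4 x hx).1
  have hCl4A : Disjoint Cl4 (Av ∪ Cl ∪ Cl3) := by
    rw [hCl4, disjoint_biUnion_left]
    exact fun x hx => (hT4 x hx).2.1
  set P1 := (pools r (Md q r) k U).biUnion (fun τ => claim r τ.1 (Zp τ)) with hP1
  set P2 := Inc.biUnion (fun x => claim r x.2.1 (bl x.1 x.2)) with hP2
  have hP1s : P1 ⊆ Cl := by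
    rw [hP1, biUnion_subset]
    exact hCl1
  have hP2s : P2 ⊆ Cl := by
    rw [hP2, biUnion_subset]
    exact fun x hx => hCl2 x.1 (hIncm x hx).1 x.2 (hIncm x hx).2.1
  have hP12 : Disjoint P1 P2 := by
    rw [hP1, hP2, disjoint_biUnion_left]
    intro τ hτ
    rw [disjoint_biUnion_right]
    exact fun x hx => hd3 τ hτ x.1 (hIncm x hx).1 x.2 (hIncm x hx).2.1
  have hP123 : Disjoint (P1 ∪ P2) Cl3 :=
    (hCl3A.symm.mono_left subset_union_right).mono_left (union_subset hP1s hP2s)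
  have hP1234 : Disjoint (P1 ∪ P2 ∪ Cl3) Cl4 := by
    refine hCl4A.symm.mono_left ?_
    exact union_subset_union ((union_subset hP1s hP2s).trans subset_union_right) (le_refl _)
  have hi1 : ind P1 = ∑ τ ∈ pools r (Md q r) k U, ind (claim r τ.1 (Zp τ)) :=
    OmniEmb_ind_biUnion _ _ hd1
  have hi2 : ind P2 = ∑ i ∈ range k, ∑ τ ∈ poolsAt r (Md q r) k U i,
      ind (claim r τ.1 (bl i τ)) := by
    rw [hP2, OmniEmb_ind_biUnion, hInc, sum_sigma]
    rintro ⟨i, τ⟩ hx ⟨i', τ'⟩ hx' hne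
    have h1 := hIncm _ hx
    have h2 := hIncm _ hx'
    refine hd2 i h1.1 τ h1.2.1 i' h2.1 τ' h2.2.1 ?_
    by_cases hii : i = i'
    · right
      rintro rfl
      exact hne (by rw [hii])
    · exact Or.inl hii
  have hi3 : ind Cl3 = ∑ i ∈ range k, ∑ τ ∈ poolsAt r (Md q r) k U i, ind (T3 ⟨i, τ⟩) := by
    rw [hCl3, OmniEmb_ind_biUnion _ _ hT3d, hInc, sum_sigma]
  have hi4 : ind Cl4 = ∑ i ∈ range k, ∑ R ∈ dvSets q r (U i ∪ Zb i), ind (T4 ⟨i, R⟩) := by
    rw [hCl4, OmniEmb_ind_biUnion _ _ hT4d, hJ, sum_sigma]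
  refine ⟨{
    Zp := Zp
    Zb := Zb
    bl := bl
    T3 := fun i τ => T3 ⟨i, τ⟩
    A3 := fun i τ => A3 ⟨i, τ⟩
    B3 := fun i τ => B3 ⟨i, τ⟩
    T4 := fun i R => T4 ⟨i, R⟩
    A4 := fun i R => A4 ⟨i, R⟩
    B4 := fun i R => B4 ⟨i, R⟩
    A := P1 ∪ P2 ∪ Cl3 ∪ Cl4
    hA := union_subset (union_subset (union_subset (hP1s.trans hCls) (hP2s.trans hCls)) hCl3s)
      hCl4s
    hAv := ?_
    hZp := hZp
    hZb := fun i hi => ⟨(hZb i hi).1, (hZb i hi).2.1⟩
    hbl := hbl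
    hbld := hbld
    h3 := ?_
    h4 := ?_
    hsum := ?_ }, ?_⟩
  · rw [disjoint_union_left, disjoint_union_left, disjoint_union_left]
    exact ⟨⟨⟨hClA.mono_left hP1s, hClA.mono_left hP2s⟩, hCl3A.mono_right subset_union_left⟩,
      hCl4A.mono_right (subset_union_left.trans subset_union_left)⟩
  · intro i hi τ hτ
    have hx : (⟨i, τ⟩ : (_ : ℕ) × PoolIx) ∈ Inc := by
      rw [hInc, mem_sigma, mem_range]
      exact ⟨hi, hτ⟩
    have := hT3 ⟨i, τ⟩ hx
    exact this.2.2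
  · intro i hi R hR
    have hx : (⟨i, R⟩ : (_ : ℕ) × Finset (Finset ℕ)) ∈ J := by
      rw [hJ, mem_sigma, mem_range]
      exact ⟨hi, hR⟩
    have h1 := (hT4 ⟨i, R⟩ hx).2.2
    have h0 : ind (∅ : Finset (Finset ℕ)) = 0 := by funext e; simp [ind]
    rw [h0, add_zero] at h1
    exact h1
  · rw [ind_union hP1234, ind_union hP123, ind_union hP12, hi1, hi2, hi3, hi4]
    simp only [sum_add_distrib]
    abel
  · have hPd : DegLe (r - 1) (P1 ∪ P2) (Ka * ε0 * n) :=
      OmniEmb_deg_mono hCld (union_subset hP1s hP2s) (le_refl _)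
    refine OmniEmb_deg_mono (OmniEmb_deg_union (OmniEmb_deg_union hPd hT3deg) hT4deg)
      (le_refl _) ?_
    have h1 : Ka * ε0 * n + Kb * εb * n + Kc * εc * n = (Ka * ε0 + Kb * εb + Kc * εc) * n := by
      ring
    rw [h1]
    exact mul_le_mul_of_nonneg_right (by linarith) hn0

end Pool.Agent.Kv
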