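import Pool.Agent.Designs.Defs

set_option autoImplicit false
set_option maxHeartbeats 400000

/-!
# Module PCfg2: counting supersets (section 14 (14b))
-/

namespace Pool.Agent.Kv

open Finset

lemma PCfg2_choose {k n : ℕ} (hkn : 2 * k ≤ n) : ∀ s, s ≤ k →
    (n - s).choose (k - s) * n ^ s ≤ (2 * k) ^ s * n.choose k := by
  intro s
  induction s with
  | zero => intro _; simp
  | succ s ih =>
    intro hs
    have ih' := ih (by omega)
    have h1 : (n - s - 1 + 1) * (n - s - 1).choose (k - s - 1) =
        (n - s - 1 + 1).choose (k - s - 1 + 1) * (k - s - 1 + 1) :=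
      Nat.add_one_mul_choose_eq (n - s - 1) (k - s - 1)
    have e1 : n - s - 1 + 1 = n - s := by omega
    have e2 : k - s - 1 + 1 = k - s := by omega
    rw [e1, e2] at h1
    have e3 : n - (s + 1) = n - s - 1 := by omega
    have e4 : k - (s + 1) = k - s - 1 := by omega
    rw [e3, e4]
    have h2 : n * (n - s - 1).choose (k - s - 1) ≤ 2 * k * (n - s).choose (k - s) := by
      calc n * (n - s - 1).choose (k - s - 1)
          ≤ (2 * (n - s)) * (n - s - 1).choose (k - s - 1) :=
            Nat.mul_le_mul_right _ (by omega)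
        _ = 2 * ((n - s) * (n - s - 1).choose (k - s - 1)) := by ring
        _ = 2 * ((n - s).choose (k - s) * (k - s)) := by rw [h1]
        _ ≤ 2 * ((n - s).choose (k - s) * k) :=
            Nat.mul_le_mul_left _ (Nat.mul_le_mul_left _ (by omega))
        _ = 2 * k * (n - s).choose (k - s) := by ring
    calc (n - s - 1).choose (k - s - 1) * n ^ (s + 1)
        = (n * (n - s - 1).choose (k - s - 1)) * n ^ s := by rw [pow_succ]; ring
      _ ≤ (2 * k * (n - s).choose (k - s)) * n ^ s := Nat.mul_le_mul_right _ h2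
      _ = 2 * k * ((n - s).choose (k - s) * n ^ s) := by ring
      _ ≤ 2 * k * ((2 * k) ^ s * n.choose k) := Nat.mul_le_mul_left _ ih'
      _ = (2 * k) ^ (s + 1) * n.choose k := by rw [pow_succ]; ring

lemma PCfg2_card_filter {k n : ℕ} {S : Finset ℕ} (hSn : S ⊆ range n) (hS : S.card ≤ k) :
    ((powersetCard k (range n)).filter (fun B => S ⊆ B)).card ≤
      (n - S.card).choose (k - S.card) := by
  have h1 : (powersetCard k (range n)).filter (fun B => S ⊆ B) ⊆
      (powersetCard (k - S.card) (range n \ S)).image (fun T => S ∪ T) := by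
    intro B hB
    obtain ⟨hB1, hSB⟩ := mem_filter.mp hB
    obtain ⟨hBn, hBk⟩ := mem_powersetCard.mp hB1
    refine mem_image.mpr ⟨B \ S, mem_powersetCard.mpr ⟨sdiff_subset_sdiff hBn (le_refl _), ?_⟩,
      union_sdiff_of_subset hSB⟩
    rw [card_sdiff_of_subset hSB, hBk]
  calc _ ≤ _ := card_le_card h1
    _ ≤ (powersetCard (k - S.card) (range n \ S)).card := card_image_le
    _ = (n - S.card).choose (k - S.card) := by
        rw [card_powersetCard, card_sdiff_of_subset hSn, card_range]

theorem card_superset {k n : ℕ} (hkn : 2 * k ≤ n) {S : Finset ℕ} (hS : S.card ≤ k) :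
    ((powersetCard k (range n)).filter (fun B => S ⊆ B)).card * n ^ S.card ≤
      (2 * k) ^ S.card * n.choose k := by
  by_cases hSn : S ⊆ range n
  · exact (Nat.mul_le_mul_right _ (PCfg2_card_filter hSn hS)).trans (PCfg2_choose hkn _ hS)
  · have : (powersetCard k (range n)).filter (fun B => S ⊆ B) = ∅ := by
      rw [filter_eq_empty_iff]
      intro B hB hSB
      exact hSn (hSB.trans (mem_powersetCard.mp hB).1)
    rw [this, card_empty, zero_mul]
    exact Nat.zero_le _

theorem gd_mean {k t n : ℕ} (htk : t ≤ k) (hkn : 2 * k ≤ n) {Gd : Finset (Finset ℕ)}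
    (hGd : Gd ⊆ powersetCard k (range n)) :
    (∑ B ∈ powersetCard k (range n), (Gd.filter (fun G => t ≤ (G ∩ B).card)).card) * n ^ t ≤
      2 ^ k * (2 * k) ^ t * Gd.card * n.choose k := by
  have h1 : ∑ B ∈ powersetCard k (range n), (Gd.filter (fun G => t ≤ (G ∩ B).card)).card =
      ∑ G ∈ Gd, ((powersetCard k (range n)).filter (fun B => t ≤ (G ∩ B).card)).card := by
    simp only [card_filter]
    exact sum_comm
  rw [h1, sum_mul]
  have h2 : ∀ G ∈ Gd, ((powersetCard k (range n)).filter (fun B => t ≤ (G ∩ B).card)).card * n ^ t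
      ≤ 2 ^ k * ((2 * k) ^ t * n.choose k) := by
    intro G hG
    obtain ⟨-, hGk⟩ := mem_powersetCard.mp (hGd hG)
    have h3 : (powersetCard k (range n)).filter (fun B => t ≤ (G ∩ B).card) ⊆
        (powersetCard t G).biUnion
          (fun τ => (powersetCard k (range n)).filter (fun B => τ ⊆ B)) := by
      intro B hB
      obtain ⟨hB1, hB2⟩ := mem_filter.mp hB
      obtain ⟨τ, hτ1, hτ2⟩ := exists_subset_card_eq hB2
      refine mem_biUnion.mpr ⟨τ, mem_powersetCard.mpr ⟨hτ1.trans inter_subset_left, hτ2⟩,
        mem_filter.mpr ⟨hB1, hτ1.trans inter_subset_right⟩⟩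
    calc ((powersetCard k (range n)).filter (fun B => t ≤ (G ∩ B).card)).card * n ^ t
        ≤ (∑ τ ∈ powersetCard t G,
            ((powersetCard k (range n)).filter (fun B => τ ⊆ B)).card) * n ^ t :=
          Nat.mul_le_mul_right _ ((card_le_card h3).trans card_biUnion_le)
      _ = ∑ τ ∈ powersetCard t G,
            ((powersetCard k (range n)).filter (fun B => τ ⊆ B)).card * n ^ t := by
          rw [sum_mul]
      _ ≤ ∑ _τ ∈ powersetCard t G, (2 * k) ^ t * n.choose k := by
          apply sum_le_sum
          intro τ hτ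
          have hτ2 := (mem_powersetCard.mp hτ).2
          have := card_superset (k := k) (n := n) hkn (S := τ) (by omega)
          rwa [hτ2] at this
      _ = (k.choose t) * ((2 * k) ^ t * n.choose k) := by
          rw [sum_const, card_powersetCard, hGk, smul_eq_mul]
      _ ≤ 2 ^ k * ((2 * k) ^ t * n.choose k) :=
          Nat.mul_le_mul_right _ (Nat.choose_le_two_pow k t)
  calc _ ≤ ∑ _G ∈ Gd, 2 ^ k * ((2 * k) ^ t * n.choose k) := sum_le_sum h2
    _ = 2 ^ k * (2 * k) ^ t * Gd.card * n.choose k := by
        rw [sum_const, smul_eq_mul]; ring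

theorem card_small (n b : ℕ) :
    ((range n).powerset.filter (fun A => A.card ≤ b)).card ≤ (n + 1) ^ b := by
  induction b with
  | zero =>
    rw [pow_zero, card_le_one]
    intro A hA B hB
    have h1 := (mem_filter.mp hA).2
    have h2 := (mem_filter.mp hB).2
    rw [card_eq_zero.mp (Nat.le_zero.mp h1), card_eq_zero.mp (Nat.le_zero.mp h2)]
  | succ b ih =>
    have hsub : (range n).powerset.filter (fun A => A.card ≤ b + 1) ⊆
        (((range n).powerset.filter (fun A => A.card ≤ b)) ×ˢ range (n + 1)).image
          (fun p => if p.2 < n then insert p.2 p.1 else p.1) := by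
      intro A hA
      obtain ⟨hA1, hA2⟩ := mem_filter.mp hA
      rw [mem_powerset] at hA1
      by_cases hAb : A.card ≤ b
      · refine mem_image.mpr ⟨(A, n), mem_product.mpr ⟨mem_filter.mpr
          ⟨mem_powerset.mpr hA1, hAb⟩, by simp⟩, ?_⟩
        simp
      · have hne : A.Nonempty := by
          rw [← card_pos]; omega
        obtain ⟨x, hx⟩ := hne
        have hxn : x < n := mem_range.mp (hA1 hx)
        refine mem_image.mpr ⟨(A.erase x, x), mem_product.mpr ⟨mem_filter.mpr
          ⟨mem_powerset.mpr ((erase_subset _ _).trans hA1), ?_⟩,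
            mem_range.mpr (by omega)⟩, ?_⟩
        · rw [card_erase_of_mem hx]; omega
        · simp only [hxn, if_true]
          exact insert_erase hx
    calc _ ≤ _ := card_le_card hsub
      _ ≤ _ := card_image_le
      _ = ((range n).powerset.filter (fun A => A.card ≤ b)).card * (n + 1) := by
          rw [card_product, card_range]
      _ ≤ (n + 1) ^ b * (n + 1) := Nat.mul_le_mul_right _ ih
      _ = (n + 1) ^ (b + 1) := (pow_succ _ _).symm

end Pool.Agent.Kv
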