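import Pool.Agent.Designs.Defs

set_option autoImplicit false

/-!
# Module PCfg1: good families of a configuration, `gd_card`, `gd_deg`, `gd_f`
-/

namespace Pool.Agent.Kv

open Finset

/-- the good sets of the configuration `A 0, …, A (k-2)`. -/
def Gdf (k n : ℕ) (A : ℕ → Finset ℕ) : Finset (Finset ℕ) :=
  (powersetCard k (range n)).filter (fun B => ∀ j < k - 1, (B ∩ A j).card = 1)

/-- union of the configuration -/
def pcfg_U (k : ℕ) (A : ℕ → Finset ℕ) : Finset ℕ := (univ : Finset (Fin (k - 1))).biUnion fun j => A j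

lemma pcfg_mem_U {k : ℕ} {A : ℕ → Finset ℕ} {x : ℕ} :
    x ∈ pcfg_U k A ↔ ∃ j : Fin (k - 1), x ∈ A j := by
  simp [pcfg_U]

lemma pcfg_split {k : ℕ} {A : ℕ → Finset ℕ} (B : Finset ℕ) :
    B = ((univ : Finset (Fin (k - 1))).biUnion fun j => B ∩ A j) ∪ (B \ pcfg_U k A) := by
  ext x
  simp only [mem_union, mem_biUnion, mem_univ, true_and, mem_inter, mem_sdiff, pcfg_mem_U]
  constructor
  · intro h
    by_cases h1 : ∃ j : Fin (k - 1), x ∈ A j
    · obtain ⟨j, hj⟩ := h1
      exact Or.inl ⟨j, h, hj⟩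
    · exact Or.inr ⟨h, h1⟩
  · rintro (⟨j, h, -⟩ | ⟨h, -⟩) <;> exact h

lemma pcfg_card_split {k : ℕ} {A : ℕ → Finset ℕ}
    (hdis : ∀ i < k - 1, ∀ j < k - 1, i ≠ j → Disjoint (A i) (A j)) (B : Finset ℕ) :
    B.card = (∑ j : Fin (k - 1), (B ∩ A j).card) + (B \ pcfg_U k A).card := by
  conv_lhs => rw [pcfg_split (k := k) (A := A) B]
  rw [card_union_of_disjoint, card_biUnion]
  · intro i _ j _ hij
    have h1 : (i : ℕ) ≠ j := fun h => hij (Fin.ext h)
    exact (hdis i i.isLt j j.isLt h1).mono inter_subset_right inter_subset_right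
  · rw [disjoint_left]
    intro x hx hx'
    simp only [mem_biUnion, mem_univ, true_and, mem_inter] at hx
    obtain ⟨j, _, hj⟩ := hx
    rw [mem_sdiff] at hx'
    exact hx'.2 (pcfg_mem_U.2 ⟨j, hj⟩)

lemma pcfg_out {k n : ℕ} (hk : 1 ≤ k) {A : ℕ → Finset ℕ}
    (hdis : ∀ i < k - 1, ∀ j < k - 1, i ≠ j → Disjoint (A i) (A j)) {B : Finset ℕ}
    (hB : B ∈ Gdf k n A) : (B \ pcfg_U k A).card = 1 := by
  rw [Gdf, mem_filter, mem_powersetCard] at hB
  have h1 := pcfg_card_split hdis B
  have h2 : ∑ j : Fin (k - 1), (B ∩ A j).card = k - 1 := by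
    rw [sum_congr rfl (fun (j : Fin (k - 1)) _ => hB.2 j j.isLt)]
    simp
  rw [hB.1.2, h2] at h1
  omega

theorem gd_card {k n a : ℕ} (hk : 2 ≤ k) {A : ℕ → Finset ℕ}
    (hA : ∀ j < k - 1, A j ⊆ range n ∧ a ≤ (A j).card)
    (hdis : ∀ i < k - 1, ∀ j < k - 1, i ≠ j → Disjoint (A i) (A j))
    (hsum : 2 * ∑ j ∈ range (k - 1), (A j).card ≤ n) :
    a ^ (k - 1) * n ≤ 2 * (Gdf k n A).card := by
  classical
  set P : Finset ((Fin (k - 1) → Finset ℕ) × Finset ℕ) :=
    (Fintype.piFinset fun j : Fin (k - 1) => powersetCard 1 (A j)) ×ˢ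
      powersetCard 1 (range n \ pcfg_U k A) with hP
  have hPmem : ∀ p ∈ P, (∀ j : Fin (k - 1), p.1 j ⊆ A j ∧ (p.1 j).card = 1) ∧
      p.2 ⊆ range n \ pcfg_U k A ∧ p.2.card = 1 := by
    intro p hp
    rw [hP, mem_product, Fintype.mem_piFinset, mem_powersetCard] at hp
    refine ⟨fun j => ?_, hp.2⟩
    have := hp.1 j
    rwa [mem_powersetCard] at this
  set F : (Fin (k - 1) → Finset ℕ) × Finset ℕ → Finset ℕ := fun p =>
    (univ.biUnion p.1) ∪ p.2 with hF
  have hFA : ∀ p ∈ P, ∀ j : Fin (k - 1), F p ∩ A j = p.1 j := by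
    intro p hp j
    obtain ⟨h1, h2, _⟩ := hPmem p hp
    ext x
    simp only [hF, mem_inter, mem_union, mem_biUnion, mem_univ, true_and]
    constructor
    · rintro ⟨⟨i, hi⟩ | hx, hxj⟩
      · by_cases hij : i = j
        · rwa [← hij]
        · exfalso
          have h3 : (i : ℕ) ≠ j := fun h => hij (Fin.ext h)
          exact disjoint_left.1 (hdis i i.isLt j j.isLt h3) ((h1 i).1 hi) hxj
      · exfalso
        have h4 := h2 hx
        rw [mem_sdiff] at h4
        exact h4.2 (pcfg_mem_U.2 ⟨j, hxj⟩)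
    · intro hx
      exact ⟨Or.inl ⟨j, hx⟩, (h1 j).1 hx⟩
  have hFU : ∀ p ∈ P, F p \ pcfg_U k A = p.2 := by
    intro p hp
    obtain ⟨h1, h2, _⟩ := hPmem p hp
    ext x
    simp only [hF, mem_sdiff, mem_union, mem_biUnion, mem_univ, true_and]
    constructor
    · rintro ⟨⟨i, hi⟩ | hx, hxU⟩
      · exact absurd (pcfg_mem_U.2 ⟨i, (h1 i).1 hi⟩) hxU
      · exact hx
    · intro hx
      have h4 := h2 hx
      rw [mem_sdiff] at h4
      exact ⟨Or.inr hx, h4.2⟩
  have hle : P.card ≤ (Gdf k n A).card := by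
    refine card_le_card_of_injOn F ?_ ?_
    · intro p hp
      have hp' : p ∈ P := hp
      obtain ⟨h1, h2, h3⟩ := hPmem p hp'
      rw [Gdf, coe_filter, Set.mem_ofPred_eq, mem_powersetCard]
      refine ⟨⟨?_, ?_⟩, ?_⟩
      · intro x hx
        simp only [hF, mem_union, mem_biUnion, mem_univ, true_and] at hx
        rcases hx with ⟨i, hi⟩ | hx
        · exact (hA i i.isLt).1 ((h1 i).1 hi)
        · have h4 := h2 hx
          rw [mem_sdiff] at h4
          exact h4.1
      · rw [pcfg_card_split hdis (F p), hFU p hp', h3,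
          sum_congr rfl (fun j _ => by rw [hFA p hp' j, (h1 j).2])]
        simp
        omega
      · intro j hj
        have := hFA p hp' ⟨j, hj⟩
        simp only at this
        rw [this]
        exact (h1 ⟨j, hj⟩).2
    · intro p hp q hq hpq
      have hp' : p ∈ P := hp
      have hq' : q ∈ P := hq
      apply Prod.ext
      · funext j
        rw [← hFA p hp' j, ← hFA q hq' j, hpq]
      · rw [← hFU p hp', ← hFU q hq', hpq]
  have hPc : P.card = (∏ j : Fin (k - 1), (A j).card) * (range n \ pcfg_U k A).card := by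
    rw [hP, card_product, Fintype.card_piFinset, card_powersetCard, Nat.choose_one_right]
    congr 1
    apply prod_congr rfl
    intro j _
    rw [card_powersetCard, Nat.choose_one_right]
  have hprod : a ^ (k - 1) ≤ ∏ j : Fin (k - 1), (A j).card := by
    calc a ^ (k - 1) = ∏ _j : Fin (k - 1), a := by simp
      _ ≤ _ := prod_le_prod' fun j _ => (hA j j.isLt).2
  have hUc : (pcfg_U k A).card ≤ ∑ j ∈ range (k - 1), (A j).card := by
    rw [← Fin.sum_univ_eq_sum_range (fun j => (A j).card) (k - 1)]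
    exact card_biUnion_le
  have hout : n ≤ 2 * (range n \ pcfg_U k A).card := by
    have h1 := le_card_sdiff (pcfg_U k A) (range n)
    rw [card_range] at h1
    omega
  calc a ^ (k - 1) * n ≤ (∏ j : Fin (k - 1), (A j).card) * (2 * (range n \ pcfg_U k A).card) :=
        Nat.mul_le_mul hprod hout
    _ = 2 * P.card := by rw [hPc]; ring
    _ ≤ 2 * (Gdf k n A).card := Nat.mul_le_mul_left 2 hle

theorem gd_deg {k t n a : ℕ} (ht : 1 ≤ t) (htk : t + 1 ≤ k) {A : ℕ → Finset ℕ}
    (hA : ∀ j < k - 1, A j ⊆ range n ∧ (A j).card ≤ 2 * a)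
    (hdis : ∀ i < k - 1, ∀ j < k - 1, i ≠ j → Disjoint (A i) (A j)) (han : a ≤ n)
    {τ : Finset ℕ} (hτ : τ.card = t) :
    ((Gdf k n A).filter (fun B => τ ⊆ B)).card ≤ 2 ^ k * n * a ^ (k - 1 - t) := by
  classical
  rcases Finset.eq_empty_or_nonempty ((Gdf k n A).filter (fun B => τ ⊆ B)) with hemp | ⟨B₀, hB₀⟩
  · rw [hemp]; simp
  rw [mem_filter] at hB₀
  obtain ⟨hB₀, hτB₀⟩ := hB₀
  have hB₀' := hB₀
  rw [Gdf, mem_filter, mem_powersetCard] at hB₀'
  have h1 : ∀ j : Fin (k - 1), (τ ∩ A j).card ≤ 1 := by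
    intro j
    exact (card_le_card (inter_subset_inter_right hτB₀)).trans (hB₀'.2 j j.isLt).le
  have h2 : (τ \ pcfg_U k A).card ≤ 1 := by
    rw [← pcfg_out (by omega) hdis hB₀]
    exact card_le_card (sdiff_subset_sdiff hτB₀ subset_rfl)
  set S : Fin (k - 1) → Finset ℕ := fun j => if (τ ∩ A j).Nonempty then τ ∩ A j else A j with hS
  set So : Finset ℕ := if (τ \ pcfg_U k A).Nonempty then τ \ pcfg_U k A else range n with hSo
  have hle : ((Gdf k n A).filter (fun B => τ ⊆ B)).card ≤
      ((Fintype.piFinset fun j : Fin (k - 1) => powersetCard 1 (S j)) ×ˢ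
        powersetCard 1 So).card := by
    refine card_le_card_of_injOn (fun B => (fun j : Fin (k - 1) => B ∩ A j, B \ pcfg_U k A)) ?_ ?_
    · intro B hB
      have hB' : B ∈ (Gdf k n A).filter (fun B => τ ⊆ B) := hB
      rw [mem_filter] at hB'
      have hB1 := hB'.1
      rw [Gdf, mem_filter, mem_powersetCard] at hB1
      rw [mem_coe, mem_product, Fintype.mem_piFinset, mem_powersetCard]
      refine ⟨fun j => ?_, ?_, pcfg_out (by omega) hdis hB'.1⟩
      · rw [mem_powersetCard]
        refine ⟨?_, hB1.2 j j.isLt⟩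
        simp only [hS]
        split_ifs with h
        · have h3 : τ ∩ A j = B ∩ A j := by
            apply eq_of_subset_of_card_le (inter_subset_inter_right hB'.2)
            rw [hB1.2 j j.isLt]
            exact h.card_pos
          rw [h3]
        · exact inter_subset_right
      · simp only [hSo]
        split_ifs with h
        · have h3 : τ \ pcfg_U k A = B \ pcfg_U k A := by
            apply eq_of_subset_of_card_le (sdiff_subset_sdiff hB'.2 subset_rfl)
            rw [pcfg_out (by omega) hdis hB'.1]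
            exact h.card_pos
          rw [h3]
        · exact sdiff_subset.trans hB1.1.1
    · intro B _ B' _ h
      simp only [Prod.mk.injEq] at h
      rw [pcfg_split (k := k) (A := A) B, pcfg_split (k := k) (A := A) B', h.2]
      congr 1
      apply biUnion_congr rfl
      intro j _
      exact congrFun h.1 j
  refine hle.trans ?_
  rw [card_product, Fintype.card_piFinset, card_powersetCard, Nat.choose_one_right]
  set J : Finset (Fin (k - 1)) := univ.filter fun j => (τ ∩ A j).Nonempty with hJ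
  have hJc : ∑ j : Fin (k - 1), (τ ∩ A j).card = J.card := by
    rw [hJ, card_filter]
    apply sum_congr rfl
    intro j _
    split_ifs with h
    · have := h.card_pos
      have := h1 j
      omega
    · rw [not_nonempty_iff_eq_empty] at h
      rw [h]; rfl
  have hprod : ∏ j : Fin (k - 1), (powersetCard 1 (S j)).card ≤ (2 * a) ^ (k - 1 - J.card) := by
    calc ∏ j : Fin (k - 1), (powersetCard 1 (S j)).card
        ≤ ∏ j : Fin (k - 1), (if j ∈ J then 1 else 2 * a) := by
          apply prod_le_prod'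
          intro j _
          rw [card_powersetCard, Nat.choose_one_right]
          simp only [hS, hJ, mem_filter, mem_univ, true_and]
          split_ifs with h
          · exact h1 j
          · exact (hA j j.isLt).2
      _ = (2 * a) ^ (k - 1 - J.card) := by
          rw [prod_ite, prod_const_one, one_mul, prod_const]
          congr 1
          have h3 : (univ.filter fun j => j ∉ J) = univ \ J := by
            ext j; simp
          rw [h3, card_sdiff_of_subset (subset_univ _), card_univ, Fintype.card_fin]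
  have htot := pcfg_card_split (k := k) (A := A) hdis τ
  rw [hτ, hJc] at htot
  have h2k : 2 ^ (k - 1 - t) ≤ 2 ^ k := Nat.pow_le_pow_right (by norm_num) (by omega)
  have h2k' : 2 ^ (k - t) ≤ 2 ^ k := Nat.pow_le_pow_right (by norm_num) (by omega)
  by_cases h : (τ \ pcfg_U k A).Nonempty
  · have h3 : (τ \ pcfg_U k A).card = 1 := le_antisymm h2 h.card_pos
    have h4 : J.card + 1 = t := by omega
    have h5 : So.card = 1 := by simp only [hSo, if_pos h]; exact h3
    rw [h5, mul_one]
    refine hprod.trans ?_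
    have h6 : k - 1 - J.card = (k - 1 - t) + 1 := by omega
    have h7 : k - t = (k - 1 - t) + 1 := by omega
    rw [h6, mul_pow, pow_succ a]
    rw [h7] at h2k'
    calc 2 ^ (k - 1 - t + 1) * (a ^ (k - 1 - t) * a) ≤ 2 ^ k * (a ^ (k - 1 - t) * n) :=
          Nat.mul_le_mul h2k' (Nat.mul_le_mul_left _ han)
      _ = 2 ^ k * n * a ^ (k - 1 - t) := by ring
  · have h3 : (τ \ pcfg_U k A).card = 0 := by
      rw [not_nonempty_iff_eq_empty] at h
      rw [h]; rfl
    have h4 : J.card = t := by omega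
    have h5 : So.card = n := by simp only [hSo, if_neg h, card_range]
    rw [h5]
    rw [h4, mul_pow] at hprod
    calc _ ≤ 2 ^ (k - 1 - t) * a ^ (k - 1 - t) * n := Nat.mul_le_mul_right _ hprod
      _ ≤ 2 ^ k * a ^ (k - 1 - t) * n :=
          Nat.mul_le_mul_right _ (Nat.mul_le_mul_right _ h2k)
      _ = 2 ^ k * n * a ^ (k - 1 - t) := by ring

theorem gd_f {k t n a : ℕ} (ht : 1 ≤ t) (htk : t + 1 ≤ k) {A : ℕ → Finset ℕ}
    (hA : ∀ j < k - 1, A j ⊆ range n ∧ (A j).card ≤ 2 * a)
    (hdis : ∀ i < k - 1, ∀ j < k - 1, i ≠ j → Disjoint (A i) (A j)) (han : a ≤ n)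
    {B : Finset ℕ} (hB : B ∈ powersetCard k (range n)) :
    ((Gdf k n A).filter (fun G => t ≤ (G ∩ B).card)).card ≤
      2 ^ (2 * k) * n * a ^ (k - 1 - t) := by
  classical
  have hsub : (Gdf k n A).filter (fun G => t ≤ (G ∩ B).card) ⊆
      (powersetCard t B).biUnion fun τ => (Gdf k n A).filter (fun G => τ ⊆ G) := by
    intro G hG
    rw [mem_filter] at hG
    obtain ⟨τ, hτ, hτc⟩ := exists_subset_card_eq hG.2
    rw [mem_biUnion]
    refine ⟨τ, mem_powersetCard.2 ⟨hτ.trans inter_subset_right, hτc⟩, ?_⟩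
    rw [mem_filter]
    exact ⟨hG.1, hτ.trans inter_subset_left⟩
  have hBc := (mem_powersetCard.1 hB).2
  calc _ ≤ ((powersetCard t B).biUnion fun τ => (Gdf k n A).filter (fun G => τ ⊆ G)).card :=
        card_le_card hsub
    _ ≤ ∑ τ ∈ powersetCard t B, ((Gdf k n A).filter (fun G => τ ⊆ G)).card := card_biUnion_le
    _ ≤ ∑ _τ ∈ powersetCard t B, 2 ^ k * n * a ^ (k - 1 - t) :=
        sum_le_sum fun τ hτ => gd_deg ht htk hA hdis han (mem_powersetCard.1 hτ).2
    _ = (powersetCard t B).card * (2 ^ k * n * a ^ (k - 1 - t)) := by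
        rw [sum_const, smul_eq_mul]
    _ ≤ 2 ^ k * (2 ^ k * n * a ^ (k - 1 - t)) := by
        apply Nat.mul_le_mul_right
        rw [card_powersetCard, hBc]
        exact Nat.choose_le_two_pow k t
    _ = 2 ^ (2 * k) * n * a ^ (k - 1 - t) := by
        rw [two_mul, pow_add]; ring

end Pool.Agent.Kv
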