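import Pool.Agent.Designs.PCfg

set_option autoImplicit false
set_option maxHeartbeats 400000

/-!
# Module PColor: dyadic classes (section 14 (14c))
-/

namespace Pool.Agent.Kv

open Finset

theorem dyadic {k n u : ℕ} (hk : 2 ≤ k) (hu : 1 ≤ u) (φ : ℕ → ℕ)
    (h : 4 * (k - 1) * Lam n * u ≤ ((range n).image φ).card) :
    ∃ (a : ℕ) (A : ℕ → Finset ℕ), u ≤ a ∧ a ≤ n ∧
      (∀ j < k - 1, A j ⊆ range n ∧ a ≤ (A j).card ∧ (A j).card ≤ 2 * a) ∧
      (∀ i < k - 1, ∀ j < k - 1, i ≠ j → Disjoint (A i) (A j)) ∧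
      2 * ∑ j ∈ range (k - 1), (A j).card ≤ n ∧
      ∀ B ∈ Gdf k n A, Set.InjOn φ (B : Set ℕ) := by
  classical
  -- colour classes
  set cls : ℕ → Finset ℕ := fun c => (range n).filter (fun v => φ v = c) with hcls
  set Co : Finset ℕ := (range n).image φ with hCo
  have hcls0 : ∀ c ∈ Co, (cls c).card ≠ 0 := by
    intro c hc
    obtain ⟨v, hv, rfl⟩ := mem_image.mp hc
    exact Finset.card_ne_zero.mpr ⟨v, mem_filter.mpr ⟨hv, rfl⟩⟩
  have hclsn : ∀ c, (cls c).card ≤ n := by
    intro c
    calc (cls c).card ≤ (range n).card := card_filter_le _ _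
      _ = n := card_range n
  have hmaps : ∀ c ∈ Co, Nat.log 2 (cls c).card ∈ range (Lam n) := by
    intro c _
    rw [mem_range]
    have := Nat.log_mono_right (b := 2) (hclsn c)
    unfold Lam
    omega
  have hne : (range (Lam n)).Nonempty := ⟨0, by rw [mem_range]; have := Lam_pos n; omega⟩
  have hmul : (range (Lam n)).card * (4 * (k - 1) * u) ≤ Co.card := by
    rw [card_range]
    calc Lam n * (4 * (k - 1) * u) = 4 * (k - 1) * Lam n * u := by ring
      _ ≤ _ := h
  obtain ⟨i, -, hi⟩ := exists_le_card_fiber_of_mul_le_card_of_maps_to hmaps hne hmul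
  set D : Finset ℕ := Co.filter (fun c => Nat.log 2 (cls c).card = i) with hD
  have hlow : ∀ c ∈ D, 2 ^ i ≤ (cls c).card := by
    intro c hc
    have h1 := mem_filter.mp hc
    rw [← h1.2]
    exact Nat.pow_log_le_self 2 (hcls0 c h1.1)
  have hup : ∀ c ∈ D, (cls c).card ≤ 2 * 2 ^ i := by
    intro c hc
    have h1 := mem_filter.mp hc
    have h2 := Nat.lt_pow_succ_log_self (b := 2) (by norm_num) (cls c).card
    rw [h1.2, pow_succ] at h2
    omega
  -- unions of classes
  have hunion : ∀ F : Finset ℕ, ((range n).filter (fun v => φ v ∈ F)).card =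
      ∑ c ∈ F, (cls c).card := by
    intro F
    rw [card_eq_sum_card_fiberwise (f := φ) (t := F)]
    · apply sum_congr rfl
      intro c hc
      congr 1
      ext v
      simp only [hcls, mem_filter]
      constructor
      · rintro ⟨⟨h1, -⟩, h3⟩
        exact ⟨h1, h3⟩
      · rintro ⟨h1, h2⟩
        exact ⟨⟨h1, by rw [h2]; exact hc⟩, h2⟩
    · intro v hv
      have := mem_filter.mp (mem_coe.mp hv)
      exact mem_coe.mpr this.2
  have hDn : D.card * 2 ^ i ≤ n := by
    calc D.card * 2 ^ i = ∑ _c ∈ D, 2 ^ i := by rw [sum_const, smul_eq_mul]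
      _ ≤ ∑ c ∈ D, (cls c).card := sum_le_sum hlow
      _ = ((range n).filter (fun v => φ v ∈ D)).card := (hunion D).symm
      _ ≤ (range n).card := card_filter_le _ _
      _ = n := card_range n
  -- enumeration of D
  obtain ⟨g, hg1, hg2⟩ : ∃ g : ℕ → ℕ, (∀ m < D.card, g m ∈ D) ∧
      ∀ m < D.card, ∀ m' < D.card, g m = g m' → m = m' := by
    refine ⟨fun m => if hm : m < D.card then D.orderEmbOfFin rfl ⟨m, hm⟩ else 0, ?_, ?_⟩
    · intro m hm
      simp only [dif_pos hm]
      exact orderEmbOfFin_mem D rfl _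
    · intro m hm m' hm' he
      simp only [dif_pos hm, dif_pos hm'] at he
      have := (D.orderEmbOfFin rfl).injective he
      exact congrArg Fin.val this
  set F : ℕ → Finset ℕ := fun j => (Ico (j * u) ((j + 1) * u)).image g with hF
  have hidx : ∀ j < k - 1, ∀ m ∈ Ico (j * u) ((j + 1) * u), m < D.card := by
    intro j hj m hm
    have h1 := (mem_Ico.mp hm).2
    have h2 : (j + 1) * u ≤ (k - 1) * u := Nat.mul_le_mul_right _ (by omega)
    have h3 : (k - 1) * u ≤ 4 * (k - 1) * u := Nat.mul_le_mul_right _ (by omega)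
    omega
  have hFD : ∀ j < k - 1, F j ⊆ D := by
    intro j hj c hc
    obtain ⟨m, hm, rfl⟩ := mem_image.mp hc
    exact hg1 m (hidx j hj m hm)
  have hFc : ∀ j < k - 1, (F j).card = u := by
    intro j hj
    rw [hF]
    simp only
    rw [card_image_of_injOn, Nat.card_Ico]
    · rw [Nat.succ_mul]; omega
    · intro m hm m' hm' he
      exact hg2 m (hidx j hj m (mem_coe.mp hm)) m' (hidx j hj m' (mem_coe.mp hm')) he
  have hFdis : ∀ i < k - 1, ∀ j < k - 1, i ≠ j → Disjoint (F i) (F j) := by
    intro i1 hi1 j hj hij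
    rw [disjoint_left]
    intro c hc hc'
    obtain ⟨m, hm, rfl⟩ := mem_image.mp hc
    obtain ⟨m', hm', he⟩ := mem_image.mp hc'
    have := hg2 m' (hidx j hj m' hm') m (hidx i1 hi1 m hm) he
    subst this
    have a1 := mem_Ico.mp hm
    have a2 := mem_Ico.mp hm'
    have b1 : i1 * u < (j + 1) * u := by omega
    have b2 : j * u < (i1 + 1) * u := by omega
    have c1 := lt_of_mul_lt_mul_right b1 (Nat.zero_le u)
    have c2 := lt_of_mul_lt_mul_right b2 (Nat.zero_le u)
    omega
  set A : ℕ → Finset ℕ := fun j => (range n).filter (fun v => φ v ∈ F j) with hA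
  have hAlow : ∀ j < k - 1, u * 2 ^ i ≤ (A j).card := by
    intro j hj
    calc u * 2 ^ i = ∑ _c ∈ F j, 2 ^ i := by rw [sum_const, smul_eq_mul, hFc j hj]
      _ ≤ ∑ c ∈ F j, (cls c).card := sum_le_sum (fun c hc => hlow c (hFD j hj hc))
      _ = (A j).card := (hunion (F j)).symm
  have hAup : ∀ j < k - 1, (A j).card ≤ 2 * (u * 2 ^ i) := by
    intro j hj
    calc (A j).card = ∑ c ∈ F j, (cls c).card := hunion (F j)
      _ ≤ ∑ _c ∈ F j, 2 * 2 ^ i := sum_le_sum (fun c hc => hup c (hFD j hj hc))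
      _ = 2 * (u * 2 ^ i) := by rw [sum_const, smul_eq_mul, hFc j hj]; ring
  have hbig : 4 * (k - 1) * (u * 2 ^ i) ≤ n := by
    calc 4 * (k - 1) * (u * 2 ^ i) = (4 * (k - 1) * u) * 2 ^ i := by ring
      _ ≤ D.card * 2 ^ i := Nat.mul_le_mul_right _ hi
      _ ≤ n := hDn
  have hAdis : ∀ i < k - 1, ∀ j < k - 1, i ≠ j → Disjoint (A i) (A j) := by
    intro i1 hi1 j hj hij
    rw [disjoint_left]
    intro v hv hv'
    exact disjoint_left.mp (hFdis i1 hi1 j hj hij) (mem_filter.mp hv).2 (mem_filter.mp hv').2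
  refine ⟨u * 2 ^ i, A, ?_, ?_, ?_, hAdis, ?_, ?_⟩
  · exact Nat.le_mul_of_pos_right _ (by positivity)
  · calc u * 2 ^ i ≤ 4 * (k - 1) * (u * 2 ^ i) :=
          Nat.le_mul_of_pos_left _ (by omega)
      _ ≤ n := hbig
  · intro j hj
    exact ⟨filter_subset _ _, hAlow j hj, hAup j hj⟩
  · calc 2 * ∑ j ∈ range (k - 1), (A j).card
        ≤ 2 * ∑ _j ∈ range (k - 1), 2 * (u * 2 ^ i) :=
          Nat.mul_le_mul_left _ (sum_le_sum (fun j hj => hAup j (mem_range.mp hj)))
      _ = 4 * (k - 1) * (u * 2 ^ i) := by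
          rw [sum_const, smul_eq_mul, card_range]; ring
      _ ≤ n := hbig
  · intro B hB x hx y hy hxy
    by_contra hne'
    have hB1 := mem_filter.mp hB
    have hB2 := mem_powersetCard.mp hB1.1
    have hxB : x ∈ B := mem_coe.mp hx
    have hyB : y ∈ B := mem_coe.mp hy
    by_cases hxA : ∃ j < k - 1, x ∈ A j
    · obtain ⟨j, hj, hxj⟩ := hxA
      have hyj : y ∈ A j := by
        refine mem_filter.mpr ⟨hB2.1 hyB, ?_⟩
        rw [← hxy]
        exact (mem_filter.mp hxj).2
      obtain ⟨z, hz⟩ := card_eq_one.mp (hB1.2 j hj)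
      have e1 : x = z := by
        have : x ∈ B ∩ A j := mem_inter.mpr ⟨hxB, hxj⟩
        rw [hz] at this
        exact mem_singleton.mp this
      have e2 : y = z := by
        have : y ∈ B ∩ A j := mem_inter.mpr ⟨hyB, hyj⟩
        rw [hz] at this
        exact mem_singleton.mp this
      exact hne' (e1.trans e2.symm)
    · have hyA : ¬ ∃ j < k - 1, y ∈ A j := by
        rintro ⟨j, hj, hyj⟩
        apply hxA
        refine ⟨j, hj, mem_filter.mpr ⟨hB2.1 hxB, ?_⟩⟩
        rw [hxy]
        exact (mem_filter.mp hyj).2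
      -- the k - 1 points in the A j together with x, y are k + 1 points
      have hsub : (range (k - 1)).biUnion (fun j => B ∩ A j) ∪ {x, y} ⊆ B := by
        intro z hz
        rcases mem_union.mp hz with hz | hz
        · obtain ⟨j, -, hz⟩ := mem_biUnion.mp hz
          exact (mem_inter.mp hz).1
        · rcases mem_insert.mp hz with rfl | hz
          · exact hxB
          · rw [mem_singleton.mp hz]; exact hyB
      have hdj : Disjoint ((range (k - 1)).biUnion (fun j => B ∩ A j)) {x, y} := by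
        rw [disjoint_left]
        intro z hz hz'
        obtain ⟨j, hj, hz⟩ := mem_biUnion.mp hz
        have hzA := (mem_inter.mp hz).2
        rcases mem_insert.mp hz' with rfl | hz'
        · exact hxA ⟨j, mem_range.mp hj, hzA⟩
        · rw [mem_singleton.mp hz'] at hzA
          exact hyA ⟨j, mem_range.mp hj, hzA⟩
      have hc1 : ((range (k - 1)).biUnion (fun j => B ∩ A j)).card = k - 1 := by
        rw [card_biUnion]
        · rw [sum_congr rfl (fun j hj => hB1.2 j (mem_range.mp hj)), sum_const, card_range]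
          simp
        · intro i1 hi1 j hj hij
          exact (hAdis i1 (mem_range.mp hi1) j (mem_range.mp hj) hij).mono
            inter_subset_right inter_subset_right
      have hc2 := card_le_card hsub
      rw [card_union_of_disjoint hdj, hc1, card_pair hne', hB2.2] at hc2
      omega

end Pool.Agent.Kv
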