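import Mathlib

set_option autoImplicit false

/-!
# Module PSeq: a random greedy partial system (section 14 of the paper proof), proved

Derandomised by a potential. State: accepted family `P`, accumulated counts `F c`, `H S`.
-/

namespace Pool.Agent.Kv

open Finset

/-- number of members of `Gc` meeting `B` in at least `t` points -/
noncomputable def PSeq_f (t : ℕ) (Gc : Finset (Finset ℕ)) (B : Finset ℕ) : ℝ :=
  ((Gc.filter (fun G => t ≤ (G ∩ B).card)).card : ℝ)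

/-- blocked members of `Gc` -/
def PSeq_blk (t : ℕ) (Gc P : Finset (Finset ℕ)) : Finset (Finset ℕ) :=
  Gc.filter (fun G => ∃ B ∈ P, t ≤ (G ∩ B).card)

open Classical in
/-- the greedy step -/
noncomputable def PSeq_acc (t : ℕ) (P : Finset (Finset ℕ)) (B : Finset ℕ) :
    Finset (Finset ℕ) :=
  if ∀ B' ∈ P, (B ∩ B').card < t then insert B P else P

open Classical in
/-- the first part of the potential -/
noncomputable def PSeq_w1 (t : ℕ) (Gc P : Finset (Finset ℕ)) (x : ℝ) : ℝ :=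
  if (∀ B ∈ P, B ∉ Gc) ∧ 2 * (PSeq_blk t Gc P).card ≤ Gc.card then x else 0

lemma PSeq_acc_sub (t : ℕ) (P : Finset (Finset ℕ)) (B : Finset ℕ) : P ⊆ PSeq_acc t P B := by
  unfold PSeq_acc
  split_ifs
  · exact subset_insert _ _
  · exact Subset.rfl

lemma PSeq_acc_sub' (t : ℕ) (P : Finset (Finset ℕ)) (B : Finset ℕ) :
    PSeq_acc t P B ⊆ insert B P := by
  unfold PSeq_acc
  split_ifs
  · exact Subset.rfl
  · exact subset_insert _ _

lemma PSeq_blk_mono (t : ℕ) (Gc : Finset (Finset ℕ)) {P P' : Finset (Finset ℕ)} (h : P ⊆ P') :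
    PSeq_blk t Gc P ⊆ PSeq_blk t Gc P' := by
  intro G hG
  unfold PSeq_blk at hG ⊢
  rw [mem_filter] at hG ⊢
  obtain ⟨h1, B, hB, h2⟩ := hG
  exact ⟨h1, B, h hB, h2⟩

lemma PSeq_blk_acc (t : ℕ) (Gc P : Finset (Finset ℕ)) (B : Finset ℕ) :
    ((PSeq_blk t Gc (PSeq_acc t P B)).card : ℝ) ≤ (PSeq_blk t Gc P).card + PSeq_f t Gc B := by
  unfold PSeq_f
  have h1 : PSeq_blk t Gc (PSeq_acc t P B) ⊆
      PSeq_blk t Gc P ∪ Gc.filter (fun G => t ≤ (G ∩ B).card) := by
    intro G hG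
    have hG' := PSeq_blk_mono t Gc (PSeq_acc_sub' t P B) hG
    unfold PSeq_blk at hG' ⊢
    rw [mem_filter] at hG'
    obtain ⟨h1, B', hB', h2⟩ := hG'
    rw [mem_union, mem_filter, mem_filter]
    rcases mem_insert.1 hB' with h | h
    · subst h
      exact Or.inr ⟨h1, h2⟩
    · exact Or.inl ⟨h1, B', h, h2⟩
  have h2 := (card_le_card h1).trans (card_union_le _ _)
  exact_mod_cast h2

lemma PSeq_avg1 (t : ℕ) (Ω Gc P : Finset (Finset ℕ)) (hG : Gc ⊆ Ω) (x : ℝ) (hx : 0 ≤ x) :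
    ∑ B ∈ Ω, PSeq_w1 t Gc (PSeq_acc t P B) x ≤
      PSeq_w1 t Gc P (((Ω.card : ℝ) - (Gc.card : ℝ) / 2) * x) := by
  classical
  by_cases h : (∀ B ∈ P, B ∉ Gc) ∧ 2 * (PSeq_blk t Gc P).card ≤ Gc.card
  · have hR : PSeq_w1 t Gc P (((Ω.card : ℝ) - (Gc.card : ℝ) / 2) * x) =
        ((Ω.card : ℝ) - (Gc.card : ℝ) / 2) * x := by
      unfold PSeq_w1
      rw [if_pos h]
    rw [hR]
    have h1 : ∀ B ∈ Ω, PSeq_w1 t Gc (PSeq_acc t P B) x ≤
        if B ∈ Gc \ PSeq_blk t Gc P then 0 else x := by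
      intro B hB
      by_cases hB1 : B ∈ Gc \ PSeq_blk t Gc P
      · rw [if_pos hB1]
        rw [mem_sdiff] at hB1
        have h2 : ∀ B' ∈ P, (B ∩ B').card < t := by
          intro B' hB'
          by_contra hcon
          push Not at hcon
          apply hB1.2
          unfold PSeq_blk
          rw [mem_filter]
          exact ⟨hB1.1, B', hB', hcon⟩
        have h3 : ¬ ((∀ B' ∈ PSeq_acc t P B, B' ∉ Gc) ∧
            2 * (PSeq_blk t Gc (PSeq_acc t P B)).card ≤ Gc.card) := by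
          intro hc
          refine hc.1 B ?_ hB1.1
          unfold PSeq_acc
          rw [if_pos h2]
          exact mem_insert_self _ _
        unfold PSeq_w1
        rw [if_neg h3]
      · rw [if_neg hB1]
        unfold PSeq_w1
        split_ifs
        · exact le_rfl
        · exact hx
    refine (sum_le_sum h1).trans ?_
    rw [← sum_filter_add_sum_filter_not Ω (fun B => B ∈ Gc \ PSeq_blk t Gc P)]
    rw [sum_congr rfl (g := fun _ => (0:ℝ)) (by
      intro B hB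
      rw [mem_filter] at hB
      rw [if_pos hB.2]),
      sum_congr (s₁ := Ω.filter (fun B => ¬ B ∈ Gc \ PSeq_blk t Gc P)) rfl
      (g := fun _ => x) (by
      intro B hB
      rw [mem_filter] at hB
      rw [if_neg hB.2])]
    rw [sum_const_zero, zero_add, sum_const, nsmul_eq_mul]
    apply mul_le_mul_of_nonneg_right _ hx
    have hsub : Gc \ PSeq_blk t Gc P ⊆ Ω := sdiff_subset.trans hG
    have hc1 : (Ω.filter (fun B => ¬ B ∈ Gc \ PSeq_blk t Gc P)) =
        Ω \ (Gc \ PSeq_blk t Gc P) := by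
      ext B
      simp only [mem_filter, mem_sdiff]
    rw [hc1, card_sdiff_of_subset hsub]
    have hsub2 : PSeq_blk t Gc P ⊆ Gc := filter_subset _ _
    have hc2 : (Gc \ PSeq_blk t Gc P).card = Gc.card - (PSeq_blk t Gc P).card :=
      card_sdiff_of_subset hsub2
    have hc3 : (PSeq_blk t Gc P).card ≤ Gc.card := card_le_card hsub2
    have hc4 : (Gc \ PSeq_blk t Gc P).card ≤ Ω.card := card_le_card hsub
    rw [Nat.cast_sub hc4, hc2, Nat.cast_sub hc3]
    have hc5 : 2 * ((PSeq_blk t Gc P).card : ℝ) ≤ Gc.card := by exact_mod_cast h.2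
    linarith
  · have hR : PSeq_w1 t Gc P (((Ω.card : ℝ) - (Gc.card : ℝ) / 2) * x) = 0 := by
      unfold PSeq_w1
      rw [if_neg h]
    rw [hR]
    apply le_of_eq
    apply sum_eq_zero
    intro B _
    unfold PSeq_w1
    rw [if_neg]
    intro hc
    apply h
    refine ⟨fun B' hB' => hc.1 B' (PSeq_acc_sub t P B hB'), ?_⟩
    have := card_le_card (PSeq_blk_mono t Gc (PSeq_acc_sub t P B))
    omega

/-- average of the exponentials -/
noncomputable def PSeq_A (Ω : Finset (Finset ℕ)) (g : Finset ℕ → ℝ) : ℝ :=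
  (∑ B ∈ Ω, Real.exp (g B)) / (Ω.card : ℝ)

lemma PSeq_A_nonneg (Ω : Finset (Finset ℕ)) (g : Finset ℕ → ℝ) : 0 ≤ PSeq_A Ω g := by
  unfold PSeq_A
  positivity

lemma PSeq_avg2 (Ω : Finset (Finset ℕ)) (hΩ : 0 < Ω.card) (g : Finset ℕ → ℝ) (a K : ℝ)
    (j : ℕ) :
    ∑ B ∈ Ω, Real.exp (a + g B - K) * (PSeq_A Ω g) ^ j =
      (Ω.card : ℝ) * (Real.exp (a - K) * (PSeq_A Ω g) ^ (j + 1)) := by
  have hC : (0:ℝ) < Ω.card := by exact_mod_cast hΩ
  rw [← sum_mul]
  have h1 : ∑ B ∈ Ω, Real.exp (a + g B - K) =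
      Real.exp (a - K) * ∑ B ∈ Ω, Real.exp (g B) := by
    rw [mul_sum]
    apply sum_congr rfl
    intro B _
    rw [← Real.exp_add]
    congr 1
    ring
  rw [h1]
  have h2 : ∑ B ∈ Ω, Real.exp (g B) = (Ω.card : ℝ) * PSeq_A Ω g := by
    unfold PSeq_A
    field_simp
  rw [h2]
  ring

/-- the potential -/
noncomputable def PSeq_Phi {σ : Type} (t : ℕ) (Ω : Finset (Finset ℕ)) (Cf : Finset σ)
    (Gd : σ → Finset (Finset ℕ)) (fm : σ → ℝ) (Ss : Finset (Finset ℕ)) (D : ℝ) (j : ℕ)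
    (P : Finset (Finset ℕ)) (F : σ → ℝ) (H : Finset ℕ → ℝ) : ℝ :=
  ∑ c ∈ Cf, (PSeq_w1 t (Gd c) P ((1 - ((Gd c).card : ℝ) / (2 * (Ω.card : ℝ))) ^ j) +
    Real.exp ((fm c)⁻¹ * F c - (fm c)⁻¹ * ((Gd c).card : ℝ) / 2) *
      (PSeq_A Ω (fun B => (fm c)⁻¹ * PSeq_f t (Gd c) B)) ^ j) +
  ∑ S ∈ Ss, Real.exp (H S - 3 * D) *
    (PSeq_A Ω (fun B => if S ⊆ B then (1:ℝ) else 0)) ^ j

/-- the invariant -/
def PSeq_Inv {σ : Type} (t : ℕ) (Ω : Finset (Finset ℕ)) (Cf : Finset σ)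
    (Gd : σ → Finset (Finset ℕ)) (Ss : Finset (Finset ℕ))
    (P : Finset (Finset ℕ)) (F : σ → ℝ) (H : Finset ℕ → ℝ) : Prop :=
  P ⊆ Ω ∧ (∀ B ∈ P, ∀ B' ∈ P, B ≠ B' → (B ∩ B').card < t) ∧
    (∀ c ∈ Cf, ((PSeq_blk t (Gd c) P).card : ℝ) ≤ F c) ∧
    (∀ S ∈ Ss, ((P.filter (fun B => S ⊆ B)).card : ℝ) ≤ H S)

lemma PSeq_w1_nonneg (t : ℕ) (Gc P : Finset (Finset ℕ)) {x : ℝ} (hx : 0 ≤ x) :
    0 ≤ PSeq_w1 t Gc P x := by
  unfold PSeq_w1
  split_ifs
  · exact hx
  · exact le_rfl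

lemma PSeq_Inv_step {σ : Type} {t : ℕ} {Ω : Finset (Finset ℕ)} {Cf : Finset σ}
    {Gd : σ → Finset (Finset ℕ)} {Ss : Finset (Finset ℕ)}
    {P : Finset (Finset ℕ)} {F : σ → ℝ} {H : Finset ℕ → ℝ}
    (h : PSeq_Inv t Ω Cf Gd Ss P F H) {B : Finset ℕ} (hB : B ∈ Ω) :
    PSeq_Inv t Ω Cf Gd Ss (PSeq_acc t P B) (fun c => F c + PSeq_f t (Gd c) B)
      (fun S => H S + if S ⊆ B then 1 else 0) := by
  classical
  obtain ⟨h1, h2, h3, h4⟩ := h
  refine ⟨?_, ?_, ?_, ?_⟩
  · exact (PSeq_acc_sub' t P B).trans (insert_subset hB h1)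
  · unfold PSeq_acc
    split_ifs with hc
    · intro X hX Y hY hXY
      rcases mem_insert.1 hX with hx | hx
      · rcases mem_insert.1 hY with hy | hy
        · exact absurd (hx.trans hy.symm) hXY
        · subst hx
          exact hc Y hy
      · rcases mem_insert.1 hY with hy | hy
        · subst hy
          rw [inter_comm]
          exact hc X hx
        · exact h2 X hx Y hy hXY
    · exact h2
  · intro c hc
    refine (PSeq_blk_acc t (Gd c) P B).trans ?_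
    have := h3 c hc
    linarith
  · intro S hS
    have h5 := h4 S hS
    have h6 : (PSeq_acc t P B).filter (fun B => S ⊆ B) ⊆
        (insert B P).filter (fun B => S ⊆ B) :=
      filter_subset_filter _ (PSeq_acc_sub' t P B)
    have h7 := card_le_card h6
    show _ ≤ H S + if S ⊆ B then (1:ℝ) else 0
    rw [filter_insert] at h7
    split_ifs at h7 ⊢ with hSB
    · have h8 := h7.trans (card_insert_le _ _)
      have h9 : (((PSeq_acc t P B).filter (fun B => S ⊆ B)).card : ℝ) ≤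
          ((P.filter (fun B => S ⊆ B)).card : ℝ) + 1 := by exact_mod_cast h8
      linarith
    · have h9 : (((PSeq_acc t P B).filter (fun B => S ⊆ B)).card : ℝ) ≤
          ((P.filter (fun B => S ⊆ B)).card : ℝ) := by exact_mod_cast h7
      linarith

lemma PSeq_Phi_step {σ : Type} {t : ℕ} {Ω : Finset (Finset ℕ)} (hΩ : 0 < Ω.card)
    {Cf : Finset σ} {Gd : σ → Finset (Finset ℕ)} (hGd : ∀ c ∈ Cf, Gd c ⊆ Ω)
    {fm : σ → ℝ} {Ss : Finset (Finset ℕ)} {D : ℝ} {j : ℕ}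
    {P : Finset (Finset ℕ)} {F : σ → ℝ} {H : Finset ℕ → ℝ} :
    ∃ B ∈ Ω, PSeq_Phi t Ω Cf Gd fm Ss D j (PSeq_acc t P B) (fun c => F c + PSeq_f t (Gd c) B)
      (fun S => H S + if S ⊆ B then 1 else 0) ≤ PSeq_Phi t Ω Cf Gd fm Ss D (j + 1) P F H := by
  classical
  have hC : (0:ℝ) < Ω.card := by exact_mod_cast hΩ
  apply exists_le_of_sum_le (card_pos.1 hΩ)
  rw [sum_const, nsmul_eq_mul]
  unfold PSeq_Phi
  rw [sum_add_distrib, mul_add, sum_comm, sum_comm (s := Ω) (t := Ss)]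
  apply add_le_add
  · rw [mul_sum]
    apply sum_le_sum
    intro c hc
    rw [sum_add_distrib, mul_add]
    have hcard : ((Gd c).card : ℝ) ≤ Ω.card := by exact_mod_cast card_le_card (hGd c hc)
    have hnn : 0 ≤ 1 - ((Gd c).card : ℝ) / (2 * (Ω.card : ℝ)) := by
      rw [sub_nonneg, div_le_one (by positivity)]
      have : (0:ℝ) ≤ (Gd c).card := by positivity
      linarith
    apply add_le_add
    · refine (PSeq_avg1 t Ω (Gd c) P (hGd c hc) _ (pow_nonneg hnn j)).trans ?_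
      apply le_of_eq
      unfold PSeq_w1
      split_ifs
      · rw [pow_succ]
        field_simp
      · simp
    · apply le_of_eq
      have h := PSeq_avg2 Ω hΩ (fun B => (fm c)⁻¹ * PSeq_f t (Gd c) B) ((fm c)⁻¹ * F c)
        ((fm c)⁻¹ * ((Gd c).card : ℝ) / 2) j
      rw [← h]
      apply sum_congr rfl
      intro B _
      congr 3
      ring
  · rw [mul_sum]
    apply sum_le_sum
    intro S _
    apply le_of_eq
    have h := PSeq_avg2 Ω hΩ (fun B => if S ⊆ B then (1:ℝ) else 0) (H S) (3 * D) j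
    rw [← h]

lemma PSeq_run {σ : Type} {t : ℕ} {Ω : Finset (Finset ℕ)} (hΩ : 0 < Ω.card)
    {Cf : Finset σ} {Gd : σ → Finset (Finset ℕ)} (hGd : ∀ c ∈ Cf, Gd c ⊆ Ω)
    {fm : σ → ℝ} {Ss : Finset (Finset ℕ)} {D : ℝ} (j : ℕ) :
    ∀ (P : Finset (Finset ℕ)) (F : σ → ℝ) (H : Finset ℕ → ℝ),
      PSeq_Inv t Ω Cf Gd Ss P F H → PSeq_Phi t Ω Cf Gd fm Ss D j P F H < 1 →
      ∃ (P : Finset (Finset ℕ)) (F : σ → ℝ) (H : Finset ℕ → ℝ),
        PSeq_Inv t Ω Cf Gd Ss P F H ∧ PSeq_Phi t Ω Cf Gd fm Ss D 0 P F H < 1 := by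
  induction j with
  | zero => intro P F H h1 h2; exact ⟨P, F, H, h1, h2⟩
  | succ j ih =>
    intro P F H h1 h2
    obtain ⟨B, hB, hle⟩ := PSeq_Phi_step (t := t) hΩ hGd (fm := fm) (Ss := Ss) (D := D) (j := j)
      (P := P) (F := F) (H := H)
    exact ih _ _ _ (PSeq_Inv_step h1 hB) (hle.trans_lt h2)

lemma PSeq_exp_le {x : ℝ} (h0 : 0 ≤ x) (h1 : x ≤ 1) : Real.exp x ≤ 1 + 2 * x := by
  have h2 : Real.exp x ≤ 1 + x + x ^ 2 := by
    have h3 := Real.abs_exp_sub_one_sub_id_le (x := x) (by rw [abs_of_nonneg h0]; exact h1)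
    have h4 := (abs_le.1 h3).2
    linarith
  nlinarith

lemma PSeq_A_le1 {Ω : Finset (Finset ℕ)} (hΩ : 0 < Ω.card) {g : Finset ℕ → ℝ}
    (hg0 : ∀ B ∈ Ω, 0 ≤ g B) (hg1 : ∀ B ∈ Ω, g B ≤ 1) :
    PSeq_A Ω g ≤ Real.exp (2 * (∑ B ∈ Ω, g B) / Ω.card) := by
  have hC : (0:ℝ) < Ω.card := by exact_mod_cast hΩ
  unfold PSeq_A
  have h1 : ∑ B ∈ Ω, Real.exp (g B) ≤ ∑ B ∈ Ω, (1 + 2 * g B) :=
    sum_le_sum (fun B hB => PSeq_exp_le (hg0 B hB) (hg1 B hB))
  have h2 : ∑ B ∈ Ω, (1 + 2 * g B) = Ω.card + 2 * ∑ B ∈ Ω, g B := by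
    rw [sum_add_distrib, sum_const, nsmul_eq_mul, mul_one, mul_sum]
  have h3 : (∑ B ∈ Ω, Real.exp (g B)) / (Ω.card : ℝ) ≤ 2 * (∑ B ∈ Ω, g B) / Ω.card + 1 := by
    rw [div_le_iff₀ hC]
    have : (2 * (∑ B ∈ Ω, g B) / Ω.card + 1) * (Ω.card : ℝ) = 2 * (∑ B ∈ Ω, g B) + Ω.card := by
      field_simp
    rw [this]
    linarith
  exact h3.trans (Real.add_one_le_exp _)

theorem pseq {k t n m : ℕ} (ht : 1 ≤ t) (htk : t ≤ k) (hkn : k ≤ n) {σ : Type} (Cf : Finset σ)
    (Gd : σ → Finset (Finset ℕ)) (hGd : ∀ c ∈ Cf, Gd c ⊆ powersetCard k (range n))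
    (fm : σ → ℝ) (hfm0 : ∀ c ∈ Cf, 0 < fm c)
    (hfm : ∀ c ∈ Cf, ∀ B ∈ powersetCard k (range n),
      (((Gd c).filter (fun G => t ≤ (G ∩ B).card)).card : ℝ) ≤ fm c)
    (hmean : ∀ c ∈ Cf, 8 * (m : ℝ) * ∑ B ∈ powersetCard k (range n),
      (((Gd c).filter (fun G => t ≤ (G ∩ B).card)).card : ℝ) ≤
        ((Gd c).card : ℝ) * (n.choose k : ℝ))
    (Ss : Finset (Finset ℕ)) (D : ℝ)
    (hD : ∀ S ∈ Ss, (m : ℝ) * (((powersetCard k (range n)).filter (fun B => S ⊆ B)).card : ℝ) ≤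
      D * (n.choose k : ℝ))
    (hsmall : ∑ c ∈ Cf, (Real.exp (-(((Gd c).card : ℝ) / (4 * fm c))) +
        Real.exp (-((m : ℝ) * ((Gd c).card : ℝ) / (2 * (n.choose k : ℝ))))) +
        (Ss.card : ℝ) * Real.exp (-D) < 1) :
    ∃ P ⊆ powersetCard k (range n), (∀ B ∈ P, ∀ B' ∈ P, B ≠ B' → (B ∩ B').card < t) ∧
      (∀ c ∈ Cf, ∃ B ∈ P, B ∈ Gd c) ∧
      ∀ S ∈ Ss, ((P.filter (fun B => S ⊆ B)).card : ℝ) ≤ 3 * D := by
  classical
  set Ω := powersetCard k (range n) with hΩdef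
  have hcardΩ : Ω.card = n.choose k := by
    rw [hΩdef, card_powersetCard, card_range]
  have hΩ : 0 < Ω.card := by
    rw [hcardΩ]
    exact Nat.choose_pos hkn
  have hC : (0:ℝ) < Ω.card := by exact_mod_cast hΩ
  rw [← hcardΩ] at hsmall
  have hInv0 : PSeq_Inv t Ω Cf Gd Ss ∅ (fun _ => 0) (fun _ => 0) := by
    refine ⟨empty_subset _, ?_, ?_, ?_⟩
    · intro B hB
      exact absurd hB (notMem_empty _)
    · intro c _
      simp [PSeq_blk]
    · intro S _
      simp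
  have hPhi0 : PSeq_Phi t Ω Cf Gd fm Ss D m ∅ (fun _ => 0) (fun _ => 0) < 1 := by
    refine lt_of_le_of_lt ?_ hsmall
    unfold PSeq_Phi
    apply add_le_add
    · apply sum_le_sum
      intro c hc
      have hcard : ((Gd c).card : ℝ) ≤ Ω.card := by exact_mod_cast card_le_card (hGd c hc)
      have hnn : 0 ≤ 1 - ((Gd c).card : ℝ) / (2 * (Ω.card : ℝ)) := by
        rw [sub_nonneg, div_le_one (by positivity)]
        have : (0:ℝ) ≤ (Gd c).card := by positivity
        linarith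
      rw [add_comm]
      have hf0 := hfm0 c hc
      apply add_le_add
      · have hA := PSeq_A_le1 hΩ (g := fun B => (fm c)⁻¹ * PSeq_f t (Gd c) B)
          (by
            intro B _
            unfold PSeq_f
            positivity)
          (by
            intro B hB
            have := hfm c hc B hB
            show (fm c)⁻¹ * PSeq_f t (Gd c) B ≤ 1
            unfold PSeq_f
            rw [inv_mul_le_iff₀ hf0, mul_one]
            exact this)
        have h1 : (PSeq_A Ω (fun B => (fm c)⁻¹ * PSeq_f t (Gd c) B)) ^ m ≤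
            Real.exp (m * (2 * (∑ B ∈ Ω, (fm c)⁻¹ * PSeq_f t (Gd c) B) / Ω.card)) := by
          rw [Real.exp_nat_mul]
          exact pow_le_pow_left₀ (PSeq_A_nonneg _ _) hA m
        have h2 : Real.exp (m * (2 * (∑ B ∈ Ω, (fm c)⁻¹ * PSeq_f t (Gd c) B) / Ω.card)) ≤
            Real.exp ((fm c)⁻¹ * (Gd c).card / 4) := by
          apply Real.exp_le_exp.2
          rw [← mul_sum]
          have h3 := hmean c hc
          rw [← hcardΩ] at h3
          have h4 : (m:ℝ) * (2 * ((fm c)⁻¹ * ∑ B ∈ Ω, PSeq_f t (Gd c) B) / Ω.card) =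
            (fm c)⁻¹ * ((8 * (m:ℝ) * ∑ B ∈ Ω, PSeq_f t (Gd c) B) / Ω.card) / 4 := by
            ring
          rw [h4]
          have h5 : (8 * (m:ℝ) * ∑ B ∈ Ω, PSeq_f t (Gd c) B) / Ω.card ≤ (Gd c).card := by
            rw [div_le_iff₀ hC]
            exact h3
          have h6 : 0 < (fm c)⁻¹ := inv_pos.2 hf0
          have h7 := mul_le_mul_of_nonneg_left h5 h6.le
          linarith
        calc _ ≤ Real.exp ((fm c)⁻¹ * 0 - (fm c)⁻¹ * (Gd c).card / 2) *
              Real.exp ((fm c)⁻¹ * (Gd c).card / 4) :=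
              mul_le_mul_of_nonneg_left (h1.trans h2) (Real.exp_pos _).le
          _ = _ := by
            rw [← Real.exp_add]
            congr 1
            field_simp
            ring
      · have h1 : PSeq_w1 t (Gd c) ∅ ((1 - ((Gd c).card : ℝ) / (2 * (Ω.card : ℝ))) ^ m) ≤
            (1 - ((Gd c).card : ℝ) / (2 * (Ω.card : ℝ))) ^ m := by
          unfold PSeq_w1
          split_ifs
          · exact le_rfl
          · exact pow_nonneg hnn m
        refine h1.trans ?_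
        have h2 : 1 - ((Gd c).card : ℝ) / (2 * (Ω.card : ℝ)) ≤
            Real.exp (-(((Gd c).card : ℝ) / (2 * (Ω.card : ℝ)))) := by
          have := Real.add_one_le_exp (-(((Gd c).card : ℝ) / (2 * (Ω.card : ℝ))))
          linarith
        refine (pow_le_pow_left₀ hnn h2 m).trans ?_
        rw [← Real.exp_nat_mul]
        apply le_of_eq
        congr 1
        ring
    · rw [← nsmul_eq_mul, ← sum_const]
      apply sum_le_sum
      intro S hS
      have h1 : PSeq_A Ω (fun B => if S ⊆ B then (1:ℝ) else 0) ≤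
          Real.exp (2 * (((Ω.filter (fun B => S ⊆ B)).card : ℝ) / Ω.card)) := by
        have := PSeq_A_le1 hΩ (g := fun B => if S ⊆ B then (1:ℝ) else 0)
          (by
            intro B _
            show (0:ℝ) ≤ if S ⊆ B then (1:ℝ) else 0
            split_ifs <;> norm_num)
          (by
            intro B _
            show (if S ⊆ B then (1:ℝ) else 0) ≤ 1
            split_ifs <;> norm_num)
        refine this.trans (le_of_eq ?_)
        rw [sum_boole]
        congr 1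
        ring
      have h2 := pow_le_pow_left₀ (PSeq_A_nonneg _ _) h1 m
      rw [← Real.exp_nat_mul] at h2
      have h3 : Real.exp (m * (2 * (((Ω.filter (fun B => S ⊆ B)).card : ℝ) / Ω.card))) ≤
          Real.exp (2 * D) := by
        apply Real.exp_le_exp.2
        have h4 := hD S hS
        rw [← hcardΩ] at h4
        have h5 : (m:ℝ) * (2 * (((Ω.filter (fun B => S ⊆ B)).card : ℝ) / Ω.card)) =
          2 * (((m:ℝ) * ((Ω.filter (fun B => S ⊆ B)).card : ℝ)) / Ω.card) := by ring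
        rw [h5]
        have h6 : ((m:ℝ) * ((Ω.filter (fun B => S ⊆ B)).card : ℝ)) / Ω.card ≤ D := by
          rw [div_le_iff₀ hC]
          exact h4
        linarith
      calc _ ≤ Real.exp (0 - 3 * D) * Real.exp (2 * D) :=
            mul_le_mul_of_nonneg_left (h2.trans h3) (Real.exp_pos _).le
        _ = _ := by
          rw [← Real.exp_add]
          congr 1
          ring
  obtain ⟨P, F, H, hInv, hPhi⟩ := PSeq_run hΩ hGd (fm := fm) (Ss := Ss) (D := D) m _ _ _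
    hInv0 hPhi0
  obtain ⟨h1, h2, h3, h4⟩ := hInv
  unfold PSeq_Phi at hPhi
  simp only [pow_zero, mul_one] at hPhi
  have hnn1 : ∀ c ∈ Cf, 0 ≤ PSeq_w1 t (Gd c) P 1 +
      Real.exp ((fm c)⁻¹ * F c - (fm c)⁻¹ * ((Gd c).card : ℝ) / 2) :=
    fun c _ => add_nonneg (PSeq_w1_nonneg _ _ _ zero_le_one) (Real.exp_pos _).le
  have hnn2 : ∀ S ∈ Ss, 0 ≤ Real.exp (H S - 3 * D) := fun S _ => (Real.exp_pos _).le
  refine ⟨P, h1, h2, ?_, ?_⟩
  · intro c hc
    by_contra hcon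
    push Not at hcon
    have h5 := single_le_sum hnn1 hc
    have h6 := sum_nonneg hnn2
    have h7 : PSeq_w1 t (Gd c) P 1 +
      Real.exp ((fm c)⁻¹ * F c - (fm c)⁻¹ * ((Gd c).card : ℝ) / 2) < 1 := by linarith
    by_cases hb : 2 * (PSeq_blk t (Gd c) P).card ≤ (Gd c).card
    · have h8 : PSeq_w1 t (Gd c) P 1 = 1 := by
        unfold PSeq_w1
        rw [if_pos ⟨hcon, hb⟩]
      have := Real.exp_pos ((fm c)⁻¹ * F c - (fm c)⁻¹ * ((Gd c).card : ℝ) / 2)
      linarith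
    · push Not at hb
      have hb' : ((Gd c).card : ℝ) < 2 * (PSeq_blk t (Gd c) P).card := by exact_mod_cast hb
      have h8 := h3 c hc
      have h9 : 0 < (fm c)⁻¹ := inv_pos.2 (hfm0 c hc)
      have h10 : 0 ≤ (fm c)⁻¹ * F c - (fm c)⁻¹ * ((Gd c).card : ℝ) / 2 := by
        have : (fm c)⁻¹ * F c - (fm c)⁻¹ * ((Gd c).card : ℝ) / 2 =
          (fm c)⁻¹ * (F c - ((Gd c).card : ℝ) / 2) := by ring
        rw [this]
        apply mul_nonneg h9.le
        linarith
      have h11 := Real.one_le_exp h10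
      have h12 := PSeq_w1_nonneg t (Gd c) P zero_le_one
      linarith
  · intro S hS
    by_contra hcon
    push Not at hcon
    have h5 := single_le_sum hnn2 hS
    have h6 := sum_nonneg hnn1
    have h7 := h4 S hS
    have h8 : 0 ≤ H S - 3 * D := by linarith
    have h9 := Real.one_le_exp h8
    linarith

end Pool.Agent.Kv
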