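import Pool.Agent.Designs.PColor
import Pool.Agent.Designs.PSeq
import Pool.Agent.Designs.Asym

set_option autoImplicit false

/-!
# Module PMain: Theorem P (section 14)
-/

namespace Pool.Agent.Kv

open Finset

/-- all the largeness conditions used below. -/
theorem PMain_large (k t : ℕ) {c' ε' : ℝ} (hc : 0 < c') (hε : 0 < ε') :
    ∃ n0 : ℕ, ∀ n ≥ n0, 2 * k ≤ n ∧ 1 ≤ n ∧
      16 * 2 ^ k * (2 * (k : ℝ)) ^ t ≤ (n : ℝ) ^ ε' ∧
      (8 * (k : ℝ) * 2 ^ (2 * k + 3) * (2 * k + 2)) * (Lam n : ℝ) ^ 2 ≤ (n : ℝ) ^ c' ∧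
      (4 * (2 * (k : ℝ) + 2) * (8 * (k : ℝ)) ^ (k - 2)) * (Lam n : ℝ) ^ (k - 1) ≤
        (n : ℝ) ^ ε' ∧
      (t : ℝ) * (Lam n : ℝ) ^ 1 ≤ (n : ℝ) ^ (1 / 2 : ℝ) ∧
      6 * (k : ℝ) * (2 * (k : ℝ)) ^ (t - 1) ≤ (n : ℝ) ^ (ε' / 2) := by
  obtain ⟨n1, h1⟩ := Lam_pow_le_rpow 0 hε (16 * 2 ^ k * (2 * (k : ℝ)) ^ t)
  obtain ⟨n2, h2⟩ := Lam_pow_le_rpow 2 hc (8 * (k : ℝ) * 2 ^ (2 * k + 3) * (2 * k + 2))
  obtain ⟨n3, h3⟩ := Lam_pow_le_rpow (k - 1) hε (4 * (2 * (k : ℝ) + 2) * (8 * (k : ℝ)) ^ (k - 2))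
  obtain ⟨n4, h4⟩ := Lam_pow_le_rpow 1 (by norm_num : (0 : ℝ) < 1 / 2) (t : ℝ)
  obtain ⟨n5, h5⟩ := Lam_pow_le_rpow 0 (half_pos hε) (6 * (k : ℝ) * (2 * (k : ℝ)) ^ (t - 1))
  refine ⟨n1 + n2 + n3 + n4 + n5 + 2 * k + 1, fun n hn => ⟨by omega, by omega, ?_, h2 n (by omega),
    h3 n (by omega), h4 n (by omega), ?_⟩⟩
  · simpa using h1 n (by omega)
  · simpa using h5 n (by omega)

/-- extension of a finite configuration. -/
def PMain_ext (k : ℕ) (A : Fin (k - 1) → Finset ℕ) (j : ℕ) : Finset ℕ :=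
  if h : j < k - 1 then A ⟨j, h⟩ else ∅

lemma PMain_ext_of_lt {k : ℕ} (A : Fin (k - 1) → Finset ℕ) {j : ℕ} (h : j < k - 1) :
    PMain_ext k A j = A ⟨j, h⟩ := by
  unfold PMain_ext; rw [dif_pos h]

/-- the configurations with parameter `a`. -/
def PMain_Fa (k n a : ℕ) : Finset (Fin (k - 1) → Finset ℕ) :=
  (Fintype.piFinset (fun _ : Fin (k - 1) =>
    (range n).powerset.filter (fun A => A.card ≤ 2 * a))).filter
    (fun A => (∀ j, a ≤ (A j).card) ∧ (∀ i j, i ≠ j → Disjoint (A i) (A j)) ∧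
      2 * ∑ j, (A j).card ≤ n)

lemma PMain_card_Fa (k n a : ℕ) : (PMain_Fa k n a).card ≤ (n + 1) ^ (2 * a * (k - 1)) := by
  unfold PMain_Fa
  refine (card_filter_le _ _).trans ?_
  rw [Fintype.card_piFinset_const]
  calc ((range n).powerset.filter (fun A => A.card ≤ 2 * a)).card ^ (k - 1)
      ≤ ((n + 1) ^ (2 * a)) ^ (k - 1) := Nat.pow_le_pow_left (card_small n (2 * a)) _
    _ = (n + 1) ^ (2 * a * (k - 1)) := by rw [← pow_mul]

lemma PMain_mem_Fa {k n a : ℕ} {A : Fin (k - 1) → Finset ℕ} :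
    A ∈ PMain_Fa k n a ↔ (∀ j, A j ⊆ range n ∧ (A j).card ≤ 2 * a) ∧ (∀ j, a ≤ (A j).card) ∧
      (∀ i j, i ≠ j → Disjoint (A i) (A j)) ∧ 2 * ∑ j, (A j).card ≤ n := by
  simp [PMain_Fa, Fintype.mem_piFinset]

lemma PMain_Gdf_congr {k n : ℕ} {A B : ℕ → Finset ℕ} (h : ∀ j < k - 1, A j = B j) :
    Gdf k n A = Gdf k n B := by
  unfold Gdf
  apply filter_congr
  intro S _
  constructor
  · intro h1 j hj
    rw [← h j hj]; exact h1 j hj
  · intro h1 j hj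
    rw [h j hj]; exact h1 j hj

/-- the facts about a configuration in `Fa`, for its extension. -/
lemma PMain_Fa_ext {k n a : ℕ} {A : Fin (k - 1) → Finset ℕ} (hA : A ∈ PMain_Fa k n a) :
    (∀ j < k - 1, PMain_ext k A j ⊆ range n ∧ a ≤ (PMain_ext k A j).card) ∧
    (∀ j < k - 1, PMain_ext k A j ⊆ range n ∧ (PMain_ext k A j).card ≤ 2 * a) ∧
    (∀ i < k - 1, ∀ j < k - 1, i ≠ j → Disjoint (PMain_ext k A i) (PMain_ext k A j)) ∧
    2 * ∑ j ∈ range (k - 1), (PMain_ext k A j).card ≤ n := by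
  obtain ⟨h1, h2, h3, h4⟩ := PMain_mem_Fa.mp hA
  refine ⟨fun j hj => ?_, fun j hj => ?_, fun i hi j hj hij => ?_, ?_⟩
  · rw [PMain_ext_of_lt A hj]; exact ⟨(h1 _).1, h2 _⟩
  · rw [PMain_ext_of_lt A hj]; exact ⟨(h1 _).1, (h1 _).2⟩
  · rw [PMain_ext_of_lt A hi, PMain_ext_of_lt A hj]
    exact h3 _ _ (fun h => hij (by simpa using h))
  · rw [← Fin.sum_univ_eq_sum_range (fun j => (PMain_ext k A j).card) (k - 1)]
    have : ∑ i : Fin (k - 1), (PMain_ext k A i).card = ∑ j, (A j).card := by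
      apply sum_congr rfl
      intro i _
      rw [PMain_ext_of_lt A i.2]
    rw [this]; exact h4

/-- the configuration of a colouring, restricted to `Fin (k-1)`. -/
lemma PMain_restrict {k n a : ℕ} {A : ℕ → Finset ℕ}
    (h1 : ∀ j < k - 1, A j ⊆ range n ∧ a ≤ (A j).card ∧ (A j).card ≤ 2 * a)
    (h2 : ∀ i < k - 1, ∀ j < k - 1, i ≠ j → Disjoint (A i) (A j))
    (h3 : 2 * ∑ j ∈ range (k - 1), (A j).card ≤ n) :
    (fun i : Fin (k - 1) => A i) ∈ PMain_Fa k n a := by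
  rw [PMain_mem_Fa]
  refine ⟨fun j => ⟨(h1 j j.2).1, (h1 j j.2).2.2⟩, fun j => (h1 j j.2).2.1, fun i j hij => ?_, ?_⟩
  · exact h2 i i.2 j j.2 (fun h => hij (Fin.ext h))
  · rw [Fin.sum_univ_eq_sum_range (fun j => (A j).card) (k - 1)]; exact h3

/-- numerics for the first exponential term. -/
lemma PMain_num1 {k t n a G : ℕ} (ht : 2 ≤ t) (hk : t + 2 ≤ k) (hn : 1 ≤ n)
    (ha : 1 ≤ a) (hau : (2 : ℝ) ^ (2 * k + 3) * (2 * k + 2) * (Lam n : ℝ) ≤ a)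
    (hG : a ^ (k - 1) * n ≤ 2 * G) :
    (2 * (k : ℝ) + 2) * a * Real.log ((n : ℝ) + 1) ≤
      (G : ℝ) / (4 * (2 ^ (2 * k) * n * (a : ℝ) ^ (k - 1 - t))) := by
  have hnpos : (0 : ℝ) < n := by exact_mod_cast (by omega : 0 < n)
  have hapos : (1 : ℝ) ≤ a := by exact_mod_cast ha
  have hGr : (a : ℝ) ^ (k - 1) * n ≤ 2 * G := by exact_mod_cast hG
  have hlog := log_le_Lam n
  have hlog0 : 0 ≤ Real.log ((n : ℝ) + 1) := Real.log_nonneg (by linarith)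
  rw [le_div_iff₀ (by positivity)]
  have hpow : (a : ℝ) ^ (k - 1) = (a : ℝ) ^ (k - 1 - t) * (a : ℝ) ^ t := by
    rw [← pow_add]; congr 1; omega
  have ht2 : (a : ℝ) ^ 2 ≤ (a : ℝ) ^ t := pow_le_pow_right₀ hapos ht
  have h1 : (2 : ℝ) ^ (2 * k + 3) * (2 * k + 2) * Real.log ((n : ℝ) + 1) ≤ a :=
    le_trans (by gcongr) hau
  have h2 : (2 : ℝ) ^ (2 * k + 3) * (2 * k + 2) * Real.log ((n : ℝ) + 1) * a ≤ (a : ℝ) ^ t := by
    calc (2 : ℝ) ^ (2 * k + 3) * (2 * k + 2) * Real.log ((n : ℝ) + 1) * a ≤ a * a := by gcongr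
      _ = (a : ℝ) ^ 2 := by ring
      _ ≤ _ := ht2
  have h3 : (2 : ℝ) ^ (2 * k + 3) * (2 * k + 2) * Real.log ((n : ℝ) + 1) * a *
      ((a : ℝ) ^ (k - 1 - t) * n) ≤ (a : ℝ) ^ t * ((a : ℝ) ^ (k - 1 - t) * n) := by gcongr
  have h4 : (2 : ℝ) ^ (2 * k + 3) = 8 * 2 ^ (2 * k) := by rw [pow_add]; ring
  rw [hpow] at hGr
  rw [h4] at h3
  nlinarith

/-- numerics for the second exponential term. -/
lemma PMain_num2 {k t n a m G : ℕ} {c' ε' : ℝ} (ht : 2 ≤ t) (hk : t + 2 ≤ k) (hn : 1 ≤ n)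
    (ha : 1 ≤ a) (hm : (n : ℝ) ^ ((t : ℝ) - ε') ≤ m)
    (hau : (n : ℝ) ^ c' / (8 * k * (Lam n : ℝ)) ≤ a)
    (hε : 2 * ε' ≤ ((k : ℝ) - 2) * c' - ((k : ℝ) - t - 1))
    (h3 : (4 * (2 * (k : ℝ) + 2) * (8 * (k : ℝ)) ^ (k - 2)) * (Lam n : ℝ) ^ (k - 1) ≤
        (n : ℝ) ^ ε')
    (hkn : k ≤ n)
    (hG : a ^ (k - 1) * n ≤ 2 * G) :
    (2 * (k : ℝ) + 2) * a * Real.log ((n : ℝ) + 1) ≤
      (m : ℝ) * (G : ℝ) / (2 * (n.choose k : ℝ)) := by
  have hnpos : (0 : ℝ) < n := by exact_mod_cast (by omega : 0 < n)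
  have hn1 : (1 : ℝ) ≤ n := by exact_mod_cast hn
  have hapos : (1 : ℝ) ≤ a := by exact_mod_cast ha
  have hkpos : (0 : ℝ) < k := by exact_mod_cast (by omega : 0 < k)
  have hGr : (a : ℝ) ^ (k - 1) * n ≤ 2 * G := by exact_mod_cast hG
  have hlog := log_le_Lam n
  have hlog0 : 0 ≤ Real.log ((n : ℝ) + 1) := Real.log_nonneg (by linarith)
  have hlam : (1 : ℝ) ≤ (Lam n : ℝ) := one_le_Lam n
  have hlampos : (0 : ℝ) < (Lam n : ℝ) := by linarith
  have hCpos : (0 : ℝ) < (n.choose k : ℝ) := by exact_mod_cast Nat.choose_pos hkn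
  rw [le_div_iff₀ (by positivity)]
  have hC : (n.choose k : ℝ) ≤ (n : ℝ) ^ k := by exact_mod_cast Nat.choose_le_pow n k
  -- main estimate
  have key : 4 * (2 * (k : ℝ) + 2) * (Lam n : ℝ) * (n : ℝ) ^ (k - 1) ≤ m * (a : ℝ) ^ (k - 2) := by
    have e1 : ((n : ℝ) ^ c' / (8 * k * (Lam n : ℝ))) ^ (k - 2) ≤ (a : ℝ) ^ (k - 2) := by
      apply pow_le_pow_left₀ (by positivity) hau
    have e2 : (n : ℝ) ^ ((t : ℝ) - ε') * ((n : ℝ) ^ c' / (8 * k * (Lam n : ℝ))) ^ (k - 2) ≤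
        m * (a : ℝ) ^ (k - 2) := by
      apply mul_le_mul hm e1 (by positivity) (by positivity)
    refine le_trans ?_ e2
    rw [div_pow, ← mul_div_assoc, le_div_iff₀ (by positivity)]
    have e3 : ((n : ℝ) ^ c') ^ (k - 2) = (n : ℝ) ^ (c' * ((k : ℝ) - 2)) := by
      rw [← Real.rpow_natCast, ← Real.rpow_mul hnpos.le]
      congr 2
      rw [Nat.cast_sub (by omega)]; norm_num
    rw [e3, ← Real.rpow_add hnpos]
    have e4 : (n : ℝ) ^ ((k : ℝ) - 1 + ε') ≤ (n : ℝ) ^ ((t : ℝ) - ε' + c' * ((k : ℝ) - 2)) := by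
      apply Real.rpow_le_rpow_of_exponent_le hn1
      linarith
    refine le_trans ?_ e4
    rw [Real.rpow_add hnpos]
    have e5 : (n : ℝ) ^ ((k : ℝ) - 1) = (n : ℝ) ^ (k - 1) := by
      rw [← Real.rpow_natCast]
      congr 1
      rw [Nat.cast_sub (by omega)]; norm_num
    rw [e5]
    calc 4 * (2 * (k : ℝ) + 2) * (Lam n : ℝ) * (n : ℝ) ^ (k - 1) * (8 * k * (Lam n : ℝ)) ^ (k - 2)
        = (n : ℝ) ^ (k - 1) * ((4 * (2 * (k : ℝ) + 2) * (8 * (k : ℝ)) ^ (k - 2)) *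
          ((Lam n : ℝ) * (Lam n : ℝ) ^ (k - 2))) := by rw [mul_pow]; ring
      _ = (n : ℝ) ^ (k - 1) * ((4 * (2 * (k : ℝ) + 2) * (8 * (k : ℝ)) ^ (k - 2)) *
          (Lam n : ℝ) ^ (k - 1)) := by
          rw [← pow_succ', show k - 2 + 1 = k - 1 by omega]
      _ ≤ (n : ℝ) ^ (k - 1) * (n : ℝ) ^ ε' := by gcongr
  have hak : (a : ℝ) ^ (k - 1) = a * (a : ℝ) ^ (k - 2) := by
    rw [← pow_succ', show k - 2 + 1 = k - 1 by omega]
  have hnk : (n : ℝ) ^ k = n * (n : ℝ) ^ (k - 1) := by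
    rw [← pow_succ', show k - 1 + 1 = k by omega]
  calc (2 * (k : ℝ) + 2) * a * Real.log ((n : ℝ) + 1) * (2 * (n.choose k : ℝ))
      ≤ (2 * (k : ℝ) + 2) * a * (Lam n : ℝ) * (2 * (n : ℝ) ^ k) := by gcongr
    _ = (4 * (2 * (k : ℝ) + 2) * (Lam n : ℝ) * (n : ℝ) ^ (k - 1)) * (a * n / 2) := by
        rw [hnk]; ring
    _ ≤ (m * (a : ℝ) ^ (k - 2)) * (a * n / 2) := by gcongr
    _ = m * ((a : ℝ) ^ (k - 1) * n / 2) := by rw [hak]; ring
    _ ≤ m * G := by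
        have : (a : ℝ) ^ (k - 1) * n / 2 ≤ G := by linarith
        gcongr

/-- the sum over all configurations is small. -/
lemma PMain_sum {k n u : ℕ} (hn : 3 ≤ n) (hu : 1 ≤ u) (hk : 2 ≤ k)
    {g : (Σ _ : ℕ, (Fin (k - 1) → Finset ℕ)) → ℝ}
    (hg : ∀ a ∈ Finset.Icc u n, ∀ A ∈ PMain_Fa k n a,
      g ⟨a, A⟩ ≤ 2 * Real.exp (-((2 * (k : ℝ) + 2) * a * Real.log ((n : ℝ) + 1)))) :
    ∑ c ∈ (Finset.Icc u n).sigma (fun a => PMain_Fa k n a), g c ≤ 1 / 2 := by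
  rw [Finset.sum_sigma]
  have hn1 : (0 : ℝ) < (n : ℝ) + 1 := by positivity
  have hexp : ∀ a : ℕ, Real.exp (-((2 * (k : ℝ) + 2) * a * Real.log ((n : ℝ) + 1))) =
      (((n : ℝ) + 1) ^ ((2 * k + 2) * a))⁻¹ := by
    intro a
    rw [Real.exp_neg]
    congr 1
    have : (2 * (k : ℝ) + 2) * a * Real.log ((n : ℝ) + 1) =
        (((2 * k + 2) * a : ℕ) : ℝ) * Real.log ((n : ℝ) + 1) := by push_cast; ring
    rw [this, Real.exp_nat_mul, Real.exp_log hn1]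
  have hstep : ∀ a ∈ Finset.Icc u n, ∑ A ∈ PMain_Fa k n a, g ⟨a, A⟩ ≤
      2 * (((n : ℝ) + 1) ^ 4)⁻¹ := by
    intro a ha
    have ha1 : 1 ≤ a := hu.trans (mem_Icc.mp ha).1
    calc ∑ A ∈ PMain_Fa k n a, g ⟨a, A⟩
        ≤ (PMain_Fa k n a).card • (2 * (((n : ℝ) + 1) ^ ((2 * k + 2) * a))⁻¹) := by
          apply Finset.sum_le_card_nsmul
          intro A hA
          rw [← hexp]
          exact hg a ha A hA
      _ = ((PMain_Fa k n a).card : ℝ) * (2 * (((n : ℝ) + 1) ^ ((2 * k + 2) * a))⁻¹) := by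
          rw [nsmul_eq_mul]
      _ ≤ ((n : ℝ) + 1) ^ (2 * a * (k - 1)) * (2 * (((n : ℝ) + 1) ^ ((2 * k + 2) * a))⁻¹) := by
          have : ((PMain_Fa k n a).card : ℝ) ≤ ((n : ℝ) + 1) ^ (2 * a * (k - 1)) := by
            exact_mod_cast PMain_card_Fa k n a
          gcongr
      _ = 2 * (((n : ℝ) + 1) ^ (4 * a))⁻¹ := by
          have h1 : (2 * k + 2) * a = 2 * a * (k - 1) + 4 * a := by
            obtain ⟨k', rfl⟩ : ∃ k', k = k' + 1 := ⟨k - 1, by omega⟩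
            rw [Nat.add_sub_cancel]; ring
          rw [h1, pow_add]
          field_simp
      _ ≤ 2 * (((n : ℝ) + 1) ^ 4)⁻¹ := by
          have : ((n : ℝ) + 1) ^ 4 ≤ ((n : ℝ) + 1) ^ (4 * a) := by
            apply pow_le_pow_right₀
            · have : (0 : ℝ) ≤ n := by positivity
              linarith
            · omega
          gcongr
  calc ∑ a ∈ Finset.Icc u n, ∑ A ∈ PMain_Fa k n a, g ⟨a, A⟩
      ≤ (Finset.Icc u n).card • (2 * (((n : ℝ) + 1) ^ 4)⁻¹) :=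
        Finset.sum_le_card_nsmul _ _ _ hstep
    _ = ((Finset.Icc u n).card : ℝ) * (2 * (((n : ℝ) + 1) ^ 4)⁻¹) := by rw [nsmul_eq_mul]
    _ ≤ ((n : ℝ) + 1) * (2 * (((n : ℝ) + 1) ^ 4)⁻¹) := by
        have : ((Finset.Icc u n).card : ℝ) ≤ (n : ℝ) + 1 := by
          rw [Nat.card_Icc]
          exact_mod_cast (by omega : n + 1 - u ≤ n + 1)
        gcongr
    _ = 2 * (((n : ℝ) + 1) ^ 3)⁻¹ := by field_simp
    _ ≤ 1 / 2 := by
        have h3 : (4 : ℝ) ≤ (n : ℝ) + 1 := by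
          have : (3 : ℝ) ≤ n := by exact_mod_cast hn
          linarith
        have : (4 : ℝ) ≤ ((n : ℝ) + 1) ^ 3 := by
          calc (4 : ℝ) ≤ 4 ^ 3 := by norm_num
            _ ≤ _ := by gcongr
        have h4 : (((n : ℝ) + 1) ^ 3)⁻¹ ≤ 4⁻¹ := by gcongr
        linarith

/-- degrees of the edge set of a sparse family. -/
lemma PMain_deg {k t n : ℕ} (ht : 1 ≤ t) {P : Finset (Finset ℕ)} (hP : P ⊆ powersetCard k (range n))
    {D b : ℝ} (hD : ∀ S ∈ powersetCard (t - 1) (range n),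
      ((P.filter (fun B => S ⊆ B)).card : ℝ) ≤ D) (hb0 : 0 ≤ b) (hb : (k : ℝ) * D ≤ b) :
    DegLe (t - 1) (Ed t P) b := by
  intro S hS
  by_cases hSn : S ⊆ range n
  · have h1 : (Ed t P).filter (fun e => S ⊆ e) ⊆
        (P.filter (fun B => S ⊆ B)).biUnion (fun B => (B \ S).image (fun x => insert x S)) := by
      intro e he
      obtain ⟨he1, hSe⟩ := mem_filter.mp he
      obtain ⟨B, hB, heB⟩ := mem_biUnion.mp he1
      obtain ⟨heB, hec⟩ := mem_powersetCard.mp heB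
      rw [mem_biUnion]
      refine ⟨B, mem_filter.mpr ⟨hB, hSe.trans heB⟩, ?_⟩
      have hc1 : (e \ S).card = 1 := by
        rw [card_sdiff_of_subset hSe, hec, hS]; omega
      obtain ⟨x, hx⟩ := card_eq_one.mp hc1
      have hxe : x ∈ e \ S := by rw [hx]; exact mem_singleton_self x
      rw [mem_sdiff] at hxe
      rw [mem_image]
      refine ⟨x, mem_sdiff.mpr ⟨heB hxe.1, hxe.2⟩, ?_⟩
      rw [insert_eq, ← hx]
      exact sdiff_union_of_subset hSe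
    have h2 : (((Ed t P).filter (fun e => S ⊆ e)).card : ℝ) ≤
        ((P.filter (fun B => S ⊆ B)).card * k : ℕ) := by
      have := (card_le_card h1).trans (card_biUnion_le_card_mul
        (P.filter (fun B => S ⊆ B)) (fun B => (B \ S).image (fun x => insert x S)) k ?_)
      · exact_mod_cast this
      · intro B hB
        have hBc := (mem_powersetCard.mp (hP (mem_filter.mp hB).1)).2
        calc ((B \ S).image (fun x => insert x S)).card ≤ (B \ S).card := card_image_le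
          _ ≤ B.card := card_le_card sdiff_subset
          _ = k := hBc
    refine h2.trans ?_
    rw [Nat.cast_mul]
    have h3 := hD S (mem_powersetCard.mpr ⟨hSn, hS⟩)
    calc ((P.filter (fun B => S ⊆ B)).card : ℝ) * k ≤ D * k := by gcongr
      _ = k * D := by ring
      _ ≤ b := hb
  · have : (Ed t P).filter (fun e => S ⊆ e) = ∅ := by
      rw [filter_eq_empty_iff]
      intro e he hSe
      obtain ⟨B, hB, heB⟩ := mem_biUnion.mp he
      exact hSn (hSe.trans ((mem_powersetCard.mp heB).1.trans (mem_powersetCard.mp (hP hB)).1))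
    rw [this]
    simpa using hb0

theorem sparse_P {k t : ℕ} (ht : 2 ≤ t) (hk : t + 2 ≤ k) {c' : ℝ}
    (hc : ((k : ℝ) - t - 1) / ((k : ℝ) - 2) < c') (hc1 : c' < 1) :
    ∃ ε2 : ℝ, 0 < ε2 ∧ ∃ n0 : ℕ, ∀ n ≥ n0, ∃ P : Finset (Finset ℕ), IsPartial t k n P ∧
      DegLe (t - 1) (Ed t P) ((n : ℝ) ^ (1 - ε2)) ∧
      ∀ φ : ℕ → ℕ, (n : ℝ) ^ c' ≤ (((range n).image φ).card : ℝ) →
        ∃ B ∈ P, Set.InjOn φ (B : Set ℕ) := by
  have hkr : (4 : ℝ) ≤ k := by exact_mod_cast (by omega : 4 ≤ k)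
  have hktr : (t : ℝ) + 2 ≤ k := by exact_mod_cast hk
  have htr : (2 : ℝ) ≤ t := by exact_mod_cast ht
  have hη : 0 < ((k : ℝ) - 2) * c' - ((k : ℝ) - t - 1) := by
    rw [div_lt_iff₀ (by linarith)] at hc
    linarith
  have hc0 : 0 < c' := by
    refine lt_of_le_of_lt ?_ hc
    apply div_nonneg <;> linarith
  obtain ⟨ε', hε, hε1, hε2⟩ : ∃ ε' : ℝ, 0 < ε' ∧ ε' ≤ 1 / 2 ∧
      2 * ε' ≤ ((k : ℝ) - 2) * c' - ((k : ℝ) - t - 1) := by
    refine ⟨min (1 / 2) ((((k : ℝ) - 2) * c' - ((k : ℝ) - t - 1)) / 2),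
      lt_min (by norm_num) (by linarith), min_le_left _ _, ?_⟩
    have := min_le_right (1 / 2 : ℝ) ((((k : ℝ) - 2) * c' - ((k : ℝ) - t - 1)) / 2)
    linarith
  obtain ⟨n0, hn0⟩ := PMain_large k t hc0 hε
  refine ⟨ε' / 2, half_pos hε, n0 + 3, fun n hn => ?_⟩
  obtain ⟨hL1, hL1', hL2, hL3, hL4, hL5, hL6⟩ := hn0 n (by omega)
  rw [pow_one] at hL5
  have hnpos : (0 : ℝ) < n := by exact_mod_cast (by omega : 0 < n)
  have hn1 : (1 : ℝ) ≤ n := by exact_mod_cast hL1'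
  have hkpos : (0 : ℝ) < k := by linarith
  have hlam : (1 : ℝ) ≤ (Lam n : ℝ) := one_le_Lam n
  have hlampos : (0 : ℝ) < (Lam n : ℝ) := by linarith
  have hlog := log_le_Lam n
  have hlog0 : 0 ≤ Real.log ((n : ℝ) + 1) := Real.log_nonneg (by linarith)
  -- the parameters
  set m : ℕ := ⌈(n : ℝ) ^ ((t : ℝ) - ε')⌉₊ with hm
  have hm1 : (n : ℝ) ^ ((t : ℝ) - ε') ≤ m := Nat.le_ceil _
  have hm1' : 1 ≤ (n : ℝ) ^ ((t : ℝ) - ε') := Real.one_le_rpow hn1 (by linarith)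
  have hm2 : (m : ℝ) ≤ 2 * (n : ℝ) ^ ((t : ℝ) - ε') := by
    have := Nat.ceil_lt_add_one (R := ℝ) (a := (n : ℝ) ^ ((t : ℝ) - ε')) (by positivity)
    linarith
  set d : ℕ := 4 * (k - 1) * Lam n with hd
  have hdr : (d : ℝ) = 4 * ((k : ℝ) - 1) * (Lam n : ℝ) := by
    rw [hd]; push_cast [Nat.cast_sub (by omega : 1 ≤ k)]; ring
  have hdpos : (0 : ℝ) < d := by rw [hdr]; apply mul_pos (by linarith) hlampos
  have hdle : (d : ℝ) ≤ 4 * k * (Lam n : ℝ) := by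
    rw [hdr]; gcongr; linarith
  set u : ℕ := ⌊(n : ℝ) ^ c' / d⌋₊ with hu
  have hu1 : (u : ℝ) ≤ (n : ℝ) ^ c' / d := Nat.floor_le (by positivity)
  have hbig : 2 * ((2 : ℝ) ^ (2 * k + 3) * (2 * k + 2) * (Lam n : ℝ)) ≤ (n : ℝ) ^ c' / d := by
    rw [le_div_iff₀ hdpos]
    refine le_trans ?_ hL3
    calc 2 * ((2 : ℝ) ^ (2 * k + 3) * (2 * k + 2) * (Lam n : ℝ)) * d
        ≤ 2 * ((2 : ℝ) ^ (2 * k + 3) * (2 * k + 2) * (Lam n : ℝ)) * (4 * k * (Lam n : ℝ)) := by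
          gcongr
      _ = _ := by ring
  have hone : (1 : ℝ) ≤ (2 : ℝ) ^ (2 * k + 3) * (2 * k + 2) * (Lam n : ℝ) := by
    have h1 : (1 : ℝ) ≤ (2 : ℝ) ^ (2 * k + 3) := one_le_pow₀ (by norm_num)
    have h2 : (1 : ℝ) ≤ 2 * (k : ℝ) + 2 := by linarith
    have h3 := one_le_mul_of_one_le_of_one_le h1 h2
    exact one_le_mul_of_one_le_of_one_le h3 hlam
  have hu2 : (n : ℝ) ^ c' / d / 2 ≤ u := by
    have := Nat.lt_floor_add_one ((n : ℝ) ^ c' / d)
    rw [← hu] at this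
    linarith
  have hu3 : (2 : ℝ) ^ (2 * k + 3) * (2 * k + 2) * (Lam n : ℝ) ≤ u := by linarith
  have hu4 : 1 ≤ u := by
    have : (1 : ℝ) ≤ u := hone.trans hu3
    exact_mod_cast this
  have hu5 : (n : ℝ) ^ c' / (8 * k * (Lam n : ℝ)) ≤ u := by
    refine le_trans ?_ hu2
    rw [div_div]
    apply div_le_div_of_nonneg_left (by positivity) (by positivity)
    linarith
  set D : ℝ := 2 * (2 * (k : ℝ)) ^ (t - 1) * (n : ℝ) ^ (1 - ε') with hDdef
  have hCpos : (0 : ℝ) < (n.choose k : ℝ) := by exact_mod_cast Nat.choose_pos (by omega)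
  -- the greedy sequence
  obtain ⟨P, hP1, hP2, hP3, hP4⟩ := pseq (k := k) (t := t) (n := n) (m := m) (by omega) (by omega)
    (by omega) ((Finset.Icc u n).sigma (fun a => PMain_Fa k n a))
    (fun c => Gdf k n (PMain_ext k c.2)) (fun c _ => filter_subset _ _)
    (fun c => 2 ^ (2 * k) * n * (c.1 : ℝ) ^ (k - 1 - t))
    (by
      intro c hc
      obtain ⟨ha, hA⟩ := mem_sigma.mp hc
      have : 1 ≤ c.1 := hu4.trans (mem_Icc.mp ha).1
      have : (0 : ℝ) < c.1 := by exact_mod_cast (by omega : 0 < c.1)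
      positivity)
    (by
      intro c hc B hB
      obtain ⟨ha, hA⟩ := mem_sigma.mp hc
      obtain ⟨f1, f2, f3, f4⟩ := PMain_Fa_ext hA
      have := gd_f (k := k) (t := t) (n := n) (a := c.1) (by omega) (by omega) f2 f3
        (mem_Icc.mp ha).2 hB
      exact_mod_cast this)
    (by
      intro c hc
      have h1 := gd_mean (k := k) (t := t) (n := n) (by omega) hL1
        (Gd := Gdf k n (PMain_ext k c.2)) (filter_subset _ _)
      have h2 : (∑ B ∈ powersetCard k (range n),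
          (((Gdf k n (PMain_ext k c.2)).filter (fun G => t ≤ (G ∩ B).card)).card : ℝ)) *
          (n : ℝ) ^ t ≤ 2 ^ k * (2 * (k : ℝ)) ^ t * ((Gdf k n (PMain_ext k c.2)).card : ℝ) *
            (n.choose k : ℝ) := by exact_mod_cast h1
      set Sm : ℝ := ∑ B ∈ powersetCard k (range n),
          (((Gdf k n (PMain_ext k c.2)).filter (fun G => t ≤ (G ∩ B).card)).card : ℝ) with hSm
      have hSm0 : 0 ≤ Sm := sum_nonneg (fun _ _ => by positivity)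
      set Gc : ℝ := ((Gdf k n (PMain_ext k c.2)).card : ℝ) with hGc
      have hGc0 : 0 ≤ Gc := by positivity
      have hnt : (0 : ℝ) < (n : ℝ) ^ t := by positivity
      rw [← mul_le_mul_iff_left₀ hnt]
      have h3 : 8 * (m : ℝ) * (2 ^ k * (2 * (k : ℝ)) ^ t) ≤ (n : ℝ) ^ t := by
        calc 8 * (m : ℝ) * (2 ^ k * (2 * (k : ℝ)) ^ t)
            ≤ 8 * (2 * (n : ℝ) ^ ((t : ℝ) - ε')) * (2 ^ k * (2 * (k : ℝ)) ^ t) := by gcongr
          _ = (n : ℝ) ^ ((t : ℝ) - ε') * (16 * 2 ^ k * (2 * (k : ℝ)) ^ t) := by ring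
          _ ≤ (n : ℝ) ^ ((t : ℝ) - ε') * (n : ℝ) ^ ε' := by gcongr
          _ = (n : ℝ) ^ t := by
              rw [← Real.rpow_add hnpos, sub_add_cancel, Real.rpow_natCast]
      calc 8 * (m : ℝ) * Sm * (n : ℝ) ^ t = 8 * (m : ℝ) * (Sm * (n : ℝ) ^ t) := by ring
        _ ≤ 8 * (m : ℝ) * (2 ^ k * (2 * (k : ℝ)) ^ t * Gc * (n.choose k : ℝ)) := by gcongr
        _ = (8 * (m : ℝ) * (2 ^ k * (2 * (k : ℝ)) ^ t)) * (Gc * (n.choose k : ℝ)) := by ring
        _ ≤ (n : ℝ) ^ t * (Gc * (n.choose k : ℝ)) := by gcongr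
        _ = Gc * (n.choose k : ℝ) * (n : ℝ) ^ t := by ring)
    (powersetCard (t - 1) (range n)) D
    (by
      intro S hS
      have hSc := (mem_powersetCard.mp hS).2
      have h1 := card_superset (k := k) (n := n) hL1 (S := S) (by omega)
      rw [hSc] at h1
      have h2 : (((powersetCard k (range n)).filter (fun B => S ⊆ B)).card : ℝ) *
          (n : ℝ) ^ (t - 1) ≤ (2 * (k : ℝ)) ^ (t - 1) * (n.choose k : ℝ) := by exact_mod_cast h1
      set Fc : ℝ := (((powersetCard k (range n)).filter (fun B => S ⊆ B)).card : ℝ) with hFc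
      have hFc0 : 0 ≤ Fc := by positivity
      have hnt : (0 : ℝ) < (n : ℝ) ^ (t - 1) := by positivity
      rw [← mul_le_mul_iff_left₀ hnt]
      have h3 : (n : ℝ) ^ ((t : ℝ) - ε') = (n : ℝ) ^ (1 - ε') * (n : ℝ) ^ (t - 1) := by
        rw [← Real.rpow_natCast, ← Real.rpow_add hnpos]
        congr 1
        rw [Nat.cast_sub (by omega)]; push_cast; ring
      calc (m : ℝ) * Fc * (n : ℝ) ^ (t - 1) = m * (Fc * (n : ℝ) ^ (t - 1)) := by ring
        _ ≤ m * ((2 * (k : ℝ)) ^ (t - 1) * (n.choose k : ℝ)) := by gcongr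
        _ ≤ (2 * (n : ℝ) ^ ((t : ℝ) - ε')) * ((2 * (k : ℝ)) ^ (t - 1) * (n.choose k : ℝ)) := by
            gcongr
        _ = D * (n.choose k : ℝ) * (n : ℝ) ^ (t - 1) := by rw [h3, hDdef]; ring)
    (by
      have hsum1 := PMain_sum (k := k) (n := n) (u := u) (by omega) hu4 (by omega)
        (g := fun c => Real.exp (-(((Gdf k n (PMain_ext k c.2)).card : ℝ) /
          (4 * (2 ^ (2 * k) * n * (c.1 : ℝ) ^ (k - 1 - t))))) +
          Real.exp (-((m : ℝ) * ((Gdf k n (PMain_ext k c.2)).card : ℝ) /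
            (2 * (n.choose k : ℝ)))))
        (by
          intro a ha A hA
          obtain ⟨f1, f2, f3, f4⟩ := PMain_Fa_ext hA
          obtain ⟨ha1, ha2⟩ := mem_Icc.mp ha
          have hua : (u : ℝ) ≤ a := by exact_mod_cast ha1
          have hG := gd_card (k := k) (n := n) (a := a) (by omega) f1 f3 f4
          have g1 := PMain_num1 ht hk hL1' (by omega) (hu3.trans hua) hG
          have g2 := PMain_num2 ht hk hL1' (by omega) hm1 (hu5.trans hua) hε2 hL4 (by omega) hG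
          have g3 := Real.exp_le_exp.mpr (neg_le_neg g1)
          have g4 := Real.exp_le_exp.mpr (neg_le_neg g2)
          simp only
          linarith)
      have hSs : ((powersetCard (t - 1) (range n)).card : ℝ) * Real.exp (-D) < 1 / 2 := by
        have e1 : ((powersetCard (t - 1) (range n)).card : ℝ) ≤ ((n : ℝ) + 1) ^ (t - 1) := by
          rw [card_powersetCard, card_range]
          have : (n.choose (t - 1) : ℝ) ≤ (n : ℝ) ^ (t - 1) := by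
            exact_mod_cast Nat.choose_le_pow n (t - 1)
          refine this.trans ?_
          gcongr
          linarith
        have e2 : (t : ℝ) * Real.log ((n : ℝ) + 1) ≤ D := by
          have h1 : (n : ℝ) ^ (1 / 2 : ℝ) ≤ (n : ℝ) ^ (1 - ε') :=
            Real.rpow_le_rpow_of_exponent_le hn1 (by linarith)
          have h2 : (1 : ℝ) ≤ 2 * (2 * (k : ℝ)) ^ (t - 1) := by
            have : (1 : ℝ) ≤ (2 * (k : ℝ)) ^ (t - 1) := one_le_pow₀ (by linarith)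
            linarith
          calc (t : ℝ) * Real.log ((n : ℝ) + 1) ≤ t * (Lam n : ℝ) := by gcongr
            _ ≤ (n : ℝ) ^ (1 / 2 : ℝ) := hL5
            _ ≤ (n : ℝ) ^ (1 - ε') := h1
            _ = 1 * (n : ℝ) ^ (1 - ε') := by ring
            _ ≤ D := by rw [hDdef]; gcongr
        have e3 : Real.exp (-D) ≤ (((n : ℝ) + 1) ^ t)⁻¹ := by
          have h1 : Real.exp ((t : ℝ) * Real.log ((n : ℝ) + 1)) = ((n : ℝ) + 1) ^ t := by
            rw [Real.exp_nat_mul, Real.exp_log (by linarith)]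
          rw [← h1, ← Real.exp_neg]
          exact Real.exp_le_exp.mpr (neg_le_neg e2)
        have h3n : (3 : ℝ) ≤ n := by exact_mod_cast (by omega : 3 ≤ n)
        calc ((powersetCard (t - 1) (range n)).card : ℝ) * Real.exp (-D)
            ≤ ((n : ℝ) + 1) ^ (t - 1) * (((n : ℝ) + 1) ^ t)⁻¹ := by gcongr
          _ = ((n : ℝ) + 1)⁻¹ := by
              rw [show t = (t - 1) + 1 by omega, pow_succ, Nat.add_sub_cancel]
              field_simp
          _ ≤ (4 : ℝ)⁻¹ := by gcongr; linarith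
          _ < 1 / 2 := by norm_num
      linarith)
  refine ⟨P, ⟨fun Q hQ => ?_, hP2⟩, ?_, fun φ hφ => ?_⟩
  · exact mem_powersetCard.mp (hP1 hQ)
  · refine PMain_deg (by omega) hP1 (D := 3 * D) hP4 (by positivity) ?_
    have h1 : (n : ℝ) ^ (1 - ε' / 2) = (n : ℝ) ^ (1 - ε') * (n : ℝ) ^ (ε' / 2) := by
      rw [← Real.rpow_add hnpos]; congr 1; ring
    rw [h1, hDdef]
    calc (k : ℝ) * (3 * (2 * (2 * (k : ℝ)) ^ (t - 1) * (n : ℝ) ^ (1 - ε')))
        = (n : ℝ) ^ (1 - ε') * (6 * (k : ℝ) * (2 * (k : ℝ)) ^ (t - 1)) := by ring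
      _ ≤ _ := by gcongr
  · obtain ⟨a, A, ha1, ha2, hA1, hA2, hA3, hA4⟩ := dyadic (k := k) (n := n) (u := u) (by omega)
      hu4 φ (by
        have h1 : ((d * u : ℕ) : ℝ) ≤ (((range n).image φ).card : ℝ) := by
          refine le_trans ?_ hφ
          rw [Nat.cast_mul]
          rw [le_div_iff₀ hdpos] at hu1
          linarith
        exact_mod_cast h1)
    obtain ⟨B, hB, hBG⟩ := hP3 ⟨a, fun i : Fin (k - 1) => A i⟩
      (mem_sigma.mpr ⟨mem_Icc.mpr ⟨ha1, ha2⟩, PMain_restrict hA1 hA2 hA3⟩)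
    refine ⟨B, hB, hA4 B ?_⟩
    have : Gdf k n (PMain_ext k (fun i : Fin (k - 1) => A i)) = Gdf k n A :=
      PMain_Gdf_congr (fun j hj => PMain_ext_of_lt _ hj)
    rw [← this]; exact hBG

end Pool.Agent.Kv
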