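import Pool.Agent.Work.MP_b59edb_co.PermCount

set_option autoImplicit false

/-!
# Module Perm: random bijections
-/

namespace Pool.Agent.Kv

open Finset

lemma perm_desc (w m s : ℕ) (h : w ≤ m) :
    w.descFactorial s * m ^ s ≤ w ^ s * m.descFactorial s := by
  induction s with
  | zero => simp
  | succ s ih =>
    rw [Nat.descFactorial_succ, Nat.descFactorial_succ, pow_succ, pow_succ]
    have h1 : (w - s) * m ≤ w * (m - s) := by
      rw [Nat.sub_mul, Nat.mul_sub]
      have : w * s ≤ s * m := by rw [mul_comm w s]; exact Nat.mul_le_mul_left s h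
      omega
    calc (w - s) * w.descFactorial s * (m ^ s * m)
        = (w.descFactorial s * m ^ s) * ((w - s) * m) := by ring
      _ ≤ (w ^ s * m.descFactorial s) * (w * (m - s)) := Nat.mul_le_mul ih h1
      _ = w ^ s * w * ((m - s) * m.descFactorial s) := by ring

lemma perm_count {Q : Type*} [Fintype Q] [DecidableEq Q] (S W : Finset Q) :
    (univ.filter (fun π : Equiv.Perm Q => ∀ x ∈ S, π x ∈ W)).card ≤
      W.card.descFactorial S.card * (Fintype.card Q - S.card).factorial := by
  classical
  set P : Equiv.Perm Q → Prop := fun π => ∀ x ∈ S, π x ∈ W with hP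
  have h0 : (univ.filter (fun π : Equiv.Perm Q => ∀ x ∈ S, π x ∈ W)).card =
      (univ : Finset {π : Equiv.Perm Q // P π}).card := by
    rw [card_univ, Fintype.card_subtype]
  have hE : Fintype.card ({x // x ∈ S} ↪ {x // x ∈ W}) = W.card.descFactorial S.card := by
    rw [Fintype.card_embedding_eq, Fintype.card_coe, Fintype.card_coe]
  rw [h0, ← hE, mul_comm]
  let f : {π : Equiv.Perm Q // P π} → ({x // x ∈ S} ↪ {x // x ∈ W}) := fun π =>
    ⟨fun x => ⟨π.1 x.1, π.2 x.1 x.2⟩, fun x y hxy => by
      have h1 : π.1 x.1 = π.1 y.1 := congrArg Subtype.val hxy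
      exact Subtype.ext (π.1.injective h1)⟩
  refine Finset.card_le_mul_card_image_of_maps_to (f := f) (fun π _ => mem_univ _)
    ((Fintype.card Q - S.card).factorial) ?_
  intro e _
  let g : Q → Q := fun x => if h : x ∈ S then (e ⟨x, h⟩ : Q) else x
  refine le_trans ?_ (Pool.Agent.Work.MP_b59edb_co.card_prescribed_le S g)
  refine card_le_card_of_injOn (fun π => π.1) ?_ ?_
  · intro π hπ
    simp only [coe_filter, mem_univ, true_and, Set.mem_ofPred_eq] at hπ ⊢
    intro x hx
    simp only [g, hx, dif_pos]
    have h2 := DFunLike.congr_fun hπ ⟨x, hx⟩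
    exact congrArg Subtype.val h2
  · intro π _ π' _ h
    exact Subtype.ext h

theorem exists_perms {A B : Finset ℕ} (h : A.card = B.card) :
    ∃ Ω : Finset (ℕ → ℕ), Ω.Nonempty ∧ (∀ π ∈ Ω, Set.BijOn π (A : Set ℕ) (B : Set ℕ)) ∧
      ∀ W ⊆ A, ∀ R ⊆ B, (Ω.filter (fun π => R ⊆ W.image π)).card * A.card ^ R.card ≤
        W.card ^ R.card * Ω.card := by
  classical
  let e : {x // x ∈ A} ≃ {x // x ∈ B} := Finset.equivOfCardEq h
  let F : Equiv.Perm {x // x ∈ B} → ℕ → ℕ := fun σ x =>
    if hx : x ∈ A then (σ (e ⟨x, hx⟩) : ℕ) else 0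
  have hF : ∀ σ x (hx : x ∈ A), F σ x = (σ (e ⟨x, hx⟩) : ℕ) := fun σ x hx => dif_pos hx
  have hFinj : Function.Injective F := by
    intro σ τ hστ
    ext y
    have h1 := congrFun hστ (e.symm y).1
    rw [hF σ _ (e.symm y).2, hF τ _ (e.symm y).2] at h1
    simpa using h1
  refine ⟨univ.image F, univ_nonempty.image F, ?_, ?_⟩
  · intro π hπ
    rw [mem_image] at hπ
    obtain ⟨σ, -, rfl⟩ := hπ
    refine ⟨?_, ?_, ?_⟩
    · intro x hx
      rw [hF σ x hx]
      exact (σ (e ⟨x, hx⟩)).2
    · intro x hx y hy hxy
      rw [hF σ x hx, hF σ y hy] at hxy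
      have h2 := e.injective (σ.injective (Subtype.ext hxy))
      exact congrArg Subtype.val h2
    · intro y hy
      refine ⟨(e.symm (σ.symm ⟨y, hy⟩)).1, (e.symm (σ.symm ⟨y, hy⟩)).2, ?_⟩
      rw [hF σ _ (e.symm (σ.symm ⟨y, hy⟩)).2]
      simp
  · intro W hW R hR
    set m := A.card with hm
    have hcard : (univ.image F).card = m.factorial := by
      rw [card_image_of_injective _ hFinj, card_univ, Fintype.card_perm, Fintype.card_coe, ← h]
    set R' : Finset {x // x ∈ B} := univ.filter fun y => y.1 ∈ R with hR'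
    set W' : Finset {x // x ∈ B} := univ.filter fun y => (e.symm y).1 ∈ W with hW'
    have hR'c : R'.card = R.card := by
      rw [← card_image_of_injective R' Subtype.val_injective]
      congr 1
      ext y
      simp only [hR', mem_image, mem_filter, mem_univ, true_and, Subtype.exists, exists_and_right,
        exists_eq_right]
      exact ⟨fun ⟨_, h⟩ => h, fun h => ⟨hR h, h⟩⟩
    have hW'c : W'.card = W.card := by
      rw [← card_image_of_injective W' e.symm.injective,
        ← card_image_of_injective (W'.image e.symm) Subtype.val_injective]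
      congr 1
      ext y
      simp only [hW', mem_image, mem_filter, mem_univ, true_and]
      constructor
      · rintro ⟨a, ⟨b, hb, rfl⟩, rfl⟩
        exact hb
      · intro hy
        exact ⟨⟨y, hW hy⟩, ⟨e ⟨y, hW hy⟩, by simpa using hy, by simp⟩, rfl⟩
    have hle : ((univ.image F).filter (fun π => R ⊆ W.image π)).card ≤
        (univ.filter (fun π : Equiv.Perm {x // x ∈ B} => ∀ x ∈ R', π x ∈ W')).card := by
      have h1 : (univ.image F).filter (fun π => R ⊆ W.image π) ⊆
          (univ.filter (fun π : Equiv.Perm {x // x ∈ B} => ∀ x ∈ R', π x ∈ W')).image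
            (fun σ => F σ⁻¹) := by
        intro π hπ
        rw [mem_filter, mem_image] at hπ
        obtain ⟨⟨σ, -, rfl⟩, hσ⟩ := hπ
        rw [mem_image]
        refine ⟨σ⁻¹, ?_, by simp⟩
        rw [mem_filter]
        refine ⟨mem_univ _, ?_⟩
        intro y hy
        rw [hR', mem_filter] at hy
        have h2 := hσ hy.2
        rw [mem_image] at h2
        obtain ⟨x, hx, hxy⟩ := h2
        rw [hF σ x (hW hx)] at hxy
        have h3 : σ (e ⟨x, hW hx⟩) = y := Subtype.ext hxy
        have h4 : σ⁻¹ y = e ⟨x, hW hx⟩ := by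
          rw [← h3]; simp
        rw [hW', mem_filter, h4]
        refine ⟨mem_univ _, ?_⟩
        simpa using hx
      exact (card_le_card h1).trans card_image_le
    have h5 := perm_count R' W'
    rw [hR'c, hW'c, Fintype.card_coe, ← h] at h5
    have hRm : R.card ≤ m := by rw [h]; exact card_le_card hR
    have hWm : W.card ≤ m := card_le_card hW
    have h6 := perm_desc W.card m R.card hWm
    rw [hcard]
    calc _ ≤ (W.card.descFactorial R.card * (m - R.card).factorial) * m ^ R.card :=
          Nat.mul_le_mul_right _ (hle.trans h5)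
      _ = (W.card.descFactorial R.card * m ^ R.card) * (m - R.card).factorial := by ring
      _ ≤ (W.card ^ R.card * m.descFactorial R.card) * (m - R.card).factorial :=
          Nat.mul_le_mul_right _ h6
      _ = W.card ^ R.card * m.factorial := by
          rw [mul_assoc, mul_comm (m.descFactorial R.card),
            Nat.factorial_mul_descFactorial hRm]

end Pool.Agent.Kv
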