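import Pool.Agent.Designs.SFLevel

set_option autoImplicit false

/-!
# Module SF: spread generating families (section 4 of the paper proof)

Strong induction on `i`. `i = 0`: `F = {range c0}` (`Dv q 0` are the multiples of `1_∅`).
`i ≥ 1`: let `C'` bound the constants for `i-1,…,0` (`SFprop` is monotone in `C`), `C` from
`sf_level`. By strong induction on `m`: a family `F` with
`#{W ∈ F : R ⊆ W} ≤ (Nat.log 2 m + 1) Lam^C m^(i-|R|)`:
`m < 2 c0`: `F = {range m}`; `m ≥ 2 c0`: `F = F(m/2) ∪ newSets i m (m/2) fam` (`sf_step`).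
-/

namespace Pool.Agent.Kv

open Finset

lemma SF_mono {d c0 i C D : ℕ} (hCD : C ≤ D) (h : SFprop d c0 i C) : SFprop d c0 i D := by
  intro n m h1 h2
  obtain ⟨F, hF1, hF2, hF3⟩ := h n m h1 h2
  refine ⟨F, fun W hW => ⟨(hF1 W hW).1, (hF1 W hW).2.1, (hF1 W hW).2.2.trans hCD⟩, hF2, ?_⟩
  intro R
  refine (hF3 R).trans ?_
  apply Nat.mul_le_mul_right
  exact Nat.pow_le_pow_right (by have := Lam_pos n; omega) hCD

lemma SF_single {q r : ℕ} (V : Finset ℕ) : Gen q r (powersetCard r V) {V} := by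
  intro L hL
  refine ⟨fun _ => L, ?_, by simp⟩
  intro W hW
  rw [mem_singleton.mp hW]
  exact hL

lemma SF_one_le {n m C k : ℕ} (hm : 1 ≤ m) : 1 ≤ Lam n ^ C * m ^ k :=
  Nat.one_le_iff_ne_zero.mpr (Nat.mul_ne_zero
    (pow_ne_zero _ (by have := Lam_pos n; omega)) (pow_ne_zero _ (by omega)))

lemma SF_zero {d c0 : ℕ} (hc1 : 1 ≤ c0) : SFprop d c0 0 c0 := by
  intro n m h1 h2
  refine ⟨{range c0}, ?_, ?_, ?_⟩
  · intro W hW
    rw [mem_singleton.mp hW]
    exact ⟨range_subset_range.mpr h1, by simp, by simp⟩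
  · have h3 : powersetCard 0 (range m) = powersetCard 0 (range c0) := by
      rw [powersetCard_zero, powersetCard_zero]
    rw [h3]
    exact SF_single _
  · intro R
    refine (card_filter_le _ _).trans ?_
    rw [card_singleton]
    exact SF_one_le (by omega)

/-- the induction on `m`. -/
lemma SF_rec {d i c0 C n : ℕ} (hi : 1 ≤ i) (hc0 : d + 2 * i ≤ c0) (hc1 : 1 ≤ c0)
    (hC : ∀ n m : ℕ, 2 * c0 ≤ m → m ≤ n → ∃ fam : Finset ℕ → Finset (Finset ℕ),
      (∀ T0, T0 ⊆ range m \ range (m / 2) → 1 ≤ T0.card → T0.card ≤ i →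
        (∀ W ∈ fam T0, W ⊆ range (m / 2) ∧ c0 ≤ W.card ∧ W.card ≤ C) ∧
        Gen (d + (i - T0.card)) (i - T0.card)
          (powersetCard (i - T0.card) (range (m / 2))) (fam T0)) ∧
      ∀ R : Finset ℕ, ((newSets i m (m / 2) fam).filter (fun W => R ⊆ W)).card ≤
        Lam n ^ C * m ^ (i - R.card)) :
    ∀ m : ℕ, c0 ≤ m → m ≤ n → ∃ F : Finset (Finset ℕ),
      (∀ W ∈ F, W ⊆ range m ∧ c0 ≤ W.card ∧ W.card ≤ 2 * c0 + C + i) ∧
      Gen (d + i) i (powersetCard i (range m)) F ∧
      ∀ R : Finset ℕ, (F.filter (fun W => R ⊆ W)).card ≤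
        (Nat.log 2 m + 1) * (Lam n ^ C * m ^ (i - R.card)) := by
  intro m
  induction m using Nat.strong_induction_on with
  | _ m ih =>
    intro h1 h2
    rcases Nat.lt_or_ge m (2 * c0) with h3 | h3
    · refine ⟨{range m}, ?_, SF_single _, ?_⟩
      · intro W hW
        rw [mem_singleton.mp hW]
        refine ⟨le_refl _, by simpa using h1, ?_⟩
        rw [card_range]; omega
      · intro R
        refine (card_filter_le _ _).trans ?_
        rw [card_singleton]
        exact Nat.one_le_iff_ne_zero.mpr (Nat.mul_ne_zero (by omega)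
          (Nat.one_le_iff_ne_zero.mp (SF_one_le (by omega))))
    · obtain ⟨F', hF1, hF2, hF3⟩ := ih (m / 2) (by omega) (by omega) (by omega)
      obtain ⟨fam, hfam, hcount⟩ := hC n m h3 h2
      refine ⟨F' ∪ newSets i m (m / 2) fam, ?_, ?_, ?_⟩
      · intro W hW
        rcases mem_union.mp hW with hW | hW
        · obtain ⟨a1, a2, a3⟩ := hF1 W hW
          exact ⟨a1.trans (range_subset_range.mpr (by omega)), a2, a3⟩
        · unfold newSets at hW
          obtain ⟨T0, hT0, hW⟩ := mem_biUnion.mp hW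
          rw [mem_filter, mem_powerset] at hT0
          obtain ⟨W', hW', rfl⟩ := mem_image.mp hW
          obtain ⟨a1, a2, a3⟩ := (hfam T0 hT0.1 hT0.2.1 hT0.2.2).1 W' hW'
          refine ⟨union_subset (hT0.1.trans sdiff_subset)
            (a1.trans (range_subset_range.mpr (by omega))), ?_, ?_⟩
          · exact a2.trans (card_le_card subset_union_right)
          · have := card_union_le T0 W'
            omega
      · refine sf_step hi hc0 (by omega) fam ?_ hF2
        intro T0 hT0 b1 b2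
        obtain ⟨a1, a2⟩ := hfam T0 hT0 b1 b2
        exact ⟨fun W hW => ⟨(a1 W hW).1, (a1 W hW).2.1⟩, a2⟩
      · intro R
        rw [filter_union]
        refine (card_union_le _ _).trans ?_
        have e1 : Nat.log 2 m = Nat.log 2 (m / 2) + 1 := by
          have := Nat.log_div_base 2 m
          have h4 : 1 ≤ Nat.log 2 m := Nat.log_pos (by norm_num) (by omega)
          omega
        have e2 : (m / 2) ^ (i - R.card) ≤ m ^ (i - R.card) :=
          Nat.pow_le_pow_left (Nat.div_le_self m 2) _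
        calc (F'.filter (fun W => R ⊆ W)).card +
              ((newSets i m (m / 2) fam).filter (fun W => R ⊆ W)).card
            ≤ (Nat.log 2 (m / 2) + 1) * (Lam n ^ C * (m / 2) ^ (i - R.card)) +
              Lam n ^ C * m ^ (i - R.card) := Nat.add_le_add (hF3 R) (hcount R)
          _ ≤ (Nat.log 2 (m / 2) + 1) * (Lam n ^ C * m ^ (i - R.card)) +
              Lam n ^ C * m ^ (i - R.card) := by gcongr
          _ = (Nat.log 2 m + 1) * (Lam n ^ C * m ^ (i - R.card)) := by rw [e1]; ring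

lemma SF_succ {d i c0 C' : ℕ} (hi : 1 ≤ i) (hc0 : d + 2 * i ≤ c0) (hc1 : 1 ≤ c0)
    (hprev : ∀ a, 1 ≤ a → a ≤ i → SFprop d c0 (i - a) C') :
    ∃ C : ℕ, SFprop d c0 i C := by
  obtain ⟨C, hC⟩ := sf_level hi hc0 hc1 hprev
  refine ⟨2 * c0 + C + i, ?_⟩
  intro n m h1 h2
  obtain ⟨F, hF1, hF2, hF3⟩ := SF_rec (n := n) hi hc0 hc1 hC m h1 h2
  refine ⟨F, hF1, hF2, fun R => (hF3 R).trans ?_⟩
  have e1 : Nat.log 2 m + 1 ≤ Lam n := by
    have := Nat.log_mono_right (b := 2) h2
    unfold Lam; omega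
  calc (Nat.log 2 m + 1) * (Lam n ^ C * m ^ (i - R.card))
      ≤ Lam n * (Lam n ^ C * m ^ (i - R.card)) := Nat.mul_le_mul_right _ e1
    _ = Lam n ^ (C + 1) * m ^ (i - R.card) := by ring
    _ ≤ Lam n ^ (2 * c0 + C + i) * m ^ (i - R.card) := by
        apply Nat.mul_le_mul_right
        exact Nat.pow_le_pow_right (by have := Lam_pos n; omega) (by omega)

theorem SF {d r c0 : ℕ} (hc0 : d + 2 * r ≤ c0) (hc1 : 1 ≤ c0) :
    ∃ C : ℕ, ∀ i ≤ r, SFprop d c0 i C := by
  have key : ∀ k, k ≤ r → ∃ C : ℕ, ∀ i ≤ k, SFprop d c0 i C := by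
    intro k
    induction k with
    | zero =>
      intro _
      refine ⟨c0, fun i hi => ?_⟩
      obtain rfl : i = 0 := by omega
      exact SF_zero hc1
    | succ k ih =>
      intro hk
      obtain ⟨C', hC'⟩ := ih (by omega)
      obtain ⟨C, hC⟩ := SF_succ (d := d) (i := k + 1) (c0 := c0) (C' := C') (by omega) (by omega)
        hc1 (fun a ha1 ha2 => hC' _ (by omega))
      refine ⟨max C' C, fun i hi => ?_⟩
      rcases Nat.lt_or_ge k i with h | h
      · obtain rfl : i = k + 1 := by omega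
        exact SF_mono (le_max_right _ _) hC
      · exact SF_mono (le_max_left _ _) (hC' i h)
  exact key r le_rfl

end Pool.Agent.Kv
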