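import Pool.Agent.Designs.SFStep
import Pool.Agent.Designs.Scl
import Pool.Agent.Designs.Perm
import Pool.Agent.Designs.Transp

set_option autoImplicit false

/-!
# Module SFLevel: one halving step, the random part (section 4 of the paper proof, COUNT)
-/

namespace Pool.Agent.Kv

open Finset

/-- the statement of `SF` for given parameters. -/
def SFprop (d c0 i C : ℕ) : Prop :=
  ∀ n m : ℕ, c0 ≤ m → m ≤ n → ∃ F : Finset (Finset ℕ),
    (∀ W ∈ F, W ⊆ range m ∧ c0 ≤ W.card ∧ W.card ≤ C) ∧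
    Gen (d + i) i (powersetCard i (range m)) F ∧
    ∀ R : Finset ℕ, (F.filter (fun W => R ⊆ W)).card ≤ Lam n ^ C * m ^ (i - R.card)

/-- number of the members of `F` whose image under `π` contains `R2`. -/
def SFLevel_cnt (F : Finset (Finset ℕ)) (π : ℕ → ℕ) (R2 : Finset ℕ) : ℕ :=
  (F.filter (fun W => R2 ⊆ W.image π)).card

theorem SFLevel_cnt_le {m' b : ℕ} {F : Finset (Finset ℕ)} {π : ℕ → ℕ} {R2 : Finset ℕ}
    (hπ : Set.BijOn π (range m' : Finset ℕ) (range m' : Finset ℕ)) (hR : R2 ⊆ range m')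
    (hF : ∀ W ∈ F, W ⊆ range m')
    (hb : ∀ S : Finset ℕ, S.card = R2.card → (F.filter (fun W => S ⊆ W)).card ≤ b) :
    SFLevel_cnt F π R2 ≤ b := by
  set S := (range m').filter (fun x => π x ∈ R2) with hS
  have him : S.image π = R2 := by
    ext y
    simp only [mem_image, hS, mem_filter]
    constructor
    · rintro ⟨x, ⟨_, hx⟩, rfl⟩
      exact hx
    · intro hy
      obtain ⟨x, hx, rfl⟩ := hπ.surjOn (Finset.mem_coe.2 (hR hy))
      exact ⟨x, ⟨Finset.mem_coe.1 hx, hy⟩, rfl⟩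
  have hSc : S.card = R2.card := by
    rw [← him, card_image_of_injOn]
    exact hπ.injOn.mono (by
      intro x hx
      exact Finset.mem_coe.2 (mem_filter.1 (Finset.mem_coe.1 hx)).1)
  refine le_trans (card_le_card ?_) (hb S hSc)
  intro W hW
  rw [mem_filter] at hW ⊢
  refine ⟨hW.1, fun x hx => ?_⟩
  have hx' := mem_filter.1 hx
  obtain ⟨y, hy, hyx⟩ := mem_image.1 (hW.2 hx'.2)
  have : y = x := hπ.injOn (Finset.mem_coe.2 (hF W hW.1 hy)) (Finset.mem_coe.2 hx'.1) hyx
  exact this ▸ hy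

theorem SFLevel_mean {m' C' : ℕ} {F : Finset (Finset ℕ)} {Ω : Finset (ℕ → ℕ)} {R2 : Finset ℕ}
    (hR : R2 ⊆ range m') (hF : ∀ W ∈ F, W ⊆ range m' ∧ W.card ≤ C')
    (hΩ : ∀ W ⊆ range m', ∀ R ⊆ range m',
      (Ω.filter (fun π => R ⊆ W.image π)).card * m' ^ R.card ≤ W.card ^ R.card * Ω.card) :
    (∑ π ∈ Ω, SFLevel_cnt F π R2) * m' ^ R2.card ≤ F.card * C' ^ R2.card * Ω.card := by
  have h1 : ∑ π ∈ Ω, SFLevel_cnt F π R2 =
      ∑ W ∈ F, (Ω.filter (fun π => R2 ⊆ W.image π)).card := by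
    unfold SFLevel_cnt
    simp only [card_filter]
    exact sum_comm
  rw [h1, sum_mul]
  calc ∑ W ∈ F, (Ω.filter (fun π => R2 ⊆ W.image π)).card * m' ^ R2.card
      ≤ ∑ W ∈ F, C' ^ R2.card * Ω.card := by
        refine sum_le_sum fun W hW => ?_
        refine (hΩ W (hF W hW).1 R2 hR).trans ?_
        exact Nat.mul_le_mul_right _ (Nat.pow_le_pow_left (hF W hW).2 _)
    _ = F.card * C' ^ R2.card * Ω.card := by
        rw [sum_const, smul_eq_mul, mul_assoc]

theorem SFLevel_choose_le (n k : ℕ) : n.choose k ≤ n ^ k := by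
  exact Nat.choose_le_pow n k

theorem SFLevel_count {X R1 : Finset ℕ} {a : ℕ} (_h : R1.card ≤ a) :
    ((powersetCard a X).filter (fun T0 => R1 ⊆ T0)).card ≤ X.card ^ (a - R1.card) := by
  have h1 : ((powersetCard a X).filter (fun T0 => R1 ⊆ T0)).card ≤
      (powersetCard (a - R1.card) X).card := by
    refine card_le_card_of_injOn (fun T0 => T0 \ R1) ?_ ?_
    · intro T0 hT0
      have h2 := mem_filter.1 (Finset.mem_coe.1 hT0)
      have h3 := mem_powersetCard.1 h2.1
      refine Finset.mem_coe.2 (mem_powersetCard.2 ⟨sdiff_subset.trans h3.1, ?_⟩)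
      rw [card_sdiff_of_subset h2.2, h3.2]
    · intro T0 hT0 T1 hT1 h
      have h2 := (mem_filter.1 (Finset.mem_coe.1 hT0)).2
      have h3 := (mem_filter.1 (Finset.mem_coe.1 hT1)).2
      simp only at h
      rw [← sdiff_union_of_subset h2, ← sdiff_union_of_subset h3, h]
  refine h1.trans ?_
  rw [card_powersetCard]
  exact SFLevel_choose_le _ _

theorem SFLevel_card_Rs {m k : ℕ} (hm : 1 ≤ m) :
    ((range m).powerset.filter (fun R => R.card ≤ k)).card ≤ (k + 1) * m ^ k := by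
  have h1 : (range m).powerset.filter (fun R => R.card ≤ k) ⊆
      (range (k + 1)).biUnion (fun j => powersetCard j (range m)) := by
    intro R hR
    rw [mem_filter, mem_powerset] at hR
    rw [mem_biUnion]
    exact ⟨R.card, mem_range.2 (by omega), mem_powersetCard.2 ⟨hR.1, rfl⟩⟩
  refine (card_le_card h1).trans (card_biUnion_le.trans ?_)
  calc ∑ j ∈ range (k + 1), (powersetCard j (range m)).card
      ≤ ∑ _j ∈ range (k + 1), m ^ k := by
        refine sum_le_sum fun j hj => ?_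
        rw [card_powersetCard, card_range]
        refine (SFLevel_choose_le _ _).trans (Nat.pow_le_pow_right hm ?_)
        have := mem_range.1 hj
        omega
    _ = (k + 1) * m ^ k := by rw [sum_const, card_range, smul_eq_mul]

theorem SFLevel_log_le {n m : ℕ} (h1 : 1 ≤ m) (h2 : m ≤ n) : Real.log m ≤ Lam n := by
  have hn : n < 2 ^ (Nat.log 2 n + 1) := Nat.lt_pow_succ_log_self (by norm_num) n
  have h3 : (m : ℝ) ≤ 2 ^ (Nat.log 2 n + 1) := by
    have : m ≤ 2 ^ (Nat.log 2 n + 1) := h2.trans hn.le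
    exact_mod_cast this
  have h4 : Real.log m ≤ Real.log (2 ^ (Nat.log 2 n + 1)) :=
    Real.log_le_log (by exact_mod_cast h1) h3
  rw [Real.log_pow] at h4
  have h5 : Real.log 2 ≤ 1 := by
    have := Real.log_two_lt_d9
    linarith
  have h6 : ((Nat.log 2 n + 1 : ℕ) : ℝ) * Real.log 2 ≤ ((Nat.log 2 n + 1 : ℕ) : ℝ) * 1 :=
    mul_le_mul_of_nonneg_left h5 (Nat.cast_nonneg _)
  have h7 : ((Nat.log 2 n + 1 : ℕ) : ℝ) ≤ (Lam n : ℝ) := by
    unfold Lam
    exact_mod_cast (by omega : Nat.log 2 n + 1 ≤ Nat.log 2 n + 2)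
  linarith

/-- the key numerical inequality for one `a`. -/
theorem SFLevel_num {m m' i a r1 r2 C' N Fc : ℕ} {lam : ℕ} (hm' : 1 ≤ m') (hmm : m' ≤ m)
    (h3 : m ≤ 3 * m') (har : r1 ≤ a) (hai : a ≤ i) (hN : N ≤ m ^ (a - r1))
    (hF : Fc ≤ lam * m' ^ (i - a)) (hlam : 1 ≤ lam) :
    (N : ℝ) * (((Fc : ℝ) * (C' : ℝ) ^ r2 / (m' : ℝ) ^ r2) /
      ((lam : ℝ) * (m : ℝ) ^ (i - (r1 + r2)))) ≤ (3 * (C' : ℝ)) ^ r2 := by
  have hm0 : (0 : ℝ) < m' := by exact_mod_cast hm'
  have hm1 : (0 : ℝ) < m := by exact_mod_cast (lt_of_lt_of_le hm' hmm)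
  have hl0 : (0 : ℝ) < lam := by exact_mod_cast hlam
  have e1 : N * Fc ≤ lam * (3 ^ r2 * m' ^ r2 * m ^ (i - (r1 + r2))) := by
    calc N * Fc ≤ m ^ (a - r1) * (lam * m' ^ (i - a)) := Nat.mul_le_mul hN hF
      _ ≤ m ^ (a - r1) * (lam * m ^ (i - a)) := by
          apply Nat.mul_le_mul_left
          apply Nat.mul_le_mul_left
          exact Nat.pow_le_pow_left hmm _
      _ = lam * m ^ (i - r1) := by
          have : i - r1 = (a - r1) + (i - a) := by omega
          rw [this, pow_add]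
          ring
      _ ≤ lam * m ^ (r2 + (i - (r1 + r2))) := by
          apply Nat.mul_le_mul_left
          exact Nat.pow_le_pow_right (by omega) (by omega)
      _ = lam * (m ^ r2 * m ^ (i - (r1 + r2))) := by rw [pow_add]
      _ ≤ lam * ((3 * m') ^ r2 * m ^ (i - (r1 + r2))) := by
          apply Nat.mul_le_mul_left
          apply Nat.mul_le_mul_right
          exact Nat.pow_le_pow_left h3 _
      _ = lam * (3 ^ r2 * m' ^ r2 * m ^ (i - (r1 + r2))) := by rw [mul_pow]
  have e2 : (N : ℝ) * (Fc : ℝ) ≤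
      (lam : ℝ) * (3 ^ r2 * (m' : ℝ) ^ r2 * (m : ℝ) ^ (i - (r1 + r2))) := by
    exact_mod_cast e1
  rw [div_div, ← mul_div_assoc, div_le_iff₀ (by positivity)]
  calc (N : ℝ) * ((Fc : ℝ) * (C' : ℝ) ^ r2) = ((N : ℝ) * (Fc : ℝ)) * (C' : ℝ) ^ r2 := by ring
    _ ≤ ((lam : ℝ) * (3 ^ r2 * (m' : ℝ) ^ r2 * (m : ℝ) ^ (i - (r1 + r2)))) * (C' : ℝ) ^ r2 := by
        gcongr
    _ = (3 * (C' : ℝ)) ^ r2 * ((m' : ℝ) ^ r2 * ((lam : ℝ) * (m : ℝ) ^ (i - (r1 + r2)))) := by
        rw [mul_pow]; ring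

/-- per `R`: the sum of the means. -/
theorem SFLevel_sum_means {m m' i C' lam : ℕ} {X R1 R2 : Finset ℕ} {Ω : Finset (ℕ → ℕ)}
    (Fa : ℕ → Finset (Finset ℕ)) (hm' : 1 ≤ m') (hmm : m' ≤ m)
    (h3 : m ≤ 3 * m') (hlam : 1 ≤ lam) (hX : X.card ≤ m) (hR2 : R2 ⊆ range m')
    (hΩ0 : Ω.Nonempty)
    (hΩ : ∀ W ⊆ range m', ∀ R ⊆ range m',
      (Ω.filter (fun π => R ⊆ W.image π)).card * m' ^ R.card ≤ W.card ^ R.card * Ω.card)
    (hF1 : ∀ a, 1 ≤ a → a ≤ i → ∀ W ∈ Fa a, W ⊆ range m' ∧ W.card ≤ C')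
    (hF2 : ∀ a, 1 ≤ a → a ≤ i → (Fa a).card ≤ lam * m' ^ (i - a)) :
    ∑ T0 ∈ X.powerset.filter (fun T0 => 1 ≤ T0.card ∧ T0.card ≤ i),
      (∑ π ∈ Ω, (if R1 ⊆ T0 then (SFLevel_cnt (Fa T0.card) π R2 : ℝ) /
        ((lam : ℝ) * (m : ℝ) ^ (i - (R1.card + R2.card))) else 0)) / (Ω.card : ℝ) ≤
      i * (3 * (C' : ℝ)) ^ R2.card := by
  set b : ℝ := (lam : ℝ) * (m : ℝ) ^ (i - (R1.card + R2.card)) with hb
  have hm0 : (0 : ℝ) < m' := by exact_mod_cast hm'
  have hm1 : (0 : ℝ) < m := by exact_mod_cast (lt_of_lt_of_le hm' hmm)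
  have hl0 : (0 : ℝ) < lam := by exact_mod_cast hlam
  have hb0 : 0 < b := by positivity
  have hΩc : (0 : ℝ) < Ω.card := by exact_mod_cast hΩ0.card_pos
  -- bound for one `T0`
  have step1 : ∀ T0 ∈ X.powerset.filter (fun T0 => 1 ≤ T0.card ∧ T0.card ≤ i),
      (∑ π ∈ Ω, (if R1 ⊆ T0 then (SFLevel_cnt (Fa T0.card) π R2 : ℝ) / b else 0)) /
        (Ω.card : ℝ) ≤
      if R1 ⊆ T0 then (((Fa T0.card).card : ℝ) * (C' : ℝ) ^ R2.card / (m' : ℝ) ^ R2.card) / b
        else 0 := by
    intro T0 hT0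
    have hT := (mem_filter.1 hT0).2
    split_ifs with hR1
    · rw [← sum_div]
      have h1 := SFLevel_mean (Ω := Ω) hR2 (hF1 T0.card hT.1 hT.2) hΩ
      have h2 : ((∑ π ∈ Ω, (SFLevel_cnt (Fa T0.card) π R2 : ℝ)) * (m' : ℝ) ^ R2.card) ≤
          ((Fa T0.card).card : ℝ) * (C' : ℝ) ^ R2.card * (Ω.card : ℝ) := by
        exact_mod_cast h1
      rw [div_right_comm]
      refine div_le_div_of_nonneg_right ?_ hb0.le
      rw [div_le_div_iff₀ hΩc (by positivity)]
      exact h2
    · simp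
  refine (sum_le_sum step1).trans ?_
  -- group by the size of `T0`
  have hmaps : ∀ T0 ∈ X.powerset.filter (fun T0 => 1 ≤ T0.card ∧ T0.card ≤ i),
      T0.card ∈ Icc 1 i := by
    intro T0 hT0
    have hT := (mem_filter.1 hT0).2
    exact mem_Icc.2 hT
  rw [← sum_fiberwise_of_maps_to hmaps]
  have step2 : ∀ a ∈ Icc 1 i,
      ∑ T0 ∈ (X.powerset.filter (fun T0 => 1 ≤ T0.card ∧ T0.card ≤ i)).filter
          (fun T0 => T0.card = a),
        (if R1 ⊆ T0 then (((Fa T0.card).card : ℝ) * (C' : ℝ) ^ R2.card /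
          (m' : ℝ) ^ R2.card) / b else 0) ≤ (3 * (C' : ℝ)) ^ R2.card := by
    intro a ha
    have ha' := mem_Icc.1 ha
    have e1 : ∑ T0 ∈ (X.powerset.filter (fun T0 => 1 ≤ T0.card ∧ T0.card ≤ i)).filter
          (fun T0 => T0.card = a),
        (if R1 ⊆ T0 then (((Fa T0.card).card : ℝ) * (C' : ℝ) ^ R2.card /
          (m' : ℝ) ^ R2.card) / b else 0) =
        ∑ T0 ∈ (powersetCard a X).filter (fun T0 => R1 ⊆ T0),
          (((Fa a).card : ℝ) * (C' : ℝ) ^ R2.card / (m' : ℝ) ^ R2.card) / b := by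
      rw [← sum_filter]
      refine sum_congr ?_ ?_
      · ext T0
        simp only [mem_filter, mem_powerset, mem_powersetCard]
        constructor
        · rintro ⟨⟨⟨h1, h2⟩, h3⟩, h4⟩
          exact ⟨⟨h1, h3⟩, h4⟩
        · rintro ⟨⟨h1, h3⟩, h4⟩
          exact ⟨⟨⟨h1, by omega⟩, h3⟩, h4⟩
      · intro T0 hT0
        rw [(mem_powersetCard.1 (mem_filter.1 hT0).1).2]
    rw [e1, sum_const, nsmul_eq_mul]
    by_cases har : R1.card ≤ a
    · refine SFLevel_num hm' hmm h3 har ha'.2 ?_ (hF2 a ha'.1 ha'.2) hlam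
      exact (SFLevel_count har).trans (Nat.pow_le_pow_left hX _)
    · have e2 : (powersetCard a X).filter (fun T0 => R1 ⊆ T0) = ∅ := by
        rw [filter_eq_empty_iff]
        intro T0 hT0 h
        have := card_le_card h
        rw [(mem_powersetCard.1 hT0).2] at this
        exact har this
      rw [e2]
      simp only [card_empty, Nat.cast_zero, zero_mul]
      positivity
  refine (sum_le_sum step2).trans ?_
  rw [sum_const, nsmul_eq_mul, Nat.card_Icc]
  have : i + 1 - 1 = i := by omega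
  rw [this]

theorem sf_level {d i c0 C' : ℕ} (hi : 1 ≤ i) (hc0 : d + 2 * i ≤ c0) (hc1 : 1 ≤ c0)
    (hprev : ∀ a, 1 ≤ a → a ≤ i → SFprop d c0 (i - a) C') :
    ∃ C : ℕ, ∀ n m : ℕ, 2 * c0 ≤ m → m ≤ n → ∃ fam : Finset ℕ → Finset (Finset ℕ),
      (∀ T0, T0 ⊆ range m \ range (m / 2) → 1 ≤ T0.card → T0.card ≤ i →
        (∀ W ∈ fam T0, W ⊆ range (m / 2) ∧ c0 ≤ W.card ∧ W.card ≤ C) ∧
        Gen (d + (i - T0.card)) (i - T0.card)
          (powersetCard (i - T0.card) (range (m / 2))) (fam T0)) ∧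
      ∀ R : Finset ℕ, ((newSets i m (m / 2) fam).filter (fun W => R ⊆ W)).card ≤
        Lam n ^ C * m ^ (i - R.card) := by
  classical
  set k := C' + i with hk
  set E := 4 * (i * (3 * C' + 1) ^ k) + 2 * k with hE
  refine ⟨C' + 1 + E, ?_⟩
  intro n m hm hmn
  set m' := m / 2 with hm'def
  have hm'c : c0 ≤ m' := by omega
  have hm'1 : 1 ≤ m' := by omega
  have hmm : m' ≤ m := by omega
  have h3 : m ≤ 3 * m' := by omega
  have hm1 : 1 ≤ m := by omega
  have hlam2 : 2 ≤ Lam n := Lam_pos n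
  have hlam1 : 1 ≤ Lam n ^ C' := Nat.one_le_pow _ _ (by omega)
  have hF : ∀ a, ∃ F : Finset (Finset ℕ), 1 ≤ a → a ≤ i →
      (∀ W ∈ F, W ⊆ range m' ∧ c0 ≤ W.card ∧ W.card ≤ C') ∧
      Gen (d + (i - a)) (i - a) (powersetCard (i - a) (range m')) F ∧
      ∀ R : Finset ℕ, (F.filter (fun W => R ⊆ W)).card ≤ Lam n ^ C' * m' ^ (i - a - R.card) := by
    intro a
    by_cases h : 1 ≤ a ∧ a ≤ i
    · obtain ⟨F, hF⟩ := hprev a h.1 h.2 n m' hm'c (hmm.trans hmn)
      exact ⟨F, fun _ _ => hF⟩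
    · exact ⟨∅, fun h1 h2 => absurd ⟨h1, h2⟩ h⟩
  choose Fa hFa using hF
  obtain ⟨Ω, hΩ0, hΩb, hΩ⟩ := exists_perms (A := range m') (B := range m') rfl
  rw [card_range] at hΩ
  set X := range m \ range m' with hX
  have hXc : X.card ≤ m := by
    calc X.card ≤ (range m).card := card_le_card sdiff_subset
      _ = m := card_range m
  set T := X.powerset.filter (fun T0 => 1 ≤ T0.card ∧ T0.card ≤ i) with hT
  set Rs := (range m).powerset.filter (fun R => R.card ≤ k) with hRs
  set b : Finset ℕ → ℝ := fun R => ((Lam n ^ C' : ℕ) : ℝ) * (m : ℝ) ^ (i - R.card) with hb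
  have hm0R : (0 : ℝ) < m := by exact_mod_cast hm1
  have hl0R : (0 : ℝ) < ((Lam n ^ C' : ℕ) : ℝ) := by exact_mod_cast hlam1
  have hb0 : ∀ R, 0 < b R := fun R => by simp only [hb]; positivity
  have hsplit : ∀ R ⊆ range m, (R \ range m').card + (R ∩ range m').card = R.card := by
    intro R _
    rw [add_comm]
    exact card_inter_add_card_sdiff R (range m')
  -- counts for one task
  have hcnt : ∀ a, 1 ≤ a → a ≤ i → ∀ π ∈ Ω, ∀ R2 ⊆ range m',
      SFLevel_cnt (Fa a) π R2 ≤ Lam n ^ C' * m' ^ (i - a - R2.card) := by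
    intro a h1 h2 π hπ R2 hR2
    refine SFLevel_cnt_le (hΩb π hπ) hR2 (fun W hW => ((hFa a h1 h2).1 W hW).1) ?_
    intro S hS
    have := (hFa a h1 h2).2.2 S
    rwa [hS] at this
  set x : Finset ℕ → Finset ℕ → (ℕ → ℕ) → ℝ := fun R T0 π =>
    if R \ range m' ⊆ T0 then (SFLevel_cnt (Fa T0.card) π (R ∩ range m') : ℝ) / b R else 0
    with hx
  have hx0 : ∀ R ∈ Rs, ∀ t ∈ T, ∀ π ∈ Ω, 0 ≤ x R t π := by
    intro R _ t _ π _
    simp only [hx]
    split_ifs
    · exact div_nonneg (Nat.cast_nonneg _) (hb0 R).le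
    · exact le_rfl
  have hx1 : ∀ R ∈ Rs, ∀ t ∈ T, ∀ π ∈ Ω, x R t π ≤ 1 := by
    intro R hR t ht π hπ
    simp only [hx]
    split_ifs with hsub
    · rw [div_le_one (hb0 R)]
      have ht' := (mem_filter.1 ht).2
      have h1 := hcnt t.card ht'.1 ht'.2 π hπ (R ∩ range m') inter_subset_right
      have h2 := hsplit R (mem_powerset.1 (mem_filter.1 hR).1)
      have h4 := card_le_card hsub
      have h5 : SFLevel_cnt (Fa t.card) π (R ∩ range m') ≤ Lam n ^ C' * m ^ (i - R.card) := by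
        refine h1.trans (Nat.mul_le_mul_left _ ?_)
        refine (Nat.pow_le_pow_left hmm _).trans (Nat.pow_le_pow_right hm1 ?_)
        omega
      simp only [hb]
      exact_mod_cast h5
    · exact zero_le_one
  have hB : ∀ R ∈ Rs, ∑ t ∈ T, (∑ π ∈ Ω, x R t π) / (Ω.card : ℝ) ≤
      (i : ℝ) * (3 * (C' : ℝ) + 1) ^ k := by
    intro R hR
    have hR' := mem_filter.1 hR
    have h2 := hsplit R (mem_powerset.1 hR'.1)
    have h5 := SFLevel_sum_means (R1 := R \ range m') (R2 := R ∩ range m') (Ω := Ω)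
      (lam := Lam n ^ C') (C' := C') (i := i) (X := X) Fa hm'1 hmm h3 hlam1 hXc
      inter_subset_right hΩ0 hΩ
      (fun a h1 h2 W hW => ⟨((hFa a h1 h2).1 W hW).1, ((hFa a h1 h2).1 W hW).2.2⟩)
      (fun a h1 h2 => by
        have h6 := (hFa a h1 h2).2.2 ∅
        rw [card_empty, Nat.sub_zero] at h6
        refine le_trans (card_le_card ?_) h6
        intro W hW
        exact mem_filter.2 ⟨hW, empty_subset _⟩)
    rw [h2] at h5
    refine h5.trans ?_
    apply mul_le_mul_of_nonneg_left _ (Nat.cast_nonneg i)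
    have hC0 : (0 : ℝ) ≤ C' := Nat.cast_nonneg _
    calc (3 * (C' : ℝ)) ^ (R ∩ range m').card
        ≤ (3 * (C' : ℝ) + 1) ^ (R ∩ range m').card := by
          apply pow_le_pow_left₀ (by positivity)
          linarith
      _ ≤ (3 * (C' : ℝ) + 1) ^ k := by
          apply pow_le_pow_right₀ (by linarith)
          have := hR'.2
          omega
  obtain ⟨w, hw1, hw2⟩ := scl0 T (fun _ => Ω) (fun _ _ => hΩ0) Rs x hx0 hx1
    (fun _ => (i : ℝ) * (3 * (C' : ℝ) + 1) ^ k) hB
  refine ⟨fun T0 => if T0 ∈ T then (Fa T0.card).image (fun W => W.image (w T0)) else ∅, ?_, ?_⟩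
  · intro T0 hT0 ha1 ha2
    have hmem : T0 ∈ T := mem_filter.2 ⟨mem_powerset.2 hT0, ha1, ha2⟩
    simp only [if_pos hmem]
    have hbij := hΩb _ (hw1 T0 hmem)
    have hinj : Set.InjOn (w T0) (range m' : Finset ℕ) := hbij.injOn
    have himg : (range m').image (w T0) = range m' := by
      rw [← Finset.coe_inj, Finset.coe_image]
      exact hbij.image_eq
    have hF0 := hFa T0.card ha1 ha2
    refine ⟨?_, ?_⟩
    · intro W hW
      obtain ⟨W', hW', rfl⟩ := mem_image.1 hW
      have h7 := hF0.1 W' hW'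
      have h8 : (W'.image (w T0)).card = W'.card :=
        card_image_of_injOn (hinj.mono (Finset.coe_subset.2 h7.1))
      refine ⟨?_, ?_, ?_⟩
      · rw [← himg]
        exact image_subset_image h7.1
      · rw [h8]; exact h7.2.1
      · rw [h8]; exact h7.2.2.trans (by omega)
    · have h9 := Gen_image (φ := w T0) (A := range m') hinj (fun W hW => (hF0.1 W hW).1) hF0.2.1
      rwa [himg] at h9
  · intro R
    set fam : Finset ℕ → Finset (Finset ℕ) :=
      fun T0 => if T0 ∈ T then (Fa T0.card).image (fun W => W.image (w T0)) else ∅ with hfam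
    -- members of the new family
    have hnew : ∀ Z ∈ newSets i m m' fam, ∃ T0 ∈ T, ∃ W ∈ Fa T0.card,
        Z = T0 ∪ W.image (w T0) := by
      intro Z hZ
      unfold newSets at hZ
      obtain ⟨T0, hT0, hZ⟩ := mem_biUnion.1 hZ
      obtain ⟨V, hV, rfl⟩ := mem_image.1 hZ
      have hmem : T0 ∈ T := hT0
      simp only [hfam, if_pos hmem] at hV
      obtain ⟨W, hW, rfl⟩ := mem_image.1 hV
      exact ⟨T0, hmem, W, hW, rfl⟩
    have himgsub : ∀ T0 ∈ T, ∀ W ∈ Fa T0.card, W.image (w T0) ⊆ range m' ∧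
        (W.image (w T0)).card ≤ C' := by
      intro T0 hmem W hW
      have ht' := (mem_filter.1 hmem).2
      have h7 := (hFa T0.card ht'.1 ht'.2).1 W hW
      have hbij := hΩb _ (hw1 T0 hmem)
      refine ⟨?_, card_image_le.trans h7.2.2⟩
      intro y hy
      obtain ⟨z, hz, rfl⟩ := mem_image.1 hy
      exact Finset.mem_coe.1 (hbij.mapsTo (Finset.mem_coe.2 (h7.1 hz)))
    by_cases hR : R ∈ Rs
    · -- main case
      have hR' := mem_filter.1 hR
      have hcard : ((newSets i m m' fam).filter (fun W => R ⊆ W)).card ≤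
          ∑ T0 ∈ T, if R \ range m' ⊆ T0 then
            SFLevel_cnt (Fa T0.card) (w T0) (R ∩ range m') else 0 := by
        have hsub : (newSets i m m' fam).filter (fun W => R ⊆ W) ⊆
            T.biUnion (fun T0 => if R \ range m' ⊆ T0 then
              ((Fa T0.card).filter (fun W => R ∩ range m' ⊆ W.image (w T0))).image
                (fun W => T0 ∪ W.image (w T0)) else ∅) := by
          intro Z hZ
          rw [mem_filter] at hZ
          obtain ⟨T0, hT0, W, hW, rfl⟩ := hnew Z hZ.1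
          rw [mem_biUnion]
          refine ⟨T0, hT0, ?_⟩
          have hT0X : T0 ⊆ X := mem_powerset.1 (mem_filter.1 hT0).1
          have hI := (himgsub T0 hT0 W hW).1
          have h10 : R \ range m' ⊆ T0 := by
            intro y hy
            rw [mem_sdiff] at hy
            rcases mem_union.1 (hZ.2 hy.1) with h | h
            · exact h
            · exact absurd (hI h) hy.2
          have h11 : R ∩ range m' ⊆ W.image (w T0) := by
            intro y hy
            rw [mem_inter] at hy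
            rcases mem_union.1 (hZ.2 hy.1) with h | h
            · have := hT0X h
              rw [hX, mem_sdiff] at this
              exact absurd hy.2 this.2
            · exact h
          rw [if_pos h10]
          exact mem_image.2 ⟨W, mem_filter.2 ⟨hW, h11⟩, rfl⟩
        refine (card_le_card hsub).trans (card_biUnion_le.trans ?_)
        refine sum_le_sum fun T0 _ => ?_
        split_ifs
        · exact card_image_le
        · simp
      have hsum : (∑ T0 ∈ T, (if R \ range m' ⊆ T0 then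
            (SFLevel_cnt (Fa T0.card) (w T0) (R ∩ range m') : ℝ) else 0)) =
          b R * ∑ T0 ∈ T, x R T0 (w T0) := by
        rw [mul_sum]
        refine sum_congr rfl fun T0 _ => ?_
        simp only [hx]
        split_ifs
        · rw [mul_div_cancel₀ _ (hb0 R).ne']
        · simp
      have hlog : Real.log (Rs.card : ℝ) ≤ (2 * k : ℝ) * (Lam n : ℝ) := by
        have h12 : Rs.card ≤ (k + 1) * m ^ k := SFLevel_card_Rs hm1
        have h13 : 0 < Rs.card := card_pos.2 ⟨R, hR⟩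
        have h14 : Real.log (Rs.card : ℝ) ≤ Real.log (((k + 1 : ℕ) : ℝ) * (m : ℝ) ^ k) := by
          apply Real.log_le_log (by exact_mod_cast h13)
          exact_mod_cast h12
        rw [Real.log_mul (by positivity) (by positivity), Real.log_pow] at h14
        have h15 : Real.log ((k + 1 : ℕ) : ℝ) ≤ k := by
          have := Real.log_le_sub_one_of_pos (show (0 : ℝ) < ((k + 1 : ℕ) : ℝ) by positivity)
          push_cast at this ⊢
          linarith
        have h16 := SFLevel_log_le hm1 hmn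
        have h17 : (1 : ℝ) ≤ Lam n := by exact_mod_cast (by omega : 1 ≤ Lam n)
        have h18 : (0 : ℝ) ≤ k := Nat.cast_nonneg k
        nlinarith
      have htot : (∑ T0 ∈ T, (if R \ range m' ⊆ T0 then
            (SFLevel_cnt (Fa T0.card) (w T0) (R ∩ range m') : ℝ) else 0)) ≤
          b R * ((E : ℝ) * (Lam n : ℝ)) := by
        rw [hsum]
        apply mul_le_mul_of_nonneg_left _ (hb0 R).le
        refine (hw2 R hR).trans ?_
        have h17 : (1 : ℝ) ≤ Lam n := by exact_mod_cast (by omega : 1 ≤ Lam n)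
        have h19 : (E : ℝ) = 4 * ((i : ℝ) * (3 * (C' : ℝ) + 1) ^ k) + 2 * k := by
          rw [hE]; push_cast; ring
        have h20 : (0 : ℝ) ≤ 4 * ((i : ℝ) * (3 * (C' : ℝ) + 1) ^ k) := by positivity
        rw [h19]
        nlinarith
      have hfin : ((∑ T0 ∈ T, if R \ range m' ⊆ T0 then
            SFLevel_cnt (Fa T0.card) (w T0) (R ∩ range m') else 0 : ℕ) : ℝ) ≤
          ((Lam n ^ (C' + 1 + E) * m ^ (i - R.card) : ℕ) : ℝ) := by
        push_cast
        refine htot.trans ?_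
        simp only [hb]
        have h21 : (E : ℝ) ≤ (Lam n : ℝ) ^ E := by
          have h22 : E ≤ Lam n ^ E := by
            calc E ≤ 2 ^ E := (Nat.lt_two_pow_self).le
              _ ≤ Lam n ^ E := Nat.pow_le_pow_left hlam2 _
          exact_mod_cast h22
        have h23 : (0 : ℝ) ≤ (Lam n : ℝ) := Nat.cast_nonneg _
        push_cast
        calc (Lam n : ℝ) ^ C' * (m : ℝ) ^ (i - R.card) * ((E : ℝ) * (Lam n : ℝ))
            ≤ (Lam n : ℝ) ^ C' * (m : ℝ) ^ (i - R.card) * ((Lam n : ℝ) ^ E * (Lam n : ℝ)) := by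
              gcongr
          _ = (Lam n : ℝ) ^ (C' + 1 + E) * (m : ℝ) ^ (i - R.card) := by
              rw [pow_add (Lam n : ℝ) (C' + 1) E, pow_succ (Lam n : ℝ) C']; ring
      exact hcard.trans (by exact_mod_cast hfin)
    · -- nothing contains `R`
      have hempty : (newSets i m m' fam).filter (fun W => R ⊆ W) = ∅ := by
        rw [filter_eq_empty_iff]
        intro Z hZ hRZ
        apply hR
        obtain ⟨T0, hT0, W, hW, rfl⟩ := hnew Z hZ
        have h24 := himgsub T0 hT0 W hW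
        have ht' := (mem_filter.1 hT0)
        have hT0X : T0 ⊆ X := mem_powerset.1 ht'.1
        refine mem_filter.2 ⟨mem_powerset.2 ?_, ?_⟩
        · refine hRZ.trans (union_subset (hT0X.trans sdiff_subset) ?_)
          exact h24.1.trans (range_subset_range.2 hmm)
        · refine (card_le_card hRZ).trans ((card_union_le _ _).trans ?_)
          have := ht'.2.2
          omega
      rw [hempty, card_empty]
      exact Nat.zero_le _

end Pool.Agent.Kv
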