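import Pool.Agent.Designs.Ctx

set_option autoImplicit false

/-!
# Module SFStep: one halving step for spread generating families, algebra part
(section 4 of the paper proof, ALGEBRA)

`L ∈ Dv (d+i) i (powersetCard i (range m))`. Put `D = range m \ range m'`. For `a = i, i-1, …, 1`:
assume `L T = 0` whenever `|T ∩ D| > a`. For each `T0 ⊆ D` with `|T0| = a` apply `ctx` with `G = T0`,
`H = range m'`, `F = fam T0`, `(q,r) := (d+i,i)` (note `(d+i) - a = d + (i-a)`): the edges
`T ⊇ T0` in the support satisfy `T ∩ D = T0`. The vectors `f W` live on subsets of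
`T0 ∪ range m'`, so they change `L T` only for `T ∩ D ⊆ T0`; so `L - ∑_{T0} ∑_W f` vanishes on all
`T` with `|T ∩ D| ≥ a`.
-/

namespace Pool.Agent.Kv

open Finset

/-- the new sets of one halving step. -/
def newSets (i m m' : ℕ) (fam : Finset ℕ → Finset (Finset ℕ)) : Finset (Finset ℕ) :=
  ((range m \ range m').powerset.filter (fun T0 => 1 ≤ T0.card ∧ T0.card ≤ i)).biUnion
    (fun T0 => (fam T0).image (fun W => T0 ∪ W))

/-- `L` is a sum of divisible vectors on the sets of `F`. -/
def SFStepSp (q r : ℕ) (F : Finset (Finset ℕ)) (L : Finset ℕ → ℤ) : Prop :=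
  ∃ f : Finset ℕ → Finset ℕ → ℤ,
    (∀ W ∈ F, f W ∈ Dv q r (powersetCard r W)) ∧ L = ∑ W ∈ F, f W

lemma SFStepSp_zero {q r : ℕ} (F : Finset (Finset ℕ)) : SFStepSp q r F 0 :=
  ⟨fun _ => 0, fun _ _ => AddSubgroup.zero_mem _, by simp⟩

lemma SFStepSp_add {q r : ℕ} {F : Finset (Finset ℕ)} {L M : Finset ℕ → ℤ}
    (hL : SFStepSp q r F L) (hM : SFStepSp q r F M) : SFStepSp q r F (L + M) := by
  obtain ⟨f, hf, rfl⟩ := hL
  obtain ⟨g, hg, rfl⟩ := hM
  refine ⟨fun W => f W + g W, fun W hW => AddSubgroup.add_mem _ (hf W hW) (hg W hW), ?_⟩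
  rw [sum_add_distrib]

lemma SFStepSp_single {q r : ℕ} {F : Finset (Finset ℕ)} {V : Finset ℕ} (hV : V ∈ F)
    {L : Finset ℕ → ℤ} (hL : L ∈ Dv q r (powersetCard r V)) : SFStepSp q r F L := by
  refine ⟨fun W => if W = V then L else 0, fun W _ => ?_, ?_⟩
  · dsimp only
    split_ifs with h
    · rw [h]; exact hL
    · exact AddSubgroup.zero_mem _
  · rw [sum_ite_eq' F V (fun _ => L), if_pos hV]

lemma SFStepSp_sum {q r : ℕ} {F : Finset (Finset ℕ)} {ι : Type*} (s : Finset ι)
    (L : ι → Finset ℕ → ℤ) (h : ∀ j ∈ s, SFStepSp q r F (L j)) :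
    SFStepSp q r F (∑ j ∈ s, L j) := by
  classical
  induction s using Finset.induction_on with
  | empty => simpa using SFStepSp_zero F
  | insert a s ha ih =>
    rw [sum_insert ha]
    exact SFStepSp_add (h a (mem_insert_self a s)) (ih fun j hj => h j (mem_insert_of_mem hj))

lemma SFStepSp_mono {q r : ℕ} {F F' : Finset (Finset ℕ)} (hFF : F ⊆ F') {L : Finset ℕ → ℤ}
    (hL : SFStepSp q r F L) : SFStepSp q r F' L := by
  obtain ⟨f, hf, rfl⟩ := hL
  exact SFStepSp_sum F f fun W hW => SFStepSp_single (hFF hW) (hf W hW)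

theorem sf_step {d i c0 m m' : ℕ} (hi : 1 ≤ i) (hc0 : d + 2 * i ≤ c0) (hm : m' ≤ m)
    (fam : Finset ℕ → Finset (Finset ℕ))
    (hfam : ∀ T0, T0 ⊆ range m \ range m' → 1 ≤ T0.card → T0.card ≤ i →
      (∀ W ∈ fam T0, W ⊆ range m' ∧ c0 ≤ W.card) ∧
      Gen (d + (i - T0.card)) (i - T0.card) (powersetCard (i - T0.card) (range m')) (fam T0))
    {F' : Finset (Finset ℕ)} (hF' : Gen (d + i) i (powersetCard i (range m')) F') :
    Gen (d + i) i (powersetCard i (range m)) (F' ∪ newSets i m m' fam) := by
  set D := range m \ range m' with hD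
  have hrm : range m' ⊆ range m := range_subset_range.mpr hm
  have key : ∀ a, a ≤ i → ∀ L ∈ Dv (d + i) i (powersetCard i (range m)),
      (∀ T, a < (T ∩ D).card → L T = 0) →
      SFStepSp (d + i) i (F' ∪ newSets i m m' fam) L := by
    intro a
    induction a with
    | zero =>
      intro _ L hL h0
      have h1 : L ∈ Dv (d + i) i (powersetCard i (range m')) := by
        refine Dv_restrict (powersetCard_mono hrm) hL ?_
        intro e he
        by_contra hne
        have h2 : e ∈ powersetCard i (range m) := by
          by_contra h3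
          exact hne (hL.1 e h3)
        rw [mem_powersetCard] at h2 he
        apply hne
        apply h0
        rw [card_pos]
        by_contra h3
        rw [not_nonempty_iff_eq_empty] at h3
        apply he
        refine ⟨?_, h2.2⟩
        intro x hx
        by_contra hx'
        have : x ∈ e ∩ D := mem_inter.mpr ⟨hx, mem_sdiff.mpr ⟨h2.1 hx, hx'⟩⟩
        rw [h3] at this
        simp at this
      exact SFStepSp_mono subset_union_left (hF' L h1)
    | succ a ih =>
      intro hai L hL h0
      -- contexts
      have hctx : ∀ T0 ∈ powersetCard (a + 1) D, ∃ f : Finset ℕ → Finset ℕ → ℤ,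
          (∀ W ∈ fam T0, f W ∈ Dv (d + i) i (powersetCard i (T0 ∪ W))) ∧
          ∀ e, T0 ⊆ e → (L - ∑ W ∈ fam T0, f W) e = 0 := by
        intro T0 hT0
        rw [mem_powersetCard] at hT0
        obtain ⟨hW, hgen⟩ := hfam T0 hT0.1 (by omega) (by omega)
        rw [hT0.2] at hgen
        have e1 : d + i - (a + 1) = d + (i - (a + 1)) := by omega
        have hdisj : Disjoint T0 (range m') := by
          rw [disjoint_left]
          intro x hx hx'
          exact (mem_sdiff.mp (hT0.1 hx)).2 hx'
        refine ctx (by omega) hai hT0.2 hdisj ?_ ?_ ?_ hL ?_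
        · intro W hWf
          refine ⟨(hW W hWf).1, ?_⟩
          have := (hW W hWf).2
          omega
        · rw [e1]; exact hgen
        · intro e he
          exact (mem_powersetCard.mp he).2
        · intro e he hne x hx
          have h2 : e ∈ powersetCard i (range m) := by
            by_contra h3
            exact hne (hL.1 e h3)
          rw [mem_powersetCard] at h2
          by_contra hx'
          apply hne
          apply h0
          have hsub : insert x T0 ⊆ e ∩ D := by
            intro y hy
            rcases mem_insert.mp hy with rfl | hy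
            · exact mem_inter.mpr ⟨(mem_sdiff.mp hx).1,
                mem_sdiff.mpr ⟨h2.1 (mem_sdiff.mp hx).1, hx'⟩⟩
            · exact mem_inter.mpr ⟨he hy, hT0.1 hy⟩
          have h3 := card_le_card hsub
          rw [card_insert_of_notMem (mem_sdiff.mp hx).2, hT0.2] at h3
          omega
      choose! f hf1 hf2 using hctx
      -- the new sets
      have hnew : ∀ T0 ∈ powersetCard (a + 1) D, ∀ W ∈ fam T0,
          T0 ∪ W ∈ F' ∪ newSets i m m' fam := by
        intro T0 hT0 W hW
        rw [mem_powersetCard] at hT0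
        refine mem_union_right _ ?_
        unfold newSets
        refine mem_biUnion.mpr ⟨T0, ?_, mem_image_of_mem _ hW⟩
        rw [mem_filter, mem_powerset]
        exact ⟨hT0.1, by omega, by omega⟩
      have hsub : ∀ T0 ∈ powersetCard (a + 1) D, ∀ W ∈ fam T0, W ⊆ range m' := by
        intro T0 hT0 W hW
        rw [mem_powersetCard] at hT0
        exact ((hfam T0 hT0.1 (by omega) (by omega)).1 W hW).1
      have hzero : ∀ T0 ∈ powersetCard (a + 1) D, ∀ W ∈ fam T0, ∀ T, f T0 W T ≠ 0 →
          T ∩ D ⊆ T0 := by
        intro T0 hT0 W hW T hne x hx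
        have h1 : T ∈ powersetCard i (T0 ∪ W) := by
          by_contra h2
          exact hne ((hf1 T0 hT0 W hW).1 T h2)
        rw [mem_powersetCard] at h1
        rcases mem_union.mp (h1.1 (mem_inter.mp hx).1) with h2 | h2
        · exact h2
        · exact absurd (hsub T0 hT0 W hW h2) (mem_sdiff.mp (mem_inter.mp hx).2).2
      set M : Finset ℕ → ℤ := ∑ T0 ∈ powersetCard (a + 1) D, ∑ W ∈ fam T0, f T0 W with hM
      have hMsp : SFStepSp (d + i) i (F' ∪ newSets i m m' fam) M :=
        SFStepSp_sum _ _ fun T0 hT0 => SFStepSp_sum _ _ fun W hW =>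
          SFStepSp_single (hnew T0 hT0 W hW) (hf1 T0 hT0 W hW)
      have hMDv : M ∈ Dv (d + i) i (powersetCard i (range m)) := by
        refine AddSubgroup.sum_mem _ fun T0 hT0 => AddSubgroup.sum_mem _ fun W hW => ?_
        refine Dv_mono (powersetCard_mono ?_) (hf1 T0 hT0 W hW)
        refine union_subset ?_ ((hsub T0 hT0 W hW).trans hrm)
        exact (mem_powersetCard.mp hT0).1.trans sdiff_subset
      have hL' : SFStepSp (d + i) i (F' ∪ newSets i m m' fam) (L - M) := by
        refine ih (by omega) (L - M) (AddSubgroup.sub_mem _ hL hMDv) ?_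
        intro T hT
        have hMT : M T = ∑ T0 ∈ powersetCard (a + 1) D, ∑ W ∈ fam T0, f T0 W T := by
          rw [hM]
          simp only [Finset.sum_apply]
        rcases Nat.lt_or_ge (a + 1) (T ∩ D).card with h1 | h1
        · rw [Pi.sub_apply, h0 T h1, hMT]
          have : ∑ T0 ∈ powersetCard (a + 1) D, ∑ W ∈ fam T0, f T0 W T = 0 := by
            refine sum_eq_zero fun T0 hT0 => sum_eq_zero fun W hW => ?_
            by_contra hne
            have h2 := card_le_card (hzero T0 hT0 W hW T hne)
            rw [(mem_powersetCard.mp hT0).2] at h2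
            omega
          rw [this]; ring
        · have hcard : (T ∩ D).card = a + 1 := by omega
          have hmem : T ∩ D ∈ powersetCard (a + 1) D :=
            mem_powersetCard.mpr ⟨inter_subset_right, hcard⟩
          have h2 : M T = ∑ W ∈ fam (T ∩ D), f (T ∩ D) W T := by
            rw [hMT]
            refine sum_eq_single_of_mem (T ∩ D) hmem ?_
            intro T0 hT0 hne
            refine sum_eq_zero fun W hW => ?_
            by_contra hne'
            have h3 := hzero T0 hT0 W hW T hne'
            exact hne (eq_of_subset_of_card_le h3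
              (by rw [(mem_powersetCard.mp hT0).2, hcard])).symm
          have h3 := hf2 (T ∩ D) hmem T inter_subset_left
          rw [Pi.sub_apply, Finset.sum_apply] at h3
          rw [Pi.sub_apply, h2]
          exact h3
      have := SFStepSp_add hL' hMsp
      rwa [sub_add_cancel] at this
  intro L hL
  refine key i le_rfl L hL ?_
  intro T hT
  apply hL.1
  intro h1
  rw [mem_powersetCard] at h1
  have := card_le_card (inter_subset_left : T ∩ D ⊆ T)
  omega

end Pool.Agent.Kv
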